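import Pool.Agent.MP_b591f0_mp.XY.A1

-- part MP_b591f0_mp.XY.A2
section

section

open Finset Real

namespace Pool.Agent.XYU

open Classical

noncomputable section

/-! Conditioning, splitting, symmetries, removal of sites.
`dlr`: group the states of `Om q S` by their part off `(L', E')`, i.e. by the map
`κ u = (u.a reset on L', u.w \ E', u.b \ E')` (`Finset.sum_fiberwise_of_maps_to` or
`sum_image`-type lemmas). The fibre of `u` is `Om q (S.cond L' E' u)` and on it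
`wt β S u' = (outer weight of u) * wt β (S.cond L' E' u) u'`, the outer weight being
`wr β (S.E \ E') _ u.w * wr β (S.E \ E') _ u.b ≥ 0` (edges off `E'` avoid `L'`), because
`cp σ (w ∩ S.E) ↔ cp σ (w ∩ (S.E \ E')) ∧ cp σ (w ∩ E')`. `dec` is the explicit form.
`rem`: reset `a` to `(0,0)` on `X`; the fibres have `q ^ #X` elements; on states with the edges
touching `X` closed each such edge costs at least `exp (-2β)`; for the partition function use
`Z_triple`, `es` and `|β * pr c e * sg σ e| ≤ β`. -/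

variable {β : ℝ} {q : ℕ} {S : Sys} {L' : Finset V} {E' : Es} {f g : UC → ℝ}

lemma ac1_sdiff {E E' w w' : Es} (hE : E' ⊆ E) (h : w' \ E' = w \ E') : w' \ E = w \ E := by
  ext e
  have := Finset.ext_iff.1 h e
  have h2 : e ∈ E' → e ∈ E := fun he => hE he
  simp only [mem_sdiff] at this ⊢
  tauto

lemma Om_cond (h : S.In L' E') {u : UC} (hu : u ∈ Om q S) : Om q (S.cond L' E' u) ⊆ Om q S := by
  intro u' hu'
  rw [mem_Om] at hu hu' ⊢
  obtain ⟨h1, h2, h3, h4⟩ := hu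
  obtain ⟨k1, k2, k3, k4⟩ := hu'
  refine ⟨fun v hv => ?_, fun v hv => ?_, ?_, ?_⟩
  · rw [← h1 v hv]
    exact k1 v fun hv' => hv (h.1 hv')
  · by_cases hv' : v ∈ L'
    · exact k2 v hv'
    · have : u'.a v = u.a v := k1 v hv'
      rw [this]
      exact h2 v hv
  · rw [← h3]
    exact ac1_sdiff h.2.1 k3
  · rw [← h4]
    exact ac1_sdiff h.2.1 k4

lemma ac1_fl (h : S.In L' E') {T : Finset Fld} (hT : Fl S.L T) (w : Es) :
    Fl L' (T.filter fun σ => cp σ (w ∩ (S.E \ E'))) := by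
  intro σ hσ v hv
  rw [mem_filter] at hσ ⊢
  refine ⟨hT σ hσ.1 v (h.1 hv), fun x y hxy => ?_⟩
  have he := mem_sdiff.1 (mem_inter.1 hxy).2
  have hx : x ≠ v := fun e => h.2.2 _ he.1 he.2 x (Sym2.mem_mk_left x y) (e ▸ hv)
  have hy : y ≠ v := fun e => h.2.2 _ he.1 he.2 y (Sym2.mem_mk_right x y) (e ▸ hv)
  rw [Pi.add_apply, Pi.add_apply, Pi.single_eq_of_ne hx, Pi.single_eq_of_ne hy, hσ.2 x y hxy]

lemma Grp.cond (hS : Grp S) (h : S.In L' E') {u : UC} (hu : u ∈ Om q S) :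
    Grp (S.cond L' E' u) :=
  ⟨a01_Om hS.a01 hu, hS.T0.filter _, hS.U0.filter _, ac1_fl h hS.Tf _, ac1_fl h hS.Uf _⟩

lemma fl_cond (h : S.In L' E') (hT : Fl S.L S.T) (hU : Fl S.L S.U) (u : UC) :
    Fl L' (S.cond L' E' u).T ∧ Fl L' (S.cond L' E' u).U := ⟨ac1_fl h hT _, ac1_fl h hU _⟩

lemma ac1_wr (h : S.In L' E') {c c' : V → ℝ} (hc : ∀ v ∉ L', c' v = c v) {w w' : Es}
    (hw : w' \ E' = w \ E') (h1 : wr β S.E c w ≠ 0) (h2 : wr β E' c' w' ≠ 0) :
    wr β S.E c' w' ≠ 0 := by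
  unfold wr at h1 h2 ⊢
  rw [prod_ne_zero_iff] at h1 h2 ⊢
  intro e he
  by_cases he' : e ∈ E'
  · exact h2 e he'
  · have h3 : pr c' e = pr c e := by
      have h4 := h.2.2 e he he'
      induction e using Sym2.ind with
      | _ x y =>
        simp only [pr, Sym2.lift_mk]
        rw [hc x (h4 x (Sym2.mem_mk_left x y)), hc y (h4 y (Sym2.mem_mk_right x y))]
    have h5 : (e ∈ w') = (e ∈ w) := by
      have := Finset.ext_iff.1 hw e
      simp only [mem_sdiff] at this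
      exact propext (by tauto)
    rw [h3, h5]
    exact h1 e he

lemma ac1_cnt {E : Es} {T : Finset Fld} {w w' : Es} (hw : w' \ E' = w \ E')
    (h2 : cnt (T.filter fun σ => cp σ (w ∩ (E \ E'))) (w' ∩ E') ≠ 0) : cnt T (w' ∩ E) ≠ 0 := by
  unfold cnt at h2 ⊢
  rw [Nat.cast_ne_zero, card_ne_zero] at h2 ⊢
  obtain ⟨σ, hσ⟩ := h2
  rw [mem_filter, mem_filter] at hσ
  refine ⟨σ, mem_filter.2 ⟨hσ.1.1, cp_mono (fun e he => ?_) (cp_union.2 ⟨hσ.1.2, hσ.2⟩)⟩⟩
  have := Finset.ext_iff.1 hw e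
  simp only [mem_sdiff, mem_inter, mem_union] at this he ⊢
  tauto

/-- a state of nonzero weight of the conditioned system has nonzero weight, if `u` has -/
lemma wt_cond (h : S.In L' E') {u u' : UC} (hu : wt β S u ≠ 0)
    (hu' : u' ∈ Om q (S.cond L' E' u)) (h' : wt β (S.cond L' E' u) u' ≠ 0) : wt β S u' ≠ 0 := by
  rw [mem_Om] at hu'
  obtain ⟨k1, -, k3, k4⟩ := hu'
  unfold wt at hu h' ⊢
  simp only [mul_ne_zero_iff] at hu h' ⊢
  refine ⟨⟨ac1_wr h (fun v hv => ?_) k3 hu.1.1 h'.1.1, ac1_cnt k3 h'.1.2⟩,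
    ac1_wr h (fun v hv => ?_) k4 hu.2.1 h'.2.1, ac1_cnt k4 h'.2.2⟩
  · exact congrArg Prod.fst (k1 v hv)
  · exact congrArg Prod.snd (k1 v hv)

end

end Pool.Agent.XYU

end

section

open Finset Real

namespace Pool.Agent.XYU

open Classical

noncomputable section

variable {β : ℝ} {q : ℕ} {S : Sys} {L' : Finset V} {E' : Es} {f g : UC → ℝ}

lemma ac2_mem {w w' : Es} (hw : w \ E' = w' \ E') {e : Sym2 V} (he : e ∉ E') : e ∈ w ↔ e ∈ w' := by
  have := Finset.ext_iff.1 hw e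
  simpa [he] using this

lemma ac2_inter {E w w' : Es} (hw : w \ E' = w' \ E') : w ∩ (E \ E') = w' ∩ (E \ E') := by
  ext e
  simp only [mem_inter, mem_sdiff]
  exact ⟨fun h => ⟨(ac2_mem hw h.2.2).1 h.1, h.2⟩, fun h => ⟨(ac2_mem hw h.2.2).2 h.1, h.2⟩⟩

lemma ac2_col {E w w' : Es} (T : Finset Fld) {c c' : V → ℝ} (hE : E' ⊆ E)
    (hc : ∀ e ∈ E, e ∉ E' → ∀ v ∈ e, c v = c' v) (hw : w \ E' = w' \ E') :
    wr β E c w * cnt T (w ∩ E) = wr β (E \ E') c' w' *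
      (wr β E' c w * cnt (T.filter fun σ => cp σ (w' ∩ (E \ E'))) (w ∩ E')) := by
  have h1 : wr β E c w = wr β (E \ E') c' w' * wr β E' c w := by
    rw [wr, ← prod_sdiff hE]
    congr 1
    refine prod_congr rfl fun e he => ?_
    obtain ⟨he1, he2⟩ := mem_sdiff.1 he
    have h2 : pr c e = pr c' e := by
      have h3 := hc e he1 he2
      induction e using Sym2.ind with
      | h x y => simp only [pr, Sym2.lift_mk, h3 x (by simp), h3 y (by simp)]
    rw [h2, propext (ac2_mem hw he2)]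
  have h2 : cnt T (w ∩ E) = cnt (T.filter fun σ => cp σ (w' ∩ (E \ E'))) (w ∩ E') := by
    rw [cnt, cnt, filter_filter]
    congr 2
    refine filter_congr fun σ _ => ?_
    rw [← ac2_inter hw, ← cp_union, ← inter_union_distrib_left, sdiff_union_of_subset hE]
  rw [h1, h2, mul_assoc]

lemma ac2_wt (h : S.In L' E') {u v : UC} (hu : u ∈ Om q (S.cond L' E' v)) :
    wt β S u = wr β (S.E \ E') (fun y => (v.a y).1) v.w * wr β (S.E \ E') (fun y => (v.a y).2) v.b *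
      wt β (S.cond L' E' v) u := by
  obtain ⟨h1, -, h3, h4⟩ := mem_Om.1 hu
  have h5 : ∀ e ∈ S.E, e ∉ E' → ∀ y ∈ e, u.a y = v.a y := fun e he he' y hy =>
    h1 y (h.2.2 e he he' y hy)
  rw [wt, ac2_col (β := β) S.T (c := fun y => (u.a y).1) (c' := fun y => (v.a y).1) h.2.1
      (fun e he he' y hy => by rw [h5 e he he' y hy]) h3,
    ac2_col (β := β) S.U (c := fun y => (u.a y).2) (c' := fun y => (v.a y).2) h.2.1
      (fun e he he' y hy => by rw [h5 e he he' y hy]) h4]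
  simp only [wt, Sys.cond]
  ring

/-- the part of a state off the subregion -/
def ac2_out (S : Sys) (L' : Finset V) (E' : Es) (u : UC) : UC :=
  ⟨fun v => if v ∈ L' then S.x.a v else u.a v, u.w \ E' ∪ S.x.w ∩ E', u.b \ E' ∪ S.x.b ∩ E'⟩

lemma ac2_set {E w x : Es} (hE : E' ⊆ E) (hw : w \ E = x \ E) :
    (w \ E' ∪ x ∩ E') \ (E \ E') = x \ (E \ E') := by
  ext e
  have h1 := Finset.ext_iff.1 hw e
  have h2 := @hE e
  simp only [mem_sdiff, mem_union, mem_inter] at h1 ⊢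
  tauto

lemma ac2_set2 {E w v x : Es} (hE : E' ⊆ E) (hv : v \ (E \ E') = x \ (E \ E')) :
    (w \ E = x \ E ∧ w \ E' ∪ x ∩ E' = v) ↔ w \ E' = v \ E' := by
  simp only [Finset.ext_iff, mem_sdiff, mem_union, mem_inter, ← forall_and] at hv ⊢
  refine forall_congr' fun e => ?_
  have h1 := hv e
  have h2 := @hE e
  tauto

lemma ac2_maps (h : S.In L' E') {u : UC} (hu : u ∈ Om q S) :
    ac2_out S L' E' u ∈ Om q ⟨S.L \ L', S.E \ E', S.x, S.T, S.U⟩ := by
  obtain ⟨h1, h2, h3, h4⟩ := mem_Om.1 hu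
  refine mem_Om.2 ⟨fun v hv => ?_, fun v hv => ?_, ac2_set h.2.1 h3, ac2_set h.2.1 h4⟩
  · by_cases hL : v ∈ L'
    · exact if_pos hL
    · exact (if_neg hL).trans (h1 v fun hv' => hv (mem_sdiff.2 ⟨hv', hL⟩))
  · obtain ⟨hv1, hv2⟩ := mem_sdiff.1 hv
    have h5 : (ac2_out S L' E' u).a v = u.a v := if_neg hv2
    rw [h5]
    exact h2 v hv1

lemma ac2_fib (h : S.In L' E') {v : UC} (hv : v ∈ Om q ⟨S.L \ L', S.E \ E', S.x, S.T, S.U⟩) :
    (Om q S).filter (fun u => ac2_out S L' E' u = v) = Om q (S.cond L' E' v) := by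
  obtain ⟨h1, h2, h3, h4⟩ := mem_Om.1 hv
  ext u
  rw [mem_filter, mem_Om, mem_Om, UC.ext_iff]
  have k3 := ac2_set2 (w := u.w) h.2.1 h3
  have k4 := ac2_set2 (w := u.b) h.2.1 h4
  constructor
  · rintro ⟨⟨-, a2, a3, a4⟩, b1, b3, b4⟩
    refine ⟨fun y hy => ?_, fun y hy => a2 y (h.1 hy), k3.1 ⟨a3, b3⟩, k4.1 ⟨a4, b4⟩⟩
    exact (if_neg hy).symm.trans (congrFun b1 y)
  · rintro ⟨a1, a2, a3, a4⟩
    refine ⟨⟨fun y hy => ?_, fun y hy => ?_, (k3.2 a3).1, (k4.2 a4).1⟩, funext fun y => ?_,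
      (k3.2 a3).2, (k4.2 a4).2⟩
    · exact (a1 y fun hy' => hy (h.1 hy')).trans (h1 y fun hy' => hy (mem_sdiff.1 hy').1)
    · by_cases hL : y ∈ L'
      · exact a2 y hL
      · rw [a1 y hL]
        exact h2 y (mem_sdiff.2 ⟨hy, hL⟩)
    · by_cases hL : y ∈ L'
      · exact (if_pos hL).trans (h1 y fun hy' => (mem_sdiff.1 hy').2 hL).symm
      · exact (if_neg hL).trans (a1 y hL)

lemma ac2_term (h : S.In L' E') (v : UC) (f : UC → ℝ) :
    wr β (S.E \ E') (fun y => (v.a y).1) v.w * wr β (S.E \ E') (fun y => (v.a y).2) v.b *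
      Z β q (S.cond L' E' v) f = ∑ u ∈ Om q (S.cond L' E' v), wt β S u * f u := by
  rw [Z, mul_sum]
  exact sum_congr rfl fun u hu => by rw [ac2_wt h hu, mul_assoc _ _ (f u)]

lemma ac2_same {u v : UC} (hu : u ∈ Om q (S.cond L' E' v)) (f : UC → ℝ) :
    Z β q (S.cond L' E' u) f = Z β q (S.cond L' E' v) f := by
  obtain ⟨h1, -, h3, h4⟩ := mem_Om.1 hu
  refine Z_congr_x (S := S.cond L' E' v) (S' := S.cond L' E' u) rfl rfl ?_ ?_ h1 h3 h4 f
  · simp only [Sys.cond, ac2_inter (E := S.E) (E' := E') (w := u.w) (w' := v.w) h3]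
  · simp only [Sys.cond, ac2_inter (E := S.E) (E' := E') (w := u.b) (w' := v.b) h4]

lemma dec (h : S.In L' E') (f : UC → ℝ) : Z β q S f =
    ∑ v ∈ Om q ⟨S.L \ L', S.E \ E', S.x, S.T, S.U⟩,
      wr β (S.E \ E') (fun y => (v.a y).1) v.w * wr β (S.E \ E') (fun y => (v.a y).2) v.b *
        Z β q (S.cond L' E' v) f := by
  rw [Z, ← sum_fiberwise_of_maps_to (g := ac2_out S L' E') fun u hu => ac2_maps h hu]
  exact sum_congr rfl fun v hv => by rw [ac2_term h, ac2_fib h hv]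

theorem dlr (hβ : 0 ≤ β) (hS : A01 S.x.a) (h : S.In L' E')
    (hfg : ∀ u ∈ Om q S, wt β S u ≠ 0 → Z β q (S.cond L' E' u) f ≤ Z β q (S.cond L' E' u) g) :
    Z β q S f ≤ Z β q S g := by
  rw [dec h f, dec h g]
  refine sum_le_sum fun v hv => ?_
  by_cases h0 : ∃ u ∈ Om q (S.cond L' E' v), wt β S u ≠ 0
  · obtain ⟨u, hu, hu0⟩ := h0
    have h1 : u ∈ Om q S := by
      rw [← ac2_fib h hv] at hu
      exact (mem_filter.1 hu).1
    have h2 := hfg u h1 hu0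
    rw [ac2_same hu, ac2_same hu] at h2
    have h3 : A01 v.a := a01_Om (S := ⟨S.L \ L', S.E \ E', S.x, S.T, S.U⟩) hS hv
    exact mul_le_mul_of_nonneg_left h2 (mul_nonneg (wr_nonneg hβ _ (fun y => (h3 y).1.1) _)
      (wr_nonneg hβ _ (fun y => (h3 y).2.1) _))
  · push Not at h0
    rw [ac2_term h, ac2_term h]
    exact sum_le_sum fun u hu => by rw [h0 u hu, zero_mul, zero_mul]

end

end Pool.Agent.XYU

end

section

open Finset Real

namespace Pool.Agent.XYU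

open Classical

noncomputable section

variable {β : ℝ} {q : ℕ} {S : Sys} {L' : Finset V} {E' : Es} {f g : UC → ℝ}

lemma Z_split {ι κ : Type*} (S : Sys) (r : Fld → ι) (r' : Fld → κ) (f : UC → ℝ) : Z β q S f =
    ∑ l ∈ S.T.image r, ∑ l' ∈ S.U.image r',
      Z β q ⟨S.L, S.E, S.x, S.T.filter fun σ => r σ = l, S.U.filter fun σ => r' σ = l'⟩ f := by
  have key : ∀ u : UC, wt β S u * f u = ∑ l ∈ S.T.image r, ∑ l' ∈ S.U.image r',
      wt β ⟨S.L, S.E, S.x, S.T.filter fun σ => r σ = l, S.U.filter fun σ => r' σ = l'⟩ u * f u := by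
    intro u
    unfold wt
    rw [cnt_split S.T r, cnt_split S.U r', mul_sum, mul_sum, sum_mul_sum, sum_mul]
    refine sum_congr rfl fun l _ => ?_
    rw [sum_mul]
  unfold Z
  rw [sum_congr rfl fun u _ => key u, sum_comm]
  refine sum_congr rfl fun l _ => ?_
  rw [sum_comm]
  rfl

lemma Z_cos {T₀ U₀ : Finset Fld} (hT : Cos T₀ S.T) (hU : Cos U₀ S.U) (f : UC → ℝ) :
    Z β q S f = Z β q ⟨S.L, S.E, S.x, T₀, U₀⟩
      fun u => f u * (ind (AT S.T (u.w ∩ S.E)) * ind (AT S.U (u.b ∩ S.E))) := by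
  unfold Z
  refine sum_congr rfl fun u _ => ?_
  unfold wt
  rw [cnt_cos hT, cnt_cos hU]
  ring

lemma Z_idx (hβ : 0 ≤ β) (hS : A01 S.x.a) {T₁ U₁ G H : Finset Fld} (h₁ : SG T₁) (h₂ : SG S.T)
    (h₃ : SG U₁) (h₄ : SG S.U) (hs : Sub S.E T₁ S.T) (hs' : Sub S.E U₁ S.U)
    (hG : ∀ σ ∈ S.T, ∃ g ∈ G, ∃ σ₁ ∈ T₁, ∀ e ∈ S.E, ∀ v ∈ e, σ v = g v + σ₁ v)
    (hH : ∀ σ ∈ S.U, ∃ g ∈ H, ∃ σ₁ ∈ U₁, ∀ e ∈ S.E, ∀ v ∈ e, σ v = g v + σ₁ v)
    (hf : ∀ u, 0 ≤ f u) :
    Z β q S f * Z1 β q ⟨S.L, S.E, S.x, T₁, U₁⟩ ≤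
      #G * #H * (Z β q ⟨S.L, S.E, S.x, T₁, U₁⟩ f * Z1 β q S) := by
  obtain ⟨k, hk, h5⟩ := cnt_idx h₁ h₂ hs hG
  obtain ⟨k', hk', h6⟩ := cnt_idx h₃ h₄ hs' hH
  set S₁ : Sys := ⟨S.L, S.E, S.x, T₁, U₁⟩ with hS₁
  have key : ∀ u ∈ Om q S, k * k' * wt β S₁ u ≤ wt β S u ∧
      wt β S u ≤ k * k' * (#G * #H) * wt β S₁ u := by
    intro u hu
    have ha := a01_Om hS hu
    have a1 := wr_nonneg hβ S.E (c := fun v => (u.a v).1) (fun v => (ha v).1.1) u.w
    have a2 := wr_nonneg hβ S.E (c := fun v => (u.a v).2) (fun v => (ha v).2.1) u.b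
    obtain ⟨b1, b2⟩ := h5 (u.w ∩ S.E) inter_subset_right
    obtain ⟨b3, b4⟩ := h6 (u.b ∩ S.E) inter_subset_right
    have c1 := cnt_nonneg T₁ (u.w ∩ S.E)
    have c2 := cnt_nonneg U₁ (u.b ∩ S.E)
    have c3 := cnt_nonneg S.T (u.w ∩ S.E)
    have c4 := cnt_nonneg S.U (u.b ∩ S.E)
    have d1 := mul_le_mul b1 b3 (mul_nonneg hk'.le c2) c3
    have d2 := mul_le_mul b2 b4 c4 (c3.trans b2)
    have e1 := mul_le_mul_of_nonneg_left d1 (mul_nonneg a1 a2)
    have e2 := mul_le_mul_of_nonneg_left d2 (mul_nonneg a1 a2)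
    simp only [wt, hS₁]
    constructor
    · calc _ = _ := by ring
        _ ≤ _ := e1
        _ = _ := by ring
    · calc _ = _ := by ring
        _ ≤ _ := e2
        _ = _ := by ring
  have z1 : Z β q S f ≤ k * k' * (#G * #H) * Z β q S₁ f := by
    unfold Z
    rw [mul_sum]
    refine sum_le_sum fun u hu => ?_
    rw [← mul_assoc]
    exact mul_le_mul_of_nonneg_right (key u hu).2 (hf u)
  have z2 : k * k' * Z1 β q S₁ ≤ Z1 β q S := by
    unfold Z1 Z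
    rw [mul_sum]
    refine sum_le_sum fun u hu => ?_
    rw [mul_one, mul_one]
    exact (key u hu).1
  have z3 : 0 ≤ Z1 β q S₁ := Z1_nonneg hβ hS
  have z4 : 0 ≤ Z β q S₁ f := Z_nonneg hβ hS fun u _ => hf u
  have z5 : (0 : ℝ) ≤ #G * #H := by positivity
  calc Z β q S f * Z1 β q S₁ ≤ k * k' * (#G * #H) * Z β q S₁ f * Z1 β q S₁ :=
        mul_le_mul_of_nonneg_right z1 z3
    _ = #G * #H * (Z β q S₁ f * (k * k' * Z1 β q S₁)) := by ring
    _ ≤ _ := mul_le_mul_of_nonneg_left (mul_le_mul_of_nonneg_left z2 z4) z5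

end

end Pool.Agent.XYU

end

section

open Finset Real

namespace Pool.Agent.XYU

open Classical

noncomputable section

variable {β : ℝ} {q : ℕ} {S : Sys} {L' : Finset V} {E' : Es} {f g : UC → ℝ}

lemma sw_sw (u : UC) : u.sw.sw = u := by
  ext <;> simp [UC.sw]

lemma ac4_mem_sw {u : UC} (hu : u ∈ Om q S) : u.sw ∈ Om q S.sw := by
  rw [mem_Om] at hu ⊢
  obtain ⟨h1, h2, h3, h4⟩ := hu
  refine ⟨fun v hv => ?_, fun v hv => site_swap.2 (h2 v hv), h4, h3⟩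
  exact congrArg Prod.swap (h1 v hv)

lemma Z_sw (S : Sys) (f : UC → ℝ) : Z β q S.sw f = Z β q S fun u => f u.sw := by
  unfold Z
  symm
  refine sum_nbij' UC.sw UC.sw (fun u hu => ac4_mem_sw hu) (fun u hu => ?_)
    (fun u _ => sw_sw u) (fun u _ => sw_sw u) (fun u _ => ?_)
  · have := ac4_mem_sw hu
    have e : S.sw.sw = S := by
      cases S
      simp only [Sys.sw, sw_sw]
    rwa [e] at this
  · congr 1
    exact mul_comm _ _

lemma Grp.sw (hS : Grp S) : Grp S.sw := by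
  refine ⟨fun v => ?_, hS.U0, hS.T0, hS.Uf, hS.Tf⟩
  exact ⟨(hS.a01 v).2, (hS.a01 v).1⟩

lemma map_symm (F : V ≃ V) (u : UC) : (u.map F).map F.symm = u := by
  have e : Sym2.map F.symm ∘ Sym2.map F = id := by
    funext z
    rw [Function.comp_apply, Sym2.map_map]
    simp
  refine UC.ext ?_ ?_ ?_
  · funext v; simp [UC.map]
  · simp only [UC.map]; rw [image_image, e, image_id]
  · simp only [UC.map]; rw [image_image, e, image_id]

lemma ac4_inj (F : V ≃ V) : Function.Injective (Sym2.map F) := Sym2.map.injective F.injective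

lemma ac4_mem_img (F : V ≃ V) (A : Finset V) (v : V) : v ∈ A.image F ↔ F.symm v ∈ A := by
  rw [mem_image]
  constructor
  · rintro ⟨y, hy, rfl⟩; simpa using hy
  · intro h; exact ⟨_, h, by simp⟩

lemma ac4_mem_map (F : V ≃ V) {u : UC} : u.map F ∈ Om q (S.map F) ↔ u ∈ Om q S := by
  rw [mem_Om, mem_Om]
  simp only [Sys.map, UC.map, ac4_mem_img, ← image_sdiff _ _ (ac4_inj F),
    (image_injective (ac4_inj F)).eq_iff]
  refine and_congr ?_ (and_congr ?_ Iff.rfl)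
  · exact ⟨fun h v hv => by simpa using h (F v) (by simpa using hv), fun h v hv => h _ hv⟩
  · exact ⟨fun h v hv => by simpa using h (F v) (by simpa using hv), fun h v hv => h _ hv⟩

lemma ac4_wr (β : ℝ) (F : V ≃ V) (E : Es) (c : V → ℝ) (w : Es) :
    wr β (E.image (Sym2.map F)) (fun v => c (F.symm v)) (w.image (Sym2.map F)) = wr β E c w := by
  unfold wr
  rw [prod_image fun x _ y _ h => ac4_inj F h]
  refine prod_congr rfl fun e _ => ?_
  have e1 : pr (fun v => c (F.symm v)) (e.map F) = pr c e := by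
    induction e using Sym2.ind with
    | _ x y => simp [pr]
  rw [e1, (ac4_inj F).mem_finset_image]

lemma ac4_inj' (F : V ≃ V) : Function.Injective fun (σ : Fld) (v : V) => σ (F.symm v) := by
  intro σ τ h
  funext v
  simpa using congrFun h (F v)

lemma ac4_cnt (F : V ≃ V) (T : Finset Fld) (w : Es) :
    cnt (T.image fun σ v => σ (F.symm v)) (w.image (Sym2.map F)) = cnt T w := by
  unfold cnt
  rw [filter_image, card_image_of_injective _ (ac4_inj' F)]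
  congr 2
  refine filter_congr fun σ _ => ?_
  constructor
  · intro h x y hxy
    simpa using h (F x) (F y) (mem_image.2 ⟨_, hxy, rfl⟩)
  · intro h x y hxy
    apply h
    have e : s(x, y) = Sym2.map F s(F.symm x, F.symm y) := by simp
    rw [e, (ac4_inj F).mem_finset_image] at hxy
    exact hxy

lemma ac4_sg (F : V ≃ V) {T : Finset Fld} (h : SG T) : SG (T.image fun σ v => σ (F.symm v)) := by
  refine ⟨mem_image.2 ⟨0, h.1, rfl⟩, fun σ hσ τ hτ => ?_⟩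
  obtain ⟨σ, h1, rfl⟩ := mem_image.1 hσ
  obtain ⟨τ, h2, rfl⟩ := mem_image.1 hτ
  exact mem_image.2 ⟨σ + τ, h.2 _ h1 _ h2, rfl⟩

lemma ac4_fl (F : V ≃ V) {L : Finset V} {T : Finset Fld} (h : Fl L T) :
    Fl (L.image F) (T.image fun σ v => σ (F.symm v)) := by
  intro σ hσ v hv
  obtain ⟨σ, h1, rfl⟩ := mem_image.1 hσ
  obtain ⟨v, h2, rfl⟩ := mem_image.1 hv
  refine mem_image.2 ⟨σ + Pi.single v 1, h _ h1 _ h2, ?_⟩
  funext y
  simp only [Pi.add_apply, Pi.single_apply, Equiv.symm_apply_eq]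

lemma ac4_flip (F : V ≃ V) (A : Finset V) :
    ((Flip A).image fun σ v => σ (F.symm v)) = Flip (A.image F) := by
  ext σ
  rw [mem_image, mem_Flip]
  constructor
  · rintro ⟨τ, h, rfl⟩ v hv
    exact mem_Flip.1 h _ fun hh => hv ((ac4_mem_img F A v).2 hh)
  · intro h
    refine ⟨fun v => σ (F v), mem_Flip.2 fun v hv => h _ ?_, by funext v; simp⟩
    rw [ac4_mem_img]; simpa using hv

lemma Z_map (F : V ≃ V) (S : Sys) (f : UC → ℝ) :
    Z β q (S.map F) f = Z β q S fun u => f (u.map F) := by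
  unfold Z
  symm
  refine sum_nbij' (UC.map F) (UC.map F.symm) (fun u hu => (ac4_mem_map F).2 hu) (fun u hu => ?_)
    (fun u _ => map_symm F u) (fun u _ => map_symm F.symm u) (fun u _ => ?_)
  · apply (ac4_mem_map F).1
    have := map_symm F.symm u
    rw [Equiv.symm_symm] at this
    rw [this]; exact hu
  · congr 1
    simp only [wt, Sys.map, UC.map]
    rw [ac4_wr β F S.E (fun v => (u.a v).1), ac4_wr β F S.E (fun v => (u.a v).2),
      ← image_inter _ _ (ac4_inj F), ← image_inter _ _ (ac4_inj F), ac4_cnt, ac4_cnt]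

lemma Grp.map (hS : Grp S) (F : V ≃ V) : Grp (S.map F) := by
  exact ⟨fun v => hS.a01 _, ac4_sg F hS.T0, ac4_sg F hS.U0, ac4_fl F hS.Tf, ac4_fl F hS.Uf⟩

lemma Smax_map (F : V ≃ V) (L : Finset V) (E : Es) (X : Finset V) :
    (Smax L E X).map F = Smax (L.image F) (E.image (Sym2.map F)) (X.image F) := by
  have e : (L ∪ ends E).image F = L.image F ∪ ends (E.image (Sym2.map F)) := by
    rw [image_union]
    congr 1
    ext v
    rw [ac4_mem_img, mem_ends, mem_ends]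
    constructor
    · rintro ⟨e, he, hv⟩
      exact ⟨e.map F, mem_image_of_mem _ he, Sym2.mem_map.2 ⟨_, hv, by simp⟩⟩
    · rintro ⟨e, he, hv⟩
      obtain ⟨e', he', rfl⟩ := mem_image.1 he
      obtain ⟨y, hy, rfl⟩ := Sym2.mem_map.1 hv
      exact ⟨e', he', by simpa using hy⟩
  simp only [Sys.map, Smax, ac4_flip, e, UC.map, image_empty, ac4_mem_img]

end

end Pool.Agent.XYU

end

section

open Finset Real

namespace Pool.Agent.XYU

open Classical

noncomputable section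

variable {β : ℝ} {q : ℕ} {S : Sys} {L' : Finset V} {E' : Es} {f g : UC → ℝ}

/-- the system with the sites of `X` removed -/
def Sys.rem (S : Sys) (X : Finset V) : Sys :=
  ⟨S.L \ X, S.E, ⟨fun v => if v ∈ X then (0, 0) else S.x.a v, S.x.w, S.x.b⟩, S.T, S.U⟩

lemma ac_a01 {a : V → ℝ × ℝ} (h : A01 a) (X : Finset V) :
    A01 fun v => if v ∈ X then (0, 0) else a v := by
  intro v
  by_cases hv : v ∈ X
  · simp [hv]
  · simpa [hv] using h v

lemma Grp.rem (hS : Grp S) (X : Finset V) : Grp (S.rem X) :=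
  ⟨ac_a01 hS.a01 X, hS.T0, hS.U0, fun σ hσ v hv => hS.Tf σ hσ v (mem_sdiff.1 hv).1,
    fun σ hσ v hv => hS.Uf σ hσ v (mem_sdiff.1 hv).1⟩

lemma ac_fib {L X : Finset V} (hX : X ⊆ L) (a₀ : V → ℝ × ℝ) (F : (V → ℝ × ℝ) → ℝ) :
    ∑ a ∈ As q L a₀, F (fun v => if v ∈ X then (0, 0) else a v) =
      q ^ #X * ∑ a ∈ As q (L \ X) (fun v => if v ∈ X then (0, 0) else a₀ v), F a := by
  have hm : ∀ a ∈ As q L a₀, (fun v => if v ∈ X then ((0 : ℝ), (0 : ℝ)) else a v) ∈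
      As q (L \ X) (fun v => if v ∈ X then (0, 0) else a₀ v) := by
    intro a ha
    obtain ⟨h1, h2⟩ := mem_As.1 ha
    refine mem_As.2 ⟨fun v hv => ?_, fun v hv => ?_⟩
    · by_cases hx : v ∈ X
      · simp only [if_pos hx]
      · simp only [if_neg hx]
        exact h1 v fun hl => hv (mem_sdiff.2 ⟨hl, hx⟩)
    · simp only [if_neg (mem_sdiff.1 hv).2]
      exact h2 v (mem_sdiff.1 hv).1
  rw [← sum_fiberwise_of_maps_to hm, mul_sum]
  refine sum_congr rfl fun a' ha' => ?_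
  obtain ⟨k1, k2⟩ := mem_As.1 ha'
  have e : ((As q L a₀).filter fun a =>
      (fun v => if v ∈ X then ((0 : ℝ), (0 : ℝ)) else a v) = a') = As q X a' := by
    ext a
    rw [mem_filter, mem_As, mem_As]
    constructor
    · rintro ⟨⟨-, h2⟩, rfl⟩
      exact ⟨fun v hv => by simp only [if_neg hv], fun v hv => h2 v (hX hv)⟩
    · rintro ⟨h1, h2⟩
      refine ⟨⟨fun v hv => ?_, fun v hv => ?_⟩, funext fun v => ?_⟩
      · have hx : v ∉ X := fun hx => hv (hX hx)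
        rw [h1 v hx, k1 v fun hl => hv (mem_sdiff.1 hl).1]
        simp only [if_neg hx]
      · by_cases hx : v ∈ X
        · exact h2 v hx
        · rw [h1 v hx]
          exact k2 v (mem_sdiff.2 ⟨hv, hx⟩)
      · by_cases hx : v ∈ X
        · rw [k1 v fun hl => (mem_sdiff.1 hl).2 hx]
          simp only [if_pos hx]
        · simp only [if_neg hx]
          exact h1 v hx
  rw [sum_congr rfl fun a ha => congrArg F (mem_filter.1 ha).2, sum_const, e, card_As,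
    nsmul_eq_mul, Nat.cast_pow]

lemma ac_pr_off {X : Finset V} {c c' : V → ℝ} (h : ∀ v ∉ X, c' v = c v) {e : Sym2 V}
    (he : ¬ ∃ v ∈ X, v ∈ e) : pr c' e = pr c e := by
  induction e using Sym2.ind with
  | _ x y =>
    have hx : x ∉ X := fun hx => he ⟨x, hx, Sym2.mem_mk_left x y⟩
    have hy : y ∉ X := fun hy => he ⟨y, hy, Sym2.mem_mk_right x y⟩
    simp only [pr, Sym2.lift_mk, h x hx, h y hy]

lemma ac_pr_on {X : Finset V} {c' : V → ℝ} (h : ∀ v ∈ X, c' v = 0) {e : Sym2 V}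
    (he : ∃ v ∈ X, v ∈ e) : pr c' e = 0 := by
  induction e using Sym2.ind with
  | _ x y =>
    obtain ⟨v, hv, hve⟩ := he
    rcases Sym2.mem_iff.1 hve with rfl | rfl
    · simp only [pr, Sym2.lift_mk, h v hv, zero_mul]
    · simp only [pr, Sym2.lift_mk, h v hv, mul_zero]

lemma ac_sg (σ : Fld) (e : Sym2 V) : -1 ≤ sg σ e ∧ sg σ e ≤ 1 := by
  induction e using Sym2.ind with
  | _ x y =>
    simp only [sg, Sym2.lift_mk]
    split_ifs <;> norm_num

lemma ac_cnt (E : Es) (X : Finset V) (t : ℝ) :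
    ∑ e ∈ E, (if ∃ v ∈ X, v ∈ e then t else 0) = t * #(E.filter fun e => ∃ v ∈ X, v ∈ e) := by
  rw [← sum_filter, sum_const, nsmul_eq_mul, mul_comm]

lemma ac_wr (hβ : 0 ≤ β) (E : Es) {X : Finset V} {c c' : V → ℝ} (hc : ∀ v, 0 ≤ c v ∧ c v ≤ 1)
    (h : ∀ v ∉ X, c' v = c v) (h0 : ∀ v ∈ X, c' v = 0) (w : Es) :
    exp (-β * #(E.filter fun e => ∃ v ∈ X, v ∈ e)) * wr β E c' w ≤ wr β E c w := by
  have hc' : ∀ v, 0 ≤ c' v := fun v => by
    by_cases hv : v ∈ X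
    · exact (h0 v hv).ge
    · rw [h v hv]
      exact (hc v).1
  rw [← ac_cnt, exp_sum, wr, wr, ← prod_mul_distrib]
  refine prod_le_prod (fun e _ => mul_nonneg (exp_pos _).le
    (ew_nonneg (mul_nonneg hβ (pr_nonneg hc' e)) _)) fun e _ => ?_
  by_cases he : ∃ v ∈ X, v ∈ e
  · rw [if_pos he, ac_pr_on h0 he]
    by_cases hw : e ∈ w
    · have := ew_nonneg (mul_nonneg hβ (pr_nonneg (fun v => (hc v).1) e)) (e ∈ w)
      simpa [ew, hw] using this
    · simp only [ew, if_neg hw, mul_zero, neg_zero, exp_zero, mul_one, exp_le_exp]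
      have := mul_le_mul_of_nonneg_left (pr_le_one hc e) hβ
      linarith
  · rw [if_neg he, exp_zero, one_mul, ac_pr_off h he]

lemma ac_Isum (hβ : 0 ≤ β) (E : Es) (T : Finset Fld) {X : Finset V} {c c' : V → ℝ}
    (hc : ∀ v, 0 ≤ c v ∧ c v ≤ 1) (h : ∀ v ∉ X, c' v = c v) (h0 : ∀ v ∈ X, c' v = 0) :
    Isum β E T c ≤ exp (β * #(E.filter fun e => ∃ v ∈ X, v ∈ e)) * Isum β E T c' := by
  rw [Isum, Isum, mul_sum]
  refine sum_le_sum fun σ _ => ?_
  rw [← exp_add, exp_le_exp, ← ac_cnt, ← sum_add_distrib]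
  refine sum_le_sum fun e _ => ?_
  by_cases he : ∃ v ∈ X, v ∈ e
  · rw [if_pos he, ac_pr_on h0 he]
    have h1 := mul_le_mul_of_nonneg_left (pr_le_one hc e) hβ
    have h2 := mul_le_mul_of_nonneg_left (ac_sg σ e).2
      (mul_nonneg hβ (pr_nonneg (fun v => (hc v).1) e))
    linarith
  · rw [if_neg he, zero_add, ac_pr_off h he]

lemma ac_Isum_nonneg (E : Es) (T : Finset Fld) (c : V → ℝ) : 0 ≤ Isum β E T c :=
  sum_nonneg fun _ _ => (exp_pos _).le

lemma ac_Z1 (S : Sys) : Z1 β q S = ∑ a ∈ As q S.L S.x.a,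
    Isum β S.E S.T (fun v => (a v).1) * Isum β S.E S.U fun v => (a v).2 := by
  rw [Z1, Z_triple]
  refine sum_congr rfl fun a _ => ?_
  rw [← es β S.E S.T _ S.x.w, ← es β S.E S.U _ S.x.b, FK, FK, sum_mul_sum]
  simp only [wt, mul_one]

lemma ac_a01_As (hS : A01 S.x.a) {a : V → ℝ × ℝ} (ha : a ∈ As q S.L S.x.a) : A01 a := by
  intro v
  obtain ⟨h1, h2⟩ := mem_As.1 ha
  by_cases hv : v ∈ S.L
  · exact site_01 (h2 v hv)
  · rw [h1 v hv]
    exact hS v

lemma rem (hβ : 0 ≤ β) (hS : A01 S.x.a) {X : Finset V} (hX : X ⊆ S.L) (G : Es → Es → ℝ)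
    (hG : ∀ w b, 0 ≤ G w b) :
    exp (-(4 * β * #(S.E.filter fun e => ∃ v ∈ X, v ∈ e))) *
        (Z β q (S.rem X) (fun u => G u.w u.b) * Z1 β q S) ≤
      Z β q S (fun u => G u.w u.b) * Z1 β q (S.rem X) := by
  obtain ⟨m, hm⟩ : ∃ m : ℝ, m = #(S.E.filter fun e => ∃ v ∈ X, v ∈ e) := ⟨_, rfl⟩
  have hR : A01 (S.rem X).x.a := ac_a01 hS X
  have h1 : exp (-β * m) * exp (-β * m) * (q ^ #X * Z β q (S.rem X) fun u => G u.w u.b) ≤
      Z β q S fun u => G u.w u.b := by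
    rw [Z_triple, Z_triple]
    have e := ac_fib (q := q) hX S.x.a fun a => ∑ w ∈ Ws S.E S.x.w, ∑ b ∈ Ws S.E S.x.b,
      wt β S ⟨a, w, b⟩ * G w b
    refine le_of_eq_of_le (congrArg _ e.symm) ?_
    rw [mul_sum]
    refine sum_le_sum fun a ha => ?_
    have h01 := ac_a01_As hS ha
    have h02 := ac_a01 h01 X
    rw [mul_sum]
    refine sum_le_sum fun w _ => ?_
    rw [mul_sum]
    refine sum_le_sum fun b _ => ?_
    rw [← mul_assoc]
    refine mul_le_mul_of_nonneg_right ?_ (hG w b)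
    have i1 := ac_wr hβ S.E (X := X) (c := fun v => (a v).1)
      (c' := fun v => (if v ∈ X then ((0 : ℝ), (0 : ℝ)) else a v).1) (fun v => (h01 v).1)
      (fun v hv => by simp only [if_neg hv]) (fun v hv => by simp only [if_pos hv]) w
    have i2 := ac_wr hβ S.E (X := X) (c := fun v => (a v).2)
      (c' := fun v => (if v ∈ X then ((0 : ℝ), (0 : ℝ)) else a v).2) (fun v => (h01 v).2)
      (fun v hv => by simp only [if_neg hv]) (fun v hv => by simp only [if_pos hv]) b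
    rw [← hm] at i1 i2
    have j1 := mul_le_mul_of_nonneg_right i1 (cnt_nonneg S.T (w ∩ S.E))
    have j2 := mul_le_mul_of_nonneg_right i2 (cnt_nonneg S.U (b ∩ S.E))
    refine le_of_eq_of_le ?_ (mul_le_mul j1 j2 (mul_nonneg (mul_nonneg (exp_pos _).le
      (wr_nonneg hβ _ (fun v => (h02 v).2.1) _)) (cnt_nonneg _ _))
      (mul_nonneg (wr_nonneg hβ _ (fun v => (h01 v).1.1) _) (cnt_nonneg _ _)))
    simp only [wt]
    ring
  have h2 : Z1 β q S ≤ exp (β * m) * exp (β * m) * (q ^ #X * Z1 β q (S.rem X)) := by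
    rw [ac_Z1, ac_Z1]
    have e := ac_fib (q := q) hX S.x.a fun a =>
      Isum β S.E S.T (fun v => (a v).1) * Isum β S.E S.U fun v => (a v).2
    refine le_of_le_of_eq ?_ (congrArg _ e)
    rw [mul_sum]
    refine sum_le_sum fun a ha => ?_
    have h01 := ac_a01_As hS ha
    have i1 := ac_Isum hβ S.E S.T (X := X) (c := fun v => (a v).1)
      (c' := fun v => (if v ∈ X then ((0 : ℝ), (0 : ℝ)) else a v).1) (fun v => (h01 v).1)
      (fun v hv => by simp only [if_neg hv]) (fun v hv => by simp only [if_pos hv])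
    have i2 := ac_Isum hβ S.E S.U (X := X) (c := fun v => (a v).2)
      (c' := fun v => (if v ∈ X then ((0 : ℝ), (0 : ℝ)) else a v).2) (fun v => (h01 v).2)
      (fun v hv => by simp only [if_neg hv]) (fun v hv => by simp only [if_pos hv])
    rw [← hm] at i1 i2
    refine (mul_le_mul i1 i2 (ac_Isum_nonneg _ _ _)
      (mul_nonneg (exp_pos _).le (ac_Isum_nonneg _ _ _))).trans_eq ?_
    ring
  have z1 : 0 ≤ Z β q (S.rem X) fun u => G u.w u.b := Z_nonneg hβ hR fun u _ => hG _ _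
  have z2 : 0 ≤ Z1 β q (S.rem X) := Z1_nonneg hβ hR
  have e1 : exp (-(4 * β * m)) * (exp (β * m) * exp (β * m)) = exp (-β * m) * exp (-β * m) := by
    rw [← exp_add, ← exp_add, ← exp_add]
    congr 1
    ring
  rw [← hm]
  refine le_trans ?_ (mul_le_mul_of_nonneg_right h1 z2)
  refine (mul_le_mul_of_nonneg_left (mul_le_mul_of_nonneg_left h2 z1) (exp_pos _).le).trans_eq ?_
  rw [← e1]
  ring

end

end Pool.Agent.XYU

end

section

open Finset Real

namespace Pool.Agent.XYU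

open Classical

noncomputable section

/-! Monotonicity and positive association.
`fk_mon`, `fk_fkg`: `sum_Ws`, then `Finset.four_functions_theorem`-type lemmas of
`Mathlib/Combinatorics/SetFamily/FourFunctions.lean` on `E.powerset` (closed under union and
intersection), with `cnt_four` and, edge by edge, for `0 ≤ J ≤ J'`:
`ew J p * ew J' p' ≤ ew J (p ∧ p') * ew J' (p ∨ p')`.
`as_four`: four functions on `As q L`: write `As` as the image of the distributive lattice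
`L → Fin q` (`four_functions_theorem_univ`, `st_ple`, `st_inj`).
`mon`: first `cnt_res` for both colours, to get nested groups (the constants cancel); adding a
constant to `f, f'` makes them nonnegative. By `Z_triple`, `Z S f = ∑ a, m a * F a` with
`m a = Isum T c * Isum U s` (`es`) and `F a` the average of `f` over both edge sets;
`F a ≤ F' a'` for `a ≤ a'` by `fk_mon` used for the red, then for the blue edges (roles of the two
systems exchanged); `m a * m' a' ≤ m (a ⊓ a') * m' (a ⊔ a')` by `h4` for each colour, `B` being the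
set of sites of `L` where the first is larger (`Fl.add` shows that the exchange on `B ⊆ L` keeps
the groups). Conclude with `as_four`.
`fkg`: for fixed `a`, `avg (f g) ≥ avg f * avg g` by `fk_fkg` twice (red increasing, blue
decreasing: apply to `-f, -g`), the averages are monotone in `a` (`fk_mon`), then `as_four` with
`(m F, m G, m, m F G)`. -/

variable {β : ℝ} {q : ℕ} {S : Sys} {f g : UC → ℝ}

lemma ad1_four (E : Es) (f₁ f₂ f₃ f₄ : Es → ℝ) (h₁ : ∀ w ⊆ E, 0 ≤ f₁ w) (h₂ : ∀ w ⊆ E, 0 ≤ f₂ w)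
    (h₃ : ∀ w ⊆ E, 0 ≤ f₃ w) (h₄ : ∀ w ⊆ E, 0 ≤ f₄ w)
    (h : ∀ w ⊆ E, ∀ w' ⊆ E, f₁ w * f₂ w' ≤ f₃ (w ∩ w') * f₄ (w ∪ w')) :
    (∑ w ∈ E.powerset, f₁ w) * ∑ w ∈ E.powerset, f₂ w ≤
      (∑ w ∈ E.powerset, f₃ w) * ∑ w ∈ E.powerset, f₄ w := by
  have key := Finset.four_functions_theorem (f₁ := fun w => f₁ (w ∩ E))
    (f₂ := fun w => f₂ (w ∩ E)) (f₃ := fun w => f₃ (w ∩ E)) (f₄ := fun w => f₄ (w ∩ E)) E
    (fun w => h₁ _ inter_subset_right) (fun w => h₂ _ inter_subset_right)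
    (fun w => h₃ _ inter_subset_right) (fun w => h₄ _ inter_subset_right)
    (by
      intro s hs t ht
      have h1 : s ∩ t ⊆ E := inter_subset_left.trans hs
      have h2 : s ∪ t ⊆ E := union_subset hs ht
      simp only [inter_eq_left.2 hs, inter_eq_left.2 ht, inter_eq_left.2 h1, inter_eq_left.2 h2]
      exact h s hs t ht)
    (Subset.refl E.powerset) (Subset.refl E.powerset)
  rw [powerset_infs_powerset_self, powerset_sups_powerset_self] at key
  have e : ∀ F : Es → ℝ, ∑ w ∈ E.powerset, F (w ∩ E) = ∑ w ∈ E.powerset, F w := fun F =>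
    sum_congr rfl fun w hw => by rw [inter_eq_left.2 (mem_powerset.1 hw)]
  rwa [e f₁, e f₂, e f₃, e f₄] at key

lemma ad1_ew {J J' : ℝ} (h : J ≤ J') (p p' : Prop) :
    ew J p * ew J' p' ≤ ew J (p ∧ p') * ew J' (p ∨ p') := by
  unfold ew
  by_cases hp : p <;> by_cases hp' : p' <;> simp only [hp, hp', and_self, or_self, and_false,
    or_false, false_and, false_or, if_true, if_false, le_refl]
  have h1 : exp J * exp (-J') ≤ exp (-J) * exp J' := by
    rw [← exp_add, ← exp_add]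
    exact exp_le_exp.2 (by linarith)
  nlinarith

lemma ad1_pr {E : Es} {c c' : V → ℝ} (hc : ∀ e ∈ E, ∀ v ∈ e, 0 ≤ c v ∧ c v ≤ c' v) :
    ∀ e ∈ E, 0 ≤ pr c e ∧ pr c e ≤ pr c' e := by
  intro e he
  induction e using Sym2.ind with
  | h x y =>
    have hx := hc _ he x (Sym2.mem_mk_left x y)
    have hy := hc _ he y (Sym2.mem_mk_right x y)
    simp only [pr, Sym2.lift_mk]
    exact ⟨mul_nonneg hx.1 hy.1, mul_le_mul hx.2 hy.2 hy.1 (hx.1.trans hx.2)⟩

lemma ad1_wr_nonneg (hβ : 0 ≤ β) {E : Es} {c : V → ℝ} (hc : ∀ e ∈ E, 0 ≤ pr c e) (w : Es) :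
    0 ≤ wr β E c w :=
  prod_nonneg fun e he => ew_nonneg (mul_nonneg hβ (hc e he)) _

lemma ad1_wr (hβ : 0 ≤ β) {E : Es} {c c' : V → ℝ} (hc : ∀ e ∈ E, 0 ≤ pr c e ∧ pr c e ≤ pr c' e)
    (w w' : Es) : wr β E c w * wr β E c' w' ≤ wr β E c (w ∩ w') * wr β E c' (w ∪ w') := by
  unfold wr
  rw [← prod_mul_distrib, ← prod_mul_distrib]
  refine prod_le_prod (fun e he => mul_nonneg (ew_nonneg (mul_nonneg hβ (hc e he).1) _)
    (ew_nonneg (mul_nonneg hβ ((hc e he).1.trans (hc e he).2)) _)) fun e he => ?_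
  simp only [mem_inter, mem_union]
  exact ad1_ew (mul_le_mul_of_nonneg_left (hc e he).2 hβ) _ _

/-- the weight of a set of free edges -/
def ad1_mu (β : ℝ) (E : Es) (T : Finset Fld) (c : V → ℝ) (w : Es) : ℝ := wr β E c w * cnt T w

lemma ad1_FK (β : ℝ) (E : Es) (T : Finset Fld) (c : V → ℝ) (w₀ : Es) (F : Es → ℝ) :
    FK β E T c w₀ F = ∑ w ∈ E.powerset, ad1_mu β E T c w * F (w ∪ w₀ \ E) := by
  unfold FK
  rw [sum_Ws]
  refine sum_congr rfl fun w hw => ?_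
  have hw' := mem_powerset.1 hw
  have h1 : (w ∪ w₀ \ E) ∩ E = w := by
    ext e
    simp only [mem_inter, mem_union, mem_sdiff]
    constructor
    · rintro ⟨h | h, h'⟩
      · exact h
      · exact absurd h' h.2
    · intro h
      exact ⟨Or.inl h, hw' h⟩
  have h2 : wr β E c (w ∪ w₀ \ E) = wr β E c w := by
    unfold wr
    refine prod_congr rfl fun e he => ?_
    have : (e ∈ w ∪ w₀ \ E) = (e ∈ w) := by
      simp only [mem_union, mem_sdiff, he, not_true, and_false, or_false]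
    rw [this]
  rw [h1, h2, ad1_mu]

lemma ad1_mem {E w : Es} (hw : w ⊆ E) (w₀ : Es) : w ∪ w₀ \ E ∈ Ws E w₀ :=
  mem_image.2 ⟨w, mem_powerset.2 hw, rfl⟩

lemma ad1_mu_nonneg (hβ : 0 ≤ β) {E : Es} (T : Finset Fld) {c : V → ℝ}
    (hc : ∀ e ∈ E, 0 ≤ pr c e) (w : Es) : 0 ≤ ad1_mu β E T c w :=
  mul_nonneg (ad1_wr_nonneg hβ hc w) (cnt_nonneg T w)

lemma ad1_mu_four (hβ : 0 ≤ β) {E : Es} {T T' : Finset Fld} (hT : SG T) (hT' : SG T')
    (h : T' ⊆ T) {c c' : V → ℝ} (hc : ∀ e ∈ E, 0 ≤ pr c e ∧ pr c e ≤ pr c' e) (w w' : Es) :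
    ad1_mu β E T c w * ad1_mu β E T' c' w' ≤
      ad1_mu β E T c (w ∩ w') * ad1_mu β E T' c' (w ∪ w') := by
  unfold ad1_mu
  have h1 := ad1_wr hβ hc w w'
  have h2 := cnt_four hT hT' h w w'
  have h3 : 0 ≤ wr β E c (w ∩ w') * wr β E c' (w ∪ w') :=
    mul_nonneg (ad1_wr_nonneg hβ (fun e he => (hc e he).1) _)
      (ad1_wr_nonneg hβ (fun e he => (hc e he).1.trans (hc e he).2) _)
  have h4 := mul_le_mul h1 h2 (mul_nonneg (cnt_nonneg _ _) (cnt_nonneg _ _)) h3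
  calc _ = wr β E c w * wr β E c' w' * (cnt T w * cnt T' w') := by ring
    _ ≤ _ := h4
    _ = _ := by ring

lemma ad1_add (β : ℝ) (E : Es) (T : Finset Fld) (c : V → ℝ) (w₀ : Es) (F : Es → ℝ) (C : ℝ) :
    FK β E T c w₀ (fun w => F w + C) = FK β E T c w₀ F + C * FK β E T c w₀ (fun _ => 1) := by
  unfold FK
  rw [mul_sum, ← sum_add_distrib]
  exact sum_congr rfl fun w _ => by ring

lemma ad1_bdd (A : Finset Es) (F : Es → ℝ) : ∃ C : ℝ, 0 ≤ C ∧ ∀ w ∈ A, 0 ≤ F w + C := by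
  refine ⟨∑ w ∈ A, |F w|, sum_nonneg fun w _ => abs_nonneg _, fun w hw => ?_⟩
  have h1 : |F w| ≤ ∑ w ∈ A, |F w| :=
    single_le_sum (f := fun w => |F w|) (fun w _ => abs_nonneg _) hw
  have h2 := neg_abs_le (F w)
  linarith

lemma fk_mon (hβ : 0 ≤ β) {E : Es} {T T' : Finset Fld} (hT : SG T) (hT' : SG T') (h : T' ⊆ T)
    {c c' : V → ℝ} (hc : ∀ e ∈ E, ∀ v ∈ e, 0 ≤ c v ∧ c v ≤ c' v) (w₀ w₀' : Es) {F F' : Es → ℝ}
    (hF : ∀ w ∈ Ws E w₀, ∀ w' ∈ Ws E w₀', w ∩ E ⊆ w' → F w ≤ F' w') :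
    FK β E T c w₀ F * FK β E T' c' w₀' (fun _ => 1) ≤
      FK β E T' c' w₀' F' * FK β E T c w₀ (fun _ => 1) := by
  have hp := ad1_pr hc
  have hp1 : ∀ e ∈ E, 0 ≤ pr c e := fun e he => (hp e he).1
  have hp2 : ∀ e ∈ E, 0 ≤ pr c' e := fun e he => (hp e he).1.trans (hp e he).2
  obtain ⟨C, hC, hFC⟩ := ad1_bdd (Ws E w₀) F
  obtain ⟨C', hC', hFC'⟩ := ad1_bdd (Ws E w₀') F'
  have key : FK β E T c w₀ (fun w => F w + (C + C')) * FK β E T' c' w₀' (fun _ => 1) ≤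
      FK β E T c w₀ (fun _ => 1) * FK β E T' c' w₀' (fun w => F' w + (C + C')) := by
    simp only [ad1_FK]
    refine ad1_four E _ _ _ _ (fun w hw => mul_nonneg (ad1_mu_nonneg hβ T hp1 w) ?_)
      (fun w _ => mul_nonneg (ad1_mu_nonneg hβ T' hp2 w) zero_le_one)
      (fun w _ => mul_nonneg (ad1_mu_nonneg hβ T hp1 w) zero_le_one)
      (fun w hw => mul_nonneg (ad1_mu_nonneg hβ T' hp2 w) ?_) fun w hw w' hw' => ?_
    · have := hFC _ (ad1_mem hw w₀)
      linarith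
    · have := hFC' _ (ad1_mem hw w₀')
      linarith
    · have h1 := ad1_mu_four hβ hT hT' h hp w w'
      have h2 : F (w ∪ w₀ \ E) ≤ F' (w ∪ w' ∪ w₀' \ E) := by
        refine hF _ (ad1_mem hw w₀) _ (ad1_mem (union_subset hw hw') w₀') fun e he => ?_
        simp only [mem_inter, mem_union, mem_sdiff] at he ⊢
        rcases he with ⟨he | he, he'⟩
        · exact Or.inl (Or.inl he)
        · exact absurd he' he.2
      have h3 := hFC _ (ad1_mem hw w₀)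
      have h4 := mul_le_mul h1 (add_le_add_left h2 (C + C')) (by linarith)
        (mul_nonneg (ad1_mu_nonneg hβ T hp1 _) (ad1_mu_nonneg hβ T' hp2 _))
      calc _ = ad1_mu β E T c w * ad1_mu β E T' c' w' * (F (w ∪ w₀ \ E) + (C + C')) := by ring
        _ ≤ _ := h4
        _ = _ := by ring
  rw [ad1_add, ad1_add] at key
  nlinarith

lemma fk_fkg (hβ : 0 ≤ β) {E : Es} {T : Finset Fld} (hT : SG T) {c : V → ℝ}
    (hc : ∀ e ∈ E, ∀ v ∈ e, 0 ≤ c v) (w₀ : Es) {F G : Es → ℝ}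
    (hF : ∀ w ∈ Ws E w₀, ∀ w' ∈ Ws E w₀, w ⊆ w' → F w ≤ F w')
    (hG : ∀ w ∈ Ws E w₀, ∀ w' ∈ Ws E w₀, w ⊆ w' → G w ≤ G w') :
    FK β E T c w₀ F * FK β E T c w₀ G ≤
      FK β E T c w₀ (fun w => F w * G w) * FK β E T c w₀ (fun _ => 1) := by
  have hp := ad1_pr (c := c) (c' := c) fun e he v hv => ⟨hc e he v hv, le_rfl⟩
  have hp1 : ∀ e ∈ E, 0 ≤ pr c e := fun e he => (hp e he).1
  obtain ⟨C, hC, hFC⟩ := ad1_bdd (Ws E w₀) F
  obtain ⟨C', hC', hGC⟩ := ad1_bdd (Ws E w₀) G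
  have key : FK β E T c w₀ (fun w => F w + C) * FK β E T c w₀ (fun w => G w + C') ≤
      FK β E T c w₀ (fun _ => 1) * FK β E T c w₀ (fun w => (F w + C) * (G w + C')) := by
    simp only [ad1_FK]
    refine ad1_four E _ _ _ _
      (fun w hw => mul_nonneg (ad1_mu_nonneg hβ T hp1 w) (hFC _ (ad1_mem hw w₀)))
      (fun w hw => mul_nonneg (ad1_mu_nonneg hβ T hp1 w) (hGC _ (ad1_mem hw w₀)))
      (fun w _ => mul_nonneg (ad1_mu_nonneg hβ T hp1 w) zero_le_one)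
      (fun w hw => mul_nonneg (ad1_mu_nonneg hβ T hp1 w)
        (mul_nonneg (hFC _ (ad1_mem hw w₀)) (hGC _ (ad1_mem hw w₀)))) fun w hw w' hw' => ?_
    have h1 := ad1_mu_four hβ hT hT (Subset.refl T) hp w w'
    have hu := ad1_mem (union_subset hw hw') w₀
    have h2 : F (w ∪ w₀ \ E) ≤ F (w ∪ w' ∪ w₀ \ E) :=
      hF _ (ad1_mem hw w₀) _ hu (union_subset_union_left subset_union_left)
    have h2' : G (w' ∪ w₀ \ E) ≤ G (w ∪ w' ∪ w₀ \ E) :=
      hG _ (ad1_mem hw' w₀) _ hu (union_subset_union_left subset_union_right)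
    have h3 := hFC _ (ad1_mem hw w₀)
    have h3' := hGC _ (ad1_mem hw' w₀)
    have h5 := mul_le_mul (add_le_add_left h2 C) (add_le_add_left h2' C') h3' (hFC _ hu)
    have h4 := mul_le_mul h1 h5 (mul_nonneg h3 h3')
      (mul_nonneg (ad1_mu_nonneg hβ T hp1 _) (ad1_mu_nonneg hβ T hp1 _))
    calc _ = ad1_mu β E T c w * ad1_mu β E T c w' *
          ((F (w ∪ w₀ \ E) + C) * (G (w' ∪ w₀ \ E) + C')) := by ring
      _ ≤ _ := h4
      _ = _ := by ring
  have e : FK β E T c w₀ (fun w => (F w + C) * (G w + C')) =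
      FK β E T c w₀ (fun w => F w * G w) + C * FK β E T c w₀ G + C' * FK β E T c w₀ F +
        C * C' * FK β E T c w₀ (fun _ => 1) := by
    unfold FK
    simp only [mul_sum, ← sum_add_distrib]
    exact sum_congr rfl fun w _ => by ring
  rw [ad1_add, ad1_add, e] at key
  nlinarith

end

end Pool.Agent.XYU

end

section

open Finset Real

namespace Pool.Agent.XYU

open Classical

noncomputable section

variable {β : ℝ} {q : ℕ} {S : Sys} {f g : UC → ℝ}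

/-- the configuration with labels `j` on `L` and frozen values `a₀` off `L` -/
def ad2_cfg (q : ℕ) (L : Finset V) (a₀ : V → ℝ × ℝ) (j : L → Fin q) : V → ℝ × ℝ :=
  fun v => if h : v ∈ L then st q (j ⟨v, h⟩) else a₀ v

lemma ad2_cfg_mem {L : Finset V} (a₀ : V → ℝ × ℝ) (j : L → Fin q) : ad2_cfg q L a₀ j ∈ As q L a₀ :=
  mem_image.2 ⟨j, mem_univ _, rfl⟩

lemma ad2_cfg_at {L : Finset V} (a₀ : V → ℝ × ℝ) (j : L → Fin q) {v : V} (h : v ∈ L) :
    ad2_cfg q L a₀ j v = st q (j ⟨v, h⟩) := dif_pos h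

lemma ad2_sum {L : Finset V} (a₀ : V → ℝ × ℝ) (F : (V → ℝ × ℝ) → ℝ) :
    ∑ a ∈ As q L a₀, F a = ∑ j : L → Fin q, F (ad2_cfg q L a₀ j) := by
  refine sum_image (g := ad2_cfg q L a₀) fun i _ j _ hij => ?_
  funext v
  have h := congrFun hij v
  rw [ad2_cfg_at a₀ i v.2, ad2_cfg_at a₀ j v.2] at h
  exact st_inj q h

lemma as_four {L : Finset V} {a₁ a₂ a₃ a₄ : V → ℝ × ℝ} {f₁ f₂ f₃ f₄ : (V → ℝ × ℝ) → ℝ}
    (h₁ : ∀ a ∈ As q L a₁, 0 ≤ f₁ a) (h₂ : ∀ a ∈ As q L a₂, 0 ≤ f₂ a)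
    (h₃ : ∀ a ∈ As q L a₃, 0 ≤ f₃ a) (h₄ : ∀ a ∈ As q L a₄, 0 ≤ f₄ a)
    (h : ∀ a ∈ As q L a₁, ∀ a' ∈ As q L a₂, ∀ m ∈ As q L a₃, ∀ M ∈ As q L a₄,
      (∀ v ∈ L, (ple (a v) (a' v) ∧ m v = a v ∧ M v = a' v) ∨
        (ple (a' v) (a v) ∧ m v = a' v ∧ M v = a v)) → f₁ a * f₂ a' ≤ f₃ m * f₄ M) :
    (∑ a ∈ As q L a₁, f₁ a) * ∑ a ∈ As q L a₂, f₂ a ≤
      (∑ a ∈ As q L a₃, f₃ a) * ∑ a ∈ As q L a₄, f₄ a := by
  rw [ad2_sum, ad2_sum, ad2_sum, ad2_sum]
  refine four_functions_theorem_univ (fun j : L → Fin q => f₁ (ad2_cfg q L a₁ j))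
    (fun j => f₂ (ad2_cfg q L a₂ j)) (fun j => f₃ (ad2_cfg q L a₃ j))
    (fun j => f₄ (ad2_cfg q L a₄ j)) (fun j => h₁ _ (ad2_cfg_mem _ j))
    (fun j => h₂ _ (ad2_cfg_mem _ j)) (fun j => h₃ _ (ad2_cfg_mem _ j))
    (fun j => h₄ _ (ad2_cfg_mem _ j)) fun i j => ?_
  refine h _ (ad2_cfg_mem _ i) _ (ad2_cfg_mem _ j) _ (ad2_cfg_mem _ _) _ (ad2_cfg_mem _ _)
    fun v hv => ?_
  simp only [ad2_cfg_at _ _ hv, Pi.inf_apply, Pi.sup_apply]
  rcases le_total (i ⟨v, hv⟩) (j ⟨v, hv⟩) with hij | hij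
  · exact Or.inl ⟨st_ple hij, by rw [inf_eq_left.2 hij], by rw [sup_eq_right.2 hij]⟩
  · exact Or.inr ⟨st_ple hij, by rw [inf_eq_right.2 hij], by rw [sup_eq_left.2 hij]⟩

lemma Z1_eq (β : ℝ) (q : ℕ) (S : Sys) : Z1 β q S = ∑ a ∈ As q S.L S.x.a,
    Isum β S.E S.T (fun v => (a v).1) * Isum β S.E S.U fun v => (a v).2 := by
  rw [Z1, Z_triple]
  refine sum_congr rfl fun a _ => ?_
  rw [← es β S.E S.T _ S.x.w, ← es β S.E S.U _ S.x.b, FK, FK, sum_mul_sum]
  refine sum_congr rfl fun w _ => sum_congr rfl fun b _ => ?_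
  simp only [wt, mul_one]

end

end Pool.Agent.XYU

end

section

open Finset Real

namespace Pool.Agent.XYU

open Classical

noncomputable section

variable {β : ℝ} {q : ℕ} {S : Sys} {f g : UC → ℝ}

lemma ad3_Z (β : ℝ) (q : ℕ) (S : Sys) (f : UC → ℝ) : Z β q S f = ∑ a ∈ As q S.L S.x.a,
    FK β S.E S.T (fun v => (a v).1) S.x.w fun w =>
      FK β S.E S.U (fun v => (a v).2) S.x.b fun b => f ⟨a, w, b⟩ := by
  rw [Z_triple]
  refine sum_congr rfl fun a _ => sum_congr rfl fun w _ => ?_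
  beta_reduce
  rw [FK, mul_sum]
  exact sum_congr rfl fun b _ => mul_assoc _ _ _

lemma ad3_mul (E : Es) (T : Finset Fld) (c : V → ℝ) (w₀ : Es) (F : Es → ℝ) (k : ℝ) :
    FK β E T c w₀ (fun w => F w * k) = FK β E T c w₀ F * k := by
  rw [FK, FK, sum_mul]
  exact sum_congr rfl fun w _ => (mul_assoc _ _ _).symm

lemma ad3_neg (E : Es) (T : Finset Fld) (c : V → ℝ) (w₀ : Es) (F : Es → ℝ) :
    FK β E T c w₀ (fun w => -F w) = -FK β E T c w₀ F := by
  rw [FK, FK, ← sum_neg_distrib]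
  exact sum_congr rfl fun w _ => mul_neg _ _

lemma ad3_nonneg (hβ : 0 ≤ β) (E : Es) (T : Finset Fld) {c : V → ℝ} (hc : ∀ v, 0 ≤ c v) {w₀ : Es}
    {F : Es → ℝ} (hF : ∀ w ∈ Ws E w₀, 0 ≤ F w) : 0 ≤ FK β E T c w₀ F :=
  sum_nonneg fun w hw => mul_nonneg (mul_nonneg (wr_nonneg hβ E hc w) (cnt_nonneg _ _)) (hF w hw)

lemma ad3_pos (E : Es) {T : Finset Fld} (hT : SG T) (c : V → ℝ) : 0 < Isum β E T c :=
  sum_pos (fun _ _ => exp_pos _) ⟨0, hT.1⟩

lemma ad3_mem {a : V → ℝ × ℝ} {w b : Es} (ha : a ∈ As q S.L S.x.a) (hw : w ∈ Ws S.E S.x.w)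
    (hb : b ∈ Ws S.E S.x.b) : (⟨a, w, b⟩ : UC) ∈ Om q S :=
  mem_Om.2 ⟨(mem_As.1 ha).1, (mem_As.1 ha).2, mem_Ws.1 hw, mem_Ws.1 hb⟩

lemma ad3_01 (hS : A01 S.x.a) {a : V → ℝ × ℝ} (ha : a ∈ As q S.L S.x.a) : A01 a :=
  a01_Om hS (ad3_mem ha (mem_Ws.2 rfl) (mem_Ws.2 rfl))

lemma ad3_pw {L B : Finset V} {T : Finset Fld} (h : Fl L T) (hB : B ⊆ L) {σ : Fld} (hσ : σ ∈ T)
    (τ : Fld) : B.piecewise τ σ ∈ T := by
  have h1 := h.add hσ (τ := B.piecewise τ σ - σ) fun v hv => by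
    rw [Pi.sub_apply, piecewise_eq_of_notMem _ _ _ fun h2 => hv (hB h2), sub_self]
  rwa [add_sub_cancel] at h1

lemma ad3_nested (hβ : 0 ≤ β) {L : Finset V} {E : Es} {x x' : UC} {T U T' U' : Finset Fld}
    (hS : Grp ⟨L, E, x, T, U⟩) (hS' : Grp ⟨L, E, x', T', U'⟩) (hT : T' ⊆ T) (hU : U ⊆ U')
    (ha : ∀ e ∈ E, ∀ v ∈ e, v ∉ L → ple (x.a v) (x'.a v)) {f f' : UC → ℝ}
    (hf : ∀ u ∈ Om q ⟨L, E, x, T, U⟩, ∀ u' ∈ Om q ⟨L, E, x', T', U'⟩, Le L E u u' → f u ≤ f' u')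
    (h0 : ∀ u ∈ Om q ⟨L, E, x, T, U⟩, 0 ≤ f u) (h0' : ∀ u ∈ Om q ⟨L, E, x', T', U'⟩, 0 ≤ f' u) :
    Z β q ⟨L, E, x, T, U⟩ f * Z1 β q ⟨L, E, x', T', U'⟩ ≤
      Z β q ⟨L, E, x', T', U'⟩ f' * Z1 β q ⟨L, E, x, T, U⟩ := by
  rw [mul_comm (Z β q ⟨L, E, x', T', U'⟩ f'), ad3_Z, ad3_Z, Z1_eq, Z1_eq]
  refine as_four (fun a ha => ?_) (fun a _ => ?_) (fun a _ => ?_) (fun a ha => ?_)
    fun a ma a' ma' m mm M mM h => ?_
  · exact ad3_nonneg hβ _ _ (fun v => (ad3_01 hS.a01 ha v).1.1) fun w hw =>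
      ad3_nonneg hβ _ _ (fun v => (ad3_01 hS.a01 ha v).2.1) fun b hb => h0 _ (ad3_mem ha hw hb)
  · exact (mul_pos (ad3_pos _ hS'.T0 _) (ad3_pos _ hS'.U0 _)).le
  · exact (mul_pos (ad3_pos _ hS.T0 _) (ad3_pos _ hS.U0 _)).le
  · exact ad3_nonneg hβ _ _ (fun v => (ad3_01 hS'.a01 ha v).1.1) fun w hw =>
      ad3_nonneg hβ _ _ (fun v => (ad3_01 hS'.a01 ha v).2.1) fun b hb => h0' _ (ad3_mem ha hw hb)
  have p0 : 0 ≤ FK β E T' (fun v => (M v).1) x'.w fun w =>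
      FK β E U' (fun v => (M v).2) x'.b fun b => f' ⟨M, w, b⟩ :=
    ad3_nonneg hβ _ _ (fun v => (ad3_01 hS'.a01 mM v).1.1) fun w hw =>
      ad3_nonneg hβ _ _ (fun v => (ad3_01 hS'.a01 mM v).2.1) fun b hb => h0' _ (ad3_mem mM hw hb)
  have a01 := ad3_01 hS.a01 ma
  have m01 := ad3_01 hS.a01 mm
  have M01 := ad3_01 hS'.a01 mM
  have rf : ∀ p : ℝ × ℝ, ple p p := fun p => ⟨le_rfl, le_rfl⟩
  have k1 : ∀ v ∈ L, ple (a v) (M v) := fun v hv => by
    rcases h v hv with ⟨h1, -, h3⟩ | ⟨-, -, h3⟩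
    · rwa [h3]
    · rw [h3]
      exact rf _
  have k2 : ∀ e ∈ E, ∀ v ∈ e, ple (a v) (M v) ∧ ple (m v) (M v) := fun e he v hv => by
    by_cases hL : v ∈ L
    · refine ⟨k1 v hL, ?_⟩
      rcases h v hL with ⟨h1, h2, h3⟩ | ⟨h1, h2, h3⟩ <;> rwa [h2, h3]
    · rw [(mem_As.1 ma).1 v hL, (mem_As.1 mm).1 v hL, (mem_As.1 mM).1 v hL]
      exact ⟨ha e he v hv hL, ha e he v hv hL⟩
  have c1 := fk_mon hβ hS.T0 hS'.T0 hT (c := fun v => (a v).1) (c' := fun v => (M v).1)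
    (fun e he v hv => ⟨(a01 v).1.1, (k2 e he v hv).1.1⟩) x.w x'.w
    (F := fun w => (FK β E U (fun v => (a v).2) x.b fun b => f ⟨a, w, b⟩) *
      Isum β E U' fun v => (M v).2)
    (F' := fun w => (FK β E U' (fun v => (M v).2) x'.b fun b => f' ⟨M, w, b⟩) *
      Isum β E U fun v => (a v).2) fun w hw w' hw' hww => by
      have c0 := fk_mon hβ hS'.U0 hS.U0 hU (c := fun v => (M v).2) (c' := fun v => (a v).2)
        (fun e he v hv => ⟨(M01 v).2.1, (k2 e he v hv).1.2⟩) x'.b x.b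
        (F := fun b => -f' ⟨M, w', b⟩) (F' := fun b => -f ⟨a, w, b⟩) fun b' hb' b hb hbb =>
          neg_le_neg (hf _ (ad3_mem ma hw hb) _ (ad3_mem mM hw' hb') ⟨k1, hww, hbb⟩)
      rw [ad3_neg, ad3_neg, es, es, neg_mul, neg_mul, neg_le_neg_iff] at c0
      exact c0
  rw [ad3_mul, ad3_mul, es, es] at c1
  have hB : (L.filter fun v => m v = a' v ∧ M v = a v) ⊆ L := filter_subset _ _
  have k3 : ∀ v, (v ∈ L.filter fun v => m v = a' v ∧ M v = a v) → m v = a' v ∧ M v = a v :=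
    fun v hv => (mem_filter.1 hv).2
  have k4 : ∀ v, (v ∉ L.filter fun v => m v = a' v ∧ M v = a v) → m v = a v ∧ M v = a' v :=
    fun v hv => by
      by_cases hL : v ∈ L
      · exact ((h v hL).resolve_right fun h1 => hv (mem_filter.2 ⟨hL, h1.2⟩)).2
      · rw [(mem_As.1 ma).1 v hL, (mem_As.1 mm).1 v hL, (mem_As.1 mM).1 v hL,
          (mem_As.1 ma').1 v hL]
        exact ⟨rfl, rfl⟩
  generalize (L.filter fun v => m v = a' v ∧ M v = a v) = B at hB k3 k4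
  have k5 : ∀ (p : ℝ × ℝ → ℝ) v, p (m v) = B.piecewise (fun v => p (a' v)) (fun v => p (a v)) v ∧
      p (M v) = B.piecewise (fun v => p (a v)) (fun v => p (a' v)) v := fun p v => by
    by_cases hv : v ∈ B
    · rw [piecewise_eq_of_mem _ _ _ hv, piecewise_eq_of_mem _ _ _ hv, (k3 v hv).1, (k3 v hv).2]
      exact ⟨rfl, rfl⟩
    · rw [piecewise_eq_of_notMem _ _ _ hv, piecewise_eq_of_notMem _ _ _ hv, (k4 v hv).1,
        (k4 v hv).2]
      exact ⟨rfl, rfl⟩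
  have c2 := h4 hβ E B (T₁ := T') (T₂ := T) hS'.T0 hS.T0 hT
    (fun σ₁ h1 σ₂ h2 => ⟨ad3_pw hS'.Tf hB h1 σ₂, ad3_pw hS.Tf hB h2 σ₁⟩)
    (c₁ := fun v => (a' v).1) (c₂ := fun v => (a v).1) (c₃ := fun v => (M v).1)
    (c₄ := fun v => (m v).1) fun e he v hv =>
      ⟨(k5 Prod.fst v).2, (k5 Prod.fst v).1, (m01 v).1.1, (k2 e he v hv).2.1⟩
  have c3 := h4 hβ E B (T₁ := U) (T₂ := U') hS.U0 hS'.U0 hU
    (fun σ₁ h1 σ₂ h2 => ⟨ad3_pw hS.Uf hB h1 σ₂, ad3_pw hS'.Uf hB h2 σ₁⟩)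
    (c₁ := fun v => (a v).2) (c₂ := fun v => (a' v).2) (c₃ := fun v => (m v).2)
    (c₄ := fun v => (M v).2) fun e he v hv =>
      ⟨(k5 Prod.snd v).1, (k5 Prod.snd v).2, (M01 v).2.1, (k2 e he v hv).2.2⟩
  have q1 := ad3_pos (β := β) E hS'.T0
  have q2 := ad3_pos (β := β) E hS'.U0
  have q3 := ad3_pos (β := β) E hS.T0
  have q4 := ad3_pos (β := β) E hS.U0
  have c4 := mul_le_mul c2 c3 (mul_pos (q4 _) (q2 _)).le (mul_pos (q1 _) (q3 _)).le
  have c5 := mul_le_mul_of_nonneg_left c4 p0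
  have c6 := mul_le_mul_of_nonneg_right c1
    (mul_pos (q1 fun v => (a' v).1) (q2 fun v => (a' v).2)).le
  refine le_of_mul_le_mul_right ?_ (mul_pos (q1 fun v => (M v).1) (q2 fun v => (M v).2))
  dsimp only at c5 c6 ⊢
  linarith

lemma ad3_scale {L : Finset V} {E : Es} {x : UC} {T U R W : Finset Fld} {κ μ : ℝ}
    (hT : ∀ w ⊆ E, cnt T w = κ * cnt R w) (hU : ∀ w ⊆ E, cnt U w = μ * cnt W w) (f : UC → ℝ) :
    Z β q ⟨L, E, x, T, U⟩ f = κ * μ * Z β q ⟨L, E, x, R, W⟩ f := by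
  rw [Z, Z, mul_sum]
  refine sum_congr rfl fun u _ => ?_
  simp only [wt]
  rw [hT _ inter_subset_right, hU _ inter_subset_right]
  ring

theorem mon (hβ : 0 ≤ β) {S S' : Sys} (hS : Grp S) (hS' : Grp S') (hL : S'.L = S.L)
    (hE : S'.E = S.E) (hT : Sub S.E S'.T S.T) (hU : Sub S.E S.U S'.U)
    (ha : ∀ e ∈ S.E, ∀ v ∈ e, v ∉ S.L → ple (S.x.a v) (S'.x.a v)) {f f' : UC → ℝ}
    (hf : ∀ u ∈ Om q S, ∀ u' ∈ Om q S', Le S.L S.E u u' → f u ≤ f' u') :
    Z β q S f * Z1 β q S' ≤ Z β q S' f' * Z1 β q S := by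
  obtain ⟨L, E, x, T, U⟩ := S
  obtain ⟨L', E', x', T', U'⟩ := S'
  obtain rfl : L' = L := hL
  obtain rfl : E' = E := hE
  obtain ⟨R, R', r1, r2, r3, r4, r5, κ, κ', r6, r7, r8⟩ := cnt_res hS.T0 hS'.T0 hS.Tf hS'.Tf hT
  obtain ⟨W', W, w1, w2, w3, w4, w5, μ', μ, w6, w7, w8⟩ := cnt_res hS'.U0 hS.U0 hS'.Uf hS.Uf hU
  obtain ⟨C, hC, hC'⟩ : ∃ C : ℝ, (∀ u ∈ Om q ⟨L', E', x, R, W⟩, 0 ≤ f u + C) ∧
      ∀ u ∈ Om q ⟨L', E', x', R', W'⟩, 0 ≤ f' u + C := by
    have s1 : 0 ≤ ∑ u ∈ Om q ⟨L', E', x, R, W⟩, |f u| := sum_nonneg fun _ _ => abs_nonneg _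
    have s2 : 0 ≤ ∑ u ∈ Om q ⟨L', E', x', R', W'⟩, |f' u| := sum_nonneg fun _ _ => abs_nonneg _
    refine ⟨∑ u ∈ Om q ⟨L', E', x, R, W⟩, |f u| + ∑ u ∈ Om q ⟨L', E', x', R', W'⟩, |f' u|,
      fun u hu => ?_, fun u hu => ?_⟩
    · linarith [single_le_sum (f := fun u => |f u|) (fun _ _ => abs_nonneg _) hu, neg_abs_le (f u)]
    · linarith [single_le_sum (f := fun u => |f' u|) (fun _ _ => abs_nonneg _) hu,
        neg_abs_le (f' u)]
  have h := ad3_nested (q := q) (L := L') (E := E') (x := x) (x' := x') (T := R) (U := W) (T' := R')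
    (U' := W') hβ ⟨hS.a01, r1, w2, r4, w5⟩ ⟨hS'.a01, r2, w1, r5, w4⟩ r3 w3 ha
    (f := fun u => f u + C) (f' := fun u => f' u + C)
    (fun u hu u' hu' h => add_le_add (hf u hu u' hu' h) le_rfl) hC hC'
  rw [Z_add, Z_add, Z_const, Z_const] at h
  rw [Z1, Z1, ad3_scale (fun w hw => (r8 w hw).1) (fun w hw => (w8 w hw).2) f,
    ad3_scale (fun w hw => (r8 w hw).1) (fun w hw => (w8 w hw).2) fun _ => 1,
    ad3_scale (fun w hw => (r8 w hw).2) (fun w hw => (w8 w hw).1) f',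
    ad3_scale (fun w hw => (r8 w hw).2) (fun w hw => (w8 w hw).1) fun _ => 1]
  have h1 := mul_le_mul_of_nonneg_left h (by positivity : 0 ≤ κ * μ * (κ' * μ'))
  rw [Z1, Z1] at h1
  linarith

end

end Pool.Agent.XYU

end

section

open Finset Real

namespace Pool.Agent.XYU

open Classical

noncomputable section

variable {β : ℝ} {q : ℕ} {S : Sys} {f g : UC → ℝ}

/-- the system with all moduli frozen at `a` -/
def adS (S : Sys) (a : V → ℝ × ℝ) : Sys := ⟨∅, S.E, ⟨a, S.x.w, S.x.b⟩, S.T, S.U⟩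

lemma ad_As (q : ℕ) (a : V → ℝ × ℝ) : As q ∅ a = {a} := by
  ext a'
  simp only [mem_As, notMem_empty, not_false_eq_true, true_imp_iff, false_imp_iff, implies_true,
    and_true, mem_singleton]
  exact funext_iff.symm

lemma ad_Z (β : ℝ) (q : ℕ) (S : Sys) (f : UC → ℝ) :
    Z β q S f = ∑ a ∈ As q S.L S.x.a, Z β q (adS S a) f := by
  rw [Z_triple]
  refine sum_congr rfl fun a _ => ?_
  rw [Z_triple]
  simp only [adS, ad_As, sum_singleton]
  rfl

lemma ad_FK (β : ℝ) (q : ℕ) (S : Sys) (a : V → ℝ × ℝ) (f : UC → ℝ) :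
    Z β q (adS S a) f = FK β S.E S.T (fun v => (a v).1) S.x.w fun w =>
      FK β S.E S.U (fun v => (a v).2) S.x.b fun b => f ⟨a, w, b⟩ := by
  rw [Z_triple]
  simp only [adS, ad_As, sum_singleton, FK, mul_sum, wt]
  exact sum_congr rfl fun w _ => sum_congr rfl fun b _ => by ring

lemma ad_one (β : ℝ) (q : ℕ) (S : Sys) (a : V → ℝ × ℝ) : Z1 β q (adS S a) =
    Isum β S.E S.T (fun v => (a v).1) * Isum β S.E S.U fun v => (a v).2 := by
  rw [Z1_eq]
  simp only [adS, ad_As, sum_singleton]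

lemma ad_mk {a : V → ℝ × ℝ} (ha : a ∈ As q S.L S.x.a) {w b : Es} (hw : w ∈ Ws S.E S.x.w)
    (hb : b ∈ Ws S.E S.x.b) : (⟨a, w, b⟩ : UC) ∈ Om q S :=
  mem_Om.2 ⟨(mem_As.1 ha).1, (mem_As.1 ha).2, mem_Ws.1 hw, mem_Ws.1 hb⟩

lemma ad_mem {a : V → ℝ × ℝ} (ha : a ∈ As q S.L S.x.a) {u : UC} (hu : u ∈ Om q (adS S a)) :
    u ∈ Om q S ∧ u.a = a := by
  obtain ⟨h1, -, h2, h3⟩ := mem_Om.1 hu
  have e : u.a = a := funext fun v => h1 v (notMem_empty v)
  exact ⟨mem_Om.2 ⟨e ▸ (mem_As.1 ha).1, e ▸ (mem_As.1 ha).2, h2, h3⟩, e⟩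

lemma ad_a01 (hS : Grp S) {a : V → ℝ × ℝ} (ha : a ∈ As q S.L S.x.a) : A01 a := fun v => by
  by_cases hv : v ∈ S.L
  · exact site_01 ((mem_As.1 ha).2 v hv)
  · rw [(mem_As.1 ha).1 v hv]
    exact hS.a01 v

lemma ad_grp (hS : Grp S) {a : V → ℝ × ℝ} (ha : a ∈ As q S.L S.x.a) : Grp (adS S a) :=
  ⟨ad_a01 hS ha, hS.T0, hS.U0, fun _ _ v hv => absurd hv (notMem_empty v),
    fun _ _ v hv => absurd hv (notMem_empty v)⟩

lemma ad_Isum_pos (β : ℝ) (E : Es) {T : Finset Fld} (hT : SG T) (c : V → ℝ) : 0 < Isum β E T c :=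
  sum_pos (fun _ _ => exp_pos _) ⟨0, hT.1⟩

lemma ad_FK_mono (hβ : 0 ≤ β) {E : Es} {T : Finset Fld} {c : V → ℝ} (hc : ∀ v, 0 ≤ c v) {w₀ : Es}
    {F G : Es → ℝ} (h : ∀ w ∈ Ws E w₀, F w ≤ G w) : FK β E T c w₀ F ≤ FK β E T c w₀ G :=
  sum_le_sum fun w hw => mul_le_mul_of_nonneg_left (h w hw)
    (mul_nonneg (wr_nonneg hβ E hc w) (cnt_nonneg _ _))

lemma ad_FK_neg (E : Es) (T : Finset Fld) (c : V → ℝ) (w₀ : Es) (F : Es → ℝ) :
    FK β E T c w₀ (fun w => -F w) = -FK β E T c w₀ F := by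
  simp only [FK, mul_neg, sum_neg_distrib]

lemma ad_FK_mul (E : Es) (T : Finset Fld) (c : V → ℝ) (w₀ : Es) (F : Es → ℝ) (k : ℝ) :
    FK β E T c w₀ (fun w => F w * k) = FK β E T c w₀ F * k := by
  simp only [FK, sum_mul, mul_assoc]

lemma ad_ple_refl (p : ℝ × ℝ) : ple p p := ⟨le_rfl, le_rfl⟩

/-- positive association for frozen moduli -/
lemma ad_fix (hβ : 0 ≤ β) (hS : Grp S)
    (hf : ∀ u ∈ Om q S, ∀ u' ∈ Om q S, Le S.L S.E u u' → f u' ≤ f u)
    (hg : ∀ u ∈ Om q S, ∀ u' ∈ Om q S, Le S.L S.E u u' → g u' ≤ g u)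
    {a : V → ℝ × ℝ} (ha : a ∈ As q S.L S.x.a) :
    Z β q (adS S a) f * Z β q (adS S a) g ≤
      Z β q (adS S a) (fun u => f u * g u) * Z1 β q (adS S a) := by
  have h01 := ad_a01 hS ha
  have blue : ∀ {k : UC → ℝ}, (∀ u ∈ Om q S, ∀ u' ∈ Om q S, Le S.L S.E u u' → k u' ≤ k u) →
      ∀ w ∈ Ws S.E S.x.w, ∀ b ∈ Ws S.E S.x.b, ∀ b' ∈ Ws S.E S.x.b, b ⊆ b' →
        k ⟨a, w, b⟩ ≤ k ⟨a, w, b'⟩ := fun hk w hw b hb b' hb' h =>
    hk _ (ad_mk ha hw hb') _ (ad_mk ha hw hb)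
      ⟨fun _ _ => ad_ple_refl _, inter_subset_left, inter_subset_left.trans h⟩
  have red : ∀ {k : UC → ℝ}, (∀ u ∈ Om q S, ∀ u' ∈ Om q S, Le S.L S.E u u' → k u' ≤ k u) →
      ∀ w ∈ Ws S.E S.x.w, ∀ w' ∈ Ws S.E S.x.w, w ⊆ w' →
        -FK β S.E S.U (fun v => (a v).2) S.x.b (fun b => k ⟨a, w, b⟩) ≤
          -FK β S.E S.U (fun v => (a v).2) S.x.b fun b => k ⟨a, w', b⟩ := fun hk w hw w' hw' h =>
    neg_le_neg (ad_FK_mono hβ (fun v => (h01 v).2.1) fun b hb =>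
      hk _ (ad_mk ha hw hb) _ (ad_mk ha hw' hb)
        ⟨fun _ _ => ad_ple_refl _, inter_subset_left.trans h, inter_subset_left⟩)
  have h1 := fk_fkg hβ hS.T0 (c := fun v => (a v).1) (fun _ _ v _ => (h01 v).1.1) S.x.w
    (red hf) (red hg)
  simp only [ad_FK_neg, neg_mul_neg, es] at h1
  rw [ad_one, ad_FK, ad_FK, ad_FK, mul_comm (Isum β S.E S.T _), ← mul_assoc]
  refine h1.trans (mul_le_mul_of_nonneg_right (le_trans (ad_FK_mono hβ (fun v => (h01 v).1.1)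
    fun w hw => ?_) (ad_FK_mul _ _ _ _ _ _).le) (ad_Isum_pos β _ hS.T0 _).le)
  rw [← es β S.E S.U _ S.x.b]
  exact fk_fkg hβ hS.U0 (fun _ _ v _ => (h01 v).2.1) S.x.b (blue hf w hw) (blue hg w hw)

/-- the averages decrease with the moduli -/
lemma ad_mono (hβ : 0 ≤ β) (hS : Grp S)
    (hf : ∀ u ∈ Om q S, ∀ u' ∈ Om q S, Le S.L S.E u u' → f u' ≤ f u)
    {m a : V → ℝ × ℝ} (hm : m ∈ As q S.L S.x.a) (ha : a ∈ As q S.L S.x.a)
    (h : ∀ v ∈ S.L, ple (m v) (a v)) :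
    Z β q (adS S a) f * Z1 β q (adS S m) ≤ Z β q (adS S m) f * Z1 β q (adS S a) := by
  have hs : ∀ T : Finset Fld, Sub S.E T T := fun T σ hσ => ⟨σ, hσ, fun _ _ _ _ => rfl⟩
  have h1 := mon (q := q) hβ (ad_grp hS hm) (ad_grp hS ha) rfl rfl (hs _) (hs _)
    (fun _ _ v _ _ => ?_) (f := fun u => -1 * f u) (f' := fun u => -1 * f u)
    (fun u hu u' hu' hle => ?_)
  · rw [Z_mul, Z_mul] at h1
    linarith
  · by_cases hv : v ∈ S.L
    · exact h v hv
    · change ple (m v) (a v)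
      rw [(mem_As.1 hm).1 v hv, (mem_As.1 ha).1 v hv]
      exact ad_ple_refl _
  · obtain ⟨a1, a2⟩ := ad_mem hm hu
    obtain ⟨b1, b2⟩ := ad_mem ha hu'
    have := hf u a1 u' b1 ⟨fun v hv => by rw [a2, b2]; exact h v hv, hle.2.1, hle.2.2⟩
    linarith

lemma ad_swap {L B : Finset V} {T : Finset Fld} (hT : Fl L T) (hB : B ⊆ L) {σ : Fld} (hσ : σ ∈ T)
    (τ : Fld) : B.piecewise τ σ ∈ T := by
  have h := hT.add hσ (τ := fun v => if v ∈ B then τ v - σ v else 0)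
    fun v hv => if_neg fun h => hv (hB h)
  convert h using 1
  funext v
  by_cases hv : v ∈ B <;> simp [Finset.piecewise, hv]

/-- the partition function is log-supermodular in the moduli -/
lemma ad_super (hβ : 0 ≤ β) (hS : Grp S) {a a' m M : V → ℝ × ℝ} (ha : a ∈ As q S.L S.x.a)
    (ha' : a' ∈ As q S.L S.x.a) (hm : m ∈ As q S.L S.x.a) (hM : M ∈ As q S.L S.x.a)
    (h : ∀ v ∈ S.L, (ple (a v) (a' v) ∧ m v = a v ∧ M v = a' v) ∨
      (ple (a' v) (a v) ∧ m v = a' v ∧ M v = a v)) :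
    Z1 β q (adS S a) * Z1 β q (adS S a') ≤ Z1 β q (adS S m) * Z1 β q (adS S M) := by
  obtain ⟨B, hB⟩ : ∃ B, B = S.L.filter fun v => ple (a v) (a' v) ∧ m v = a v ∧ M v = a' v :=
    ⟨_, rfl⟩
  have hBL : B ⊆ S.L := hB ▸ filter_subset _ _
  have key : ∀ v, ple (m v) (M v) ∧ (v ∈ B → m v = a v ∧ M v = a' v) ∧
      (v ∉ B → m v = a' v ∧ M v = a v) := fun v => by
    by_cases hv : v ∈ S.L
    · by_cases hvB : v ∈ B
      · obtain ⟨-, h1, h2, h3⟩ := mem_filter.1 (hB ▸ hvB)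
        exact ⟨by rwa [h2, h3], fun _ => ⟨h2, h3⟩, fun h => absurd hvB h⟩
      · obtain ⟨h1, h2, h3⟩ := (h v hv).resolve_left fun h' => hvB (hB ▸ mem_filter.2 ⟨hv, h'⟩)
        exact ⟨by rwa [h2, h3], fun h => absurd h hvB, fun _ => ⟨h2, h3⟩⟩
    · rw [(mem_As.1 hm).1 v hv, (mem_As.1 hM).1 v hv, (mem_As.1 ha).1 v hv, (mem_As.1 ha').1 v hv]
      exact ⟨ad_ple_refl _, fun _ => ⟨rfl, rfl⟩, fun _ => ⟨rfl, rfl⟩⟩
  have h1 := h4 hβ S.E B hS.T0 hS.T0 Subset.rfl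
    (fun σ₁ h₁ σ₂ h₂ => ⟨ad_swap hS.Tf hBL h₁ σ₂, ad_swap hS.Tf hBL h₂ σ₁⟩)
    (c₁ := fun v => (a v).1) (c₂ := fun v => (a' v).1) (c₃ := fun v => (M v).1)
    (c₄ := fun v => (m v).1) fun _ _ v _ => by
      obtain ⟨k1, k2, k3⟩ := key v
      refine ⟨?_, ?_, (ad_a01 hS hm v).1.1, k1.1⟩ <;> by_cases hv : v ∈ B <;>
        simp [Finset.piecewise, hv, k2, k3]
  have h2 := h4 hβ S.E B hS.U0 hS.U0 Subset.rfl
    (fun σ₁ h₁ σ₂ h₂ => ⟨ad_swap hS.Uf hBL h₁ σ₂, ad_swap hS.Uf hBL h₂ σ₁⟩)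
    (c₁ := fun v => (a' v).2) (c₂ := fun v => (a v).2) (c₃ := fun v => (m v).2)
    (c₄ := fun v => (M v).2) fun _ _ v _ => by
      obtain ⟨k1, k2, k3⟩ := key v
      refine ⟨?_, ?_, (ad_a01 hS hM v).2.1, k1.2⟩ <;> by_cases hv : v ∈ B <;>
        simp [Finset.piecewise, hv, k2, k3]
  have h3 := mul_le_mul h1 h2 (mul_pos (ad_Isum_pos β _ hS.U0 _) (ad_Isum_pos β _ hS.U0 _)).le
    (mul_pos (ad_Isum_pos β _ hS.T0 _) (ad_Isum_pos β _ hS.T0 _)).le
  simp only [ad_one]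
  linarith

lemma ad_pos (hβ : 0 ≤ β) (hS : Grp S) (hf0 : ∀ u ∈ Om q S, 0 ≤ f u) (hg0 : ∀ u ∈ Om q S, 0 ≤ g u)
    (hf : ∀ u ∈ Om q S, ∀ u' ∈ Om q S, Le S.L S.E u u' → f u' ≤ f u)
    (hg : ∀ u ∈ Om q S, ∀ u' ∈ Om q S, Le S.L S.E u u' → g u' ≤ g u) :
    Z β q S f * Z β q S g ≤ Z β q S (fun u => f u * g u) * Z1 β q S := by
  have h0 : ∀ {k : UC → ℝ}, (∀ u ∈ Om q S, 0 ≤ k u) → ∀ a ∈ As q S.L S.x.a,
      0 ≤ Z β q (adS S a) k := fun hk a ha =>
    Z_nonneg hβ (ad_grp hS ha).a01 fun u hu => hk u (ad_mem ha hu).1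
  have hfg : ∀ u ∈ Om q S, 0 ≤ f u * g u := fun u hu => mul_nonneg (hf0 u hu) (hg0 u hu)
  rw [Z1, ad_Z β q S f, ad_Z β q S g, ad_Z β q S fun u => f u * g u, ad_Z β q S fun _ => 1]
  refine as_four (h0 hf0) (h0 hg0) (h0 hfg) (h0 fun _ _ => zero_le_one)
    fun a ha a' ha' m hm M hM h => ?_
  have e1 := ad_mono hβ hS hf hm ha fun v hv => by
    rcases h v hv with ⟨-, h2, -⟩ | ⟨h1, h2, -⟩
    · rw [h2]; exact ad_ple_refl _
    · rwa [h2]
  have e2 := ad_mono hβ hS hg hm ha' fun v hv => by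
    rcases h v hv with ⟨h1, h2, -⟩ | ⟨-, h2, -⟩
    · rwa [h2]
    · rw [h2]; exact ad_ple_refl _
  have e3 := ad_super hβ hS ha ha' hm hM h
  have e4 := ad_fix hβ hS hf hg hm
  have hn : 0 < Z1 β q (adS S m) := by
    rw [ad_one]
    exact mul_pos (ad_Isum_pos β _ hS.T0 _) (ad_Isum_pos β _ hS.U0 _)
  have h1 : ∀ a ∈ As q S.L S.x.a, 0 ≤ Z1 β q (adS S a) := h0 fun _ _ => zero_le_one
  have e5 := mul_le_mul e1 e2 (mul_nonneg (h0 hg0 a' ha') hn.le)
    (mul_nonneg (h0 hf0 m hm) (h1 a ha))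
  have e6 := mul_le_mul e4 e3 (mul_nonneg (h1 a ha) (h1 a' ha'))
    (mul_nonneg (h0 hfg m hm) hn.le)
  refine le_of_mul_le_mul_right ?_ (mul_pos hn hn)
  change _ ≤ _ * Z1 β q (adS S M) * _
  linarith

theorem fkg (hβ : 0 ≤ β) (hS : Grp S)
    (hf : ∀ u ∈ Om q S, ∀ u' ∈ Om q S, Le S.L S.E u u' → f u' ≤ f u)
    (hg : ∀ u ∈ Om q S, ∀ u' ∈ Om q S, Le S.L S.E u u' → g u' ≤ g u) :
    Z β q S f * Z β q S g ≤ Z β q S (fun u => f u * g u) * Z1 β q S := by
  have hb : ∀ k : UC → ℝ, ∀ u ∈ Om q S, 0 ≤ k u + ∑ u ∈ Om q S, |k u| := fun k u hu => by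
    have := single_le_sum (f := fun u => |k u|) (fun _ _ => abs_nonneg _) hu
    linarith [neg_abs_le (k u)]
  obtain ⟨A, hA⟩ : ∃ A, ∀ u ∈ Om q S, 0 ≤ f u + A := ⟨_, hb f⟩
  obtain ⟨B, hB⟩ : ∃ B, ∀ u ∈ Om q S, 0 ≤ g u + B := ⟨_, hb g⟩
  have h := ad_pos hβ hS hA hB (fun u hu u' hu' h => by linarith [hf u hu u' hu' h])
    (fun u hu u' hu' h => by linarith [hg u hu u' hu' h])
  have e : (fun u => (f u + A) * (g u + B)) =
      fun u => (f u * g u + B * f u) + (A * g u + A * B) := by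
    funext u
    ring
  rw [e] at h
  simp only [Z_add, Z_mul, Z_const] at h
  linarith

end

end Pool.Agent.XYU

end

end

-- part MP_b591f0_mp.XY.A3
section

section

open Finset Real

namespace Pool.Agent.XYU

open Classical

noncomputable section

/-! Consequences. `mon_max`: `mon` with `S' = Smax` (`Fl.add` and `0 ∈ T` give `Sub`; for the
blue groups cut a field to `L ∪ ends E`). `fkg_prod`: induction. `prod_le`, `prod_ge`: induction on
`s` with `dlr`: condition on `(L i, E i)`; the other factors are constant on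
`Om q (S.cond (L i) (E i) u)`. `explore`: let `S₀` be `S` with `(x.a v).1` replaced by `0` for
`v ∈ k`. Resetting `a` on `k` is a bijection `Om q S → Om q S₀` and
`Z S (h * closed) = Z S₀ (h * ψ)` with `ψ u = ∏ e ∈ E touching k, exp (-(β * pr c e))`, `c` the
cosine modulus with the original values on `k` (in `S₀` an open red edge at `k` has weight zero, a
closed one weight one); `g` does not read `a` on `k`. `ψ` is decreasing: `fkg` in `S₀`, then
`mon` from `S₀` to `Smax L E k`. -/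

variable {β : ℝ} {q : ℕ} {S : Sys} {f g : UC → ℝ}

lemma mon_max (hβ : 0 ≤ β) (hS : Grp S) {X : Finset V}
    (hX : ∀ e ∈ S.E, ∀ v ∈ e, v ∉ S.L → v ∈ X → (S.x.a v).1 = 0) {f f' : UC → ℝ}
    (hf : ∀ u ∈ Om q S, ∀ u' ∈ Om q (Smax S.L S.E X), Le S.L S.E u u' → f' u' ≤ f u) :
    Z β q (Smax S.L S.E X) f' * Z1 β q S ≤ Z β q S f * Z1 β q (Smax S.L S.E X) := by
  have key := mon (q := q) hβ hS (grp_Smax S.L S.E X) rfl rfl
    (fun σ' hσ' => ⟨0 + σ', hS.Tf.add hS.T0.1 (mem_Flip.mp hσ'), fun _ _ v _ => by simp⟩)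
    (fun σ' _ => ⟨fun v => if v ∈ S.L ∪ ends S.E then σ' v else 0,
      mem_Flip.mpr fun v hv => if_neg hv, fun e he v hv =>
        if_pos (mem_union_right _ (mem_ends.mpr ⟨e, he, hv⟩))⟩)
    (fun e he v hv hvL => by
      have h1 := hS.a01 v
      by_cases hvX : v ∈ X
      · simp only [Smax, ple, hvX, if_true]
        exact ⟨(hX e he v hv hvL hvX).le, h1.2.1⟩
      · simp only [Smax, ple, hvX, if_false]
        exact ⟨h1.1.2, h1.2.1⟩)
    (f := fun u => (-1) * f u) (f' := fun u => (-1) * f' u)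
    (fun u hu u' hu' h => by have := hf u hu u' hu' h; linarith)
  rw [Z_mul, Z_mul] at key
  linarith

lemma fkg_prod (hβ : 0 ≤ β) (hq : 0 < q) (hS : Grp S) {ι : Type*} (s : Finset ι)
    (F : ι → UC → ℝ) (c : ι → ℝ) (hc : ∀ i ∈ s, 0 ≤ c i) (h0 : ∀ i ∈ s, ∀ u, 0 ≤ F i u)
    (hF : ∀ i ∈ s, ∀ u ∈ Om q S, ∀ u' ∈ Om q S, Le S.L S.E u u' → F i u' ≤ F i u)
    (h : ∀ i ∈ s, c i * Z1 β q S ≤ Z β q S (F i)) :
    (∏ i ∈ s, c i) * Z1 β q S ≤ Z β q S fun u => ∏ i ∈ s, F i u := by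
  induction s using Finset.induction_on with
  | empty => simp [Z1]
  | insert i s hi ih =>
    have m : ∀ j ∈ s, j ∈ insert i s := fun j hj => mem_insert_of_mem hj
    have mi := mem_insert_self i s
    have a1 := ih (fun j hj => hc j (m j hj)) (fun j hj => h0 j (m j hj))
      (fun j hj => hF j (m j hj)) (fun j hj => h j (m j hj))
    have a2 := fkg (q := q) hβ hS (f := F i) (g := fun u => ∏ j ∈ s, F j u) (hF i mi)
      (fun u hu u' hu' hle => prod_le_prod (fun j hj => h0 j (m j hj) u')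
        fun j hj => hF j (m j hj) u hu u' hu' hle)
    have hp := hS.pos (q := q) hβ hq
    have a3 := mul_le_mul (h i mi) a1
      (mul_nonneg (prod_nonneg fun j hj => hc j (m j hj)) hp.le)
      ((mul_nonneg (hc i mi) hp.le).trans (h i mi))
    simp only [prod_insert hi]
    refine le_of_mul_le_mul_right ?_ hp
    calc c i * (∏ j ∈ s, c j) * Z1 β q S * Z1 β q S
        = c i * Z1 β q S * ((∏ j ∈ s, c j) * Z1 β q S) := by ring
      _ ≤ _ := a3.trans a2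

/-- successive conditioning, upper bound, with a common factor `G` -/
lemma prod_le (hβ : 0 ≤ β) (hS : A01 S.x.a) {ι : Type*} (s : Finset ι) (L : ι → Finset V)
    (E : ι → Es) (F : ι → UC → ℝ) (G : UC → ℝ) (p : ι → ℝ) (hp : ∀ i ∈ s, 0 ≤ p i)
    (h0 : ∀ i ∈ s, ∀ u, 0 ≤ F i u) (hin : ∀ i ∈ s, S.In (L i) (E i))
    (hd : ∀ i ∈ s, ∀ j ∈ s, j ≠ i → ∀ u ∈ Om q S, ∀ u' ∈ Om q (S.cond (L i) (E i) u),
      F j u' = F j u)
    (h : ∀ i ∈ s, ∀ u ∈ Om q S, Z β q (S.cond (L i) (E i) u) (fun u' => F i u' * G u') ≤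
      p i * Z β q (S.cond (L i) (E i) u) G) :
    Z β q S (fun u => (∏ i ∈ s, F i u) * G u) ≤ (∏ i ∈ s, p i) * Z β q S G := by
  induction s using Finset.induction_on with
  | empty => simp
  | insert i s hi ih =>
    have m : ∀ j ∈ s, j ∈ insert i s := fun j hj => mem_insert_of_mem hj
    have mi := mem_insert_self i s
    have a1 := ih (fun j hj => hp j (m j hj)) (fun j hj => h0 j (m j hj))
      (fun j hj => hin j (m j hj)) (fun j hj k hk => hd j (m j hj) k (m k hk))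
      (fun j hj => h j (m j hj))
    have a2 : Z β q S (fun u => (∏ j ∈ insert i s, F j u) * G u) ≤
        Z β q S (fun u => p i * ((∏ j ∈ s, F j u) * G u)) := by
      refine dlr hβ hS (hin i mi) fun u hu _ => ?_
      have e : ∀ u' ∈ Om q (S.cond (L i) (E i) u), ∏ j ∈ s, F j u' = ∏ j ∈ s, F j u :=
        fun u' hu' => prod_congr rfl fun j hj =>
          hd i mi j (m j hj) (fun hji => hi (hji ▸ hj)) u hu u' hu'
      rw [Z_congr (g := fun u' => (∏ j ∈ s, F j u) * (F i u' * G u'))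
          (fun u' hu' _ => by rw [prod_insert hi, e u' hu']; ring),
        Z_congr (f := fun u' => p i * ((∏ j ∈ s, F j u') * G u'))
          (g := fun u' => ((∏ j ∈ s, F j u) * p i) * G u')
          (fun u' hu' _ => by rw [e u' hu']; ring), Z_mul, Z_mul, mul_assoc]
      exact mul_le_mul_of_nonneg_left (h i mi u hu) (prod_nonneg fun j hj => h0 j (m j hj) u)
    rw [Z_mul] at a2
    rw [prod_insert hi, mul_assoc]
    exact a2.trans (mul_le_mul_of_nonneg_left a1 (hp i mi))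

/-- successive conditioning, lower bound -/
lemma prod_ge (hβ : 0 ≤ β) (hS : A01 S.x.a) {ι : Type*} (s : Finset ι) (L : ι → Finset V)
    (E : ι → Es) (F : ι → UC → ℝ) (G : UC → ℝ) (p : ι → ℝ) (hp : ∀ i ∈ s, 0 ≤ p i)
    (h0 : ∀ i ∈ s, ∀ u, 0 ≤ F i u) (hin : ∀ i ∈ s, S.In (L i) (E i))
    (hd : ∀ i ∈ s, ∀ j ∈ s, j ≠ i → ∀ u ∈ Om q S, ∀ u' ∈ Om q (S.cond (L i) (E i) u),
      F j u' = F j u)
    (h : ∀ i ∈ s, ∀ u ∈ Om q S, p i * Z β q (S.cond (L i) (E i) u) G ≤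
      Z β q (S.cond (L i) (E i) u) fun u' => F i u' * G u') :
    (∏ i ∈ s, p i) * Z β q S G ≤ Z β q S fun u => (∏ i ∈ s, F i u) * G u := by
  induction s using Finset.induction_on with
  | empty => simp
  | insert i s hi ih =>
    have m : ∀ j ∈ s, j ∈ insert i s := fun j hj => mem_insert_of_mem hj
    have mi := mem_insert_self i s
    have a1 := ih (fun j hj => hp j (m j hj)) (fun j hj => h0 j (m j hj))
      (fun j hj => hin j (m j hj)) (fun j hj k hk => hd j (m j hj) k (m k hk))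
      (fun j hj => h j (m j hj))
    have a2 : Z β q S (fun u => p i * ((∏ j ∈ s, F j u) * G u)) ≤
        Z β q S (fun u => (∏ j ∈ insert i s, F j u) * G u) := by
      refine dlr hβ hS (hin i mi) fun u hu _ => ?_
      have e : ∀ u' ∈ Om q (S.cond (L i) (E i) u), ∏ j ∈ s, F j u' = ∏ j ∈ s, F j u :=
        fun u' hu' => prod_congr rfl fun j hj =>
          hd i mi j (m j hj) (fun hji => hi (hji ▸ hj)) u hu u' hu'
      rw [Z_congr (f := fun u' => (∏ j ∈ insert i s, F j u') * G u')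
          (g := fun u' => (∏ j ∈ s, F j u) * (F i u' * G u'))
          (fun u' hu' _ => by rw [prod_insert hi, e u' hu']; ring),
        Z_congr (f := fun u' => p i * ((∏ j ∈ s, F j u') * G u'))
          (g := fun u' => ((∏ j ∈ s, F j u) * p i) * G u')
          (fun u' hu' _ => by rw [e u' hu']; ring), Z_mul, Z_mul, mul_assoc]
      exact mul_le_mul_of_nonneg_left (h i mi u hu) (prod_nonneg fun j hj => h0 j (m j hj) u)
    rw [Z_mul] at a2
    rw [prod_insert hi, mul_assoc]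
    exact (mul_le_mul_of_nonneg_left a1 (hp i mi)).trans a2

/-- no red edge of `E` at a site of `k` -/
def Clo (E : Es) (k : Finset V) (w : Es) : Prop := ∀ e ∈ E, (∃ v ∈ k, v ∈ e) → e ∉ w

end

end Pool.Agent.XYU

end

section

open Finset Real

namespace Pool.Agent.XYU

open Classical

noncomputable section

variable {β : ℝ} {q : ℕ} {S : Sys} {f g : UC → ℝ}

/-- the system with the cosine modulus set to zero on `k` -/
def ae_S0 (S : Sys) (k : Finset V) : Sys :=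
  ⟨S.L, S.E, ⟨fun v => if v ∈ k then (0, (S.x.a v).2) else S.x.a v, S.x.w, S.x.b⟩, S.T, S.U⟩

/-- put the original values back on `k` -/
def ae_up (S : Sys) (k : Finset V) (u : UC) : UC :=
  ⟨fun v => if v ∈ k then S.x.a v else u.a v, u.w, u.b⟩

/-- reset on `k` -/
def ae_dn (S : Sys) (k : Finset V) (u : UC) : UC :=
  ⟨fun v => if v ∈ k then (0, (S.x.a v).2) else u.a v, u.w, u.b⟩

/-- the weight of the closed red edges at `k` -/
def ae_psi (β : ℝ) (S : Sys) (k : Finset V) (u : UC) : ℝ :=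
  ∏ e ∈ S.E, if ∃ v ∈ k, v ∈ e then exp (-(β * pr (fun v => ((ae_up S k u).a v).1) e)) else 1

lemma ae_grp (hS : Grp S) (k : Finset V) : Grp (ae_S0 S k) := by
  refine ⟨fun v => ?_, hS.T0, hS.U0, hS.Tf, hS.Uf⟩
  have := hS.a01 v
  simp only [ae_S0]
  split_ifs
  · exact ⟨⟨le_rfl, zero_le_one⟩, this.2⟩
  · exact this

lemma ae_at {k : Finset V} (hk : Disjoint k S.L) {u : UC} (hu : u ∈ Om q (ae_S0 S k)) {v : V}
    (hv : v ∈ k) : u.a v = (0, (S.x.a v).2) := by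
  have h := (mem_Om.1 hu).1 v (Finset.disjoint_left.1 hk hv)
  simpa [ae_S0, hv] using h

lemma ae_up_mem {k : Finset V} (hk : Disjoint k S.L) {u : UC} (hu : u ∈ Om q (ae_S0 S k)) :
    ae_up S k u ∈ Om q S := by
  obtain ⟨h1, h2, h3, h4⟩ := mem_Om.1 hu
  refine mem_Om.2 ⟨fun v hv => ?_, fun v hv => ?_, h3, h4⟩
  · by_cases h : v ∈ k
    · simp [ae_up, h]
    · simpa [ae_up, ae_S0, h] using h1 v hv
  · have h : v ∉ k := Finset.disjoint_right.1 hk hv
    simpa [ae_up, h] using h2 v hv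

lemma ae_dn_mem {k : Finset V} (hk : Disjoint k S.L) {u : UC} (hu : u ∈ Om q S) :
    ae_dn S k u ∈ Om q (ae_S0 S k) := by
  obtain ⟨h1, h2, h3, h4⟩ := mem_Om.1 hu
  refine mem_Om.2 ⟨fun v hv => ?_, fun v hv => ?_, h3, h4⟩
  · by_cases h : v ∈ k
    · simp [ae_dn, ae_S0, h]
    · simpa [ae_dn, ae_S0, h] using h1 v hv
  · have h : v ∉ k := Finset.disjoint_right.1 hk hv
    simpa [ae_dn, h] using h2 v hv

lemma ae_dn_up {k : Finset V} (hk : Disjoint k S.L) {u : UC} (hu : u ∈ Om q (ae_S0 S k)) :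
    ae_dn S k (ae_up S k u) = u := by
  refine UC.ext (funext fun v => ?_) rfl rfl
  by_cases h : v ∈ k
  · simp [ae_dn, h, ae_at hk hu h]
  · simp [ae_dn, ae_up, h]

lemma ae_up_dn {k : Finset V} (hk : Disjoint k S.L) {u : UC} (hu : u ∈ Om q S) :
    ae_up S k (ae_dn S k u) = u := by
  refine UC.ext (funext fun v => ?_) rfl rfl
  by_cases h : v ∈ k
  · simp [ae_up, h, (mem_Om.1 hu).1 v (Finset.disjoint_left.1 hk h)]
  · simp [ae_dn, ae_up, h]

lemma ae_red {k : Finset V} (hk : Disjoint k S.L) {u : UC} (hu : u ∈ Om q (ae_S0 S k)) :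
    wr β S.E (fun v => ((ae_up S k u).a v).1) u.w * ind (Clo S.E k u.w) =
      wr β S.E (fun v => (u.a v).1) u.w * ae_psi β S k u := by
  unfold Clo wr ae_psi
  rw [ind_forall, ← Finset.prod_mul_distrib, ← Finset.prod_mul_distrib]
  refine Finset.prod_congr rfl fun e _ => ?_
  by_cases h : ∃ v ∈ k, v ∈ e
  · have h0 : pr (fun v => (u.a v).1) e = 0 := by
      obtain ⟨v, hv, hve⟩ := h
      have hv0 : (u.a v).1 = 0 := by rw [ae_at hk hu hv]
      induction e using Sym2.ind with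
      | _ x y => rcases Sym2.mem_iff.1 hve with rfl | rfl <;> simp [pr, hv0]
    rw [if_pos h, h0]
    by_cases hw : e ∈ u.w
    · rw [ind_neg (fun h' => h' h hw)]
      simp [ew, hw]
    · rw [ind_pos (fun _ => hw)]
      simp [ew, hw]
  · have h0 : pr (fun v => ((ae_up S k u).a v).1) e = pr (fun v => (u.a v).1) e := by
      induction e using Sym2.ind with
      | _ x y =>
        have hx : x ∉ k := fun hx => h ⟨x, hx, Sym2.mem_mk_left _ _⟩
        have hy : y ∉ k := fun hy => h ⟨y, hy, Sym2.mem_mk_right _ _⟩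
        simp [pr, ae_up, hx, hy]
    rw [if_neg h, h0, ind_pos (fun h' => absurd h' h)]

lemma ae_wt {k : Finset V} (hk : Disjoint k S.L) {u : UC} (hu : u ∈ Om q (ae_S0 S k)) :
    wt β S (ae_up S k u) * ind (Clo S.E k u.w) = wt β (ae_S0 S k) u * ae_psi β S k u := by
  have h2 : (fun v => ((ae_up S k u).a v).2) = fun v => (u.a v).2 := by
    funext v
    by_cases h : v ∈ k
    · simp [ae_up, h, ae_at hk hu h]
    · simp [ae_up, h]
  have h1 := ae_red (β := β) hk hu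
  have e1 : wt β S (ae_up S k u) = wr β S.E (fun v => ((ae_up S k u).a v).1) u.w *
      cnt S.T (u.w ∩ S.E) * (wr β S.E (fun v => (u.a v).2) u.b * cnt S.U (u.b ∩ S.E)) := by
    rw [← h2]; rfl
  have e2 : wt β (ae_S0 S k) u = wr β S.E (fun v => (u.a v).1) u.w *
      cnt S.T (u.w ∩ S.E) * (wr β S.E (fun v => (u.a v).2) u.b * cnt S.U (u.b ∩ S.E)) := rfl
  rw [e1, e2]
  linear_combination (cnt S.T (u.w ∩ S.E) *
    (wr β S.E (fun v => (u.a v).2) u.b * cnt S.U (u.b ∩ S.E))) * h1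

lemma ae_Z {k : Finset V} (hk : Disjoint k S.L) {h : UC → ℝ}
    (hh : ∀ u, h (ae_up S k u) = h u) :
    Z β q S (fun u => h u * ind (Clo S.E k u.w)) =
      Z β q (ae_S0 S k) fun u => h u * ae_psi β S k u := by
  unfold Z
  symm
  refine Finset.sum_nbij' (ae_up S k) (ae_dn S k) (fun u hu => ae_up_mem hk hu)
    (fun u hu => ae_dn_mem hk hu) (fun u hu => ae_dn_up hk hu) (fun u hu => ae_up_dn hk hu)
    fun u hu => ?_
  have h1 := ae_wt (β := β) hk hu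
  have e : (ae_up S k u).w = u.w := rfl
  simp only [hh, e]
  linear_combination (-h u) * h1

lemma ae_psi_nonneg (β : ℝ) (S : Sys) (k : Finset V) (u : UC) : 0 ≤ ae_psi β S k u :=
  Finset.prod_nonneg fun e _ => by split_ifs <;> positivity

lemma ae_psi_anti (hβ : 0 ≤ β) (hS : Grp S) {k : Finset V} (hk : Disjoint k S.L) {u u' : UC}
    (hu : u ∈ Om q (ae_S0 S k)) (hu' : u' ∈ Om q (ae_S0 S k)) (h : Le S.L S.E u u') :
    ae_psi β S k u' ≤ ae_psi β S k u := by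
  have a := a01_Om hS.a01 (ae_up_mem hk hu)
  have a' := a01_Om hS.a01 (ae_up_mem hk hu')
  have hc : ∀ v, ((ae_up S k u).a v).1 ≤ ((ae_up S k u').a v).1 := fun v => by
    by_cases hv : v ∈ S.L
    · have h' : v ∉ k := Finset.disjoint_right.1 hk hv
      simpa [ae_up, h'] using (h.1 v hv).1
    · rw [(mem_Om.1 (ae_up_mem hk hu)).1 v hv, (mem_Om.1 (ae_up_mem hk hu')).1 v hv]
  refine Finset.prod_le_prod (fun e _ => by split_ifs <;> positivity) fun e _ => ?_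
  split_ifs
  · refine Real.exp_le_exp.2 (neg_le_neg (mul_le_mul_of_nonneg_left ?_ hβ))
    induction e using Sym2.ind with
    | _ x y =>
      simp only [pr, Sym2.lift_mk]
      exact mul_le_mul (hc x) (hc y) (a y).1.1 (a' x).1.1
  · exact le_rfl

theorem explore (hβ : 0 ≤ β) (hq : 0 < q) (hS : Grp S) {k : Finset V} (hk : Disjoint k S.L)
    (h0 : ∀ u, 0 ≤ g u) (hg : ∀ u u', Le S.L S.E u u' → g u' ≤ g u) :
    Z β q (Smax S.L S.E k) g * Z β q S (fun u => ind (Clo S.E k u.w)) ≤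
      Z β q S (fun u => g u * ind (Clo S.E k u.w)) * Z1 β q (Smax S.L S.E k) := by
  have hG := ae_grp hS k
  have hgu : ∀ u, g (ae_up S k u) = g u := fun u => by
    have ha : ∀ v ∈ S.L, (ae_up S k u).a v = u.a v := fun v hv => by
      simp [ae_up, Finset.disjoint_right.1 hk hv]
    refine le_antisymm (hg _ _ ⟨fun v hv => ?_, Finset.inter_subset_left, Finset.inter_subset_left⟩)
      (hg _ _ ⟨fun v hv => ?_, Finset.inter_subset_left, Finset.inter_subset_left⟩) <;>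
    rw [ha v hv] <;> exact ⟨le_rfl, le_rfl⟩
  have e1 := ae_Z (β := β) (q := q) hk hgu
  have e2 := ae_Z (β := β) (q := q) hk (h := fun _ => 1) fun _ => rfl
  simp only [one_mul] at e2
  have h1 := fkg (q := q) (f := g) (g := ae_psi β S k) hβ hG (fun u _ u' _ h => hg u u' h)
    fun u hu u' hu' h => ae_psi_anti hβ hS hk hu hu' h
  have h2 : Z β q (Smax S.L S.E k) g * Z1 β q (ae_S0 S k) ≤
      Z β q (ae_S0 S k) g * Z1 β q (Smax S.L S.E k) :=
    mon_max (q := q) (S := ae_S0 S k) (X := k) (f := g) (f' := g) hβ hG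
      (fun e _ v _ _ hv => by simp [ae_S0, hv]) fun u _ u' _ h => hg u u' h
  have p0 := hG.pos hβ hq
  have p1 := (grp_Smax S.L S.E k).pos hβ hq
  have p2 : 0 ≤ Z β q (ae_S0 S k) (ae_psi β S k) :=
    Z_nonneg hβ hG.a01 fun u _ => ae_psi_nonneg β S k u
  rw [e1, e2]
  refine le_of_mul_le_mul_right ?_ p0
  have h3 := mul_le_mul_of_nonneg_right h2 p2
  have h4 := mul_le_mul_of_nonneg_right h1 p1.le
  nlinarith

end

end Pool.Agent.XYU

end

section

open Finset Real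

namespace Pool.Agent.XYU

open Classical

noncomputable section

/-! The clock model. `clk_site`: the `4 q` clock spins are the points `(± sin, ± cos)` of the
angles `(j + 1/2) π / (2 q)`: a bijection `Fin q × ZMod 2 × ZMod 2 ≃ Fin (4 q)` (four quadrants).
`site_sum`: product of these bijections (fields of `Off L σ₀` are functions `L → ZMod 2`).
`Z1_spin`: `Z1_eq`, `ip (vec a σ τ) e = pr c e * sg σ e + pr s e * sg τ e`, `site_sum`.
`Zs_rot`: multiplication by `exp (i k π / (2q))` permutes the clock spins (shift modulo `4 q`).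
`Zs_conj`: so does conjugation (`m ↦ 4 q - 1 - m`), and `ip` is invariant.
`mw` (two sided Mermin-Wagner bound): by `Zs_rot`, the two factors on the right are sums over the
same `m` of `exp (H₊ m)`, `exp (H₋ m)`; for an edge with spins `z, z'` of norm at most one and
angle `α = (k x - k y) π / (2q)`, `ip₊ + ip₋ = 2 cos α * ip ≥ 2 ip - α ^ 2`, with equality to zero
when one spin vanishes; Cauchy-Schwarz (`Finset.sum_mul_sq_le_sq_mul_sq` or
`sum_sq_le_sum_mul_sum_of_sq_eq_mul`). -/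

variable {β : ℝ} {q : ℕ}

lemma clk_norm (q : ℕ) (m : Fin (4 * q)) : ‖clk q m‖ = 1 :=
  Complex.norm_exp_ofReal_mul_I _

lemma af1_z2 (t : ZMod 2) : t = 0 ∨ t = 1 := by
  revert t; decide

lemma af1_clk (q : ℕ) (m : Fin (4 * q)) (θ : ℝ)
    (h : (((m : ℕ) : ℝ) + 1 / 2) * π / (2 * q) = θ) : clk q m = ⟨cos θ, sin θ⟩ := by
  unfold clk
  rw [h]
  apply Complex.ext
  · exact Complex.exp_ofReal_mul_I_re θ
  · exact Complex.exp_ofReal_mul_I_im θ

def af1_f (q : ℕ) (p : Fin q × ZMod 2 × ZMod 2) : Fin (4 * q) :=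
  ⟨if p.2.2 = 0 then (if p.2.1 = 0 then q - 1 - p.1 else q + p.1)
    else (if p.2.1 = 0 then 3 * q + p.1 else 3 * q - 1 - p.1), by
    have := p.1.2
    split_ifs <;> omega⟩

lemma af1_inj (q : ℕ) : Function.Injective (af1_f q) := by
  rintro ⟨j, s, t⟩ ⟨j', s', t'⟩ h
  have h1 := congrArg Fin.val h
  have a := j.2
  have a' := j'.2
  have n : (1 : ZMod 2) ≠ 0 := by decide
  rcases af1_z2 s with rfl | rfl <;> rcases af1_z2 t with rfl | rfl <;>
    rcases af1_z2 s' with rfl | rfl <;> rcases af1_z2 t' with rfl | rfl <;>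
    simp only [af1_f, n, if_true, if_false] at h1 <;>
    first
      | omega
      | exact Prod.ext (Fin.ext (by simp only; omega)) rfl

lemma clk_site (q : ℕ) : ∃ φ : Fin q × ZMod 2 × ZMod 2 ≃ Fin (4 * q), ∀ p,
    clk q (φ p) = ⟨chi p.2.1 * (st q p.1).1, chi p.2.2 * (st q p.1).2⟩ := by
  refine ⟨Equiv.ofBijective (af1_f q) ((Fintype.bijective_iff_injective_and_card _).mpr
    ⟨af1_inj q, by simp; ring⟩), ?_⟩
  rintro ⟨j, s, t⟩
  have a := j.2
  have hq : (q : ℝ) ≠ 0 := by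
    have : 0 < q := by omega
    positivity
  have n : (1 : ZMod 2) ≠ 0 := by decide
  set α : ℝ := (((j : ℕ) : ℝ) + 1 / 2) * π / (2 * q) with hα
  simp only [Equiv.ofBijective_apply, st, ← hα]
  rcases af1_z2 s with rfl | rfl <;> rcases af1_z2 t with rfl | rfl
  · rw [af1_clk q _ (π / 2 - α) (by
      simp only [af1_f, if_true, hα]
      rw [Nat.cast_sub (by omega), Nat.cast_sub (by omega)]
      field_simp
      push_cast
      ring)]
    simp [chi, cos_pi_div_two_sub, sin_pi_div_two_sub]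
  · rw [af1_clk q _ (α - π / 2 + 2 * π) (by
      simp only [af1_f, n, if_true, if_false, hα]
      field_simp
      push_cast
      ring)]
    simp [chi, cos_add_two_pi, sin_add_two_pi, cos_sub_pi_div_two, sin_sub_pi_div_two]
  · rw [af1_clk q _ (α + π / 2) (by
      simp only [af1_f, n, if_true, if_false, hα]
      field_simp
      push_cast
      ring)]
    simp [chi, cos_add_pi_div_two, sin_add_pi_div_two]
  · rw [af1_clk q _ (π / 2 - α + π) (by
      simp only [af1_f, n, if_false, hα]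
      rw [Nat.cast_sub (by omega), Nat.cast_sub (by omega)]
      field_simp
      push_cast
      ring)]
    simp [chi, cos_add_pi, sin_add_pi, cos_pi_div_two_sub, sin_pi_div_two_sub]

lemma af1_As (q : ℕ) (L : Finset V) (a₀ : V → ℝ × ℝ) (F : (V → ℝ × ℝ) → ℝ) :
    ∑ a ∈ As q L a₀, F a =
      ∑ j : L → Fin q, F fun v => if h : v ∈ L then st q (j ⟨v, h⟩) else a₀ v := by
  unfold As
  rw [sum_image]
  intro j _ j' _ h
  funext v
  have := congrFun h v.1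
  simp only [v.2, dif_pos] at this
  exact st_inj q this

lemma af1_Off (L : Finset V) (σ₀ : Fld) (F : Fld → ℝ) :
    ∑ σ ∈ Off L σ₀, F σ =
      ∑ s : L → ZMod 2, F fun v => if h : v ∈ L then s ⟨v, h⟩ else σ₀ v := by
  have e : Off L σ₀ = univ.image
      fun (s : L → ZMod 2) v => if h : v ∈ L then s ⟨v, h⟩ else σ₀ v := by
    ext σ
    rw [mem_Off, mem_image]
    constructor
    · intro h
      refine ⟨fun v => σ v.1, mem_univ _, ?_⟩
      funext v
      by_cases hv : v ∈ L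
      · simp [hv]
      · simp [hv, h v hv]
    · rintro ⟨s, _, rfl⟩ v hv
      simp [hv]
  rw [e, sum_image]
  intro j _ j' _ h
  funext v
  have := congrFun h v.1
  simpa only [v.2, dif_pos] using this

lemma site_sum (q : ℕ) (L : Finset V) (a₀ : V → ℝ × ℝ) (σ₀ τ₀ : Fld) (G : (V → ℂ) → ℝ) :
    ∑ a ∈ As q L a₀, ∑ σ ∈ Off L σ₀, ∑ τ ∈ Off L τ₀, G (vec a σ τ) =
      ∑ m : L → Fin (4 * q), G (spn q L (vec a₀ σ₀ τ₀) m) := by
  obtain ⟨φ, hφ⟩ := clk_site q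
  rw [af1_As]
  simp only [af1_Off]
  let e : (L → Fin q) × (L → ZMod 2) × (L → ZMod 2) ≃ (L → Fin (4 * q)) :=
    { toFun := fun p v => φ (p.1 v, p.2.1 v, p.2.2 v)
      invFun := fun m => (fun v => (φ.symm (m v)).1, fun v => (φ.symm (m v)).2.1,
        fun v => (φ.symm (m v)).2.2)
      left_inv := fun p => by simp
      right_inv := fun m => by funext v; simp }
  rw [← e.sum_comp, Fintype.sum_prod_type]
  refine sum_congr rfl fun j _ => ?_
  rw [Fintype.sum_prod_type]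
  refine sum_congr rfl fun s _ => sum_congr rfl fun t _ => ?_
  congr 1
  funext v
  by_cases hv : v ∈ L
  · simp only [vec, spn, hv, dif_pos, e, Equiv.coe_fn_mk, hφ]
  · simp only [vec, spn, hv, dif_neg, not_false_eq_true]

lemma ip_vec (a : V → ℝ × ℝ) (σ τ : Fld) (e : Sym2 V) : ip (vec a σ τ) e =
    pr (fun v => (a v).1) e * sg σ e + pr (fun v => (a v).2) e * sg τ e := by
  have key : ∀ s t : ZMod 2, chi s * chi t = if s = t then 1 else -1 := by
    intro s t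
    have n : (1 : ZMod 2) ≠ 0 := by decide
    rcases af1_z2 s with rfl | rfl <;> rcases af1_z2 t with rfl | rfl <;> simp [chi, n]
  induction e using Sym2.ind with
  | _ x y =>
    simp only [ip, pr, sg, vec, Sym2.lift_mk, ← key]
    ring

lemma Z1_spin (β : ℝ) (q : ℕ) (L : Finset V) (E : Es) (x : UC) (σ₀ τ₀ : Fld) :
    Z1 β q ⟨L, E, x, Off L σ₀, Off L τ₀⟩ = Zs β q L E (vec x.a σ₀ τ₀) fun _ => 1 := by
  rw [Z1_eq]
  unfold Zs
  rw [← site_sum q L x.a σ₀ τ₀ fun z => exp (∑ e ∈ E, β * ip z e) * 1]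
  refine sum_congr rfl fun a _ => ?_
  unfold Isum
  rw [sum_mul_sum]
  refine sum_congr rfl fun σ _ => sum_congr rfl fun τ _ => ?_
  rw [← exp_add, ← sum_add_distrib, mul_one]
  congr 1
  refine sum_congr rfl fun e _ => ?_
  rw [ip_vec]
  ring

end

end Pool.Agent.XYU

end

section

open Finset Real

namespace Pool.Agent.XYU

open Classical

noncomputable section

variable {β : ℝ} {q : ℕ}

lemma af2_ip_congr {z z' : V → ℂ} {e : Sym2 V} (h : ∀ v ∈ e, z v = z' v) : ip z e = ip z' e := by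
  induction e using Sym2.ind with
  | _ x y =>
    simp only [ip, Sym2.lift_mk]
    rw [h x (Sym2.mem_mk_left x y), h y (Sym2.mem_mk_right x y)]

/-- only the frozen ends of `E` matter -/
lemma Zs_congr (β : ℝ) (q : ℕ) (L : Finset V) (E : Es) {z z' : V → ℂ}
    (h : ∀ e ∈ E, ∀ v ∈ e, v ∉ L → z v = z' v) :
    Zs β q L E z (fun _ => 1) = Zs β q L E z' fun _ => 1 := by
  unfold Zs
  refine sum_congr rfl fun m _ => ?_
  congr 2
  refine sum_congr rfl fun e he => ?_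
  congr 1
  refine af2_ip_congr fun v hv => ?_
  unfold spn
  by_cases hL : v ∈ L
  · rw [dif_pos hL, dif_pos hL]
  · rw [dif_neg hL, dif_neg hL]
    exact h e he v hv hL

/-- rotation by `k v` steps -/
def rot (q : ℕ) (k : V → ℤ) (z : V → ℂ) : V → ℂ :=
  fun v => Complex.exp (((k v : ℝ) * π / (2 * q) : ℝ) * Complex.I) * z v

lemma af2_shift (hq : 0 < q) (k : ℤ) : ∃ σ : Equiv.Perm (Fin (4 * q)), ∀ m,
    clk q (σ m) = Complex.exp (((k : ℝ) * π / (2 * q) : ℝ) * Complex.I) * clk q m := by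
  have hN : (0 : ℤ) < ((4 * q : ℕ) : ℤ) := by exact_mod_cast (by omega : 0 < 4 * q)
  let f : Fin (4 * q) → Fin (4 * q) := fun m =>
    ⟨((((m : ℕ) : ℤ) + k) % ((4 * q : ℕ) : ℤ)).toNat, by
      have h1 := Int.emod_lt_of_pos (((m : ℕ) : ℤ) + k) hN
      have h2 := Int.emod_nonneg (((m : ℕ) : ℤ) + k) hN.ne'
      omega⟩
  have hf : ∀ m, (((f m : Fin (4 * q)) : ℕ) : ℤ) = (((m : ℕ) : ℤ) + k) % ((4 * q : ℕ) : ℤ) :=
    fun m => Int.toNat_of_nonneg (Int.emod_nonneg _ hN.ne')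
  have hinj : Function.Injective f := by
    intro m m' hm
    have h1 : (((m : ℕ) : ℤ) + k) % ((4 * q : ℕ) : ℤ) = (((m' : ℕ) : ℤ) + k) % ((4 * q : ℕ) : ℤ) := by
      rw [← hf, ← hf, hm]
    have h2 : ((m : ℕ) : ℤ) % ((4 * q : ℕ) : ℤ) = ((m' : ℕ) : ℤ) % ((4 * q : ℕ) : ℤ) :=
      Int.ModEq.add_right_cancel' k h1
    rw [Int.emod_eq_of_lt (by positivity) (by exact_mod_cast m.2),
      Int.emod_eq_of_lt (by positivity) (by exact_mod_cast m'.2)] at h2
    exact Fin.ext (by exact_mod_cast h2)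
  refine ⟨Equiv.ofBijective f (Finite.injective_iff_bijective.1 hinj), fun m => ?_⟩
  rw [Equiv.ofBijective_apply]
  have h3 : (((f m : Fin (4 * q)) : ℕ) : ℤ) =
      ((m : ℕ) : ℤ) + k - ((4 * q : ℕ) : ℤ) * ((((m : ℕ) : ℤ) + k) / ((4 * q : ℕ) : ℤ)) := by
    rw [hf, Int.emod_def]
  generalize ((((m : ℕ) : ℤ) + k) / ((4 * q : ℕ) : ℤ)) = t at h3
  have h4 : (((f m : Fin (4 * q)) : ℕ) : ℝ) = ((m : ℕ) : ℝ) + k - 4 * q * t := by
    exact_mod_cast h3
  have hq' : (q : ℝ) ≠ 0 := by exact_mod_cast hq.ne'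
  unfold clk
  rw [← Complex.exp_add, Complex.exp_eq_exp_iff_exists_int]
  refine ⟨-t, ?_⟩
  have h5 : ((((f m : Fin (4 * q)) : ℕ) : ℝ) + 1 / 2) * π / (2 * q) =
      (k : ℝ) * π / (2 * q) + (((m : ℕ) : ℝ) + 1 / 2) * π / (2 * q) - t * (2 * π) := by
    rw [h4]
    field_simp
    ring
  rw [h5]
  push_cast
  ring

lemma Zs_rot (β : ℝ) (hq : 0 < q) (L : Finset V) (E : Es) (z : V → ℂ) (k : V → ℤ) :
    Zs β q L E (rot q k z) (fun _ => 1) =
      ∑ m : L → Fin (4 * q), exp (∑ e ∈ E, β * ip (rot q k (spn q L z m)) e) := by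
  choose σ hσ using af2_shift hq
  unfold Zs
  symm
  refine Fintype.sum_equiv (Equiv.piCongrRight fun v : L => σ (k v)) _ _ fun m => ?_
  have h : spn q L (rot q k z) (Equiv.piCongrRight (fun v : L => σ (k v)) m) =
      rot q k (spn q L z m) := by
    funext v
    unfold spn rot
    beta_reduce
    by_cases hL : v ∈ L
    · rw [dif_pos hL, dif_pos hL]
      exact hσ (k v) (m ⟨v, hL⟩)
    · rw [dif_neg hL, dif_neg hL]
  rw [h, mul_one]

lemma af2_ip_rot (q : ℕ) (k : ℤ) (z : V → ℂ) (e : Sym2 V) :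
    ip (rot q (fun _ => k) z) e = ip z e := by
  induction e using Sym2.ind with
  | _ x y =>
    simp only [ip, Sym2.lift_mk, rot]
    generalize ((k : ℝ) * π / (2 * q) : ℝ) = t
    have h := cos_sq_add_sin_sq t
    simp only [Complex.mul_re, Complex.mul_im, Complex.exp_ofReal_mul_I_re,
      Complex.exp_ofReal_mul_I_im]
    linear_combination ((z x).re * (z y).re + (z x).im * (z y).im) * h

lemma Zs_rot_const (β : ℝ) (hq : 0 < q) (L : Finset V) (E : Es) (z : V → ℂ) (k : ℤ) :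
    Zs β q L E (rot q (fun _ => k) z) (fun _ => 1) = Zs β q L E z fun _ => 1 := by
  rw [Zs_rot β hq]
  unfold Zs
  simp only [af2_ip_rot, mul_one]

lemma af2_ip_conj (z : V → ℂ) (e : Sym2 V) :
    ip (fun v => (starRingEnd ℂ) (z v)) e = ip z e := by
  induction e using Sym2.ind with
  | _ x y =>
    simp only [ip, Sym2.lift_mk, Complex.conj_re, Complex.conj_im]
    ring

lemma af2_rev (hq : 0 < q) (m : Fin (4 * q)) : clk q m.rev = (starRingEnd ℂ) (clk q m) := by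
  have hq' : (q : ℝ) ≠ 0 := by exact_mod_cast hq.ne'
  have h1 : (m.rev : ℕ) + (m : ℕ) + 1 = 4 * q := by
    have := m.2
    rw [Fin.val_rev]
    omega
  have h2 : ((m.rev : ℕ) : ℝ) = 4 * q - 1 - (m : ℕ) := by
    have : ((m.rev : ℕ) : ℝ) + (m : ℕ) + 1 = 4 * q := by exact_mod_cast h1
    linarith
  unfold clk
  rw [← Complex.exp_conj, map_mul, Complex.conj_ofReal, Complex.conj_I,
    Complex.exp_eq_exp_iff_exists_int]
  refine ⟨1, ?_⟩
  have h5 : (((m.rev : ℕ) : ℝ) + 1 / 2) * π / (2 * q) =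
      2 * π - (((m : ℕ) : ℝ) + 1 / 2) * π / (2 * q) := by
    rw [h2]
    field_simp
    ring
  rw [h5]
  push_cast
  ring

lemma Zs_conj (β : ℝ) (hq : 0 < q) (L : Finset V) (E : Es) (z : V → ℂ) :
    Zs β q L E (fun v => (starRingEnd ℂ) (z v)) (fun _ => 1) = Zs β q L E z fun _ => 1 := by
  unfold Zs
  symm
  refine Fintype.sum_equiv (Equiv.piCongrRight fun _ : L => Fin.revPerm) _ _ fun m => ?_
  have h : spn q L (fun v => (starRingEnd ℂ) (z v))
      (Equiv.piCongrRight (fun _ : L => Fin.revPerm) m) =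
      fun v => (starRingEnd ℂ) (spn q L z m v) := by
    funext v
    unfold spn
    by_cases hL : v ∈ L
    · rw [dif_pos hL, dif_pos hL]
      exact af2_rev hq (m ⟨v, hL⟩)
    · rw [dif_neg hL, dif_neg hL]
  rw [h]
  simp only [af2_ip_conj]

end

end Pool.Agent.XYU

end

section

open Finset Real

namespace Pool.Agent.XYU

open Classical

noncomputable section

variable {β : ℝ} {q : ℕ}

lemma af_ip_rot (q : ℕ) (k : V → ℤ) (w : V → ℂ) (x y : V) :
    ip (rot q k w) s(x, y) + ip (rot q (-k) w) s(x, y) =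
      2 * cos ((k x : ℝ) * π / (2 * q) - (k y : ℝ) * π / (2 * q)) * ip w s(x, y) := by
  simp only [ip, rot, Sym2.lift_mk, Complex.mul_re, Complex.mul_im, Complex.exp_ofReal_mul_I_re,
    Complex.exp_ofReal_mul_I_im, Pi.neg_apply, Int.cast_neg, neg_mul, neg_div, cos_neg, sin_neg,
    cos_sub]
  ring

lemma af_ip_le {w : V → ℂ} (hw : ∀ v, ‖w v‖ ≤ 1) (x y : V) : ip w s(x, y) ≤ 1 := by
  simp only [ip, Sym2.lift_mk]
  have hx : (w x).re * (w x).re + (w x).im * (w x).im ≤ 1 := by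
    rw [← Complex.normSq_apply, Complex.normSq_eq_norm_sq]
    nlinarith [hw x, norm_nonneg (w x)]
  have hy : (w y).re * (w y).re + (w y).im * (w y).im ≤ 1 := by
    rw [← Complex.normSq_apply, Complex.normSq_eq_norm_sq]
    nlinarith [hw y, norm_nonneg (w y)]
  nlinarith [sq_nonneg ((w x).re - (w y).re), sq_nonneg ((w x).im - (w y).im)]

lemma af_edge (q : ℕ) (k : V → ℤ) {w : V → ℂ} (hw : ∀ v, ‖w v‖ ≤ 1) (X : Finset V)
    (hX : ∀ v ∈ X, w v = 0) (e : Sym2 V) :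
    2 * ip w e ≤ (if ∀ v ∈ e, v ∉ X then d2 (fun v => (k v : ℝ) * π / (2 * q)) e else 0) +
      (ip (rot q k w) e + ip (rot q (-k) w) e) := by
  induction e using Sym2.ind with
  | _ x y =>
    rw [af_ip_rot]
    split_ifs with h
    · have h1 := af_ip_le hw x y
      have h2 := Real.one_sub_sq_div_two_le_cos
        (x := (k x : ℝ) * π / (2 * q) - (k y : ℝ) * π / (2 * q))
      have h3 := Real.cos_le_one ((k x : ℝ) * π / (2 * q) - (k y : ℝ) * π / (2 * q))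
      simp only [d2, Sym2.lift_mk]
      nlinarith
    · have h0 : ip w s(x, y) = 0 := by
        push Not at h
        obtain ⟨v, hv, hvX⟩ := h
        rcases Sym2.mem_iff.1 hv with rfl | rfl <;> simp [ip, hX _ hvX]
      rw [h0]; simp

theorem mw (hβ : 0 ≤ β) (hq : 0 < q) (L : Finset V) (E : Es) (X : Finset V) {z : V → ℂ}
    (hz : ∀ v, ‖z v‖ ≤ 1) (hX : ∀ v ∈ X, v ∉ L ∧ z v = 0) (k : V → ℤ) :
    Zs β q L E z (fun _ => 1) ^ 2 ≤ exp (β * En E X fun v => (k v : ℝ) * π / (2 * q)) *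
      (Zs β q L E (rot q k z) (fun _ => 1) * Zs β q L E (rot q (-k) z) fun _ => 1) := by
  rw [Zs_rot β hq, Zs_rot β hq, ← mul_assoc, Finset.mul_sum _ _ (exp _)]
  unfold Zs
  refine Finset.sum_sq_le_sum_mul_sum_of_sq_le_mul _ (fun m _ => by positivity)
    (fun m _ => by positivity) fun m _ => ?_
  have hw : ∀ v, ‖spn q L z m v‖ ≤ 1 := fun v => by
    unfold spn
    split_ifs with h
    · exact (clk_norm q _).le
    · exact hz v
  have hX' : ∀ v ∈ X, spn q L z m v = 0 := fun v hv => by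
    unfold spn
    rw [dif_neg (hX v hv).1, (hX v hv).2]
  rw [mul_one, ← Real.exp_nat_mul, ← Real.exp_add, ← Real.exp_add]
  refine Real.exp_le_exp.2 ?_
  rw [En, Finset.sum_filter, Finset.mul_sum, Finset.mul_sum, ← Finset.sum_add_distrib,
    ← Finset.sum_add_distrib]
  refine Finset.sum_le_sum fun e _ => ?_
  have h := mul_le_mul_of_nonneg_left (af_edge q k hw X hX' e) hβ
  push_cast
  linarith

/-- rounding a profile: `k = round (n * q * χ)` -/
lemma en_round (hq : 0 < q) (E : Es) (X : Finset V) (χ : V → ℝ) (n : ℕ) :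
    En E X (fun v => (round ((n : ℝ) * q * χ v) : ℝ) * π / (2 * q)) ≤
      5 * n ^ 2 * En E X χ + 5 * (#E / q ^ 2) := by
  have hq' : (0 : ℝ) < q := by exact_mod_cast hq
  have hπ : π ^ 2 ≤ 10 := by nlinarith [Real.pi_lt_d2, Real.pi_pos]
  have key : ∀ e : Sym2 V, d2 (fun v => (round ((n : ℝ) * q * χ v) : ℝ) * π / (2 * q)) e ≤
      5 * n ^ 2 * d2 χ e + 5 / q ^ 2 := by
    intro e
    induction e using Sym2.ind with
    | _ x y =>
      simp only [d2, Sym2.lift_mk]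
      have hx := abs_le.1 (abs_sub_round ((n : ℝ) * q * χ x))
      have hy := abs_le.1 (abs_sub_round ((n : ℝ) * q * χ y))
      generalize ((round ((n : ℝ) * q * χ x) : ℤ) : ℝ) = a at hx ⊢
      generalize ((round ((n : ℝ) * q * χ y) : ℤ) : ℝ) = b at hy ⊢
      have h1 : (a - b) ^ 2 ≤ 2 * ((n : ℝ) * q * (χ x - χ y)) ^ 2 + 2 := by
        have h2 : (a - b - (n : ℝ) * q * (χ x - χ y)) ^ 2 ≤ 1 := by
          have : |a - b - (n : ℝ) * q * (χ x - χ y)| ≤ 1 := abs_le.2 ⟨by linarith, by linarith⟩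
          exact (sq_le_one_iff_abs_le_one _).2 this
        nlinarith [sq_nonneg (a - b - 2 * ((n : ℝ) * q * (χ x - χ y)))]
      have h3 : (a * π / (2 * q) - b * π / (2 * q)) ^ 2 = (a - b) ^ 2 * π ^ 2 / (4 * q ^ 2) := by
        field_simp; ring
      have h4 : 5 * (n : ℝ) ^ 2 * (χ x - χ y) ^ 2 + 5 / q ^ 2 =
          (2 * ((n : ℝ) * q * (χ x - χ y)) ^ 2 + 2) * 10 / (4 * q ^ 2) := by
        field_simp; ring
      rw [h3, h4]
      gcongr
  unfold En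
  refine (Finset.sum_le_sum fun e _ => key e).trans ?_
  rw [Finset.sum_add_distrib, ← Finset.mul_sum, Finset.sum_const, nsmul_eq_mul]
  have : (#(E.filter fun e => ∀ v ∈ e, v ∉ X) : ℝ) ≤ #E := by
    exact_mod_cast Finset.card_filter_le _ _
  have h5 : (#(E.filter fun e => ∀ v ∈ e, v ∉ X) : ℝ) * (5 / q ^ 2) ≤ #E * (5 / q ^ 2) := by
    gcongr
  have h6 : (#E : ℝ) * (5 / q ^ 2) = 5 * (#E / q ^ 2) := by ring
  linarith

end

end Pool.Agent.XYU

end

end
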