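import Pool.Agent.MP_b591f0_mp.Mg.XY_A3

-- part MP_b591f0_mp.XY.A4
section

section

open Finset Real

namespace Pool.Agent.XYU

open Classical

noncomputable section

/-! Cut bound and ratio mixing.
`cut_max`: by `Z_idx` in both directions with `G = H = {0}` one could change the blue group, but
simpler: in `Smax` the sine modulus vanishes off `L`, so `Isum β E U s` for `U = Flip (L ∪ ends E)`
is a fixed multiple of the one for `Flip L = Off L 0` (or use `Z_idx`/`cnt` directly on states of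
nonzero weight). By `Z_cos` (`cos_Off`) the right side is the partition function with red fields
`Off L σ₀`; by `Z1_spin` both sides are clock partition functions, with frozen spins `1` (`0` on
`X`) and `chi (σ₀ v)`; `mw` with `k = round (2 q χ)` (`en_round`, `n = 2`), both rotations give
the same frozen spins on the ends of `E` (`Zs_congr`).
`cut`: `mon_max` with `X = ∅`. `cut_explore`: `explore` and `cut_max`.
`sup4`: `Z1_eq`, `as_four`, `h4` for both colours (exchange set: `W` together with the sites of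
`L` where the second is larger; for blue the complement logic is reversed).
`rm` (ratio mixing). Let `L' = L \ W`, `E' = E \ D`. By `dec` both sides are double sums over the
states `v, v'` on `(W, D)` of weights times `Ψ(S, v) Ψ(S', v')`, `Ψ(S, v) = Z1 (S.cond L' E' v)`;
it suffices to show `Ψ(S,v) Ψ(S',v') ≤ K² Ψ(S,v') Ψ(S',v)`. View `Ψ` as a function of an outer
datum (`a` off `L`, groups) and an inner datum (`a` on `W`, constraints on the values on `W`).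
After `cnt_res` all outer groups lie between `Flip L` and `Flip (L ∪ ends E)`. Outer top: `a = (1,0)`,
red `Flip L`, blue `Flip (L ∪ ends E)`; outer bottom: colours exchanged; inner top: `a = (1,0)` on
`W`, red fields vanish on `W`, no blue constraint; inner bottom: exchanged. `sup4` says that
`log Ψ` is supermodular on comparable pairs, whence the cross ratio is at most the square of
`Ψ(t,t) Ψ(b,b) / (Ψ(t,b) Ψ(b,t))`, and up to cancelling powers of two these four numbers are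
clock partition functions with frozen spins `(1,1), (i,i), (1,i), (i,1)`; `Zs_rot_const`,
`Zs_conj` and `mw` with `k = round (q χ)` bound the ratio by `exp (5 β (En + #E / q²))`. -/

variable {β : ℝ} {q : ℕ} {S : Sys} {f g : UC → ℝ}

/-- the labels `σ₀` off `L` extend to a compatible field -/
def Ext (L : Finset V) (E : Es) (σ₀ : Fld) (w : Es) : Prop :=
  ∃ σ : Fld, (∀ v ∉ L, σ v = σ₀ v) ∧ cp σ (w ∩ E)

lemma Ext.anti {L : Finset V} {E : Es} {σ₀ : Fld} {w w' : Es} (h : Ext L E σ₀ w')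
    (hw : w ∩ E ⊆ w') : Ext L E σ₀ w := by
  obtain ⟨σ, h1, h2⟩ := h
  exact ⟨σ, h1, cp_mono (Finset.subset_inter hw Finset.inter_subset_right) h2⟩

lemma ag1_split (L : Finset V) (E : Es) (x : UC) (T U : Finset Fld) (r : Fld → Fld) :
    Z1 β q ⟨L, E, x, T, U⟩ =
      ∑ l ∈ U.image r, Z1 β q ⟨L, E, x, T, U.filter fun σ => r σ = l⟩ := by
  simp only [Z1_eq]
  rw [Finset.sum_comm]
  refine Finset.sum_congr rfl fun a _ => ?_
  rw [← Finset.mul_sum]
  congr 1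
  unfold Isum
  exact (Finset.sum_fiberwise_of_maps_to (fun σ hσ => Finset.mem_image_of_mem r hσ) _).symm

lemma ag1_Zs_nonneg (L : Finset V) (E : Es) (z : V → ℂ) : 0 ≤ Zs β q L E z fun _ => 1 :=
  Finset.sum_nonneg fun _ _ => mul_nonneg (exp_pos _).le zero_le_one

lemma ag1_En_nonneg (E : Es) (X : Finset V) (χ : V → ℝ) : 0 ≤ En E X χ := by
  refine Finset.sum_nonneg fun e _ => ?_
  induction e using Sym2.ind with
  | _ x y => exact sq_nonneg _

lemma ag1_clock (hβ : 0 ≤ β) (hq : 0 < q) (L : Finset V) (E : Es) {X : Finset V}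
    (hX : Disjoint X L) (σ₀ τ : Fld) (χ : V → ℝ)
    (hχ : ∀ e ∈ E, ∀ v ∈ e, v ∉ L → v ∉ X → χ v = if σ₀ v = 0 then 0 else 1) :
    exp (-(10 * β * (En E X χ + #E / q ^ 2))) *
        Zs β q L E (vec (Smax L E X).x.a 0 τ) (fun _ => 1) ≤
      Zs β q L E (vec (Smax L E X).x.a σ₀ τ) fun _ => 1 := by
  set z := vec (Smax L E X).x.a 0 τ with hz
  set z' := vec (Smax L E X).x.a σ₀ τ with hz'
  have zX : ∀ v ∈ X, z v = 0 ∧ z' v = 0 := fun v hv => by
    constructor <;> apply Complex.ext <;> simp [hz, hz', vec, Smax, hv]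
  have zN : ∀ v ∉ X, z v = 1 ∧ z' v = if σ₀ v = 0 then 1 else -1 := fun v hv => by
    constructor
    · apply Complex.ext <;> simp [hz, vec, Smax, hv, chi]
    · by_cases h0 : σ₀ v = 0 <;> apply Complex.ext <;> simp [hz', vec, Smax, hv, chi, h0]
  set k : V → ℤ := fun v => round (((2 : ℕ) : ℝ) * q * χ v) with hk
  have hq' : (q : ℝ) ≠ 0 := by positivity
  have hm := mw hβ hq L E X (z := z) (fun v => by
      by_cases hv : v ∈ X
      · simp [(zX v hv).1]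
      · simp [(zN v hv).1])
    (fun v hv => ⟨fun h => Finset.disjoint_left.1 hX hv h, (zX v hv).1⟩) k
  have kv : ∀ e ∈ E, ∀ v ∈ e, v ∉ L → v ∉ X → k v = if σ₀ v = 0 then 0 else 2 * (q : ℤ) := by
    intro e he v hv hL hvX
    simp only [hk]
    rw [hχ e he v hv hL hvX]
    split_ifs
    · simp
    · have : ((2 : ℕ) : ℝ) * q * 1 = ((2 * (q : ℤ) : ℤ) : ℝ) := by push_cast; ring
      rw [this, round_intCast]
  have e1 : Zs β q L E (rot q k z) (fun _ => 1) = Zs β q L E z' fun _ => 1 := by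
    refine Zs_congr β q L E fun e he v hv hL => ?_
    by_cases hvX : v ∈ X
    · simp [rot, (zX v hvX).1, (zX v hvX).2]
    · unfold rot
      rw [(zN v hvX).1, (zN v hvX).2, kv e he v hv hL hvX]
      split_ifs
      · simp
      · have : (((2 * (q : ℤ) : ℤ) : ℝ) * π / (2 * q) : ℝ) = π := by push_cast; field_simp
        rw [this, mul_one, Complex.exp_pi_mul_I]
  have e2 : Zs β q L E (rot q (-k) z) (fun _ => 1) = Zs β q L E z' fun _ => 1 := by
    refine Zs_congr β q L E fun e he v hv hL => ?_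
    by_cases hvX : v ∈ X
    · simp [rot, (zX v hvX).1, (zX v hvX).2]
    · unfold rot
      rw [(zN v hvX).1, (zN v hvX).2, Pi.neg_apply, kv e he v hv hL hvX]
      split_ifs
      · simp
      · have : (((-(2 * (q : ℤ)) : ℤ) : ℝ) * π / (2 * q) : ℝ) = -π := by push_cast; field_simp
        rw [this, mul_one, Complex.ofReal_neg, neg_mul, Complex.exp_neg, Complex.exp_pi_mul_I]
        norm_num
  rw [e1, e2] at hm
  have hen := en_round hq E X χ 2
  set A := En E X χ + #E / q ^ 2 with hA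
  have h0 := ag1_En_nonneg E X χ
  have h1 : (0 : ℝ) ≤ #E / q ^ 2 := by positivity
  have hle : β * En E X (fun v => (k v : ℝ) * π / (2 * q)) ≤ 10 * β * A + 10 * β * A := by
    have : En E X (fun v => (k v : ℝ) * π / (2 * q)) ≤ 20 * A := by
      refine hen.trans ?_
      push_cast
      rw [hA]; nlinarith
    nlinarith
  have hz0 := ag1_Zs_nonneg (β := β) (q := q) L E z'
  have h2 : Zs β q L E z (fun _ => 1) ^ 2 ≤
      (exp (10 * β * A) * Zs β q L E z' fun _ => 1) ^ 2 := by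
    refine hm.trans ?_
    have := mul_le_mul_of_nonneg_right (exp_le_exp.2 hle) (mul_nonneg hz0 hz0)
    rw [exp_add] at this
    calc _ ≤ _ := this
      _ = _ := by ring
  have h3 := (pow_le_pow_iff_left₀ (ag1_Zs_nonneg L E z) (by positivity) two_ne_zero).1 h2
  calc _ ≤ exp (-(10 * β * A)) * (exp (10 * β * A) * Zs β q L E z' fun _ => 1) :=
        mul_le_mul_of_nonneg_left h3 (exp_pos _).le
    _ = _ := by rw [← mul_assoc, ← exp_add]; simp

theorem cut_max (hβ : 0 ≤ β) (hq : 0 < q) (L : Finset V) (E : Es) {X : Finset V}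
    (hX : Disjoint X L) (σ₀ : Fld) (χ : V → ℝ)
    (hχ : ∀ e ∈ E, ∀ v ∈ e, v ∉ L → v ∉ X → χ v = if σ₀ v = 0 then 0 else 1) :
    exp (-(10 * β * (En E X χ + #E / q ^ 2))) * Z1 β q (Smax L E X) ≤
      Z β q (Smax L E X) fun u => ind (Ext L E σ₀ u.w) := by
  set U := Flip (L ∪ ends E) with hU
  have hUg : SG U := sg_Flip _
  have hUc : Cos U U := fun σ₁ h1 σ => ⟨fun h => hUg.2 _ h _ h1, fun h => by
    have := hUg.2 _ h _ h1
    rwa [add_assoc, show σ₁ + σ₁ = 0 from funext fun v => CharTwo.add_self_eq_zero _,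
      add_zero] at this⟩
  have s1 : Z1 β q ⟨L, E, (Smax L E X).x, Off L σ₀, U⟩ =
      Z β q (Smax L E X) fun u => ind (Ext L E σ₀ u.w) := by
    unfold Z1
    rw [Z_cos (S := ⟨L, E, (Smax L E X).x, Off L σ₀, U⟩) (cos_Off L σ₀) hUc]
    refine Z_congr (S := Smax L E X) fun u _ _ => ?_
    have a1 : AT U (u.b ∩ E) := ⟨0, hUg.1, fun _ _ _ => rfl⟩
    have a2 : AT (Off L σ₀) (u.w ∩ E) ↔ Ext L E σ₀ u.w :=
      ⟨fun ⟨σ, h1, h2⟩ => ⟨σ, mem_Off.1 h1, h2⟩, fun ⟨σ, h1, h2⟩ => ⟨σ, mem_Off.2 h1, h2⟩⟩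
    simp only
    rw [ind_pos a1, propext a2]
    ring
  have s2 : Z1 β q (Smax L E X) = Z1 β q ⟨L, E, (Smax L E X).x, Off L 0, U⟩ := by
    have : Off L 0 = Flip L := by
      ext σ
      rw [mem_Off, mem_Flip]
      rfl
    rw [this]
    rfl
  set r : Fld → Fld := fun σ v => if v ∈ L then 0 else σ v with hr
  rw [← s1, s2, ag1_split L E _ _ U r, ag1_split L E _ _ U r, Finset.mul_sum]
  refine Finset.sum_le_sum fun l hl => ?_
  obtain ⟨τ, hτ, rfl⟩ := Finset.mem_image.1 hl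
  have : (U.filter fun σ => r σ = r τ) = Off L τ := by
    ext σ
    rw [Finset.mem_filter, mem_Off, hU, mem_Flip]
    rw [hU, mem_Flip] at hτ
    constructor
    · rintro ⟨-, h⟩ v hv
      simpa [hr, hv] using congrFun h v
    · intro h
      refine ⟨fun v hv => ?_, funext fun v => ?_⟩
      · rw [h v fun h' => hv (Finset.mem_union_left _ h'), hτ v hv]
      · by_cases hv : v ∈ L
        · simp [hr, hv]
        · simp [hr, hv, h v hv]
  rw [this, Z1_spin, Z1_spin]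
  exact ag1_clock hβ hq L E hX σ₀ τ χ hχ

theorem cut (hβ : 0 ≤ β) (hq : 0 < q) (hS : Grp S) {X : Finset V} (hX : Disjoint X S.L)
    (hX0 : ∀ v ∈ X, (S.x.a v).1 = 0) (σ₀ : Fld) (χ : V → ℝ)
    (hχ : ∀ e ∈ S.E, ∀ v ∈ e, v ∉ S.L → v ∉ X → χ v = if σ₀ v = 0 then 0 else 1) :
    exp (-(10 * β * (En S.E X χ + #S.E / q ^ 2))) * Z1 β q S ≤
      Z β q S fun u => ind (Ext S.L S.E σ₀ u.w) := by
  have h1 := cut_max hβ hq S.L S.E hX σ₀ χ hχ
  have h2 := mon_max (q := q) hβ hS (X := X) (fun _ _ v _ _ hv => hX0 v hv)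
    (f := fun u => ind (Ext S.L S.E σ₀ u.w)) (f' := fun u => ind (Ext S.L S.E σ₀ u.w))
    (fun u _ u' _ h => ind_mono fun h' => h'.anti h.2.1)
  have hp := (grp_Smax S.L S.E X).pos hβ hq
  have h3 := mul_le_mul_of_nonneg_right h1 (hS.pos hβ hq).le
  refine le_of_mul_le_mul_right ?_ hp
  calc _ = _ := by ring
    _ ≤ _ := h3
    _ ≤ _ := h2

theorem cut_explore (hβ : 0 ≤ β) (hq : 0 < q) (hS : Grp S) {k : Finset V} (hk : Disjoint k S.L)
    (σ₀ : Fld) (χ : V → ℝ)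
    (hχ : ∀ e ∈ S.E, ∀ v ∈ e, v ∉ S.L → v ∉ k → χ v = if σ₀ v = 0 then 0 else 1) :
    exp (-(10 * β * (En S.E k χ + #S.E / q ^ 2))) * Z β q S (fun u => ind (Clo S.E k u.w)) ≤
      Z β q S fun u => ind (Ext S.L S.E σ₀ u.w) * ind (Clo S.E k u.w) := by
  have h1 := cut_max hβ hq S.L S.E hk σ₀ χ hχ
  have h2 := explore hβ hq hS hk (g := fun u => ind (Ext S.L S.E σ₀ u.w))
    (fun u => ind_nonneg _) (fun u u' h => ind_mono fun h' => h'.anti h.2.1)
  have hp := (grp_Smax S.L S.E k).pos hβ hq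
  have h0 : 0 ≤ Z β q S fun u => ind (Clo S.E k u.w) :=
    Z_nonneg hβ hS.a01 fun u _ => ind_nonneg _
  have h3 := mul_le_mul_of_nonneg_right h1 h0
  refine le_of_mul_le_mul_right ?_ hp
  calc _ = _ := by ring
    _ ≤ _ := h3
    _ ≤ _ := h2

end

end Pool.Agent.XYU

end

section

open Finset Real

namespace Pool.Agent.XYU

open Classical

noncomputable section

variable {β : ℝ} {q : ℕ} {S : Sys} {f g : UC → ℝ}

lemma ag2_Isum_nonneg (β : ℝ) (E : Es) (T : Finset Fld) (c : V → ℝ) : 0 ≤ Isum β E T c :=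
  Finset.sum_nonneg fun _ _ => (exp_pos _).le

lemma ag2_pw {L W B : Finset V} {T : Finset Fld} (hT : Fl L T) (hB : ∀ v ∉ L, v ∈ B ↔ v ∈ W)
    {σ τ : Fld} (h : W.piecewise σ τ ∈ T) : B.piecewise σ τ ∈ T := by
  have h1 := hT.add h (τ := B.piecewise σ τ - W.piecewise σ τ) (fun v hv => by
    by_cases hw : v ∈ W
    · simp [Finset.piecewise, hw, (hB v hv).2 hw]
    · have : v ∉ B := fun hb => hw ((hB v hv).1 hb)
      simp [Finset.piecewise, hw, this])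
  simpa using h1

/-- supermodularity: `S₁` is large off `W` and small on `W`, `S₂` the reverse -/
lemma sup4 (hβ : 0 ≤ β) {L W : Finset V} {E : Es} {S₁ S₂ S₃ S₄ : Sys} (h₃ : Grp S₃) (h₄ : Grp S₄)
    (hL : S₁.L = L ∧ S₂.L = L ∧ S₃.L = L ∧ S₄.L = L)
    (hE : S₁.E = E ∧ S₂.E = E ∧ S₃.E = E ∧ S₄.E = E) (hW : Disjoint W L)
    (hT : S₃.T ⊆ S₄.T) (hU : S₄.U ⊆ S₃.U)
    (hT' : ∀ σ₁ ∈ S₁.T, ∀ σ₂ ∈ S₂.T, W.piecewise σ₂ σ₁ ∈ S₃.T ∧ W.piecewise σ₁ σ₂ ∈ S₄.T)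
    (hU' : ∀ σ₁ ∈ S₁.U, ∀ σ₂ ∈ S₂.U, W.piecewise σ₂ σ₁ ∈ S₃.U ∧ W.piecewise σ₁ σ₂ ∈ S₄.U)
    (ha : ∀ e ∈ E, ∀ v ∈ e, v ∉ L → S₃.x.a v = W.piecewise S₂.x.a S₁.x.a v ∧
      S₄.x.a v = W.piecewise S₁.x.a S₂.x.a v ∧ ple (S₄.x.a v) (S₃.x.a v)) :
    Z1 β q S₁ * Z1 β q S₂ ≤ Z1 β q S₃ * Z1 β q S₄ := by
  obtain ⟨l1, l2, l3, l4⟩ := hL
  obtain ⟨e1, e2, e3, e4⟩ := hE
  have f3T : Fl L S₃.T := l3 ▸ h₃.Tf
  have f3U : Fl L S₃.U := l3 ▸ h₃.Uf
  have f4T : Fl L S₄.T := l4 ▸ h₄.Tf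
  have f4U : Fl L S₄.U := l4 ▸ h₄.Uf
  rw [mul_comm (Z1 β q S₃), Z1_eq, Z1_eq, Z1_eq, Z1_eq, l1, l2, l3, l4, e1, e2, e3, e4]
  refine as_four (fun _ _ => mul_nonneg (ag2_Isum_nonneg ..) (ag2_Isum_nonneg ..))
    (fun _ _ => mul_nonneg (ag2_Isum_nonneg ..) (ag2_Isum_nonneg ..))
    (fun _ _ => mul_nonneg (ag2_Isum_nonneg ..) (ag2_Isum_nonneg ..))
    (fun _ _ => mul_nonneg (ag2_Isum_nonneg ..) (ag2_Isum_nonneg ..)) ?_
  intro a hA a' hA' m hm M hM h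
  rw [mem_As] at hA hA' hm hM
  set B : Finset V := W ∪ L.filter fun v => m v = a v ∧ M v = a' v with hBdef
  have hB : ∀ v ∉ L, v ∈ B ↔ v ∈ W := fun v hv => by simp [hBdef, hv]
  have key : ∀ e ∈ E, ∀ v ∈ e, M v = B.piecewise a' a v ∧ m v = B.piecewise a a' v ∧
      ple (m v) (M v) ∧ 0 ≤ (m v).1 ∧ 0 ≤ (M v).2 := by
    intro e he v hv
    by_cases hvL : v ∈ L
    · have hvW : v ∉ W := fun hw => Finset.disjoint_left.1 hW hw hvL
      have p1 := (site_01 (hm.2 v hvL)).1.1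
      have p2 := (site_01 (hM.2 v hvL)).2.1
      by_cases hb : m v = a v ∧ M v = a' v
      · have hvB : v ∈ B := by simp [hBdef, hvL, hb.1, hb.2]
        refine ⟨by simp [Finset.piecewise, hvB, hb.2], by simp [Finset.piecewise, hvB, hb.1],
          ?_, p1, p2⟩
        rcases h v hvL with h | h
        · rw [h.2.1, h.2.2]; exact h.1
        · rw [h.2.1, h.2.2]; exact h.1
      · have hvB : v ∉ B := by
          simp only [hBdef, Finset.mem_union, Finset.mem_filter, not_or]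
          exact ⟨hvW, fun h' => hb h'.2⟩
        rcases h v hvL with h | h
        · exact absurd h.2 hb
        · refine ⟨by simp [Finset.piecewise, hvB, h.2.2], by simp [Finset.piecewise, hvB, h.2.1],
            ?_, p1, p2⟩
          rw [h.2.1, h.2.2]; exact h.1
    · obtain ⟨x3, x4, x5⟩ := ha e he v hv hvL
      have q1 := hA.1 v hvL
      have q2 := hA'.1 v hvL
      have q3 := hm.1 v hvL
      have q4 := hM.1 v hvL
      refine ⟨?_, ?_, by rw [q3, q4]; exact x5, by rw [q3]; exact (h₄.a01 v).1.1,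
        by rw [q4]; exact (h₃.a01 v).2.1⟩
      · rw [q4, x3]
        by_cases hw : v ∈ W
        · simp [Finset.piecewise, hw, (hB v hvL).2 hw, q2]
        · have : v ∉ B := fun hb => hw ((hB v hvL).1 hb)
          simp [Finset.piecewise, hw, this, q1]
      · rw [q3, x4]
        by_cases hw : v ∈ W
        · simp [Finset.piecewise, hw, (hB v hvL).2 hw, q1]
        · have : v ∉ B := fun hb => hw ((hB v hvL).1 hb)
          simp [Finset.piecewise, hw, this, q2]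
  have r := h4 hβ E B (T₁ := S₁.T) (T₂ := S₂.T) h₃.T0 h₄.T0 hT
    (fun σ₁ h1 σ₂ h2 => ⟨ag2_pw f3T hB (hT' σ₁ h1 σ₂ h2).1, ag2_pw f4T hB (hT' σ₁ h1 σ₂ h2).2⟩)
    (c₁ := fun v => (a v).1) (c₂ := fun v => (a' v).1) (c₃ := fun v => (M v).1)
    (c₄ := fun v => (m v).1) (fun e he v hv => by
      obtain ⟨k1, k2, k3, k4, k5⟩ := key e he v hv
      refine ⟨?_, ?_, k4, k3.1⟩
      · rw [k1]; by_cases hb : v ∈ B <;> simp [Finset.piecewise, hb]
      · rw [k2]; by_cases hb : v ∈ B <;> simp [Finset.piecewise, hb])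
  have b := h4 hβ E B (T₁ := S₂.U) (T₂ := S₁.U) h₄.U0 h₃.U0 hU
    (fun σ₂ h2 σ₁ h1 => ⟨ag2_pw f4U hB (hU' σ₁ h1 σ₂ h2).2, ag2_pw f3U hB (hU' σ₁ h1 σ₂ h2).1⟩)
    (c₁ := fun v => (a' v).2) (c₂ := fun v => (a v).2) (c₃ := fun v => (m v).2)
    (c₄ := fun v => (M v).2) (fun e he v hv => by
      obtain ⟨k1, k2, k3, k4, k5⟩ := key e he v hv
      refine ⟨?_, ?_, k5, k3.2⟩
      · rw [k2]; by_cases hb : v ∈ B <;> simp [Finset.piecewise, hb]
      · rw [k1]; by_cases hb : v ∈ B <;> simp [Finset.piecewise, hb])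
  have := mul_le_mul r b (mul_nonneg (ag2_Isum_nonneg ..) (ag2_Isum_nonneg ..))
    (mul_nonneg (ag2_Isum_nonneg ..) (ag2_Isum_nonneg ..))
  calc _ = _ := by ring
    _ ≤ _ := this
    _ = _ := by ring

end

end Pool.Agent.XYU

end

section

open Finset Real

namespace Pool.Agent.XYU

open Classical

noncomputable section

variable {β : ℝ} {q : ℕ} {S : Sys} {f g : UC → ℝ}

/-- cut a field to `B` -/
def ag_cut (B : Finset V) (σ : Fld) : Fld := fun v => if v ∈ B then σ v else 0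

lemma ag_cut_add (B : Finset V) (σ τ : Fld) : ag_cut B (σ + τ) = ag_cut B σ + ag_cut B τ := by
  funext v
  by_cases hv : v ∈ B <;> simp [ag_cut, hv]

lemma ag_two (σ : Fld) : σ + σ = 0 := by
  funext v
  exact CharTwo.add_self_eq_zero (σ v)

lemma ag_fib {T : Finset Fld} (hT : SG T) (B : Finset V) (G : Fld → ℝ) :
    ∑ σ ∈ T, G (ag_cut B σ) =
      (#(T.filter fun σ => ag_cut B σ = 0) : ℕ) * ∑ τ ∈ T.image (ag_cut B), G τ := by
  rw [sum_comp G (ag_cut B), mul_sum]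
  refine sum_congr rfl fun τ hτ => ?_
  obtain ⟨σ₀, h₀, rfl⟩ := mem_image.1 hτ
  rw [nsmul_eq_mul]
  congr 2
  refine card_nbij' (fun σ => σ + σ₀) (fun σ => σ + σ₀) ?_ ?_ ?_ ?_
  · intro σ hσ
    simp only [coe_filter, Set.mem_ofPred_eq] at hσ ⊢
    exact ⟨hT.2 _ hσ.1 _ h₀, by rw [ag_cut_add, hσ.2, ag_two]⟩
  · intro σ hσ
    simp only [coe_filter, Set.mem_ofPred_eq] at hσ ⊢
    exact ⟨hT.2 _ hσ.1 _ h₀, by rw [ag_cut_add, hσ.2, zero_add]⟩
  · intro σ _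
    simp only [add_assoc, ag_two, add_zero]
  · intro σ _
    simp only [add_assoc, ag_two, add_zero]

lemma ag_Isum {T : Finset Fld} (hT : SG T) (B : Finset V) (E : Es) (c : V → ℝ) (p : Fld → Prop)
    (hp : ∀ σ, p (ag_cut B σ) ↔ p σ)
    (hc : ∀ σ ∈ T, ∀ e ∈ E, ∀ v ∈ e, v ∉ B → c v = 0 ∨ σ v = 0) :
    Isum β E (T.filter p) c =
      (#(T.filter fun σ => ag_cut B σ = 0) : ℕ) * Isum β E ((T.image (ag_cut B)).filter p) c := by
  unfold Isum
  rw [sum_filter, sum_filter,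
    ← ag_fib hT B fun τ => if p τ then exp (∑ e ∈ E, β * pr c e * sg τ e) else 0]
  refine sum_congr rfl fun σ hσ => ?_
  rw [hp]
  congr 2
  refine sum_congr rfl fun e he => ?_
  induction e using Sym2.ind with
  | h x y =>
    have hx := hc σ hσ _ he x (Sym2.mem_mk_left x y)
    have hy := hc σ hσ _ he y (Sym2.mem_mk_right x y)
    simp only [pr, sg, Sym2.lift_mk]
    by_cases h0 : c x * c y = 0
    · simp [h0]
    have hx0 : c x ≠ 0 := left_ne_zero_of_mul h0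
    have hy0 : c y ≠ 0 := right_ne_zero_of_mul h0
    have ex : ag_cut B σ x = σ x := by
      by_cases hB : x ∈ B
      · simp [ag_cut, hB]
      · simp [ag_cut, hB, (hx hB).resolve_left hx0]
    have ey : ag_cut B σ y = σ y := by
      by_cases hB : y ∈ B
      · simp [ag_cut, hB]
      · simp [ag_cut, hB, (hy hB).resolve_left hy0]
    rw [ex, ey]

lemma ag_card_Flip (A : Finset V) : #(Flip A) = 2 ^ #A := by
  unfold Flip
  rw [card_image_of_injective, card_powerset]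
  intro B C h
  ext v
  have := congrFun h v
  by_cases hB : v ∈ B <;> by_cases hC : v ∈ C <;> simp_all

lemma ag_Isum_Flip {B C : Finset V} (hB : B ⊆ C) (E : Es) (c : V → ℝ)
    (hc : ∀ v ∈ C, v ∉ B → c v = 0) :
    Isum β E (Flip C) c = 2 ^ #(C \ B) * Isum β E (Flip B) c := by
  have h := ag_Isum (β := β) (sg_Flip C) B E c (fun _ => True) (fun _ => Iff.rfl) (by
    intro σ hσ e _ v _ hv
    by_cases hC : v ∈ C
    · exact Or.inl (hc v hC hv)
    · exact Or.inr (mem_Flip.1 hσ v hC))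
  have e1 : (Flip C).filter (fun σ => ag_cut B σ = 0) = Flip (C \ B) := by
    ext σ
    simp only [mem_filter, mem_Flip, mem_sdiff, funext_iff, ag_cut, Pi.zero_apply]
    constructor
    · rintro ⟨h1, h2⟩ v hv
      by_cases hv' : v ∈ B
      · simpa [hv'] using h2 v
      · exact h1 v fun hC => hv ⟨hC, hv'⟩
    · intro h
      refine ⟨fun v hv => h v fun h' => hv h'.1, fun v => ?_⟩
      by_cases hv' : v ∈ B
      · simpa [hv'] using h v fun h' => h'.2 hv'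
      · simp [hv']
  have e2 : (Flip C).image (ag_cut B) = Flip B := by
    ext σ
    simp only [mem_image, mem_Flip]
    constructor
    · rintro ⟨τ, -, rfl⟩ v hv
      simp [ag_cut, hv]
    · intro h
      refine ⟨σ, fun v hv => h v fun h' => hv (hB h'), funext fun v => ?_⟩
      by_cases hv' : v ∈ B
      · simp [ag_cut, hv']
      · simp [ag_cut, hv', h v hv']
  rw [e1, e2, filter_true, filter_true, ag_card_Flip] at h
  rw [h]
  push_cast
  ring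

lemma ag_spin (L : Finset V) (E : Es) (x : UC) {C C' : Finset V} (hC : L ⊆ C) (hC' : L ⊆ C')
    (h1 : ∀ v ∈ C, v ∉ L → (x.a v).1 = 0) (h2 : ∀ v ∈ C', v ∉ L → (x.a v).2 = 0) :
    Z1 β q ⟨L, E, x, Flip C, Flip C'⟩ = 2 ^ #(C \ L) * 2 ^ #(C' \ L) *
      Zs β q L E (fun v => ⟨(x.a v).1, (x.a v).2⟩) fun _ => 1 := by
  have e0 : Off L 0 = Flip L := by
    ext σ
    simp only [mem_Off, mem_Flip, Pi.zero_apply]
  have e1 : vec x.a 0 0 = fun v => (⟨(x.a v).1, (x.a v).2⟩ : ℂ) := by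
    funext v
    simp [vec, chi]
  rw [← e1, ← Z1_spin, e0, Z1_eq, Z1_eq, mul_sum]
  refine sum_congr rfl fun a ha => ?_
  have ha' := (mem_As.1 ha).1
  dsimp only at ha' ⊢
  rw [ag_Isum_Flip hC E _ fun v hv hv' => by rw [ha' v hv', h1 v hv hv'],
    ag_Isum_Flip hC' E _ fun v hv hv' => by rw [ha' v hv', h2 v hv hv']]
  ring

/-- inner datum: moduli on `W` and constraints on the red and blue fields -/
structure ag_I where
  a : V → ℝ × ℝ
  p : Fld → Prop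
  r : Fld → Prop

/-- a subgroup of fields defined by the values on `W` -/
structure ag_loc (W : Finset V) (p : Fld → Prop) : Prop where
  zero : p 0
  add : ∀ σ τ, p σ → p τ → p (σ + τ)
  loc : ∀ σ τ : Fld, (∀ v ∈ W, σ v = τ v) → p σ → p τ

structure ag_ok (W : Finset V) (i : ag_I) : Prop where
  a01 : A01 i.a
  p : ag_loc W i.p
  r : ag_loc W i.r

def ag_sys (S : Sys) (W : Finset V) (D : Es) (i : ag_I) : Sys :=
  ⟨S.L \ W, S.E \ D, ⟨W.piecewise i.a S.x.a, ∅, ∅⟩, S.T.filter i.p, S.U.filter i.r⟩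

lemma ag_sg {W : Finset V} {p : Fld → Prop} (hp : ag_loc W p) {T : Finset Fld} (hT : SG T) :
    SG (T.filter p) :=
  ⟨mem_filter.2 ⟨hT.1, hp.zero⟩, fun _ hσ _ hτ => mem_filter.2
    ⟨hT.2 _ (mem_filter.1 hσ).1 _ (mem_filter.1 hτ).1,
      hp.add _ _ (mem_filter.1 hσ).2 (mem_filter.1 hτ).2⟩⟩

lemma ag_fl {L W : Finset V} {p : Fld → Prop} (hp : ag_loc W p) {T : Finset Fld} (hT : Fl L T) :
    Fl (L \ W) (T.filter p) := by
  intro σ hσ v hv
  rw [mem_filter] at hσ ⊢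
  rw [mem_sdiff] at hv
  refine ⟨hT σ hσ.1 v hv.1, hp.loc σ _ (fun y hy => ?_) hσ.2⟩
  have : y ≠ v := fun h => hv.2 (h ▸ hy)
  simp [Pi.single_eq_of_ne this]

lemma ag_grp (hS : Grp S) {W : Finset V} (D : Es) {i : ag_I} (hi : ag_ok W i) :
    Grp (ag_sys S W D i) := by
  refine ⟨fun v => ?_, ag_sg hi.p hS.T0, ag_sg hi.r hS.U0, ag_fl hi.p hS.Tf, ag_fl hi.r hS.Uf⟩
  by_cases hv : v ∈ W
  · simpa [ag_sys, hv] using hi.a01 v
  · simpa [ag_sys, hv] using hS.a01 v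

lemma ag_pw {L W : Finset V} (hW : W ⊆ L) {p : Fld → Prop} (hp : ag_loc W p) {T : Finset Fld}
    (hT : Fl L T) {σ τ : Fld} (hσ : σ ∈ T) (hτ : p τ) : W.piecewise τ σ ∈ T.filter p := by
  rw [mem_filter]
  constructor
  · have h := hT.add hσ (τ := W.piecewise τ σ + σ) fun v hv => by
      have : v ∉ W := fun h => hv (hW h)
      simp [this, CharTwo.add_self_eq_zero]
    rwa [add_left_comm, ag_two, add_zero] at h
  · exact hp.loc τ _ (fun v hv => by simp [hv]) hτ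

/-- order on outer data -/
def ag_le (S S' : Sys) : Prop :=
  S'.L = S.L ∧ S'.E = S.E ∧ S'.T ⊆ S.T ∧ S.U ⊆ S'.U ∧ ∀ v, ple (S.x.a v) (S'.x.a v)

/-- order on inner data -/
def ag_li (i i' : ag_I) : Prop :=
  (∀ σ, i'.p σ → i.p σ) ∧ (∀ σ, i.r σ → i'.r σ) ∧ ∀ v, ple (i.a v) (i'.a v)

lemma ag_sup (hβ : 0 ≤ β) {S S' : Sys} (hS : Grp S) (hS' : Grp S') (h : ag_le S S')
    {W : Finset V} (hW : W ⊆ S.L) (D : Es) {i i' : ag_I} (hi : ag_ok W i) (hi' : ag_ok W i')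
    (h' : ag_li i i') :
    Z1 β q (ag_sys S' W D i) * Z1 β q (ag_sys S W D i') ≤
      Z1 β q (ag_sys S' W D i') * Z1 β q (ag_sys S W D i) := by
  obtain ⟨hL, hE, hT, hU, ha⟩ := h
  obtain ⟨hp, hr, ha'⟩ := h'
  have hW' : W ⊆ S'.L := hL ▸ hW
  refine sup4 (L := S.L \ W) (W := W) (E := S.E \ D) hβ (ag_grp hS' D hi') (ag_grp hS D hi)
    ⟨by simp only [ag_sys, hL], rfl, by simp only [ag_sys, hL], rfl⟩
    ⟨by simp only [ag_sys, hE], rfl, by simp only [ag_sys, hE], rfl⟩ disjoint_sdiff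
    ?_ ?_ ?_ ?_ ?_
  · intro σ hσ
    simp only [ag_sys, mem_filter] at hσ ⊢
    exact ⟨hT hσ.1, hp σ hσ.2⟩
  · intro σ hσ
    simp only [ag_sys, mem_filter] at hσ ⊢
    exact ⟨hU hσ.1, hr σ hσ.2⟩
  · intro σ₁ h₁ σ₂ h₂
    have h₁ := mem_filter.1 h₁
    have h₂ := mem_filter.1 h₂
    exact ⟨ag_pw hW' hi'.p hS'.Tf h₁.1 h₂.2, ag_pw hW hi.p hS.Tf h₂.1 h₁.2⟩
  · intro σ₁ h₁ σ₂ h₂
    have h₁ := mem_filter.1 h₁
    have h₂ := mem_filter.1 h₂
    exact ⟨ag_pw hW' hi'.r hS'.Uf h₁.1 h₂.2, ag_pw hW hi.r hS.Uf h₂.1 h₁.2⟩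
  · intro e _ v _ _
    by_cases hv : v ∈ W
    · simpa [ag_sys, hv] using ha' v
    · simpa [ag_sys, hv] using ha v

/-- cut the groups to `L ∪ ends E` -/
def ag_res (S : Sys) : Sys :=
  ⟨S.L, S.E, S.x, S.T.image (ag_cut (S.L ∪ ends S.E)), S.U.image (ag_cut (S.L ∪ ends S.E))⟩

lemma ag_sg_cut {T : Finset Fld} (hT : SG T) (B : Finset V) : SG (T.image (ag_cut B)) := by
  refine ⟨mem_image.2 ⟨0, hT.1, funext fun v => by simp [ag_cut]⟩, fun σ hσ τ hτ => ?_⟩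
  obtain ⟨σ, h1, rfl⟩ := mem_image.1 hσ
  obtain ⟨τ, h2, rfl⟩ := mem_image.1 hτ
  exact mem_image.2 ⟨σ + τ, hT.2 _ h1 _ h2, ag_cut_add B σ τ⟩

lemma ag_fl_cut {L B : Finset V} (h : L ⊆ B) {T : Finset Fld} (hT : Fl L T) :
    Fl L (T.image (ag_cut B)) := by
  intro σ hσ v hv
  obtain ⟨σ, h1, rfl⟩ := mem_image.1 hσ
  refine mem_image.2 ⟨_, hT σ h1 v hv, ?_⟩
  rw [ag_cut_add]
  congr 1
  funext y
  by_cases hy : y = v
  · subst hy
    simp [ag_cut, h hv]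
  · simp [ag_cut, Pi.single_eq_of_ne hy]

lemma ag_grp_res (hS : Grp S) : Grp (ag_res S) :=
  ⟨hS.a01, ag_sg_cut hS.T0 _, ag_sg_cut hS.U0 _, ag_fl_cut subset_union_left hS.Tf,
    ag_fl_cut subset_union_left hS.Uf⟩

lemma ag_cut_sub (B : Finset V) (T : Finset Fld) : T.image (ag_cut B) ⊆ Flip B := by
  intro σ hσ
  obtain ⟨σ, -, rfl⟩ := mem_image.1 hσ
  exact mem_Flip.2 fun v hv => by simp [ag_cut, hv]

lemma ag_Flip_sub {L : Finset V} {T : Finset Fld} (hT : SG T) (hf : Fl L T) : Flip L ⊆ T := by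
  intro σ hσ
  simpa using hf.add hT.1 (mem_Flip.1 hσ)

lemma ag_res_eq (hS : Grp S) {W : Finset V} (hW : W ⊆ S.L) (D : Es) : ∃ κ : ℝ, 0 < κ ∧
    ∀ i : ag_I, ag_ok W i → Z1 β q (ag_sys S W D i) = κ * Z1 β q (ag_sys (ag_res S) W D i) := by
  have hpos : ∀ T : Finset Fld, SG T →
      (0 : ℝ) < (#(T.filter fun σ => ag_cut (S.L ∪ ends S.E) σ = 0) : ℕ) := fun T hT =>
    Nat.cast_pos.2 (card_pos.2 ⟨0, mem_filter.2 ⟨hT.1, funext fun v => by simp [ag_cut]⟩⟩)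
  refine ⟨_, mul_pos (hpos _ hS.T0) (hpos _ hS.U0), fun i hi => ?_⟩
  have hloc : ∀ p : Fld → Prop, ag_loc W p → ∀ σ, p (ag_cut (S.L ∪ ends S.E) σ) ↔ p σ := by
    intro p hp σ
    have : ∀ v ∈ W, ag_cut (S.L ∪ ends S.E) σ v = σ v := fun v hv => by
      simp [ag_cut, hW hv]
    exact ⟨hp.loc _ _ this, hp.loc _ _ fun v hv => (this v hv).symm⟩
  have hends : ∀ e ∈ S.E \ D, ∀ v ∈ e, v ∈ S.L ∪ ends S.E := fun e he v hv =>
    mem_union_right _ (mem_ends.2 ⟨e, (mem_sdiff.1 he).1, hv⟩)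
  rw [Z1_eq, Z1_eq, mul_sum]
  refine sum_congr rfl fun a _ => ?_
  simp only [ag_sys, ag_res]
  rw [ag_Isum hS.T0 (S.L ∪ ends S.E) _ _ _ (hloc _ hi.p)
      fun _ _ e he v hv hv' => absurd (hends e he v hv) hv',
    ag_Isum hS.U0 (S.L ∪ ends S.E) _ _ _ (hloc _ hi.r)
      fun _ _ e he v hv hv' => absurd (hends e he v hv) hv']
  ring

/-- outer top and bottom -/
def ag_t (L : Finset V) (E : Es) : Sys :=
  ⟨L, E, ⟨fun _ => (1, 0), ∅, ∅⟩, Flip L, Flip (L ∪ ends E)⟩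

def ag_b (L : Finset V) (E : Es) : Sys :=
  ⟨L, E, ⟨fun _ => (0, 1), ∅, ∅⟩, Flip (L ∪ ends E), Flip L⟩

/-- inner top and bottom -/
def ag_T (W : Finset V) : ag_I := ⟨fun _ => (1, 0), fun σ => ∀ v ∈ W, σ v = 0, fun _ => True⟩

def ag_B (W : Finset V) : ag_I := ⟨fun _ => (0, 1), fun _ => True, fun σ => ∀ v ∈ W, σ v = 0⟩

lemma ag_loc_true (W : Finset V) : ag_loc W fun _ => True :=
  ⟨trivial, fun _ _ _ _ => trivial, fun _ _ _ _ => trivial⟩

lemma ag_loc_zero (W : Finset V) : ag_loc W fun σ => ∀ v ∈ W, σ v = 0 :=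
  ⟨fun _ _ => rfl, fun σ τ h h' v hv => by simp [h v hv, h' v hv],
    fun _ _ h h' v hv => (h v hv).symm.trans (h' v hv)⟩

lemma ag_ok_T (W : Finset V) : ag_ok W (ag_T W) :=
  ⟨fun v => by simp [ag_T], ag_loc_zero W, ag_loc_true W⟩

lemma ag_ok_B (W : Finset V) : ag_ok W (ag_B W) :=
  ⟨fun v => by simp [ag_B], ag_loc_true W, ag_loc_zero W⟩

lemma ag_grp_t (L : Finset V) (E : Es) : Grp (ag_t L E) :=
  ⟨fun v => by simp [ag_t], sg_Flip _, sg_Flip _, fl_Flip (Subset.refl _),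
    fl_Flip subset_union_left⟩

lemma ag_grp_b (L : Finset V) (E : Es) : Grp (ag_b L E) :=
  ⟨fun v => by simp [ag_b], sg_Flip _, sg_Flip _, fl_Flip subset_union_left,
    fl_Flip (Subset.refl _)⟩

lemma ag_le_t (hS : Grp S) : ag_le (ag_res S) (ag_t S.L S.E) :=
  ⟨rfl, rfl, ag_Flip_sub (ag_grp_res hS).T0 (ag_grp_res hS).Tf, ag_cut_sub _ _,
    fun v => ⟨(hS.a01 v).1.2, (hS.a01 v).2.1⟩⟩

lemma ag_b_le (hS : Grp S) : ag_le (ag_b S.L S.E) (ag_res S) :=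
  ⟨rfl, rfl, ag_cut_sub _ _, ag_Flip_sub (ag_grp_res hS).U0 (ag_grp_res hS).Uf,
    fun v => ⟨(hS.a01 v).1.1, (hS.a01 v).2.2⟩⟩

lemma ag_b_le_t (L : Finset V) (E : Es) : ag_le (ag_b L E) (ag_t L E) :=
  ⟨rfl, rfl, ag_Flip_sub (sg_Flip _) (fl_Flip subset_union_left),
    ag_Flip_sub (sg_Flip _) (fl_Flip subset_union_left), fun _ => ⟨zero_le_one, zero_le_one⟩⟩

lemma ag_zero_imp {W : Finset V} {p : Fld → Prop} (hp : ag_loc W p) (σ : Fld)
    (h : ∀ v ∈ W, σ v = 0) : p σ :=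
  hp.loc 0 σ (fun v hv => (h v hv).symm) hp.zero

lemma ag_li_T {W : Finset V} {i : ag_I} (hi : ag_ok W i) : ag_li i (ag_T W) :=
  ⟨ag_zero_imp hi.p, fun _ _ => trivial, fun v => ⟨(hi.a01 v).1.2, (hi.a01 v).2.1⟩⟩

lemma ag_B_li {W : Finset V} {i : ag_I} (hi : ag_ok W i) : ag_li (ag_B W) i :=
  ⟨fun _ _ => trivial, ag_zero_imp hi.r, fun v => ⟨(hi.a01 v).1.1, (hi.a01 v).2.2⟩⟩

lemma ag_Flip_filter (C W : Finset V) :
    (Flip C).filter (fun σ => ∀ v ∈ W, σ v = 0) = Flip (C \ W) := by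
  ext σ
  simp only [mem_filter, mem_Flip, mem_sdiff]
  constructor
  · rintro ⟨h1, h2⟩ v hv
    by_cases hv' : v ∈ W
    · exact h2 v hv'
    · exact h1 v fun hC => hv ⟨hC, hv'⟩
  · intro h
    exact ⟨fun v hv => h v fun h' => hv h'.1, fun v hv => h v fun h' => h'.2 hv⟩

lemma ag_exp_q (hq : 0 < q) :
    Complex.exp (((((q : ℤ) : ℝ) * π / (2 * q) : ℝ) : ℂ) * Complex.I) = Complex.I := by
  have hq' : (q : ℝ) ≠ 0 := Nat.cast_ne_zero.2 hq.ne'
  have : (((q : ℤ) : ℝ) * π / (2 * q) : ℝ) = π / 2 := by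
    push_cast
    field_simp
  rw [this]
  push_cast
  exact Complex.exp_pi_div_two_mul_I

/-- the extreme cross ratio -/
lemma ag_K (hβ : 0 ≤ β) (hq : 0 < q) {L W : Finset V} {E : Es} (D : Es) (hW : W ⊆ L)
    (χ : V → ℝ) (h1 : ∀ v ∈ W, χ v = 1) (h0 : ∀ e ∈ E, ∀ v ∈ e, v ∉ L → χ v = 0) :
    Z1 β q (ag_sys (ag_t L E) W D (ag_T W)) * Z1 β q (ag_sys (ag_b L E) W D (ag_B W)) ≤
      exp (5 * β * (En E ∅ χ + #E / q ^ 2)) *
        (Z1 β q (ag_sys (ag_t L E) W D (ag_B W)) * Z1 β q (ag_sys (ag_b L E) W D (ag_T W))) := by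
  have s1 : L \ W ⊆ L ∪ ends E := sdiff_subset.trans subset_union_left
  have s2 : L \ W ⊆ (L ∪ ends E) \ W := sdiff_subset_sdiff subset_union_left (Subset.refl _)
  have hout : ∀ v ∈ (L ∪ ends E) \ W, v ∉ W := fun v hv => (mem_sdiff.1 hv).2
  have hin : ∀ v ∈ L, v ∉ L \ W → v ∈ W := fun v hv hv' => by
    by_contra h
    exact hv' (mem_sdiff.2 ⟨hv, h⟩)
  have c1 : #((L ∪ ends E) \ (L \ W)) = #(L \ (L \ W)) + #(((L ∪ ends E) \ W) \ (L \ W)) := by
    rw [← card_union_of_disjoint]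
    · congr 1
      ext v
      have := @hW v
      simp only [mem_sdiff, mem_union]
      tauto
    · rw [disjoint_left]
      intro v
      simp only [mem_sdiff, mem_union]
      tauto
  simp only [ag_sys, ag_t, ag_b, ag_T, ag_B, filter_true, ag_Flip_filter]
  rw [ag_spin _ _ _ (Subset.refl _) s1 (fun v hv hv' => absurd hv hv')
      (fun v _ _ => by by_cases h : v ∈ W <;> simp [h]),
    ag_spin _ _ _ s1 (Subset.refl _) (fun v _ _ => by by_cases h : v ∈ W <;> simp [h])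
      (fun v hv hv' => absurd hv hv'),
    ag_spin _ _ _ sdiff_subset s2 (fun v hv hv' => by simp [hin v hv hv'])
      (fun v hv _ => by simp [hout v hv]),
    ag_spin _ _ _ s2 sdiff_subset (fun v hv _ => by simp [hout v hv])
      (fun v hv hv' => by simp [hin v hv hv']), c1]
  set k : V → ℤ := fun v => round (((1 : ℕ) : ℝ) * q * χ v) with hk
  have hkW : ∀ v ∈ W, k v = q := fun v hv => by simp [hk, h1 v hv]
  have hk0 : ∀ e ∈ E \ D, ∀ v ∈ e, v ∉ L \ W → v ∉ W → k v = 0 := fun e he v hv hv' hv'' => by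
    have : v ∉ L := fun h => hv' (mem_sdiff.2 ⟨h, hv''⟩)
    simp [hk, h0 e (mem_sdiff.1 he).1 v hv this]
  have hm := mw hβ hq (L \ W) (E \ D) ∅ (z := fun _ => 1) (fun _ => by simp) (by simp) k
  have hr := en_round hq (E \ D) ∅ χ 1
  have e1 : Zs β q (L \ W) (E \ D) (fun v => (⟨(W.piecewise (fun _ => ((1 : ℝ), (0 : ℝ)))
      (fun _ => (1, 0)) v).1, (W.piecewise (fun _ => ((1 : ℝ), (0 : ℝ))) (fun _ => (1, 0)) v).2⟩ : ℂ))
      (fun _ => 1) = Zs β q (L \ W) (E \ D) (fun _ => 1) fun _ => 1 :=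
    Zs_congr _ _ _ _ fun e _ v _ _ => by
      by_cases h : v ∈ W <;> simp [h, Complex.ext_iff]
  have e2 : Zs β q (L \ W) (E \ D) (fun v => (⟨(W.piecewise (fun _ => ((0 : ℝ), (1 : ℝ)))
      (fun _ => (0, 1)) v).1, (W.piecewise (fun _ => ((0 : ℝ), (1 : ℝ))) (fun _ => (0, 1)) v).2⟩ : ℂ))
      (fun _ => 1) = Zs β q (L \ W) (E \ D) (fun _ => 1) fun _ => 1 := by
    rw [← Zs_rot_const β hq _ _ (fun _ => 1) q]
    refine Zs_congr _ _ _ _ fun e _ v _ _ => ?_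
    simp only [rot, ag_exp_q hq]
    by_cases h : v ∈ W <;> simp [h, Complex.ext_iff]
  have e3 : Zs β q (L \ W) (E \ D) (fun v => (⟨(W.piecewise (fun _ => ((0 : ℝ), (1 : ℝ)))
      (fun _ => (1, 0)) v).1, (W.piecewise (fun _ => ((0 : ℝ), (1 : ℝ))) (fun _ => (1, 0)) v).2⟩ : ℂ))
      (fun _ => 1) = Zs β q (L \ W) (E \ D) (rot q k fun _ => 1) fun _ => 1 := by
    refine Zs_congr _ _ _ _ fun e he v hv hv' => ?_
    by_cases h : v ∈ W
    · simp only [rot, hkW v h, ag_exp_q hq]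
      simp [h, Complex.ext_iff]
    · simp [rot, hk0 e he v hv hv' h, h, Complex.ext_iff]
  have e4 : Zs β q (L \ W) (E \ D) (fun v => (⟨(W.piecewise (fun _ => ((1 : ℝ), (0 : ℝ)))
      (fun _ => (0, 1)) v).1, (W.piecewise (fun _ => ((1 : ℝ), (0 : ℝ))) (fun _ => (0, 1)) v).2⟩ : ℂ))
      (fun _ => 1) = Zs β q (L \ W) (E \ D) (rot q (-k) fun _ => 1) fun _ => 1 := by
    rw [← Zs_rot_const β hq _ _ (rot q (-k) fun _ => 1) q]
    refine Zs_congr _ _ _ _ fun e he v hv hv' => ?_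
    by_cases h : v ∈ W
    · simp only [rot, Pi.neg_apply, hkW v h, mul_one]
      rw [← Complex.exp_add]
      have : ((((q : ℤ) : ℝ) * π / (2 * q) : ℝ) : ℂ) * Complex.I +
          ((((-(q : ℤ) : ℤ) : ℝ) * π / (2 * q) : ℝ) : ℂ) * Complex.I = 0 := by
        push_cast
        ring
      rw [this]
      simp [h, Complex.ext_iff]
    · simp only [rot, ag_exp_q hq, Pi.neg_apply, hk0 e he v hv hv' h]
      simp [h, Complex.ext_iff]
  rw [e1, e2, e3, e4]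
  have hEn : En (E \ D) ∅ χ ≤ En E ∅ χ := by
    unfold En
    refine sum_le_sum_of_subset_of_nonneg (filter_subset_filter _ sdiff_subset) fun e _ _ => ?_
    induction e using Sym2.ind with
    | h x y => exact sq_nonneg _
  have hcard : (#(E \ D) : ℝ) / q ^ 2 ≤ #E / q ^ 2 :=
    div_le_div_of_nonneg_right (Nat.cast_le.2 (card_le_card sdiff_subset)) (by positivity)
  have hexp : exp (β * En (E \ D) ∅ fun v => (k v : ℝ) * π / (2 * q)) ≤
      exp (5 * β * (En E ∅ χ + #E / q ^ 2)) := by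
    refine exp_le_exp.2 ?_
    have : (En (E \ D) ∅ fun v => (k v : ℝ) * π / (2 * q)) ≤ 5 * (En E ∅ χ + #E / q ^ 2) := by
      simp only [Nat.cast_one, one_pow, mul_one] at hr
      simp only [hk, Nat.cast_one]
      linarith
    nlinarith
  have hnn : ∀ z : V → ℂ, 0 ≤ Zs β q (L \ W) (E \ D) z fun _ => 1 := fun z =>
    sum_nonneg fun m _ => by positivity
  have h2 := hm.trans (mul_le_mul_of_nonneg_right hexp (mul_nonneg (hnn _) (hnn _)))
  simp only [sdiff_self, bot_eq_empty, card_empty, pow_zero, pow_add]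
  generalize (2 : ℝ) ^ #(L \ (L \ W)) = m
  generalize (2 : ℝ) ^ #(((L ∪ ends E) \ W) \ (L \ W)) = n
  have h3 := mul_le_mul_of_nonneg_left h2 (sq_nonneg (m * n))
  calc _ = (m * n) ^ 2 * Zs β q (L \ W) (E \ D) (fun _ => 1) (fun _ => 1) ^ 2 := by ring
    _ ≤ _ := h3
    _ = _ := by ring

/-- cross ratio of a positive supermodular array -/
lemma ag_cross {K oi oB pi pB ti tB bi bB tT bT : ℝ} (h1 : 0 < oB) (h2 : 0 < tB) (h3 : 0 < bB)
    (h4 : 0 < bT) (h5 : 0 < pB) (h6 : 0 < bi) (h7 : 0 ≤ K)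
    (a1 : tB * oi ≤ ti * oB) (a2 : pB * bi ≤ pi * bB) (a3 : ti * bT ≤ tT * bi)
    (a4 : tT * bB ≤ K * (tB * bT)) : oi * pB ≤ K * (pi * oB) := by
  have b1 : ti * bB ≤ K * (tB * bi) := by
    refine le_of_mul_le_mul_right ?_ h4
    calc ti * bB * bT = ti * bT * bB := by ring
      _ ≤ tT * bi * bB := mul_le_mul_of_nonneg_right a3 h3.le
      _ = tT * bB * bi := by ring
      _ ≤ K * (tB * bT) * bi := mul_le_mul_of_nonneg_right a4 h6.le
      _ = _ := by ring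
  have b2 : oi * bB ≤ K * (bi * oB) := by
    refine le_of_mul_le_mul_right ?_ h2
    calc oi * bB * tB = tB * oi * bB := by ring
      _ ≤ ti * oB * bB := mul_le_mul_of_nonneg_right a1 h3.le
      _ = ti * bB * oB := by ring
      _ ≤ K * (tB * bi) * oB := mul_le_mul_of_nonneg_right b1 h1.le
      _ = _ := by ring
  refine le_of_mul_le_mul_right ?_ h3
  calc oi * pB * bB = oi * bB * pB := by ring
    _ ≤ K * (bi * oB) * pB := mul_le_mul_of_nonneg_right b2 h5.le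
    _ = K * oB * (pB * bi) := by ring
    _ ≤ K * oB * (pi * bB) := mul_le_mul_of_nonneg_left a2 (mul_nonneg h7 h1.le)
    _ = _ := by ring

lemma ag_ratio (hβ : 0 ≤ β) (hq : 0 < q) {S S' : Sys} (hS : Grp S) (hS' : Grp S')
    (hL : S'.L = S.L) (hE : S'.E = S.E) {W : Finset V} (D : Es) (hW : W ⊆ S.L) (χ : V → ℝ)
    (h1 : ∀ v ∈ W, χ v = 1) (h0 : ∀ e ∈ S.E, ∀ v ∈ e, v ∉ S.L → χ v = 0) {i : ag_I}
    (hi : ag_ok W i) :
    Z1 β q (ag_sys S W D i) * Z1 β q (ag_sys S' W D (ag_B W)) ≤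
      exp (5 * β * (En S.E ∅ χ + #S.E / q ^ 2)) *
        (Z1 β q (ag_sys S' W D i) * Z1 β q (ag_sys S W D (ag_B W))) := by
  have hW' : W ⊆ S'.L := hL ▸ hW
  obtain ⟨κ, hκ, e⟩ := ag_res_eq (β := β) (q := q) hS hW D
  obtain ⟨κ', hκ', e'⟩ := ag_res_eq (β := β) (q := q) hS' hW' D
  have hB := ag_ok_B W
  have hT := ag_ok_T W
  have gt := ag_grp_t S.L S.E
  have gb := ag_grp_b S.L S.E
  have g := ag_grp_res hS
  have g' := ag_grp_res hS'
  have lb : ag_le (ag_b S.L S.E) (ag_res S') := by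
    rw [← hL, ← hE]
    exact ag_b_le hS'
  have key := ag_cross ((ag_grp g D hB).pos hβ hq) ((ag_grp gt D hB).pos hβ hq)
    ((ag_grp gb D hB).pos hβ hq) ((ag_grp gb D hT).pos hβ hq) ((ag_grp g' D hB).pos hβ hq)
    ((ag_grp gb D hi).pos hβ hq) (exp_pos _).le
    (ag_sup hβ g gt (ag_le_t hS) hW D hB hi (ag_B_li hi))
    (ag_sup hβ gb g' lb hW D hB hi (ag_B_li hi))
    (ag_sup hβ gb gt (ag_b_le_t _ _) hW D hi hT (ag_li_T hi))
    (ag_K hβ hq D hW χ h1 h0)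
  rw [e _ hi, e _ hB, e' _ hi, e' _ hB]
  have h3 := mul_le_mul_of_nonneg_left key (mul_pos hκ hκ').le
  calc _ = κ * κ' * (Z1 β q (ag_sys (ag_res S) W D i) *
        Z1 β q (ag_sys (ag_res S') W D (ag_B W))) := by ring
    _ ≤ _ := h3
    _ = _ := by ring

lemma ag_ratio2 (hβ : 0 ≤ β) (hq : 0 < q) {S S' : Sys} (hS : Grp S) (hS' : Grp S')
    (hL : S'.L = S.L) (hE : S'.E = S.E) {W : Finset V} (D : Es) (hW : W ⊆ S.L) (χ : V → ℝ)
    (h1 : ∀ v ∈ W, χ v = 1) (h0 : ∀ e ∈ S.E, ∀ v ∈ e, v ∉ S.L → χ v = 0) {i i' : ag_I}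
    (hi : ag_ok W i) (hi' : ag_ok W i') :
    Z1 β q (ag_sys S W D i) * Z1 β q (ag_sys S' W D i') ≤
      exp (10 * β * (En S.E ∅ χ + #S.E / q ^ 2)) *
        (Z1 β q (ag_sys S' W D i) * Z1 β q (ag_sys S W D i')) := by
  have hW' : W ⊆ S'.L := hL ▸ hW
  have a := ag_ratio hβ hq hS hS' hL hE D hW χ h1 h0 hi
  have a' := ag_ratio hβ hq hS' hS hL.symm hE.symm D hW' χ h1 (by rw [hL, hE]; exact h0) hi'
  rw [hE] at a'
  have p1 := (ag_grp hS D (ag_ok_B W)).pos (q := q) hβ hq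
  have p2 := (ag_grp hS' D (ag_ok_B W)).pos (q := q) hβ hq
  have p3 := (ag_grp hS' D hi).pos (q := q) hβ hq
  have p4 := (ag_grp hS' D hi').pos (q := q) hβ hq
  have ee : exp (10 * β * (En S.E ∅ χ + #S.E / q ^ 2)) =
      exp (5 * β * (En S.E ∅ χ + #S.E / q ^ 2)) * exp (5 * β * (En S.E ∅ χ + #S.E / q ^ 2)) := by
    rw [← exp_add]
    congr 1
    ring
  have h3 := mul_le_mul a a' (mul_pos p4 p1).le (mul_pos (exp_pos _) (mul_pos p3 p1)).le
  refine le_of_mul_le_mul_right ?_ (mul_pos p1 p2)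
  rw [ee]
  calc _ = Z1 β q (ag_sys S W D i) * Z1 β q (ag_sys S' W D (ag_B W)) *
        (Z1 β q (ag_sys S' W D i') * Z1 β q (ag_sys S W D (ag_B W))) := by ring
    _ ≤ _ := h3
    _ = _ := by ring

lemma ag_merge (D w w₀ : Es) : (w ∩ D ∪ w₀ \ D) ∩ D = w ∩ D ∧ (w ∩ D ∪ w₀ \ D) \ D = w₀ \ D := by
  constructor <;> ext e <;> simp only [mem_inter, mem_union, mem_sdiff] <;> tauto

lemma ag_merge2 {D w w₀ w₁ : Es} (h : w \ D = w₀ \ D) :
    (w ∩ D ∪ w₁ \ D) ∩ D ∪ w₀ \ D = w := by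
  rw [(ag_merge D w w₁).1, ← h]
  ext e
  simp only [mem_inter, mem_union, mem_sdiff]
  tauto

/-- a sum over the free states does not depend on the frozen data -/
lemma ag_sum {W : Finset V} {D : Es} (x x' : UC) (T U T' U' : Finset Fld) {F : UC → ℝ}
    (hF : Dep W D F) :
    ∑ v ∈ Om q ⟨W, D, x, T, U⟩, F v = ∑ v ∈ Om q ⟨W, D, x', T', U'⟩, F v := by
  have hmem : ∀ (x x' : UC) (T U T' U' : Finset Fld), ∀ v ∈ Om q ⟨W, D, x, T, U⟩,
      (⟨W.piecewise v.a x'.a, v.w ∩ D ∪ x'.w \ D, v.b ∩ D ∪ x'.b \ D⟩ : UC) ∈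
        Om q ⟨W, D, x', T', U'⟩ := by
    intro x x' T U T' U' v hv
    rw [mem_Om] at hv ⊢
    refine ⟨fun y hy => ?_, fun y hy => ?_, (ag_merge _ _ _).2, (ag_merge _ _ _).2⟩
    · exact piecewise_eq_of_notMem _ _ _ hy
    · have := hv.2.1 y hy
      simpa [show y ∈ W from hy] using this
  have hinv : ∀ (x x' : UC) (T U : Finset Fld), ∀ v ∈ Om q ⟨W, D, x, T, U⟩,
      (⟨W.piecewise (W.piecewise v.a x'.a) x.a, (v.w ∩ D ∪ x'.w \ D) ∩ D ∪ x.w \ D,
        (v.b ∩ D ∪ x'.b \ D) ∩ D ∪ x.b \ D⟩ : UC) = v := by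
    intro x x' T U v hv
    rw [mem_Om] at hv
    refine UC.ext (funext fun y => ?_) (ag_merge2 hv.2.2.1) (ag_merge2 hv.2.2.2)
    by_cases hy : y ∈ W
    · simp [hy]
    · simpa [hy] using (hv.1 y hy).symm
  refine sum_nbij' (fun v => ⟨W.piecewise v.a x'.a, v.w ∩ D ∪ x'.w \ D, v.b ∩ D ∪ x'.b \ D⟩)
    (fun v => ⟨W.piecewise v.a x.a, v.w ∩ D ∪ x.w \ D, v.b ∩ D ∪ x.b \ D⟩)
    (hmem x x' T U T' U') (hmem x' x T' U' T U) (hinv x x' T U) (hinv x' x T' U') fun v _ => ?_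
  exact hF _ _ (fun y hy => by simp [hy]) (ag_merge _ _ _).1.symm (ag_merge _ _ _).1.symm

/-- the inner datum of a state -/
def ag_in (D : Es) (v : UC) : ag_I := ⟨v.a, fun σ => cp σ (v.w ∩ D), fun σ => cp σ (v.b ∩ D)⟩

lemma ag_loc_cp {W : Finset V} {D : Es} (hDW : ∀ e ∈ D, ∀ v ∈ e, v ∈ W) (w : Es) :
    ag_loc W fun σ => cp σ (w ∩ D) := by
  refine ⟨fun _ _ _ => rfl, fun _ _ => cp_add, fun σ τ h h' x y hxy => ?_⟩
  have hD := hDW _ (mem_inter.1 hxy).2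
  rw [← h x (hD x (Sym2.mem_mk_left x y)), ← h y (hD y (Sym2.mem_mk_right x y))]
  exact h' x y hxy

/-- weight of the inner edges -/
def ag_om (β : ℝ) (D : Es) (v : UC) : ℝ :=
  wr β D (fun y => (v.a y).1) v.w * wr β D (fun y => (v.a y).2) v.b

lemma ag_wr {W : Finset V} {D : Es} (hDW : ∀ e ∈ D, ∀ v ∈ e, v ∈ W) {c c' : V → ℝ}
    (hc : ∀ v ∈ W, c v = c' v) {w w' : Es} (hw : w ∩ D = w' ∩ D) : wr β D c w = wr β D c' w' := by
  refine prod_congr rfl fun e he => ?_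
  have h1 : (e ∈ w) = (e ∈ w') := by
    have := Finset.ext_iff.1 hw e
    simpa [he] using this
  have h2 : pr c e = pr c' e := by
    induction e using Sym2.ind with
    | h x y =>
      simp only [pr, Sym2.lift_mk]
      rw [hc x (hDW _ he x (Sym2.mem_mk_left x y)), hc y (hDW _ he y (Sym2.mem_mk_right x y))]
  rw [h1, h2]

lemma ag_dec {W : Finset V} {D : Es} (hW : W ⊆ S.L) (hD : D ⊆ S.E)
    (hDW : ∀ e ∈ D, ∀ v ∈ e, v ∈ W) (hf : Dep W D f) (x : UC) :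
    Z β q S f = ∑ v ∈ Om q ⟨W, D, x, ∅, ∅⟩,
      ag_om β D v * f v * Z1 β q (ag_sys S W D (ag_in D v)) := by
  have hin : S.In (S.L \ W) (S.E \ D) := by
    refine ⟨sdiff_subset, sdiff_subset, fun e he he' v hv hv' => (mem_sdiff.1 hv').2 ?_⟩
    refine hDW e ?_ v hv
    by_contra h
    exact he' (mem_sdiff.2 ⟨he, h⟩)
  have eL : S.L \ (S.L \ W) = W := Finset.sdiff_sdiff_eq_self hW
  have eE : S.E \ (S.E \ D) = D := Finset.sdiff_sdiff_eq_self hD
  rw [dec hin, eL, eE, ← ag_sum S.x x S.T S.U ∅ ∅]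
  · refine sum_congr rfl fun v hv => ?_
    rw [mem_Om] at hv
    have h1 : Z β q (S.cond (S.L \ W) (S.E \ D) v) f =
        f v * Z1 β q (S.cond (S.L \ W) (S.E \ D) v) := by
      rw [← Z_const]
      refine Z_congr fun u hu _ => ?_
      rw [mem_Om] at hu
      have hw : ∀ {w w' : Es}, w \ (S.E \ D) = w' \ (S.E \ D) → w ∩ D = w' ∩ D := by
        intro w w' h
        ext e
        have := Finset.ext_iff.1 h e
        simp only [mem_inter, mem_sdiff] at this ⊢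
        tauto
      exact hf _ _ (fun y hy => hu.1 y fun h => (mem_sdiff.1 h).2 hy) (hw hu.2.2.1) (hw hu.2.2.2)
    have h2 : Z1 β q (S.cond (S.L \ W) (S.E \ D) v) = Z1 β q (ag_sys S W D (ag_in D v)) := by
      have ea : W.piecewise v.a S.x.a = v.a := funext fun y => by
        by_cases hy : y ∈ W
        · simp [hy]
        · simpa [hy] using (hv.1 y hy).symm
      rw [Z1_eq, Z1_eq]
      simp only [Sys.cond, ag_sys, ag_in, eE, ea]
    rw [h1, h2, ag_om]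
    ring
  · intro u u' ha hw hb
    have ea : W.piecewise u.a S.x.a = W.piecewise u'.a S.x.a := funext fun y => by
      by_cases hy : y ∈ W
      · simp [hy, ha y hy]
      · simp [hy]
    simp only [ag_om, ag_sys, ag_in, ea, hw, hb]
    rw [hf u u' ha hw hb, ag_wr hDW (fun y hy => congrArg Prod.fst (ha y hy)) hw,
      ag_wr hDW (fun y hy => congrArg Prod.snd (ha y hy)) hb]

theorem rm (hβ : 0 ≤ β) (hq : 0 < q) {S S' : Sys} (hS : Grp S) (hS' : Grp S') (hL : S'.L = S.L)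
    (hE : S'.E = S.E) {W : Finset V} {D : Es} (hW : W ⊆ S.L) (hD : D ⊆ S.E)
    (hDW : ∀ e ∈ D, ∀ v ∈ e, v ∈ W) (χ : V → ℝ) (h1 : ∀ v ∈ W, χ v = 1)
    (h0 : ∀ e ∈ S.E, ∀ v ∈ e, v ∉ S.L → χ v = 0) (hf0 : ∀ u, 0 ≤ f u) (hf : Dep W D f) :
    Z β q S f * Z1 β q S' ≤
      exp (10 * β * (En S.E ∅ χ + #S.E / q ^ 2)) * (Z β q S' f * Z1 β q S) := by
  have hW' : W ⊆ S'.L := hL ▸ hW
  have hD' : D ⊆ S'.E := hE ▸ hD
  have h1' : Dep W D fun _ => (1 : ℝ) := fun _ _ _ _ _ => rfl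
  unfold Z1
  rw [ag_dec hW hD hDW hf S.x, ag_dec hW' hD' hDW hf S.x, ag_dec hW hD hDW h1' S.x,
    ag_dec hW' hD' hDW h1' S.x, sum_mul_sum, sum_mul_sum, mul_sum]
  refine sum_le_sum fun v hv => ?_
  rw [mul_sum]
  refine sum_le_sum fun v' hv' => ?_
  have a := a01_Om (S := ⟨W, D, S.x, ∅, ∅⟩) hS.a01 hv
  have a' := a01_Om (S := ⟨W, D, S.x, ∅, ∅⟩) hS.a01 hv'
  have hom : ∀ u : UC, A01 u.a → 0 ≤ ag_om β D u := fun u hu =>
    mul_nonneg (wr_nonneg hβ D (fun y => (hu y).1.1) _) (wr_nonneg hβ D (fun y => (hu y).2.1) _)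
  have key := ag_ratio2 hβ hq hS hS' hL hE D hW χ h1 h0 (i := ag_in D v) (i' := ag_in D v')
    ⟨a, ag_loc_cp hDW _, ag_loc_cp hDW _⟩ ⟨a', ag_loc_cp hDW _, ag_loc_cp hDW _⟩
  have h3 := mul_le_mul_of_nonneg_left key (mul_nonneg (mul_nonneg (hom v a) (hf0 v)) (hom v' a'))
  calc _ = ag_om β D v * f v * ag_om β D v' * (Z1 β q (ag_sys S W D (ag_in D v)) *
        Z1 β q (ag_sys S' W D (ag_in D v'))) := by ring
    _ ≤ _ := h3
    _ = _ := by ring

end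

end Pool.Agent.XYU

end

end

-- part MP_b591f0_mp.XY.B1
section

section

open Finset Real Relation

namespace Pool.Agent.XYU

open Classical

noncomputable section

/-! Lattice definitions. -/

def Adj (a b : V) : Prop :=
  (a.1 = b.1 ∧ (b.2 = a.2 + 1 ∨ a.2 = b.2 + 1)) ∨ (a.2 = b.2 ∧ (b.1 = a.1 + 1 ∨ a.1 = b.1 + 1))

/-- sup distance -/
def dd (u v : V) : ℤ := max (max (u.1 - v.1) (v.1 - u.1)) (max (u.2 - v.2) (v.2 - u.2))

/-- sup norm -/
def nm (v : V) : ℤ := max (max v.1 (-v.1)) (max v.2 (-v.2))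

def rect (x0 x1 y0 y1 : ℤ) : Finset V := Icc (x0, y0) (x1, y1)

def bx (c : V) (r : ℤ) : Finset V := rect (c.1 - r) (c.1 + r) (c.2 - r) (c.2 + r)

/-- sites with `r ≤ nm ≤ R` -/
def ann (r R : ℤ) : Finset V := (bx 0 R).filter fun v => r ≤ nm v

/-- lattice edges touching `Λ` -/
def Ed (Λ : Finset V) : Es := Λ.biUnion fun v =>
  {s(v, (v.1 + 1, v.2)), s(v, (v.1 - 1, v.2)), s(v, (v.1, v.2 + 1)), s(v, (v.1, v.2 - 1))}

/-- lattice edges inside `Λ` -/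
def Ei (Λ : Finset V) : Es := (Ed Λ).filter fun e => ∀ v ∈ e, v ∈ Λ

/-- connection by open edges inside `P` -/
def Cn (w : Es) (P : Set V) : V → V → Prop :=
  ReflTransGen fun u v => u ∈ P ∧ v ∈ P ∧ Adj u v ∧ s(u, v) ∈ w

/-- lattice connection inside `P` -/
def Lc (P : Set V) : V → V → Prop := ReflTransGen fun u v => u ∈ P ∧ v ∈ P ∧ Adj u v

/-- the field is constant along the open lattice edges inside `P` -/
def cpl (σ : Fld) (w : Es) (P : Set V) : Prop :=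
  ∀ x y, x ∈ P → y ∈ P → Adj x y → s(x, y) ∈ w → σ x = σ y

/-- unsigned lattice system, small compared with `q` -/
structure LG (q : ℕ) (S : Sys) : Prop where
  grp : Grp S
  ed : S.E = Ed S.L
  pos : 0 < q
  sz : #S.E ≤ q

/-- freeze everything off `Λ` -/
def Sys.lc (S : Sys) (Λ : Finset V) (u : UC) : Sys := S.cond Λ (Ed Λ) u

/-- uniform upper bound over all unsigned boundary conditions off `Λ` -/
def UB (β : ℝ) (q : ℕ) (Λ : Finset V) (f : UC → ℝ) (p : ℝ) : Prop :=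
  ∀ S, LG q S → Λ ⊆ S.L → Z β q S f ≤ p * Z1 β q S

/-- uniform lower bound -/
def LB (β : ℝ) (q : ℕ) (Λ : Finset V) (f : UC → ℝ) (p : ℝ) : Prop :=
  ∀ S, LG q S → Λ ⊆ S.L → p * Z1 β q S ≤ Z β q S f

/-- lattice isometry -/
structure IsFr (F : V ≃ V) : Prop where
  adj : ∀ u v, Adj (F u) (F v) ↔ Adj u v
  dd : ∀ u v, dd (F u) (F v) = dd u v

/-- the state read in the frame `F` -/
def UC.pull (F : V ≃ V) (u : UC) : UC := u.map F.symm

/-- frame with origin `o` and first axis in direction `d` (east, north, west, south); the second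
axis points to the left -/
def fr (o : V) (d : Fin 4) : V ≃ V where
  toFun v := if d = 0 then (o.1 + v.1, o.2 + v.2) else if d = 1 then (o.1 - v.2, o.2 + v.1)
    else if d = 2 then (o.1 - v.1, o.2 - v.2) else (o.1 + v.2, o.2 - v.1)
  invFun v := if d = 0 then (v.1 - o.1, v.2 - o.2) else if d = 1 then (v.2 - o.2, o.1 - v.1)
    else if d = 2 then (o.1 - v.1, o.2 - v.2) else (o.2 - v.2, v.1 - o.1)
  left_inv v := by split_ifs <;> ext <;> simp
  right_inv v := by split_ifs <;> ext <;> simp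

/-- frame at `(y, 0)` looking right (`d = true`) or left -/
def tf (y : ℤ) (d : Bool) : V ≃ V where
  toFun v := (if d then y + v.1 else y - v.1, v.2)
  invFun v := (if d then v.1 - y else y - v.1, v.2)
  left_inv v := by cases d <;> ext <;> simp
  right_inv v := by cases d <;> ext <;> simp

/-- the open cluster of the box of radius `r` stays in the open box of radius `R` -/
def Iso (w : Es) (c : V) (r R : ℤ) : Prop :=
  ∀ x y, dd x c ≤ r → Cn w Set.univ x y → dd y c < R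

/-- cluster of `v` inside `A` -/
def cl (w : Es) (A : Finset V) (v : V) : Finset V := A.filter fun y => Cn w A v y

/-- clusters of the box of radius `2 r` that join the box of radius `r` to the boundary -/
def crs (w : Es) (c : V) (r : ℤ) : Finset (Finset V) :=
  ((bx c r).filter fun v => ∃ y, dd y c = 2 * r ∧ Cn w (bx c (2 * r)) v y).image
    (cl w (bx c (2 * r)))

/-- `n` different clusters cross the annulus `r ≤ nm ≤ 2 r` -/
def Cr (w : Es) (r : ℤ) (n : ℕ) : Prop := ∃ P : Finset V, #P = n ∧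
  (∀ p ∈ P, nm p = r ∧ ∃ y, nm y = 2 * r ∧ Cn w (ann r (2 * r)) p y) ∧
  ∀ p ∈ P, ∀ p' ∈ P, Cn w (ann r (2 * r)) p p' → p = p'

/-- `n` different clusters of the outside of the box `ρ` join it to the outside of the box `L` -/
def Mge (w : Es) (L ρ : ℤ) (n : ℕ) : Prop := ∃ P : Finset V, #P = n ∧
  (∀ p ∈ P, nm p = ρ + 1 ∧ ∃ y, L < nm y ∧ Cn w {v | ρ < nm v} p y) ∧
  ∀ p ∈ P, ∀ p' ∈ P, Cn w {v | ρ < nm v} p p' → p = p'

/-- the box `L` with a spin boundary condition -/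
def GS (L : ℤ) (a : V → ℝ × ℝ) (σ τ : Fld) : Sys :=
  ⟨bx 0 L, Ed (bx 0 L), ⟨a, ∅, ∅⟩, Off (bx 0 L) σ, Off (bx 0 L) τ⟩

/-- the same with all signs plus -/
def G0 (L : ℤ) (a : V → ℝ × ℝ) : Sys :=
  ⟨bx 0 L, Ed (bx 0 L), ⟨a, ∅, ∅⟩, Flip (bx 0 L), Flip (bx 0 L)⟩

/-- expectation under the largest boundary condition -/
def Pm (β : ℝ) (q : ℕ) (Λ : Finset V) (f : UC → ℝ) : ℝ := Ex β q (Smax Λ (Ed Λ) ∅) f

end

end Pool.Agent.XYU

end

section

open Finset Real Relation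

namespace Pool.Agent.XYU

open Classical

noncomputable section

/-! Fences at the tips of clusters of the upper half plane, certificates of directed edges. -/

/-- upper half box -/
def HB (W : ℤ) : Finset V := rect (-W) W 0 W

/-- `k` is the cluster of the origin in the half box, it is long and avoids the positive axis -/
def Tip (W : ℤ) (k : Finset V) (w : Es) : Prop :=
  k = cl w (HB W) 0 ∧ (∃ v ∈ k, nm v = W) ∧ ∀ t : ℤ, 0 < t → (t, 0) ∉ k

/-- the geometric content of `Tip` -/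
def TG (W : ℤ) (k : Finset V) : Prop :=
  k ⊆ HB W ∧ 0 ∈ k ∧ (∃ v, nm v = W ∧ Lc k 0 v) ∧ ∀ t : ℤ, 0 < t → (t, 0) ∉ k

/-- the side of `k` that contains the positive axis -/
def Lk (W : ℤ) (k : Finset V) : Finset V := (HB W).filter fun v =>
  ∃ t : ℤ, 0 < t ∧ (t, 0) ∈ HB W \ k ∧ Lc (HB W \ k : Finset V) (t, 0) v

/-- the box below the axis -/
def Pb (j : ℤ) : Finset V := rect (5 * j + 1) (9 * j - 1) (-(4 * j - 1)) (-1)

def Fz (W j : ℤ) (k : Finset V) : Finset V :=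
  ((Lk W k).filter fun v => 5 * j < nm v ∧ nm v < 9 * j) ∪ Pb j

def Hz (W j h : ℤ) (k : Finset V) : Finset V :=
  ((Lk W k).filter fun v => 7 * j ≤ nm v ∧ nm v ≤ 9 * j) ∪ rect (7 * j) (9 * j) (-h) (-1)

/-- the fence is closed -/
def Df (W j : ℤ) (k : Finset V) (w : Es) : Prop := ∀ v v', v ∈ Hz W j (2 * j) k → nm v = 7 * j →
  Cn (w ∩ Ed (Fz W j k)) (Hz W j (2 * j) k) v v' → nm v' ≠ 9 * j

def clp (p : ℝ × ℝ) : ℝ × ℝ := (max 0 (min 1 p.1), max 0 (min 1 p.2))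

def pa (Λ k : Finset V) (u : UC) : UC :=
  ⟨fun v => if v ∈ Λ then clp (u.a v) else if v ∈ k then (0, 0) else (1, 0),
    u.w ∩ Ed Λ, u.b ∩ Ed Λ⟩

/-- the box below the axis, given the state of the ring and the worst state elsewhere -/
def Sq (W j : ℤ) (k : Finset V) (u : UC) : Sys :=
  (Smax (Fz W j k) (Ed (Fz W j k)) k).lc (Pb j) (pa (Fz W j k) k u)

def cf (β : ℝ) : ℝ := exp (-(12000 * β))

/-- the fence can be completed below the axis with probability at least `cf / 2` -/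
def Gd (β : ℝ) (q : ℕ) (W j : ℤ) (k : Finset V) (u : UC) : Prop :=
  cf β / 2 * Z1 β q (Sq W j k u) ≤ Z β q (Sq W j k u) fun u' => ind (Df W j k u'.w)

def TipAt (W y : ℤ) (d : Bool) (u : UC) : Prop := ∃ k, Tip W k (u.pull (tf y d)).w

def sn (d : Bool) : ℤ := if d then 1 else -1

/-- smallest fence scale, local radius, edge length -/
structure Par where
  g : ℤ
  W : ℤ
  l : ℤ

structure Par.Ok (p : Par) : Prop where
  g1 : 1 ≤ p.g
  gW : 16 * p.g ≤ p.W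
  Wl : 32 * p.W ≤ p.l

/-- scales of the window number `b`, for small (`c = false`) and large fences -/
def Win (g : ℤ) (n b : ℕ) (c : Bool) : Finset ℤ :=
  (range n).image fun i => g * 4 ^ (b * (2 * n + 8) + (if c then n + 4 else 2) + i)

def TS (p : Par) (u : UC) : Finset (ℤ × Bool) :=
  (Icc (8 * p.W) (p.l - 8 * p.W) ×ˢ univ).filter fun y => TipAt p.W y.1 y.2 u

/-- few tips, and every tip has a good fence in every window -/
def Ent (β : ℝ) (q : ℕ) (p : Par) (n B N : ℕ) (u : UC) : Prop :=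
  #(TS p u) ≤ N ∧ ∀ y d k, 8 * p.W ≤ y → y ≤ p.l - 8 * p.W → Tip p.W k (u.pull (tf y d)).w →
    ∀ b < B, ∀ c, ∃ j ∈ Win p.g n b c, Gd β q p.W j k (u.pull (tf y d))

/-- the cluster of `(z, 0)` has diameter more than `2 W` -/
def big (W : ℤ) (w : Es) (z : ℤ) : Prop := ∃ v v',
  Cn w (rect (z - (2 * W + 1)) (z + (2 * W + 1)) 0 (2 * W + 1)) (z, 0) v ∧
  Cn w (rect (z - (2 * W + 1)) (z + (2 * W + 1)) 0 (2 * W + 1)) (z, 0) v' ∧ 2 * W < dd v v'

/-- `z` lies between two close points of big clusters with label one -/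
def Run (p : Par) (w : Es) (σ : Fld) (z : ℤ) : Prop := ∃ a b, 8 * p.W ≤ a ∧ a ≤ z ∧ z ≤ b ∧
  b ≤ p.l - 8 * p.W ∧ b - a ≤ 2 * p.W ∧ big p.W w a ∧ big p.W w b ∧
  ∀ r, a ≤ r → r ≤ b → big p.W w r → σ (r, 0) = 1

def End (p : Par) (w : Es) (σ : Fld) (y : ℤ) (d : Bool) : Prop :=
  Run p w σ y ∧ ¬ Run p w σ (y + sn d)

def ramp (j r : ℤ) : ℝ := max (-1) (min 1 (((r : ℝ) - 8 * j) / (4 * j)))

/-- certificate of one colour along the edge from `(0,0)` to `(l,0)` -/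
structure Cert (β : ℝ) (q : ℕ) (p : Par) (u : UC) (σ : Fld) (f : ℤ → ℝ) (sc : ℤ → Bool → ℤ)
    (kk : ℤ → Bool → Finset V) (jM : ℤ) : Prop where
  zero : ∀ v, dd v (0, 0) ≤ 8 * p.W ∨ dd v (p.l, 0) ≤ 8 * p.W → σ v = 0
  lip : ∀ z, |f (z + 1) - f z| ≤ 1 / (4 * p.g)
  bd : ∀ z, |f z| ≤ 1
  top : 16 * jM ≤ p.W
  run : ∀ z, Run p u.w σ z → f z = -1
  tip : ∀ y d, End p u.w σ y d → p.g ≤ sc y d ∧ sc y d ≤ jM ∧
    Tip p.W (kk y d) (u.pull (tf y d)).w ∧ Gd β q p.W (sc y d) (kk y d) (u.pull (tf y d)) ∧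
    ∀ r, 0 < r → r ≤ 12 * sc y d → f (y + sn d * r) = ramp (sc y d) r
  sep : ∀ y d, End p u.w σ y d → ∀ r, 0 < r → r ≤ 24 * jM → ¬ Run p u.w σ (y + sn d * r)
  els : ∀ z, ¬ Run p u.w σ z → (∀ y d r, End p u.w σ y d → 0 < r → r ≤ 12 * sc y d →
    z ≠ y + sn d * r) → f z = 1

/-- both certificates and the lifted angle `A` -/
structure EA (β : ℝ) (q : ℕ) (p : Par) (u : UC) (σ τ : Fld) (n : ℤ) (f g A : ℤ → ℝ) : Prop where
  red : ∃ sc kk jM, Cert β q p u σ f sc kk jM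
  blue : ∃ sc kk jM, Cert β q p u.sw τ g sc kk jM
  one : ∀ z, |f z| = 1 ∨ |g z| = 1
  arg : ∀ z, ∃ r : ℝ, 0 < r ∧ f z = r * cos (A z) ∧ g z = r * sin (A z)
  lip : ∀ z, |A (z + 1) - A z| ≤ 2 / p.g
  lo : ∀ z ≤ 4 * p.W, A z = π / 4
  hi : ∀ z, p.l - 4 * p.W ≤ z → A z = π / 4 + 2 * π * n

/-- the edge has winding `n` -/
def EC (β : ℝ) (q : ℕ) (p : Par) (u : UC) (σ τ : Fld) (n : ℤ) : Prop :=
  ∃ f g A, EA β q p u σ τ n f g A

/-- the piece `P` is bounded by the directed edges `fs`, and lies on their left -/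
structure Geo (P : Set V) (fs : Finset (V × Fin 4)) (p : Par) : Prop where
  side : ∀ e ∈ fs, ∀ v : V, 0 < v.1 → v.1 < p.l → -(4 * p.W) ≤ v.2 → v.2 ≤ 4 * p.W →
    (fr e.1 e.2 v ∈ P ↔ 0 ≤ v.2)
  line : ∀ e ∈ fs, ∀ v : V, 0 ≤ v.1 → v.1 ≤ p.l → 0 ≤ v.2 → v.2 ≤ 4 * p.W → fr e.1 e.2 v ∈ P
  bdy : ∀ x ∈ P, ∀ y ∉ P, Adj x y → ∃ e ∈ fs, (∃ t, 0 < t ∧ t < p.l ∧ x = fr e.1 e.2 (t, 0) ∧
    y = fr e.1 e.2 (t, -1)) ∨ x = fr e.1 e.2 (0, 0) ∨ x = fr e.1 e.2 (p.l, 0)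
  far : ∀ e ∈ fs, ∀ e' ∈ fs, e ≠ e' → ∀ v v' : V, 0 ≤ v.1 → v.1 ≤ p.l → |v.2| ≤ p.W → 0 ≤ v'.1 →
    v'.1 ≤ p.l → |v'.2| ≤ p.W → dd (fr e.1 e.2 v) (fr e'.1 e'.2 v') ≤ 2 * p.W →
      v.1 ≤ 3 * p.W ∨ p.l - 3 * p.W ≤ v.1

/-- the strips of height `h` on the right of the edges -/
def Low (fs : Finset (V × Fin 4)) (l h : ℤ) : Set V :=
  {x | ∃ e ∈ fs, ∃ v : V, 0 < v.1 ∧ v.1 < l ∧ -h ≤ v.2 ∧ v.2 < 0 ∧ x = fr e.1 e.2 v}

end

end Pool.Agent.XYU

end

section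

open Finset Real Relation

namespace Pool.Agent.XYU

open Classical

noncomputable section

/-! Lattice basics. Unfold `dd`, `nm`, `Adj` and use `omega`; paths by induction on
`ReflTransGen`. `Z_dep`: `Z_triple`, `sum_Ws`, and the bijection of `As` that changes the frozen
values. `ub_of_eq`, `lb_of_eq`: `dlr` with `g` constant. `UB.map`: apply the bound to
`S.map F.symm` (`Z_map`). -/

variable {β : ℝ} {q : ℕ} {S : Sys} {f g : UC → ℝ} {w w' : Es} {P Q : Set V} {x y z : V}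
  {Λ : Finset V} {F : V ≃ V}

lemma Adj.symm (h : Adj x y) : Adj y x := by
  unfold Adj at *; omega

lemma Adj.dd (h : Adj x y) : dd x y = 1 := by
  unfold Adj at h; unfold XYU.dd; omega

lemma dd_comm (x y : V) : dd x y = dd y x := by
  unfold dd; omega

lemma dd_tri (x y z : V) : dd x z ≤ dd x y + dd y z := by
  unfold dd; omega

lemma dd_nonneg (x y : V) : 0 ≤ dd x y := by
  unfold dd; omega

lemma dd_eq_zero : dd x y = 0 ↔ x = y := by
  rw [Prod.ext_iff]; unfold dd; omega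

lemma dd_zero (x : V) : dd x 0 = nm x := by
  unfold dd nm; simp

lemma mem_rect {x0 x1 y0 y1 : ℤ} :
    x ∈ rect x0 x1 y0 y1 ↔ x0 ≤ x.1 ∧ x.1 ≤ x1 ∧ y0 ≤ x.2 ∧ x.2 ≤ y1 := by
  unfold rect
  simp only [Finset.mem_Icc, Prod.le_def]
  tauto

lemma mem_bx {c : V} {r : ℤ} : x ∈ bx c r ↔ dd x c ≤ r := by
  unfold bx dd; rw [mem_rect]; omega

lemma mem_bx0 {r : ℤ} : x ∈ bx 0 r ↔ nm x ≤ r := by
  rw [mem_bx, dd_zero]

lemma mem_ann {r R : ℤ} : x ∈ ann r R ↔ r ≤ nm x ∧ nm x ≤ R := by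
  unfold ann; rw [Finset.mem_filter, mem_bx0]; tauto

lemma card_rect {x0 x1 y0 y1 : ℤ} (h : x0 ≤ x1 + 1) (h' : y0 ≤ y1 + 1) :
    (#(rect x0 x1 y0 y1) : ℤ) = (x1 + 1 - x0) * (y1 + 1 - y0) := by
  unfold rect
  rw [Finset.card_Icc_prod]
  simp only [Int.card_Icc]
  push_cast
  rw [Int.toNat_of_nonneg (by omega), Int.toNat_of_nonneg (by omega)]

lemma card_bx (c : V) {r : ℤ} (h : 0 ≤ r) : (#(bx c r) : ℤ) = (2 * r + 1) ^ 2 := by
  unfold bx
  rw [card_rect (by omega) (by omega)]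
  ring

/-- a sphere of radius `r ≥ 1` has `8 r` points -/
lemma card_sphere (c : V) {r : ℤ} (h : 1 ≤ r) {A : Finset V} (hA : ∀ v ∈ A, dd v c = r) :
    (#A : ℤ) ≤ 8 * r := by
  have hsub : A ⊆ bx c r \ bx c (r - 1) := by
    intro v hv
    have := hA v hv
    rw [Finset.mem_sdiff, mem_bx, mem_bx]
    omega
  have hsub' : bx c (r - 1) ⊆ bx c r := by
    intro v hv
    rw [mem_bx] at hv ⊢
    omega
  have h1 := Finset.card_le_card hsub
  have h2 := Finset.card_sdiff_add_card_eq_card hsub'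
  have h3 := card_bx c (r := r) (by omega)
  have h4 := card_bx c (r := r - 1) (by omega)
  have h5 : (#(bx c r \ bx c (r - 1)) : ℤ) + #(bx c (r - 1)) = #(bx c r) := by exact_mod_cast h2
  have h6 : (#A : ℤ) ≤ #(bx c r \ bx c (r - 1)) := by exact_mod_cast h1
  nlinarith

end

end Pool.Agent.XYU

end

section

open Finset Real Relation

namespace Pool.Agent.XYU

open Classical

noncomputable section

variable {β : ℝ} {q : ℕ} {S : Sys} {f g : UC → ℝ} {w w' : Es} {P Q : Set V} {x y z : V}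
  {Λ : Finset V} {F : V ≃ V}

lemma ba2_mem {e : Sym2 V} : e ∈ Ed Λ ↔ ∃ x y, e = s(x, y) ∧ Adj x y ∧ x ∈ Λ := by
  unfold Ed
  simp only [Finset.mem_biUnion, Finset.mem_insert, Finset.mem_singleton]
  constructor
  · rintro ⟨v, hv, h | h | h | h⟩
    · exact ⟨v, _, h, by unfold Adj; simp, hv⟩
    · exact ⟨v, _, h, by unfold Adj; simp, hv⟩
    · exact ⟨v, _, h, by unfold Adj; simp, hv⟩
    · exact ⟨v, _, h, by unfold Adj; simp, hv⟩
  · rintro ⟨x, y, rfl, h, hx⟩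
    refine ⟨x, hx, ?_⟩
    obtain ⟨y1, y2⟩ := y
    unfold Adj at h
    simp only at h
    rcases h with ⟨h1, h2 | h2⟩ | ⟨h1, h2 | h2⟩
    · right; right; left; rw [← h1, h2]
    · right; right; right; rw [← h1, show y2 = x.2 - 1 by omega]
    · left; rw [← h1, h2]
    · right; left; rw [← h1, show y1 = x.1 - 1 by omega]

lemma mem_Ed : s(x, y) ∈ Ed Λ ↔ Adj x y ∧ (x ∈ Λ ∨ y ∈ Λ) := by
  rw [ba2_mem]
  constructor
  · rintro ⟨a, b, he, h, ha⟩
    rcases Sym2.eq_iff.1 he with ⟨rfl, rfl⟩ | ⟨rfl, rfl⟩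
    · exact ⟨h, Or.inl ha⟩
    · exact ⟨h.symm, Or.inr ha⟩
  · rintro ⟨h, hx | hy⟩
    · exact ⟨x, y, rfl, h, hx⟩
    · exact ⟨y, x, Sym2.eq_swap, h.symm, hy⟩

lemma mem_Ed' {e : Sym2 V} : e ∈ Ed Λ ↔ ∃ x y, e = s(x, y) ∧ Adj x y ∧ x ∈ Λ := ba2_mem

lemma mem_Ei : s(x, y) ∈ Ei Λ ↔ Adj x y ∧ x ∈ Λ ∧ y ∈ Λ := by
  unfold Ei
  rw [Finset.mem_filter, mem_Ed]
  constructor
  · rintro ⟨⟨h, _⟩, h2⟩
    exact ⟨h, h2 x (Sym2.mem_mk_left x y), h2 y (Sym2.mem_mk_right x y)⟩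
  · rintro ⟨h, hx, hy⟩
    refine ⟨⟨h, Or.inl hx⟩, fun v hv => ?_⟩
    rcases Sym2.mem_iff.1 hv with rfl | rfl
    · exact hx
    · exact hy

lemma card_Ed (Λ : Finset V) : #(Ed Λ) ≤ 4 * #Λ := by
  unfold Ed
  rw [mul_comm]
  exact Finset.card_biUnion_le_card_mul _ _ _ fun v _ => Finset.card_le_four

lemma Ed_mono {Λ' : Finset V} (h : Λ ⊆ Λ') : Ed Λ ⊆ Ed Λ' := by
  intro e he
  obtain ⟨x, y, rfl, h1, h2⟩ := mem_Ed'.1 he
  exact mem_Ed'.2 ⟨x, y, rfl, h1, h h2⟩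

lemma Ei_sub (Λ : Finset V) : Ei Λ ⊆ Ed Λ := Finset.filter_subset _ _

end

end Pool.Agent.XYU

end

section

open Finset Real Relation

namespace Pool.Agent.XYU

open Classical

noncomputable section

variable {β : ℝ} {q : ℕ} {S : Sys} {f g : UC → ℝ} {w w' : Es} {P Q : Set V} {x y z : V}
  {Λ : Finset V} {F : V ≃ V}

lemma ba3_adj {a b : V} (h : Adj a b) : Adj b a := by
  unfold Adj at *
  omega

lemma Cn.symm (h : Cn w P x y) : Cn w P y x := by
  unfold Cn at *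
  induction h with
  | refl => exact ReflTransGen.refl
  | tail _ h2 ih =>
    exact ReflTransGen.head ⟨h2.2.1, h2.1, ba3_adj h2.2.2.1, Sym2.eq_swap ▸ h2.2.2.2⟩ ih

lemma Cn.trans (h : Cn w P x y) (h' : Cn w P y z) : Cn w P x z :=
  ReflTransGen.trans h h'

lemma Cn.step (h : Cn w P x y) (hy : y ∈ P) (hz : z ∈ P) (ha : Adj y z) (hw : s(y, z) ∈ w) :
    Cn w P x z := ReflTransGen.tail h ⟨hy, hz, ha, hw⟩

lemma Cn.mem (h : Cn w P x y) (hx : x ∈ P) : y ∈ P := by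
  unfold Cn at h
  induction h with
  | refl => exact hx
  | tail _ h2 _ => exact h2.2.1

lemma Cn.mono (h : Cn w P x y) (hP : P ⊆ Q)
    (hw : ∀ a b, a ∈ P → b ∈ P → Adj a b → s(a, b) ∈ w → s(a, b) ∈ w') : Cn w' Q x y := by
  unfold Cn at *
  induction h with
  | refl => exact ReflTransGen.refl
  | tail _ h2 ih =>
    exact ReflTransGen.tail ih
      ⟨hP h2.1, hP h2.2.1, h2.2.2.1, hw _ _ h2.1 h2.2.1 h2.2.2.1 h2.2.2.2⟩

lemma Cn.lc (h : Cn w P x y) : Lc {v | v ∈ P ∧ Cn w P x v} x y := by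
  unfold Cn at h
  induction h with
  | refl => exact ReflTransGen.refl
  | tail h1 h2 ih =>
    exact ReflTransGen.tail ih ⟨⟨h2.1, h1⟩, ⟨h2.2.1, ReflTransGen.tail h1 h2⟩, h2.2.2.1⟩

lemma Cn.eq {σ : Fld} (h : Cn w P x y) (hσ : cpl σ w P) : σ x = σ y := by
  unfold Cn at h
  induction h with
  | refl => rfl
  | tail _ h2 ih => exact ih.trans (hσ _ _ h2.1 h2.2.1 h2.2.2.1 h2.2.2.2)

/-- a set closed under open edges is closed under connections -/
lemma Cn.closed {N : Set V} (h : Cn w P x y) (hx : x ∈ N)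
    (hN : ∀ a b, a ∈ N → a ∈ P → b ∈ P → Adj a b → s(a, b) ∈ w → b ∈ N) : y ∈ N := by
  unfold Cn at h
  induction h with
  | refl => exact hx
  | tail _ h2 ih => exact hN _ _ ih h2.1 h2.2.1 h2.2.2.1 h2.2.2.2

/-- first passage of a `1`-Lipschitz height through the level `r` -/
lemma Cn.first (φ : V → ℤ) (hφ : ∀ a b, Adj a b → φ b ≤ φ a + 1) {r : ℤ} (h : Cn w P x y)
    (hx : φ x ≤ r) (hy : r ≤ φ y) : ∃ z, φ z = r ∧ Cn w (P ∩ {v | φ v ≤ r}) x z ∧ Cn w P z y := by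
  unfold Cn at h
  induction h using ReflTransGen.head_induction_on with
  | refl => exact ⟨y, le_antisymm hx hy, ReflTransGen.refl, ReflTransGen.refl⟩
  | @head a c h1 h2 ih =>
    by_cases ha : φ a = r
    · exact ⟨a, ha, ReflTransGen.refl, ReflTransGen.head h1 h2⟩
    · have hc : φ c ≤ r := by have := hφ a c h1.2.2.1; omega
      obtain ⟨z, hz, h3, h4⟩ := ih hc
      exact ⟨z, hz, ReflTransGen.head ⟨⟨h1.1, hx⟩, ⟨h1.2.1, hc⟩, h1.2.2⟩ h3, h4⟩

/-- last passage -/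
lemma Cn.last (φ : V → ℤ) (hφ : ∀ a b, Adj a b → φ b ≤ φ a + 1) {r : ℤ} (h : Cn w P x y)
    (hx : φ x ≤ r) (hy : r ≤ φ y) : ∃ z, φ z = r ∧ Cn w P x z ∧ Cn w (P ∩ {v | r ≤ φ v}) z y := by
  unfold Cn at h
  induction h with
  | refl => exact ⟨x, le_antisymm hx hy, ReflTransGen.refl, ReflTransGen.refl⟩
  | @tail b c h1 h2 ih =>
    by_cases hc : φ c = r
    · exact ⟨c, hc, ReflTransGen.tail h1 h2, ReflTransGen.refl⟩
    · have hb : r ≤ φ b := by have := hφ b c h2.2.2.1; omega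
      obtain ⟨z, hz, h3, h4⟩ := ih hb
      exact ⟨z, hz, h3, ReflTransGen.tail h4 ⟨⟨h2.1, hb⟩, ⟨h2.2.1, hy⟩, h2.2.2⟩⟩

lemma Lc.symm (h : Lc P x y) : Lc P y x := by
  unfold Lc at *
  induction h with
  | refl => exact ReflTransGen.refl
  | tail _ h2 ih => exact ReflTransGen.head ⟨h2.2.1, h2.1, ba3_adj h2.2.2⟩ ih

lemma Lc.trans (h : Lc P x y) (h' : Lc P y z) : Lc P x z :=
  ReflTransGen.trans h h'

lemma Lc.mem (h : Lc P x y) (hx : x ∈ P) : y ∈ P := by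
  unfold Lc at h
  induction h with
  | refl => exact hx
  | tail _ h2 _ => exact h2.2.1

lemma Lc.mono (h : Lc P x y) (hP : P ⊆ Q) : Lc Q x y := by
  unfold Lc at *
  induction h with
  | refl => exact ReflTransGen.refl
  | tail _ h2 ih => exact ReflTransGen.tail ih ⟨hP h2.1, hP h2.2.1, h2.2.2⟩

lemma Lc.comp (h : Lc P x y) : Lc {v | v ∈ P ∧ Lc P x v} x y := by
  unfold Lc at h
  induction h with
  | refl => exact ReflTransGen.refl
  | tail h1 h2 ih =>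
    exact ReflTransGen.tail ih ⟨⟨h2.1, h1⟩, ⟨h2.2.1, ReflTransGen.tail h1 h2⟩, h2.2.2⟩

lemma mem_cl {A : Finset V} : y ∈ cl w A x ↔ y ∈ A ∧ Cn w A x y := by
  unfold cl
  exact mem_filter

lemma cl_eq {A : Finset V} (h : Cn w A x y) : cl w A x = cl w A y := by
  ext v
  rw [mem_cl, mem_cl]
  exact and_congr_right fun _ => ⟨fun h' => h.symm.trans h', fun h' => h.trans h'⟩

end

end Pool.Agent.XYU

end

section

open Finset Real Relation

namespace Pool.Agent.XYU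

open Classical

noncomputable section

variable {β : ℝ} {q : ℕ} {S : Sys} {f g : UC → ℝ} {w w' : Es} {P Q : Set V} {x y z : V}
  {Λ : Finset V} {F : V ≃ V}

lemma ba4_out {e : Sym2 V} {A : Finset V} (he : e ∈ Ed A) (hn : e ∉ Ed Λ) : ∀ v ∈ e, v ∉ Λ := by
  obtain ⟨a, b, rfl, hab, -⟩ := mem_Ed'.1 he
  intro v hv hΛ
  apply hn
  rw [mem_Ed]
  rcases Sym2.mem_iff.1 hv with rfl | rfl
  · exact ⟨hab, Or.inl hΛ⟩
  · exact ⟨hab, Or.inr hΛ⟩

lemma lc_in (hE : S.E = Ed S.L) (h : Λ ⊆ S.L) : S.In Λ (Ed Λ) :=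
  ⟨h, hE ▸ Ed_mono h, fun _ he hn => ba4_out (hE ▸ he) hn⟩

lemma LG.lc (hS : LG q S) (h : Λ ⊆ S.L) {u : UC} (hu : u ∈ Om q S) : LG q (S.lc Λ u) :=
  ⟨hS.grp.cond (lc_in hS.ed h) hu, rfl, hS.pos,
    (card_le_card (lc_in hS.ed h).2.1).trans hS.sz⟩

lemma ba4_filter {E E₁ E₂ w w' : Es} (T : Finset Fld) (h₁ : E₁ ⊆ E) (h₂ : E₂ ⊆ E₁)
    (hw : w' \ E₁ = w \ E₁) :
    (T.filter fun σ => cp σ (w ∩ (E \ E₁))).filter (fun σ => cp σ (w' ∩ (E₁ \ E₂))) =
      T.filter fun σ => cp σ (w' ∩ (E \ E₂)) := by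
  have e : w ∩ (E \ E₁) ∪ w' ∩ (E₁ \ E₂) = w' ∩ (E \ E₂) := by
    ext e
    have a1 := Finset.ext_iff.1 hw e
    have a2 := @h₁ e
    have a3 := @h₂ e
    simp only [mem_sdiff, mem_union, mem_inter] at a1 ⊢
    tauto
  rw [filter_filter]
  refine filter_congr fun σ _ => ?_
  rw [← e, cp_union]

lemma lc_lc {Λ' : Finset V} (hE : S.E = Ed S.L) (h : Λ ⊆ S.L) (h' : Λ' ⊆ Λ) {u u' : UC}
    (hu' : u' ∈ Om q (S.lc Λ u)) : (S.lc Λ u).lc Λ' u' = S.lc Λ' u' := by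
  obtain ⟨-, -, h3, h4⟩ := mem_Om.1 hu'
  have h1 : Ed Λ ⊆ S.E := hE ▸ Ed_mono h
  have h2 : Ed Λ' ⊆ Ed Λ := Ed_mono h'
  simp only [Sys.lc, Sys.cond] at h3 h4 ⊢
  rw [ba4_filter S.T h1 h2 h3, ba4_filter S.U h1 h2 h4]

lemma ba4_sdiff {E w w' : Es} : w' \ E = w \ E ↔ ∀ e ∉ E, e ∈ w' ↔ e ∈ w := by
  constructor
  · intro h e he
    have a1 := Finset.ext_iff.1 h e
    simp only [mem_sdiff] at a1
    tauto
  · intro h
    ext e
    have a1 := h e
    simp only [mem_sdiff]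
    tauto

lemma mem_Om_lc {u u' : UC} : u' ∈ Om q (S.lc Λ u) ↔ (∀ v ∉ Λ, u'.a v = u.a v) ∧
    (∀ v ∈ Λ, u'.a v ∈ site q) ∧ (∀ e ∉ Ed Λ, e ∈ u'.w ↔ e ∈ u.w) ∧
      ∀ e ∉ Ed Λ, e ∈ u'.b ↔ e ∈ u.b := by
  rw [mem_Om]
  simp only [Sys.lc, Sys.cond]
  rw [ba4_sdiff, ba4_sdiff]

lemma ba4_ei {A : Finset V} (hA : Disjoint A Λ) {e : Sym2 V} (he : e ∈ Ei A) : e ∉ Ed Λ := by
  intro h
  obtain ⟨a, b, rfl, -, ha⟩ := mem_Ed'.1 h
  exact disjoint_left.1 hA (mem_Ei.1 he).2.1 ha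

lemma ba4_inter {E w w' : Es} (h : ∀ e ∈ E, e ∈ w' ↔ e ∈ w) : w' ∩ E = w ∩ E := by
  ext e
  have a1 := h e
  simp only [mem_inter]
  tauto

/-- a function of the sites and inner edges of `A` does not see a resampling of `Λ` -/
lemma Dep.lc {A : Finset V} (hf : Dep A (Ei A) f) (hA : Disjoint A Λ) {u u' : UC}
    (hu' : u' ∈ Om q (S.lc Λ u)) : f u' = f u := by
  obtain ⟨h1, -, h3, h4⟩ := mem_Om_lc.1 hu'
  exact hf u' u (fun v hv => h1 v (disjoint_left.1 hA hv))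
    (ba4_inter fun e he => h3 e (ba4_ei hA he)) (ba4_inter fun e he => h4 e (ba4_ei hA he))

lemma ba4_sub {E E' w w' : Es} (hE : E ⊆ E') (h : w ∩ E' = w' ∩ E') : w ∩ E = w' ∩ E := by
  ext e
  have a1 := Finset.ext_iff.1 h e
  have a2 := @hE e
  simp only [mem_inter] at a1 ⊢
  tauto

lemma Dep.mono {A A' : Finset V} {E E' : Es} (hf : Dep A E f) (hA : A ⊆ A') (hE : E ⊆ E') :
    Dep A' E' f := fun u u' h1 h2 h3 =>
  hf u u' (fun v hv => h1 v (hA hv)) (ba4_sub hE h2) (ba4_sub hE h3)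

lemma ba4_cap (E w w₀ w₁ : Es) : (w ∪ w₀ \ E) ∩ E = (w ∪ w₁ \ E) ∩ E := by
  ext e
  simp only [mem_inter, mem_union, mem_sdiff]
  tauto

lemma ba4_wr {E w w' : Es} {c c' : V → ℝ} (hc : ∀ e ∈ E, ∀ v ∈ e, c' v = c v)
    (hw : w' ∩ E = w ∩ E) : wr β E c' w' = wr β E c w := by
  unfold wr
  refine prod_congr rfl fun e he => ?_
  have a1 : e ∈ w' ↔ e ∈ w := by
    have := Finset.ext_iff.1 hw e
    simp only [mem_inter] at this
    tauto
  have a2 : pr c' e = pr c e := by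
    induction e using Sym2.ind with
    | h a b =>
      show c' a * c' b = c a * c b
      rw [hc _ he a (Sym2.mem_mk_left a b), hc _ he b (Sym2.mem_mk_right a b)]
  rw [a2]
  unfold ew
  by_cases h : e ∈ w
  · rw [if_pos h, if_pos (a1.2 h)]
  · rw [if_neg h, if_neg fun h' => h (a1.1 h')]

lemma Z_dep {S S' : Sys} (hL : S'.L = S.L) (hE : S'.E = S.E) (hT : S'.T = S.T) (hU : S'.U = S.U)
    (ha : ∀ e ∈ S.E, ∀ v ∈ e, v ∉ S.L → S'.x.a v = S.x.a v) (hf : Dep S.L S.E f) :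
    Z β q S' f = Z β q S f := by
  rw [Z_triple, Z_triple, hL, hE, ad2_sum, ad2_sum]
  refine sum_congr rfl fun j _ => ?_
  have hc : ∀ e ∈ S.E, ∀ v ∈ e, ad2_cfg q S.L S'.x.a j v = ad2_cfg q S.L S.x.a j v := by
    intro e he v hv
    unfold ad2_cfg
    by_cases h : v ∈ S.L
    · rw [dif_pos h, dif_pos h]
    · rw [dif_neg h, dif_neg h, ha e he v hv h]
  have hl : ∀ v ∈ S.L, ad2_cfg q S.L S'.x.a j v = ad2_cfg q S.L S.x.a j v := by
    intro v h
    rw [ad2_cfg_at _ _ h, ad2_cfg_at _ _ h]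
  rw [sum_Ws, sum_Ws]
  refine sum_congr rfl fun w _ => ?_
  rw [sum_Ws, sum_Ws]
  refine sum_congr rfl fun b _ => ?_
  have e1 := ba4_cap S.E w S'.x.w S.x.w
  have e2 := ba4_cap S.E b S'.x.b S.x.b
  rw [hf ⟨ad2_cfg q S.L S'.x.a j, w ∪ S'.x.w \ S.E, b ∪ S'.x.b \ S.E⟩
    ⟨ad2_cfg q S.L S.x.a j, w ∪ S.x.w \ S.E, b ∪ S.x.b \ S.E⟩ hl e1 e2]
  congr 1
  unfold wt
  simp only [hE, hT, hU]
  rw [e1, e2, ba4_wr (fun e he v hv => congrArg Prod.fst (hc e he v hv)) e1,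
    ba4_wr (fun e he v hv => congrArg Prod.snd (hc e he v hv)) e2]

lemma ub_of_eq (hβ : 0 ≤ β) {p : ℝ}
    (h : ∀ S, LG q S → S.L = Λ → Z β q S f ≤ p * Z1 β q S) : UB β q Λ f p := by
  intro S hS hΛ
  rw [← Z_const]
  refine dlr hβ hS.grp.a01 (lc_in hS.ed hΛ) fun u hu _ => ?_
  rw [Z_const]
  exact h (S.lc Λ u) (hS.lc hΛ hu) rfl

lemma lb_of_eq (hβ : 0 ≤ β) {p : ℝ}
    (h : ∀ S, LG q S → S.L = Λ → p * Z1 β q S ≤ Z β q S f) : LB β q Λ f p := by
  intro S hS hΛ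
  rw [← Z_const]
  refine dlr hβ hS.grp.a01 (lc_in hS.ed hΛ) fun u hu _ => ?_
  rw [Z_const]
  exact h (S.lc Λ u) (hS.lc hΛ hu) rfl

lemma LB.compl {p : ℝ} {A : UC → Prop} (h : LB β q Λ (fun u => ind (A u)) p) :
    UB β q Λ (fun u => ind (¬ A u)) (1 - p) := by
  intro S hS hΛ
  have h1 := h S hS hΛ
  have h2 : Z β q S (fun u => ind (¬ A u)) = Z1 β q S - Z β q S fun u => ind (A u) := by
    rw [Z1, ← Z_sub]
    simp only [ind_not]
  rw [h2]
  linarith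

lemma lg_G0 {L : ℤ} {a : V → ℝ × ℝ} (ha : A01 a) (hq : 0 < q) (hs : #(Ed (bx 0 L)) ≤ q) :
    LG q (G0 L a) :=
  ⟨⟨ha, sg_Flip _, sg_Flip _, fl_Flip subset_rfl, fl_Flip subset_rfl⟩, rfl, hq, hs⟩

lemma lg_Smax (X : Finset V) (hq : 0 < q) (hs : #(Ed Λ) ≤ q) : LG q (Smax Λ (Ed Λ) X) :=
  ⟨grp_Smax _ _ _, rfl, hq, hs⟩

/-- the signed conditional system in terms of the unsigned one -/
lemma Z_GS_lc (L : ℤ) (a : V → ℝ × ℝ) (σ τ : Fld) (Λ : Finset V) (u : UC) (f : UC → ℝ) :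
    Z β q ((GS L a σ τ).lc Λ u) f = Z β q ((G0 L a).lc Λ u) fun u' => f u' *
      (ind (AT ((GS L a σ τ).lc Λ u).T (u'.w ∩ Ed Λ)) *
        ind (AT ((GS L a σ τ).lc Λ u).U (u'.b ∩ Ed Λ))) :=
  Z_cos (S := (GS L a σ τ).lc Λ u) (T₀ := ((G0 L a).lc Λ u).T) (U₀ := ((G0 L a).lc Λ u).U)
    ((cos_Off (bx 0 L) σ).filter _) ((cos_Off (bx 0 L) τ).filter _) f

end

end Pool.Agent.XYU

end

section

open Finset Real Relation

namespace Pool.Agent.XYU

open Classical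

noncomputable section

variable {β : ℝ} {q : ℕ} {S : Sys} {f g : UC → ℝ} {w w' : Es} {P Q : Set V} {x y z : V}
  {Λ : Finset V} {F : V ≃ V}

lemma isFr_fr (o : V) (d : Fin 4) : IsFr (fr o d) := by
  constructor
  · intro u v
    fin_cases d <;> simp [fr, Adj] <;> omega
  · intro u v
    fin_cases d <;> simp [fr, XYU.dd] <;> omega

lemma isFr_tf (y : ℤ) (d : Bool) : IsFr (tf y d) := by
  constructor
  · intro u v
    cases d <;> simp [tf, Adj] <;> omega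
  · intro u v
    cases d <;> simp [tf, XYU.dd] <;> omega

lemma IsFr.symm (h : IsFr F) : IsFr F.symm := by
  constructor
  · intro u v
    rw [← h.adj, F.apply_symm_apply, F.apply_symm_apply]
  · intro u v
    rw [← h.dd, F.apply_symm_apply, F.apply_symm_apply]

lemma IsFr.trans {G : V ≃ V} (h : IsFr F) (h' : IsFr G) : IsFr (F.trans G) := by
  constructor
  · intro u v
    rw [Equiv.trans_apply, Equiv.trans_apply, h'.adj, h.adj]
  · intro u v
    rw [Equiv.trans_apply, Equiv.trans_apply, h'.dd, h.dd]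

lemma pull_a (F : V ≃ V) (u : UC) (v : V) : (u.pull F).a v = u.a (F v) := rfl

lemma ba5_mem (F : V ≃ V) (w : Es) :
    s(x, y) ∈ w.image (Sym2.map F.symm) ↔ s(F x, F y) ∈ w := by
  rw [mem_image]
  constructor
  · rintro ⟨e, he, h⟩
    have : Sym2.map F (Sym2.map F.symm e) = s(F x, F y) := by rw [h]; rfl
    rw [Sym2.map_map, F.self_comp_symm, Sym2.map_id, id] at this
    rwa [← this]
  · intro h
    exact ⟨_, h, by simp⟩

lemma mem_pull_w (F : V ≃ V) (u : UC) : s(x, y) ∈ (u.pull F).w ↔ s(F x, F y) ∈ u.w :=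
  ba5_mem F u.w

lemma mem_pull_b (F : V ≃ V) (u : UC) : s(x, y) ∈ (u.pull F).b ↔ s(F x, F y) ∈ u.b :=
  ba5_mem F u.b

lemma pull_pull (F G : V ≃ V) (u : UC) : (u.pull F).pull G = u.pull (G.trans F) := by
  refine UC.ext rfl ?_ ?_
  · ext e
    induction e using Sym2.ind with
    | _ a b => rw [mem_pull_w, mem_pull_w, mem_pull_w]; rfl
  · ext e
    induction e using Sym2.ind with
    | _ a b => rw [mem_pull_b, mem_pull_b, mem_pull_b]; rfl

lemma pull_sw (F : V ≃ V) (u : UC) : (u.pull F).sw = u.sw.pull F := rfl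

lemma cn_pull (hF : IsFr F) (u : UC) :
    Cn (u.pull F).w (F ⁻¹' P) x y ↔ Cn u.w P (F x) (F y) := by
  constructor
  · intro h
    induction h with
    | refl => exact ReflTransGen.refl
    | tail _ h2 ih =>
      exact ih.tail ⟨h2.1, h2.2.1, (hF.adj _ _).2 h2.2.2.1, (mem_pull_w F u).1 h2.2.2.2⟩
  · intro h
    have key : ∀ a b, Cn u.w P a b → Cn (u.pull F).w (F ⁻¹' P) (F.symm a) (F.symm b) := by
      intro a b h
      induction h with
      | refl => exact ReflTransGen.refl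
      | tail _ h2 ih =>
        refine ih.tail ⟨by simpa using h2.1, by simpa using h2.2.1,
          (hF.symm.adj _ _).2 h2.2.2.1, (mem_pull_w F u).2 (by simpa using h2.2.2.2)⟩
    simpa using key _ _ h

end

end Pool.Agent.XYU

end

section

open Finset Real Relation

namespace Pool.Agent.XYU

open Classical

noncomputable section

variable {β : ℝ} {q : ℕ} {S : Sys} {f g : UC → ℝ} {w w' : Es} {P Q : Set V} {x y z : V}
  {Λ : Finset V} {F : V ≃ V}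

lemma ba_mem_e (F : V ≃ V) (E : Es) (x y : V) :
    s(x, y) ∈ E.image (Sym2.map F) ↔ s(F.symm x, F.symm y) ∈ E := by
  have e : s(x, y) = Sym2.map F s(F.symm x, F.symm y) := by simp
  rw [e, (ac4_inj F).mem_finset_image]

lemma ba_mem (F : V ≃ V) (A : Finset V) (v : V) : F v ∈ A.image F ↔ v ∈ A :=
  F.injective.mem_finset_image

lemma Ed_image (hF : IsFr F) (Λ : Finset V) :
    Ed (Λ.image F) = (Ed Λ).image (Sym2.map F) := by
  ext e
  induction e using Sym2.ind with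
  | _ x y => rw [ba_mem_e, mem_Ed, mem_Ed, ac4_mem_img, ac4_mem_img, hF.symm.adj]

lemma bx_image (hF : IsFr F) (c : V) (r : ℤ) : (bx c r).image F = bx (F c) r := by
  ext v
  rw [ac4_mem_img, mem_bx, mem_bx, ← hF.dd, Equiv.apply_symm_apply]

lemma LG.map (hS : LG q S) (hF : IsFr F) : LG q (S.map F) := by
  refine ⟨hS.grp.map F, ?_, hS.pos, card_image_le.trans hS.sz⟩
  show S.E.image (Sym2.map F) = Ed (S.L.image F)
  rw [Ed_image hF, hS.ed]

lemma LG.sw (hS : LG q S) : LG q S.sw := ⟨hS.grp.sw, hS.ed, hS.pos, hS.sz⟩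

lemma ba_filter (F : V ≃ V) (T : Finset Fld) (w : Es) :
    ((T.filter fun σ => cp σ w).image fun σ v => σ (F.symm v)) =
      (T.image fun σ v => σ (F.symm v)).filter fun σ => cp σ (w.image (Sym2.map F)) := by
  rw [filter_image]
  congr 1
  refine filter_congr fun σ _ => ⟨fun h x y hxy => h _ _ ((ba_mem_e F w x y).1 hxy),
    fun h x y hxy => ?_⟩
  simpa using h (F x) (F y) (mem_image.2 ⟨_, hxy, rfl⟩)

lemma lc_map (hF : IsFr F) (S : Sys) (Λ : Finset V) (u : UC) :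
    (S.lc Λ u).map F = (S.map F).lc (Λ.image F) (u.map F) := by
  simp only [Sys.lc, Sys.cond, Sys.map, ba_filter, Ed_image hF, UC.map,
    image_inter _ _ (ac4_inj F), image_sdiff _ _ (ac4_inj F)]

lemma lc_sw (S : Sys) (Λ : Finset V) (u : UC) : (S.lc Λ u).sw = S.sw.lc Λ u.sw := rfl

lemma Om_map (F : V ≃ V) {u : UC} : u.map F ∈ Om q (S.map F) ↔ u ∈ Om q S := ac4_mem_map F

lemma ba_sw_sw (S : Sys) : S.sw.sw = S := by
  cases S
  simp only [Sys.sw, sw_sw]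

lemma Om_sw {u : UC} : u.sw ∈ Om q S.sw ↔ u ∈ Om q S := by
  refine ⟨fun h => ?_, ac4_mem_sw⟩
  have := ac4_mem_sw h
  rwa [sw_sw, ba_sw_sw] at this

lemma ba_sub {A : Finset V} (h : Λ.image F ⊆ A) : Λ ⊆ A.image F.symm := fun v hv => by
  rw [ac4_mem_img, Equiv.symm_symm]
  exact h (mem_image_of_mem _ hv)

lemma ba_Z1_map (F : V ≃ V) (S : Sys) : Z1 β q (S.map F) = Z1 β q S := Z_map F S _

lemma ba_Z1_sw (S : Sys) : Z1 β q S.sw = Z1 β q S := Z_sw S _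

lemma UB.map (hF : IsFr F) {p : ℝ} (h : UB β q Λ f p) :
    UB β q (Λ.image F) (fun u => f (u.pull F)) p := fun S hS hL => by
  have := h _ (hS.map hF.symm) (ba_sub hL)
  rwa [Z_map, ba_Z1_map] at this

lemma UB.sw {p : ℝ} (h : UB β q Λ f p) : UB β q Λ (fun u => f u.sw) p := fun S hS hL => by
  have := h _ hS.sw hL
  rwa [Z_sw, ba_Z1_sw] at this

lemma LB.map (hF : IsFr F) {p : ℝ} (h : LB β q Λ f p) :
    LB β q (Λ.image F) (fun u => f (u.pull F)) p := fun S hS hL => by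
  have := h _ (hS.map hF.symm) (ba_sub hL)
  rwa [Z_map, ba_Z1_map] at this

lemma LB.sw {p : ℝ} (h : LB β q Λ f p) : LB β q Λ (fun u => f u.sw) p := fun S hS hL => by
  have := h _ hS.sw hL
  rwa [Z_sw, ba_Z1_sw] at this

lemma Pm_map (hF : IsFr F) (Λ : Finset V) (f : UC → ℝ) :
    Pm β q (Λ.image F) (fun u => f (u.pull F)) = Pm β q Λ f := by
  have e := Smax_map F Λ (Ed Λ) ∅
  rw [image_empty, ← Ed_image hF] at e
  simp only [Pm, Ex, ← e, Z_map, ba_Z1_map, UC.pull, map_symm]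

lemma ba_Ei (hF : IsFr F) (A : Finset V) : (Ei (A.image F)).image (Sym2.map F.symm) = Ei A := by
  ext e
  induction e using Sym2.ind with
  | _ x y => rw [ba_mem_e, Equiv.symm_symm, mem_Ei, mem_Ei, ba_mem, ba_mem, hF.adj]

lemma Dep.pull (hF : IsFr F) {A : Finset V} (hf : Dep A (Ei A) f) :
    Dep (A.image F) (Ei (A.image F)) fun u => f (u.pull F) := fun u u' ha hw hb => by
  refine hf _ _ (fun v hv => ?_) ?_ ?_
  · rw [pull_a, pull_a]
    exact ha _ (mem_image_of_mem _ hv)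
  · rw [← ba_Ei hF A]
    exact (image_inter _ _ (ac4_inj F.symm)).symm.trans
      ((congrArg _ hw).trans (image_inter _ _ (ac4_inj F.symm)))
  · rw [← ba_Ei hF A]
    exact (image_inter _ _ (ac4_inj F.symm)).symm.trans
      ((congrArg _ hb).trans (image_inter _ _ (ac4_inj F.symm)))

end

end Pool.Agent.XYU

end

end
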