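import Pool.Agent.MP_b591f0_mp.Mg.XY_B1

section

open Finset Real Relation

namespace Pool.Agent.XYU

open Classical

noncomputable section

/-! Planarity, energies, isolation of boxes.
`exists_wind`: induction on the walk; add for each vertical step `u → v` the term
`[x < u.1 ∧ u.2 = y ∧ v.2 = y + 1] - [x < u.1 ∧ v.2 = y ∧ u.2 = y + 1]`; `split_ifs <;> omega`
(a complete proof of the same statement is `exists_wind` in `Pool/Agent/MP_57c4af_pr/Planar.lean`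
of the graded repository: copy it). `wind`: with `p = (a,0)`, `q = (b,0)` put `s v = σ v.1 v.2`.
`pl_half`: `s (c,-1) = 0` (walk east along the row `-1`), so `s (c,0) = -1`, constant along the
walk in `Q`, but `s z = 0`. `pl_ext`: row `-1` between `x0` and `x1` avoids `P`, so
`s (c,-1) = s (c',-1)`; the jump makes `s (c,0) ≠ s (c',0)`, both are `0`.
`en_le`: each term is at most `lam ^ 2`. `en_rad`: at most `4 (2 ρ + 1)` edges join the spheres
of radii `ρ` and `ρ + 1` (map such an edge to its outer end, or bound by `4 * 8 ρ` with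
`card_sphere`, `card_Ed`); other edges contribute zero.
`iso_of_ext`: the field is `1` on the small box, `0` outside the large one, and constant along
open lattice edges. `iso_lb`, `iso_log`: `lb_of_eq`-like reduction (`dlr`) to the free set
`bx c (R-1) \ bx c r`, then `cut` with `X = ∅`; profile linear in `dd v c` between `r` and `2 r`,
respectively `1 - (i + (ρ - 2^i r) / (2^i r)) / n` for `2^i r ≤ ρ ≤ 2^(i+1) r` (energy at most
`64 / n` by `en_rad`). `ub_rm`, `lb_rm`: reduce to `S.L = Λ`, then `rm` against `Smax`. -/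

variable {β : ℝ} {q : ℕ} {S : Sys} {f g : UC → ℝ} {w w' : Es} {P Q : Set V} {x y z : V}
  {Λ : Finset V}

lemma exists_wind {L R : ℤ} (hP : ∀ z ∈ P, L ≤ z.1 ∧ z.1 ≤ R) {p p' : V}
    (h : Lc P p p') : ∃ σ : ℤ → ℤ → ℤ,
      (∀ x y, (x + 1, y) ∉ P → σ x y = σ (x + 1) y) ∧
      (∀ x y, (x, y + 1) ∉ P → σ x y - σ x (y + 1) =
        (if p'.2 = y + 1 ∧ x < p'.1 then 1 else 0) - (if p.2 = y + 1 ∧ x < p.1 then 1 else 0)) ∧
      (∀ x y, R ≤ x → σ x y = 0) ∧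
      (∀ x y, x < L → σ x y = (if p.2 ≤ y then 1 else 0) - (if p'.2 ≤ y then 1 else 0)) := by
  induction h with
  | refl => exact ⟨fun _ _ => 0, by simp, by simp, by simp, by simp⟩
  | @tail u v _ h2 ih =>
    obtain ⟨σ, s1, s2, s3, s4⟩ := ih
    obtain ⟨hu, hv, huv⟩ := h2
    have bu := hP u hu
    have bv := hP v hv
    have ne : ∀ x y, (x, y) ∉ P → ¬ (u.1 = x ∧ u.2 = y) ∧ ¬ (v.1 = x ∧ v.2 = y) := by
      intro x y h
      constructor
      · rintro ⟨rfl, rfl⟩; exact h hu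
      · rintro ⟨rfl, rfl⟩; exact h hv
    unfold Adj at huv
    refine ⟨fun x y => σ x y + (if x < u.1 ∧ u.2 = y ∧ v.2 = y + 1 then 1 else 0) -
      (if x < u.1 ∧ v.2 = y ∧ u.2 = y + 1 then 1 else 0), ?_, ?_, ?_, ?_⟩
    · intro x y h
      have := s1 x y h
      have := ne _ _ h
      beta_reduce
      split_ifs <;> omega
    · intro x y h
      have h3 := s2 x y h
      have := ne _ _ h
      beta_reduce
      generalize (if p.2 = y + 1 ∧ x < p.1 then (1 : ℤ) else 0) = t at h3 ⊢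
      split_ifs at h3 ⊢ <;> omega
    · intro x y h
      have := s3 x y h
      beta_reduce
      split_ifs <;> omega
    · intro x y h
      have h3 := s4 x y h
      beta_reduce
      generalize (if p.2 ≤ y then (1 : ℤ) else 0) = t at h3 ⊢
      split_ifs at h3 ⊢ <;> omega

/-- a function that is constant along the steps of an interval is constant on it -/
lemma bb1_const {φ : ℤ → ℤ} {a b : ℤ} (hab : a ≤ b)
    (h : ∀ t, a ≤ t → t + 1 ≤ b → φ t = φ (t + 1)) : φ a = φ b := by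
  induction b, hab using Int.leInduction with
  | base => rfl
  | succ n hn ih =>
    rw [ih fun t h1 h2 => h t h1 (by omega)]
    exact h n hn le_rfl

lemma wind {L R B T a b : ℤ} (hP : ∀ z ∈ P, L ≤ z.1 ∧ z.1 ≤ R ∧ B ≤ z.2 ∧ z.2 ≤ T)
    (h : Lc P (a, 0) (b, 0)) (hab : a ≤ b) : ∃ s : V → ℤ,
      (∀ u v, u ∉ P → v ∉ P → Adj u v → u.2 + v.2 ≠ -1 → s u = s v) ∧
      (∀ c, (c, 0) ∉ P → s (c, -1) - s (c, 0) = if a ≤ c ∧ c < b then 1 else 0) ∧
      ∀ v : V, v.1 < L ∨ R < v.1 ∨ v.2 < B ∨ T < v.2 → s v = 0 := by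
  obtain ⟨σ, s1, s2, s3, s4⟩ :=
    exists_wind (L := L) (R := R) (fun z hz => ⟨(hP z hz).1, (hP z hz).2.1⟩) h
  refine ⟨fun v => σ v.1 v.2, ?_, ?_, ?_⟩
  · rintro ⟨x, y⟩ ⟨x', y'⟩ hu hv huv hs
    simp only [Adj] at huv hs ⊢
    rcases huv with ⟨rfl, rfl | rfl⟩ | ⟨rfl, rfl | rfl⟩
    · have := s2 x y hv
      simp only at this
      split_ifs at this <;> omega
    · have := s2 x y' hu
      simp only at this
      split_ifs at this <;> omega
    · exact s1 x y hv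
    · exact (s1 x' y hu).symm
  · intro c hc
    have := s2 c (-1) (by simpa using hc)
    simp only [neg_add_cancel, true_and] at this ⊢
    rw [this]
    split_ifs <;> omega
  · rintro ⟨x, y⟩ hv
    simp only at hv ⊢
    by_cases h1 : x < L
    · have := s4 x y h1
      simp only at this
      rw [this, sub_self]
    by_cases h2 : R ≤ x
    · exact s3 x y h2
    have hy : y < B ∨ T < y := by omega
    have e : σ x y = σ R y := by
      refine bb1_const (φ := fun t => σ t y) (by omega) fun t _ _ => s1 t y fun hm => ?_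
      have := hP _ hm
      simp only at this
      omega
    rw [e]
    exact s3 R y le_rfl

/-- a function that is constant along the steps of `Q` is constant along walks -/
lemma bb1_walk {s : V → ℤ} (hs : ∀ u v, u ∈ Q → v ∈ Q → Adj u v → s u = s v)
    (h : Lc Q x y) : s x = s y := by
  induction h with
  | refl => rfl
  | tail _ h2 ih => exact ih.trans (hs _ _ h2.1 h2.2.1 h2.2.2)

/-- a walk in the upper half plane separates it -/
lemma pl_half {L R T a b c : ℤ} (hP : ∀ z ∈ P, L ≤ z.1 ∧ z.1 ≤ R ∧ 0 ≤ z.2 ∧ z.2 ≤ T)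
    (h : Lc P (a, 0) (b, 0)) (hac : a < c) (hcb : c < b) (hQ : ∀ z ∈ Q, 0 ≤ z.2 ∧ z ∉ P)
    (hc : (c, 0) ∈ Q) (h' : Lc Q (c, 0) z) : L ≤ z.1 ∧ z.1 ≤ R ∧ z.2 ≤ T := by
  obtain ⟨s, s1, s2, s3⟩ := wind (B := 0) hP h (by omega)
  have e1 : s (c, -1) = 0 := s3 _ (Or.inr (Or.inr (Or.inl (by norm_num))))
  have e2 := s2 c (hQ _ hc).2
  rw [if_pos ⟨hac.le, hcb⟩] at e2
  have e3 : s (c, 0) = s z := by
    refine bb1_walk (fun u v hu hv huv => s1 u v (hQ u hu).2 (hQ v hv).2 huv ?_) h'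
    have := (hQ u hu).1
    have := (hQ v hv).1
    omega
  by_contra hn
  have e4 : s z = 0 := s3 z (by omega)
  omega

/-- the same outside a hole whose top row is `x0 < x < x1`, `y = -1` -/
lemma pl_ext {L R B T a b c c' x0 x1 : ℤ} {z' : V}
    (hP : ∀ z ∈ P, L ≤ z.1 ∧ z.1 ≤ R ∧ B ≤ z.2 ∧ z.2 ≤ T) (h : Lc P (a, 0) (b, 0))
    (hac : a < c) (hcb : c < b) (hc' : c' < a ∨ b < c') (h0 : x0 < a ∧ b < x1 ∧ x0 < c' ∧ c' < x1)
    (hrow : ∀ t, x0 < t → t < x1 → (t, -1) ∉ P ∧ (t, -1) ∉ Q) (hQ : ∀ z ∈ Q, z ∉ P)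
    (hc : (c, 0) ∈ Q) (hd : (c', 0) ∈ Q) (h₁ : Lc Q (c, 0) z) (h₂ : Lc Q (c', 0) z')
    (hz : z.1 < L ∨ R < z.1 ∨ z.2 < B ∨ T < z.2)
    (hz' : z'.1 < L ∨ R < z'.1 ∨ z'.2 < B ∨ T < z'.2) : False := by
  obtain ⟨s, s1, s2, s3⟩ := wind hP h (by omega)
  have jump : ∀ t, (t, -1) ∈ Q → (t, 0) ∈ Q → s (t, -1) = s (t, 0) := by
    intro t h1 h2
    have e := s2 t (hQ _ h2)
    have ht : ¬ (x0 < t ∧ t < x1) := fun ht => (hrow t ht.1 ht.2).2 h1
    rw [if_neg (by omega)] at e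
    omega
  have step : ∀ u v, u ∈ Q → v ∈ Q → Adj u v → s u = s v := by
    rintro ⟨x, y⟩ ⟨x', y'⟩ hu hv huv
    by_cases hs : y + y' = -1
    · simp only [Adj] at huv
      rcases huv with ⟨rfl, rfl | rfl⟩ | ⟨rfl, _⟩
      · obtain rfl : y = -1 := by omega
        exact jump x hu hv
      · obtain rfl : y' = -1 := by omega
        exact (jump x hv hu).symm
      · omega
    · exact s1 _ _ (hQ _ hu) (hQ _ hv) huv hs
  have e1 : s (c, 0) = 0 := (bb1_walk step h₁).trans (s3 z hz)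
  have e2 : s (c', 0) = 0 := (bb1_walk step h₂).trans (s3 z' hz')
  have e3 := s2 c (hQ _ hc)
  have e4 := s2 c' (hQ _ hd)
  rw [if_pos ⟨hac.le, hcb⟩] at e3
  rw [if_neg (by omega)] at e4
  have row : ∀ t t', x0 < t → t ≤ t' → t' < x1 → s (t, -1) = s (t', -1) := by
    intro t t' h1 h2 h3
    refine bb1_const (φ := fun t => s (t, -1)) h2 fun r h4 h5 => ?_
    refine s1 _ _ (hrow r (by omega) (by omega)).1 (hrow (r + 1) (by omega) (by omega)).1 ?_ ?_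
    · simp [Adj]
    · norm_num
  rcases le_total c c' with hcc | hcc
  · have := row c c' (by omega) hcc h0.2.2.2
    omega
  · have := row c' c h0.2.2.1 hcc (by omega)
    omega

end

end Pool.Agent.XYU

end

section

open Finset Real Relation

namespace Pool.Agent.XYU

open Classical

noncomputable section

variable {β : ℝ} {q : ℕ} {S : Sys} {f g : UC → ℝ} {w w' : Es} {P Q : Set V} {x y z : V}
  {Λ : Finset V}

lemma en_nonneg (E : Es) (X : Finset V) (χ : V → ℝ) : 0 ≤ En E X χ :=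
  sum_nonneg fun e _ => Sym2.ind (fun _ _ => sq_nonneg _) e

lemma en_le (Λ X : Finset V) (χ : V → ℝ) (lam : ℝ)
    (h : ∀ x y, Adj x y → x ∈ Λ → x ∉ X → y ∉ X → |χ x - χ y| ≤ lam) :
    En (Ed Λ) X χ ≤ 4 * #Λ * lam ^ 2 := by
  refine (sum_le_card_nsmul _ _ (lam ^ 2) fun e he => ?_).trans ?_
  · obtain ⟨h1, h2⟩ := mem_filter.1 he
    obtain ⟨x, y, rfl, h3, h4⟩ := mem_Ed'.1 h1
    have h5 := abs_le.1 (h x y h3 h4 (h2 x (Sym2.mem_mk_left _ _)) (h2 y (Sym2.mem_mk_right _ _)))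
    exact sq_le_sq' h5.1 h5.2
  · rw [nsmul_eq_mul]
    refine mul_le_mul_of_nonneg_right ?_ (sq_nonneg _)
    exact_mod_cast (card_filter_le _ _).trans (card_Ed Λ)

lemma bb2_edge (c : V) (G : ℤ → ℝ) {r R : ℤ} (h : ∀ ρ, ρ < r ∨ R ≤ ρ → G (ρ + 1) = G ρ)
    (ha : Adj x y) (hxy : dd x c ≤ dd y c) : (G (dd x c) - G (dd y c)) ^ 2 ≤ ∑ ρ ∈ Ico r R,
      if s(x, y) ∈ Ed ((bx c ρ).filter fun v => dd v c = ρ) then (G (ρ + 1) - G ρ) ^ 2 else 0 := by
  have h0 : ∀ ρ ∈ Ico r R, (0 : ℝ) ≤ if s(x, y) ∈ Ed ((bx c ρ).filter fun v => dd v c = ρ) then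
      (G (ρ + 1) - G ρ) ^ 2 else 0 := fun ρ _ => by positivity
  have h1 := dd_tri y x c
  rw [ha.symm.dd] at h1
  rcases hxy.eq_or_lt with h2 | h2
  · rw [h2, sub_self, zero_pow two_ne_zero]
    exact sum_nonneg h0
  · rw [show dd y c = dd x c + 1 by omega]
    by_cases h3 : dd x c ∈ Ico r R
    · refine le_trans (le_of_eq ?_) (single_le_sum h0 h3)
      rw [if_pos]
      · ring
      · exact mem_Ed.2 ⟨ha, Or.inl (mem_filter.2 ⟨mem_bx.2 le_rfl, rfl⟩)⟩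
    · rw [h _ (by rw [mem_Ico] at h3; omega), sub_self, zero_pow two_ne_zero]
      exact sum_nonneg h0

lemma en_rad (Λ X : Finset V) (c : V) (G : ℤ → ℝ) {r R : ℤ} (hr : 1 ≤ r)
    (h : ∀ ρ, ρ < r ∨ R ≤ ρ → G (ρ + 1) = G ρ) :
    En (Ed Λ) X (fun v => G (dd v c)) ≤ ∑ ρ ∈ Ico r R, 32 * (ρ : ℝ) * (G (ρ + 1) - G ρ) ^ 2 := by
  refine (sum_le_sum (g := fun e => ∑ ρ ∈ Ico r R,
    if e ∈ Ed ((bx c ρ).filter fun v => dd v c = ρ) then (G (ρ + 1) - G ρ) ^ 2 else 0)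
    fun e he => ?_).trans ?_
  · obtain ⟨x, y, rfl, h3, -⟩ := mem_Ed'.1 (mem_filter.1 he).1
    rcases le_total (dd x c) (dd y c) with h1 | h1
    · exact bb2_edge c G h h3 h1
    · rw [Sym2.eq_swap]
      exact bb2_edge c G h h3.symm h1
  · rw [sum_comm]
    refine sum_le_sum fun ρ hρ => ?_
    rw [← sum_filter, sum_const, nsmul_eq_mul]
    refine mul_le_mul_of_nonneg_right ?_ (sq_nonneg _)
    have h1 := card_sphere c (hr.trans (mem_Ico.1 hρ).1)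
      (A := (bx c ρ).filter fun v => dd v c = ρ) fun v hv => (mem_filter.1 hv).2
    have h2 := (card_le_card fun e he => (mem_filter.1 he).2).trans
      (card_Ed ((bx c ρ).filter fun v => dd v c = ρ))
      (b := #(Ed ((bx c ρ).filter fun v => dd v c = ρ)))
      (a := #(((Ed Λ).filter fun e => ∀ v ∈ e, v ∉ X).filter fun e =>
        e ∈ Ed ((bx c ρ).filter fun v => dd v c = ρ)))
    exact_mod_cast (show (_ : ℤ) ≤ 32 * ρ by omega)

lemma iso_of_ext {c : V} {r R : ℤ} (hr : r + 2 ≤ R)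
    (h : Ext (bx c (R - 1) \ bx c r) (Ed (bx c (R - 1) \ bx c r))
      (fun v => if dd v c ≤ r then 1 else 0) w) : Iso w c r R := by
  obtain ⟨σ, h1, h2⟩ := h
  simp only [mem_sdiff, mem_bx] at h1
  intro x y hx hxy
  by_contra hy
  have h3 := hxy.eq (σ := σ) fun a b _ _ hab he => by
    by_cases h4 : a ∈ bx c (R - 1) \ bx c r ∨ b ∈ bx c (R - 1) \ bx c r
    · exact h2 a b (mem_inter.2 ⟨he, mem_Ed.2 ⟨hab, h4⟩⟩)
    · simp only [mem_sdiff, mem_bx] at h4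
      have h5 := dd_tri a b c
      have h6 := dd_tri b a c
      rw [hab.dd] at h5
      rw [hab.symm.dd] at h6
      rw [h1 a fun h => h4 (Or.inl h), h1 b fun h => h4 (Or.inr h)]
      exact if_congr (by omega) rfl rfl
  rw [h1 x (by omega), h1 y (by omega), if_pos hx, if_neg (by omega)] at h3
  exact one_ne_zero h3

lemma Iso.anti {c : V} {r R : ℤ} (hr : r < R) (h : Iso w' c r R)
    (hw : w ∩ Ed (bx c (R - 1)) ⊆ w') : Iso w c r R := fun x y hx hxy => by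
  refine h x y hx (hxy.closed (N := {v | Cn w' Set.univ x v}) ReflTransGen.refl
    fun a b ha _ _ hab he => Cn.step ha trivial trivial hab (hw (mem_inter.2 ⟨he, ?_⟩)))
  have := h x a hx ha
  exact mem_Ed.2 ⟨hab, Or.inl (mem_bx.2 (by omega))⟩

end

end Pool.Agent.XYU

end

section

open Finset Real Relation

namespace Pool.Agent.XYU

open Classical

noncomputable section

variable {β : ℝ} {q : ℕ} {S : Sys} {f g : UC → ℝ} {w w' : Es} {P Q : Set V} {x y z : V}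
  {Λ : Finset V}

/-- probability of isolating a box -/
def c0 (β : ℝ) : ℝ := exp (-(700 * β))

lemma bb3_half {m : ℤ} (hm : 1 ≤ m) : (1 / 2 : ℝ) ≤ ∑ k ∈ Ico m (2 * m), (1 / k : ℝ) := by
  have hm' : (0 : ℝ) < m := by exact_mod_cast hm
  have h := card_nsmul_le_sum (Ico m (2 * m)) (fun k : ℤ => (1 / k : ℝ)) (1 / (2 * m)) fun k hk => by
    rw [mem_Ico] at hk
    have h1 : (0 : ℝ) < k := by exact_mod_cast (by omega : 0 < k)
    have h2 : (k : ℝ) ≤ 2 * m := by exact_mod_cast hk.2.le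
    exact one_div_le_one_div_of_le h1 h2
  have h3 : ((#(Ico m (2 * m)) : ℕ) : ℝ) = m := by
    have : ((#(Ico m (2 * m)) : ℕ) : ℤ) = m := by
      rw [Int.card_Ico]; omega
    exact_mod_cast this
  rw [nsmul_eq_mul, h3] at h
  refine le_trans (le_of_eq ?_) h
  field_simp

lemma bb3_harm {r : ℤ} (hr : 1 ≤ r) (n : ℕ) :
    (n / 2 : ℝ) ≤ ∑ k ∈ Ico r (2 ^ n * r), (1 / k : ℝ) := by
  induction n with
  | zero => simp
  | succ n ih =>
    have h1 : (1 : ℤ) ≤ 2 ^ n := one_le_pow₀ (by norm_num)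
    have h2 : r ≤ 2 ^ n * r := by nlinarith
    have h3 := bb3_half (hr.trans h2)
    rw [show (2 : ℤ) ^ (n + 1) * r = 2 * (2 ^ n * r) by ring,
      ← Ico_union_Ico_eq_Ico h2 (by omega : 2 ^ n * r ≤ 2 * (2 ^ n * r)),
      sum_union (Ico_disjoint_Ico_consecutive _ _ _)]
    push_cast
    linarith

lemma iso_log (hβ : 0 ≤ β) (c : V) {r : ℤ} (hr : 2 ≤ r) {n : ℕ} (hn : 1 ≤ n) (hq : n ≤ q) :
    LB β q (bx c (2 ^ n * r - 1)) (fun u => ind (Iso u.w c r (2 ^ n * r)))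
      (exp (-(700 * β / n))) := by
  have h1 : (2 : ℤ) ≤ 2 ^ n := le_self_pow₀ (by norm_num) (by omega)
  have hR : r + 2 ≤ 2 ^ n * r := by nlinarith
  have hH := bb3_harm (by omega : 1 ≤ r) n
  generalize 2 ^ n * r = R at *
  have hn' : (0 : ℝ) < n := by exact_mod_cast hn
  have hq' : (n : ℝ) ≤ q := by exact_mod_cast hq
  set H := ∑ k ∈ Ico r R, (1 / k : ℝ) with hHd
  have hH0 : 0 < H := by linarith
  let G : ℤ → ℝ := fun ρ => 1 - (∑ k ∈ Ico r (min ρ R), (1 / k : ℝ)) / H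
  have g1 : ∀ ρ, ρ ≤ r → G ρ = 1 := fun ρ h => by
    simp only [G]
    rw [Ico_eq_empty (by omega)]
    simp
  have g2 : ∀ ρ, R ≤ ρ → G ρ = 0 := fun ρ h => by
    simp only [G]
    rw [min_eq_right h, ← hHd, div_self hH0.ne', sub_self]
  have g3 : ∑ ρ ∈ Ico r R, 32 * (ρ : ℝ) * (G (ρ + 1) - G ρ) ^ 2 = 32 / H := by
    have : ∀ ρ ∈ Ico r R, 32 * (ρ : ℝ) * (G (ρ + 1) - G ρ) ^ 2 = 32 / H ^ 2 * (1 / ρ) := by
      intro ρ hρ
      rw [mem_Ico] at hρ
      have h0 : (0 : ℝ) < ρ := by exact_mod_cast (by omega : 0 < ρ)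
      simp only [G]
      rw [min_eq_left (by omega : ρ + 1 ≤ R), min_eq_left hρ.2.le,
        ← Ico_union_Ico_eq_Ico hρ.1 (by omega : ρ ≤ ρ + 1),
        sum_union (Ico_disjoint_Ico_consecutive _ _ _),
        show Ico ρ (ρ + 1) = {ρ} by ext k; simp only [mem_Ico, mem_singleton]; omega, sum_singleton]
      field_simp
      ring
    rw [sum_congr rfl this, ← mul_sum, ← hHd]
    field_simp
  intro S₀ hS₀ hsub
  refine lb_of_eq (Λ := bx c (R - 1) \ bx c r) hβ (fun S hS hL => ?_) S₀ hS₀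
    (sdiff_subset.trans hsub)
  have h2 := cut hβ hS.pos hS.grp (X := ∅) (disjoint_empty_left _) (by simp)
    (fun v => if dd v c ≤ r then 1 else 0) (fun v => G (dd v c)) (fun e _ v _ hv _ => by
      rw [hL, mem_sdiff, mem_bx, mem_bx] at hv
      by_cases h : dd v c ≤ r
      · simp [h, g1 _ h]
      · simp only [h, if_false, if_true]
        exact g2 _ (by omega))
  refine le_trans ?_ (h2.trans (Z_mono hβ hS.grp.a01 fun u _ _ => ind_mono fun h => ?_))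
  · refine mul_le_mul_of_nonneg_right (exp_le_exp.2 (neg_le_neg ?_)) (Z1_nonneg hβ hS.grp.a01)
    have h3 := en_rad S.L ∅ c G (r := r) (R := R) (by omega) fun ρ h => by
      rcases h with h | h
      · rw [g1 _ (by omega), g1 _ h.le]
      · rw [g2 _ (by omega), g2 _ h]
    rw [g3, ← hS.ed] at h3
    have h4 : 32 / H ≤ 64 / n := by
      rw [div_le_div_iff₀ hH0 hn']
      linarith
    have h5 : (#S.E : ℝ) / q ^ 2 ≤ 1 / n := by
      have : (#S.E : ℝ) ≤ q := by exact_mod_cast hS.sz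
      rw [div_le_div_iff₀ (by nlinarith) hn']
      nlinarith
    have h6 : En S.E ∅ (fun v => G (dd v c)) + #S.E / q ^ 2 ≤ 70 / n := by
      have : (70 : ℝ) / n = 64 / n + 1 / n + 5 / n := by ring
      have : (0 : ℝ) ≤ 5 / n := by positivity
      linarith
    calc _ ≤ 10 * β * (70 / n) := mul_le_mul_of_nonneg_left h6 (by positivity)
      _ = _ := by ring
  · rw [hS.ed, hL] at h
    exact iso_of_ext hR h

lemma iso_lb (hβ : 0 ≤ β) (c : V) {r : ℤ} (hr : 2 ≤ r) :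
    LB β q (bx c (2 * r - 1)) (fun u => ind (Iso u.w c r (2 * r))) (c0 β) := by
  intro S hS hsub
  have := iso_log hβ c hr (n := 1) le_rfl hS.pos
  simp only [pow_one, Nat.cast_one, div_one] at this
  exact this S hS hsub

end

end Pool.Agent.XYU

end

section

open Finset Real Relation

namespace Pool.Agent.XYU

open Classical

noncomputable section

variable {β : ℝ} {q : ℕ} {S : Sys} {f g : UC → ℝ} {w w' : Es} {P Q : Set V} {x y z : V}
  {Λ : Finset V}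

lemma bb_exp (hβ : 0 ≤ β) (hS : LG q S) (hL : S.L = Λ) (χ : V → ℝ) {e : ℝ}
    (he : En (Ed Λ) ∅ χ ≤ e) :
    exp (10 * β * (En (Ed Λ) ∅ χ + #(Ed Λ) / q ^ 2)) ≤ exp (10 * β * (e + 1)) := by
  have hq : (1 : ℝ) ≤ q := by exact_mod_cast hS.pos
  have hs : (#(Ed Λ) : ℝ) ≤ q := by
    have := hS.sz
    rw [hS.ed, hL] at this
    exact_mod_cast this
  have h1 : (#(Ed Λ) : ℝ) / q ^ 2 ≤ 1 := by
    rw [div_le_one (by positivity)]
    nlinarith
  refine exp_le_exp.2 (mul_le_mul_of_nonneg_left (by linarith) (by positivity))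

lemma bb_in {W : Finset V} : ∀ e ∈ Ei W, ∀ v ∈ e, v ∈ W := fun _ he => (mem_filter.1 he).2

lemma ub_rm (hβ : 0 ≤ β) {W : Finset V} (hW : W ⊆ Λ) (χ : V → ℝ) (h1 : ∀ v ∈ W, χ v = 1)
    (h0 : ∀ v ∉ Λ, χ v = 0) {e : ℝ} (he : En (Ed Λ) ∅ χ ≤ e) (hf0 : ∀ u, 0 ≤ f u)
    (hf : Dep W (Ei W) f) : UB β q Λ f (exp (10 * β * (e + 1)) * Pm β q Λ f) := by
  refine ub_of_eq hβ fun S hS hL => ?_
  have hE : S.E = Ed Λ := by rw [hS.ed, hL]
  have hG := grp_Smax Λ (Ed Λ) ∅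
  have key := rm (f := f) hβ hS.pos (S := S) (S' := Smax Λ (Ed Λ) ∅) hS.grp hG hL.symm hE.symm
    (W := W) (D := Ei W) (hL ▸ hW) (hE ▸ (Ei_sub W).trans (Ed_mono hW)) bb_in χ h1
    (fun _ _ v _ hv => h0 v (hL ▸ hv)) hf0 hf
  rw [hE] at key
  have p1 := hG.pos hβ hS.pos
  have p2 := hS.grp.pos hβ hS.pos
  have p3 : 0 ≤ Z β q (Smax Λ (Ed Λ) ∅) f := Z_nonneg hβ hG.a01 fun u _ => hf0 u
  have key' := key.trans (mul_le_mul_of_nonneg_right (bb_exp hβ hS hL χ he) (mul_nonneg p3 p2.le))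
  unfold Pm Ex
  rw [← mul_div_assoc, div_mul_eq_mul_div, le_div_iff₀ p1, mul_assoc]
  exact key'

lemma lb_rm (hβ : 0 ≤ β) {W : Finset V} (hW : W ⊆ Λ) (χ : V → ℝ) (h1 : ∀ v ∈ W, χ v = 1)
    (h0 : ∀ v ∉ Λ, χ v = 0) {e : ℝ} (he : En (Ed Λ) ∅ χ ≤ e) (hf0 : ∀ u, 0 ≤ f u)
    (hf : Dep W (Ei W) f) : LB β q Λ f (exp (-(10 * β * (e + 1))) * Pm β q Λ f) := by
  refine lb_of_eq hβ fun S hS hL => ?_
  have hE : S.E = Ed Λ := by rw [hS.ed, hL]
  have hG := grp_Smax Λ (Ed Λ) ∅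
  have key := rm (f := f) hβ hS.pos (S := Smax Λ (Ed Λ) ∅) (S' := S) hG hS.grp hL hE
    (W := W) (D := Ei W) hW ((Ei_sub W).trans (Ed_mono hW)) bb_in χ h1
    (fun _ _ v _ hv => h0 v hv) hf0 hf
  have p1 := hG.pos hβ hS.pos
  have p3 : 0 ≤ Z β q S f := Z_nonneg hβ hS.grp.a01 fun u _ => hf0 u
  have key' : Z β q (Smax Λ (Ed Λ) ∅) f * Z1 β q S ≤
      exp (10 * β * (e + 1)) * (Z β q S f * Z1 β q (Smax Λ (Ed Λ) ∅)) :=
    key.trans (mul_le_mul_of_nonneg_right (bb_exp hβ hS hL χ he) (mul_nonneg p3 p1.le))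
  have p4 := exp_pos (10 * β * (e + 1))
  unfold Pm Ex
  rw [exp_neg, ← mul_div_assoc, div_mul_eq_mul_div, div_le_iff₀ p1, mul_assoc,
    inv_mul_le_iff₀ p4]
  exact key'

lemma bb_max {a b c d : ℤ} (h : |a - c| ≤ 1) (h' : |b - d| ≤ 1) : |max a b - max c d| ≤ 1 :=
  (abs_max_sub_max_le_max a b c d).trans (max_le h h')

/-- cutoff around a rectangle with sides at most `6 m` -/
lemma rect_cut {x0 x1 y0 y1 m : ℤ} (hm : 1 ≤ m) (hx : x0 ≤ x1) (hx' : x1 ≤ x0 + 6 * m)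
    (hy : y0 ≤ y1) (hy' : y1 ≤ y0 + 6 * m) : ∃ χ : V → ℝ, (∀ v ∈ rect x0 x1 y0 y1, χ v = 1) ∧
      (∀ v ∉ rect (x0 - m + 1) (x1 + m - 1) (y0 - m + 1) (y1 + m - 1), χ v = 0) ∧
      En (Ed (rect (x0 - m + 1) (x1 + m - 1) (y0 - m + 1) (y1 + m - 1))) ∅ χ ≤ 256 := by
  obtain ⟨k, hk⟩ : ∃ k : V → ℤ, ∀ v, k v = max (m - max (max (max (x0 - v.1) (v.1 - x1))
      (max (y0 - v.2) (v.2 - y1))) 0) 0 := ⟨_, fun _ => rfl⟩
  have hm0 : (0 : ℝ) < m := by exact_mod_cast (by omega : (0 : ℤ) < m)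
  refine ⟨fun v => (k v : ℝ) / m, fun v hv => ?_, fun v hv => ?_, ?_⟩
  · rw [mem_rect] at hv
    have : k v = m := by rw [hk]; omega
    simp only [this]
    exact div_self hm0.ne'
  · rw [mem_rect] at hv
    have : k v = 0 := by rw [hk]; omega
    simp [this]
  · refine (en_le _ ∅ _ (1 / m) fun x y hxy _ _ _ => ?_).trans ?_
    · have h1 : |k x - k y| ≤ 1 := by
        have b : (-1 ≤ x.1 - y.1 ∧ x.1 - y.1 ≤ 1) ∧ -1 ≤ x.2 - y.2 ∧ x.2 - y.2 ≤ 1 := by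
          unfold Adj at hxy
          omega
        rw [hk, hk]
        refine bb_max ?_ (by simp)
        rw [sub_sub_sub_cancel_left, abs_sub_comm]
        refine bb_max (bb_max (bb_max ?_ ?_) (bb_max ?_ ?_)) (by simp) <;>
          (rw [abs_le]; omega)
      have h2 : |(k x : ℝ) - k y| ≤ 1 := by exact_mod_cast h1
      rw [← sub_div, abs_div, abs_of_pos hm0]
      exact div_le_div_of_nonneg_right h2 hm0.le
    · have h1 := card_rect (x0 := x0 - m + 1) (x1 := x1 + m - 1) (y0 := y0 - m + 1)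
        (y1 := y1 + m - 1) (by omega) (by omega)
      have h2 : (#(rect (x0 - m + 1) (x1 + m - 1) (y0 - m + 1) (y1 + m - 1)) : ℤ) ≤
          (8 * m) * (8 * m) := by
        rw [h1]
        exact mul_le_mul (by omega) (by omega) (by omega) (by omega)
      have h3 : (#(rect (x0 - m + 1) (x1 + m - 1) (y0 - m + 1) (y1 + m - 1)) : ℝ) ≤
          (8 * m) * (8 * m) := by exact_mod_cast h2
      rw [div_pow, one_pow, mul_one_div, div_le_iff₀ (by positivity)]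
      nlinarith

end

end Pool.Agent.XYU

end

section

open Finset Real Relation

namespace Pool.Agent.XYU

open Classical

noncomputable section

/-! The number of crossing clusters.
`crs_step`: let `A = bx c (2r)`, `Λ = bx c (2r-1)`, reduce to `S.L = Λ`. For a family `𝒦` of `j`
subsets of `A` let `X = ⋃ 𝒦`. The event `𝒦 ⊆ crs w` is `H ∧ Clo`, where `Clo` says that the edges
between `X` and `Λ' = (Λ \ bx c r) \ X` are closed and `H` does not read the edges touching `Λ'`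
(precisely: if `w, w'` agree off `Ed Λ'`, `𝒦 ⊆ crs w` and `Clo (Ed Λ') X w'`, then `𝒦 ⊆ crs w'`;
and `𝒦 ⊆ crs w` gives `Clo (Ed Λ') X w`). Condition on the outside of `Λ'` (`dlr`);
`cut_explore` with `k = X`, labels `[dd v c ≤ r]` and the linear profile of `iso_lb` shows that
with conditional probability `c0` no cluster disjoint from `X` crosses, i.e. `crs w = 𝒦`. Sum over
`𝒦 ∈ powersetCard j A.powerset`: `∑ [crs w = 𝒦] = [# = j]` and `∑ [𝒦 ⊆ crs w] ≥ [j ≤ #]`.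
`crs_exp`: `P(j ≤ N) ≤ (1 - c0)^j` and `exp (a N) ≤ ∑_{j ≤ #A} exp (a j) [j ≤ N]`; take `a` with
`exp a * (1 - c0) < 1`. `crs_dep`: clusters of `A` only read `Ei A`.
`cr_count`: tile the plane by the boxes of radius `h` centred at `(2h+1) • (i, i')`. For each
level `ρ = r + 3h + l (2h+1) ≤ 2r - 3h` and each of the `n` crossing walks pick a point of norm `ρ`
on it (`Cn.first`), and the box containing it: the walk leaves the box of radius `2h` (`Cn.first`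
again), which lies in the annulus; different `p` give different clusters of that box, different
levels give different boxes. `cr_ub`: if `8 r < n` the event is empty (`card_sphere`). Otherwise
`h = A r / n` (integer division, `A ≥ 32` a large constant, `n ≥ 12 A`); split the centres by the
parity of `(i, i')`; in one of the four classes the sum is at least a quarter; Chernoff bound with
`prod_le` (`G = 1`, regions `bx c (2h-1)`) and `crs_exp`. There are at most `64 n² / A²` centres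
and the sum is at least `n² / (6A)`. -/

variable {β : ℝ} {q : ℕ} {S : Sys} {w w' : Es}

lemma bc1_cn {A : Finset V} (h : w ∩ Ei A = w' ∩ Ei A) {x y : V} (hc : Cn w A x y) :
    Cn w' A x y := by
  refine hc.mono subset_rfl fun a b ha hb hab hw => ?_
  have h1 : s(a, b) ∈ w ∩ Ei A := mem_inter.2 ⟨hw, mem_Ei.2 ⟨hab, ha, hb⟩⟩
  rw [h] at h1
  exact (mem_inter.1 h1).1

lemma crs_dep (c : V) (r : ℤ) (h : w ∩ Ei (bx c (2 * r)) = w' ∩ Ei (bx c (2 * r))) :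
    crs w c r = crs w' c r := by
  have e : Cn w (bx c (2 * r)) = Cn w' (bx c (2 * r)) := by
    funext x y
    exact propext ⟨bc1_cn h, bc1_cn h.symm⟩
  have e2 : cl w (bx c (2 * r)) = cl w' (bx c (2 * r)) := by
    funext v
    simp only [cl, e]
  simp only [crs, e, e2]

lemma bc1_mem {c : V} {r : ℤ} {K : Finset V} : K ∈ crs w c r ↔ ∃ v, dd v c ≤ r ∧
    (∃ y, dd y c = 2 * r ∧ Cn w (bx c (2 * r)) v y) ∧ cl w (bx c (2 * r)) v = K := by
  simp only [crs, mem_image, mem_filter, mem_bx, and_assoc]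

lemma bc1_sub (w : Es) (c : V) (r : ℤ) : crs w c r ⊆ (bx c (2 * r)).powerset := by
  intro K hK
  obtain ⟨v, -, -, rfl⟩ := bc1_mem.1 hK
  exact mem_powerset.2 (filter_subset _ _)

/-- the free region once the clusters of the family are known -/
def bc1_reg (c : V) (r : ℤ) (𝒦 : Finset (Finset V)) : Finset V :=
  (bx c (2 * r - 1) \ bx c r) \ 𝒦.biUnion id

lemma bc1_mem_reg {c : V} {r : ℤ} {𝒦 : Finset (Finset V)} {v : V} : v ∈ bc1_reg c r 𝒦 ↔
    (dd v c ≤ 2 * r - 1 ∧ ¬ dd v c ≤ r) ∧ v ∉ 𝒦.biUnion id := by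
  simp only [bc1_reg, mem_sdiff, mem_bx]

lemma bc1_in {c : V} {r : ℤ} {𝒦 : Finset (Finset V)} (h : 𝒦 ⊆ crs w c r) {x y : V}
    (hx : x ∈ 𝒦.biUnion id) (hy : y ∈ bx c (2 * r)) (hc : Cn w (bx c (2 * r)) x y) :
    y ∈ 𝒦.biUnion id ∧ cl w (bx c (2 * r)) y ∈ 𝒦 := by
  obtain ⟨K, hK, hxK⟩ := mem_biUnion.1 hx
  obtain ⟨v, -, -, rfl⟩ := bc1_mem.1 (h hK)
  have h1 : Cn w (bx c (2 * r)) v y := (mem_cl.1 hxK).2.trans hc
  exact ⟨mem_biUnion.2 ⟨_, hK, mem_cl.2 ⟨hy, h1⟩⟩, cl_eq h1 ▸ hK⟩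

lemma bc1_X {c : V} {r : ℤ} {𝒦 : Finset (Finset V)} (h : 𝒦 ⊆ crs w c r) {x : V}
    (hx : x ∈ 𝒦.biUnion id) : x ∈ bx c (2 * r) := by
  obtain ⟨K, hK, hxK⟩ := mem_biUnion.1 hx
  exact mem_powerset.1 (bc1_sub w c r (h hK)) hxK

lemma bc1_clo {c : V} {r : ℤ} {𝒦 : Finset (Finset V)} (h : 𝒦 ⊆ crs w c r) :
    Clo (Ed (bc1_reg c r 𝒦)) (𝒦.biUnion id) w := by
  rintro e he ⟨v, hv, hve⟩ hw
  obtain ⟨x, y, rfl, hxy, hx⟩ := mem_Ed'.1 he
  obtain ⟨⟨h1, -⟩, h2⟩ := bc1_mem_reg.1 hx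
  have hxA : x ∈ bx c (2 * r) := mem_bx.2 (by omega)
  rcases Sym2.mem_iff.1 hve with rfl | rfl
  · exact h2 hv
  · have hvA := bc1_X h hv
    have hc : Cn w (bx c (2 * r)) v x :=
      Cn.step ReflTransGen.refl hvA hxA hxy.symm (Sym2.eq_swap ▸ hw)
    exact h2 (bc1_in h hv hxA hc).1

lemma bc1_keep {c : V} {r : ℤ} (hr : 2 ≤ r) {𝒦 : Finset (Finset V)} (h : 𝒦 ⊆ crs w c r)
    (hw : ∀ e ∉ Ed (bc1_reg c r 𝒦), e ∈ w' ↔ e ∈ w)
    (hc : Clo (Ed (bc1_reg c r 𝒦)) (𝒦.biUnion id) w') : 𝒦 ⊆ crs w' c r := by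
  intro K hK
  obtain ⟨v, hv, ⟨y, hy, hvy⟩, rfl⟩ := bc1_mem.1 (h hK)
  have hvA : v ∈ bx c (2 * r) := mem_bx.2 (by omega)
  have hvX : v ∈ 𝒦.biUnion id := mem_biUnion.2 ⟨_, hK, mem_cl.2 ⟨hvA, ReflTransGen.refl⟩⟩
  have h1 : ∀ z, Cn w (bx c (2 * r)) v z → Cn w' (bx c (2 * r)) v z := by
    intro z hz
    induction hz with
    | refl => exact ReflTransGen.refl
    | @tail a b ha hab ih =>
      obtain ⟨k1, k2, k3, k4⟩ := hab
      have ha' : Cn w (bx c (2 * r)) v a := ha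
      have haX := (bc1_in h hvX k1 ha').1
      have hbX := (bc1_in h hvX k2 (ha'.step k1 k2 k3 k4)).1
      refine Cn.step ih k1 k2 k3 ((hw _ fun he => ?_).2 k4)
      rcases (mem_Ed.1 he).2 with h' | h'
      · exact (bc1_mem_reg.1 h').2 haX
      · exact (bc1_mem_reg.1 h').2 hbX
  have h2 : ∀ z, Cn w' (bx c (2 * r)) v z → Cn w (bx c (2 * r)) v z := by
    intro z hz
    induction hz with
    | refl => exact ReflTransGen.refl
    | @tail a b ha hab ih =>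
      obtain ⟨k1, k2, k3, k4⟩ := hab
      have haX := (bc1_in h hvX k1 ih).1
      refine Cn.step ih k1 k2 k3 ((hw _ fun he => ?_).1 k4)
      exact hc _ he ⟨a, haX, Sym2.mem_mk_left a b⟩ k4
  refine bc1_mem.2 ⟨v, hv, ⟨y, hy, h1 y hvy⟩, ?_⟩
  ext z
  simp only [mem_cl]
  exact and_congr_right fun _ => ⟨h2 z, h1 z⟩

lemma bc1_eq {c : V} {r : ℤ} (hr : 2 ≤ r) {𝒦 : Finset (Finset V)} (h : 𝒦 ⊆ crs w c r)
    (he : Ext (bc1_reg c r 𝒦) (Ed (bc1_reg c r 𝒦)) (fun v => if dd v c ≤ r then 1 else 0) w) :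
    crs w c r = 𝒦 := by
  refine Subset.antisymm (fun K hK => ?_) h
  obtain ⟨v, hv, ⟨y, hy, hvy⟩, rfl⟩ := bc1_mem.1 hK
  have hvA : v ∈ bx c (2 * r) := mem_bx.2 (by omega)
  by_cases hvX : v ∈ 𝒦.biUnion id
  · exact (bc1_in h hvX hvA ReflTransGen.refl).2
  exfalso
  obtain ⟨σ, h1, h2⟩ := he
  have hX : ∀ z, Cn w (bx c (2 * r)) v z → z ∉ 𝒦.biUnion id := fun z hz hzX =>
    hvX (bc1_in h hzX hvA hz.symm).1
  have h3 : ∀ z, Cn w (bx c (2 * r)) v z → σ v = σ z := by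
    intro z hz
    induction hz with
    | refl => rfl
    | @tail a b ha hab ih =>
      obtain ⟨k1, k2, k3, k4⟩ := hab
      have ha' : Cn w (bx c (2 * r)) v a := ha
      have haX := hX a ha'
      have hbX := hX b (ha'.step k1 k2 k3 k4)
      rw [ih]
      by_cases hE : s(a, b) ∈ Ed (bc1_reg c r 𝒦)
      · exact h2 a b (mem_inter.2 ⟨k4, hE⟩)
      · have ha1 : a ∉ bc1_reg c r 𝒦 := fun h' => hE (mem_Ed.2 ⟨k3, Or.inl h'⟩)
        have hb1 : b ∉ bc1_reg c r 𝒦 := fun h' => hE (mem_Ed.2 ⟨k3, Or.inr h'⟩)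
        rw [h1 a ha1, h1 b hb1]
        have ha2 : ¬ (dd a c ≤ 2 * r - 1 ∧ ¬ dd a c ≤ r) := fun h' =>
          ha1 (bc1_mem_reg.2 ⟨h', haX⟩)
        have hb2 : ¬ (dd b c ≤ 2 * r - 1 ∧ ¬ dd b c ≤ r) := fun h' =>
          hb1 (bc1_mem_reg.2 ⟨h', hbX⟩)
        have t1 := dd_tri a b c
        have t2 := dd_tri b a c
        have t3 := k3.dd
        have t4 := k3.symm.dd
        have : dd a c ≤ r ↔ dd b c ≤ r := by omega
        simp only [this]
  have h4 := h3 y hvy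
  rw [h1 v fun h' => (bc1_mem_reg.1 h').1.2 hv,
    h1 y fun h' => by have := (bc1_mem_reg.1 h').1.1; omega] at h4
  simp only [if_pos hv, if_neg (show ¬ dd y c ≤ r by omega)] at h4
  exact one_ne_zero h4

/-- the linear profile -/
def bc1_G (r ρ : ℤ) : ℝ := if ρ ≤ r then 1 else if 2 * r ≤ ρ then 0 else (2 * r - ρ) / r

lemma bc1_G_mid {r ρ : ℤ} (hr : 2 ≤ r) (h1 : r ≤ ρ) (h2 : ρ ≤ 2 * r) :
    bc1_G r ρ = (2 * r - ρ) / r := by
  have hr' : (r : ℝ) ≠ 0 := by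
    have : r ≠ 0 := by omega
    exact_mod_cast this
  unfold bc1_G
  split_ifs with a b
  · obtain rfl : ρ = r := le_antisymm a h1
    field_simp
    ring
  · obtain rfl : ρ = 2 * r := le_antisymm h2 b
    push_cast
    ring
  · rfl

lemma bc1_en (Λ X : Finset V) (c : V) {r : ℤ} (hr : 2 ≤ r) :
    En (Ed Λ) X (fun v => bc1_G r (dd v c)) ≤ 64 := by
  have hr' : (0 : ℝ) < r := by
    have : 0 < r := by omega
    exact_mod_cast this
  refine (en_rad Λ X c (bc1_G r) (r := r) (R := 2 * r) (by omega) fun ρ hρ => ?_).trans ?_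
  · unfold bc1_G
    rcases hρ with h | h
    · rw [if_pos (by omega), if_pos (by omega)]
    · rw [if_neg (by omega), if_pos (by omega), if_neg (by omega), if_pos h]
  · have h1 : ∀ ρ ∈ Ico r (2 * r), 32 * (ρ : ℝ) * (bc1_G r (ρ + 1) - bc1_G r ρ) ^ 2 ≤ 64 / r := by
      intro ρ hρ
      obtain ⟨k1, k2⟩ := mem_Ico.1 hρ
      rw [bc1_G_mid hr (by omega) (by omega), bc1_G_mid hr k1 k2.le]
      have k3 : (ρ : ℝ) ≤ 2 * r := by exact_mod_cast k2.le
      have e : ((2 * r - ((ρ + 1 : ℤ) : ℝ)) / r - (2 * r - ρ) / r) ^ 2 = 1 / r ^ 2 := by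
        push_cast
        field_simp
        ring
      rw [e, mul_one_div, div_le_div_iff₀ (by positivity) hr']
      nlinarith
    refine (sum_le_card_nsmul _ _ _ h1).trans ?_
    have h2 : ((#(Ico r (2 * r)) : ℕ) : ℝ) = r := by
      have : ((#(Ico r (2 * r)) : ℕ) : ℤ) = r := by
        rw [Int.card_Ico]
        omega
      exact_mod_cast this
    rw [nsmul_eq_mul, h2, mul_div_cancel₀ _ hr'.ne']

lemma bc1_fam (hβ : 0 ≤ β) (hS : LG q S) {c : V} {r : ℤ} (hr : 2 ≤ r)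
    (hΛ : bx c (2 * r - 1) ⊆ S.L) (𝒦 : Finset (Finset V)) :
    c0 β * Z β q S (fun u => ind (𝒦 ⊆ crs u.w c r)) ≤ Z β q S fun u => ind (crs u.w c r = 𝒦) := by
  have hsub : bc1_reg c r 𝒦 ⊆ S.L := (sdiff_subset.trans sdiff_subset).trans hΛ
  rw [← Z_mul]
  refine dlr hβ hS.grp.a01 (lc_in hS.ed hsub) fun u hu _ => ?_
  change Z β q (S.lc (bc1_reg c r 𝒦) u) _ ≤ Z β q (S.lc (bc1_reg c r 𝒦) u) _
  have hS' := hS.lc hsub hu
  rw [Z_mul]
  by_cases hex : ∃ u₀ ∈ Om q (S.lc (bc1_reg c r 𝒦) u), 𝒦 ⊆ crs u₀.w c r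
  swap
  · have e : Z β q (S.lc (bc1_reg c r 𝒦) u) (fun u => ind (𝒦 ⊆ crs u.w c r)) =
        Z β q (S.lc (bc1_reg c r 𝒦) u) fun _ => 0 :=
      Z_congr fun u' hu' _ => ind_neg fun h => hex ⟨u', hu', h⟩
    rw [e, Z_const, zero_mul, mul_zero]
    exact Z_nonneg hβ hS'.grp.a01 fun _ _ => ind_nonneg _
  obtain ⟨u₀, hu₀, h₀⟩ := hex
  have hk : ∀ u' ∈ Om q (S.lc (bc1_reg c r 𝒦) u),
      Clo (Ed (bc1_reg c r 𝒦)) (𝒦.biUnion id) u'.w → 𝒦 ⊆ crs u'.w c r := fun u' hu' hc =>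
    bc1_keep hr h₀ (fun e he => ((mem_Om_lc.1 hu').2.2.1 e he).trans
      ((mem_Om_lc.1 hu₀).2.2.1 e he).symm) hc
  have h1 := cut_explore hβ hS.pos hS'.grp (k := 𝒦.biUnion id)
    (Finset.disjoint_left.2 fun v hv hv' => (bc1_mem_reg.1 hv').2 hv)
    (fun v => if dd v c ≤ r then 1 else 0) (fun v => bc1_G r (dd v c)) fun e _ v _ hv hvX => by
      have h2 : ¬ (dd v c ≤ 2 * r - 1 ∧ ¬ dd v c ≤ r) := fun h' =>
        hv (bc1_mem_reg.2 ⟨h', hvX⟩)
      unfold bc1_G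
      by_cases h3 : dd v c ≤ r
      · simp only [if_pos h3, if_neg (one_ne_zero : (1 : ZMod 2) ≠ 0)]
      · simp only [if_neg h3, if_pos (show 2 * r ≤ dd v c by omega), if_true]
  have hE : (S.lc (bc1_reg c r 𝒦) u).E = Ed (bc1_reg c r 𝒦) := rfl
  have hL : (S.lc (bc1_reg c r 𝒦) u).L = bc1_reg c r 𝒦 := rfl
  have hsz := hS'.sz
  rw [hE] at hsz
  rw [hE, hL] at h1
  have hq : (1 : ℝ) ≤ q := by exact_mod_cast hS.pos
  have h4 : (#(Ed (bc1_reg c r 𝒦)) : ℝ) / q ^ 2 ≤ 1 := by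
    have : (#(Ed (bc1_reg c r 𝒦)) : ℝ) ≤ q := by exact_mod_cast hsz
    rw [div_le_one (by positivity)]
    nlinarith
  have h5 := bc1_en (bc1_reg c r 𝒦) (𝒦.biUnion id) c hr
  have h6 : c0 β ≤ exp (-(10 * β * (En (Ed (bc1_reg c r 𝒦)) (𝒦.biUnion id)
      (fun v => bc1_G r (dd v c)) + #(Ed (bc1_reg c r 𝒦)) / q ^ 2))) := by
    unfold c0
    exact exp_le_exp.2 (by nlinarith)
  have h7 : Z β q (S.lc (bc1_reg c r 𝒦) u) (fun u => ind (𝒦 ⊆ crs u.w c r)) ≤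
      Z β q (S.lc (bc1_reg c r 𝒦) u)
        fun u => ind (Clo (Ed (bc1_reg c r 𝒦)) (𝒦.biUnion id) u.w) :=
    Z_mono hβ hS'.grp.a01 fun u' _ _ => ind_mono bc1_clo
  have h8 : 0 ≤ Z β q (S.lc (bc1_reg c r 𝒦) u) (fun u => ind (𝒦 ⊆ crs u.w c r)) :=
    Z_nonneg hβ hS'.grp.a01 fun _ _ => ind_nonneg _
  refine (mul_le_mul h6 h7 h8 (exp_pos _).le).trans (h1.trans ?_)
  refine Z_mono hβ hS'.grp.a01 fun u' hu' _ => ?_
  rw [← ind_and]
  exact ind_mono fun h => bc1_eq hr (hk u' hu' h.2) h.1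

lemma crs_step (hβ : 0 ≤ β) (hS : LG q S) {c : V} {r : ℤ} (hr : 2 ≤ r)
    (hΛ : bx c (2 * r - 1) ⊆ S.L) (j : ℕ) :
    Z β q S (fun u => ind (j + 1 ≤ #(crs u.w c r))) ≤
      (1 - c0 β) * Z β q S fun u => ind (j ≤ #(crs u.w c r)) := by
  have h1 : Z β q S (fun u => ind (j ≤ #(crs u.w c r))) ≤
      ∑ 𝒦 ∈ powersetCard j (bx c (2 * r)).powerset,
        Z β q S fun u => ind (𝒦 ⊆ crs u.w c r) := by
    rw [← Z_sum]
    refine Z_mono hβ hS.grp.a01 fun u _ _ => ?_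
    refine (ind_mono fun h => ?_).trans (ind_exists_le _ _)
    obtain ⟨𝒦, k1, k2⟩ := exists_subset_card_eq h
    exact ⟨𝒦, mem_powersetCard.2 ⟨k1.trans (bc1_sub _ c r), k2⟩, k1⟩
  have h2 : ∑ 𝒦 ∈ powersetCard j (bx c (2 * r)).powerset,
      (Z β q S fun u => ind (crs u.w c r = 𝒦)) ≤
      Z β q S (fun u => ind (j ≤ #(crs u.w c r))) -
        Z β q S fun u => ind (j + 1 ≤ #(crs u.w c r)) := by
    rw [← Z_sum, ← Z_sub]
    refine Z_mono hβ hS.grp.a01 fun u _ _ => ?_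
    by_cases hm : crs u.w c r ∈ powersetCard j (bx c (2 * r)).powerset
    · have hj := (mem_powersetCard.1 hm).2
      rw [sum_eq_single_of_mem _ hm fun b _ hb => ind_neg hb.symm, ind_pos rfl,
        ind_pos hj.ge, ind_neg (by omega), sub_zero]
    · rw [sum_eq_zero fun b hb => ind_neg fun h : crs u.w c r = b => hm (h ▸ hb),
        sub_nonneg]
      exact ind_mono fun h => by omega
  have h3 := sum_le_sum fun 𝒦 (_ : 𝒦 ∈ powersetCard j (bx c (2 * r)).powerset) =>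
    bc1_fam hβ hS hr hΛ 𝒦
  rw [← mul_sum] at h3
  have h4 : 0 ≤ c0 β := (exp_pos _).le
  have h5 := mul_le_mul_of_nonneg_left h1 h4
  linarith

end

end Pool.Agent.XYU

end

section

open Finset Real Relation

namespace Pool.Agent.XYU

open Classical

noncomputable section

variable {β : ℝ} {q : ℕ} {S : Sys} {w w' : Es}

lemma bc2_pow (hβ : 0 ≤ β) (hS : LG q S) {c : V} {r : ℤ} (hr : 2 ≤ r)
    (hΛ : bx c (2 * r - 1) ⊆ S.L) (h1 : c0 β ≤ 1) (j : ℕ) :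
    Z β q S (fun u => ind (j ≤ #(crs u.w c r))) ≤ (1 - c0 β) ^ j * Z1 β q S := by
  induction j with
  | zero =>
    rw [pow_zero, one_mul]
    exact Z_mono hβ hS.grp.a01 fun u _ _ => ind_le_one _
  | succ j ih =>
    refine (crs_step hβ hS hr hΛ j).trans ?_
    rw [pow_succ', mul_assoc]
    exact mul_le_mul_of_nonneg_left ih (sub_nonneg.2 h1)

lemma crs_exp (hβ : 0 ≤ β) : ∃ a > 0, ∃ C ≥ (1 : ℝ), ∀ (q : ℕ) (c : V) (r : ℤ), 2 ≤ r →
    UB β q (bx c (2 * r - 1)) (fun u => exp (a * #(crs u.w c r))) C := by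
  have h0 : 0 < c0 β := exp_pos _
  have h1 : c0 β ≤ 1 := exp_le_one_iff.2 (by linarith)
  have h2 : c0 β ^ 2 ≤ 1 := pow_le_one₀ h0.le h1
  have h3 : 0 < c0 β ^ 2 := pow_pos h0 2
  refine ⟨log (1 + c0 β), log_pos (by linarith), (c0 β ^ 2)⁻¹, (one_le_inv₀ h3).2 h2,
    fun q c r hr S hS hΛ => ?_⟩
  have h4 : Z β q S (fun u => exp (log (1 + c0 β) * #(crs u.w c r))) ≤
      ∑ j ∈ range (#(bx c r) + 1),
        (1 + c0 β) ^ j * Z β q S fun u => ind (j ≤ #(crs u.w c r)) := by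
    simp only [← Z_mul]
    rw [← Z_sum]
    refine Z_mono hβ hS.grp.a01 fun u _ _ => ?_
    have hN : #(crs u.w c r) ∈ range (#(bx c r) + 1) :=
      mem_range.2 (Nat.lt_succ_of_le (card_image_le.trans (card_filter_le _ _)))
    refine le_trans ?_ (single_le_sum
      (f := fun j => (1 + c0 β) ^ j * ind (j ≤ #(crs u.w c r)))
      (fun j _ => mul_nonneg (by positivity) (ind_nonneg _)) hN)
    rw [ind_pos le_rfl, mul_one, mul_comm, exp_nat_mul, exp_log (by linarith)]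
  have h5 : ∀ j ∈ range (#(bx c r) + 1),
      ((1 + c0 β) ^ j * Z β q S fun u => ind (j ≤ #(crs u.w c r))) ≤
        (1 - c0 β ^ 2) ^ j * Z1 β q S := by
    intro j _
    refine (mul_le_mul_of_nonneg_left (bc2_pow hβ hS hr hΛ h1 j) (by positivity)).trans ?_
    rw [← mul_assoc, ← mul_pow]
    exact le_of_eq (by ring)
  refine h4.trans ((sum_le_sum h5).trans ?_)
  rw [← sum_mul]
  refine mul_le_mul_of_nonneg_right ?_ (Z1_nonneg hβ hS.grp.a01)
  have h6 := mul_neg_geom_sum (1 - c0 β ^ 2) (#(bx c r) + 1)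
  have h7 : 0 ≤ (1 - c0 β ^ 2) ^ (#(bx c r) + 1) := pow_nonneg (by linarith) _
  rw [← one_div, le_div_iff₀ h3]
  nlinarith

end

end Pool.Agent.XYU

end

section

open Finset Real Relation

namespace Pool.Agent.XYU

open Classical

noncomputable section

variable {β : ℝ} {q : ℕ} {S : Sys} {w w' : Es}

/-- centres of the tiling whose double boxes lie in the annulus -/
def ctr (r h : ℤ) : Finset (ℤ × ℤ) := (bx 0 (2 * r)).filter fun i =>
  bx ((2 * h + 1) * i.1, (2 * h + 1) * i.2) (2 * h) ⊆ ann r (2 * r)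

lemma bc3_dd {u v : V} {r : ℤ} :
    dd u v ≤ r ↔ u.1 - v.1 ≤ r ∧ v.1 - u.1 ≤ r ∧ u.2 - v.2 ≤ r ∧ v.2 - u.2 ≤ r := by
  simp only [dd, max_le_iff, and_assoc]

lemma bc3_nm {v : V} {r : ℤ} : nm v ≤ r ↔ v.1 ≤ r ∧ -v.1 ≤ r ∧ v.2 ≤ r ∧ -v.2 ≤ r := by
  simp only [nm, max_le_iff, and_assoc]

lemma bc3_tri (u v : V) : nm u ≤ nm v + dd u v ∧ nm v ≤ nm u + dd u v := by
  have h1 := dd_tri u v 0
  have h2 := dd_tri v u 0
  rw [dd_zero, dd_zero] at h1 h2
  rw [dd_comm v u] at h2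
  omega

lemma card_ctr {r h : ℤ} (hh : 1 ≤ h) (hr : h ≤ r) : (#(ctr r h) : ℤ) * h ^ 2 ≤ 16 * r ^ 2 := by
  have h0 : (0 : ℤ) < 2 * h + 1 := by omega
  obtain ⟨m, hm⟩ : ∃ m, m = (2 * r - 2 * h) / (2 * h + 1) := ⟨_, rfl⟩
  have h1 : 0 ≤ m := hm ▸ Int.ediv_nonneg (by omega) h0.le
  have h2 : m * (2 * h + 1) ≤ 2 * r - 2 * h := hm ▸ Int.ediv_mul_le _ h0.ne'
  have h3 : ∀ t : ℤ, (2 * h + 1) * t ≤ 2 * r - 2 * h → t ≤ m := fun t ht =>
    hm ▸ Int.le_ediv_of_mul_le h0 (by rwa [mul_comm])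
  have h4 : ctr r h ⊆ bx 0 m := by
    intro i hi
    have h5 := (mem_filter.1 hi).2
    have h6 := bc3_nm.1 (mem_ann.1 (h5 (x := ((2 * h + 1) * i.1 + 2 * h, (2 * h + 1) * i.2 + 2 * h))
      (mem_bx.2 (bc3_dd.2 (by dsimp only; omega))))).2
    have h7 := bc3_nm.1 (mem_ann.1 (h5 (x := ((2 * h + 1) * i.1 - 2 * h, (2 * h + 1) * i.2 - 2 * h))
      (mem_bx.2 (bc3_dd.2 (by dsimp only; omega))))).2
    dsimp only at h6 h7
    have h8 := h3 i.1 (by omega)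
    have h9 := h3 i.2 (by omega)
    have h10 := h3 (-i.1) (by rw [mul_neg]; omega)
    have h11 := h3 (-i.2) (by rw [mul_neg]; omega)
    exact mem_bx0.2 (bc3_nm.2 ⟨h8, h10, h9, h11⟩)
  have h5 : (#(ctr r h) : ℤ) ≤ (2 * m + 1) ^ 2 := by
    rw [← card_bx 0 h1]
    exact_mod_cast card_le_card h4
  have h6 : (2 * m + 1) * h ≤ 4 * r := by nlinarith
  calc (#(ctr r h) : ℤ) * h ^ 2 ≤ (2 * m + 1) ^ 2 * h ^ 2 := by gcongr
    _ = ((2 * m + 1) * h) ^ 2 := by ring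
    _ ≤ (4 * r) ^ 2 := by gcongr
    _ = 16 * r ^ 2 := by ring

lemma bc3_tile {h : ℤ} (hh : 1 ≤ h) (t : ℤ) :
    ∃ i, (2 * h + 1) * i - h ≤ t ∧ t ≤ (2 * h + 1) * i + h := by
  have h0 : (0 : ℤ) < 2 * h + 1 := by omega
  have h1 := Int.emod_add_mul_ediv (t + h) (2 * h + 1)
  have h2 := Int.emod_nonneg (t + h) h0.ne'
  have h3 := Int.emod_lt_of_pos (t + h) h0
  exact ⟨(t + h) / (2 * h + 1), by omega, by omega⟩

lemma bc3_abs {h i R : ℤ} (hh : 1 ≤ h) (hR : 0 ≤ R) (h1 : (2 * h + 1) * i ≤ R) : i ≤ R := by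
  by_contra h2
  nlinarith

lemma bc3_key {r h ρ : ℤ} (hh : 1 ≤ h) (h1 : r + 3 * h ≤ ρ) (h2 : ρ ≤ 2 * r - 3 * h) {p y : V}
    (hp : nm p = r) (hy : nm y = 2 * r) (hc : Cn w (ann r (2 * r)) p y) :
    ∃ i ∈ ctr r h, ∃ z, nm z = ρ ∧ Cn w (ann r (2 * r)) p z ∧
      dd z ((2 * h + 1) * i.1, (2 * h + 1) * i.2) ≤ h ∧
      cl w (bx ((2 * h + 1) * i.1, (2 * h + 1) * i.2) (2 * h)) z ∈
        crs w ((2 * h + 1) * i.1, (2 * h + 1) * i.2) h := by
  obtain ⟨z, hz, h3, h4⟩ := hc.first nm (r := ρ) (fun a b hab => hab.dd ▸ (bc3_tri a b).2)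
    (by omega) (by omega)
  obtain ⟨i, hi⟩ := bc3_tile hh z.1
  obtain ⟨j, hj⟩ := bc3_tile hh z.2
  have hz' := bc3_nm.1 hz.le
  have h5 : dd z ((2 * h + 1) * i, (2 * h + 1) * j) ≤ h := bc3_dd.2 (by dsimp only; omega)
  refine ⟨(i, j), mem_filter.2 ⟨?_, fun v hv => ?_⟩, z, hz,
    h3.mono Set.inter_subset_left fun _ _ _ _ _ h => h, h5, ?_⟩
  · have h6 := bc3_abs (i := i) (R := 2 * r) hh (by omega) (by omega)
    have h7 := bc3_abs (i := j) (R := 2 * r) hh (by omega) (by omega)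
    have h8 := bc3_abs (i := -i) (R := 2 * r) hh (by omega) (by rw [mul_neg]; omega)
    have h9 := bc3_abs (i := -j) (R := 2 * r) hh (by omega) (by rw [mul_neg]; omega)
    exact mem_bx0.2 (bc3_nm.2 ⟨h6, h8, h7, h9⟩)
  · rw [mem_bx] at hv
    dsimp only at hv
    generalize ((2 * h + 1) * i, (2 * h + 1) * j) = c at hv h5
    have h6 := bc3_tri v z
    have h7 := dd_tri v c z
    rw [dd_comm c z] at h7
    exact mem_ann.2 ⟨by omega, by omega⟩
  · dsimp only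
    generalize ((2 * h + 1) * i, (2 * h + 1) * j) = c at h5 ⊢
    have h8 := bc3_tri y c
    have h9 := bc3_tri z c
    obtain ⟨y', h6, h7, -⟩ := h4.first (fun v => dd v c) (r := 2 * h) (fun a b hab => by
      have h6 := dd_tri b a c
      rw [hab.symm.dd] at h6
      omega) (by omega) (by omega)
    exact mem_image_of_mem _ (mem_filter.2 ⟨mem_bx.2 h5, y', h6,
      h7.mono (fun v hv => mem_coe.2 (mem_bx.2 hv.2)) fun _ _ _ _ _ h => h⟩)

lemma cr_count {r h : ℤ} {n : ℕ} (hh : 1 ≤ h) (hr : 12 * h ≤ r) (hc : Cr w r n) :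
    (n : ℤ) * r ≤ 6 * h *
      ∑ i ∈ ctr r h, (#(crs w ((2 * h + 1) * i.1, (2 * h + 1) * i.2) h) : ℤ) := by
  obtain ⟨P, rfl, h1, h2⟩ := hc
  have h0 : (0 : ℤ) < 2 * h + 1 := by omega
  obtain ⟨m, hm⟩ : ∃ m, m = (r - 6 * h) / (2 * h + 1) := ⟨_, rfl⟩
  have m0 : 0 ≤ m := hm ▸ Int.ediv_nonneg (by omega) h0.le
  have m1 : m * (2 * h + 1) ≤ r - 6 * h := hm ▸ Int.ediv_mul_le _ h0.ne'
  have m2 : r - 6 * h < (m + 1) * (2 * h + 1) := hm ▸ Int.lt_ediv_add_one_mul_self _ h0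
  have key : ∀ x : V × ℤ, ∃ (i : V) (z : V), x ∈ P ×ˢ Icc 0 m → i ∈ ctr r h ∧
      nm z = r + 3 * h + x.2 * (2 * h + 1) ∧ Cn w (ann r (2 * r)) x.1 z ∧
      dd z ((2 * h + 1) * i.1, (2 * h + 1) * i.2) ≤ h ∧
      cl w (bx ((2 * h + 1) * i.1, (2 * h + 1) * i.2) (2 * h)) z ∈
        crs w ((2 * h + 1) * i.1, (2 * h + 1) * i.2) h := by
    intro x
    by_cases hx : x ∈ P ×ˢ Icc 0 m
    · obtain ⟨h3, h4⟩ := mem_product.1 hx
      obtain ⟨h5, h6⟩ := mem_Icc.1 h4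
      obtain ⟨h7, y, h8, h9⟩ := h1 _ h3
      have h10 : 0 ≤ x.2 * (2 * h + 1) := mul_nonneg h5 h0.le
      have h11 : x.2 * (2 * h + 1) ≤ m * (2 * h + 1) := by gcongr
      obtain ⟨i, hi, z, hz⟩ := bc3_key (ρ := r + 3 * h + x.2 * (2 * h + 1)) hh (by omega)
        (by omega) h7 h8 h9
      exact ⟨i, z, fun _ => ⟨hi, hz⟩⟩
    · exact ⟨0, 0, fun h => absurd h hx⟩
  choose I z hk using key
  have h3 : #(P ×ˢ Icc 0 m) ≤ #((ctr r h).sigma fun i =>
      crs w ((2 * h + 1) * i.1, (2 * h + 1) * i.2) h) := by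
    refine card_le_card_of_injOn (fun x => ⟨I x,
      cl w (bx ((2 * h + 1) * (I x).1, (2 * h + 1) * (I x).2) (2 * h)) (z x)⟩)
      (fun x hx => mem_coe.2 (mem_sigma.2 ⟨(hk x hx).1, (hk x hx).2.2.2.2⟩)) ?_
    intro x hx x' hx' he
    obtain ⟨a1, a2, a3, a4, -⟩ := hk x hx
    obtain ⟨-, b2, b3, b4, -⟩ := hk x' hx'
    obtain ⟨e1, e2⟩ := Sigma.mk.inj_iff.1 he
    have e3 := eq_of_heq e2
    rw [← e1] at e3 b4
    have e4 : z x' ∈ cl w (bx ((2 * h + 1) * (I x).1, (2 * h + 1) * (I x).2) (2 * h)) (z x) := by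
      rw [e3]
      exact mem_cl.2 ⟨mem_bx.2 (by omega), ReflTransGen.refl⟩
    have e5 : Cn w (ann r (2 * r)) (z x) (z x') :=
      (mem_cl.1 e4).2.mono (coe_subset.2 (mem_filter.1 a1).2) fun _ _ _ _ _ h => h
    refine Prod.ext (h2 _ (mem_product.1 hx).1 _ (mem_product.1 hx').1
      ((a3.trans e5).trans b3.symm)) ?_
    have e6 : x.2 * (2 * h + 1) - x'.2 * (2 * h + 1) ≤ 2 * h ∧
        x'.2 * (2 * h + 1) - x.2 * (2 * h + 1) ≤ 2 * h := by
      generalize ((2 * h + 1) * (I x).1, (2 * h + 1) * (I x).2) = c at a4 b4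
      have e7 := bc3_tri (z x) (z x')
      have e8 := dd_tri (z x) c (z x')
      rw [dd_comm c] at e8
      omega
    by_contra e7
    rcases lt_or_gt_of_ne e7 with e8 | e8 <;> nlinarith [e6.1, e6.2]
  rw [card_product, card_sigma, Int.card_Icc] at h3
  have h4 : (#P : ℤ) * (m + 1) ≤
      ∑ i ∈ ctr r h, (#(crs w ((2 * h + 1) * i.1, (2 * h + 1) * i.2) h) : ℤ) := by
    have h5 : ((m + 1 - 0).toNat : ℤ) = m + 1 := by omega
    rw [← h5]
    exact_mod_cast h3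
  have h5 : r ≤ 6 * h * (m + 1) := by nlinarith
  calc (#P : ℤ) * r ≤ #P * (6 * h * (m + 1)) := by gcongr
    _ = 6 * h * (#P * (m + 1)) := by ring
    _ ≤ _ := by gcongr

lemma bc3_dep {A : Finset V} {x y : V} (h : w ∩ Ei A = w' ∩ Ei A) (hc : Cn w A x y) :
    Cn w' A x y :=
  hc.mono subset_rfl fun _ _ ha hb hab hw =>
    (mem_inter.1 (h ▸ mem_inter.2 ⟨hw, mem_Ei.2 ⟨hab, ha, hb⟩⟩)).1

lemma cr_dep {r : ℤ} {n : ℕ} (h : w ∩ Ei (ann r (2 * r)) = w' ∩ Ei (ann r (2 * r)))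
    (hc : Cr w r n) : Cr w' r n := by
  obtain ⟨P, h1, h2, h3⟩ := hc
  refine ⟨P, h1, fun p hp => ?_, fun p hp p' hp' h4 => h3 p hp p' hp' (bc3_dep h.symm h4)⟩
  obtain ⟨h4, y, h5, h6⟩ := h2 p hp
  exact ⟨h4, y, h5, bc3_dep h h6⟩

end

end Pool.Agent.XYU

end

section

open Finset Real Relation

namespace Pool.Agent.XYU

open Classical

noncomputable section

variable {β : ℝ} {q : ℕ} {S : Sys} {w w' : Es}

/-- centre of the tile `i` -/
def bc4_c (h : ℤ) (i : ℤ × ℤ) : V := ((2 * h + 1) * i.1, (2 * h + 1) * i.2)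

/-- parity class -/
def bc4_cl (r h : ℤ) (t : ℤ × ℤ) : Finset (ℤ × ℤ) :=
  (ctr r h).filter fun i => (i.1 % 2, i.2 % 2) = t

lemma bc4_sub {r h : ℤ} (hr : 2 ≤ r) {c : V} (hc : bx c (2 * h) ⊆ ann r (2 * r)) :
    bx c (2 * h - 1) ⊆ ann (r + 1) (2 * r - 1) := by
  intro v hv
  rw [mem_bx] at hv
  have key : ∀ a b : ℤ, -1 ≤ a → a ≤ 1 → -1 ≤ b → b ≤ 1 →
      r ≤ nm (v.1 + a, v.2 + b) ∧ nm (v.1 + a, v.2 + b) ≤ 2 * r := by
    intro a b h1 h2 h3 h4
    refine mem_ann.1 (hc (mem_bx.2 ?_))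
    simp only [dd] at hv ⊢
    omega
  have k1 := (key 1 1 (by norm_num) le_rfl (by norm_num) le_rfl).2
  have k2 := (key (-1) (-1) le_rfl (by norm_num) le_rfl (by norm_num)).2
  have k3 := (key (if 0 ≤ v.1 then -1 else 1) (if 0 ≤ v.2 then -1 else 1)
    (by split_ifs <;> norm_num) (by split_ifs <;> norm_num) (by split_ifs <;> norm_num)
    (by split_ifs <;> norm_num)).1
  rw [mem_ann]
  simp only [nm] at k1 k2 k3 ⊢
  constructor
  · split_ifs at k3 <;> omega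
  · omega

lemma bc4_far {h a b : ℤ} (hh : 1 ≤ h) (hab : a ≠ b) (hp : a % 2 = b % 2) :
    4 * h + 2 ≤ (2 * h + 1) * a - (2 * h + 1) * b ∨
      4 * h + 2 ≤ (2 * h + 1) * b - (2 * h + 1) * a := by
  rcases lt_or_gt_of_ne hab with h1 | h1
  · right
    have : 2 ≤ b - a := by omega
    nlinarith
  · left
    have : 2 ≤ a - b := by omega
    nlinarith

lemma bc4_disj {h : ℤ} (hh : 1 ≤ h) {i j : ℤ × ℤ} (hij : j ≠ i)
    (hp : (j.1 % 2, j.2 % 2) = (i.1 % 2, i.2 % 2)) :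
    Disjoint (bx (bc4_c h j) (2 * h)) (bx (bc4_c h i) (2 * h - 1)) := by
  rw [disjoint_left]
  intro v h1 h2
  rw [mem_bx] at h1 h2
  simp only [dd, bc4_c] at h1 h2
  obtain ⟨p1, p2⟩ := Prod.mk.inj hp
  by_cases e1 : j.1 = i.1
  · have e2 : j.2 ≠ i.2 := fun e => hij (Prod.ext e1 e)
    have := bc4_far hh e2 p2
    omega
  · have := bc4_far hh e1 p1
    omega

/-- Chernoff product over one parity class -/
lemma bc4_prod (hβ : 0 ≤ β) {a C : ℝ} (hC : 1 ≤ C) {r h : ℤ} (hh : 2 ≤ h) (hr : 2 ≤ r)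
    (hU : ∀ c : V, UB β q (bx c (2 * h - 1)) (fun u => exp (a * #(crs u.w c h))) C)
    (hS : LG q S) (hΛ : ann (r + 1) (2 * r - 1) ⊆ S.L) (t : ℤ × ℤ) :
    Z β q S (fun u => ∏ i ∈ bc4_cl r h t, exp (a * #(crs u.w (bc4_c h i) h))) ≤
      C ^ #(ctr r h) * Z1 β q S := by
  have hsub : ∀ i ∈ bc4_cl r h t, bx (bc4_c h i) (2 * h - 1) ⊆ S.L := fun i hi =>
    (bc4_sub hr (mem_filter.1 (mem_filter.1 hi).1).2).trans hΛ
  have key := prod_le (q := q) hβ hS.grp.a01 (bc4_cl r h t)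
    (fun i => bx (bc4_c h i) (2 * h - 1)) (fun i => Ed (bx (bc4_c h i) (2 * h - 1)))
    (fun i u => exp (a * #(crs u.w (bc4_c h i) h))) (fun _ => 1) (fun _ => C)
    (fun _ _ => by linarith) (fun _ _ _ => (exp_pos _).le)
    (fun i hi => lc_in hS.ed (hsub i hi))
    (fun i hi j hj hji u _ u' hu' => by
      have hd : Dep (bx (bc4_c h j) (2 * h)) (Ei (bx (bc4_c h j) (2 * h)))
          fun u => exp (a * #(crs u.w (bc4_c h j) h)) := fun x y _ hw _ => by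
        simp only [crs_dep _ _ hw]
      exact Dep.lc (S := S) hd (bc4_disj (by omega) hji
        ((mem_filter.1 hj).2.trans (mem_filter.1 hi).2.symm)) hu')
    (fun i hi u hu => by
      simp only [mul_one]
      exact hU (bc4_c h i) (S.lc _ u) (hS.lc (hsub i hi) hu) Subset.rfl)
  simp only [mul_one, prod_const] at key
  refine key.trans (mul_le_mul_of_nonneg_right ?_ (Z1_nonneg hβ hS.grp.a01))
  exact pow_le_pow_right₀ hC (card_le_card (filter_subset _ _))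

/-- the event forces a large sum in one of the classes -/
lemma bc4_ind {a m : ℝ} (ha : 0 < a) {r h : ℤ} (w : Es) (p : Prop)
    (hp : p → 4 * m ≤ ∑ i ∈ ctr r h, (#(crs w (bc4_c h i) h) : ℝ)) :
    ind p ≤ ∑ t ∈ ({0, 1} : Finset ℤ) ×ˢ ({0, 1} : Finset ℤ),
      exp (-(a * m)) * ∏ i ∈ bc4_cl r h t, exp (a * #(crs w (bc4_c h i) h)) := by
  have hnn : ∀ t ∈ ({0, 1} : Finset ℤ) ×ˢ ({0, 1} : Finset ℤ),
      0 ≤ exp (-(a * m)) * ∏ i ∈ bc4_cl r h t, exp (a * #(crs w (bc4_c h i) h)) :=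
    fun t _ => mul_nonneg (exp_pos _).le (prod_nonneg fun _ _ => (exp_pos _).le)
  by_cases h0 : p
  · rw [ind_pos h0]
    have hf : ∑ t ∈ ({0, 1} : Finset ℤ) ×ˢ ({0, 1} : Finset ℤ),
        ∑ i ∈ bc4_cl r h t, (#(crs w (bc4_c h i) h) : ℝ) =
        ∑ i ∈ ctr r h, (#(crs w (bc4_c h i) h) : ℝ) := by
      refine sum_fiberwise_of_maps_to (g := fun i : ℤ × ℤ => (i.1 % 2, i.2 % 2)) ?_ _
      intro i _
      simp only [mem_product, mem_insert, mem_singleton]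
      omega
    obtain ⟨t, ht, hm⟩ := exists_le_of_sum_le
      (s := ({0, 1} : Finset ℤ) ×ˢ ({0, 1} : Finset ℤ)) (f := fun _ => m)
      (g := fun t => ∑ i ∈ bc4_cl r h t, (#(crs w (bc4_c h i) h) : ℝ))
      ⟨(0, 0), by simp⟩ (by
        rw [hf, sum_const, card_product]
        have := hp h0
        norm_num
        linarith)
    refine le_trans ?_ (single_le_sum hnn ht)
    rw [← exp_sum, ← exp_add, ← mul_sum]
    refine one_le_exp ?_
    have := mul_le_mul_of_nonneg_left hm ha.le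
    linarith
  · rw [ind_neg h0]
    exact sum_nonneg hnn

theorem cr_ub (hβ : 0 ≤ β) : ∃ c > 0, ∃ n₀ : ℕ, ∀ (q : ℕ) (r : ℤ) (n : ℕ), 1 ≤ r → n₀ ≤ n →
    UB β q (ann (r + 1) (2 * r - 1)) (fun u => ind (Cr u.w r n)) (exp (-(c * n ^ 2))) := by
  obtain ⟨a, ha, C, hC, hU⟩ := crs_exp (β := β) hβ
  have hL : 0 ≤ log C := log_nonneg hC
  obtain ⟨A, hA⟩ := exists_nat_ge (16 + 3072 * log C / a)
  have hA0 : 0 ≤ 3072 * log C / a := by positivity
  have hA16 : (16 : ℝ) ≤ A := by linarith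
  have hA16' : 16 ≤ A := by exact_mod_cast hA16
  have hAp : (0 : ℝ) < A := by linarith
  have hAl : 3072 * log C ≤ A * a := by
    rw [← div_le_iff₀ ha]
    linarith
  obtain ⟨N, hN⟩ := exists_nat_ge (192 * A / a)
  refine ⟨a / (96 * A), by positivity, 12 * A + N, fun q r n hr hn S hS hΛ => ?_⟩
  have hZ := Z1_nonneg (q := q) hβ hS.grp.a01
  by_cases h8 : 8 * r < n
  · refine le_trans (Z_mono (g := fun _ => 0) hβ hS.grp.a01 fun u _ _ => ?_) ?_
    · refine (ind_neg ?_).le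
      rintro ⟨P, hP, h1, -⟩
      have := card_sphere 0 hr (A := P) fun v hv => by rw [dd_zero]; exact (h1 v hv).1
      omega
    · rw [Z_const, zero_mul]
      positivity
  have hn0 : (0 : ℤ) < n := by omega
  have hnA : 12 * (A : ℤ) ≤ n := by omega
  have hA16z : (16 : ℤ) ≤ A := by omega
  obtain ⟨h, hh⟩ : ∃ h : ℤ, h = A * r / n := ⟨_, rfl⟩
  have h1 : h * n ≤ A * r := hh ▸ Int.ediv_mul_le _ hn0.ne'
  have h2 : A * r < (h + 1) * n := hh ▸ Int.lt_ediv_add_one_mul_self _ hn0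
  have hh2 : 2 ≤ h := by
    by_contra hlt
    have : h + 1 ≤ 2 := by omega
    nlinarith
  have h12 : 12 * h ≤ r := by
    by_contra hlt
    have : r < 12 * h := by omega
    nlinarith
  have h3 : A * r ≤ 2 * (h * n) := by nlinarith
  have hct := card_ctr (r := r) (h := h) (by omega) (by omega)
  have hnR : (0 : ℝ) < n := by exact_mod_cast hn0
  have hhR : (0 : ℝ) < h := by exact_mod_cast (by omega : (0 : ℤ) < h)
  have hrR : (0 : ℝ) < r := by exact_mod_cast (by omega : (0 : ℤ) < r)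
  have h1R : (h : ℝ) * n ≤ A * r := by exact_mod_cast h1
  have h3R : (A : ℝ) * r ≤ 2 * (h * n) := by exact_mod_cast h3
  have hctR : (#(ctr r h) : ℝ) * h ^ 2 ≤ 16 * r ^ 2 := by exact_mod_cast hct
  have hK : (#(ctr r h) : ℝ) * A ^ 2 ≤ 64 * n ^ 2 := by
    have e1 : ((A : ℝ) * r) ^ 2 ≤ (2 * (h * n)) ^ 2 := pow_le_pow_left₀ (by positivity) h3R 2
    have e2 : (#(ctr r h) : ℝ) * A ^ 2 * h ^ 2 ≤ 64 * n ^ 2 * h ^ 2 := by
      have := mul_le_mul_of_nonneg_right hctR (sq_nonneg (A : ℝ))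
      nlinarith
    exact le_of_mul_le_mul_right e2 (by positivity)
  have hind : ∀ u : UC, ind (Cr u.w r n) ≤ ∑ t ∈ ({0, 1} : Finset ℤ) ×ˢ ({0, 1} : Finset ℤ),
      exp (-(a * ((n : ℝ) ^ 2 / (24 * A)))) *
        ∏ i ∈ bc4_cl r h t, exp (a * #(crs u.w (bc4_c h i) h)) := fun u =>
    bc4_ind ha u.w _ fun hc => by
      have e0 := cr_count (h := h) (by omega) h12 hc
      have e1 : (n : ℝ) * r ≤ 6 * h * ∑ i ∈ ctr r h, (#(crs u.w (bc4_c h i) h) : ℝ) := by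
        exact_mod_cast e0
      have e2 : 4 * ((n : ℝ) ^ 2 / (24 * A)) = n ^ 2 / (6 * A) := by
        field_simp
        norm_num
      rw [e2, div_le_iff₀ (by positivity)]
      have e3 := mul_le_mul_of_nonneg_left e1 hAp.le
      have e4 := mul_le_mul_of_nonneg_left h1R hnR.le
      refine le_of_mul_le_mul_right ?_ hhR
      nlinarith
  refine le_trans (Z_mono hβ hS.grp.a01 fun u _ _ => hind u) ?_
  rw [Z_sum]
  refine le_trans (sum_le_sum (g := fun _ => exp (-(a * ((n : ℝ) ^ 2 / (24 * A)))) *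
    (C ^ #(ctr r h) * Z1 β q S)) fun t _ => ?_) ?_
  · rw [Z_mul]
    exact mul_le_mul_of_nonneg_left
      (bc4_prod hβ hC hh2 (by omega) (fun c => hU q c h hh2) hS hΛ t) (exp_pos _).le
  rw [sum_const, card_product, ← mul_assoc, nsmul_eq_mul, ← mul_assoc]
  refine mul_le_mul_of_nonneg_right ?_ hZ
  have hCp : C ^ #(ctr r h) = exp (#(ctr r h) * log C) := by
    rw [exp_nat_mul, exp_log (by linarith)]
  have hx : (2 : ℝ) ≤ a / (96 * A) * n ^ 2 := by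
    have e1 : (N : ℝ) ≤ n := by exact_mod_cast (by omega : N ≤ n)
    have e2 : (1 : ℝ) ≤ n := by exact_mod_cast (by omega : 1 ≤ n)
    have e3 : 192 * (A : ℝ) ≤ n * a := by
      rw [← div_le_iff₀ ha]
      linarith
    rw [div_mul_eq_mul_div, le_div_iff₀ (by positivity)]
    nlinarith [mul_le_mul_of_nonneg_left e2 (mul_pos hnR ha).le]
  have h4 : (4 : ℝ) ≤ exp (a / (96 * A) * n ^ 2) := by
    have e1 := add_one_le_exp (1 : ℝ)
    have e2 : exp 2 = exp 1 * exp 1 := by rw [← exp_add]; norm_num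
    have e3 := exp_le_exp.2 hx
    nlinarith
  have hy : (#(ctr r h) : ℝ) * log C ≤ 2 * (a / (96 * A) * n ^ 2) := by
    have e1 : 2 * (a / (96 * A) * (n : ℝ) ^ 2) = a * n ^ 2 / (48 * A) := by
      field_simp
      norm_num
    rw [e1, le_div_iff₀ (by positivity)]
    refine le_of_mul_le_mul_right ?_ hAp
    have e2 := mul_le_mul_of_nonneg_right hK hL
    have e3 := mul_le_mul_of_nonneg_right hAl (sq_nonneg (n : ℝ))
    nlinarith
  have hz : a * ((n : ℝ) ^ 2 / (24 * A)) = 4 * (a / (96 * A) * n ^ 2) := by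
    field_simp
    norm_num
  rw [hCp, hz, ← exp_add]
  have hc4 : ((#({0, 1} : Finset ℤ) * #({0, 1} : Finset ℤ) : ℕ) : ℝ) = 4 := by norm_num
  rw [hc4]
  refine le_trans (mul_le_mul_of_nonneg_right h4 (exp_pos _).le) ?_
  rw [← exp_add, exp_le_exp]
  linarith

end

end Pool.Agent.XYU

end

section

open Finset Real Relation

namespace Pool.Agent.XYU

open Classical

noncomputable section

variable {β : ℝ} {q : ℕ} {S : Sys} {w w' : Es}

lemma bc_lip (a b : V) (h : Adj a b) : nm b ≤ nm a + 1 := by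
  have h1 := dd_tri b a 0
  rw [dd_zero, dd_zero, h.symm.dd] at h1
  omega

lemma bc_img {P : Finset V} {A B : Set V} (hB : B ⊆ A) {Q : V → Prop}
    (h1 : ∀ p ∈ P, ∃ z, Q z ∧ Cn w A p z) (h2 : ∀ p ∈ P, ∀ p' ∈ P, Cn w A p p' → p = p') :
    ∃ P' : Finset V, #P' = #P ∧ (∀ z ∈ P', Q z) ∧ ∀ z ∈ P', ∀ z' ∈ P', Cn w B z z' → z = z' := by
  choose! f hf hf' using h1
  have h3 : ∀ p ∈ P, ∀ p' ∈ P, Cn w A (f p) (f p') → p = p' := fun p hp p' hp' h =>
    h2 p hp p' hp' (Cn.trans (Cn.trans (hf' p hp) h) (Cn.symm (hf' p' hp')))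
  refine ⟨P.image f, card_image_of_injOn fun p hp p' hp' h => h3 p hp p' hp' ?_, ?_, ?_⟩
  · rw [h]
    exact ReflTransGen.refl
  · intro z hz
    obtain ⟨p, hp, rfl⟩ := mem_image.1 hz
    exact hf p hp
  · intro z hz z' hz' h
    obtain ⟨p, hp, rfl⟩ := mem_image.1 hz
    obtain ⟨p', hp', rfl⟩ := mem_image.1 hz'
    rw [h3 p hp p' hp' (Cn.mono h hB fun _ _ _ _ _ h => h)]

lemma mge_cr {L ρ r : ℤ} {n : ℕ} (h : Mge w L ρ n) (hρ : ρ < r) (hL : 2 * r ≤ L + 1) :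
    Cr w r n := by
  obtain ⟨P, rfl, h1, h2⟩ := h
  refine bc_img (A := {v | ρ < nm v}) (fun v hv => ?_) (fun p hp => ?_) h2
  · exact hρ.trans_le (mem_ann.1 (mem_coe.1 hv)).1
  · obtain ⟨a1, y, a2, a3⟩ := h1 p hp
    have a0 := dd_nonneg p 0
    rw [dd_zero] at a0
    obtain ⟨z, b1, b2, -⟩ := Cn.first nm bc_lip (r := 2 * r) a3 (by omega) (by omega)
    obtain ⟨x, c1, c2, c3⟩ := Cn.last nm bc_lip (r := r) b2 (by omega) (by omega)
    exact ⟨x, ⟨c1, z, b1, Cn.mono c3 (fun v hv => mem_coe.2 (mem_ann.2 ⟨hv.2, hv.1.2⟩))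
      fun _ _ _ _ _ h => h⟩, Cn.mono c2 Set.inter_subset_left fun _ _ _ _ _ h => h⟩

lemma mge_card {L ρ : ℤ} {n : ℕ} (h : Mge w L ρ n) (hρ : 0 ≤ ρ) : (n : ℤ) ≤ 8 * (ρ + 1) := by
  obtain ⟨P, rfl, h1, -⟩ := h
  exact card_sphere 0 (by omega) fun v hv => by rw [dd_zero, (h1 v hv).1]

lemma mge_dep {L ρ : ℤ} {n : ℕ} (h : Mge w L ρ n) (hw : ∀ e ∉ Ed (bx 0 ρ), e ∈ w' ↔ e ∈ w) :
    Mge w' L ρ n := by
  obtain ⟨P, h0, h1, h2⟩ := h
  have a : ∀ a b : V, a ∈ {v | ρ < nm v} → b ∈ {v | ρ < nm v} → (s(a, b) ∈ w' ↔ s(a, b) ∈ w) :=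
    fun a b ha hb => hw _ fun h => (mem_Ed.1 h).2.elim
      (fun h => absurd (mem_bx0.1 h) (not_le.2 ha)) fun h => absurd (mem_bx0.1 h) (not_le.2 hb)
  refine ⟨P, h0, fun p hp => ?_, fun p hp p' hp' h =>
    h2 p hp p' hp' (Cn.mono h subset_rfl fun x y hx hy _ => (a x y hx hy).1)⟩
  obtain ⟨a1, y, a2, a3⟩ := h1 p hp
  exact ⟨a1, y, a2, Cn.mono a3 subset_rfl fun x y hx hy _ => (a x y hx hy).2⟩

lemma mge_mono {L ρ ρ' : ℤ} {n : ℕ} (h : Mge w L ρ n) (hρ : ρ ≤ ρ') (hL : ρ' ≤ L) :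
    Mge w L ρ' n := by
  obtain ⟨P, rfl, h1, h2⟩ := h
  refine bc_img (A := {v | ρ < nm v}) (fun v hv => hρ.trans_lt hv) (fun p hp => ?_) h2
  obtain ⟨a1, y, a2, a3⟩ := h1 p hp
  obtain ⟨x, c1, c2, c3⟩ := Cn.last nm bc_lip (r := ρ' + 1) a3 (by omega) (by omega)
  exact ⟨x, ⟨c1, y, a2, Cn.mono c3 (fun v hv => Int.add_one_le_iff.1 hv.2)
    fun _ _ _ _ _ h => h⟩, c2⟩

end

end Pool.Agent.XYU

end
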