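import Pool.Agent.MP_b591f0_mp.Mg.XY_B2

-- part MP_b591f0_mp.XY.B3
section

section

open Finset Real Relation

namespace Pool.Agent.XYU

open Classical

noncomputable section

/-! Crude gluing: filling a box whose outside carries few labelled clusters costs a power of
its size.
`ub_prod`, `lb_prod`: `prod_le`, `prod_ge` with `G = 1`, `Dep.lc`, `LG.lc`.
`side_count`: if three points `u₁ < u₂ < u₃` of the set have the same class, apply `pl_ext` with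
`P = N`, `Q = O \ N`, and `(a, b, c, c') = (u₁, u₂, u₂ - 1, u₃ - 1)` for `d = -1`,
`(u₂, u₃, u₂ + 1, u₁ + 1)` for `d = 1`; so each fibre of `κ` has at most two points
(`Finset.card_le_mul_card_image`).
`labels`: `O = {ρ < nm}`, `N = {v | ρ < nm v ≤ L + 1, ∃ y, L < nm y, Cn w O v y, σ₀ y = 1}`. Put
`lam v = σ₀ v` if `L < nm v`; else `0` if `v ∉ N` and `Lc (O \ N) v z` for some `z` with
`L + 1 < nm z`; else `1`. For `nm v = L + 1` both rules agree (`Cn.eq` with `σ`). If two adjacent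
points of the sphere `ρ + 1` have different labels, the one with label `1` lies in `N`. Classes:
`κ = cl w (ann (ρ+1) (L+1))`; at most `K` classes meet the sphere, else `Mge w L ρ (K+1)` (pick one
point in each class). Use `side_count` in the four frames `fr o d` that send the segment
`0 ≤ x ≤ 2ρ+2`, `y = 0` to a side of the sphere with the box on the negative side (e.g.
`fr (-ρ-1, ρ+1) 0` for the top side); pairs that touch a corner add at most `16` points.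
`zones`: `Zs` = transition points of both labels and the four corners; `D x = min dd x z` over
`Zs`, `d x = ρ + 1 - nm x ≤ D x`, `u = d / D` (real, `0/0 = 0`), both `d`, `D` change by at most
one along an edge, so `|u x - u y| ≤ 2 / D y`. `X = {x ∈ Λ | D x ≤ 200}`,
`R = {x ∈ Λ \ X | 1/10 < u < 3/10}`, `R' = {x ∈ Λ \ X | 1/50 < u < 1/12}`. `μ x = 1` if some point
`p` of the sphere with `lam p = 1` has `2 * dd x p ≤ D x`, else `0`; `χ = μ * h (u)` with `h`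
equal to `1` below `1/8`, `0` above `1/4`, linear between (blue: `1/32`, `1/16`). Ball fact: two
points of the sphere within `D x / 2` of `x` lie on one side (no corner in the ball, and
`D x ≤ ρ + 1`), the segment between them contains no point of `Zs`, so they have the same label;
hence `μ x = μ y` along an edge as soon as `4 d x ≤ D x` or `4 d y ≤ D y`. So
`|χ x - χ y| ≤ 128 / D x` along edges from `Λ \ X` that avoid `X`. Energy:
`∑ 1 / D x ^ 2 ≤ ∑_z ∑_{r ≤ 2ρ+1} 8 r / r ^ 2` (`card_sphere`, harmonic sum at most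
`1 + log`). `σ₁ v = lam v` off `Λ`, and `[χ v = 1]` on `Λ`.
`two_zone`: condition on the outside of `R` (`dlr`, `cut`; the blue event is frozen), then on the
outside of `R'` (`cut` for the swapped system, `Z_sw`).
`crude`: `Z_GS_lc`, `wt_ne`, `labels` for both colours, `zones`, `rem` (at most `4 #X` edges
touch `X`), `two_zone` in the system with `X` removed, whose states of nonzero weight have no open
edge at `X` (`wt_ne`). `transfer`: `dlr` on `bx 0 ρ`, `mge_dep`, `Z_GS_lc`, `crude`. -/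

variable {β : ℝ} {q : ℕ} {S : Sys} {w : Es} {f : UC → ℝ}

lemma ub_prod (hβ : 0 ≤ β) {ι : Type*} (s : Finset ι) {Λ : Finset V} (L A : ι → Finset V)
    (F : ι → UC → ℝ) (p : ι → ℝ) (hp : ∀ i ∈ s, 0 ≤ p i) (h0 : ∀ i ∈ s, ∀ u, 0 ≤ F i u)
    (hL : ∀ i ∈ s, L i ⊆ Λ) (hD : ∀ i ∈ s, Dep (A i) (Ei (A i)) (F i))
    (hd : ∀ i ∈ s, ∀ j ∈ s, j ≠ i → Disjoint (A j) (L i)) (h : ∀ i ∈ s, UB β q (L i) (F i) (p i)) :
    UB β q Λ (fun u => ∏ i ∈ s, F i u) (∏ i ∈ s, p i) := by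
  intro S hS hΛ
  have key := prod_le (q := q) hβ hS.grp.a01 s L (fun i => Ed (L i)) F (fun _ => 1) p hp h0
    (fun i hi => lc_in hS.ed ((hL i hi).trans hΛ))
    (fun i hi j hj hji u _ u' hu' => Dep.lc (S := S) (hD j hj) (hd i hi j hj hji) hu')
    (fun i hi u hu => by
      have := h i hi (S.lc (L i) u) (hS.lc ((hL i hi).trans hΛ) hu) Subset.rfl
      simp only [mul_one]
      exact this)
  simp only [mul_one] at key
  exact key

/-- lower bound with a common factor `G` that lives away from the regions -/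
lemma lb_prod (hβ : 0 ≤ β) (hS : LG q S) {ι : Type*} (s : Finset ι) (L A : ι → Finset V)
    (F : ι → UC → ℝ) (p : ι → ℝ) (hp : ∀ i ∈ s, 0 ≤ p i) (h0 : ∀ i ∈ s, ∀ u, 0 ≤ F i u)
    (hL : ∀ i ∈ s, L i ⊆ S.L) (hD : ∀ i ∈ s, Dep (A i) (Ei (A i)) (F i))
    (hd : ∀ i ∈ s, ∀ j ∈ s, j ≠ i → Disjoint (A j) (L i)) (h : ∀ i ∈ s, LB β q (L i) (F i) (p i))
    {B : Finset V} {G : UC → ℝ} (hG0 : ∀ u, 0 ≤ G u) (hG : Dep B (Ei B) G)
    (hB : ∀ i ∈ s, Disjoint B (L i)) :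
    (∏ i ∈ s, p i) * Z β q S G ≤ Z β q S fun u => (∏ i ∈ s, F i u) * G u := by
  refine prod_ge (q := q) hβ hS.grp.a01 s L (fun i => Ed (L i)) F G p hp h0
    (fun i hi => lc_in hS.ed (hL i hi))
    (fun i hi j hj hji u _ u' hu' => Dep.lc (S := S) (hD j hj) (hd i hi j hj hji) hu')
    (fun i hi u hu => ?_)
  have h1 := h i hi (S.lc (L i) u) (hS.lc (hL i hi) hu) Subset.rfl
  have h2 : Z β q (S.lc (L i) u) G = G u * Z1 β q (S.lc (L i) u) := by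
    rw [← Z_const]
    exact Z_congr fun u' hu' _ => Dep.lc hG (hB i hi) hu'
  have h3 : Z β q (S.lc (L i) u) (fun u' => F i u' * G u') =
      G u * Z β q (S.lc (L i) u) (F i) := by
    rw [← Z_mul]
    exact Z_congr fun u' hu' _ => by rw [Dep.lc hG (hB i hi) hu', mul_comm]
  show p i * Z β q (S.lc (L i) u) G ≤ Z β q (S.lc (L i) u) (fun u' => F i u' * G u')
  rw [h2, h3, mul_left_comm]
  exact mul_le_mul_of_nonneg_left h1 (hG0 u)

lemma side_count {ι : Type*} {O N : Set V} {l L R B T d : ℤ} (hd : d = 1 ∨ d = -1)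
    (hO : ∀ t, 0 < t → t < l → (t, -1) ∉ O) (hN : N ⊆ O)
    (hb : ∀ z ∈ N, L ≤ z.1 ∧ z.1 ≤ R ∧ B ≤ z.2 ∧ z.2 ≤ T) (κ : ℤ → ι) (s : Finset ι)
    (hκ : ∀ t t', (t, 0) ∈ N → (t', 0) ∈ N → κ t = κ t' → Lc N (t, 0) (t', 0)) (A : Finset ℤ)
    (hA : ∀ t ∈ A, 0 < t ∧ t < l ∧ 0 < t + d ∧ t + d < l ∧ (t, 0) ∈ N ∧ κ t ∈ s ∧
      (t + d, 0) ∈ O \ N ∧ ∃ z : V, Lc (O \ N) (t + d, 0) z ∧
        (z.1 < L ∨ R < z.1 ∨ z.2 < B ∨ T < z.2)) : #A ≤ 2 * #s := by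
  have three : ∀ u₁ ∈ A, ∀ u₂ ∈ A, ∀ u₃ ∈ A, u₁ < u₂ → u₂ < u₃ → κ u₁ = κ u₂ → κ u₂ = κ u₃ →
      False := by
    intro u₁ h₁ u₂ h₂ u₃ h₃ h12 h23 k12 k23
    obtain ⟨a1, a2, a3, a4, a5, -, a7, za, a8, a9⟩ := hA u₁ h₁
    obtain ⟨b1, b2, b3, b4, b5, -, b7, zb, b8, b9⟩ := hA u₂ h₂
    obtain ⟨c1, c2, c3, c4, c5, -, c7, zc, c8, c9⟩ := hA u₃ h₃
    have hrow : ∀ t, 0 < t → t < l → (t, (-1 : ℤ)) ∉ N ∧ (t, (-1 : ℤ)) ∉ O \ N :=
      fun t h1 h2 => ⟨fun h => hO t h1 h2 (hN h), fun h => hO t h1 h2 h.1⟩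
    have ne : ∀ x y : ℤ, (x, (0 : ℤ)) ∈ N → (y, (0 : ℤ)) ∈ O \ N → x ≠ y := by
      rintro x y hx hy rfl
      exact hy.2 hx
    rcases hd with rfl | rfl
    · have n1 := ne _ _ c5 b7
      have n2 := ne _ _ b5 a7
      exact pl_ext (x0 := 0) (x1 := l) hb (hκ _ _ b5 c5 k23) (by omega) (by omega)
        (Or.inl (by omega)) (by omega) hrow (fun z hz => hz.2) b7 a7 b8 a8 b9 a9
    · have n1 := ne _ _ a5 b7
      have n2 := ne _ _ b5 c7
      exact pl_ext (x0 := 0) (x1 := l) hb (hκ _ _ a5 b5 k12) (by omega) (by omega)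
        (Or.inr (by omega)) (by omega) hrow (fun z hz => hz.2) b7 c7 b8 c8 b9 c9
  refine card_le_mul_card_image_of_maps_to (f := κ) (fun t ht => (hA t ht).2.2.2.2.2.1) 2
    fun k _ => ?_
  by_contra hc
  obtain ⟨x, hx, y, hy, z, hz, hxy, hxz, hyz⟩ := two_lt_card.1 (not_le.1 hc)
  rw [mem_filter] at hx hy hz
  have exy : κ x = κ y := hx.2.trans hy.2.symm
  have exz : κ x = κ z := hx.2.trans hz.2.symm
  have eyz : κ y = κ z := hy.2.trans hz.2.symm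
  rcases lt_or_gt_of_ne hxy with h1 | h1 <;> rcases lt_or_gt_of_ne hxz with h2 | h2 <;>
    rcases lt_or_gt_of_ne hyz with h3 | h3
  · exact three x hx.1 y hy.1 z hz.1 h1 h3 exy eyz
  · exact three x hx.1 z hz.1 y hy.1 h2 h3 exz eyz.symm
  · omega
  · exact three z hz.1 x hx.1 y hy.1 h2 h1 exz.symm exy
  · exact three y hy.1 x hx.1 z hz.1 h1 h2 exy.symm exz
  · omega
  · exact three y hy.1 z hz.1 x hx.1 h3 h2 eyz exz.symm
  · exact three z hz.1 y hy.1 x hx.1 h3 h1 eyz.symm exy.symm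

end

end Pool.Agent.XYU

end

section

open Finset Real Relation

namespace Pool.Agent.XYU

open Classical

noncomputable section

variable {β : ℝ} {q : ℕ} {S : Sys} {w : Es} {f : UC → ℝ}

/-- points of the sphere `ρ + 1` next to a change of label -/
def Tr (ρ : ℤ) (lam : Fld) : Finset V := (ann (ρ + 1) (ρ + 1)).filter fun p =>
  ∃ p', nm p' = ρ + 1 ∧ Adj p p' ∧ lam p ≠ lam p'

/-- outer region -/
def bd2O (ρ : ℤ) : Set V := {v | ρ < nm v}

/-- points joined to a boundary point with label `1` -/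
def bd2N (w : Es) (L ρ : ℤ) (σ₀ : Fld) : Set V :=
  {v | ρ < nm v ∧ nm v ≤ L + 1 ∧ ∃ y, L < nm y ∧ Cn w (bd2O ρ) v y ∧ σ₀ y = 1}

/-- points that see infinity outside `bd2N` -/
def bd2F (w : Es) (L ρ : ℤ) (σ₀ : Fld) (v : V) : Prop :=
  v ∈ bd2O ρ \ bd2N w L ρ σ₀ ∧ ∃ z, L + 1 < nm z ∧ Lc (bd2O ρ \ bd2N w L ρ σ₀) v z

lemma bd2_lc_pull {F : V ≃ V} (hF : IsFr F) {P : Set V} {a b : V} (h : Lc P a b) :
    Lc (F ⁻¹' P) (F.symm a) (F.symm b) := by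
  induction h with
  | refl => exact ReflTransGen.refl
  | tail _ h2 ih =>
    exact ih.tail ⟨by simpa using h2.1, by simpa using h2.2.1, (hF.symm.adj _ _).2 h2.2.2⟩

lemma bd2_adj_nm {a b : V} (h : Adj a b) : nm b ≤ nm a + 1 := by
  unfold Adj at h; unfold nm; omega

lemma bd2_edge {L : ℤ} (hw : w ⊆ Ed (bx 0 L)) {a b : V} (h : s(a, b) ∈ w) :
    Adj a b ∧ nm a ≤ L + 1 ∧ nm b ≤ L + 1 := by
  obtain ⟨h1, h2⟩ := mem_Ed.1 (hw h)
  have h3 := bd2_adj_nm h1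
  have h4 := bd2_adj_nm h1.symm
  rw [mem_bx0, mem_bx0] at h2
  exact ⟨h1, by omega, by omega⟩

lemma bd2_cnN {L ρ : ℤ} (hw : w ⊆ Ed (bx 0 L)) {σ₀ : Fld} {p v : V}
    (hp : p ∈ bd2N w L ρ σ₀) (h : Cn w (bd2O ρ) p v) : v ∈ bd2N w L ρ σ₀ := by
  obtain ⟨h1, h2, y, hy, hc, h1y⟩ := hp
  refine ⟨h.mem h1, ?_, y, hy, h.symm.trans hc, h1y⟩
  exact h.closed (N := {v | nm v ≤ L + 1}) h2 fun a b _ _ _ _ hab => (bd2_edge hw hab).2.2

lemma bd2_F_step {L ρ : ℤ} {σ₀ : Fld} {a b : V} (hb : bd2F w L ρ σ₀ b) (hab : Adj a b)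
    (ha : a ∈ bd2O ρ \ bd2N w L ρ σ₀) : bd2F w L ρ σ₀ a := by
  obtain ⟨h1, z, hz, hl⟩ := hb
  exact ⟨ha, z, hz, ReflTransGen.head ⟨ha, h1, hab⟩ hl⟩

/-- the classes of the points of the sphere in `bd2N` -/
def bd2S (w : Es) (L ρ : ℤ) (σ₀ : Fld) : Finset (Set V) :=
  ((ann (ρ + 1) (ρ + 1)).filter fun p => p ∈ bd2N w L ρ σ₀).image
    fun p => {v | Cn w (bd2O ρ) p v}

lemma bd2_card_S {L ρ : ℤ} {K : ℕ} (σ₀ : Fld) (hK : ¬ Mge w L ρ (K + 1)) :
    #(bd2S w L ρ σ₀) ≤ K := by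
  by_contra hlt
  obtain ⟨s', hs', hcard⟩ := exists_subset_card_eq (s := bd2S w L ρ σ₀) (n := K + 1) (by omega)
  obtain ⟨u, hu, hinj, him⟩ := Finset.exists_subset_injOn_image_eq_of_surjOn
    (f := fun p : V => {v | Cn w (bd2O ρ) p v})
    {p | nm p = ρ + 1 ∧ p ∈ bd2N w L ρ σ₀} s' (by
      intro c hc
      obtain ⟨p, hp, rfl⟩ := mem_image.1 (hs' hc)
      obtain ⟨h1, h2⟩ := mem_filter.1 hp
      rw [mem_ann] at h1
      exact ⟨p, ⟨by omega, h2⟩, rfl⟩)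
  refine hK ⟨u, ?_, fun p hp => ?_, fun p hp p' hp' h => ?_⟩
  · rw [← hcard, ← him, card_image_of_injOn hinj]
  · obtain ⟨h1, -, -, y, hy, hc, -⟩ := hu hp
    exact ⟨h1, y, hy, hc⟩
  · refine hinj hp hp' ?_
    ext v
    exact ⟨fun hv => Cn.trans (Cn.symm h) hv, fun hv => Cn.trans h hv⟩

lemma bd2_side {L ρ d : ℤ} {K : ℕ} (hρ : 1 ≤ ρ) (hw : w ⊆ Ed (bx 0 L)) (σ₀ : Fld)
    (hK : ¬ Mge w L ρ (K + 1)) {F : V ≃ V} (hF : IsFr F) (h0 : F (ρ + 1, -ρ - 1) = 0)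
    (hd : d = 1 ∨ d = -1) :
    #((Ioo 0 (2 * ρ + 2)).filter fun t => 0 < t + d ∧ t + d < 2 * ρ + 2 ∧
      F (t, 0) ∈ bd2N w L ρ σ₀ ∧ bd2F w L ρ σ₀ (F (t + d, 0))) ≤ 2 * K := by
  have hnm : ∀ v : V, nm (F v) = dd v (ρ + 1, -ρ - 1) := fun v => by
    rw [← dd_zero, ← h0, hF.dd]
  refine le_trans (side_count (O := F ⁻¹' bd2O ρ) (N := F ⁻¹' bd2N w L ρ σ₀) (l := 2 * ρ + 2)
    (L := ρ - L) (R := ρ + L + 2) (B := -L - ρ - 2) (T := L - ρ) hd ?_ ?_ ?_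
    (fun t => {v | Cn w (bd2O ρ) (F (t, 0)) v}) (bd2S w L ρ σ₀) ?_ _ ?_)
    (Nat.mul_le_mul_left 2 (bd2_card_S σ₀ hK))
  · intro t h1 h2 h
    have h3 : ρ < nm (F (t, -1)) := h
    rw [hnm] at h3
    unfold XYU.dd at h3
    simp only at h3
    omega
  · intro v hv
    exact hv.1
  · intro z hz
    have h3 : nm (F z) ≤ L + 1 := hz.2.1
    rw [hnm] at h3
    unfold XYU.dd at h3
    simp only at h3
    omega
  · intro t t' ht ht' he
    have h1 : F (t', 0) ∈ {v | Cn w (bd2O ρ) (F (t, 0)) v} := by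
      have h2 : F (t', 0) ∈ {v | Cn w (bd2O ρ) (F (t', 0)) v} := ReflTransGen.refl
      rw [he]; exact h2
    have h2 : Lc (bd2N w L ρ σ₀) (F (t, 0)) (F (t', 0)) :=
      (Cn.lc h1).mono fun v hv => bd2_cnN hw ht hv.2
    simpa using bd2_lc_pull hF h2
  · intro t ht
    obtain ⟨h1, h2, h3, h4, h5, z, hz, hl⟩ := mem_filter.1 ht
    rw [mem_Ioo] at h1
    refine ⟨h1.1, h1.2, h2, h3, h4, ?_, h5, F.symm z, ?_, ?_⟩
    · refine mem_image.2 ⟨F (t, 0), mem_filter.2 ⟨?_, h4⟩, rfl⟩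
      rw [mem_ann, hnm]
      unfold XYU.dd
      simp only
      omega
    · simpa using bd2_lc_pull hF hl
    · have h6 := hnm (F.symm z)
      rw [F.apply_symm_apply] at h6
      rw [h6] at hz
      unfold XYU.dd at hz
      simp only at hz
      omega

lemma bd2_frame {L ρ : ℤ} {K : ℕ} (hρ : 1 ≤ ρ) (hw : w ⊆ Ed (bx 0 L)) (σ₀ : Fld)
    (hK : ¬ Mge w L ρ (K + 1)) {F : V ≃ V} (hF : IsFr F) (h0 : F (ρ + 1, -ρ - 1) = 0) :
    ∃ B : Finset V, #B ≤ 8 * K ∧ ∀ t t' : ℤ, 0 < t → t < 2 * ρ + 2 → 0 < t' → t' < 2 * ρ + 2 →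
      (t' = t + 1 ∨ t' = t - 1) → F (t, 0) ∈ bd2N w L ρ σ₀ → bd2F w L ρ σ₀ (F (t', 0)) →
        F (t, 0) ∈ B ∧ F (t', 0) ∈ B := by
  have h1 := bd2_side hρ hw σ₀ hK hF h0 (d := 1) (Or.inl rfl)
  have h2 := bd2_side hρ hw σ₀ hK hF h0 (d := -1) (Or.inr rfl)
  set A₁ := (Ioo 0 (2 * ρ + 2)).filter fun t => 0 < t + 1 ∧ t + 1 < 2 * ρ + 2 ∧
      F (t, 0) ∈ bd2N w L ρ σ₀ ∧ bd2F w L ρ σ₀ (F (t + 1, 0)) with hA₁
  set A₂ := (Ioo 0 (2 * ρ + 2)).filter fun t => 0 < t + -1 ∧ t + -1 < 2 * ρ + 2 ∧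
      F (t, 0) ∈ bd2N w L ρ σ₀ ∧ bd2F w L ρ σ₀ (F (t + -1, 0)) with hA₂
  refine ⟨(A₁.image (fun t => F (t, 0)) ∪ A₁.image (fun t => F (t + 1, 0))) ∪
    (A₂.image (fun t => F (t, 0)) ∪ A₂.image (fun t => F (t + -1, 0))), ?_, ?_⟩
  · have a1 := card_image_le (s := A₁) (f := fun t => F (t, 0))
    have a2 := card_image_le (s := A₁) (f := fun t => F (t + 1, 0))
    have a3 := card_image_le (s := A₂) (f := fun t => F (t, 0))
    have a4 := card_image_le (s := A₂) (f := fun t => F (t + -1, 0))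
    refine (card_union_le _ _).trans ?_
    have b1 := card_union_le (A₁.image (fun t => F (t, 0))) (A₁.image (fun t => F (t + 1, 0)))
    have b2 := card_union_le (A₂.image (fun t => F (t, 0))) (A₂.image (fun t => F (t + -1, 0)))
    omega
  · intro t t' g1 g2 g3 g4 g5 g6 g7
    rcases g5 with rfl | rfl
    · have : t ∈ A₁ := mem_filter.2 ⟨mem_Ioo.2 ⟨g1, g2⟩, g3, g4, g6, g7⟩
      exact ⟨mem_union_left _ (mem_union_left _ (mem_image_of_mem _ this)),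
        mem_union_left _ (mem_union_right _ (mem_image_of_mem _ this))⟩
    · have : t ∈ A₂ := mem_filter.2 ⟨mem_Ioo.2 ⟨g1, g2⟩, g3, g4, g6, g7⟩
      exact ⟨mem_union_right _ (mem_union_left _ (mem_image_of_mem _ this)),
        mem_union_right _ (mem_union_right _ (mem_image_of_mem _ this))⟩

/-- the corners and their neighbours -/
def bd2C (ρ : ℤ) : Finset V :=
  ({-ρ - 1, -ρ, ρ, ρ + 1} : Finset ℤ) ×ˢ ({-ρ - 1, -ρ, ρ, ρ + 1} : Finset ℤ)

lemma bd2_card_C (ρ : ℤ) : #(bd2C ρ) ≤ 16 := by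
  have h : #({-ρ - 1, -ρ, ρ, ρ + 1} : Finset ℤ) ≤ 4 := card_le_four
  rw [bd2C, card_product]
  exact Nat.mul_le_mul h h

lemma bd2_case {ρ a1 a2 b1 b2 : ℤ} (hρ : 1 ≤ ρ) (ha : nm (a1, a2) = ρ + 1)
    (hb : nm (b1, b2) = ρ + 1) (hab : Adj (a1, a2) (b1, b2))
    (hC : ¬ ((a1, a2) ∈ bd2C ρ ∧ (b1, b2) ∈ bd2C ρ)) :
    (a2 = ρ + 1 ∧ b2 = ρ + 1 ∧ -ρ - 1 < a1 ∧ a1 < ρ + 1 ∧ -ρ - 1 < b1 ∧ b1 < ρ + 1) ∨
      (a1 = -ρ - 1 ∧ b1 = -ρ - 1 ∧ -ρ - 1 < a2 ∧ a2 < ρ + 1 ∧ -ρ - 1 < b2 ∧ b2 < ρ + 1) ∨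
      (a2 = -ρ - 1 ∧ b2 = -ρ - 1 ∧ -ρ - 1 < a1 ∧ a1 < ρ + 1 ∧ -ρ - 1 < b1 ∧ b1 < ρ + 1) ∨
      (a1 = ρ + 1 ∧ b1 = ρ + 1 ∧ -ρ - 1 < a2 ∧ a2 < ρ + 1 ∧ -ρ - 1 < b2 ∧ b2 < ρ + 1) := by
  have hm : ∀ x y : ℤ, (x = -ρ - 1 ∨ x = -ρ ∨ x = ρ ∨ x = ρ + 1) →
      (y = -ρ - 1 ∨ y = -ρ ∨ y = ρ ∨ y = ρ + 1) → (x, y) ∈ bd2C ρ := fun x y hx hy => by
    simp only [bd2C, mem_product, mem_insert, mem_singleton]
    exact ⟨hx, hy⟩
  have hn : ∀ x y : ℤ, nm (x, y) = ρ + 1 → (-ρ - 1 ≤ x ∧ x ≤ ρ + 1 ∧ -ρ - 1 ≤ y ∧ y ≤ ρ + 1) ∧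
      (x = ρ + 1 ∨ x = -ρ - 1 ∨ y = ρ + 1 ∨ y = -ρ - 1) := fun x y h => by
    unfold nm at h
    simp only at h
    omega
  obtain ⟨⟨p1, p2, p3, p4⟩, p5⟩ := hn _ _ ha
  obtain ⟨⟨q1, q2, q3, q4⟩, q5⟩ := hn _ _ hb
  clear ha hb hn
  rcases hab with ⟨e, h⟩ | ⟨e, h⟩
  · simp only at e h
    subst e
    by_cases g : (a2 = ρ + 1 ∨ a2 = -ρ - 1 ∨ b2 = ρ + 1 ∨ b2 = -ρ - 1)
    · exact absurd ⟨hm _ _ (by omega) (by omega), hm _ _ (by omega) (by omega)⟩ hC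
    · clear hC hm
      have g' : a1 = ρ + 1 ∨ a1 = -ρ - 1 := by omega
      rcases g' with g' | g'
      · exact Or.inr (Or.inr (Or.inr ⟨g', g', by omega, by omega, by omega, by omega⟩))
      · exact Or.inr (Or.inl ⟨g', g', by omega, by omega, by omega, by omega⟩)
  · simp only at e h
    subst e
    by_cases g : (a1 = ρ + 1 ∨ a1 = -ρ - 1 ∨ b1 = ρ + 1 ∨ b1 = -ρ - 1)
    · exact absurd ⟨hm _ _ (by omega) (by omega), hm _ _ (by omega) (by omega)⟩ hC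
    · clear hC hm
      have g' : a2 = ρ + 1 ∨ a2 = -ρ - 1 := by omega
      rcases g' with g' | g'
      · exact Or.inl ⟨g', g', by omega, by omega, by omega, by omega⟩
      · exact Or.inr (Or.inr (Or.inl ⟨g', g', by omega, by omega, by omega, by omega⟩))

lemma bd2_pairs {L ρ : ℤ} {K : ℕ} (hρ : 1 ≤ ρ) (hw : w ⊆ Ed (bx 0 L)) (σ₀ : Fld)
    (hK : ¬ Mge w L ρ (K + 1)) :
    ∃ B : Finset V, #B ≤ 48 * (K + 1) ∧ ∀ a b : V, nm a = ρ + 1 → nm b = ρ + 1 → Adj a b →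
      a ∈ bd2N w L ρ σ₀ → bd2F w L ρ σ₀ b → a ∈ B ∧ b ∈ B := by
  obtain ⟨B0, c0, h0⟩ := bd2_frame hρ hw σ₀ hK (isFr_fr (-ρ - 1, ρ + 1) 0)
    (by ext <;> simp [fr])
  obtain ⟨B1, c1, h1⟩ := bd2_frame hρ hw σ₀ hK (isFr_fr (-ρ - 1, -ρ - 1) 1)
    (by ext <;> simp [fr])
  obtain ⟨B2, c2, h2⟩ := bd2_frame hρ hw σ₀ hK (isFr_fr (ρ + 1, -ρ - 1) 2)
    (by ext <;> simp [fr])
  obtain ⟨B3, c3, h3⟩ := bd2_frame hρ hw σ₀ hK (isFr_fr (ρ + 1, ρ + 1) 3)
    (by ext <;> simp [fr])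
  refine ⟨bd2C ρ ∪ ((B0 ∪ B1) ∪ (B2 ∪ B3)), ?_, ?_⟩
  · have a1 := bd2_card_C ρ
    have a2 := card_union_le (bd2C ρ) ((B0 ∪ B1) ∪ (B2 ∪ B3))
    have a3 := card_union_le (B0 ∪ B1) (B2 ∪ B3)
    have a4 := card_union_le B0 B1
    have a5 := card_union_le B2 B3
    omega
  · rintro ⟨a1, a2⟩ ⟨b1, b2⟩ ha hb hab haN hbF
    by_cases hC : (a1, a2) ∈ bd2C ρ ∧ (b1, b2) ∈ bd2C ρ
    · exact ⟨mem_union_left _ hC.1, mem_union_left _ hC.2⟩
    have hcase := bd2_case hρ ha hb hab hC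
    have hab' : (a1 = b1 ∧ (b2 = a2 + 1 ∨ a2 = b2 + 1)) ∨
      (a2 = b2 ∧ (b1 = a1 + 1 ∨ a1 = b1 + 1)) := hab
    clear hC ha hb hab
    simp only [mem_union]
    rcases hcase with ⟨e1, e2, e⟩ | ⟨e1, e2, e⟩ | ⟨e1, e2, e⟩ | ⟨e1, e2, e⟩
    · have k1 : fr (-ρ - 1, ρ + 1) 0 (a1 + ρ + 1, 0) = (a1, a2) := by
        ext <;> simp [fr] <;> omega
      have k2 : fr (-ρ - 1, ρ + 1) 0 (b1 + ρ + 1, 0) = (b1, b2) := by
        ext <;> simp [fr] <;> omega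
      have := h0 (a1 + ρ + 1) (b1 + ρ + 1) (by omega) (by omega) (by omega) (by omega)
        (by omega) (by rw [k1]; exact haN) (by rw [k2]; exact hbF)
      rw [k1, k2] at this
      exact ⟨Or.inr (Or.inl (Or.inl this.1)), Or.inr (Or.inl (Or.inl this.2))⟩
    · have k1 : fr (-ρ - 1, -ρ - 1) 1 (a2 + ρ + 1, 0) = (a1, a2) := by
        ext <;> simp [fr] <;> omega
      have k2 : fr (-ρ - 1, -ρ - 1) 1 (b2 + ρ + 1, 0) = (b1, b2) := by
        ext <;> simp [fr] <;> omega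
      have := h1 (a2 + ρ + 1) (b2 + ρ + 1) (by omega) (by omega) (by omega) (by omega)
        (by omega) (by rw [k1]; exact haN) (by rw [k2]; exact hbF)
      rw [k1, k2] at this
      exact ⟨Or.inr (Or.inl (Or.inr this.1)), Or.inr (Or.inl (Or.inr this.2))⟩
    · have k1 : fr (ρ + 1, -ρ - 1) 2 (ρ + 1 - a1, 0) = (a1, a2) := by
        ext <;> simp [fr] <;> omega
      have k2 : fr (ρ + 1, -ρ - 1) 2 (ρ + 1 - b1, 0) = (b1, b2) := by
        ext <;> simp [fr] <;> omega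
      have := h2 (ρ + 1 - a1) (ρ + 1 - b1) (by omega) (by omega) (by omega) (by omega)
        (by omega) (by rw [k1]; exact haN) (by rw [k2]; exact hbF)
      rw [k1, k2] at this
      exact ⟨Or.inr (Or.inr (Or.inl this.1)), Or.inr (Or.inr (Or.inl this.2))⟩
    · have k1 : fr (ρ + 1, ρ + 1) 3 (ρ + 1 - a2, 0) = (a1, a2) := by
        ext <;> simp [fr] <;> omega
      have k2 : fr (ρ + 1, ρ + 1) 3 (ρ + 1 - b2, 0) = (b1, b2) := by
        ext <;> simp [fr] <;> omega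
      have := h3 (ρ + 1 - a2) (ρ + 1 - b2) (by omega) (by omega) (by omega) (by omega)
        (by omega) (by rw [k1]; exact haN) (by rw [k2]; exact hbF)
      rw [k1, k2] at this
      exact ⟨Or.inr (Or.inr (Or.inr this.1)), Or.inr (Or.inr (Or.inr this.2))⟩

lemma bd2_agree {L ρ : ℤ} (hρ : 1 ≤ ρ) (hL : ρ ≤ L) {σ₀ σ : Fld}
    (hσ : ∀ v ∉ bx 0 L, σ v = σ₀ v) (hc : cp σ w) {v : V} (hv : nm v = L + 1) :
    σ₀ v = if bd2F w L ρ σ₀ v then 0 else 1 := by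
  have h01 : ∀ t : ZMod 2, t = 0 ∨ t = 1 := by decide
  have hvO : v ∈ bd2O ρ := by
    show ρ < nm v
    omega
  rcases h01 (σ₀ v) with h | h
  · have hN : v ∉ bd2N w L ρ σ₀ := by
      rintro ⟨-, -, y, hy, hcn, h1⟩
      have h2 : σ v = σ y := hcn.eq fun a b _ _ _ hab => hc a b hab
      rw [hσ v (by rw [mem_bx0]; omega), hσ y (by rw [mem_bx0]; omega), h, h1] at h2
      exact absurd h2 (by decide)
    have hz : ∃ z, Adj v z ∧ nm z = L + 2 := by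
      obtain ⟨x, y⟩ := v
      unfold nm at hv
      simp only at hv
      have : x = L + 1 ∨ x = -L - 1 ∨ y = L + 1 ∨ y = -L - 1 := by omega
      rcases this with e | e | e | e
      · exact ⟨(x + 1, y), by unfold Adj; simp, by unfold nm; simp only; omega⟩
      · exact ⟨(x - 1, y), by unfold Adj; simp, by unfold nm; simp only; omega⟩
      · exact ⟨(x, y + 1), by unfold Adj; simp, by unfold nm; simp only; omega⟩
      · exact ⟨(x, y - 1), by unfold Adj; simp, by unfold nm; simp only; omega⟩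
    obtain ⟨z, hz1, hz2⟩ := hz
    have hzO : z ∈ bd2O ρ \ bd2N w L ρ σ₀ := by
      refine ⟨?_, fun hzN => ?_⟩
      · show ρ < nm z
        omega
      · have := hzN.2.1
        omega
    rw [if_pos ⟨⟨hvO, hN⟩, z, by omega, ReflTransGen.single ⟨⟨hvO, hN⟩, hzO, hz1⟩⟩, h]
  · have hN : v ∈ bd2N w L ρ σ₀ := ⟨hvO, by omega, v, by omega, ReflTransGen.refl, h⟩
    rw [if_neg fun hF => hF.1.2 hN, h]

lemma labels {L ρ : ℤ} {K : ℕ} (hρ : 1 ≤ ρ) (hL : ρ ≤ L) (hw : w ⊆ Ed (bx 0 L)) {σ₀ σ : Fld}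
    (hσ : ∀ v ∉ bx 0 L, σ v = σ₀ v) (hc : cp σ w) (hK : ¬ Mge w L ρ (K + 1)) :
    ∃ lam : Fld, (∀ v ∉ bx 0 L, lam v = σ₀ v) ∧ cp lam (w \ Ed (bx 0 ρ)) ∧
      #(Tr ρ lam) ≤ 48 * (K + 1) := by
  set lam : Fld := fun v => if L < nm v then σ₀ v else if bd2F w L ρ σ₀ v then 0 else 1
    with hlam
  have hl : ∀ v, nm v ≤ L + 1 → lam v = if bd2F w L ρ σ₀ v then 0 else 1 := by
    intro v hv
    by_cases h : L < nm v
    · simp only [hlam, if_pos h]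
      exact bd2_agree hρ hL hσ hc (by omega)
    · simp only [hlam, if_neg h]
  refine ⟨lam, fun v hv => ?_, fun x y hxy => ?_, ?_⟩
  · rw [mem_bx0] at hv
    simp only [hlam, if_pos (not_le.1 hv)]
  · obtain ⟨h1, h2⟩ := mem_sdiff.1 hxy
    obtain ⟨ha, hx, hy⟩ := bd2_edge hw h1
    rw [mem_Ed, mem_bx0, mem_bx0] at h2
    have hxO : x ∈ bd2O ρ := by
      show ρ < nm x
      by_contra h
      exact h2 ⟨ha, Or.inl (not_lt.1 h)⟩
    have hyO : y ∈ bd2O ρ := by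
      show ρ < nm y
      by_contra h
      exact h2 ⟨ha, Or.inr (not_lt.1 h)⟩
    have hcn : Cn w (bd2O ρ) x y := ReflTransGen.single ⟨hxO, hyO, ha, h1⟩
    have hiff : bd2F w L ρ σ₀ x ↔ bd2F w L ρ σ₀ y :=
      ⟨fun h => bd2_F_step h ha.symm ⟨hyO, fun hy' => h.1.2 (bd2_cnN hw hy' hcn.symm)⟩,
        fun h => bd2_F_step h ha ⟨hxO, fun hx' => h.1.2 (bd2_cnN hw hx' hcn)⟩⟩
    rw [hl x hx, hl y hy]
    simp only [hiff]
  · obtain ⟨B, hB, hmem⟩ := bd2_pairs hρ hw σ₀ hK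
    refine le_trans (card_le_card fun p hp => ?_) hB
    obtain ⟨h1, p', hp', hadj, hne⟩ := mem_filter.1 hp
    rw [mem_ann] at h1
    have hp1 : nm p = ρ + 1 := by omega
    rw [hl p (by omega), hl p' (by omega)] at hne
    have hpO : p ∈ bd2O ρ := by
      show ρ < nm p
      omega
    have hpO' : p' ∈ bd2O ρ := by
      show ρ < nm p'
      omega
    by_cases hF : bd2F w L ρ σ₀ p
    · have hF' : ¬ bd2F w L ρ σ₀ p' := fun h => hne (by rw [if_pos hF, if_pos h])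
      have hN : p' ∈ bd2N w L ρ σ₀ := by
        by_contra h
        exact hF' (bd2_F_step hF hadj.symm ⟨hpO', h⟩)
      exact (hmem p' p hp' hp1 hadj.symm hN hF).2
    · have hF' : bd2F w L ρ σ₀ p' := by
        by_contra h
        exact hne (by rw [if_neg hF, if_neg h])
      have hN : p ∈ bd2N w L ρ σ₀ := by
        by_contra h
        exact hF (bd2_F_step hF' hadj ⟨hpO, h⟩)
      exact (hmem p p' hp1 hp' hadj hN hF').1

end

end Pool.Agent.XYU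

end

section

open Finset Real Relation

namespace Pool.Agent.XYU

open Classical

noncomputable section

variable {β : ℝ} {q : ℕ} {S : Sys} {w : Es} {f : UC → ℝ}

/-- `R` carries a profile `χ` for the labels `lam`, the set `X` being removed -/
structure Zone (ρ : ℤ) (lam : Fld) (X R : Finset V) (σ₁ : Fld) (χ : V → ℝ) (e : ℝ) : Prop where
  sub : R ⊆ bx 0 ρ \ X
  out : ∀ v ∉ bx 0 ρ, σ₁ v = lam v
  val : ∀ x y, Adj x y → x ∈ R → y ∉ R → y ∉ X → χ y = if σ₁ y = 0 then 0 else 1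
  con : ∀ x y, Adj x y → x ∈ bx 0 ρ → x ∉ R → y ∉ R → x ∉ X → y ∉ X → σ₁ x = σ₁ y
  en : En (Ed R) X χ ≤ e

/-- `D` is the distance to a set `Zs` of points of the sphere that contains the corners -/
structure bd3_H (ρ : ℤ) (Zs : Finset V) (D : V → ℤ) : Prop where
  r : 1 ≤ ρ
  sph : ∀ z ∈ Zs, nm z = ρ + 1
  le : ∀ x, ∀ z ∈ Zs, D x ≤ dd x z
  ex : ∀ x, ∃ z ∈ Zs, D x = dd x z
  cor : ∀ a b : ℤ, (a = ρ + 1 ∨ a = -(ρ + 1)) → (b = ρ + 1 ∨ b = -(ρ + 1)) → (a, b) ∈ Zs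

def bd3_u (ρ : ℤ) (D : V → ℤ) (x : V) : ℝ := ((ρ + 1 - nm x : ℤ) : ℝ) / D x

def bd3_mu (ρ : ℤ) (D : V → ℤ) (lam : Fld) (x : V) : Prop :=
  ∃ p, nm p = ρ + 1 ∧ lam p = 1 ∧ 2 * dd x p ≤ D x

def bd3_h (k t : ℝ) : ℝ := min 1 (max 0 (2 - 2 * k * t))

def bd3_chi (ρ : ℤ) (D : V → ℤ) (lam : Fld) (k : ℝ) (x : V) : ℝ :=
  ind (bd3_mu ρ D lam x) * bd3_h k (bd3_u ρ D x)

def bd3_X (ρ : ℤ) (D : V → ℤ) : Finset V := (bx 0 ρ).filter fun x => D x ≤ 400

def bd3_R (ρ : ℤ) (D : V → ℤ) (k : ℝ) : Finset V :=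
  (bx 0 ρ \ bd3_X ρ D).filter fun x => 2 < 5 * k * bd3_u ρ D x ∧ 5 * k * bd3_u ρ D x < 6

section

variable {ρ : ℤ} {Zs : Finset V} {D : V → ℤ} {lam : Fld} {x y : V} {k : ℝ}

lemma bd3_nm (h : Adj x y) : nm y ≤ nm x + 1 ∧ nm x ≤ nm y + 1 := by
  unfold Adj at h
  unfold nm
  omega

lemma bd3_H.lip (H : bd3_H ρ Zs D) (h : Adj x y) : D x ≤ D y + 1 := by
  obtain ⟨z, hz, e⟩ := H.ex y
  have h1 := H.le x z hz
  have h2 := dd_tri x y z
  have h3 := h.dd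
  omega

lemma bd3_H.dle (H : bd3_H ρ Zs D) (x : V) : ρ + 1 - nm x ≤ D x := by
  obtain ⟨z, hz, e⟩ := H.ex x
  have h1 := H.sph z hz
  have h2 := dd_tri z x 0
  rw [dd_zero, dd_zero, dd_comm z x] at h2
  omega

lemma bd3_H.nonneg (H : bd3_H ρ Zs D) (x : V) : 0 ≤ D x := by
  obtain ⟨z, -, e⟩ := H.ex x
  exact e ▸ dd_nonneg x z

lemma bd3_near (hx : nm x ≤ ρ + 1) : ∃ p, nm p = ρ + 1 ∧ dd x p = ρ + 1 - nm x := by
  have h : nm x = x.1 ∨ nm x = -x.1 ∨ nm x = x.2 ∨ nm x = -x.2 := by unfold nm; omega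
  rcases h with h | h | h | h
  · exact ⟨(ρ + 1, x.2), by simp only [nm, dd] at *; omega⟩
  · exact ⟨(-(ρ + 1), x.2), by simp only [nm, dd] at *; omega⟩
  · exact ⟨(x.1, ρ + 1), by simp only [nm, dd] at *; omega⟩
  · exact ⟨(x.1, -(ρ + 1)), by simp only [nm, dd] at *; omega⟩

lemma bd3_seg (γ : ℤ → V) (hγ : ∀ r, Adj (γ r) (γ (r + 1))) {s t : ℤ} (hst : s ≤ t)
    (h : ∀ r, s ≤ r → r ≤ t → nm (γ r) = ρ + 1 ∧ γ r ∉ Tr ρ lam) : lam (γ s) = lam (γ t) := by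
  induction t, hst using Int.leInduction with
  | base => rfl
  | succ t hst ih =>
    rw [ih fun r a b => h r a (by omega)]
    by_contra hne
    have h1 := h t hst (by omega)
    have h2 := h (t + 1) (by omega) le_rfl
    exact h1.2 (mem_filter.2 ⟨mem_ann.2 ⟨h1.1.ge, h1.1.le⟩, γ (t + 1), h2.1, hγ t, hne⟩)

lemma bd3_a1 (x z : V) (D : ℤ) :
    dd x z < D ↔ x.1 - z.1 < D ∧ z.1 - x.1 < D ∧ x.2 - z.2 < D ∧ z.2 - x.2 < D := by
  unfold dd; omega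

lemma bd3_a2 {x z : V} {D : ℤ} (h : 2 * dd x z ≤ D) : 2 * (x.1 - z.1) ≤ D ∧
    2 * (z.1 - x.1) ≤ D ∧ 2 * (x.2 - z.2) ≤ D ∧ 2 * (z.2 - x.2) ≤ D := by
  unfold dd at h; omega

lemma bd3_a3 (z : V) (M : ℤ) : nm z = M ↔ (z.1 ≤ M ∧ -z.1 ≤ M ∧ z.2 ≤ M ∧ -z.2 ≤ M) ∧
    (z.1 = M ∨ -z.1 = M ∨ z.2 = M ∨ -z.2 = M) := by
  unfold nm; omega

lemma bd3_H.corner (H : bd3_H ρ Zs D) {a b : ℤ} (ha : a = ρ + 1 ∨ -a = ρ + 1)
    (hb : b = ρ + 1 ∨ -b = ρ + 1) (h1 : x.1 - a < D x) (h2 : a - x.1 < D x) (h3 : x.2 - b < D x)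
    (h4 : b - x.2 < D x) : False :=
  (H.le x _ (H.cor a b (by omega) (by omega))).not_gt ((bd3_a1 _ _ _).2 ⟨h1, h2, h3, h4⟩)

lemma bd3_H.top (H : bd3_H ρ Zs D) (hx : nm x ≤ ρ + 1) : D x ≤ ρ + 1 := by
  have a4 : x.1 ≤ ρ + 1 ∧ -x.1 ≤ ρ + 1 ∧ x.2 ≤ ρ + 1 ∧ -x.2 ≤ ρ + 1 := by
    unfold nm at hx; omega
  by_contra hc
  rcases le_total 0 x.1 with a | a <;> rcases le_total 0 x.2 with b | b
  · exact H.corner (x := x) (a := ρ + 1) (b := ρ + 1) (by omega) (by omega) (by omega)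
      (by omega) (by omega) (by omega)
  · exact H.corner (x := x) (a := ρ + 1) (b := -(ρ + 1)) (by omega) (by omega) (by omega)
      (by omega) (by omega) (by omega)
  · exact H.corner (x := x) (a := -(ρ + 1)) (b := ρ + 1) (by omega) (by omega) (by omega)
      (by omega) (by omega) (by omega)
  · exact H.corner (x := x) (a := -(ρ + 1)) (b := -(ρ + 1)) (by omega) (by omega) (by omega)
      (by omega) (by omega) (by omega)

lemma bd3_H.s1 (H : bd3_H ρ Zs D) (hT : Tr ρ lam ⊆ Zs) (h0 : 0 < D x) {p p' : V}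
    (hp : nm p = ρ + 1) (hp' : nm p' = ρ + 1) (h : 2 * dd x p ≤ D x) (h' : 2 * dd x p' ≤ D x)
    (e1 : p.1 = p'.1) (e2 : p.1 = ρ + 1 ∨ -p.1 = ρ + 1) (e3 : p.2 ≤ p'.2) : lam p = lam p' := by
  have b1 := bd3_a2 h
  have b2 := bd3_a2 h'
  have b3 := ((bd3_a3 _ _).1 hp).1
  have b4 := ((bd3_a3 _ _).1 hp').1
  have := bd3_seg (ρ := ρ) (lam := lam) (fun r => (p.1, r)) (fun r => by simp [Adj]) e3
    fun r r1 r2 => ⟨(bd3_a3 _ _).2 (by simp only; omega), fun hm =>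
      (H.le x _ (hT hm)).not_gt ((bd3_a1 _ _ _).2 (by simp only; omega))⟩
  rwa [show (p.1, p'.2) = p' from Prod.ext e1 rfl] at this

lemma bd3_H.s2 (H : bd3_H ρ Zs D) (hT : Tr ρ lam ⊆ Zs) (h0 : 0 < D x) {p p' : V}
    (hp : nm p = ρ + 1) (hp' : nm p' = ρ + 1) (h : 2 * dd x p ≤ D x) (h' : 2 * dd x p' ≤ D x)
    (e1 : p.2 = p'.2) (e2 : p.2 = ρ + 1 ∨ -p.2 = ρ + 1) (e3 : p.1 ≤ p'.1) : lam p = lam p' := by
  have b1 := bd3_a2 h
  have b2 := bd3_a2 h'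
  have b3 := ((bd3_a3 _ _).1 hp).1
  have b4 := ((bd3_a3 _ _).1 hp').1
  have := bd3_seg (ρ := ρ) (lam := lam) (fun r => (r, p.2)) (fun r => by simp [Adj]) e3
    fun r r1 r2 => ⟨(bd3_a3 _ _).2 (by simp only; omega), fun hm =>
      (H.le x _ (hT hm)).not_gt ((bd3_a1 _ _ _).2 (by simp only; omega))⟩
  rwa [show (p'.1, p.2) = p' from Prod.ext rfl e1] at this

lemma bd3_H.ball (H : bd3_H ρ Zs D) (hT : Tr ρ lam ⊆ Zs) (hx : nm x ≤ ρ + 1) {p p' : V}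
    (hp : nm p = ρ + 1) (hp' : nm p' = ρ + 1) (h : 2 * dd x p ≤ D x) (h' : 2 * dd x p' ≤ D x) :
    lam p = lam p' := by
  rcases (H.nonneg x).eq_or_lt with h0 | h0
  · have n1 := dd_nonneg x p
    have n2 := dd_nonneg x p'
    rw [← dd_eq_zero.1 (by omega : dd x p = 0), ← dd_eq_zero.1 (by omega : dd x p' = 0)]
  have hD := H.top hx
  have b1 := bd3_a2 h
  have b2 := bd3_a2 h'
  have e : (p.1 = ρ + 1 ∨ -p.1 = ρ + 1) ∨ (p.2 = ρ + 1 ∨ -p.2 = ρ + 1) :=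
    or_assoc.2 ((bd3_a3 _ _).1 hp).2
  have e' : (p'.1 = ρ + 1 ∨ -p'.1 = ρ + 1) ∨ (p'.2 = ρ + 1 ∨ -p'.2 = ρ + 1) :=
    or_assoc.2 ((bd3_a3 _ _).1 hp').2
  rcases e with e | e <;> rcases e' with e' | e'
  · have e1 : p.1 = p'.1 := by omega
    rcases le_total p.2 p'.2 with e3 | e3
    · exact H.s1 hT h0 hp hp' h h' e1 e e3
    · exact (H.s1 hT h0 hp' hp h' h e1.symm e' e3).symm
  · exact (H.corner (x := x) e e' (by omega) (by omega) (by omega) (by omega)).elim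
  · exact (H.corner (x := x) e' e (by omega) (by omega) (by omega) (by omega)).elim
  · have e1 : p.2 = p'.2 := by omega
    rcases le_total p.1 p'.1 with e3 | e3
    · exact H.s2 hT h0 hp hp' h h' e1 e e3
    · exact (H.s2 hT h0 hp' hp h' h e1.symm e' e3).symm

lemma bd3_H.mu_iff (H : bd3_H ρ Zs D) (hT : Tr ρ lam ⊆ Zs) (hx : nm x ≤ ρ + 1) {p : V}
    (hp : nm p = ρ + 1) (h : 2 * dd x p ≤ D x) : bd3_mu ρ D lam x ↔ lam p = 1 :=
  ⟨fun ⟨_, a, b, c⟩ => (H.ball hT hx hp a h c).trans b, fun e => ⟨p, hp, e, h⟩⟩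

lemma bd3_H.mu_adj (H : bd3_H ρ Zs D) (hT : Tr ρ lam ⊆ Zs) (h : Adj x y) (hx : nm x ≤ ρ + 1)
    (hy : nm y ≤ ρ + 1) (h6 : 6 ≤ D x) (hu : 4 * bd3_u ρ D x ≤ 1) :
    bd3_mu ρ D lam x ↔ bd3_mu ρ D lam y := by
  have h4 : 4 * (ρ + 1 - nm x) ≤ D x := by
    have p0 : (0 : ℝ) < D x := by exact_mod_cast (by omega : 0 < D x)
    rw [bd3_u, ← mul_div_assoc, div_le_one p0] at hu
    exact_mod_cast hu
  obtain ⟨p, hp, e⟩ := bd3_near hx
  have h1 := H.lip h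
  have h2 := dd_tri y x p
  have h3 := h.symm.dd
  rw [H.mu_iff hT hx hp (by omega), H.mu_iff hT hy hp (by omega)]

lemma bd3_H.u_adj (H : bd3_H ρ Zs D) (h : Adj x y) (hy : nm y ≤ ρ + 1) (h2 : 2 ≤ D x) :
    |bd3_u ρ D x - bd3_u ρ D y| ≤ 2 / D x := by
  have l1 := H.lip h
  have l2 := H.lip h.symm
  have l3 := bd3_nm h
  have l4 := H.dle y
  have p1 : (0 : ℝ) < D x := by exact_mod_cast (by omega : 0 < D x)
  have p2 : (0 : ℝ) < D y := by exact_mod_cast (by omega : 0 < D y)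
  have key : |(ρ + 1 - nm x) * D y - D x * (ρ + 1 - nm y)| ≤ 2 * D y := by
    have e : (ρ + 1 - nm x) * D y - D x * (ρ + 1 - nm y) =
        (nm y - nm x) * D y + (D y - D x) * (ρ + 1 - nm y) := by ring
    rw [e, abs_le]
    have q1 : 0 ≤ ρ + 1 - nm y := by omega
    have q2 : 0 ≤ D y := by omega
    constructor <;> nlinarith
  rw [bd3_u, bd3_u, div_sub_div _ _ p1.ne' p2.ne', abs_div, abs_of_pos (mul_pos p1 p2),
    div_le_div_iff₀ (mul_pos p1 p2) p1]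
  have key' : |((ρ + 1 - nm x : ℤ) : ℝ) * D y - D x * ((ρ + 1 - nm y : ℤ) : ℝ)| ≤ 2 * D y := by
    exact_mod_cast key
  nlinarith

lemma bd3_h_one {t : ℝ} (h : 2 * k * t ≤ 1) : bd3_h k t = 1 :=
  min_eq_left (le_max_of_le_right (by linarith))

lemma bd3_h_zero {t : ℝ} (h : 1 ≤ k * t) : bd3_h k t = 0 := by
  rw [bd3_h, max_eq_left (by linarith), min_eq_right zero_le_one]

lemma bd3_h_lip (hk : 0 ≤ k) (t t' : ℝ) : |bd3_h k t - bd3_h k t'| ≤ 2 * k * |t - t'| := by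
  have h1 : |bd3_h k t - bd3_h k t'| ≤ |(2 - 2 * k * t) - (2 - 2 * k * t')| := by
    unfold bd3_h
    refine (abs_min_sub_min_le_max _ _ _ _).trans ?_
    rw [sub_self, abs_zero, max_eq_right (abs_nonneg _)]
    refine (abs_max_sub_max_le_max _ _ _ _).trans ?_
    rw [sub_self, abs_zero, max_eq_right (abs_nonneg _)]
  rw [show (2 - 2 * k * t) - (2 - 2 * k * t') = -(2 * k * (t - t')) by ring, abs_neg, abs_mul,
    abs_of_nonneg (by positivity : 0 ≤ 2 * k)] at h1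
  exact h1

lemma bd3_H.chi_adj (H : bd3_H ρ Zs D) (hT : Tr ρ lam ⊆ Zs) (k4 : 4 ≤ k) (k16 : k ≤ 16)
    (h : Adj x y) (hx : nm x ≤ ρ) (hD : 400 < D x) :
    |bd3_chi ρ D lam k x - bd3_chi ρ D lam k y| ≤ 64 / D x := by
  have hy : nm y ≤ ρ + 1 := by have := bd3_nm h; omega
  have p1 : (0 : ℝ) < D x := by exact_mod_cast (by omega : 0 < D x)
  have l1 := H.lip h
  by_cases hm : bd3_mu ρ D lam x ↔ bd3_mu ρ D lam y
  · rw [bd3_chi, bd3_chi, ← propext hm, ← mul_sub, abs_mul, abs_of_nonneg (ind_nonneg _)]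
    refine (mul_le_of_le_one_left (abs_nonneg _) (ind_le_one _)).trans
      ((bd3_h_lip (by linarith) _ _).trans ?_)
    have h1 := H.u_adj h hy (by omega)
    calc 2 * k * |bd3_u ρ D x - bd3_u ρ D y| ≤ 2 * 16 * (2 / D x) := by gcongr
      _ = 64 / D x := by ring
  · have u1 : 1 < 4 * bd3_u ρ D x :=
      not_le.1 fun hu => hm (H.mu_adj hT h (by omega) hy (by omega) hu)
    have u2 : 1 < 4 * bd3_u ρ D y :=
      not_le.1 fun hu => hm (H.mu_adj hT h.symm hy (by omega) (by omega) hu).symm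
    rw [bd3_chi, bd3_chi, bd3_h_zero (by nlinarith), bd3_h_zero (by nlinarith)]
    simp only [mul_zero, sub_self, abs_zero]
    positivity

lemma bd3_biUnion {ι κ : Type*} [DecidableEq κ] (s : Finset ι) (t : ι → Finset κ) (f : κ → ℝ)
    (hf : ∀ e, 0 ≤ f e) : ∑ e ∈ s.biUnion t, f e ≤ ∑ a ∈ s, ∑ e ∈ t a, f e := by
  induction s using Finset.induction_on with
  | empty => simp
  | insert a s ha ih =>
    rw [biUnion_insert, sum_insert ha]
    have h1 := sum_union_inter (s₁ := t a) (s₂ := s.biUnion t) (f := f)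
    have h2 : 0 ≤ ∑ e ∈ t a ∩ s.biUnion t, f e := sum_nonneg fun e _ => hf e
    linarith

lemma bd3_en {R X : Finset V} {χ : V → ℝ} {g : V → ℝ}
    (h : ∀ x ∈ R, ∀ y, Adj x y → |χ x - χ y| ≤ g x) : En (Ed R) X χ ≤ 4 * ∑ x ∈ R, g x ^ 2 := by
  have h0 : ∀ e, 0 ≤ d2 χ e := fun e => by
    induction e using Sym2.ind with
    | _ x y => exact sq_nonneg _
  refine (sum_le_sum_of_subset_of_nonneg (filter_subset _ _) fun e _ _ => h0 e).trans ?_
  refine (bd3_biUnion _ _ _ h0).trans ?_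
  rw [mul_sum]
  refine sum_le_sum fun x hx => ?_
  have key : ∀ y, Adj x y → d2 χ s(x, y) ≤ g x ^ 2 := fun y hy =>
    sq_le_sq' (abs_le.1 (h x hx y hy)).1 (abs_le.1 (h x hx y hy)).2
  refine (sum_le_card_nsmul _ _ (g x ^ 2) fun e he => ?_).trans ?_
  · simp only [mem_insert, mem_singleton] at he
    rcases he with rfl | rfl | rfl | rfl <;> exact key _ (by simp [Adj])
  · rw [nsmul_eq_mul]
    exact mul_le_mul_of_nonneg_right (by exact_mod_cast card_le_four) (sq_nonneg _)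

lemma bd3_harm (hρ : 1 ≤ ρ) {R : Finset V} {z : V} (h : ∀ x ∈ R, 1 ≤ dd x z ∧ dd x z ≤ 2 * ρ + 2) :
    ∑ x ∈ R, 1 / (dd x z : ℝ) ^ 2 ≤ 24 * log (ρ + 2) := by
  obtain ⟨N, hN⟩ : ∃ N : ℕ, (N : ℤ) = 2 * ρ + 2 := ⟨(2 * ρ + 2).toNat, by omega⟩
  have hm : ∀ x ∈ R, (dd x z).toNat ∈ Icc 1 N := fun x hx => by
    have := h x hx
    rw [mem_Icc]; omega
  rw [← sum_fiberwise_of_maps_to hm]
  have h1 : ∀ r ∈ Icc 1 N, ∑ x ∈ R with (dd x z).toNat = r, 1 / (dd x z : ℝ) ^ 2 ≤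
      8 * (r : ℝ)⁻¹ := fun r hr => by
    have r1 := (mem_Icc.1 hr).1
    have e : ∀ x ∈ R.filter fun x => (dd x z).toNat = r, dd x z = r := fun x hx => by
      have := h x (mem_filter.1 hx).1
      have := (mem_filter.1 hx).2
      omega
    rw [sum_congr rfl fun x hx => by rw [e x hx], sum_const, nsmul_eq_mul]
    have c : (#(R.filter fun x => (dd x z).toNat = r) : ℝ) ≤ 8 * r := by
      exact_mod_cast card_sphere z (by omega : (1 : ℤ) ≤ r) e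
    have p : (0 : ℝ) < r := by exact_mod_cast r1
    calc _ ≤ 8 * r * (1 / ((r : ℤ) : ℝ) ^ 2) := by gcongr
      _ = 8 * (r : ℝ)⁻¹ := by push_cast; field_simp
  refine (sum_le_sum h1).trans ?_
  rw [← mul_sum]
  have h2 : ∑ r ∈ Icc 1 N, (r : ℝ)⁻¹ ≤ 1 + log N := by
    have := harmonic_le_one_add_log N
    rw [harmonic_eq_sum_Icc] at this
    push_cast at this
    exact this
  have r1 : (1 : ℝ) ≤ ρ := by exact_mod_cast hρ
  have hN' : (N : ℝ) = 2 * ρ + 2 := by exact_mod_cast hN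
  have h3 : log N ≤ 2 * log (ρ + 2) := by
    have e : 2 * log ((ρ : ℝ) + 2) = log ((ρ + 2) ^ 2) := by rw [log_pow]; norm_num
    rw [e, hN']
    exact log_le_log (by linarith) (by nlinarith)
  have h4 : 1 ≤ log ((ρ : ℝ) + 2) := by
    rw [le_log_iff_exp_le (by linarith)]
    linarith [exp_one_lt_d9]
  linarith

lemma bd3_mem_R : x ∈ bd3_R ρ D k ↔
    (nm x ≤ ρ ∧ 400 < D x) ∧ 2 < 5 * k * bd3_u ρ D x ∧ 5 * k * bd3_u ρ D x < 6 := by
  simp only [bd3_R, bd3_X, mem_filter, mem_sdiff, mem_bx0, not_and, not_le]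
  tauto

lemma bd3_H.small (H : bd3_H ρ Zs D) (h : Adj x y) (hx : nm x ≤ ρ) (hD : 400 < D x) :
    |bd3_u ρ D x - bd3_u ρ D y| ≤ 1 / 200 := by
  have hy : nm y ≤ ρ + 1 := by have := bd3_nm h; omega
  refine (H.u_adj h hy (by omega)).trans ?_
  have p : (400 : ℝ) < D x := by exact_mod_cast hD
  rw [div_le_div_iff₀ (by linarith) (by norm_num)]
  linarith

lemma bd3_H.zone (H : bd3_H ρ Zs D) (hT : Tr ρ lam ⊆ Zs) (k4 : 4 ≤ k) (k16 : k ≤ 16) :
    ∃ (σ₁ : Fld) (χ : V → ℝ),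
      Zone ρ lam (bd3_X ρ D) (bd3_R ρ D k) σ₁ χ (393216 * #Zs * log (ρ + 2)) := by
  have z2 : ∀ t : ZMod 2, t = 0 ∨ t = 1 := by decide
  have z3 : (1 : ZMod 2) ≠ 0 := by decide
  have notR : ∀ x, nm x ≤ ρ → x ∉ bd3_R ρ D k → x ∉ bd3_X ρ D → 400 < D x ∧
      (5 * k * bd3_u ρ D x ≤ 2 ∨ 6 ≤ 5 * k * bd3_u ρ D x) := fun x hx hR hX => by
    have hD : 400 < D x := not_le.1 fun h => hX (mem_filter.2 ⟨mem_bx0.2 hx, h⟩)
    refine ⟨hD, ?_⟩
    by_contra hc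
    push Not at hc
    exact hR (bd3_mem_R.2 ⟨⟨hx, hD⟩, hc⟩)
  have sph : ∀ y, nm y = ρ + 1 → bd3_chi ρ D lam k y = if lam y = 0 then 0 else 1 := by
    intro y hy
    have h1 : bd3_u ρ D y = 0 := by simp [bd3_u, hy]
    have h2 := H.mu_iff hT hy.le hy (by rw [dd_eq_zero.2 rfl]; simpa using H.nonneg y)
    rw [bd3_chi, h1, bd3_h_one (by simp), mul_one]
    rcases z2 (lam y) with e | e
    · rw [if_pos e, ind_neg fun h => z3 ((h2.1 h).symm.trans e)]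
    · rw [if_neg (e ▸ z3), ind_pos (h2.2 e)]
  set χ := bd3_chi ρ D lam k with hχ
  refine ⟨fun v => if v ∈ bx 0 ρ then (if χ v = 1 then 1 else 0) else lam v, χ,
    filter_subset _ _, fun v hv => if_neg hv, fun x y h hx hy hX => ?_,
    fun x y h hx hxR hyR hxX hyX => ?_, ?_⟩
  · have hx' := (bd3_mem_R.1 hx).1.1
    by_cases hb : y ∈ bx 0 ρ
    · have h01 : χ y = 0 ∨ χ y = 1 := by
        rcases (notR y (mem_bx0.1 hb) hy hX).2 with hu | hu
        · rw [hχ, bd3_chi, bd3_h_one (by linarith), mul_one]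
          by_cases hm : bd3_mu ρ D lam y
          · exact Or.inr (ind_pos hm)
          · exact Or.inl (ind_neg hm)
        · rw [hχ, bd3_chi, bd3_h_zero (by linarith), mul_zero]
          exact Or.inl rfl
      rcases h01 with e | e <;> simp [hb, e]
    · have := bd3_nm h
      have h1 : ¬ nm y ≤ ρ := fun e => hb (mem_bx0.2 e)
      simp only [if_neg hb]
      exact sph y (by omega)
  · have hx' := mem_bx0.1 hx
    have hy' : nm y ≤ ρ + 1 := by have := bd3_nm h; omega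
    obtain ⟨hD, hu⟩ := notR x hx' hxR hxX
    obtain ⟨s1, s2⟩ := abs_le.1 (H.small h hx' hD)
    have e : χ x = χ y := by
      rcases hu with hu | hu
      · have hm := H.mu_adj hT h (by omega) hy' (by omega) (by nlinarith)
        rw [hχ, bd3_chi, bd3_chi, propext hm, bd3_h_one (by linarith), bd3_h_one (by nlinarith)]
      · rw [hχ, bd3_chi, bd3_chi, bd3_h_zero (by linarith), bd3_h_zero (by nlinarith), mul_zero,
          mul_zero]
    simp only [if_pos hx, e]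
    by_cases hb : y ∈ bx 0 ρ
    · rw [if_pos hb]
    · have h1 : ¬ nm y ≤ ρ := fun e => hb (mem_bx0.2 e)
      rw [if_neg hb, sph y (by omega)]
      rcases z2 (lam y) with e | e <;> simp [e]
  · refine (bd3_en (g := fun x => 64 / D x) fun x hx y h => ?_).trans ?_
    · exact H.chi_adj hT k4 k16 h (bd3_mem_R.1 hx).1.1 (bd3_mem_R.1 hx).1.2
    have h1 : ∑ x ∈ bd3_R ρ D k, (64 / (D x : ℝ)) ^ 2 ≤
        ∑ x ∈ bd3_R ρ D k, 4096 * ∑ z ∈ Zs, 1 / (dd x z : ℝ) ^ 2 := by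
      refine sum_le_sum fun x _ => ?_
      obtain ⟨z, hz, e⟩ := H.ex x
      have := single_le_sum (f := fun z => 1 / (dd x z : ℝ) ^ 2) (fun z _ => by positivity) hz
      rw [e, show (64 / (dd x z : ℝ)) ^ 2 = 4096 * (1 / (dd x z : ℝ) ^ 2) by ring]
      linarith
    rw [← mul_sum, sum_comm] at h1
    have h2 : ∑ z ∈ Zs, ∑ x ∈ bd3_R ρ D k, 1 / (dd x z : ℝ) ^ 2 ≤ #Zs • (24 * log (ρ + 2)) := by
      refine sum_le_card_nsmul _ _ _ fun z hz => bd3_harm H.r fun x hx => ?_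
      obtain ⟨⟨a, b⟩, -⟩ := bd3_mem_R.1 hx
      have c1 := H.le x z hz
      have c2 := dd_tri x 0 z
      rw [dd_zero, dd_comm 0 z, dd_zero, H.sph z hz] at c2
      omega
    rw [nsmul_eq_mul] at h2
    linarith

end

lemma zones : ∃ C : ℝ, 0 ≤ C ∧ ∀ (ρ : ℤ) (lam lam' : Fld) (n : ℕ), 1 ≤ ρ → #(Tr ρ lam) ≤ n →
    #(Tr ρ lam') ≤ n → ∃ (X R R' : Finset V) (σ₁ τ₁ : Fld) (χ χ' : V → ℝ), X ⊆ bx 0 ρ ∧
      (#X : ℝ) ≤ C * (n + 1) ∧ Zone ρ lam X R σ₁ χ (C * (n + 1) * log (ρ + 2)) ∧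
      Zone ρ lam' X R' τ₁ χ' (C * (n + 1) * log (ρ + 2)) ∧ Disjoint R R' ∧
      ∀ x ∈ R, ∀ y ∈ R', ¬ Adj x y := by
  refine ⟨3000000, by norm_num, fun ρ lam lam' n hρ h1 h2 => ?_⟩
  obtain ⟨Co, hCo⟩ : ∃ Co : Finset V, Co =
      {(ρ + 1, ρ + 1), (ρ + 1, -(ρ + 1)), (-(ρ + 1), ρ + 1), (-(ρ + 1), -(ρ + 1))} := ⟨_, rfl⟩
  obtain ⟨Zs, hZs⟩ : ∃ Zs, Zs = Tr ρ lam ∪ Tr ρ lam' ∪ Co := ⟨_, rfl⟩
  have hne : Zs.Nonempty := ⟨(ρ + 1, ρ + 1), by simp [hZs, hCo]⟩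
  have hex : ∀ x, ∃ z ∈ Zs, ∀ z' ∈ Zs, dd x z ≤ dd x z' := fun x => exists_min_image Zs (dd x) hne
  choose zz hz1 hz2 using hex
  have hT : ∀ l : Fld, ∀ z ∈ Tr ρ l, nm z = ρ + 1 := fun l z hz =>
    le_antisymm (mem_ann.1 (mem_filter.1 hz).1).2 (mem_ann.1 (mem_filter.1 hz).1).1
  have H : bd3_H ρ Zs fun x => dd x (zz x) := by
    refine ⟨hρ, fun z hz => ?_, hz2, fun x => ⟨_, hz1 x, rfl⟩, fun a b ha hb => ?_⟩
    · rw [hZs, mem_union, mem_union] at hz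
      rcases hz with (hz | hz) | hz
      · exact hT _ z hz
      · exact hT _ z hz
      · simp only [hCo, mem_insert, mem_singleton] at hz
        rcases hz with rfl | rfl | rfl | rfl <;> simp only [nm] <;> omega
    · rw [hZs, hCo]
      refine mem_union_right _ ?_
      rcases ha with rfl | rfl <;> rcases hb with rfl | rfl <;> simp
  generalize (fun x => dd x (zz x)) = D at H
  have hc : (#Zs : ℝ) ≤ 4 * (n + 1) := by
    have c1 : #Co ≤ 4 := hCo ▸ card_le_four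
    have c2 := card_union_le (Tr ρ lam ∪ Tr ρ lam') Co
    have c3 := card_union_le (Tr ρ lam) (Tr ρ lam')
    have c4 : #Zs ≤ 4 * (n + 1) := by rw [hZs]; omega
    exact_mod_cast c4
  have r1 : (1 : ℝ) ≤ ρ := by exact_mod_cast hρ
  have hl : 0 ≤ log ((ρ : ℝ) + 2) := log_nonneg (by linarith)
  have n0 : (0 : ℝ) ≤ n := Nat.cast_nonneg n
  have he : 393216 * (#Zs : ℝ) * log (ρ + 2) ≤ 3000000 * (n + 1) * log (ρ + 2) :=
    mul_le_mul_of_nonneg_right (by linarith) hl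
  obtain ⟨σ₁, χ, Z1⟩ := H.zone (lam := lam) (k := 4)
    (hZs ▸ subset_union_left.trans subset_union_left) le_rfl (by norm_num)
  obtain ⟨τ₁, χ', Z2⟩ := H.zone (lam := lam') (k := 16)
    (hZs ▸ subset_union_right.trans subset_union_left) (by norm_num) le_rfl
  refine ⟨bd3_X ρ D, bd3_R ρ D 4, bd3_R ρ D 16, σ₁, τ₁, χ, χ', filter_subset _ _, ?_,
    ⟨Z1.sub, Z1.out, Z1.val, Z1.con, Z1.en.trans he⟩,
    ⟨Z2.sub, Z2.out, Z2.val, Z2.con, Z2.en.trans he⟩, disjoint_left.2 fun x a b => ?_,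
    fun x a y b h => ?_⟩
  · have c1 : bd3_X ρ D ⊆ Zs.biUnion fun z => bx z 400 := fun x hx => by
      obtain ⟨z, hz, e⟩ := H.ex x
      exact mem_biUnion.2 ⟨z, hz, mem_bx.2 (e ▸ (mem_filter.1 hx).2)⟩
    have c2 : #(bd3_X ρ D) ≤ #Zs * 641601 := (card_le_card c1).trans
      (card_biUnion_le_card_mul _ _ _ fun z _ => by
        have := card_bx z (by norm_num : (0 : ℤ) ≤ 400)
        omega)
    have c3 : (#(bd3_X ρ D) : ℝ) ≤ #Zs * 641601 := by exact_mod_cast c2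
    linarith
  · linarith [(bd3_mem_R.1 a).2.1, (bd3_mem_R.1 b).2.2]
  · obtain ⟨⟨a1, a2⟩, a3, -⟩ := bd3_mem_R.1 a
    linarith [(bd3_mem_R.1 b).2.2, (abs_le.1 (H.small h a1 a2)).2]

end

end Pool.Agent.XYU

end

section

open Finset Real Relation

namespace Pool.Agent.XYU

open Classical

noncomputable section

variable {β : ℝ} {q : ℕ} {S : Sys} {w : Es} {f : UC → ℝ}

lemma bd4_cut (hβ : 0 ≤ β) (hq : 0 < q) (hS : Grp S) {R X : Finset V} (hL : S.L = R)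
    (hE : S.E = Ed R) (hs : #(Ed R) ≤ q) (hX : Disjoint X R) (hX0 : ∀ v ∈ X, (S.x.a v).1 = 0)
    (σ : Fld) (χ : V → ℝ)
    (h : ∀ x y, Adj x y → x ∈ R → y ∉ R → y ∉ X → χ y = if σ y = 0 then 0 else 1) :
    exp (-(10 * β * (En (Ed R) X χ + 1))) * Z1 β q S ≤
      Z β q S fun u => ind (Ext R (Ed R) σ u.w) := by
  have h1 := cut hβ hq hS (X := X) (hL ▸ hX) hX0 σ χ (by
    rw [hL, hE]
    intro e he v hv hvR hvX
    obtain ⟨x, y, rfl, hxy, hx⟩ := mem_Ed'.1 he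
    rcases Sym2.mem_iff.1 hv with rfl | rfl
    · exact absurd hx hvR
    · exact h x v hxy hx hvR hvX)
  rw [hL, hE] at h1
  refine le_trans (mul_le_mul_of_nonneg_right (exp_le_exp.2 ?_) (Z1_nonneg hβ hS.a01)) h1
  have hq1 : (1 : ℝ) ≤ q := by exact_mod_cast hq
  have h2 : (#(Ed R) : ℝ) ≤ q := by exact_mod_cast hs
  have h3 : (#(Ed R) : ℝ) / (q : ℝ) ^ 2 ≤ 1 := by
    rw [div_le_one (by positivity)]
    nlinarith
  have h4 : 10 * β * (En (Ed R) X χ + (#(Ed R) : ℝ) / (q : ℝ) ^ 2) ≤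
      10 * β * (En (Ed R) X χ + 1) :=
    mul_le_mul_of_nonneg_left (by linarith) (by positivity)
  linarith

lemma bd4_disj {R R' : Finset V} (hd : Disjoint R R') (ha : ∀ x ∈ R, ∀ y ∈ R', ¬ Adj x y)
    {e : Sym2 V} (he : e ∈ Ed R') : e ∉ Ed R := by
  intro he'
  obtain ⟨x, y, rfl, hxy, hx⟩ := mem_Ed'.1 he
  rcases (mem_Ed.1 he').2 with h1 | h1
  · exact Finset.disjoint_left.1 hd h1 hx
  · exact ha y h1 x hx hxy.symm

lemma two_zone (hβ : 0 ≤ β) (hq : 0 < q) (hS : Grp S) (hs : #S.E ≤ q) {X R R' : Finset V}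
    (hR : S.In R (Ed R)) (hR' : S.In R' (Ed R')) (hd : Disjoint R R')
    (ha : ∀ x ∈ R, ∀ y ∈ R', ¬ Adj x y) (hX : Disjoint X S.L) (hX0 : ∀ v ∈ X, S.x.a v = (0, 0))
    (σ₁ τ₁ : Fld) (χ χ' : V → ℝ)
    (h : ∀ x y, Adj x y → x ∈ R → y ∉ R → y ∉ X → χ y = if σ₁ y = 0 then 0 else 1)
    (h' : ∀ x y, Adj x y → x ∈ R' → y ∉ R' → y ∉ X → χ' y = if τ₁ y = 0 then 0 else 1) :
    exp (-(10 * β * (En (Ed R) X χ + En (Ed R') X χ' + 2))) * Z1 β q S ≤
      Z β q S fun u => ind (Ext R (Ed R) σ₁ u.w) * ind (Ext R' (Ed R') τ₁ u.b) := by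
  have hz : ∀ u ∈ Om q S, ∀ v ∈ X, u.a v = (0, 0) := fun u hu v hv => by
    rw [(mem_Om.1 hu).1 v (Finset.disjoint_left.1 hX hv), hX0 v hv]
  have h1 : Z β q S (fun u => exp (-(10 * β * (En (Ed R) X χ + 1))) *
      ind (Ext R' (Ed R') τ₁ u.b)) ≤
      Z β q S fun u => ind (Ext R (Ed R) σ₁ u.w) * ind (Ext R' (Ed R') τ₁ u.b) := by
    refine dlr hβ hS.a01 hR fun u hu _ => ?_
    have hc : ∀ u' ∈ Om q (S.cond R (Ed R) u),
        ind (Ext R' (Ed R') τ₁ u'.b) = ind (Ext R' (Ed R') τ₁ u.b) := fun u' hu' => by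
      have h4 : u'.b \ Ed R = u.b \ Ed R := (mem_Om.1 hu').2.2.2
      have h5 : u'.b ∩ Ed R' = u.b ∩ Ed R' := by
        ext e
        have h6 := Finset.ext_iff.1 h4 e
        have h7 := bd4_disj hd ha (e := e)
        simp only [mem_sdiff, mem_inter] at h6 ⊢
        tauto
      unfold Ext
      rw [h5]
    have h2 := bd4_cut (S := S.cond R (Ed R) u) hβ hq (hS.cond hR hu) rfl rfl
      ((card_le_card hR.2.1).trans hs) (hX.mono_right hR.1)
      (fun v hv => congrArg Prod.fst (hz u hu v hv)) σ₁ χ h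
    rw [Z_congr (g := fun _ => ind (Ext R' (Ed R') τ₁ u.b) *
        exp (-(10 * β * (En (Ed R) X χ + 1)))) (fun u' hu' _ => by rw [hc u' hu', mul_comm]),
      Z_congr (f := fun u => ind (Ext R (Ed R) σ₁ u.w) * ind (Ext R' (Ed R') τ₁ u.b))
        (g := fun u' => ind (Ext R' (Ed R') τ₁ u.b) * ind (Ext R (Ed R) σ₁ u'.w))
        (fun u' hu' _ => by rw [hc u' hu', mul_comm]), Z_const, Z_mul, mul_assoc]
    exact mul_le_mul_of_nonneg_left h2 (ind_nonneg _)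
  have h2 : Z β q S (fun _ => exp (-(10 * β * (En (Ed R') X χ' + 1)))) ≤
      Z β q S fun u => ind (Ext R' (Ed R') τ₁ u.b) := by
    refine dlr hβ hS.a01 hR' fun u hu _ => ?_
    have h3 := bd4_cut (S := (S.cond R' (Ed R') u).sw) hβ hq (hS.cond hR' hu).sw rfl rfl
      ((card_le_card hR'.2.1).trans hs) (hX.mono_right hR'.1)
      (fun v hv => congrArg Prod.snd (hz u hu v hv)) τ₁ χ' h'
    rw [Z1, Z_sw, Z_sw] at h3
    rw [Z_const]
    exact h3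
  rw [Z_mul] at h1
  rw [Z_const] at h2
  refine le_trans ?_ h1
  have h3 : exp (-(10 * β * (En (Ed R) X χ + En (Ed R') X χ' + 2))) =
      exp (-(10 * β * (En (Ed R) X χ + 1))) * exp (-(10 * β * (En (Ed R') X χ' + 1))) := by
    rw [← exp_add]
    congr 1
    ring
  rw [h3, mul_assoc]
  exact mul_le_mul_of_nonneg_left h2 (exp_pos _).le

end

end Pool.Agent.XYU

end

section

open Finset Real Relation

namespace Pool.Agent.XYU

open Classical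

noncomputable section

variable {β : ℝ} {q : ℕ} {S : Sys} {w : Es} {f : UC → ℝ}

/-- more than `K` labelled clusters of one colour -/
def Many (L ρ : ℤ) (K : ℕ) (u : UC) : Prop := Mge u.w L ρ (K + 1) ∨ Mge u.b L ρ (K + 1)

lemma bd_in {Λ X R : Finset V} {S : Sys} (hL : S.L = Λ \ X) (hE : S.E = Ed Λ) (h : R ⊆ Λ \ X) :
    S.In R (Ed R) := by
  refine ⟨hL ▸ h, hE ▸ Ed_mono (h.trans sdiff_subset), fun e he hn v hv hR => hn ?_⟩
  rw [hE] at he
  obtain ⟨x, y, rfl, hxy, -⟩ := mem_Ed'.1 he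
  rcases Sym2.mem_iff.1 hv with rfl | rfl
  · exact mem_Ed.2 ⟨hxy, Or.inl hR⟩
  · exact mem_Ed.2 ⟨hxy, Or.inr hR⟩

lemma bd_card (Λ X : Finset V) :
    (#((Ed Λ).filter fun e => ∃ v ∈ X, v ∈ e) : ℝ) ≤ 4 * #X := by
  have h : ((Ed Λ).filter fun e => ∃ v ∈ X, v ∈ e) ⊆ Ed X := by
    intro e he
    obtain ⟨he, v, hX, hv⟩ := mem_filter.1 he
    obtain ⟨x, y, rfl, hxy, -⟩ := mem_Ed'.1 he
    rcases Sym2.mem_iff.1 hv with rfl | rfl
    · exact mem_Ed.2 ⟨hxy, Or.inl hX⟩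
    · exact mem_Ed.2 ⟨hxy, Or.inr hX⟩
  exact_mod_cast (card_le_card h).trans (card_Ed X)

/-- the extension of the zone labels is an admissible field -/
lemma bd_at {L ρ : ℤ} (hL : ρ ≤ L) {σ lam σ₁ : Fld} {X R : Finset V} {χ : V → ℝ} {e : ℝ}
    {w w' : Es} (h1 : ∀ v ∉ bx 0 L, lam v = σ v) (h2 : cp lam (w \ Ed (bx 0 ρ)))
    (hZ : Zone ρ lam X R σ₁ χ e) (hw' : ∀ e ∈ Ed (bx 0 ρ), e ∈ w' → ∀ v ∈ e, v ∉ X)
    (h : Ext R (Ed R) σ₁ w') :
    AT ((Off (bx 0 L) σ).filter fun s => cp s (w ∩ (Ed (bx 0 L) \ Ed (bx 0 ρ))))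
      (w' ∩ Ed (bx 0 ρ)) := by
  obtain ⟨s, hs, hc⟩ := h
  have hR : ∀ v, v ∉ bx 0 ρ → v ∉ R := fun v hv hr => hv (mem_sdiff.1 (hZ.sub hr)).1
  have ho : ∀ v, v ∉ bx 0 ρ → s v = lam v := fun v hv => (hs v (hR v hv)).trans (hZ.out v hv)
  refine ⟨s, mem_filter.2 ⟨mem_Off.2 fun v hv => ?_, fun x y hxy => ?_⟩, fun x y hxy => ?_⟩
  · rw [ho v fun h => hv (mem_bx0.2 ((mem_bx0.1 h).trans hL)), h1 v hv]
  · obtain ⟨hw, hE⟩ := mem_inter.1 hxy
    obtain ⟨hE, hn⟩ := mem_sdiff.1 hE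
    have ha := (mem_Ed.1 hE).1
    rw [ho x fun h => hn (mem_Ed.2 ⟨ha, Or.inl h⟩), ho y fun h => hn (mem_Ed.2 ⟨ha, Or.inr h⟩)]
    exact h2 x y (mem_sdiff.2 ⟨hw, hn⟩)
  · obtain ⟨hw, hE⟩ := mem_inter.1 hxy
    obtain ⟨ha, hm⟩ := mem_Ed.1 hE
    by_cases hr : x ∈ R ∨ y ∈ R
    · exact hc x y (mem_inter.2 ⟨hw, mem_Ed.2 ⟨ha, hr⟩⟩)
    · have hx : x ∉ R := fun h => hr (Or.inl h)
      have hy : y ∉ R := fun h => hr (Or.inr h)
      have hx' := hw' _ hE hw x (Sym2.mem_mk_left x y)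
      have hy' := hw' _ hE hw y (Sym2.mem_mk_right x y)
      rw [hs x hx, hs y hy]
      rcases hm with hm | hm
      · exact hZ.con x y ha hm hx hy hx' hy'
      · exact (hZ.con y x ha.symm hm hy hx hy' hx').symm

lemma bd_log {ρ : ℤ} (h : 1 ≤ ρ) : 1 ≤ log ((ρ : ℝ) + 2) := by
  have h' : (1 : ℝ) ≤ ρ := by exact_mod_cast h
  rw [le_log_iff_exp_le (by linarith)]
  have := exp_one_lt_d9
  linarith

lemma bd_om {L : ℤ} {a : V → ℝ × ℝ} {σ τ : Fld} {u : UC} (hu : u ∈ Om q (GS L a σ τ)) :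
    u ∈ Om q (G0 L a) := hu

lemma bd_sub {L ρ : ℤ} (h : ρ ≤ L) : bx 0 ρ ⊆ bx 0 L :=
  fun _ hv => mem_bx0.2 ((mem_bx0.1 hv).trans h)

lemma bd_end {β C K l e₁ e₂ x n z z₀ g g₀ : ℝ} (hβ : 0 ≤ β) (hC : 0 ≤ C) (hK : 0 ≤ K) (hl : 1 ≤ l)
    (e1 : e₁ ≤ C * (48 * (K + 1) + 1) * l) (e2 : e₂ ≤ C * (48 * (K + 1) + 1) * l)
    (hx : x ≤ C * (48 * (K + 1) + 1)) (hn : n ≤ 4 * x) (hz : 0 < z) (hz₀ : 0 ≤ z₀)
    (h2 : exp (-(10 * β * (e₁ + e₂ + 2))) * z ≤ g)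
    (h4 : exp (-(4 * β * n)) * (g * z₀) ≤ g₀ * z) :
    z₀ ≤ exp (β * (1764 * C + 20) * (K + 1) * l) * g₀ := by
  have a1 : C * (48 * (K + 1) + 1) ≤ 49 * (C * (K + 1)) := by nlinarith
  have a2 : C * (K + 1) ≤ C * (K + 1) * l := le_mul_of_one_le_right (by positivity) hl
  have a3 : C * (48 * (K + 1) + 1) * l ≤ 49 * (C * (K + 1)) * l :=
    mul_le_mul_of_nonneg_right a1 (by linarith)
  have a4 : 1 ≤ (K + 1) * l := by nlinarith
  have a6 : 10 * (e₁ + e₂ + 2) + 4 * n ≤ (1764 * C + 20) * (K + 1) * l := by nlinarith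
  generalize hA : 10 * β * (e₁ + e₂ + 2) = A at h2
  generalize hB : 4 * β * n = B at h4
  have hAB : A + B ≤ β * (1764 * C + 20) * (K + 1) * l := by
    calc A + B = β * (10 * (e₁ + e₂ + 2) + 4 * n) := by rw [← hA, ← hB]; ring
      _ ≤ β * ((1764 * C + 20) * (K + 1) * l) := mul_le_mul_of_nonneg_left a6 hβ
      _ = _ := by ring
  have h6 : exp (-B) * (exp (-A) * z₀) * z ≤ g₀ * z := by
    refine le_trans ?_ h4
    calc _ = exp (-B) * (exp (-A) * z * z₀) := by ring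
      _ ≤ _ := by gcongr
  have h7 := le_of_mul_le_mul_right h6 hz
  have h8 : z₀ = exp (A + B) * (exp (-B) * (exp (-A) * z₀)) := by
    rw [← mul_assoc, ← mul_assoc, ← exp_add, ← exp_add]
    simp
  rw [h8]
  exact mul_le_mul (exp_le_exp.2 hAB) h7 (by positivity) (exp_pos _).le

theorem crude (hβ : 0 ≤ β) : ∃ C : ℝ, 0 ≤ C ∧ ∀ (q : ℕ) (L ρ : ℤ) (K : ℕ) (a : V → ℝ × ℝ)
    (σ τ : Fld) (u : UC), LG q (G0 L a) → 1 ≤ ρ → ρ ≤ L → u ∈ Om q (GS L a σ τ) →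
      wt β (GS L a σ τ) u ≠ 0 → ¬ Many L ρ K u →
      Z1 β q ((G0 L a).lc (bx 0 ρ) u) ≤
        exp (C * (K + 1) * log (ρ + 2)) * Z1 β q ((GS L a σ τ).lc (bx 0 ρ) u) := by
  obtain ⟨C, hC, hz⟩ := zones
  refine ⟨β * (1764 * C + 20), by positivity, fun q L ρ K a σ τ u hG hρ hL hu hwt hM => ?_⟩
  have hq := hG.pos
  have hS0 : LG q ((G0 L a).lc (bx 0 ρ) u) := hG.lc (bd_sub hL) (bd_om hu)
  obtain ⟨-, -, hw, hb⟩ := mem_Om.1 hu
  have hw : u.w ⊆ Ed (bx 0 L) := by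
    rw [← sdiff_eq_empty_iff_subset]
    exact hw.trans (empty_sdiff _)
  have hb : u.b ⊆ Ed (bx 0 L) := by
    rw [← sdiff_eq_empty_iff_subset]
    exact hb.trans (empty_sdiff _)
  obtain ⟨⟨s, hs, hsc⟩, ⟨t, ht, htc⟩, -, -⟩ := wt_ne hwt
  have hsc : cp s u.w := cp_mono (subset_inter Subset.rfl hw) hsc
  have htc : cp t u.b := cp_mono (subset_inter Subset.rfl hb) htc
  obtain ⟨lam, l1, l2, l3⟩ := labels hρ hL hw (mem_Off.1 hs) hsc fun h => hM (Or.inl h)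
  obtain ⟨lam', m1, m2, m3⟩ := labels hρ hL hb (mem_Off.1 ht) htc fun h => hM (Or.inr h)
  obtain ⟨X, R, R', σ₁, τ₁, χ, χ', hX, hXc, hZ, hZ', hd, hadj⟩ :=
    hz ρ lam lam' (48 * (K + 1)) hρ l3 m3
  set S0 := (G0 L a).lc (bx 0 ρ) u with hS0e
  set S1 := (GS L a σ τ).lc (bx 0 ρ) u with hS1e
  have hgr : Grp (S0.rem X) := hS0.grp.rem X
  have h2 := two_zone (S := S0.rem X) hβ hq hgr hS0.sz (bd_in rfl rfl hZ.sub)
    (bd_in rfl rfl hZ'.sub) hd hadj disjoint_sdiff (fun v hv => if_pos hv) σ₁ τ₁ χ χ' hZ.val hZ'.val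
  let G : Es → Es → ℝ := fun w b =>
    ind (AT S1.T (w ∩ Ed (bx 0 ρ))) * ind (AT S1.U (b ∩ Ed (bx 0 ρ)))
  have hG0 : ∀ w b, 0 ≤ G w b := fun w b => mul_nonneg (ind_nonneg _) (ind_nonneg _)
  have h3 : Z β q (S0.rem X) (fun u => ind (Ext R (Ed R) σ₁ u.w) * ind (Ext R' (Ed R') τ₁ u.b)) ≤
      Z β q (S0.rem X) fun u => G u.w u.b := by
    refine Z_mono hβ hgr.a01 fun u' hu' hw' => ?_
    obtain ⟨-, -, k1, k2⟩ := wt_ne hw'
    have k0 : ∀ v ∈ X, u'.a v = (0, 0) := fun v hv =>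
      ((mem_Om.1 hu').1 v fun h => (mem_sdiff.1 h).2 hv).trans (if_pos hv)
    refine mul_le_mul (ind_mono fun h => bd_at hL l1 l2 hZ (fun e he hw v hv hx => ?_) h)
      (ind_mono fun h => bd_at hL m1 m2 hZ' (fun e he hw v hv hx => ?_) h) (ind_nonneg _)
      (ind_nonneg _)
    · exact k1 e he hw v hv (by rw [k0 v hx])
    · exact k2 e he hw v hv (by rw [k0 v hx])
  have h4 := rem (q := q) hβ hS0.grp.a01 (S := S0) hX G hG0
  have h5 : Z1 β q S1 = Z β q S0 fun u => G u.w u.b := by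
    unfold Z1
    rw [hS1e, Z_GS_lc]
    simp only [one_mul]
    rfl
  have hp := hgr.pos hβ hq
  have hp0 := hS0.grp.pos hβ hq
  have hc := bd_card (bx 0 ρ) X
  have hl := bd_log hρ
  have hK : (0 : ℝ) ≤ K := Nat.cast_nonneg K
  have e1 := hZ.en
  have e2 := hZ'.en
  push_cast at hXc e1 e2
  rw [h5]
  exact bd_end hβ hC hK hl e1 e2 hXc hc hp hp0.le (h2.trans h3) h4

theorem transfer (hβ : 0 ≤ β) : ∃ C : ℝ, 0 ≤ C ∧ ∀ (q : ℕ) (L ρ : ℤ) (K : ℕ) (a : V → ℝ × ℝ)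
    (σ τ : Fld) (f : UC → ℝ) (p : ℝ), LG q (G0 L a) → 1 ≤ ρ → ρ ≤ L → (∀ u, 0 ≤ f u) → 0 ≤ p →
      UB β q (bx 0 ρ) f p → Z β q (GS L a σ τ) (fun u => f u * ind (¬ Many L ρ K u)) ≤
        p * exp (C * (K + 1) * log (ρ + 2)) * Z1 β q (GS L a σ τ) := by
  obtain ⟨C, hC, hc⟩ := crude hβ
  refine ⟨C, hC, fun q L ρ K a σ τ f p hG hρ hL hf hp hU => ?_⟩
  rw [← Z_const]
  refine dlr (S := GS L a σ τ) hβ hG.grp.a01 (lc_in rfl (bd_sub hL)) fun u hu hwt => ?_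
  have hS0 : LG q ((G0 L a).lc (bx 0 ρ) u) := hG.lc (bd_sub hL) (bd_om hu)
  change Z β q ((GS L a σ τ).lc (bx 0 ρ) u) _ ≤ Z β q ((GS L a σ τ).lc (bx 0 ρ) u) _
  have h01 : A01 ((GS L a σ τ).lc (bx 0 ρ) u).x.a := hS0.grp.a01
  by_cases hM : Many L ρ K u
  · refine Z_mono hβ h01 fun u' hu' _ => ?_
    obtain ⟨-, -, k1, k2⟩ := mem_Om_lc.1 hu'
    have hM' : Many L ρ K u' := hM.imp (fun h => mge_dep h k1) fun h => mge_dep h k2
    rw [ind_neg (not_not.2 hM'), mul_zero]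
    positivity
  · rw [Z_const, Z_GS_lc, mul_assoc]
    refine le_trans (Z_mono (g := f) hβ hS0.grp.a01 fun u' _ _ => ?_)
      ((hU _ hS0 Subset.rfl).trans
        (mul_le_mul_of_nonneg_left (hc q L ρ K a σ τ u hG hρ hL hu hwt hM) hp))
    rw [mul_assoc]
    exact mul_le_of_le_one_right (hf _) (mul_le_one₀ (ind_le_one _)
      (mul_nonneg (ind_nonneg _) (ind_nonneg _))
      (mul_le_one₀ (ind_le_one _) (ind_nonneg _) (ind_le_one _)))

end

end Pool.Agent.XYU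

end

end

-- part MP_b591f0_mp.XY.D1
section

section

open Finset Real Relation

namespace Pool.Agent.XYU

open Classical

noncomputable section

/-! One fence. `lk_pos`: `pl_half` with `P` the lattice component in `HB W \ k`, `Q` the union
of `k` and one outer neighbour of its point of norm `W`, `c = 0`. `fence_prof`: with
`tent r = max 0 (min ((r - 5j)/(2j)) ((9j - r)/(2j)))`, put `χ v = tent (nm v)` on `Lk`, `0` on the
rest of the upper half plane, and `tent v.1 * min 1 (max 0 ((4j + v.2)/(2j)))` below the axis;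
along edges from `Fz` that avoid `k` it moves by at most `1/j` (`lk_closed`, `lk_pos`), and
`#Fz ≤ 18 j * 13 j`; `en_le`. `df_of_ext`: the field is `1` on `It`, `0` on the points of norm
`9 j`, and constant along the walk (an edge of `Ed Fz` inside `Hz` either touches `Fz \ It` or
joins two points of `It`, or cannot occur). `df_max`: `dlr` in `Smax` on `Fz \ It`, `cut` with
`X = k`. `gd_congr`: `Z_congr_x`. `gd_anti`, `gd_use`: `mon` applied to `-ind Df`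
(for `gd_use`: a field of the red group of `Sq` is supported in `Fz`, use `Fl.add`; a blue field
is cut to `Fz ∪ ends (Ed Fz)`; the upper neighbours of `Pb` lie in `Fz`). `gd_max`: `dlr` on `Pb`
gives `Z (ind Df) ≤ Z (ind Gd + cf/2)`, as `pa Fz k u = u` on `Om`. `gd_inside`: some state of
`Sq` satisfies `Df`; the walk stays in `Lk`; `Cn.first` at level `9j`, `Cn.last` at level `7j`. -/

variable {β : ℝ} {q : ℕ} {S : Sys} {W j : ℤ} {k : Finset V} {w w' : Es} {u u' : UC} {v v' : V}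

lemma da1_hb : v ∈ HB W ↔ -W ≤ v.1 ∧ v.1 ≤ W ∧ 0 ≤ v.2 ∧ v.2 ≤ W := mem_rect

lemma da1_pb : v ∈ Pb j ↔ 5 * j + 1 ≤ v.1 ∧ v.1 ≤ 9 * j - 1 ∧ -(4 * j - 1) ≤ v.2 ∧ v.2 ≤ -1 :=
  mem_rect

lemma da1_fz : v ∈ Fz W j k ↔ (v ∈ Lk W k ∧ 5 * j < nm v ∧ nm v < 9 * j) ∨ v ∈ Pb j := by
  rw [Fz, mem_union, mem_filter]

lemma Tip.tg (h : Tip W k w) : TG W k := by
  obtain ⟨rfl, ⟨v, hv, hn⟩, h3⟩ := h
  obtain ⟨h1, h2⟩ := mem_cl.1 hv
  have h4 := da1_hb.1 h1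
  refine ⟨filter_subset _ _, mem_cl.2 ⟨da1_hb.2 ?_, ReflTransGen.refl⟩,
    ⟨v, hn, h2.lc.mono fun z hz => mem_cl.2 hz⟩, h3⟩
  simp only [Prod.fst_zero, Prod.snd_zero]
  omega

lemma lk_sub (h : v ∈ Lk W k) : v ∈ HB W ∧ v ∉ k := by
  obtain ⟨-, t, -, h1, h2⟩ := mem_filter.1 h
  exact mem_sdiff.1 (h2.mem h1)

lemma lk_axis (h : TG W k) {t : ℤ} (ht : 0 < t) (ht' : t ≤ W) : (t, 0) ∈ Lk W k := by
  have h1 : (t, 0) ∈ HB W := da1_hb.2 (by simp only; omega)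
  exact mem_filter.2 ⟨h1, t, ht, mem_sdiff.2 ⟨h1, h.2.2.2 t ht⟩, ReflTransGen.refl⟩

lemma lk_closed (h : v ∈ Lk W k) (ha : Adj v v') (h' : v' ∈ HB W) (hk : v' ∉ k) :
    v' ∈ Lk W k := by
  obtain ⟨-, t, ht, h1, h2⟩ := mem_filter.1 h
  exact mem_filter.2 ⟨h', t, ht, h1, ReflTransGen.tail h2 ⟨h2.mem h1, mem_sdiff.2 ⟨h', hk⟩, ha⟩⟩

lemma lk_pos (h : TG W k) {t : ℤ} (ht : (t, 0) ∈ Lk W k) : 0 < t := by
  obtain ⟨h1, h2, ⟨v, hn, hv⟩, -⟩ := h
  obtain ⟨-, s, hs, -, h3⟩ := mem_filter.1 ht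
  rcases lt_trichotomy t 0 with h0 | rfl | h0
  · have hk : v ∈ k := hv.mem h2
    have h4 := da1_hb.1 (h1 hk)
    obtain ⟨z, z1, z2, z3⟩ : ∃ z : V, Adj v z ∧ 0 ≤ z.2 ∧ ¬ (-W ≤ z.1 ∧ z.1 ≤ W ∧ z.2 ≤ W) := by
      unfold nm at hn
      unfold Adj
      by_cases c1 : v.1 = W
      · exact ⟨(v.1 + 1, v.2), by dsimp only; omega⟩
      by_cases c2 : v.1 = -W
      · exact ⟨(v.1 - 1, v.2), by dsimp only; omega⟩
      · exact ⟨(v.1, v.2 + 1), by dsimp only; omega⟩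
    refine absurd (pl_half (Q := insert z (k : Set V)) (fun y hy => da1_hb.1 (mem_sdiff.1 hy).1)
      h3.symm h0 hs ?_ (Or.inr h2) (ReflTransGen.tail (hv.mono (Set.subset_insert _ _))
        ⟨Or.inr hk, Or.inl rfl, z1⟩)) z3
    rintro y (rfl | hy)
    · refine ⟨z2, fun h5 => z3 ?_⟩
      have := da1_hb.1 (mem_sdiff.1 h5).1
      omega
    · exact ⟨(da1_hb.1 (h1 hy)).2.2.1, fun h5 => (mem_sdiff.1 h5).2 hy⟩
  · exact absurd h2 (lk_sub ht).2
  · exact h0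

lemma fz_nm (hj : 1 ≤ j) (h : v ∈ Fz W j k) : 5 * j < nm v ∧ nm v < 9 * j := by
  rcases da1_fz.1 h with h | h
  · exact h.2
  · have := da1_pb.1 h
    unfold nm
    omega

lemma fz_disj (h : TG W k) : Disjoint k (Fz W j k) := by
  refine disjoint_left.2 fun v hv h1 => ?_
  rcases da1_fz.1 h1 with h1 | h1
  · exact (lk_sub h1.1).2 hv
  · have := da1_pb.1 h1
    have := da1_hb.1 (h.1 hv)
    omega

lemma ed_fz (h : TG W k) (hj : 1 ≤ j) (hW : 9 * j ≤ W) {e : Sym2 V} (he : e ∈ Ed (Fz W j k))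
    (he' : e ∉ Ed (Pb j)) : e ∈ Ei (HB W) := by
  obtain ⟨x, y, rfl, ha, hx⟩ := mem_Ed'.1 he
  obtain ⟨h1, h2⟩ := (da1_fz.1 hx).resolve_right fun h1 => he' (mem_Ed.2 ⟨ha, Or.inl h1⟩)
  have h3 := (lk_sub h1).1
  have h4 : y ∉ Pb j := fun h1 => he' (mem_Ed.2 ⟨ha, Or.inr h1⟩)
  refine mem_Ei.2 ⟨ha, h3, ?_⟩
  have h5 : x.2 = 0 → 0 < x.1 := fun h0 => lk_pos h (h0 ▸ h1)
  rw [da1_pb] at h4
  rw [da1_hb] at h3 ⊢
  unfold nm at h2
  unfold Adj at ha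
  omega

lemma Tip.clo (h : Tip W k w) (hj : 1 ≤ j) (hW : 9 * j ≤ W) : Clo (Ed (Fz W j k)) k w := by
  rintro e he ⟨v, hv, hve⟩ hw
  obtain ⟨x, y, rfl, ha, hx⟩ := mem_Ed'.1 he
  have h1 : x ∉ k := fun h1 => disjoint_left.1 (fz_disj h.tg) h1 hx
  obtain rfl : v = y := (Sym2.mem_iff.1 hve).resolve_left fun h2 => h1 (h2 ▸ hv)
  have h2 := h.tg.1 hv
  rcases da1_fz.1 hx with h3 | h3
  · have h4 := (lk_sub h3.1).1
    rw [h.1] at hv h1
    exact h1 (mem_cl.2 ⟨h4, (mem_cl.1 hv).2.step h2 h4 ha.symm (Sym2.eq_swap ▸ hw)⟩)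
  · have h5 : v.2 = 0 → ¬ 0 < v.1 := fun h0 h6 => h.2.2 _ h6 (h0 ▸ hv)
    rw [da1_pb] at h3
    rw [da1_hb] at h2
    unfold Adj at ha
    omega

lemma Tip.lc (h : Tip W k w) (hw : ∀ e ∉ Ed (Fz W j k), e ∈ w' ↔ e ∈ w)
    (hc : Clo (Ed (Fz W j k)) k w') : Tip W k w' := by
  have hk : ∀ y, y ∈ k ↔ y ∈ HB W ∧ Cn w (HB W) 0 y := fun y => by
    rw [← mem_cl, ← h.1]
  refine ⟨Finset.ext fun y => ?_, h.2⟩
  rw [mem_cl]
  refine ⟨fun hy => ⟨h.tg.1 hy, ?_⟩, fun hy => hy.2.closed (N := (k : Set V)) h.tg.2.1 ?_⟩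
  · have h1 := ((hk y).1 hy).2
    clear hy
    induction h1 with
    | refl => exact ReflTransGen.refl
    | @tail a b h1 h2 ih =>
      refine ReflTransGen.tail ih ⟨h2.1, h2.2.1, h2.2.2.1, (hw _ fun he => ?_).2 h2.2.2.2⟩
      rcases (mem_Ed.1 he).2 with h3 | h3
      · exact disjoint_left.1 (fz_disj h.tg) ((hk a).2 ⟨h2.1, h1⟩) h3
      · exact disjoint_left.1 (fz_disj h.tg) ((hk b).2 ⟨h2.2.1, ReflTransGen.tail h1 h2⟩) h3
  · intro a b ha h1 h2 h3 h4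
    exact (hk b).2 ⟨h2, ((hk a).1 ha).2.step h1 h2 h3
      ((hw _ fun he => hc _ he ⟨a, ha, Sym2.mem_mk_left _ _⟩ h4).1 h4)⟩

lemma Tip.congr (h : Tip W k w) (hw : ∀ e ∈ Ei (HB W), e ∈ w' ↔ e ∈ w) : Tip W k w' := by
  refine ⟨h.1.trans (Finset.ext fun y => ?_), h.2⟩
  rw [mem_cl, mem_cl]
  exact and_congr_right fun _ =>
    ⟨fun h1 => h1.mono subset_rfl fun a b ha hb h2 => (hw _ (mem_Ei.2 ⟨h2, ha, hb⟩)).2,
      fun h1 => h1.mono subset_rfl fun a b ha hb h2 => (hw _ (mem_Ei.2 ⟨h2, ha, hb⟩)).1⟩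

lemma Df.anti (h : Df W j k w') (hw : w ∩ Ed (Fz W j k) ⊆ w') : Df W j k w :=
  fun v v' h1 h2 h3 => h v v' h1 h2 (h3.mono subset_rfl fun _ _ _ _ _ he =>
    mem_inter.2 ⟨hw he, (mem_inter.1 he).2⟩)

end

end Pool.Agent.XYU

end

section

open Finset Real Relation

namespace Pool.Agent.XYU

open Classical

noncomputable section

variable {β : ℝ} {q : ℕ} {S : Sys} {W j : ℤ} {k : Finset V} {w w' : Es} {u u' : UC} {v v' : V}

/-- the inner rim of the fence -/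
def It (W j : ℤ) (k : Finset V) : Finset V := (Hz W j (2 * j) k).filter fun v => nm v = 7 * j

def da2_tent (j r : ℤ) : ℝ :=
  max 0 (min (((r : ℝ) - 5 * j) / (2 * j)) ((9 * j - (r : ℝ)) / (2 * j)))

def da2_cut (j r : ℤ) : ℝ := min 1 (max 0 ((4 * j + (r : ℝ)) / (2 * j)))

def da2_chi (W j : ℤ) (k : Finset V) (v : V) : ℝ :=
  if 0 ≤ v.2 then (if v ∈ Lk W k then da2_tent j (nm v) else 0)
  else da2_tent j v.1 * da2_cut j v.2

lemma da2_tent_one (hj : 1 ≤ j) : da2_tent j (7 * j) = 1 := by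
  have p : (0 : ℝ) < j := by exact_mod_cast hj
  have e1 : (((7 * j : ℤ) : ℝ) - 5 * j) / (2 * j) = 1 := by push_cast; field_simp; ring
  have e2 : (9 * j - ((7 * j : ℤ) : ℝ)) / (2 * j) = 1 := by push_cast; field_simp; ring
  rw [da2_tent, e1, e2, min_self, max_eq_right zero_le_one]

lemma da2_tent_zero (hj : 1 ≤ j) {r : ℤ} (h : r ≤ 5 * j ∨ 9 * j ≤ r) : da2_tent j r = 0 := by
  have p : (0 : ℝ) < j := by exact_mod_cast hj
  refine max_eq_left ?_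
  rcases h with h | h
  · have : (r : ℝ) ≤ 5 * j := by exact_mod_cast h
    exact min_le_of_left_le (div_nonpos_of_nonpos_of_nonneg (by linarith) (by positivity))
  · have : 9 * (j : ℝ) ≤ r := by exact_mod_cast h
    exact min_le_of_right_le (div_nonpos_of_nonpos_of_nonneg (by linarith) (by positivity))

lemma da2_tent_01 (hj : 1 ≤ j) (r : ℤ) : |da2_tent j r| ≤ 1 := by
  have p : (0 : ℝ) < j := by exact_mod_cast hj
  rw [abs_of_nonneg (le_max_left _ _)]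
  refine max_le zero_le_one ?_
  rcases le_total (r : ℝ) (7 * j) with h | h
  · exact min_le_of_left_le ((div_le_one (by positivity)).2 (by linarith))
  · exact min_le_of_right_le ((div_le_one (by positivity)).2 (by linarith))

lemma da2_div (hj : 1 ≤ j) {a b : ℝ} (h : |a - b| ≤ 1) :
    |a / (2 * j) - b / (2 * j)| ≤ 1 / (2 * j) := by
  have p : (0 : ℝ) < j := by exact_mod_cast hj
  rw [← sub_div, abs_div, abs_of_pos (by positivity : (0 : ℝ) < 2 * j)]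
  gcongr

lemma da2_tent_lip (hj : 1 ≤ j) {r r' : ℤ} (h : r ≤ r' + 1) (h' : r' ≤ r + 1) :
    |da2_tent j r - da2_tent j r'| ≤ 1 / (2 * j) := by
  have p : (0 : ℝ) < j := by exact_mod_cast hj
  have a : (r : ℝ) ≤ r' + 1 := by exact_mod_cast h
  have b : (r' : ℝ) ≤ r + 1 := by exact_mod_cast h'
  refine (abs_max_sub_max_le_max _ _ _ _).trans (max_le (by simp; positivity) ?_)
  refine (abs_min_sub_min_le_max _ _ _ _).trans (max_le ?_ ?_) <;>
    exact da2_div hj (abs_le.2 ⟨by linarith, by linarith⟩)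

lemma da2_cut_one (hj : 1 ≤ j) {r : ℤ} (h : -(2 * j) ≤ r) : da2_cut j r = 1 := by
  have p : (0 : ℝ) < j := by exact_mod_cast hj
  have a : -(2 * (j : ℝ)) ≤ r := by exact_mod_cast h
  exact min_eq_left (le_max_of_le_right ((one_le_div (by positivity)).2 (by linarith)))

lemma da2_cut_zero (hj : 1 ≤ j) {r : ℤ} (h : r ≤ -(4 * j)) : da2_cut j r = 0 := by
  have p : (0 : ℝ) < j := by exact_mod_cast hj
  have a : (r : ℝ) ≤ -(4 * j) := by exact_mod_cast h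
  rw [da2_cut, max_eq_left (div_nonpos_of_nonpos_of_nonneg (by linarith) (by positivity)),
    min_eq_right zero_le_one]

lemma da2_cut_01 (j r : ℤ) : |da2_cut j r| ≤ 1 := by
  rw [abs_of_nonneg (le_min zero_le_one (le_max_left _ _))]
  exact min_le_left _ _

lemma da2_cut_lip (hj : 1 ≤ j) {r r' : ℤ} (h : r ≤ r' + 1) (h' : r' ≤ r + 1) :
    |da2_cut j r - da2_cut j r'| ≤ 1 / (2 * j) := by
  have p : (0 : ℝ) < j := by exact_mod_cast hj
  have a : (r : ℝ) ≤ r' + 1 := by exact_mod_cast h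
  have b : (r' : ℝ) ≤ r + 1 := by exact_mod_cast h'
  refine (abs_min_sub_min_le_max _ _ _ _).trans (max_le (by simp; positivity) ?_)
  refine (abs_max_sub_max_le_max _ _ _ _).trans (max_le (by simp; positivity) ?_)
  exact da2_div hj (abs_le.2 ⟨by linarith, by linarith⟩)

lemma da2_mem_Fz : v ∈ Fz W j k ↔ (v ∈ Lk W k ∧ 5 * j < nm v ∧ nm v < 9 * j) ∨
    (5 * j + 1 ≤ v.1 ∧ v.1 ≤ 9 * j - 1 ∧ -(4 * j - 1) ≤ v.2 ∧ v.2 ≤ -1) := by
  rw [Fz, mem_union, mem_filter, Pb, mem_rect]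

lemma da2_mem_Hz : v ∈ Hz W j (2 * j) k ↔ (v ∈ Lk W k ∧ 7 * j ≤ nm v ∧ nm v ≤ 9 * j) ∨
    (7 * j ≤ v.1 ∧ v.1 ≤ 9 * j ∧ -(2 * j) ≤ v.2 ∧ v.2 ≤ -1) := by
  rw [Hz, mem_union, mem_filter, mem_rect]

lemma da2_up (h : v ∈ Lk W k) : 0 ≤ v.2 := (mem_rect.1 (lk_sub h).1).2.2.1

lemma da2_axis (hj : 1 ≤ j) {t : ℤ} (ht : 0 < t) (h : (t, 0) ∈ Lk W k) :
    da2_chi W j k (t, 0) = da2_chi W j k (t, -1) := by
  have e : nm (t, 0) = t := by simp only [nm]; omega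
  rw [da2_chi, da2_chi, if_pos le_rfl, if_pos h, if_neg (by simp), e,
    da2_cut_one hj (by simp only; omega), mul_one]

lemma fence_prof (h : TG W k) (hj : 1 ≤ j) (hW : 9 * j ≤ W) : ∃ χ : V → ℝ,
    (∀ x y, Adj x y → x ∈ Fz W j k \ It W j k → y ∉ Fz W j k \ It W j k → y ∉ k →
      χ y = if y ∈ It W j k then 1 else 0) ∧ En (Ed (Fz W j k \ It W j k)) k χ ≤ 1000 := by
  have p : (0 : ℝ) < j := by exact_mod_cast hj
  refine ⟨da2_chi W j k, fun x y _ _ hy _ => ?_, ?_⟩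
  · by_cases hI : y ∈ It W j k
    · rw [if_pos hI]
      obtain ⟨h1, h2⟩ := mem_filter.1 hI
      rcases da2_mem_Hz.1 h1 with h1 | h1
      · rw [da2_chi, if_pos (da2_up h1.1), if_pos h1.1, h2, da2_tent_one hj]
      · have e : y.1 = 7 * j := by unfold nm at h2; omega
        rw [da2_chi, if_neg (by omega), e, da2_tent_one hj, da2_cut_one hj h1.2.2.1, mul_one]
    · rw [if_neg hI]
      have h1 : y ∉ Fz W j k := fun h1 => hy (mem_sdiff.2 ⟨h1, hI⟩)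
      rw [da2_mem_Fz, not_or] at h1
      unfold da2_chi
      split_ifs with a b
      · have : ¬ (5 * j < nm y ∧ nm y < 9 * j) := fun c => h1.1 ⟨b, c⟩
        exact da2_tent_zero hj (by omega)
      · rfl
      · have h2 := h1.2
        by_cases c : y.2 ≤ -(4 * j)
        · rw [da2_cut_zero hj c, mul_zero]
        · rw [da2_tent_zero hj (by omega), zero_mul]
  · refine (en_le _ _ _ (1 / (2 * j)) fun x y ha hx _ hy => ?_).trans ?_
    · have hn := bd3_nm ha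
      have p2 : (0 : ℝ) ≤ 1 / (2 * j) := by positivity
      obtain ⟨x1, x2⟩ := x
      obtain ⟨y1, y2⟩ := y
      rcases da2_mem_Fz.1 (mem_sdiff.1 hx).1 with ⟨h1, h2, h3⟩ | h1
      · have h4 := da2_up h1
        by_cases hy2 : 0 ≤ y2
        · have h5 : (y1, y2) ∈ Lk W k := lk_closed h1 ha (mem_rect.2 (by
            have : nm (y1, y2) ≤ W := by omega
            simp only [nm] at this ⊢
            omega)) hy
          rw [da2_chi, da2_chi, if_pos h4, if_pos h1, if_pos hy2, if_pos h5]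
          exact da2_tent_lip hj hn.2 hn.1
        · obtain ⟨rfl, rfl, rfl⟩ : x1 = y1 ∧ x2 = 0 ∧ y2 = -1 := by
            simp only [Adj] at ha h4; omega
          rwa [da2_axis hj (lk_pos h h1) h1, sub_self, abs_zero]
      · simp only at h1
        by_cases hy2 : 0 ≤ y2
        · obtain ⟨rfl, rfl, rfl⟩ : x1 = y1 ∧ x2 = -1 ∧ y2 = 0 := by
            simp only [Adj] at ha; omega
          rwa [da2_axis hj (by omega) (lk_axis h (by omega) (by omega)), sub_self, abs_zero]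
        · rw [da2_chi, da2_chi, if_neg (by simp only; omega), if_neg hy2]
          simp only [Adj] at ha ⊢
          rcases ha with ⟨rfl, ha⟩ | ⟨rfl, ha⟩
          · rw [← mul_sub, abs_mul]
            exact (mul_le_of_le_one_left (abs_nonneg _) (da2_tent_01 hj _)).trans
              (da2_cut_lip hj (by omega) (by omega))
          · rw [← sub_mul, abs_mul]
            exact (mul_le_of_le_one_right (abs_nonneg _) (da2_cut_01 _ _)).trans
              (da2_tent_lip hj (by omega) (by omega))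
    · have c1 : Fz W j k \ It W j k ⊆ rect (-(9 * j) + 1) (9 * j) (-(4 * j) + 1) (9 * j) := by
        intro v hv
        have h1 := (mem_sdiff.1 hv).1
        have h2 := fz_nm hj h1
        rw [mem_rect]
        rcases da2_mem_Fz.1 h1 with h3 | h3
        · have := da2_up h3.1
          unfold nm at h2
          omega
        · omega
      have c2 := card_rect (x0 := -(9 * j) + 1) (x1 := 9 * j) (y0 := -(4 * j) + 1) (y1 := 9 * j)
        (by omega) (by omega)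
      have c3 : (#(Fz W j k \ It W j k) : ℤ) ≤ 234 * j ^ 2 := by
        have : (#(Fz W j k \ It W j k) : ℤ) ≤ _ := Nat.cast_le.2 (card_le_card c1)
        rw [c2] at this
        linarith
      have c4 : (#(Fz W j k \ It W j k) : ℝ) ≤ 234 * j ^ 2 := by exact_mod_cast c3
      calc _ ≤ 4 * (234 * (j : ℝ) ^ 2) * (1 / (2 * j)) ^ 2 := by gcongr
        _ = 234 := by field_simp; ring
        _ ≤ 1000 := by norm_num

lemma df_of_ext (hj : 1 ≤ j) (h : Ext (Fz W j k \ It W j k) (Ed (Fz W j k \ It W j k))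
    (fun v => if v ∈ It W j k then 1 else 0) w) : Df W j k w := by
  obtain ⟨σ, h1, h2⟩ := h
  intro v v' hv hv7 hc h9
  have hI : v ∈ It W j k := mem_filter.2 ⟨hv, hv7⟩
  have key : ∀ x y, y ∈ Hz W j (2 * j) k → Adj x y → x ∈ Fz W j k → x ∉ Fz W j k \ It W j k →
      y ∉ Fz W j k \ It W j k → σ x = σ y := fun x y hy ha hx a b => by
    have xI : x ∈ It W j k := by_contra fun c => a (mem_sdiff.2 ⟨hx, c⟩)
    have yI : y ∈ It W j k := by
      refine by_contra fun c => b (mem_sdiff.2 ⟨da2_mem_Fz.2 ?_, c⟩)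
      have h3 := (mem_filter.1 xI).2
      have h4 := (bd3_nm ha).1
      rcases da2_mem_Hz.1 hy with h5 | h5
      · exact Or.inl ⟨h5.1, by omega⟩
      · have : y.1 ≤ nm y := by unfold nm; omega
        exact Or.inr (by omega)
    rw [h1 x a, h1 y b]
    simp only [if_pos xI, if_pos yI]
  have e := hc.eq (σ := σ) fun x y hx hy ha he => by
    obtain ⟨e1, e2⟩ := mem_inter.1 he
    by_cases hh : x ∈ Fz W j k \ It W j k ∨ y ∈ Fz W j k \ It W j k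
    · exact h2 x y (mem_inter.2 ⟨e1, mem_Ed.2 ⟨ha, hh⟩⟩)
    · rw [not_or] at hh
      rcases (mem_Ed.1 e2).2 with e3 | e3
      · exact key x y hy ha e3 hh.1 hh.2
      · exact (key y x hx ha.symm e3 hh.2 hh.1).symm
  have a1 : v' ∉ It W j k := fun c => by have := (mem_filter.1 c).2; omega
  rw [h1 v fun c => (mem_sdiff.1 c).2 hI,
    h1 v' fun c => by have := fz_nm hj (mem_sdiff.1 c).1; omega] at e
  simp only [if_pos hI, if_neg a1] at e
  exact absurd e (by decide)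

lemma df_max (hβ : 0 ≤ β) (hq : 0 < q) (h : TG W k) (hj : 1 ≤ j) (hW : 9 * j ≤ W)
    (hs : #(Ed (Fz W j k)) ≤ q) : cf β * Z1 β q (Smax (Fz W j k) (Ed (Fz W j k)) k) ≤
      Z β q (Smax (Fz W j k) (Ed (Fz W j k)) k) fun u => ind (Df W j k u.w) := by
  obtain ⟨χ, c1, c2⟩ := fence_prof h hj hW
  have hS := lg_Smax (Λ := Fz W j k) k hq hs
  have hsub : Fz W j k \ It W j k ⊆ Fz W j k := sdiff_subset
  rw [← Z_const]
  refine dlr hβ hS.grp.a01 (lc_in hS.ed hsub) fun u hu _ => ?_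
  rw [Z_const]
  have hS' := hS.lc hsub hu
  have h2 := cut hβ hq hS'.grp (X := k) ((fz_disj h).mono_right hsub) (fun v hv => by
      have e : u.a v = (0, 0) := ((mem_Om.1 hu).1 v (disjoint_left.1 (fz_disj h) hv)).trans
        (if_pos hv)
      exact congrArg Prod.fst e)
    (fun v => if v ∈ It W j k then 1 else 0) χ (fun e he v hv h3 h4 => by
      obtain ⟨x, y, rfl, ha, hx⟩ := mem_Ed'.1 he
      rcases Sym2.mem_iff.1 hv with rfl | rfl
      · exact absurd hx h3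
      · rw [c1 x v ha hx h3 h4]
        by_cases hI : v ∈ It W j k <;> simp [hI])
  refine le_trans ?_ (h2.trans (Z_mono hβ hS'.grp.a01 fun u _ _ => ind_mono (df_of_ext hj)))
  refine mul_le_mul_of_nonneg_right (exp_le_exp.2 (neg_le_neg ?_)) (Z1_nonneg hβ hS'.grp.a01)
  have q1 : (1 : ℝ) ≤ q := by exact_mod_cast hq
  have h5 : (#(Ed (Fz W j k \ It W j k)) : ℝ) / q ^ 2 ≤ 1 := by
    have : (#(Ed (Fz W j k \ It W j k)) : ℝ) ≤ q := by exact_mod_cast hS'.sz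
    rw [div_le_one (by positivity)]
    nlinarith
  have h6 := mul_le_mul_of_nonneg_left (add_le_add c2 h5) hβ
  change 10 * β * (En (Ed (Fz W j k \ It W j k)) k χ +
    (#(Ed (Fz W j k \ It W j k)) : ℝ) / q ^ 2) ≤ _
  linarith

end

end Pool.Agent.XYU

end

section

open Finset Real Relation

namespace Pool.Agent.XYU

open Classical

noncomputable section

variable {β : ℝ} {q : ℕ} {S : Sys} {W j : ℤ} {k : Finset V} {w w' : Es} {u u' : UC} {v v' : V}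

lemma da3_sub (W j : ℤ) (k : Finset V) : Pb j ⊆ Fz W j k := subset_union_right

lemma da3_in (W j : ℤ) (k : Finset V) :
    (Smax (Fz W j k) (Ed (Fz W j k)) k).In (Pb j) (Ed (Pb j)) := lc_in rfl (da3_sub W j k)

lemma da3_clp {p : ℝ × ℝ} (h : (0 ≤ p.1 ∧ p.1 ≤ 1) ∧ 0 ≤ p.2 ∧ p.2 ≤ 1) : clp p = p := by
  unfold clp
  rw [min_eq_right h.1.2, max_eq_right h.1.1, min_eq_right h.2.2, max_eq_right h.2.1]

lemma da3_ple {p p' : ℝ × ℝ} (h : ple p p') : ple (clp p) (clp p') :=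
  ⟨max_le_max le_rfl (min_le_min le_rfl h.1), max_le_max le_rfl (min_le_min le_rfl h.2)⟩

lemma da3_pa {Λ : Finset V} (hu : u ∈ Om q (Smax Λ (Ed Λ) k)) : pa Λ k u = u := by
  obtain ⟨h1, h2, h3, h4⟩ := mem_Om.1 hu
  refine UC.ext (funext fun v => ?_) ?_ ?_
  · show (if v ∈ Λ then clp (u.a v) else if v ∈ k then (0, 0) else (1, 0)) = u.a v
    by_cases hv : v ∈ Λ
    · rw [if_pos hv, da3_clp (site_01 (h2 v hv))]
    · rw [if_neg hv]
      exact (h1 v hv).symm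
  · have h5 : u.w \ Ed Λ = ∅ := h3.trans (empty_sdiff _)
    exact inter_eq_left.2 (sdiff_eq_empty_iff_subset.1 h5)
  · have h5 : u.b \ Ed Λ = ∅ := h4.trans (empty_sdiff _)
    exact inter_eq_left.2 (sdiff_eq_empty_iff_subset.1 h5)

lemma grp_Sq (W j : ℤ) (k : Finset V) (u : UC) : Grp (Sq W j k u) := by
  have hG := grp_Smax (Fz W j k) (Ed (Fz W j k)) k
  have hf := fl_cond (da3_in W j k) hG.Tf hG.Uf (pa (Fz W j k) k u)
  refine ⟨fun v => ?_, hG.T0.filter _, hG.U0.filter _, hf.1, hf.2⟩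
  show (0 ≤ ((pa (Fz W j k) k u).a v).1 ∧ ((pa (Fz W j k) k u).a v).1 ≤ 1) ∧
    0 ≤ ((pa (Fz W j k) k u).a v).2 ∧ ((pa (Fz W j k) k u).a v).2 ≤ 1
  simp only [pa]
  split_ifs
  · exact ⟨⟨le_max_left _ _, max_le zero_le_one (min_le_left _ _)⟩, le_max_left _ _,
      max_le zero_le_one (min_le_left _ _)⟩
  · simp
  · simp

lemma da3_Z (ha : ∀ v ∈ Fz W j k, v ∉ Pb j → u'.a v = u.a v)
    (hw : ∀ e ∈ Ed (Fz W j k), e ∉ Ed (Pb j) → (e ∈ u'.w ↔ e ∈ u.w) ∧ (e ∈ u'.b ↔ e ∈ u.b))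
    (f : UC → ℝ) : Z β q (Sq W j k u') f = Z β q (Sq W j k u) f := by
  have e1 : (u'.w ∩ Ed (Fz W j k)) \ Ed (Pb j) = (u.w ∩ Ed (Fz W j k)) \ Ed (Pb j) := by
    ext e
    simp only [mem_sdiff, mem_inter]
    constructor
    · rintro ⟨⟨a, b⟩, c⟩; exact ⟨⟨(hw e b c).1.1 a, b⟩, c⟩
    · rintro ⟨⟨a, b⟩, c⟩; exact ⟨⟨(hw e b c).1.2 a, b⟩, c⟩
  have e2 : (u'.b ∩ Ed (Fz W j k)) \ Ed (Pb j) = (u.b ∩ Ed (Fz W j k)) \ Ed (Pb j) := by
    ext e
    simp only [mem_sdiff, mem_inter]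
    constructor
    · rintro ⟨⟨a, b⟩, c⟩; exact ⟨⟨(hw e b c).2.1 a, b⟩, c⟩
    · rintro ⟨⟨a, b⟩, c⟩; exact ⟨⟨(hw e b c).2.2 a, b⟩, c⟩
  have e3 : ∀ x : Es, (x ∩ Ed (Fz W j k)) ∩ (Ed (Fz W j k) \ Ed (Pb j)) =
      (x ∩ Ed (Fz W j k)) \ Ed (Pb j) := by
    intro x
    ext e
    simp only [mem_sdiff, mem_inter]
    tauto
  refine Z_congr_x (S := Sq W j k u) (S' := Sq W j k u') rfl rfl ?_ ?_ (fun v hv => ?_) e1 e2 f
  · show (Flip (Fz W j k)).filter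
        (fun σ => cp σ ((u'.w ∩ Ed (Fz W j k)) ∩ (Ed (Fz W j k) \ Ed (Pb j)))) =
      (Flip (Fz W j k)).filter
        (fun σ => cp σ ((u.w ∩ Ed (Fz W j k)) ∩ (Ed (Fz W j k) \ Ed (Pb j))))
    rw [e3, e3, e1]
  · show (Flip (Fz W j k ∪ ends (Ed (Fz W j k)))).filter
        (fun σ => cp σ ((u'.b ∩ Ed (Fz W j k)) ∩ (Ed (Fz W j k) \ Ed (Pb j)))) =
      (Flip (Fz W j k ∪ ends (Ed (Fz W j k)))).filter
        (fun σ => cp σ ((u.b ∩ Ed (Fz W j k)) ∩ (Ed (Fz W j k) \ Ed (Pb j))))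
    rw [e3, e3, e2]
  · show (if v ∈ Fz W j k then clp (u'.a v) else if v ∈ k then (0, 0) else (1, 0)) =
      (if v ∈ Fz W j k then clp (u.a v) else if v ∈ k then (0, 0) else (1, 0))
    by_cases h1 : v ∈ Fz W j k
    · rw [if_pos h1, if_pos h1, ha v h1 hv]
    · rw [if_neg h1, if_neg h1]

lemma gd_congr (h : Gd β q W j k u) (ha : ∀ v ∈ Fz W j k, v ∉ Pb j → u'.a v = u.a v)
    (hw : ∀ e ∈ Ed (Fz W j k), e ∉ Ed (Pb j) → (e ∈ u'.w ↔ e ∈ u.w) ∧ (e ∈ u'.b ↔ e ∈ u.b)) :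
    Gd β q W j k u' := by
  unfold Gd Z1 at h ⊢
  rw [da3_Z ha hw, da3_Z ha hw]
  exact h

lemma gd_anti (hβ : 0 ≤ β) (hq : 0 < q) (h : Gd β q W j k u')
    (hu : Le (Fz W j k) (Ed (Fz W j k)) u u') : Gd β q W j k u := by
  have key := mon (q := q) hβ (grp_Sq W j k u) (grp_Sq W j k u') rfl rfl
    (f := fun x => (-1) * ind (Df W j k x.w)) (f' := fun x => (-1) * ind (Df W j k x.w))
    (fun σ hσ => ⟨σ, mem_filter.2 ⟨(mem_filter.1 hσ).1, cp_mono (fun e he => by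
      have h1 := mem_inter.1 he
      exact mem_inter.2 ⟨mem_inter.2 ⟨hu.2.1 h1.1, (mem_inter.1 h1.1).2⟩, h1.2⟩)
        (mem_filter.1 hσ).2⟩, fun _ _ _ _ => rfl⟩)
    (fun σ hσ => ⟨σ, mem_filter.2 ⟨(mem_filter.1 hσ).1, cp_mono (fun e he => by
      have h1 := mem_inter.1 he
      exact mem_inter.2 ⟨mem_inter.2 ⟨hu.2.2 h1.1, (mem_inter.1 h1.1).2⟩, h1.2⟩)
        (mem_filter.1 hσ).2⟩, fun _ _ _ _ => rfl⟩)
    (fun e _ v _ _ => by
      show ple (if v ∈ Fz W j k then clp (u.a v) else if v ∈ k then (0, 0) else (1, 0))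
        (if v ∈ Fz W j k then clp (u'.a v) else if v ∈ k then (0, 0) else (1, 0))
      by_cases h1 : v ∈ Fz W j k
      · rw [if_pos h1, if_pos h1]
        exact da3_ple (hu.1 v h1)
      · rw [if_neg h1, if_neg h1]
        exact ⟨le_rfl, le_rfl⟩)
    (fun x hx x' hx' hle => by
      have h1 : ind (Df W j k x'.w) ≤ ind (Df W j k x.w) := by
        refine ind_mono fun h2 => h2.anti fun e he => ?_
        have h3 := mem_inter.1 he
        by_cases h4 : e ∈ Ed (Pb j)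
        · exact hle.2.1 (mem_inter.2 ⟨h3.1, h4⟩)
        · have h5 : e ∈ u.w ∩ Ed (Fz W j k) := ((mem_Om_lc.1 hx).2.2.1 e h4).1 h3.1
          exact ((mem_Om_lc.1 hx').2.2.1 e h4).2 (mem_inter.2 ⟨hu.2.1 h5, h3.2⟩)
      linarith)
  rw [Z_mul, Z_mul] at key
  have p1 := (grp_Sq W j k u).pos hβ hq
  have p2 := (grp_Sq W j k u').pos hβ hq
  unfold Gd at h ⊢
  refine le_of_mul_le_mul_right ?_ p2
  have h2 := mul_le_mul_of_nonneg_right h p1.le
  linarith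

lemma gd_max (hβ : 0 ≤ β) (hq : 0 < q) (h : TG W k) (hj : 1 ≤ j) (hW : 9 * j ≤ W)
    (hs : #(Ed (Fz W j k)) ≤ q) : cf β / 2 * Z1 β q (Smax (Fz W j k) (Ed (Fz W j k)) k) ≤
      Z β q (Smax (Fz W j k) (Ed (Fz W j k)) k) fun u => ind (Gd β q W j k u) := by
  have h1 := df_max hβ hq h hj hW hs
  have hc : 0 ≤ cf β / 2 := by unfold cf; positivity
  have h2 : Z β q (Smax (Fz W j k) (Ed (Fz W j k)) k) (fun u => ind (Df W j k u.w)) ≤
      Z β q (Smax (Fz W j k) (Ed (Fz W j k)) k) fun u => ind (Gd β q W j k u) + cf β / 2 := by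
    refine dlr hβ (grp_Smax _ _ _).a01 (da3_in W j k) fun u hu _ => ?_
    have e : (Smax (Fz W j k) (Ed (Fz W j k)) k).cond (Pb j) (Ed (Pb j)) u = Sq W j k u := by
      unfold Sq Sys.lc
      rw [da3_pa hu]
    rw [e]
    have hA := (grp_Sq W j k u).a01
    by_cases hg : Gd β q W j k u
    · refine Z_mono hβ hA fun x hx _ => ?_
      rw [← e] at hx
      have hx' := (mem_Om_lc (S := Smax (Fz W j k) (Ed (Fz W j k)) k) (Λ := Pb j)).1 hx
      have h3 : Gd β q W j k x := gd_congr hg (fun v _ hv => hx'.1 v hv)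
        fun e _ he => ⟨hx'.2.2.1 e he, hx'.2.2.2 e he⟩
      rw [ind_pos h3]
      linarith [ind_le_one (Df W j k x.w)]
    · rw [Z_add, Z_const]
      have h3 := Z_nonneg (q := q) (f := fun x => ind (Gd β q W j k x)) hβ hA
        fun x _ => ind_nonneg _
      have h4 := not_le.1 hg
      linarith
  rw [Z_add, Z_const] at h2
  linarith

end

end Pool.Agent.XYU

end

section

open Finset Real Relation

namespace Pool.Agent.XYU

open Classical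

noncomputable section

variable {β : ℝ} {q : ℕ} {S : Sys} {W j : ℤ} {k : Finset V} {w w' : Es} {u u' : UC} {v v' : V}

lemma da_nm (h : Adj v v') : nm v' ≤ nm v + 1 := by
  unfold Adj at h
  unfold nm
  omega

lemma da_pb (hv : v ∈ HB W) : v ∉ Pb j := fun h => by
  have h1 := mem_rect.1 hv
  have h2 := mem_rect.1 h
  omega

lemma gd_inside (hβ : 0 ≤ β) (hq : 0 < q) (ht : Tip W k u.w) (hj : 1 ≤ j) (hW : 9 * j ≤ W)
    (h : Gd β q W j k u) (hv : v ∈ Lk W k) (hv' : nm v ≤ 7 * j) (hc : Cn u.w (HB W) v v') :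
    nm v' < 9 * j := by
  have h1 : ∃ u' ∈ Om q (Sq W j k u), Df W j k u'.w := by
    by_contra hn
    push Not at hn
    have h2 := (grp_Sq W j k u).pos hβ hq
    have h3 : 0 < cf β := exp_pos _
    rw [Gd, Z_congr (g := fun _ => 0) fun u' hu' _ => ind_neg (hn u' hu'), Z_const] at h
    nlinarith [mul_pos h3 h2]
  obtain ⟨u', hu', hd⟩ := h1
  have h2 := (mem_Om_lc.1 hu').2.2.1
  have h3 : Cn u.w (Lk W k) v v' := hc.closed (N := {b | Cn u.w (Lk W k) v b}) ReflTransGen.refl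
    fun a b ha _ hb hab he => by
      have a1 : a ∈ Lk W k := Cn.mem ha hv
      refine Cn.step ha a1 (lk_closed a1 hab hb fun hk => (lk_sub a1).2 ?_) hab he
      rw [ht.1, mem_cl] at hk ⊢
      exact ⟨(lk_sub a1).1, hk.2.step hb (lk_sub a1).1 hab.symm (Sym2.eq_swap ▸ he)⟩
  by_contra hn
  obtain ⟨y, hy, h4, h5⟩ := h3.last nm (fun _ _ => da_nm) hv' (by omega)
  have h6 : ∀ a ∈ Lk W k, 7 * j ≤ nm a → nm a ≤ 9 * j → a ∈ Hz W j (2 * j) k :=
    fun a a1 a2 a3 => mem_union_left _ (mem_filter.2 ⟨a1, a2, a3⟩)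
  refine hn (h5.closed (N := {b | nm b < 9 * j ∧ Cn (u'.w ∩ Ed (Fz W j k)) (Hz W j (2 * j) k) y b})
    ⟨by omega, ReflTransGen.refl⟩ fun a b ha ha' hb' hab he => ?_).1
  have a1 : 7 * j ≤ nm a := ha'.2
  have a2 := da_nm hab
  have a3 := ha.1
  have a4 : s(a, b) ∈ Ed (Fz W j k) :=
    mem_Ed.2 ⟨hab, Or.inl (mem_union_left _ (mem_filter.2 ⟨ha'.1, by omega, a3⟩))⟩
  have a5 : s(a, b) ∉ Ed (Pb j) := fun h =>
    (mem_Ed.1 h).2.elim (da_pb (lk_sub ha'.1).1) (da_pb (lk_sub hb'.1).1)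
  have a6 := ha.2.step (h6 a ha'.1 a1 a3.le) (h6 b hb'.1 hb'.2 (by omega)) hab
    (mem_inter.2 ⟨(h2 _ a5).2 (mem_inter.2 ⟨he, a4⟩), a4⟩)
  have a7 := hd y b (h6 y (h4.mem hv) hy.ge (by omega)) hy a6
  exact ⟨by omega, a6⟩

lemma gd_use (hβ : 0 ≤ β) (hS : LG q S) (h : TG W k) (hj : 1 ≤ j) (hW : 9 * j ≤ W)
    (hL : Fz W j k ⊆ S.L) (hu : u ∈ Om q S) (hg : Gd β q W j k u) :
    cf β / 2 * Z1 β q (S.lc (Pb j) u) ≤ Z β q (S.lc (Pb j) u) fun u' => ind (Df W j k u'.w) := by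
  have h0 : Pb j ⊆ Fz W j k := subset_union_right
  have h1 := (hS.lc (h0.trans hL) hu).grp
  have h2 := grp_Sq W j k u
  have h3 : Ed (Fz W j k) ⊆ S.E := hS.ed ▸ Ed_mono hL
  have ha := a01_Om hS.grp.a01 hu
  have key := mon (q := q) hβ h1 h2 rfl rfl (f := fun u' => -1 * ind (Df W j k u'.w))
    (f' := fun u' => -1 * ind (Df W j k u'.w)) (fun σ hσ => ?_) (fun σ hσ => ?_)
    (fun e he x hx hx' => ?_) fun u₁ hu₁ u₂ hu₂ hle => ?_
  · rw [Z_mul, Z_mul] at key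
    refine le_of_mul_le_mul_right ?_ (h2.pos hβ hS.pos)
    have := mul_le_mul_of_nonneg_right hg (Z1_nonneg (q := q) hβ h1.a01)
    linarith
  · obtain ⟨a1, a2⟩ := mem_filter.1 hσ
    have a3 := mem_Flip.1 a1
    refine ⟨σ, mem_filter.2 ⟨?_, fun x y he => ?_⟩, fun _ _ _ _ => rfl⟩
    · have := hS.grp.Tf.add hS.grp.T0.1 fun v hv => a3 v fun h => hv (hL h)
      rwa [zero_add] at this
    · obtain ⟨b1, b2⟩ := mem_inter.1 he
      obtain ⟨b2, b3⟩ := mem_sdiff.1 b2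
      by_cases b4 : s(x, y) ∈ Ed (Fz W j k)
      · exact a2 x y (mem_inter.2 ⟨mem_inter.2 ⟨b1, b4⟩, mem_sdiff.2 ⟨b4, b3⟩⟩)
      · have b5 := ba4_out (hS.ed ▸ b2) b4
        rw [a3 x (b5 x (Sym2.mem_mk_left _ _)), a3 y (b5 y (Sym2.mem_mk_right _ _))]
  · have a1 : ∀ e ∈ Ed (Fz W j k), ∀ x ∈ e, x ∈ Fz W j k ∪ ends (Ed (Fz W j k)) :=
      fun e he x hx => mem_union_right _ (mem_ends.2 ⟨e, he, hx⟩)
    refine ⟨fun x => if x ∈ Fz W j k ∪ ends (Ed (Fz W j k)) then σ x else 0,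
      mem_filter.2 ⟨mem_Flip.2 fun x hx => if_neg hx, fun x y he => ?_⟩,
      fun e he x hx => if_pos (a1 e (Ed_mono h0 he) x hx)⟩
    obtain ⟨b1, b2⟩ := mem_inter.1 he
    obtain ⟨b2, b3⟩ := mem_sdiff.1 b2
    simp only [if_pos (a1 _ b2 x (Sym2.mem_mk_left _ _)), if_pos (a1 _ b2 y (Sym2.mem_mk_right _ _))]
    exact (mem_filter.1 hσ).2 x y (mem_inter.2 ⟨(mem_inter.1 b1).1, mem_sdiff.2 ⟨h3 b2, b3⟩⟩)
  · have a1 : x ∉ k := fun hk => by
      obtain ⟨a, b, rfl, hab, ha⟩ := mem_Ed'.1 he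
      have b1 := mem_rect.1 ha
      have b2 := mem_rect.1 (h.1 hk)
      obtain rfl : x = b := (Sym2.mem_iff.1 hx).resolve_left fun e => hx' (e ▸ ha)
      unfold Adj at hab
      exact h.2.2.2 x.1 (by omega) ((show x = (x.1, 0) from Prod.ext rfl (by omega)) ▸ hk)
    obtain ⟨⟨b1, b2⟩, b3, b4⟩ := ha x
    show ple (u.a x) (if x ∈ Fz W j k then clp (u.a x) else if x ∈ k then (0, 0) else (1, 0))
    rw [if_neg a1]
    split_ifs
    · simp [ple, clp, b1, b2, b3, b4]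
    · exact ⟨b2, b3⟩
  · have := ind_mono fun hd : Df W j k u₂.w => hd.anti (w := u₁.w) fun e he => by
      obtain ⟨b1, b2⟩ := mem_inter.1 he
      by_cases b3 : e ∈ Ed (Pb j)
      · exact hle.2.1 (mem_inter.2 ⟨b1, b3⟩)
      · exact ((mem_Om_lc.1 hu₂).2.2.1 e b3).2
          (mem_inter.2 ⟨((mem_Om_lc.1 hu₁).2.2.1 e b3).1 b1, b2⟩)
    linarith

end

end Pool.Agent.XYU

end

section

open Finset Real Relation

namespace Pool.Agent.XYU

open Classical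

noncomputable section

/-! Fences exist with high probability.
`fence_one`: `explore` with `g = ind Gd` (`gd_anti`), `gd_max`. `fence_many`: if `k` fails `TG` the
tip event is empty; else `prod_le` with `G = ind Tip`, regions `Fz W j k` (`fz_nm`: different
scales give disjoint sets of sites and edges; `gd_congr`); on `Om q (S.lc Fz u)` the tip event is
either always false or equal to `Clo` (`Tip.clo`, `Tip.lc`), and `fence_one` applies.
`next_tip`: in the frame of `y`, the point `(t, 0)` lies in `Lk` (`lk_axis`), and its walk to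
distance `W` from itself reaches norm `9 J` inside `HB W` (`Cn.first`); `gd_inside`.
`tips_exp`: `ind TipAt = ∑ k ∈ (HB W).powerset, ind Tip`; all tips of the interval but the last
one (in direction `d`) have a next tip, so `N ≤ 1 + ∑ y, ∑ k, ind (¬ Gd) * ind Tip`, and
`fence_many` with `s = {J}` in the frame `tf y d` (`S.map (tf y d).symm`, `Z_map`, `LG.map`,
`bx_image`) gives `E N ≤ 1 + (1 - cf/2) E N`.
`ent_ub`: cover `[8W, l - 8W]` by at most `l / (7 J) + 1 ≤ 3 ϑ + 1` intervals, `W = 16 J`; Markov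
for the number of tips; union over `b`, `c` and `fence_many` with `s = Win g n b c`
(`n` scales with ratios at least four). -/

variable {β : ℝ} {q : ℕ} {S : Sys} {W j : ℤ} {k : Finset V} {u : UC}

lemma fence_one (hβ : 0 ≤ β) (hS : LG q S) (h : TG W k) (hj : 1 ≤ j) (hW : 9 * j ≤ W)
    (hL : S.L = Fz W j k) : Z β q S (fun u => ind (¬ Gd β q W j k u) * ind (Clo S.E k u.w)) ≤
      (1 - cf β / 2) * Z β q S fun u => ind (Clo S.E k u.w) := by
  have hE : S.E = Ed (Fz W j k) := by rw [hS.ed, hL]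
  have hs : #(Ed (Fz W j k)) ≤ q := hE ▸ hS.sz
  have h1 := explore (q := q) (g := fun u => ind (Gd β q W j k u)) hβ hS.pos hS.grp (k := k)
    (hL ▸ fz_disj h) (fun u => ind_nonneg _)
    (fun u u' hu => ind_mono fun hg => gd_anti hβ hS.pos hg (by rwa [hL, hE] at hu))
  have h2 := gd_max hβ hS.pos h hj hW hs
  have h3 := (grp_Smax (Fz W j k) (Ed (Fz W j k)) k).pos hβ hS.pos
  have h4 : 0 ≤ Z β q S fun u => ind (Clo S.E k u.w) :=
    Z_nonneg hβ hS.grp.a01 fun u _ => ind_nonneg _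
  have e : Smax S.L S.E k = Smax (Fz W j k) (Ed (Fz W j k)) k := by rw [hL, hE]
  rw [e] at h1
  have h5 := (mul_le_mul_of_nonneg_right h2 h4).trans h1
  rw [mul_right_comm] at h5
  have h6 := le_of_mul_le_mul_right h5 h3
  have h7 : (fun u : UC => ind (¬ Gd β q W j k u) * ind (Clo S.E k u.w)) = fun u =>
      ind (Clo S.E k u.w) - ind (Gd β q W j k u) * ind (Clo S.E k u.w) := by
    funext u
    rw [ind_not]
    ring
  rw [h7, Z_sub]
  linarith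

lemma db1_sep {j' : ℤ} (hj : 1 ≤ j) (hj' : 2 * j ≤ j') {e : Sym2 V} (he : e ∈ Ed (Fz W j k))
    (he' : e ∈ Ed (Fz W j' k)) : False := by
  obtain ⟨x, y, rfl, ha, hx⟩ := mem_Ed'.1 he
  have h1 := fz_nm hj hx
  have h2 : nm y ≤ nm x + 1 := by
    unfold Adj at ha
    unfold nm
    omega
  rcases (mem_Ed.1 he').2 with h | h <;> have h3 := fz_nm (by omega) h <;> omega

lemma db1_gd {j' : ℤ} (hj : 1 ≤ j) (hj' : 1 ≤ j') (hjj : 2 * j ≤ j' ∨ 2 * j' ≤ j) {u' : UC}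
    (hu' : u' ∈ Om q (S.lc (Fz W j k) u)) : Gd β q W j' k u' ↔ Gd β q W j' k u := by
  obtain ⟨h1, -, h3, h4⟩ := mem_Om_lc.1 hu'
  have ha : ∀ v ∈ Fz W j' k, u'.a v = u.a v := fun v hv => h1 v fun hv' => by
    have a1 := fz_nm hj hv'
    have a2 := fz_nm hj' hv
    omega
  have he : ∀ e ∈ Ed (Fz W j' k), e ∉ Ed (Fz W j k) := fun e he he' =>
    hjj.elim (fun h => db1_sep hj h he' he) fun h => db1_sep hj' h he he'
  exact ⟨fun h => gd_congr h (fun v hv _ => (ha v hv).symm)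
      fun e h' _ => ⟨(h3 e (he e h')).symm, (h4 e (he e h')).symm⟩,
    fun h => gd_congr h (fun v hv _ => ha v hv) fun e h' _ => ⟨h3 e (he e h'), h4 e (he e h')⟩⟩

lemma fence_many (hβ : 0 ≤ β) (hS : LG q S) (hL : bx 0 W ⊆ S.L) (s : Finset ℤ)
    (hs : ∀ j ∈ s, 1 ≤ j ∧ 9 * j ≤ W) (hs' : ∀ j ∈ s, ∀ j' ∈ s, j < j' → 2 * j ≤ j') :
    Z β q S (fun u => ind (∀ j ∈ s, ¬ Gd β q W j k u) * ind (Tip W k u.w)) ≤
      (1 - cf β / 2) ^ #s * Z β q S fun u => ind (Tip W k u.w) := by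
  have hc : 0 ≤ 1 - cf β / 2 := by
    have : cf β ≤ 1 := exp_le_one_iff.2 (by linarith)
    linarith
  by_cases h : TG W k
  swap
  · have e : ∀ u : UC, ind (Tip W k u.w) = 0 := fun u => ind_neg fun ht => h ht.tg
    simp only [e, mul_zero, Z_const, zero_mul, le_refl]
  have hsub : ∀ j ∈ s, Fz W j k ⊆ S.L := fun j hj v hv => hL (mem_bx0.2 (by
    have a1 := fz_nm (hs j hj).1 hv
    have a2 := (hs j hj).2
    omega))
  have key := prod_le (q := q) hβ hS.grp.a01 s (fun j => Fz W j k) (fun j => Ed (Fz W j k))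
    (fun j u => ind (¬ Gd β q W j k u)) (fun u => ind (Tip W k u.w)) (fun _ => 1 - cf β / 2)
    (fun _ _ => hc) (fun _ _ _ => ind_nonneg _) (fun j hj => lc_in hS.ed (hsub j hj))
    (fun i hi j hj hji u _ u' hu' => by
      have hjj : 2 * i ≤ j ∨ 2 * j ≤ i := (lt_or_gt_of_ne hji).symm.imp (hs' i hi j hj)
        (hs' j hj i hi)
      simp only [db1_gd (β := β) (S := S) (hs i hi).1 (hs j hj).1 hjj hu'])
    (fun j hj u hu => by
      change Z β q (S.lc (Fz W j k) u) _ ≤ _ * Z β q (S.lc (Fz W j k) u) _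
      by_cases h0 : ∃ u₀ ∈ Om q (S.lc (Fz W j k) u), Tip W k u₀.w
      · obtain ⟨u₀, hu₀, ht⟩ := h0
        have e : ∀ u' ∈ Om q (S.lc (Fz W j k) u),
            ind (Tip W k u'.w) = ind (Clo (S.lc (Fz W j k) u).E k u'.w) := fun u' hu' => by
          congr 1
          refine propext ⟨fun h' => h'.clo (hs j hj).1 (hs j hj).2, fun h' => ht.lc ?_ h'⟩
          exact fun e he => ((mem_Om_lc.1 hu').2.2.1 e he).trans
            ((mem_Om_lc.1 hu₀).2.2.1 e he).symm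
        rw [Z_congr fun u' hu' _ => e u' hu', Z_congr fun u' hu' _ => by rw [e u' hu']]
        exact fence_one hβ (hS.lc (hsub j hj) hu) h (hs j hj).1 (hs j hj).2 rfl
      · have e : ∀ u' ∈ Om q (S.lc (Fz W j k) u), ind (Tip W k u'.w) = 0 :=
          fun u' hu' => ind_neg fun ht => h0 ⟨u', hu', ht⟩
        rw [Z_congr (g := fun _ => 0) fun u' hu' _ => e u' hu',
          Z_congr (g := fun _ => 0) fun u' hu' _ => by rw [e u' hu', mul_zero], Z_const, zero_mul,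
          mul_zero])
  simp only [← ind_forall, prod_const] at key
  exact key

end

end Pool.Agent.XYU

end

section

open Finset Real Relation

namespace Pool.Agent.XYU

open Classical

noncomputable section

variable {β : ℝ} {q : ℕ} {S : Sys} {W j : ℤ} {k : Finset V} {u : UC}

lemma db2_tf (y t : ℤ) (d : Bool) : tf y d (t, 0) = (y + sn d * t, 0) := by
  cases d <;> simp [tf, sn, sub_eq_add_neg]

lemma db2_tf0 (y : ℤ) (d : Bool) : tf y d 0 = (y, 0) := by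
  cases d <;> simp [tf]

lemma db2_pre (y : ℤ) (d : Bool) : tf y d ⁻¹' {x : V | 0 ≤ x.2} = {x : V | 0 ≤ x.2} := rfl

lemma db2_nm (a b : V) (h : Adj a b) : nm b ≤ nm a + 1 := by
  have h1 := dd_tri b a 0
  rw [dd_zero, dd_zero, h.symm.dd] at h1
  omega

lemma next_tip (hβ : 0 ≤ β) (hq : 0 < q) {J y t : ℤ} {d : Bool} (hJ : 1 ≤ J) (hW : 16 * J ≤ W)
    (h : Tip W k (u.pull (tf y d)).w) (ht : 0 < t) (ht' : t ≤ 7 * J) {v : V}
    (hv : W ≤ dd v (y + sn d * t, 0)) (hc : Cn u.w {x | 0 ≤ x.2} (y + sn d * t, 0) v) :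
    ¬ Gd β q W J k (u.pull (tf y d)) := by
  intro hg
  have hF := isFr_tf y d
  obtain ⟨v, rfl⟩ := (tf y d).surjective v
  rw [← db2_tf] at hv hc
  rw [hF.dd] at hv
  have hc' := (cn_pull hF u).2 hc
  rw [db2_pre] at hc'
  have h0 : nm ((t, 0) : V) = t := by simp only [nm]; omega
  have h1 := dd_tri v 0 (t, 0)
  rw [dd_zero, dd_comm 0, dd_zero, h0] at h1
  obtain ⟨z, hz, hz', -⟩ := hc'.first nm db2_nm (r := 9 * J) (by omega) (by omega)
  have h2 := gd_inside hβ hq h hJ (by omega) hg (lk_axis h.tg ht (by omega)) (by omega)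
    (hz'.mono (Q := (HB W : Set V)) (fun x hx => ?_) fun _ _ _ _ _ h => h)
  · omega
  · obtain ⟨a, b⟩ := hx
    simp only [Set.mem_ofPred_eq, nm] at a b
    exact mem_coe.2 (mem_rect.2 (by omega))

lemma tipAt_reach {y : ℤ} {d : Bool} (h : TipAt W y d u) :
    ∃ v, W ≤ dd v (y, 0) ∧ Cn u.w {x | 0 ≤ x.2} (y, 0) v := by
  obtain ⟨k, rfl, ⟨v, hv, hv'⟩, -⟩ := h
  have hF := isFr_tf y d
  refine ⟨tf y d v, ?_, ?_⟩
  · rw [← db2_tf0 y d, hF.dd, dd_zero, hv']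
  · rw [← db2_tf0 y d]
    refine (cn_pull hF u).1 ((mem_cl.1 hv).2.mono (fun x hx => ?_) fun _ _ _ _ _ h => h)
    rw [db2_pre]
    exact (mem_rect.1 (mem_coe.1 hx)).2.2.1

lemma db2_sum {y : ℤ} {d : Bool} (u : UC) : ind (TipAt W y d u) =
    ∑ k ∈ (HB W).powerset, ind (Tip W k (u.pull (tf y d)).w) := by
  by_cases h : TipAt W y d u
  · obtain ⟨k, hk⟩ := id h
    rw [ind_pos h, sum_eq_single_of_mem k (mem_powerset.2 hk.tg.1), ind_pos hk]
    exact fun k' _ hne => ind_neg fun h' => hne (h'.1.trans hk.1.symm)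
  · rw [ind_neg h]
    exact (sum_eq_zero fun k _ => ind_neg fun h' => h ⟨k, h'⟩).symm

/-- the tip at `y` has a bad fence -/
def db2_B (β : ℝ) (q : ℕ) (W J y : ℤ) (d : Bool) (u : UC) : ℝ := ∑ k ∈ (HB W).powerset,
  ind (¬ Gd β q W J k (u.pull (tf y d))) * ind (Tip W k (u.pull (tf y d)).w)

lemma db2_B_nonneg (J y : ℤ) (d : Bool) (u : UC) : 0 ≤ db2_B β q W J y d u :=
  sum_nonneg fun _ _ => mul_nonneg (ind_nonneg _) (ind_nonneg _)

lemma db2_pt (hβ : 0 ≤ β) (hq : 0 < q) {J y₀ y₁ : ℤ} (d : Bool) (hJ : 1 ≤ J) (hW : 16 * J ≤ W)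
    (hy : y₁ ≤ y₀ + 7 * J) (u : UC) : ∑ y ∈ Icc y₀ y₁, ind (TipAt W y d u) ≤
      1 + ∑ y ∈ Icc y₀ y₁, db2_B β q W J y d u := by
  rcases ((Icc y₀ y₁).filter fun y => TipAt W y d u).eq_empty_or_nonempty with h | h
  · rw [sum_eq_zero fun y hy => ind_neg (filter_eq_empty_iff.1 h hy)]
    exact add_nonneg zero_le_one (sum_nonneg fun y _ => db2_B_nonneg J y d u)
  obtain ⟨z, hz, hm⟩ := exists_max_image _ (fun y => sn d * y) h
  obtain ⟨hz, hz'⟩ := mem_filter.1 hz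
  obtain ⟨v, hv, hc⟩ := tipAt_reach hz'
  rw [← add_sum_erase _ _ hz]
  refine add_le_add (ind_le_one _) (le_trans (sum_le_sum fun y hy' => ?_)
    (sum_le_sum_of_subset_of_nonneg (erase_subset z _) fun y _ _ => db2_B_nonneg J y d u))
  obtain ⟨hne, hy'⟩ := mem_erase.1 hy'
  by_cases ht : TipAt W y d u
  · have h1 := hm y (mem_filter.2 ⟨hy', ht⟩)
    obtain ⟨k, hk⟩ := id ht
    have e : z = y + sn d * (sn d * (z - y)) := by cases d <;> simp [sn]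
    rw [mem_Icc] at hz hy'
    have h2 : 0 < sn d * (z - y) ∧ sn d * (z - y) ≤ 7 * J := by
      cases d <;> simp only [sn] at h1 ⊢ <;> simp at h1 ⊢ <;> omega
    have h3 := next_tip hβ hq hJ hW hk h2.1 h2.2 (e ▸ hv) (e ▸ hc)
    rw [ind_pos ht]
    refine le_trans ?_ (single_le_sum (f := fun k => ind (¬ Gd β q W J k (u.pull (tf y d))) *
      ind (Tip W k (u.pull (tf y d)).w)) (fun _ _ => mul_nonneg (ind_nonneg _) (ind_nonneg _))
      (mem_powerset.2 hk.tg.1))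
    rw [ind_pos h3, ind_pos hk, mul_one]
  · rw [ind_neg ht]
    exact db2_B_nonneg J y d u

lemma db2_one (hβ : 0 ≤ β) (hS : LG q S) {J y : ℤ} (d : Bool) (hJ : 1 ≤ J) (hW : 16 * J ≤ W)
    (hL : bx (y, 0) W ⊆ S.L) : Z β q S (db2_B β q W J y d) ≤
      (1 - cf β / 2) * Z β q S fun u => ind (TipAt W y d u) := by
  have hF := isFr_tf y d
  have hL' : bx 0 W ⊆ (S.map (tf y d).symm).L := fun v hv =>
    mem_image.2 ⟨tf y d v, hL (mem_bx.2 (by rw [← db2_tf0 y d, hF.dd]; exact mem_bx.1 hv)),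
      (tf y d).symm_apply_apply v⟩
  simp only [db2_sum]
  unfold db2_B
  rw [Z_sum, Z_sum, mul_sum]
  refine sum_le_sum fun k _ => ?_
  have h := fence_many (k := k) hβ (hS.map hF.symm) hL' {J}
    (fun j hj => by rw [mem_singleton.1 hj]; omega)
    (fun j hj j' hj' hlt => by rw [mem_singleton.1 hj, mem_singleton.1 hj'] at hlt; omega)
  rw [Z_map, Z_map, card_singleton, pow_one] at h
  simp only [mem_singleton, forall_eq] at h
  exact h

lemma tips_exp (hβ : 0 ≤ β) (hS : LG q S) {J y₀ y₁ : ℤ} (d : Bool) (hJ : 1 ≤ J) (hW : 16 * J ≤ W)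
    (hy : y₁ ≤ y₀ + 7 * J) (hL : ∀ y, y₀ ≤ y → y ≤ y₁ → bx (y, 0) W ⊆ S.L) :
    Z β q S (fun u => ∑ y ∈ Icc y₀ y₁, ind (TipAt W y d u)) ≤ 2 / cf β * Z1 β q S := by
  have h1 : Z β q S (fun u => ∑ y ∈ Icc y₀ y₁, ind (TipAt W y d u)) ≤
      Z β q S fun u => 1 + ∑ y ∈ Icc y₀ y₁, db2_B β q W J y d u :=
    Z_mono hβ hS.grp.a01 fun u _ _ => db2_pt hβ hS.pos d hJ hW hy u
  rw [Z_add, Z_sum (Icc y₀ y₁) fun y u => db2_B β q W J y d u] at h1
  have h2 := sum_le_sum fun y (hy : y ∈ Icc y₀ y₁) =>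
    db2_one hβ hS d hJ hW (hL y (mem_Icc.1 hy).1 (mem_Icc.1 hy).2)
  rw [← mul_sum, ← Z_sum (Icc y₀ y₁) fun y u => ind (TipAt W y d u)] at h2
  have hc : 0 < cf β := exp_pos _
  rw [div_mul_eq_mul_div, le_div_iff₀ hc]
  have h3 : Z β q S (fun _ => 1) = Z1 β q S := rfl
  have h4 := h1.trans (add_le_add_right h2 _)
  rw [h3] at h4
  linarith

end

end Pool.Agent.XYU

end

section

open Finset Real Relation

namespace Pool.Agent.XYU

open Classical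

noncomputable section

variable {β : ℝ} {q : ℕ} {S : Sys} {W j : ℤ} {k : Finset V} {u : UC}

lemma db_cover (hβ : 0 ≤ β) (hS : LG q S) {J y₀ : ℤ} (d : Bool) (hJ : 1 ≤ J) (hW : 16 * J ≤ W)
    (m : ℕ) : ∀ y₁, y₁ < y₀ + 7 * J * m → (∀ y, y₀ ≤ y → y ≤ y₁ → bx (y, 0) W ⊆ S.L) →
    Z β q S (fun u => ∑ y ∈ Icc y₀ y₁, ind (TipAt W y d u)) ≤ m * (2 / cf β * Z1 β q S) := by
  induction m with
  | zero =>
    intro y₁ hy _
    rw [Icc_eq_empty (by simp at hy; omega)]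
    simp only [sum_empty, Z_const, zero_mul, Nat.cast_zero, le_refl]
  | succ m ih =>
    intro y₁ hy hL
    have h0 : 0 ≤ 7 * J * m := by positivity
    have h1 := ih (min y₁ (y₀ + 7 * J * m - 1)) (by omega) fun y h h' => hL y h (by omega)
    have h2 := tips_exp hβ hS (y₀ := y₀ + 7 * J * m) (y₁ := y₁) d hJ hW
      (by push_cast at hy; nlinarith) fun y h h' => hL y (by omega) h'
    have h3 : Z β q S (fun u => ∑ y ∈ Icc y₀ y₁, ind (TipAt W y d u)) ≤ Z β q S fun u =>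
        ∑ y ∈ Icc y₀ (min y₁ (y₀ + 7 * J * m - 1)), ind (TipAt W y d u) +
          ∑ y ∈ Icc (y₀ + 7 * J * m) y₁, ind (TipAt W y d u) := by
      refine Z_mono hβ hS.grp.a01 fun u _ _ => ?_
      rw [← sum_union]
      · refine sum_le_sum_of_subset_of_nonneg (fun y hy => ?_) fun _ _ _ => ind_nonneg _
        simp only [mem_union, mem_Icc] at hy ⊢
        omega
      · refine disjoint_left.2 fun y h h' => ?_
        simp only [mem_Icc] at h h'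
        omega
    rw [Z_add] at h3
    push_cast
    linarith

lemma db_card {g : ℤ} (hg : 1 ≤ g) (n b : ℕ) (c : Bool) : #(Win g n b c) = n := by
  rw [Win, card_image_of_injective _ fun i i' h => ?_, card_range]
  have h1 := mul_left_cancel₀ (by omega : g ≠ 0) h
  have h2 := pow_right_injective₀ (by norm_num : (0 : ℤ) < 4) (by norm_num) h1
  omega

lemma db_win {g J : ℤ} {n b B : ℕ} (hg : 1 ≤ g) (hJ : g * 4 ^ (B * (2 * n + 8)) ≤ J) (hb : b < B)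
    {c : Bool} (hj : j ∈ Win g n b c) : 1 ≤ j ∧ j ≤ J := by
  obtain ⟨i, hi, rfl⟩ := mem_image.1 hj
  rw [mem_range] at hi
  refine ⟨one_le_mul_of_one_le_of_one_le hg (one_le_pow₀ (by norm_num)), le_trans ?_ hJ⟩
  refine mul_le_mul_of_nonneg_left (pow_le_pow_right₀ (by norm_num) ?_) (by omega)
  have h1 : (b + 1) * (2 * n + 8) ≤ B * (2 * n + 8) := Nat.mul_le_mul_right _ hb
  rw [add_mul] at h1
  split_ifs <;> omega

lemma db_gap {g j' : ℤ} {n b : ℕ} (hg : 1 ≤ g) {c : Bool} (hj : j ∈ Win g n b c)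
    (hj' : j' ∈ Win g n b c) (h : j < j') : 2 * j ≤ j' := by
  obtain ⟨i, -, rfl⟩ := mem_image.1 hj
  obtain ⟨i', -, rfl⟩ := mem_image.1 hj'
  generalize b * (2 * n + 8) + (if c then n + 4 else 2) = a at h ⊢
  have h1 := (pow_lt_pow_iff_right₀ (by norm_num : (1 : ℤ) < 4)).1
    (lt_of_mul_lt_mul_left h (by omega))
  have h2 : (4 : ℤ) ^ (a + i + 1) ≤ 4 ^ (a + i') := pow_le_pow_right₀ (by norm_num) h1
  have h3 : (0 : ℤ) < 4 ^ (a + i) := by positivity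
  rw [pow_succ] at h2
  nlinarith

lemma db_sum (W y : ℤ) (d : Bool) (u : UC) (s : Finset (Finset V)) :
    ∑ k ∈ s, ind (Tip W k (u.pull (tf y d)).w) ≤ ind (TipAt W y d u) := by
  by_cases h : TipAt W y d u
  · rw [ind_pos h]
    calc _ ≤ ∑ k ∈ s, if k = cl (u.pull (tf y d)).w (HB W) 0 then (1 : ℝ) else 0 := by
          refine sum_le_sum fun k _ => ?_
          split_ifs with h1
          · exact ind_le_one _
          · exact (ind_neg fun h2 => h1 (And.left h2)).le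
      _ ≤ 1 := by
        rw [sum_ite_eq']
        split_ifs <;> norm_num
  · rw [ind_neg h]
    exact (sum_eq_zero fun k _ => ind_neg fun h' => h ⟨k, h'⟩).le

lemma db_cf (hβ : 0 ≤ β) : 0 ≤ 1 - cf β / 2 := by
  have h : cf β ≤ 1 := exp_le_one_iff.2 (by linarith)
  linarith

lemma db_fence (hβ : 0 ≤ β) (hS : LG q S) {y : ℤ} (d : Bool) (hL : bx (y, 0) W ⊆ S.L)
    (s : Finset ℤ) (hs : ∀ j ∈ s, 1 ≤ j ∧ 9 * j ≤ W)
    (hs' : ∀ j ∈ s, ∀ j' ∈ s, j < j' → 2 * j ≤ j') :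
    Z β q S (fun u => ∑ k ∈ (HB W).powerset, ind (∀ j ∈ s, ¬ Gd β q W j k (u.pull (tf y d))) *
      ind (Tip W k (u.pull (tf y d)).w)) ≤
      (1 - cf β / 2) ^ #s * Z β q S fun u => ind (TipAt W y d u) := by
  have h0 : bx 0 W ⊆ (S.map (tf y d).symm).L := by
    refine ba_sub ?_
    rw [bx_image (isFr_tf y d)]
    have h1 : tf y d 0 = (y, 0) := by cases d <;> simp [tf]
    rwa [h1]
  refine le_trans ?_ (mul_le_mul_of_nonneg_left (Z_mono hβ hS.grp.a01 fun u _ _ =>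
    db_sum W y d u (HB W).powerset) (pow_nonneg (db_cf hβ) _))
  rw [Z_sum, Z_sum, mul_sum]
  refine sum_le_sum fun k _ => ?_
  have h1 := fence_many (k := k) hβ (hS.map (isFr_tf y d).symm) h0 s hs hs'
  rwa [Z_map, Z_map] at h1

lemma db_pt (β : ℝ) (q : ℕ) (p : Par) (n B : ℕ) {N : ℕ} (hN : 1 ≤ N) (u : UC) :
    ind (¬ Ent β q p n B N u) ≤
      1 / N * ∑ d : Bool, ∑ y ∈ Icc (8 * p.W) (p.l - 8 * p.W), ind (TipAt p.W y d u) +
      ∑ d : Bool, ∑ y ∈ Icc (8 * p.W) (p.l - 8 * p.W), ∑ b ∈ range B, ∑ c : Bool,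
        ∑ k ∈ (HB p.W).powerset, ind (∀ j ∈ Win p.g n b c, ¬ Gd β q p.W j k (u.pull (tf y d))) *
          ind (Tip p.W k (u.pull (tf y d)).w) := by
  have hN' : (0 : ℝ) < N := by exact_mod_cast hN
  have n0 : ∀ (d : Bool) (y : ℤ) (b : ℕ) (c : Bool) (k : Finset V),
      0 ≤ ind (∀ j ∈ Win p.g n b c, ¬ Gd β q p.W j k (u.pull (tf y d))) *
        ind (Tip p.W k (u.pull (tf y d)).w) :=
    fun _ _ _ _ _ => mul_nonneg (ind_nonneg _) (ind_nonneg _)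
  have h1 : ∑ d : Bool, ∑ y ∈ Icc (8 * p.W) (p.l - 8 * p.W), ind (TipAt p.W y d u) =
      #(TS p u) := by
    rw [TS, card_filter, sum_comm, sum_product]
    push_cast
    rfl
  rw [h1]
  by_cases h : Ent β q p n B N u
  · rw [ind_neg (not_not.2 h)]
    exact add_nonneg (by positivity) (sum_nonneg fun d _ => sum_nonneg fun y _ =>
      sum_nonneg fun b _ => sum_nonneg fun c _ => sum_nonneg fun k _ => n0 d y b c k)
  rw [ind_pos h]
  rcases not_and_or.1 h with h | h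
  · refine le_add_of_le_of_nonneg ?_ (sum_nonneg fun d _ => sum_nonneg fun y _ =>
      sum_nonneg fun b _ => sum_nonneg fun c _ => sum_nonneg fun k _ => n0 d y b c k)
    rw [one_div, inv_mul_eq_div, le_div_iff₀ hN', one_mul]
    exact_mod_cast (not_le.1 h).le
  · refine le_add_of_nonneg_of_le (by positivity) ?_
    simp only [not_forall, not_exists, not_and] at h
    obtain ⟨y, d, k, h2, h3, h4, b, h5, c, h6⟩ := h
    refine le_trans ?_ (single_le_sum (fun d _ => sum_nonneg fun y _ =>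
      sum_nonneg fun b _ => sum_nonneg fun c _ => sum_nonneg fun k _ => n0 d y b c k) (mem_univ d))
    refine le_trans ?_ (single_le_sum (fun y _ => sum_nonneg fun b _ => sum_nonneg fun c _ =>
      sum_nonneg fun k _ => n0 d y b c k) (mem_Icc.2 ⟨h2, h3⟩))
    refine le_trans ?_ (single_le_sum (fun b _ => sum_nonneg fun c _ =>
      sum_nonneg fun k _ => n0 d y b c k) (mem_range.2 h5))
    refine le_trans ?_ (single_le_sum (fun c _ => sum_nonneg fun k _ => n0 d y b c k) (mem_univ c))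
    refine le_trans ?_ (single_le_sum (fun k _ => n0 d y b c k)
      (mem_powerset.2 (h4.1 ▸ filter_subset _ _ : k ⊆ HB p.W)))
    rw [ind_pos h6, ind_pos h4, one_mul]

theorem ent_ub (hβ : 0 ≤ β) {p : Par} {J : ℤ} {n B N ϑ : ℕ} (hg : 1 ≤ p.g) (hW : p.W = 16 * J)
    (hJ : p.g * 4 ^ (B * (2 * n + 8)) ≤ J) (hl : p.l ≤ ϑ * p.W) (hN : 1 ≤ N) :
    UB β q (rect 0 p.l (-p.W) p.W) (fun u => ind (¬ Ent β q p n B N u))
      ((4 * (3 * ϑ + 1) / cf β) * (1 / N + 2 * B * (1 - cf β / 2) ^ n)) := by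
  intro S hS hL
  have hJ1 : 1 ≤ J :=
    (one_le_mul_of_one_le_of_one_le hg (one_le_pow₀ (by norm_num))).trans hJ
  have hb : ∀ y, 8 * p.W ≤ y → y ≤ p.l - 8 * p.W → bx (y, 0) p.W ⊆ S.L := by
    intro y h1 h2 v hv
    refine hL ?_
    rw [bx, mem_rect] at hv
    rw [mem_rect]
    simp only at hv
    omega
  have h1 : ∀ d, ∑ y ∈ Icc (8 * p.W) (p.l - 8 * p.W), Z β q S (fun u => ind (TipAt p.W y d u)) ≤
      (3 * ϑ + 1) * (2 / cf β * Z1 β q S) := by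
    intro d
    have h2 := db_cover hβ hS (y₀ := 8 * p.W) d hJ1 hW.ge (3 * ϑ + 1) (p.l - 8 * p.W)
      (by
        have h3 : (0 : ℤ) ≤ ϑ := Int.natCast_nonneg _
        rw [hW] at hl ⊢
        push_cast
        nlinarith) hb
    rw [Z_sum] at h2
    exact_mod_cast h2
  have h2 : ∀ d, ∀ y ∈ Icc (8 * p.W) (p.l - 8 * p.W), ∑ b ∈ range B, ∑ c : Bool,
      Z β q S (fun u => ∑ k ∈ (HB p.W).powerset,
        ind (∀ j ∈ Win p.g n b c, ¬ Gd β q p.W j k (u.pull (tf y d))) *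
          ind (Tip p.W k (u.pull (tf y d)).w)) ≤
      2 * B * (1 - cf β / 2) ^ n * Z β q S fun u => ind (TipAt p.W y d u) := by
    intro d y hy
    rw [mem_Icc] at hy
    calc _ ≤ ∑ _b ∈ range B, ∑ _c : Bool,
          (1 - cf β / 2) ^ n * Z β q S fun u => ind (TipAt p.W y d u) := by
          refine sum_le_sum fun b hb' => sum_le_sum fun c _ => ?_
          have h3 := db_fence hβ hS d (hb y hy.1 hy.2) (Win p.g n b c) (fun j hj => by
            have h4 := db_win hg hJ (mem_range.1 hb') hj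
            omega) fun j hj j' hj' => db_gap hg hj hj'
          rwa [db_card hg] at h3
      _ = _ := by
          simp only [sum_const, card_range, card_univ, Fintype.card_bool, nsmul_eq_mul]
          push_cast
          ring
  have h3 : 0 ≤ 2 * (B : ℝ) * (1 - cf β / 2) ^ n :=
    mul_nonneg (by positivity) (pow_nonneg (db_cf hβ) _)
  refine (Z_mono hβ hS.grp.a01 fun u _ _ => db_pt β q p n B hN u).trans ?_
  rw [Z_add, Z_mul]
  simp only [Z_sum] at h2 ⊢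
  have h4 := sum_le_sum fun d (_ : d ∈ (univ : Finset Bool)) => h1 d
  have h5 := sum_le_sum fun d (_ : d ∈ (univ : Finset Bool)) => sum_le_sum (h2 d)
  simp only [← mul_sum] at h5
  simp only [sum_const, card_univ, Fintype.card_bool, nsmul_eq_mul] at h4
  have h6 := mul_le_mul_of_nonneg_left h4 h3
  have h7 := mul_le_mul_of_nonneg_left h4 (by positivity : 0 ≤ 1 / (N : ℝ))
  refine (add_le_add h7 (h5.trans h6)).trans (le_of_eq ?_)
  push_cast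
  ring

end

end Pool.Agent.XYU

end

end
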