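import Pool.Agent.MP_b591f0_mp.Mg.XY_B2

-- part MP_b591f0_mp.XY.G1
section

section

open Finset Real Relation

namespace Pool.Agent.XYU

open Classical

noncomputable section

/-! Gluing of pieces: definitions. -/

/-- integer sign -/
def sz (t : ZMod 2) : ℤ := if t = 0 then 1 else -1

/-- a family of pieces and the gap `Λ` between them -/
structure Lay {κ : Type} (s : Finset κ) (Λ : Finset V) (P : κ → Set V)
    (fs : κ → Finset (V × Fin 4)) (pp : κ → Par) : Prop where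
  cover : ∀ x, x ∈ Λ ↔ ∀ i ∈ s, x ∉ P i
  sep : ∀ i ∈ s, ∀ j ∈ s, i ≠ j → ∀ x ∈ P i, ∀ y ∈ P j, (pp i).W < dd x y
  ok : ∀ i ∈ s, (pp i).Ok
  geo : ∀ i ∈ s, Geo (P i) (fs i) (pp i)

/-- the gap and the boundary lines -/
def Dom {κ : Type} (s : Finset κ) (Λ : Finset V) (fs : κ → Finset (V × Fin 4)) (pp : κ → Par) :
    Set V :=
  {x | x ∈ Λ ∨ ∃ i ∈ s, ∃ e ∈ fs i, ∃ t, 0 ≤ t ∧ t ≤ (pp i).l ∧ x = fr e.1 e.2 (t, 0)}

/-- `φ` interpolates the edge profiles `f` -/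
structure Col {κ : Type} (s : Finset κ) (Λ : Finset V) (fs : κ → Finset (V × Fin 4))
    (pp : κ → Par) (ε : κ → ZMod 2) (f : κ → V × Fin 4 → ℤ → ℝ) (φ : V → ℝ) (h : ℤ) : Prop where
  col : ∀ i ∈ s, ∀ e ∈ fs i, ∀ t, 0 ≤ t → t ≤ (pp i).l → ∃ r : ℝ, 1 ≤ r ∧ r ≤ 3 / 2 ∧
    (|f i e t| ≤ 3 / 4 → |f i e t| ≤ 3 / 5 * r) ∧
    ∀ y, -(pp i).W ≤ y → y ≤ 0 → φ (fr e.1 e.2 (t, y)) * r = chi (ε i) * f i e t
  lip : ∀ x ∈ Dom s Λ fs pp, ∀ y ∈ Dom s Λ fs pp, dd x y ≤ 4 * h → |φ x - φ y| ≤ 1 / 25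
  cor : ∀ i ∈ s, ∀ e ∈ fs i, ∀ t, t ≤ 7 * (pp i).W ∨ (pp i).l - 7 * (pp i).W ≤ t → f i e t = 1
  h2 : 2 ≤ h
  hg : ∀ i ∈ s, 2 * h ≤ (pp i).g

/-- the wall: sites of the gap, off the low strips, where `φ` is small -/
def Wall {κ : Type} (s : Finset κ) (Λ : Finset V) (fs : κ → Finset (V × Fin 4)) (pp : κ → Par)
    (φ : V → ℝ) (h : ℤ) : Finset V :=
  Λ.filter fun x => (∀ i ∈ s, x ∉ Low (fs i) (pp i).l (4 * h)) ∧ |φ x| ≤ 1 / 4

/-- the labels `σ i + ε i` of the pieces extend to the whole lattice -/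
def Lab {κ : Type} (s : Finset κ) (P : κ → Set V) (fs : κ → Finset (V × Fin 4)) (pp : κ → Par)
    (σ : κ → Fld) (ε : κ → ZMod 2) (w : Es) : Prop :=
  ∃ σ' : Fld, cpl σ' w Set.univ ∧ ∀ i ∈ s, ∀ x ∈ P i, (∀ e ∈ fs i, ∀ t, 0 ≤ t → t ≤ (pp i).l →
    2 * (pp i).W < dd x (fr e.1 e.2 (t, 0))) → σ' x = σ i x + ε i

/-- the collars lie in `A` -/
def Ins {κ : Type} (s : Finset κ) (fs : κ → Finset (V × Fin 4)) (pp : κ → Par) (A : Finset V) :
    Prop :=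
  ∀ i ∈ s, ∀ e ∈ fs i, ∀ v : V, 0 ≤ v.1 → v.1 ≤ (pp i).l → |v.2| ≤ (pp i).W → fr e.1 e.2 v ∈ A

/-- cost of one colour -/
def cg (β : ℝ) (D ϑ : ℕ) : ℝ := c0 β ^ (D + 3) ^ 2 * (cf β / 2) ^ (500 * ϑ)

structure Rc where
  x0 : ℤ
  x1 : ℤ
  y0 : ℤ
  y1 : ℤ

/-- angles along the bottom, right, top and left sides of a rectangle; the total winding in the
positive sense is `n` -/
structure RA (R : Rc) (W : ℤ) (lam : ℝ) (n : ℤ) (θ : Fin 4 → ℤ → ℝ) : Prop where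
  wx : R.x0 + 32 * W ≤ R.x1
  wy : R.y0 + 32 * W ≤ R.y1
  lip : ∀ d z, |θ d (z + 1) - θ d z| ≤ lam
  c0 : ∀ z z', z ≤ R.y0 + 4 * W → z' ≤ R.x0 + 4 * W → θ 3 z = θ 0 z' + 2 * π * n
  c1 : ∀ z z', R.x1 - 4 * W ≤ z → z' ≤ R.y0 + 4 * W → θ 0 z = θ 1 z'
  c2 : ∀ z z', R.y1 - 4 * W ≤ z → R.x1 - 4 * W ≤ z' → θ 1 z = θ 2 z'
  c3 : ∀ z z', z ≤ R.x0 + 4 * W → R.y1 - 4 * W ≤ z' → θ 2 z = θ 3 z'
  bd : |θ 0 R.x0| ≤ π

/-- the strip of half width `W` along the side `d` -/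
def Strip (R : Rc) (W : ℤ) (d : Fin 4) (v : V) : Prop :=
  if d = 0 then R.x0 ≤ v.1 ∧ v.1 ≤ R.x1 ∧ |v.2 - R.y0| ≤ W
  else if d = 1 then R.y0 ≤ v.2 ∧ v.2 ≤ R.y1 ∧ |v.1 - R.x1| ≤ W
  else if d = 2 then R.x0 ≤ v.1 ∧ v.1 ≤ R.x1 ∧ |v.2 - R.y1| ≤ W
  else R.y0 ≤ v.2 ∧ v.2 ≤ R.y1 ∧ |v.1 - R.x0| ≤ W

/-- the coordinate along the side `d` -/
def crd (d : Fin 4) (v : V) : ℤ := if d = 0 ∨ d = 2 then v.1 else v.2

/-- `Θ` has the prescribed values modulo `2 π` on the strips -/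
def Fit (R : Rc) (W : ℤ) (θ : Fin 4 → ℤ → ℝ) (Θ : V → ℝ) : Prop :=
  ∀ d v, Strip R W d v → ∃ m : ℤ, Θ v = θ d (crd d v) + 2 * π * m

/-- the angle along one edge -/
structure Ang (p : Par) (A : ℤ → ℝ) (n : ℤ) : Prop where
  lip : ∀ z, |A (z + 1) - A z| ≤ 2 / p.g
  lo : ∀ z ≤ 4 * p.W, A z = π / 4
  hi : ∀ z, p.l - 4 * p.W ≤ z → A z = π / 4 + 2 * π * n

/-- positively directed unit edges of the boundary of the rectangle `[0, α] × [0, γ]` -/
def EI (α γ : ℕ) : Finset (V × Fin 4) :=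
  ((range α).image fun a : ℕ => ((((a : ℤ), (0 : ℤ)) : V), (0 : Fin 4))) ∪
  ((range γ).image fun b : ℕ => ((((α : ℤ), (b : ℤ)) : V), (1 : Fin 4))) ∪
  ((range α).image fun a : ℕ => ((((a : ℤ) + 1, (γ : ℤ)) : V), (2 : Fin 4))) ∪
  ((range γ).image fun b : ℕ => ((((0 : ℤ), (b : ℤ) + 1) : V), (3 : Fin 4)))

/-- negatively directed unit edges of the boundary of the square `[0, 3] × [0, 3]` -/
def EO : Finset (V × Fin 4) :=
  ((range 3).image fun a : ℕ => ((((a : ℤ) + 1, (0 : ℤ)) : V), (2 : Fin 4))) ∪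
  ((range 3).image fun b : ℕ => ((((3 : ℤ), (b : ℤ) + 1) : V), (3 : Fin 4))) ∪
  ((range 3).image fun a : ℕ => ((((a : ℤ), (3 : ℤ)) : V), (0 : Fin 4))) ∪
  ((range 3).image fun b : ℕ => ((((0 : ℤ), (b : ℤ)) : V), (1 : Fin 4)))

/-- scaling by `l` and translation by `o` -/
def pe (l : ℤ) (o : V) (e : V × Fin 4) : V × Fin 4 :=
  ((o.1 + l * e.1.1, o.2 + l * e.1.2), e.2)

def FI (l : ℤ) (o : V) (α γ : ℕ) : Finset (V × Fin 4) := (EI α γ).image (pe l o)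

def FO (l : ℤ) (o : V) : Finset (V × Fin 4) := EO.image (pe l o)

/-- closed rectangle of `α × γ` cells -/
def Qr (l : ℤ) (o : V) (α γ : ℕ) : Finset V := rect o.1 (o.1 + l * α) o.2 (o.2 + l * γ)

/-- open square of `3 × 3` cells -/
def Qo (l : ℤ) (o : V) : Finset V :=
  rect (o.1 + 1) (o.1 + l * 3 - 1) (o.2 + 1) (o.2 + l * 3 - 1)

def rc (l : ℤ) (o : V) (α γ : ℕ) : Rc := ⟨o.1, o.1 + l * α, o.2, o.2 + l * γ⟩

/-- labels of a piece with certified edges -/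
def Gl (β : ℝ) (q : ℕ) (p : Par) (P : Set V) (fs : Finset (V × Fin 4)) (u : UC) (σ τ : Fld)
    (nn : V × Fin 4 → ℤ) : Prop :=
  cpl σ u.w P ∧ cpl τ u.b P ∧ ∀ e ∈ fs, EC β q p (u.pull (fr e.1 e.2))
    (fun v => σ (fr e.1 e.2 v)) (fun v => τ (fr e.1 e.2 v)) (nn e)

/-- the rectangle has charge `n` -/
def Glu (β : ℝ) (q : ℕ) (p : Par) (o : V) (α γ : ℕ) (u : UC) (n : ℤ) : Prop :=
  ∃ σ τ nn, Gl β q p (Qr p.l o α γ) (FI p.l o α γ) u σ τ nn ∧ ∑ e ∈ FI p.l o α γ, nn e = n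

/-- the outside of the square has charge `n` -/
def GluO (β : ℝ) (q : ℕ) (p : Par) (o : V) (L : ℤ) (σ₀ τ₀ : Fld) (u : UC) (n : ℤ) : Prop :=
  ∃ σ τ nn, (∀ v ∉ bx 0 L, σ v = σ₀ v ∧ τ v = τ₀ v) ∧
    Gl β q p {v | v ∉ Qo p.l o} (FO p.l o) u σ τ nn ∧ ∑ e ∈ FO p.l o, nn e = n

/-- placement of small rectangles in a large square -/
structure Plc {κ : Type} (p p' : Par) (o' : V) (s : Finset κ) (o : κ → V) (α γ : κ → ℕ) :
    Prop where
  ok : p.Ok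
  ok' : p'.Ok
  gg : p.g ≤ p'.g
  WW : p.W ≤ p'.W
  card : #s ≤ 40
  siz : ∀ i ∈ s, 1 ≤ α i ∧ α i ≤ 3 ∧ 1 ≤ γ i ∧ γ i ≤ 3
  ins : ∀ i ∈ s, o'.1 + 8 * p'.W ≤ (o i).1 ∧ (o i).1 + p.l * α i + 8 * p'.W ≤ o'.1 + p'.l * 3 ∧
    o'.2 + 8 * p'.W ≤ (o i).2 ∧ (o i).2 + p.l * γ i + 8 * p'.W ≤ o'.2 + p'.l * 3
  row : ∀ i ∈ s, ∀ j ∈ s, i ≠ j → (o i).2 + p.l * γ i + 8 * p.W ≤ (o j).2 ∨
    (o j).2 + p.l * γ j + 8 * p.W ≤ (o i).2

/-- the gap -/
def Gap {κ : Type} (l l' : ℤ) (o' : V) (s : Finset κ) (o : κ → V) (α γ : κ → ℕ) : Finset V :=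
  (Qo l' o').filter fun v => ∀ i ∈ s, v ∉ Qr l (o i) (α i) (γ i)

/-- the boundary signs extend to the box -/
def XT (L : ℤ) (σ τ : Fld) (u : UC) : Prop :=
  Ext (bx 0 L) (Ed (bx 0 L)) σ u.w ∧ Ext (bx 0 L) (Ed (bx 0 L)) τ u.b

end

end Pool.Agent.XYU

end

section

open Finset Real Relation

namespace Pool.Agent.XYU

open Classical

noncomputable section

/-! The wall lemma (deterministic).

`cross`: induct on the `l1` distance from `p` to `x`; move `p` one step towards `x` (this does not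
increase `dd · x`); if the new point is still in `P` use the induction hypothesis.
`tiles`: centres `c₀ + (2h+1) k`; `C` is the image of `A` under the rounding map
`x ↦ c₀ + (2h+1) * ((x - c₀ + h) / (2h+1))` (integer division, coordinatewise); every quotient
lies in an interval with at most `D + 3` integers.
`gap_mem`: `Geo.side` gives `∉ P i`, and `Geo.line` with `Lay.sep` gives `∉ P j` (the point is
within `W` of `fr (v.1, 0) ∈ P i`; use `(isFr_fr _ _).dd`).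
`wall_far`: otherwise `cross` and `Geo.bdy` give a boundary point `x' = fr e (t, 0)`, `0 ≤ t ≤ l`,
with `dd x' x ≤ 3 h`; let `v = (fr e).symm x`. If `0 < v.1 < l` then `Geo.side` gives `v.2 < 0`, so
`x ∈ Low`; otherwise `t ≤ 3 h` or `l - 3 h ≤ t`, so `f = 1` (`Col.cor`; `32 h ≤ W`), so
`2 / 3 ≤ |φ x'|` by `Col.col` with `y = 0`, contradicting `Col.lip` and `|φ x| ≤ 1 / 4`.
`wall`: let `C` be the set of sites joined (`Cn w univ`) to a wall site, and `Z i = P i ∪ Low i`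
(height `4 h`). Put `σ x = 0` on `C`, else `ty i x + ε i` if `x ∈ Z i` (the `Z i` are pairwise at
distance at least two: every site of `Z i` is within `4 h` of `P i`, and `32 h ≤ W`), else
`if φ x < 0 then 1 else 0`. `C` misses the `P i` by `wall_far` and `hiso`. Let `x, y` be the ends of
an open edge; both or none lie in `C`. Off `C`: both in `Z i`: `h1`. None in any `Z`: both lie in
`Λ` off the wall, `|φ| > 1 / 4`, same sign by `Col.lip`. `x ∈ P i`, `y` in no `Z`: `Geo.bdy`, the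
first alternative puts `y` in `Low`, so `x` is a corner, `ty = 0`, `φ x * r = chi ε`, and `φ y` has
the sign of `chi ε` by `Col.lip`. `x = fr v ∈ Low i`, `y = fr v'` in no `Z`, `Adj v v'`: either
`v' = (v.1, -4 h - 1)`, and `Col.col` gives `φ y * r = chi ε * f`, so `1 / 4 < |f|` and `h3`
applies; or `v'.1 ∈ {0, l}`, `v'.2 = v.2`, where `f = 1` at `v.1` and `v'.1`. -/

variable {κ : Type} {s : Finset κ} {Λ : Finset V} {P : κ → Set V} {fs : κ → Finset (V × Fin 4)}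
  {pp : κ → Par} {ε : κ → ZMod 2} {f : κ → V × Fin 4 → ℤ → ℝ} {φ : V → ℝ} {h : ℤ} {w : Es}

lemma ga1_step {p x : V} (hne : p ≠ x) : ∃ p' : V, Adj p p' ∧ dd p' x ≤ dd p x ∧
    (p'.1 - x.1).natAbs + (p'.2 - x.2).natAbs < (p.1 - x.1).natAbs + (p.2 - x.2).natAbs := by
  obtain ⟨a, b⟩ := p
  obtain ⟨c, d⟩ := x
  have : a < c ∨ c < a ∨ b < d ∨ d < b := by
    by_contra hn
    exact hne (Prod.ext (by dsimp only; omega) (by dsimp only; omega))
  rcases this with k | k | k | k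
  · exact ⟨(a + 1, b), by unfold Adj; dsimp only; omega, by unfold dd; dsimp only; omega,
      by dsimp only; omega⟩
  · exact ⟨(a - 1, b), by unfold Adj; dsimp only; omega, by unfold dd; dsimp only; omega,
      by dsimp only; omega⟩
  · exact ⟨(a, b + 1), by unfold Adj; dsimp only; omega, by unfold dd; dsimp only; omega,
      by dsimp only; omega⟩
  · exact ⟨(a, b - 1), by unfold Adj; dsimp only; omega, by unfold dd; dsimp only; omega,
      by dsimp only; omega⟩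

lemma cross {Q : Set V} {p x : V} (hp : p ∈ Q) (hx : x ∉ Q) :
    ∃ x' ∈ Q, ∃ y', y' ∉ Q ∧ Adj x' y' ∧ dd x' x ≤ dd p x := by
  generalize hn : (p.1 - x.1).natAbs + (p.2 - x.2).natAbs = n
  induction n using Nat.strong_induction_on generalizing p with
  | _ n ih =>
    obtain ⟨p', h1, h2, h3⟩ := ga1_step (p := p) (x := x) fun e => hx (e ▸ hp)
    by_cases hq : p' ∈ Q
    · obtain ⟨x', a, y', b, c, d⟩ := ih _ (hn ▸ h3) hq rfl
      exact ⟨x', a, y', b, c, d.trans h2⟩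
    · exact ⟨p, hp, p', hq, h1, le_rfl⟩

lemma ga1_round {a : ℤ} (hh : 1 ≤ h) : a - (2 * h + 1) * ((a + h) / (2 * h + 1)) ≤ h ∧
    (2 * h + 1) * ((a + h) / (2 * h + 1)) - a ≤ h := by
  have h1 := Int.mul_ediv_add_emod (a + h) (2 * h + 1)
  have h2 := Int.emod_nonneg (a + h) (show 2 * h + 1 ≠ 0 by omega)
  have h3 := Int.emod_lt_of_pos (a + h) (show 0 < 2 * h + 1 by omega)
  omega

lemma ga1_quot {a : ℤ} {D : ℕ} (hh : 1 ≤ h) (h1 : -(D * h) ≤ a) (h2 : a ≤ D * h) :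
    (a + h) / (2 * h + 1) ∈ Icc (-((D : ℤ) / 2 + 1)) (D / 2 + 1) := by
  obtain ⟨k1, k2⟩ := ga1_round (a := a) hh
  generalize (a + h) / (2 * h + 1) = q at k1 k2 ⊢
  have e : (D : ℤ) ≤ 2 * (D / 2) + 1 := by omega
  have e0 : (0 : ℤ) ≤ D / 2 := by omega
  generalize (D : ℤ) / 2 = m at e e0 ⊢
  rw [mem_Icc]
  constructor
  · by_contra hn
    have : q ≤ -(m + 2) := by omega
    nlinarith
  · by_contra hn
    have : m + 2 ≤ q := by omega
    nlinarith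

lemma tiles {A : Finset V} {c₀ : V} {D : ℕ} (hh : 1 ≤ h) (hA : A ⊆ bx c₀ (D * h)) :
    ∃ C : Finset V, #C ≤ (D + 3) ^ 2 ∧ (∀ x ∈ A, ∃ c ∈ C, dd x c ≤ h) ∧
      ∀ c ∈ C, ∃ x ∈ A, dd x c ≤ h := by
  let g : V → V := fun k => (c₀.1 + (2 * h + 1) * k.1, c₀.2 + (2 * h + 1) * k.2)
  let q : V → V := fun x => ((x.1 - c₀.1 + h) / (2 * h + 1), (x.2 - c₀.2 + h) / (2 * h + 1))
  have key : ∀ x : V, dd x (g (q x)) ≤ h := fun x => by
    have a := ga1_round (a := x.1 - c₀.1) hh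
    have b := ga1_round (a := x.2 - c₀.2) hh
    simp only [dd, g, q]
    omega
  refine ⟨(A.image q).image g, card_image_le.trans ?_,
    fun x hx => ⟨_, mem_image_of_mem _ (mem_image_of_mem _ hx), key x⟩, fun c hc => ?_⟩
  · have hs : A.image q ⊆ Icc (-((D : ℤ) / 2 + 1)) (D / 2 + 1) ×ˢ
        Icc (-((D : ℤ) / 2 + 1)) (D / 2 + 1) := fun k hk => by
      obtain ⟨x, hx, rfl⟩ := mem_image.1 hk
      have hb := hA hx
      simp only [bx, rect, mem_Icc, Prod.le_def] at hb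
      exact mem_product.2 ⟨ga1_quot hh (by omega) (by omega), ga1_quot hh (by omega) (by omega)⟩
    refine (card_le_card hs).trans ?_
    rw [card_product, Int.card_Icc, sq]
    exact Nat.mul_le_mul (by omega) (by omega)
  · obtain ⟨k, hk, rfl⟩ := mem_image.1 hc
    obtain ⟨x, hx, rfl⟩ := mem_image.1 hk
    exact ⟨x, hx, key x⟩

lemma gap_mem (hL : Lay s Λ P fs pp) {i : κ} (hi : i ∈ s) {e : V × Fin 4} (he : e ∈ fs i) {v : V}
    (h₁ : 0 < v.1) (h₂ : v.1 < (pp i).l) (h₃ : -(pp i).W ≤ v.2) (h₄ : v.2 < 0) :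
    fr e.1 e.2 v ∈ Λ := by
  have o1 := (hL.ok i hi).g1
  have o2 := (hL.ok i hi).gW
  refine (hL.cover _).2 fun j hj hP => ?_
  by_cases hij : i = j
  · subst hij
    have := ((hL.geo i hi).side e he v h₁ h₂ (by omega) (by omega)).1 hP
    omega
  · have a := (hL.geo i hi).line e he (v.1, 0) (by omega) (by omega) le_rfl (by dsimp only; omega)
    have b := hL.sep i hi j hj hij _ a _ hP
    rw [(isFr_fr _ _).dd] at b
    simp only [dd] at b
    omega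

lemma wall_far (hL : Lay s Λ P fs pp) (hC : Col s Λ fs pp ε f φ h) {x : V}
    (hx : x ∈ Wall s Λ fs pp φ h) {y : V} (hy : dd x y ≤ 3 * h) : y ∈ Λ := by
  obtain ⟨xΛ, xl, xφ⟩ := mem_filter.1 hx
  refine (hL.cover _).2 fun i hi hP => ?_
  have xP := (hL.cover _).1 xΛ i hi
  have o1 := (hL.ok i hi).g1
  have o2 := (hL.ok i hi).gW
  have o3 := (hL.ok i hi).Wl
  have o4 := hC.hg i hi
  have o5 := hC.h2
  obtain ⟨x', a1, y', a2, a3, a4⟩ := cross hP xP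
  have a5 : dd x' x ≤ 3 * h := by
    refine a4.trans (le_trans (le_of_eq ?_) hy)
    simp only [dd]
    omega
  obtain ⟨e, he, t, t0, t1, rfl⟩ : ∃ e ∈ fs i, ∃ t, 0 ≤ t ∧ t ≤ (pp i).l ∧
      x' = fr e.1 e.2 (t, 0) := by
    obtain ⟨e, he, ⟨t, b1, b2, b3, -⟩ | b | b⟩ := (hL.geo i hi).bdy x' a1 y' a2 a3
    · exact ⟨e, he, t, b1.le, b2.le, b3⟩
    · exact ⟨e, he, 0, le_rfl, by omega, b⟩
    · exact ⟨e, he, _, by omega, le_rfl, b⟩
  have lip := hC.lip _ (Or.inr ⟨i, hi, e, he, t, t0, t1, rfl⟩) x (Or.inl xΛ) (by omega)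
  obtain ⟨v, rfl⟩ := (fr e.1 e.2).surjective x
  rw [(isFr_fr _ _).dd] at a5
  simp only [dd] at a5
  by_cases hv : 0 < v.1 ∧ v.1 < (pp i).l
  · have b := (hL.geo i hi).side e he v hv.1 hv.2 (by omega) (by omega)
    exact xl i hi ⟨e, he, v, hv.1, hv.2, by omega, not_le.1 fun k => xP (b.2 k), rfl⟩
  · obtain ⟨r, r1, r2, -, r3⟩ := hC.col i hi e he t t0 t1
    have b := r3 0 (by omega) le_rfl
    rw [hC.cor i hi e he t (by omega), mul_one] at b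
    have c : |φ (fr e.1 e.2 (t, 0))| * r = 1 := by
      rw [← abs_of_pos (zero_lt_one.trans_le r1), ← abs_mul, b]
      unfold chi
      split_ifs <;> simp
    have d := abs_sub_abs_le_abs_sub (φ (fr e.1 e.2 (t, 0))) (φ (fr e.1 e.2 v))
    nlinarith [abs_nonneg (φ (fr e.1 e.2 (t, 0)))]

end

end Pool.Agent.XYU

end

section

open Finset Real Relation

namespace Pool.Agent.XYU

open Classical

noncomputable section

variable {κ : Type} {s : Finset κ} {Λ : Finset V} {P : κ → Set V} {fs : κ → Finset (V × Fin 4)}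
  {pp : κ → Par} {ε : κ → ZMod 2} {f : κ → V × Fin 4 → ℤ → ℝ} {φ : V → ℝ} {h : ℤ} {w : Es}

/-- sign label -/
def ga_sg (a : ℝ) : ZMod 2 := if a < 0 then 1 else 0

lemma ga_sign {a b r : ℝ} {t : ZMod 2} (hr : 1 ≤ r) (hb : b ≠ 0) (e : a * r = chi t * b) :
    ga_sg b + t = ga_sg a := by
  have ht : t = 0 ∨ t = 1 := (by decide : ∀ t : ZMod 2, t = 0 ∨ t = 1) t
  unfold ga_sg chi at *
  rcases ht with rfl | rfl
  · rw [if_pos rfl, one_mul] at e
    by_cases h1 : b < 0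
    · rw [if_pos h1, if_pos (by nlinarith), add_zero]
    · rw [if_neg h1, if_neg (by nlinarith), add_zero]
  · rw [if_neg (by decide)] at e
    by_cases h1 : b < 0
    · rw [if_pos h1, if_neg (by nlinarith)]
      decide
    · have := lt_of_le_of_ne (not_lt.1 h1) hb.symm
      rw [if_neg h1, if_pos (by nlinarith), zero_add]

lemma ga_same {a b : ℝ} (hb : 1 / 4 < |b|) (hab : |a - b| ≤ 1 / 25) : ga_sg a = ga_sg b := by
  unfold ga_sg
  rw [abs_le] at hab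
  rcases lt_abs.1 hb with h1 | h1
  · rw [if_neg (by linarith), if_neg (by linarith)]
  · rw [if_pos (by linarith), if_pos (by linarith)]

lemma ga_W (hL : Lay s Λ P fs pp) (hC : Col s Λ fs pp ε f φ h) {i : κ} (hi : i ∈ s) :
    32 * h ≤ (pp i).W ∧ 32 * (pp i).W ≤ (pp i).l := by
  have h1 := hC.hg i hi
  have h2 := (hL.ok i hi).gW
  exact ⟨by omega, (hL.ok i hi).Wl⟩

lemma ga_near (hL : Lay s Λ P fs pp) (hC : Col s Λ fs pp ε f φ h) {i : κ} (hi : i ∈ s) {x : V}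
    (hx : x ∈ P i ∪ Low (fs i) (pp i).l (4 * h)) : ∃ x' ∈ P i, dd x x' ≤ 4 * h := by
  have h2 := hC.h2
  have hW := ga_W hL hC hi
  rcases hx with hx | ⟨e, he, v, a1, a2, a3, a4, rfl⟩
  · exact ⟨x, hx, by rw [dd_eq_zero.2 rfl]; omega⟩
  · refine ⟨_, (hL.geo i hi).line e he (v.1, 0) a1.le a2.le le_rfl (by simp only; omega), ?_⟩
    rw [(isFr_fr _ _).dd]
    simp only [dd]
    omega

lemma ga_uniq (hL : Lay s Λ P fs pp) (hC : Col s Λ fs pp ε f φ h) {i j : κ} (hi : i ∈ s)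
    (hj : j ∈ s) {x y : V} (hx : x ∈ P i ∪ Low (fs i) (pp i).l (4 * h))
    (hy : y ∈ P j ∪ Low (fs j) (pp j).l (4 * h)) (hxy : dd x y ≤ 1) : i = j := by
  by_contra hne
  obtain ⟨x', hx', d1⟩ := ga_near hL hC hi hx
  obtain ⟨y', hy', d2⟩ := ga_near hL hC hj hy
  have h1 := hL.sep i hi j hj hne x' hx' y' hy'
  have h2 := hC.h2
  have hW := ga_W hL hC hi
  have t1 := dd_tri x' x y'
  have t2 := dd_tri x y y'
  rw [dd_comm x' x] at t1
  omega

lemma ga_out (hL : Lay s Λ P fs pp) (hC : Col s Λ fs pp ε f φ h) (ty : κ → Fld)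
    (h3 : ∀ i ∈ s, ∀ e ∈ fs i, ∀ v : V, 0 < v.1 → v.1 < (pp i).l → -(4 * h) ≤ v.2 → v.2 < 0 →
      1 / 4 < |f i e v.1| → ty i (fr e.1 e.2 v) = if f i e v.1 < 0 then 1 else 0)
    (h4 : ∀ i ∈ s, ∀ e ∈ fs i,
      ty i (fr e.1 e.2 (0, 0)) = 0 ∧ ty i (fr e.1 e.2 ((pp i).l, 0)) = 0)
    {i : κ} (hi : i ∈ s) {x y : V} (hx : x ∈ P i ∪ Low (fs i) (pp i).l (4 * h))
    (hy : y ∉ P i ∪ Low (fs i) (pp i).l (4 * h)) (hΛ : y ∈ Λ) (hφ : 1 / 4 < |φ y|)
    (hxy : Adj x y) : ty i x + ε i = ga_sg (φ y) := by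
  have h2 := hC.h2
  have hW := ga_W hL hC hi
  have s1 : ga_sg 1 = 0 := if_neg (by norm_num)
  rw [Set.mem_union, not_or] at hy
  rcases hx with hx | ⟨e, he, v, a1, a2, a3, a4, rfl⟩
  · obtain ⟨e, he, hc⟩ := (hL.geo i hi).bdy x hx y hy.1 hxy
    have key : ∀ t, 0 ≤ t → t ≤ (pp i).l → f i e t = 1 → x = fr e.1 e.2 (t, 0) → ty i x = 0 →
        ty i x + ε i = ga_sg (φ y) := by
      intro t b1 b2 b3 b4 b5
      obtain ⟨r, r1, -, -, r4⟩ := hC.col i hi e he t b1 b2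
      have e1 := r4 0 (by omega) le_rfl
      rw [b3, ← b4] at e1
      have e2 := ga_sign r1 one_ne_zero e1
      rw [b5, ← s1, e2]
      exact ga_same hφ (hC.lip x (Or.inr ⟨i, hi, e, he, t, b1, b2, b4⟩) y (Or.inl hΛ)
        (by rw [hxy.dd]; omega))
    rcases hc with ⟨t, b1, b2, -, rfl⟩ | hc | hc
    · exact absurd ⟨e, he, (t, -1), b1, b2, by simp only; omega, by simp, rfl⟩ hy.2
    · exact key 0 le_rfl (by omega) (hC.cor i hi e he 0 (Or.inl (by omega))) hc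
        (hc ▸ (h4 i hi e he).1)
    · exact key _ (by omega) le_rfl (hC.cor i hi e he _ (Or.inr (by omega))) hc
        (hc ▸ (h4 i hi e he).2)
  · obtain ⟨v', rfl⟩ := (fr e.1 e.2).surjective y
    have hv : Adj v v' := ((isFr_fr _ _).adj _ _).1 hxy
    have n1 : ¬ (0 < v'.1 ∧ v'.1 < (pp i).l ∧ -(4 * h) ≤ v'.2 ∧ v'.2 < 0) :=
      fun n => hy.2 ⟨e, he, v', n.1, n.2.1, n.2.2.1, n.2.2.2, rfl⟩
    have n2 : ¬ (0 ≤ v'.1 ∧ v'.1 ≤ (pp i).l ∧ v'.2 = 0) :=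
      fun n => hy.1 ((hL.geo i hi).line e he v' n.1 n.2.1 n.2.2.ge (by omega))
    unfold Adj at hv
    obtain ⟨r, r1, -, -, r4⟩ := hC.col i hi e he v'.1 (by omega) (by omega)
    have e1 : φ (fr e.1 e.2 v') * r = chi (ε i) * f i e v'.1 := r4 v'.2 (by omega) (by omega)
    have e2 : f i e v.1 = f i e v'.1 := by
      by_cases hc : v.1 = v'.1
      · rw [hc]
      · rw [hC.cor i hi e he v.1 (by omega), hC.cor i hi e he v'.1 (by omega)]
    have e3 : 1 / 4 < |f i e v'.1| := by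
      have e4 : |φ (fr e.1 e.2 v')| * r = |f i e v'.1| := by
        rw [← abs_of_pos (lt_of_lt_of_le one_pos r1), ← abs_mul, e1, abs_mul]
        unfold chi
        split_ifs <;> simp
      nlinarith
    rw [h3 i hi e he v a1 a2 a3 a4 (e2 ▸ e3), e2]
    refine ga_sign r1 (fun h0 => ?_) e1
    rw [h0, abs_zero] at e3
    norm_num at e3

theorem wall (hL : Lay s Λ P fs pp) (hC : Col s Λ fs pp ε f φ h) (ty : κ → Fld)
    (h1 : ∀ i ∈ s, cpl (ty i) w (P i ∪ Low (fs i) (pp i).l (4 * h)))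
    (h3 : ∀ i ∈ s, ∀ e ∈ fs i, ∀ v : V, 0 < v.1 → v.1 < (pp i).l → -(4 * h) ≤ v.2 → v.2 < 0 →
      1 / 4 < |f i e v.1| → ty i (fr e.1 e.2 v) = if f i e v.1 < 0 then 1 else 0)
    (h4 : ∀ i ∈ s, ∀ e ∈ fs i,
      ty i (fr e.1 e.2 (0, 0)) = 0 ∧ ty i (fr e.1 e.2 ((pp i).l, 0)) = 0)
    (hiso : ∀ x ∈ Wall s Λ fs pp φ h, ∀ y, Cn w Set.univ x y → dd x y ≤ 3 * h) :
    ∃ σ : Fld, cpl σ w Set.univ ∧ ∀ i ∈ s, ∀ x ∈ P i, σ x = ty i x + ε i := by
  let C : Set V := {x | ∃ z ∈ Wall s Λ fs pp φ h, Cn w Set.univ z x}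
  let Zs : κ → Set V := fun i => P i ∪ Low (fs i) (pp i).l (4 * h)
  let σ : Fld := fun x => if x ∈ C then 0 else
    if hx : ∃ i ∈ s, x ∈ Zs i then ty hx.choose x + ε hx.choose else ga_sg (φ x)
  have hZ : ∀ x ∉ C, ∀ i ∈ s, x ∈ Zs i → σ x = ty i x + ε i := by
    intro x hx i hi hxi
    have hex : ∃ i ∈ s, x ∈ Zs i := ⟨i, hi, hxi⟩
    have e : hex.choose = i := ga_uniq hL hC hex.choose_spec.1 hi hex.choose_spec.2 hxi
      (by rw [dd_eq_zero.2 rfl]; omega)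
    simp only [σ, if_neg hx, dif_pos hex, e]
  have hN : ∀ x ∉ C, (¬ ∃ i ∈ s, x ∈ Zs i) → σ x = ga_sg (φ x) ∧ x ∈ Λ ∧ 1 / 4 < |φ x| := by
    intro x hx hn
    have hΛ : x ∈ Λ := (hL.cover x).2 fun i hi hxi => hn ⟨i, hi, Or.inl hxi⟩
    refine ⟨by simp only [σ, if_neg hx, dif_neg hn], hΛ, not_le.1 fun hφ => hx ⟨x, ?_, .refl⟩⟩
    exact mem_filter.2 ⟨hΛ, fun i hi hxi => hn ⟨i, hi, Or.inr hxi⟩, hφ⟩
  have hstep : ∀ x y, Adj x y → s(x, y) ∈ w → x ∈ C → y ∈ C :=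
    fun x y ha hw ⟨z, hz, hc⟩ => ⟨z, hz, hc.step trivial trivial ha hw⟩
  refine ⟨σ, fun x y _ _ ha hw => ?_, fun i hi x hx => hZ x ?_ i hi (Or.inl hx)⟩
  · by_cases hx : x ∈ C
    · simp only [σ, if_pos hx, if_pos (hstep x y ha hw hx)]
    have hy : y ∉ C := fun hy => hx (hstep y x ha.symm (Sym2.eq_swap ▸ hw) hy)
    by_cases zx : ∃ i ∈ s, x ∈ Zs i <;> by_cases zy : ∃ i ∈ s, y ∈ Zs i
    · obtain ⟨i, hi, hxi⟩ := zx
      obtain ⟨j, hj, hyj⟩ := zy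
      obtain rfl : i = j := ga_uniq hL hC hi hj hxi hyj ha.dd.le
      rw [hZ x hx i hi hxi, hZ y hy i hi hyj, h1 i hi x y hxi hyj ha hw]
    · obtain ⟨i, hi, hxi⟩ := zx
      obtain ⟨b1, b2, b3⟩ := hN y hy zy
      rw [hZ x hx i hi hxi, b1]
      exact ga_out hL hC ty h3 h4 hi hxi (fun hyi => zy ⟨i, hi, hyi⟩) b2 b3 ha
    · obtain ⟨i, hi, hyi⟩ := zy
      obtain ⟨b1, b2, b3⟩ := hN x hx zx
      rw [hZ y hy i hi hyi, b1]
      exact (ga_out hL hC ty h3 h4 hi hyi (fun hxi => zx ⟨i, hi, hxi⟩) b2 b3 ha.symm).symm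
    · obtain ⟨b1, b2, -⟩ := hN x hx zx
      obtain ⟨c1, c2, c3⟩ := hN y hy zy
      have h2 := hC.h2
      rw [b1, c1]
      exact ga_same c3 (hC.lip x (Or.inl b2) y (Or.inl c2) (by rw [ha.dd]; omega))
  · rintro ⟨z, hz, hc⟩
    exact (hL.cover x).1 (wall_far hL hC hz (hiso z hz x hc)) i hi hx

end

end Pool.Agent.XYU

end

section

open Finset Real Relation

namespace Pool.Agent.XYU

open Classical

noncomputable section

/-! A global angle with prescribed values along the sides of rectangles.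

`ra_lip`: induction on `|z - z'|`. `ra_bd`: each `θ d` is constant outside the range of its side
(fields `c0 .. c3`), so `|θ 0 z| ≤ π + lam D`, then `θ 1` (equal to `θ 0 x1` at `y0`), etc.
`frame_fun`: put `H v = θ 0 v.1` if `v.2 ≤ y0 + 2 W`, else `θ 2 v.1 - 2 π n` if `y1 - 2 W ≤ v.2`,
else `θ 1 v.2 - 2 π ρ v.2` if `x1 - 2 W ≤ v.1`, else `θ 3 v.2 - 2 π n`. First prove the strip
formula (near the corners everything is constant); for two points at distance at most `W` on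
different strips both are within `2 W` of a common corner (opposite strips are too far apart),
where the two formulas give the same constant; on the same strip use `ra_lip`. `|n| ≤ ν` from `ρ`.
`extend`: McShane, e.g. `LipschitzOnWith.extend_real` on `ℤ × ℤ` (`dist = dd`, `Prod.dist_eq`,
`Int.dist_eq`), or the infimum formula; the function is well defined on the union since different
sets are at distance more than `W`, where `|H i x - H j y| ≤ 2 B ≤ K dd`.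
`phi`: `rp i y = max 0 (min 1 ((y - y0 i - 4 W) / W))`, and
`G v = 2 π ∑ n i * rp i v.2 * [x0 i + 4 W ≤ v.1]`; `Θ = H + G` with `H` from `extend` over
`Option κ` (`Finset.insertNone`), the sets being the unions of the four strips, the functions from
`frame_fun` with `ρ = n i * rp i` (`μ = ν / W`) for a small rectangle and `ρ = ∑ n i * rp i` for
the large one (there `W'` is the width, and the local bound holds for `dd ≤ W ≤ W'`);
`B = π + 4 lam D + 2 π ν`, `K = lam + 2 π ν / W + 2 B / W`. On a strip of rectangle `i` the terms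
`j ≠ i` of `G` are integer multiples of `2 π` (`rp j ∈ {0, 1}` by `hrow`). For `x, y` off the open
rectangles with `dd x y ≤ W`, term `i` of `G x - G y` is within `2 π |n i| dd / W` of a multiple of
`2 π`: if the two brackets differ, both first coordinates lie strictly between `x0 i` and `x1 i`,
so each second coordinate is `≤ y0 i` or `≥ y1 i` and `rp i ∈ {0, 1}`. `2 π ≤ 7`, `8 π ≤ 26`. -/

variable {R : Rc} {W n : ℤ} {lam : ℝ} {θ : Fin 4 → ℤ → ℝ}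

lemma RA.mono (h : RA R W lam n θ) {lam' : ℝ} (hl : lam ≤ lam') : RA R W lam' n θ :=
  ⟨h.wx, h.wy, fun d z => (h.lip d z).trans hl, h.c0, h.c1, h.c2, h.c3, h.bd⟩

lemma gd1_nat (h : RA R W lam n θ) (d : Fin 4) (z : ℤ) (m : ℕ) :
    |θ d (z + m) - θ d z| ≤ lam * m := by
  induction m with
  | zero => simp
  | succ m ih =>
    have h1 := h.lip d (z + m)
    have h2 := abs_sub_le (θ d (z + m + 1)) (θ d (z + m)) (θ d z)
    push_cast
    rw [← add_assoc]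
    linarith

lemma ra_lip (h : RA R W lam n θ) (d : Fin 4) (z z' : ℤ) :
    |θ d z - θ d z'| ≤ lam * |(z : ℝ) - z'| := by
  wlog hz : z' ≤ z generalizing z z'
  · rw [abs_sub_comm, abs_sub_comm (z : ℝ)]
    exact this _ _ (not_le.1 hz).le
  obtain ⟨m, rfl⟩ := Int.le.dest hz
  have := gd1_nat h d z' m
  push_cast
  rwa [add_sub_cancel_left, Nat.abs_cast]

lemma gd1_lam (h : RA R W lam n θ) : 0 ≤ lam := (abs_nonneg _).trans (h.lip 0 0)

lemma gd1_osc (h : RA R W lam n θ) (d : Fin 4) {a b D : ℤ} (hab : a ≤ b) (hD : b - a ≤ D)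
    (ha : ∀ z ≤ a, θ d z = θ d a) (hb : ∀ z, b ≤ z → θ d z = θ d b) (z z' : ℤ) :
    |θ d z - θ d z'| ≤ lam * D := by
  have e : ∀ z, ∃ y, a ≤ y ∧ y ≤ b ∧ θ d z = θ d y := fun z => by
    rcases le_total z a with h1 | h1
    · exact ⟨a, le_rfl, hab, ha z h1⟩
    rcases le_total b z with h2 | h2
    · exact ⟨b, hab, le_rfl, hb z h2⟩
    · exact ⟨z, h1, h2, rfl⟩
  obtain ⟨y, y1, y2, e1⟩ := e z
  obtain ⟨y', y3, y4, e2⟩ := e z'
  rw [e1, e2]
  refine (ra_lip h d y y').trans (mul_le_mul_of_nonneg_left ?_ (gd1_lam h))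
  have : |y - y'| ≤ D := abs_le.2 ⟨by omega, by omega⟩
  exact_mod_cast this

lemma ra_bd (h : RA R W lam n θ) (hW : 0 ≤ W) {D : ℤ} (hx : R.x1 - R.x0 ≤ D)
    (hy : R.y1 - R.y0 ≤ D) (d : Fin 4) (z : ℤ) : |θ d z| ≤ π + 4 * lam * D := by
  have wx := h.wx
  have wy := h.wy
  have hD : (0 : ℝ) ≤ lam * D := mul_nonneg (gd1_lam h) (by exact_mod_cast (by omega : 0 ≤ D))
  have o0 := gd1_osc h 0 (by omega : R.x0 ≤ R.x1) hx (fun z hz => by
    have a := h.c0 R.y0 z (by omega) (by omega)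
    have b := h.c0 R.y0 R.x0 (by omega) (by omega)
    linarith) fun z hz => (h.c1 z R.y0 (by omega) (by omega)).trans
      (h.c1 R.x1 R.y0 (by omega) (by omega)).symm
  have o1 := gd1_osc h 1 (by omega : R.y0 ≤ R.y1) hy (fun z hz =>
    (h.c1 R.x1 z (by omega) (by omega)).symm.trans (h.c1 R.x1 R.y0 (by omega) (by omega)))
    fun z hz => (h.c2 z R.x1 (by omega) (by omega)).trans
      (h.c2 R.y1 R.x1 (by omega) (by omega)).symm
  have o2 := gd1_osc h 2 (by omega : R.x0 ≤ R.x1) hx (fun z hz =>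
    (h.c3 z R.y1 (by omega) (by omega)).trans (h.c3 R.x0 R.y1 (by omega) (by omega)).symm)
    fun z hz => (h.c2 R.y1 z (by omega) (by omega)).symm.trans
      (h.c2 R.y1 R.x1 (by omega) (by omega))
  have o3 := gd1_osc h 3 (by omega : R.y0 ≤ R.y1) hy (fun z hz =>
    (h.c0 z R.x0 (by omega) (by omega)).trans (h.c0 R.y0 R.x0 (by omega) (by omega)).symm)
    fun z hz => (h.c3 R.x0 z (by omega) (by omega)).symm.trans
      (h.c3 R.x0 R.y1 (by omega) (by omega))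
  have b := abs_le.1 h.bd
  have e1 := h.c1 R.x1 R.y0 (by omega) (by omega)
  have e2 := h.c2 R.y1 R.x1 (by omega) (by omega)
  have e3 := h.c3 R.x0 R.y1 (by omega) (by omega)
  have a0 := abs_le.1 (o0 R.x1 R.x0)
  have a1 := abs_le.1 (o1 R.y1 R.y0)
  have a2 := abs_le.1 (o2 R.x0 R.x1)
  have b0 := abs_le.1 (o0 z R.x0)
  have b1 := abs_le.1 (o1 z R.y0)
  have b2 := abs_le.1 (o2 z R.x1)
  have b3 := abs_le.1 (o3 z R.y1)
  rw [abs_le]
  match d with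
  | 0 => constructor <;> linarith
  | 1 => constructor <;> linarith
  | 2 => constructor <;> linarith
  | 3 => constructor <;> linarith

/-- the formula on the strip `d` -/
def gd1F (θ : Fin 4 → ℤ → ℝ) (ρ : ℤ → ℝ) (n : ℤ) (d : Fin 4) (v : V) : ℝ :=
  θ d (crd d v) - 2 * π * (if d = 0 then 0 else if d = 1 then ρ v.2 else n)

lemma gd1_same (h : RA R W lam n θ) (ρ : ℤ → ℝ) {μ : ℝ}
    (hμ : ∀ z z' : ℤ, |ρ z - ρ z'| ≤ μ * |(z : ℝ) - z'|) (d : Fin 4) (v v' : V) :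
    |gd1F θ ρ n d v - gd1F θ ρ n d v'| ≤ (lam + 2 * π * μ) * dd v v' := by
  have m0 : 0 ≤ μ := by simpa using (abs_nonneg _).trans (hμ 1 0)
  have d2 : |(v.2 : ℝ) - v'.2| ≤ dd v v' := by
    have : |v.2 - v'.2| ≤ dd v v' := abs_le.2 (by unfold dd; omega)
    exact_mod_cast this
  have d1 : |(crd d v : ℝ) - crd d v'| ≤ dd v v' := by
    have : |crd d v - crd d v'| ≤ dd v v' := abs_le.2 (by unfold dd crd; split_ifs <;> omega)
    exact_mod_cast this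
  have a := abs_le.1 ((ra_lip h d _ _).trans (mul_le_mul_of_nonneg_left d1 (gd1_lam h)))
  have b := abs_le.1 ((hμ _ _).trans (mul_le_mul_of_nonneg_left d2 m0))
  have c : 0 ≤ π * (μ * dd v v') := mul_nonneg pi_pos.le (mul_nonneg m0 ((abs_nonneg _).trans d2))
  have b1 := mul_le_mul_of_nonneg_left b.1 pi_pos.le
  have b2 := mul_le_mul_of_nonneg_left b.2 pi_pos.le
  unfold gd1F
  rw [abs_le]
  split_ifs <;> constructor <;> linarith

lemma gd1_adj (h : RA R W lam n θ) (hW : 1 ≤ W) (ρ : ℤ → ℝ) (h0 : ∀ z ≤ R.y0 + 4 * W, ρ z = 0)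
    (h1 : ∀ z, R.y1 - 4 * W ≤ z → ρ z = n) {d d' : Fin 4} {v v' : V} (hd : d < d')
    (s : Strip R W d v) (s' : Strip R W d' v') (hv : dd v v' ≤ W) :
    gd1F θ ρ n d v = gd1F θ ρ n d' v' := by
  have wx := h.wx
  have wy := h.wy
  unfold dd at hv
  fin_cases d <;> fin_cases d' <;> simp [Strip, abs_le] at hd s s'
  · simp [gd1F, crd, h0 v'.2 (by omega), h.c1 v.1 v'.2 (by omega) (by omega)]
  · omega
  · simp [gd1F, crd, h.c0 v'.2 v.1 (by omega) (by omega)]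
  · simp [gd1F, crd, h1 v.2 (by omega), h.c2 v.2 v'.1 (by omega) (by omega)]
  · omega
  · simp [gd1F, crd, h.c3 v.1 v'.2 (by omega) (by omega)]

lemma frame_fun (h : RA R W lam n θ) (hW : 1 ≤ W) {D : ℤ} (hx : R.x1 - R.x0 ≤ D)
    (hy : R.y1 - R.y0 ≤ D) (ρ : ℤ → ℝ) {μ ν : ℝ} (h0 : ∀ z ≤ R.y0 + 4 * W, ρ z = 0)
    (h1 : ∀ z, R.y1 - 4 * W ≤ z → ρ z = n) (hμ : ∀ z z' : ℤ, |ρ z - ρ z'| ≤ μ * |(z : ℝ) - z'|)
    (hν : ∀ z, |ρ z| ≤ ν) : ∃ H : V → ℝ, (∀ v, |H v| ≤ π + 4 * lam * D + 2 * π * ν) ∧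
      (∀ d v d' v', Strip R W d v → Strip R W d' v' → dd v v' ≤ W →
        |H v - H v'| ≤ (lam + 2 * π * μ) * dd v v') ∧
      ∀ d v, Strip R W d v → H v = θ d (crd d v) -
        2 * π * (if d = 0 then 0 else if d = 1 then ρ v.2 else n) := by
  have key : ∀ d v d' v', Strip R W d v → Strip R W d' v' → dd v v' ≤ W →
      |gd1F θ ρ n d v - gd1F θ ρ n d' v'| ≤ (lam + 2 * π * μ) * dd v v' := by
    intro d v d' v' s s' hv
    have h2 := (abs_nonneg _).trans (gd1_same h ρ hμ d v v')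
    rcases lt_trichotomy d d' with hd | rfl | hd
    · rwa [gd1_adj h hW ρ h0 h1 hd s s' hv, sub_self, abs_zero]
    · exact gd1_same h ρ hμ d v v'
    · rwa [gd1_adj h hW ρ h0 h1 hd s' s (by unfold dd at hv ⊢; omega), sub_self, abs_zero]
  have bd : ∀ d v, |gd1F θ ρ n d v| ≤ π + 4 * lam * D + 2 * π * ν := by
    intro d v
    have a := abs_le.1 (ra_bd h (by omega) hx hy d (crd d v))
    have b := abs_le.1 (hν v.2)
    have c := abs_le.1 (h1 R.y1 (by omega) ▸ hν R.y1)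
    have b1 := mul_le_mul_of_nonneg_left b.1 pi_pos.le
    have b2 := mul_le_mul_of_nonneg_left b.2 pi_pos.le
    have c1 := mul_le_mul_of_nonneg_left c.1 pi_pos.le
    have c2 := mul_le_mul_of_nonneg_left c.2 pi_pos.le
    unfold gd1F
    rw [abs_le]
    split_ifs <;> constructor <;> linarith
  have e : ∀ d v, Strip R W d v →
      gd1F θ ρ n (if h : ∃ d, Strip R W d v then h.choose else 0) v = gd1F θ ρ n d v := by
    intro d v s
    have hs : ∃ d, Strip R W d v := ⟨d, s⟩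
    have z : dd v v = 0 := by simp [dd]
    have := key _ v d v hs.choose_spec s (by omega)
    rw [z, Int.cast_zero, mul_zero, abs_nonpos_iff, sub_eq_zero] at this
    rwa [dif_pos hs]
  refine ⟨fun v => gd1F θ ρ n (if h : ∃ d, Strip R W d v then h.choose else 0) v,
    fun v => bd _ v, fun d v d' v' s s' hv => ?_, e⟩
  simp only [e d v s, e d' v' s']
  exact key d v d' v' s s' hv

end

end Pool.Agent.XYU

end

section

open Finset Real Relation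

namespace Pool.Agent.XYU

open Classical

noncomputable section

variable {R : Rc} {W n : ℤ} {lam : ℝ} {θ : Fin 4 → ℤ → ℝ}

lemma gd2_dist (v w : V) : dist v w = (dd v w : ℝ) := by
  rw [Prod.dist_eq, Int.dist_eq, Int.dist_eq, dd]
  push_cast
  rw [abs_eq_max_neg, abs_eq_max_neg, neg_sub, neg_sub]

lemma extend {ι : Type} (s : Finset ι) (A : ι → Set V) (H : ι → V → ℝ) {K B : ℝ} (hW : 1 ≤ W)
    (hK : 0 ≤ K) (hB : ∀ i ∈ s, ∀ v ∈ A i, |H i v| ≤ B) (hKB : 2 * B ≤ K * W)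
    (hl : ∀ i ∈ s, ∀ v ∈ A i, ∀ v' ∈ A i, dd v v' ≤ W → |H i v - H i v'| ≤ K * dd v v')
    (hs : ∀ i ∈ s, ∀ j ∈ s, i ≠ j → ∀ v ∈ A i, ∀ v' ∈ A j, W < dd v v') :
    ∃ G : V → ℝ, (∀ i ∈ s, ∀ v ∈ A i, G v = H i v) ∧ ∀ v v', |G v - G v'| ≤ K * dd v v' := by
  have hW' : (1 : ℝ) ≤ W := by exact_mod_cast hW
  have key : ∀ i ∈ s, ∀ v ∈ A i, ∀ j ∈ s, ∀ v' ∈ A j, |H i v - H j v'| ≤ K * dd v v' := by
    intro i hi v hv j hj v' hv'
    by_cases hd : dd v v' ≤ W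
    · have hij : i = j := by
        by_contra hne
        exact absurd (hs i hi j hj hne v hv v' hv') (not_lt.2 hd)
      subst hij
      exact hl i hi v hv v' hv' hd
    · have h1 := hB i hi v hv
      have h2 := hB j hj v' hv'
      have h3 : (W : ℝ) ≤ dd v v' := by exact_mod_cast (not_le.1 hd).le
      have h4 := mul_le_mul_of_nonneg_left h3 hK
      have h5 := abs_sub (H i v) (H j v')
      linarith
  let U : Set V := {v | ∃ i ∈ s, v ∈ A i}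
  let f : V → ℝ := fun v => if h : ∃ i ∈ s, v ∈ A i then H h.choose v else 0
  have hf : ∀ i ∈ s, ∀ v ∈ A i, f v = H i v := by
    intro i hi v hv
    have h : ∃ i ∈ s, v ∈ A i := ⟨i, hi, hv⟩
    have h1 := key _ h.choose_spec.1 v h.choose_spec.2 i hi v hv
    have h0 : (dd v v : ℝ) = 0 := by rw [← gd2_dist, dist_self]
    rw [h0, mul_zero] at h1
    simp only [f, dif_pos h]
    exact sub_eq_zero.1 (abs_nonpos_iff.1 h1)
  have hlip : LipschitzOnWith ⟨K, hK⟩ f U := by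
    refine LipschitzOnWith.of_dist_le_mul ?_
    rintro v ⟨i, hi, hv⟩ v' ⟨j, hj, hv'⟩
    rw [Real.dist_eq, gd2_dist, hf i hi v hv, hf j hj v' hv']
    exact key i hi v hv j hj v' hv'
  obtain ⟨G, hG, hE⟩ := hlip.extend_real
  refine ⟨G, fun i hi v hv => ?_, fun v v' => ?_⟩
  · rw [← hf i hi v hv]
    exact (hE ⟨i, hi, hv⟩).symm
  · have := hG.dist_le_mul v v'
    rw [Real.dist_eq, gd2_dist] at this
    exact this

end

end Pool.Agent.XYU

end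

section

open Finset Real Relation

namespace Pool.Agent.XYU

open Classical

noncomputable section

variable {R : Rc} {W n : ℤ} {lam : ℝ} {θ : Fin 4 → ℤ → ℝ}

/-- ramp -/
def gd_rp (W y0 z : ℤ) : ℝ := max 0 (min 1 (((z : ℝ) - y0 - 4 * W) / W))

lemma gd_rp0 (hW : 1 ≤ W) {y0 z : ℤ} (h : z ≤ y0 + 4 * W) : gd_rp W y0 z = 0 := by
  have hW' : (0 : ℝ) < W := by exact_mod_cast (by omega : (0 : ℤ) < W)
  have h' : (z : ℝ) ≤ y0 + 4 * W := by exact_mod_cast h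
  unfold gd_rp
  apply max_eq_left
  apply le_trans (min_le_right _ _)
  apply div_nonpos_of_nonpos_of_nonneg <;> linarith

lemma gd_rp1 (hW : 1 ≤ W) {y0 z : ℤ} (h : y0 + 5 * W ≤ z) : gd_rp W y0 z = 1 := by
  have hW' : (0 : ℝ) < W := by exact_mod_cast (by omega : (0 : ℤ) < W)
  have h' : (y0 : ℝ) + 5 * W ≤ z := by exact_mod_cast h
  unfold gd_rp
  rw [min_eq_left, max_eq_right zero_le_one]
  rw [le_div_iff₀ hW']
  linarith

lemma gd_rp_abs (W y0 z : ℤ) : |gd_rp W y0 z| ≤ 1 := by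
  unfold gd_rp
  rw [abs_of_nonneg (le_max_left _ _)]
  exact max_le zero_le_one (min_le_left _ _)

lemma gd_rp_lip (hW : 1 ≤ W) (y0 z z' : ℤ) :
    |gd_rp W y0 z - gd_rp W y0 z'| ≤ |(z : ℝ) - z'| / W := by
  have hW' : (0 : ℝ) < W := by exact_mod_cast (by omega : (0 : ℤ) < W)
  unfold gd_rp
  have h1 := abs_max_sub_max_le_max (0 : ℝ) (min 1 (((z : ℝ) - y0 - 4 * W) / W)) 0
    (min 1 (((z' : ℝ) - y0 - 4 * W) / W))
  have h2 := abs_min_sub_min_le_max (1 : ℝ) (((z : ℝ) - y0 - 4 * W) / W) 1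
    (((z' : ℝ) - y0 - 4 * W) / W)
  have h3 : ((z : ℝ) - y0 - 4 * W) / W - ((z' : ℝ) - y0 - 4 * W) / W = ((z : ℝ) - z') / W := by
    ring
  rw [h3, abs_div, abs_of_pos hW', sub_self, abs_zero, max_eq_right (by positivity)] at h2
  rw [sub_self, abs_zero] at h1
  exact h1.trans (max_le (by positivity) h2)

/-- one vortex term -/
def gd_g (W : ℤ) (Q : Rc) (k : ℤ) (v : V) : ℝ :=
  if Q.x0 + 4 * W ≤ v.1 then k * gd_rp W Q.y0 v.2 else 0

lemma gd_g_int (hW : 1 ≤ W) (Q : Rc) (k : ℤ) (v : V)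
    (h : v.1 < Q.x0 + 4 * W ∨ v.2 ≤ Q.y0 + 4 * W ∨ Q.y0 + 5 * W ≤ v.2) :
    ∃ j : ℤ, gd_g W Q k v = j := by
  unfold gd_g
  split_ifs with hb
  · rcases h with h | h | h
    · omega
    · exact ⟨0, by rw [gd_rp0 hW h]; simp⟩
    · exact ⟨k, by rw [gd_rp1 hW h]; simp⟩
  · exact ⟨0, by simp⟩

lemma gd_sum_int {κ : Type} (s : Finset κ) (f : κ → ℝ) (h : ∀ i ∈ s, ∃ j : ℤ, f i = j) :
    ∃ j : ℤ, ∑ i ∈ s, f i = j := by
  choose! j hj using h
  exact ⟨∑ i ∈ s, j i, by rw [Int.cast_sum]; exact sum_congr rfl hj⟩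

lemma gd_dd2 (x y : V) : |(x.2 : ℝ) - y.2| ≤ dd x y := by
  have : |x.2 - y.2| ≤ dd x y := by
    unfold dd
    rw [abs_le]
    constructor <;> omega
  exact_mod_cast this

lemma gd_dd0 (x y : V) : (0 : ℝ) ≤ dd x y := (abs_nonneg _).trans (gd_dd2 x y)

lemma gd_mem {a b c d : ℤ} {v : V} :
    v ∈ rect a b c d ↔ a ≤ v.1 ∧ v.1 ≤ b ∧ c ≤ v.2 ∧ v.2 ≤ d := by
  unfold rect
  rw [mem_Icc, Prod.le_def, Prod.le_def]
  tauto

lemma gd_loc (hW : 1 ≤ W) (Q : Rc) (k : ℤ) (hx : Q.x0 + 32 * W ≤ Q.x1)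
    (hy : Q.y0 + 32 * W ≤ Q.y1) (x y : V)
    (h1 : x ∉ rect (Q.x0 + 1) (Q.x1 - 1) (Q.y0 + 1) (Q.y1 - 1))
    (h2 : y ∉ rect (Q.x0 + 1) (Q.x1 - 1) (Q.y0 + 1) (Q.y1 - 1)) (hd : dd x y ≤ W) :
    ∃ j : ℤ, |gd_g W Q k x - gd_g W Q k y - j| ≤ |(k : ℝ)| * (dd x y / W) := by
  have hW' : (0 : ℝ) < W := by exact_mod_cast (by omega : (0 : ℤ) < W)
  have h0 : (0 : ℝ) ≤ |(k : ℝ)| * (dd x y / W) :=
    mul_nonneg (abs_nonneg _) (div_nonneg (gd_dd0 x y) hW'.le)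
  rw [gd_mem] at h1 h2
  by_cases hc : Q.x0 + 4 * W ≤ x.1 ∧ Q.x0 + 4 * W ≤ y.1
  · refine ⟨0, ?_⟩
    unfold gd_g
    rw [if_pos hc.1, if_pos hc.2, Int.cast_zero, sub_zero, ← mul_sub, abs_mul]
    apply mul_le_mul_of_nonneg_left _ (abs_nonneg _)
    exact (gd_rp_lip hW _ _ _).trans (div_le_div_of_nonneg_right (gd_dd2 x y) hW'.le)
  · unfold dd at hd
    obtain ⟨a, ha⟩ := gd_g_int hW Q k x (by omega)
    obtain ⟨b, hb⟩ := gd_g_int hW Q k y (by omega)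
    refine ⟨a - b, ?_⟩
    rw [ha, hb, Int.cast_sub, sub_self, abs_zero]
    exact h0

lemma gd_strip {Q : Rc} {w : ℤ} {d : Fin 4} {v : V} (h : Strip Q w d v) :
    (d = 0 ∧ Q.x0 ≤ v.1 ∧ v.1 ≤ Q.x1 ∧ Q.y0 - w ≤ v.2 ∧ v.2 ≤ Q.y0 + w) ∨
    (d = 1 ∧ Q.y0 ≤ v.2 ∧ v.2 ≤ Q.y1 ∧ Q.x1 - w ≤ v.1 ∧ v.1 ≤ Q.x1 + w) ∨
    (d = 2 ∧ Q.x0 ≤ v.1 ∧ v.1 ≤ Q.x1 ∧ Q.y1 - w ≤ v.2 ∧ v.2 ≤ Q.y1 + w) ∨
    (d = 3 ∧ Q.y0 ≤ v.2 ∧ v.2 ≤ Q.y1 ∧ Q.x0 - w ≤ v.1 ∧ v.1 ≤ Q.x0 + w) := by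
  unfold Strip at h
  simp only [abs_le] at h
  split_ifs at h with h0 h1 h2
  · left
    exact ⟨h0, by omega⟩
  · right; left
    exact ⟨h1, by omega⟩
  · right; right; left
    exact ⟨h2, by omega⟩
  · right; right; right
    exact ⟨by omega, by omega⟩

/-- fitting from the frame formula -/
lemma gd_fit {Q : Rc} {w k : ℤ} {ϑ : Fin 4 → ℤ → ℝ} {H G : V → ℝ} {ρ : ℤ → ℝ}
    (hH : ∀ d v, Strip Q w d v → H v = ϑ d (crd d v) -
      2 * π * (if d = 0 then 0 else if d = 1 then ρ v.2 else k))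
    (h1 : ∀ v, Strip Q w 1 v → ∃ j : ℤ, G v = ρ v.2 + j)
    (h2 : ∀ d v, d ≠ 1 → Strip Q w d v → ∃ j : ℤ, G v = j) :
    Fit Q w ϑ (fun v => H v + 2 * π * G v) := by
  intro d v hv
  have e := hH d v hv
  by_cases hd : d = 1
  · subst hd
    obtain ⟨j, hj⟩ := h1 v hv
    refine ⟨j, ?_⟩
    rw [if_neg (by decide), if_pos rfl] at e
    simp only [e, hj]
    ring
  · obtain ⟨j, hj⟩ := h2 d v hd hv
    by_cases h0 : d = 0
    · rw [if_pos h0] at e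
      refine ⟨j, ?_⟩
      simp only [e, hj]
      ring
    · rw [if_neg h0, if_neg hd] at e
      refine ⟨j - k, ?_⟩
      simp only [e, hj]
      push_cast
      ring

theorem phi {κ : Type} (s : Finset κ) {W' D : ℤ} {ν : ℝ} (r : κ → Rc) (m : κ → ℤ)
    (ϑ : κ → Fin 4 → ℤ → ℝ) (hW : 1 ≤ W) (hW' : W ≤ W') (hO : RA R W' lam (∑ i ∈ s, m i) θ)
    (hI : ∀ i ∈ s, RA (r i) W lam (m i) (ϑ i)) (hx : R.x1 - R.x0 ≤ D) (hy : R.y1 - R.y0 ≤ D)
    (hν : ∑ i ∈ s, |(m i : ℝ)| ≤ ν)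
    (hin : ∀ i ∈ s, R.x0 + 8 * W' ≤ (r i).x0 ∧ (r i).x1 + 8 * W' ≤ R.x1 ∧
      R.y0 + 8 * W' ≤ (r i).y0 ∧ (r i).y1 + 8 * W' ≤ R.y1)
    (hrow : ∀ i ∈ s, ∀ j ∈ s, i ≠ j →
      (r i).y1 + 8 * W ≤ (r j).y0 ∨ (r j).y1 + 8 * W ≤ (r i).y0) :
    ∃ Θ : V → ℝ, Fit R W' θ Θ ∧ (∀ i ∈ s, Fit (r i) W (ϑ i) Θ) ∧ ∀ x y : V,
      (∀ i ∈ s, x ∉ rect ((r i).x0 + 1) ((r i).x1 - 1) ((r i).y0 + 1) ((r i).y1 - 1) ∧
        y ∉ rect ((r i).x0 + 1) ((r i).x1 - 1) ((r i).y0 + 1) ((r i).y1 - 1)) → dd x y ≤ W →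
      ∃ k : ℤ, |Θ x - Θ y - 2 * π * k| ≤ (lam + (7 + 8 * lam * D + 26 * ν) / W) * dd x y := by
  have hW0 : (0 : ℝ) < W := by exact_mod_cast (by omega : (0 : ℤ) < W)
  have hlam : 0 ≤ lam := (abs_nonneg _).trans (hO.lip 0 0)
  have hν0 : 0 ≤ ν := (sum_nonneg fun i _ => abs_nonneg _).trans hν
  have hwx := hO.wx
  have hwy := hO.wy
  have hD : (0 : ℝ) ≤ D := by exact_mod_cast (by omega : (0 : ℤ) ≤ D)
  have hmi : ∀ i ∈ s, |(m i : ℝ)| ≤ ν := fun i hi =>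
    (single_le_sum (f := fun i => |(m i : ℝ)|) (fun i _ => abs_nonneg _) hi).trans hν
  have hsm : ∀ i ∈ s, ∃ H : V → ℝ, (∀ v, |H v| ≤ π + 4 * lam * D + 2 * π * ν) ∧
      (∀ d v d' v', Strip (r i) W d v → Strip (r i) W d' v' → dd v v' ≤ W →
        |H v - H v'| ≤ (lam + 2 * π * (ν / W)) * dd v v') ∧
      ∀ d v, Strip (r i) W d v → H v = ϑ i d (crd d v) -
        2 * π * (if d = 0 then 0 else if d = 1 then m i * gd_rp W (r i).y0 v.2 else m i) := by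
    intro i hi
    have h1 := hin i hi
    have h2 := (hI i hi).wy
    apply frame_fun (hI i hi) hW (D := D) (by omega) (by omega)
      (fun z => m i * gd_rp W (r i).y0 z)
    · intro z hz
      simp only [gd_rp0 hW hz, mul_zero]
    · intro z hz
      rw [gd_rp1 hW (by omega), mul_one]
    · intro z z'
      rw [← mul_sub, abs_mul]
      calc _ ≤ ν * (|(z : ℝ) - z'| / W) :=
            mul_le_mul (hmi i hi) (gd_rp_lip hW _ _ _) (abs_nonneg _) hν0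
        _ = _ := by ring
    · intro z
      rw [abs_mul]
      exact (mul_le_of_le_one_right (abs_nonneg _) (gd_rp_abs _ _ _)).trans (hmi i hi)
  choose! HI hI1 hI2 hI3 using hsm
  obtain ⟨HO, hO1, hO2, hO3⟩ := frame_fun hO (hW.trans hW') hx hy
    (fun z => ∑ i ∈ s, m i * gd_rp W (r i).y0 z) (μ := ν / W) (ν := ν)
    (by
      intro z hz
      apply sum_eq_zero
      intro i hi
      have h1 := hin i hi
      rw [gd_rp0 hW (by omega), mul_zero])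
    (by
      intro z hz
      rw [Int.cast_sum]
      apply sum_congr rfl
      intro i hi
      have h1 := hin i hi
      have h2 := (hI i hi).wy
      rw [gd_rp1 hW (by omega), mul_one])
    (by
      intro z z'
      rw [← sum_sub_distrib]
      calc _ ≤ ∑ i ∈ s, |(m i : ℝ)| * (|(z : ℝ) - z'| / W) := by
            refine (abs_sum_le_sum_abs _ _).trans (sum_le_sum fun i _ => ?_)
            rw [← mul_sub, abs_mul]
            exact mul_le_mul_of_nonneg_left (gd_rp_lip hW _ _ _) (abs_nonneg _)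
        _ ≤ ν * (|(z : ℝ) - z'| / W) := by
            rw [← sum_mul]
            exact mul_le_mul_of_nonneg_right hν (by positivity)
        _ = _ := by ring)
    (by
      intro z
      refine (abs_sum_le_sum_abs _ _).trans (le_trans (sum_le_sum fun i _ => ?_) hν)
      rw [abs_mul]
      exact mul_le_of_le_one_right (abs_nonneg _) (gd_rp_abs _ _ _))
  have hpi := pi_pos
  set B : ℝ := π + 4 * lam * D + 2 * π * ν with hB
  have hB0 : 0 ≤ B := by positivity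
  have hK1 : lam + 2 * π * (ν / W) ≤ lam + 2 * π * (ν / W) + 2 * B / W :=
    le_add_of_nonneg_right (by positivity)
  obtain ⟨H, hH1, hH2⟩ := extend (W := W) (insertNone s)
    (fun o => Option.elim o {v | ∃ d, Strip R W' d v} fun i => {v | ∃ d, Strip (r i) W d v})
    (fun o => Option.elim o HO HI) (K := lam + 2 * π * (ν / W) + 2 * B / W) (B := B) hW
    (by positivity)
    (by
      rintro (_ | i) hi v _
      · exact hO1 v
      · exact hI1 i (some_mem_insertNone.1 hi) v)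
    (by
      have : (lam + 2 * π * (ν / W) + 2 * B / W) * W = (lam + 2 * π * (ν / W)) * W + 2 * B := by
        field_simp
      rw [this]
      exact le_add_of_nonneg_left (by positivity))
    (by
      rintro (_ | i) hi v ⟨d, hv⟩ v' ⟨d', hv'⟩ hd
      · exact (hO2 d v d' v' hv hv' (hd.trans hW')).trans
          (mul_le_mul_of_nonneg_right hK1 (gd_dd0 v v'))
      · exact (hI2 i (some_mem_insertNone.1 hi) d v d' v' hv hv' hd).trans
          (mul_le_mul_of_nonneg_right hK1 (gd_dd0 v v')))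
    (by
      rintro (_ | i) hi (_ | j) hj hij v ⟨d, hv⟩ v' ⟨d', hv'⟩
      · exact absurd rfl hij
      · have hj' := some_mem_insertNone.1 hj
        have h1 := hin j hj'
        have h2 := (hI j hj').wx
        have h3 := (hI j hj').wy
        have h4 := gd_strip hv
        have h5 : (r j).x0 - W ≤ v'.1 ∧ v'.1 ≤ (r j).x1 + W ∧ (r j).y0 - W ≤ v'.2 ∧
            v'.2 ≤ (r j).y1 + W := by
          have := gd_strip hv'
          omega
        unfold dd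
        omega
      · have hi' := some_mem_insertNone.1 hi
        have h1 := hin i hi'
        have h2 := (hI i hi').wx
        have h3 := (hI i hi').wy
        have h4 := gd_strip hv'
        have h5 : (r i).x0 - W ≤ v.1 ∧ v.1 ≤ (r i).x1 + W ∧ (r i).y0 - W ≤ v.2 ∧
            v.2 ≤ (r i).y1 + W := by
          have := gd_strip hv
          omega
        unfold dd
        omega
      · have hi' := some_mem_insertNone.1 hi
        have hj' := some_mem_insertNone.1 hj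
        have h1 := hrow i hi' j hj' (fun e => hij (by rw [e]))
        have h2 := (hI i hi').wy
        have h3 := (hI j hj').wy
        have h4 : (r i).y0 - W ≤ v.2 ∧ v.2 ≤ (r i).y1 + W := by
          have := gd_strip hv
          omega
        have h5 : (r j).y0 - W ≤ v'.2 ∧ v'.2 ≤ (r j).y1 + W := by
          have := gd_strip hv'
          omega
        unfold dd
        omega)
  refine ⟨fun v => H v + 2 * π * ∑ i ∈ s, gd_g W (r i) (m i) v, ?_, ?_, ?_⟩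
  · apply gd_fit (k := ∑ i ∈ s, m i) (ρ := fun z => ∑ i ∈ s, m i * gd_rp W (r i).y0 z)
    · intro d v hv
      rw [hH1 none none_mem_insertNone v ⟨d, hv⟩]
      exact hO3 d v hv
    · intro v hv
      refine ⟨0, ?_⟩
      rw [Int.cast_zero, add_zero]
      apply sum_congr rfl
      intro i hi
      have h1 := hin i hi
      have h2 := (hI i hi).wx
      have h3 := gd_strip hv
      unfold gd_g
      rw [if_pos (by omega)]
    · intro d v hd hv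
      apply gd_sum_int
      intro i hi
      have h1 := hin i hi
      have h2 := (hI i hi).wy
      have h3 := gd_strip hv
      exact gd_g_int hW _ _ _ (by omega)
  · intro i hi
    have h2 := (hI i hi).wx
    have h3 := (hI i hi).wy
    have ho : ∀ d v, Strip (r i) W d v →
        ∃ j : ℤ, ∑ k ∈ s.erase i, gd_g W (r k) (m k) v = j := by
      intro d v hv
      apply gd_sum_int
      intro k hk
      have hk' := mem_of_mem_erase hk
      have h4 := hrow i hi k hk' (ne_of_mem_erase hk).symm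
      have h5 := (hI k hk').wy
      have h6 := gd_strip hv
      exact gd_g_int hW _ _ _ (by omega)
    apply gd_fit (k := m i) (ρ := fun z => m i * gd_rp W (r i).y0 z)
    · intro d v hv
      rw [hH1 (some i) (some_mem_insertNone.2 hi) v ⟨d, hv⟩]
      exact hI3 i hi d v hv
    · intro v hv
      obtain ⟨j, hj⟩ := ho 1 v hv
      refine ⟨j, ?_⟩
      rw [← add_sum_erase s _ hi, hj]
      have h6 := gd_strip hv
      unfold gd_g
      rw [if_pos (by omega)]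
    · intro d v hd hv
      obtain ⟨j, hj⟩ := ho d v hv
      have h6 := gd_strip hv
      obtain ⟨a, ha⟩ := gd_g_int hW (r i) (m i) v (by omega)
      refine ⟨a + j, ?_⟩
      rw [← add_sum_erase s _ hi, hj, ha, Int.cast_add]
  · intro x y hxy hd
    have hl : ∀ i ∈ s, ∃ j : ℤ, |gd_g W (r i) (m i) x - gd_g W (r i) (m i) y - j| ≤
        |(m i : ℝ)| * (dd x y / W) := fun i hi =>
      gd_loc hW (r i) (m i) (hI i hi).wx (hI i hi).wy x y (hxy i hi).1 (hxy i hi).2 hd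
    choose! j hj using hl
    refine ⟨∑ i ∈ s, j i, ?_⟩
    have h0 := gd_dd0 x y
    have hs : |∑ i ∈ s, (gd_g W (r i) (m i) x - gd_g W (r i) (m i) y - j i)| ≤
        ν * (dd x y / W) := by
      refine (abs_sum_le_sum_abs _ _).trans ((sum_le_sum hj).trans ?_)
      rw [← sum_mul]
      exact mul_le_mul_of_nonneg_right hν (by positivity)
    have e : H x + 2 * π * ∑ i ∈ s, gd_g W (r i) (m i) x -
        (H y + 2 * π * ∑ i ∈ s, gd_g W (r i) (m i) y) - 2 * π * ((∑ i ∈ s, j i : ℤ) : ℝ) =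
        (H x - H y) + 2 * π * ∑ i ∈ s, (gd_g W (r i) (m i) x - gd_g W (r i) (m i) y - j i) := by
      rw [sum_sub_distrib, sum_sub_distrib, Int.cast_sum]
      ring
    simp only []
    rw [e]
    have h7 : 2 * π + 8 * lam * D + 8 * π * ν ≤ 7 + 8 * lam * D + 26 * ν := by
      have := pi_lt_d2
      nlinarith
    calc _ ≤ (lam + 2 * π * (ν / W) + 2 * B / W) * dd x y + 2 * π * (ν * (dd x y / W)) := by
          refine (abs_add_le _ _).trans (add_le_add (hH2 x y) ?_)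
          rw [abs_mul, abs_of_pos two_pi_pos]
          exact mul_le_mul_of_nonneg_left hs two_pi_pos.le
      _ = (lam + (2 * π + 8 * lam * D + 8 * π * ν) / W) * dd x y := by
          rw [hB]
          ring
      _ ≤ _ := by
          apply mul_le_mul_of_nonneg_right _ h0
          exact add_le_add_right (div_le_div_of_nonneg_right h7 hW0.le) _

end

end Pool.Agent.XYU

end

end

-- part MP_b591f0_mp.XY.G2
section

section

open Finset Real Relation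

namespace Pool.Agent.XYU

open Classical

noncomputable section

/-! Rectangles as pieces.

`mem_FI`, `mem_FO`: unfold (`Finset.mem_image`, `mem_union`, `mem_range`).
`sum_FI`, `sum_FO`: `pe l o` is injective for `l ≠ 0`, the four images are disjoint (different
directions) and the maps are injective.
`geo_in`, `geo_out`: coordinates. Use `mem_FI`, `mem_rect`, unfold `fr`; the numbers `a < α ≤ 3`
can be split by `interval_cases`, then `omega` (write `dd` and `|·|` as maxima, or use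
`abs_le`). For `bdy` choose the edge by comparing the coordinate with `l`, `2 l`, `3 l`.
`ra_in`: with `c = chi ε` and `B e t = A e t - π / 4` (zero for `t ≤ 4 W`, `2 π nn e` for
`l - 4 W ≤ t`) put `θ 0 x = c (π/4 + ∑ a < α, B (bottom a) (x - x0 - l a))`,
`θ 1 y = θ 0 x1 + c ∑ b < γ, B (right b) (y - y0 - l b)`,
`θ 2 x = θ 1 y1 + c ∑ a < α, B (top a) (x0 + l (a+1) - x)`,
`θ 3 y = θ 2 x0 + c ∑ b < γ, B (left b) (y0 + l (b+1) - y)`. On the edge number `a` all the other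
terms are integer multiples of `2 π` (arguments `≥ l` or `≤ 0`). `chi ε = sz ε` as reals.
`ra_out`: the same, the edges being traversed backwards: use `B e t - 2 π nn e`, with
`θ 0 x = π/4 + ∑ a < 3, (B (bottom a) (x0 + l (a+1) - x) - 2 π nn (bottom a))` and so on. -/

variable {p : Par} {l : ℤ} {o : V} {α γ : ℕ}

lemma mem_FI {e : V × Fin 4} : e ∈ FI l o α γ ↔
    (∃ a : ℕ, a < α ∧ e = ((o.1 + l * a, o.2), 0)) ∨
    (∃ b : ℕ, b < γ ∧ e = ((o.1 + l * α, o.2 + l * b), 1)) ∨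
    (∃ a : ℕ, a < α ∧ e = ((o.1 + l * (a + 1), o.2 + l * γ), 2)) ∨
    ∃ b : ℕ, b < γ ∧ e = ((o.1, o.2 + l * (b + 1)), 3) := by
  simp only [FI, EI, image_union, image_image, mem_union, mem_image, mem_range, pe,
    Function.comp, mul_zero, add_zero, or_assoc, eq_comm (a := e)]

lemma mem_FO {e : V × Fin 4} : e ∈ FO l o ↔
    (∃ a : ℕ, a < 3 ∧ e = ((o.1 + l * (a + 1), o.2), 2)) ∨
    (∃ b : ℕ, b < 3 ∧ e = ((o.1 + l * 3, o.2 + l * (b + 1)), 3)) ∨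
    (∃ a : ℕ, a < 3 ∧ e = ((o.1 + l * a, o.2 + l * 3), 0)) ∨
    ∃ b : ℕ, b < 3 ∧ e = ((o.1, o.2 + l * b), 1) := by
  simp only [FO, EO, image_union, image_image, mem_union, mem_image, mem_range, pe,
    Function.comp, mul_zero, add_zero, or_assoc, eq_comm (a := e)]

lemma ge1_disj {n m : ℕ} {f g : ℕ → V} {d d' : Fin 4} (h : d ≠ d') :
    Disjoint ((range n).image fun a => (f a, d)) ((range m).image fun a => (g a, d')) := by
  rw [Finset.disjoint_left]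
  intro e h1 h2
  obtain ⟨a, -, rfl⟩ := mem_image.1 h1
  obtain ⟨b, -, hb⟩ := mem_image.1 h2
  exact h (congrArg Prod.snd hb).symm

lemma ge1_img {M : Type} [AddCommMonoid M] (F : V × Fin 4 → M) (n : ℕ) {f : ℕ → V} (d : Fin 4)
    (hf : Function.Injective f) :
    ∑ e ∈ (range n).image fun a => (f a, d), F e = ∑ a ∈ range n, F (f a, d) :=
  sum_image fun _ _ _ _ h => hf (congrArg Prod.fst h)

lemma ge1_sum {M : Type} [AddCommMonoid M] (F : V × Fin 4 → M) {E : Finset (V × Fin 4)}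
    {n0 n1 n2 n3 : ℕ} {f0 f1 f2 f3 : ℕ → V} {d0 d1 d2 d3 : Fin 4}
    (hE : ∀ e, e ∈ E ↔ (∃ a : ℕ, a < n0 ∧ e = (f0 a, d0)) ∨ (∃ a : ℕ, a < n1 ∧ e = (f1 a, d1)) ∨
      (∃ a : ℕ, a < n2 ∧ e = (f2 a, d2)) ∨ ∃ a : ℕ, a < n3 ∧ e = (f3 a, d3))
    (i0 : Function.Injective f0) (i1 : Function.Injective f1) (i2 : Function.Injective f2)
    (i3 : Function.Injective f3) (h01 : d0 ≠ d1) (h02 : d0 ≠ d2) (h03 : d0 ≠ d3) (h12 : d1 ≠ d2)
    (h13 : d1 ≠ d3) (h23 : d2 ≠ d3) :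
    ∑ e ∈ E, F e = ∑ a ∈ range n0, F (f0 a, d0) + ∑ a ∈ range n1, F (f1 a, d1) +
      ∑ a ∈ range n2, F (f2 a, d2) + ∑ a ∈ range n3, F (f3 a, d3) := by
  have e : E = ((range n0).image fun a => (f0 a, d0)) ∪ ((range n1).image fun a => (f1 a, d1)) ∪
      ((range n2).image fun a => (f2 a, d2)) ∪ ((range n3).image fun a => (f3 a, d3)) := by
    ext e
    simp only [hE, mem_union, mem_image, mem_range, or_assoc, eq_comm (a := e)]
  rw [e, sum_union, sum_union, sum_union (ge1_disj h01), ge1_img F _ _ i0, ge1_img F _ _ i1,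
    ge1_img F _ _ i2, ge1_img F _ _ i3]
  · exact disjoint_union_left.2 ⟨ge1_disj h02, ge1_disj h12⟩
  · exact disjoint_union_left.2 ⟨disjoint_union_left.2 ⟨ge1_disj h03, ge1_disj h13⟩,
      ge1_disj h23⟩

lemma ge1_x (hl : l ≠ 0) (x y c : ℤ) :
    Function.Injective fun a : ℕ => ((x + l * (a + c), y) : V) := fun a b h => by
  have := mul_left_cancel₀ hl (add_left_cancel (congrArg Prod.fst h))
  omega

lemma ge1_y (hl : l ≠ 0) (x y c : ℤ) :
    Function.Injective fun a : ℕ => ((x, y + l * (a + c)) : V) := fun a b h => by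
  have := mul_left_cancel₀ hl (add_left_cancel (congrArg Prod.snd h))
  omega

lemma sum_FI {M : Type} [AddCommMonoid M] (hl : l ≠ 0) (F : V × Fin 4 → M) :
    ∑ e ∈ FI l o α γ, F e = ∑ a ∈ range α, F ((o.1 + l * a, o.2), 0) +
      ∑ b ∈ range γ, F ((o.1 + l * α, o.2 + l * b), 1) +
      ∑ a ∈ range α, F ((o.1 + l * (a + 1), o.2 + l * γ), 2) +
      ∑ b ∈ range γ, F ((o.1, o.2 + l * (b + 1)), 3) := by
  exact ge1_sum F (fun _ => mem_FI) (by simpa using ge1_x hl o.1 o.2 0)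
    (by simpa using ge1_y hl (o.1 + l * α) o.2 0) (ge1_x hl _ _ 1) (ge1_y hl _ _ 1)
    (by decide) (by decide) (by decide) (by decide) (by decide) (by decide)

lemma sum_FO {M : Type} [AddCommMonoid M] (hl : l ≠ 0) (F : V × Fin 4 → M) :
    ∑ e ∈ FO l o, F e = ∑ a ∈ range 3, F ((o.1 + l * (a + 1), o.2), 2) +
      ∑ b ∈ range 3, F ((o.1 + l * 3, o.2 + l * (b + 1)), 3) +
      ∑ a ∈ range 3, F ((o.1 + l * a, o.2 + l * 3), 0) +
      ∑ b ∈ range 3, F ((o.1, o.2 + l * b), 1) := by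
  exact ge1_sum F (fun _ => mem_FO) (ge1_x hl _ _ 1) (ge1_y hl _ _ 1)
    (by simpa using ge1_x hl o.1 (o.2 + l * 3) 0) (by simpa using ge1_y hl o.1 o.2 0)
    (by decide) (by decide) (by decide) (by decide) (by decide) (by decide)

lemma ge1_card {n0 n1 n2 n3 : ℕ} (f0 f1 f2 f3 : ℕ → V × Fin 4) :
    #((range n0).image f0 ∪ (range n1).image f1 ∪ (range n2).image f2 ∪ (range n3).image f3) ≤
      n0 + n1 + n2 + n3 := by
  have h : ∀ (n : ℕ) (f : ℕ → V × Fin 4), #((range n).image f) ≤ n := fun n f =>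
    card_image_le.trans (card_range n).le
  exact (card_union_le _ _).trans (add_le_add ((card_union_le _ _).trans (add_le_add
    ((card_union_le _ _).trans (add_le_add (h _ _) (h _ _))) (h _ _))) (h _ _))

lemma card_FI (hα : α ≤ 3) (hγ : γ ≤ 3) : #(FI l o α γ) ≤ 12 := by
  exact card_image_le.trans ((ge1_card _ _ _ _).trans (by omega))

lemma card_FO : #(FO l o) ≤ 12 := by
  exact card_image_le.trans (ge1_card _ _ _ _)

end

end Pool.Agent.XYU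

end

section

open Finset Real Relation

namespace Pool.Agent.XYU

open Classical

noncomputable section

variable {p : Par} {l : ℤ} {o : V} {α γ : ℕ}

lemma ge2_fr0 (o v : V) : fr o 0 v = (o.1 + v.1, o.2 + v.2) := rfl

lemma ge2_fr1 (o v : V) : fr o 1 v = (o.1 - v.2, o.2 + v.1) := rfl

lemma ge2_fr2 (o v : V) : fr o 2 v = (o.1 - v.1, o.2 - v.2) := rfl

lemma ge2_fr3 (o v : V) : fr o 3 v = (o.1 + v.2, o.2 - v.1) := rfl

lemma ge2_lt (hl : 0 ≤ l) {a b : ℕ} (h : a < b) : 0 ≤ l * a ∧ l * a + l ≤ l * b := by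
  have h1 : (a : ℤ) + 1 ≤ b := by exact_mod_cast h
  exact ⟨mul_nonneg hl (Nat.cast_nonneg a), by nlinarith⟩

lemma ge2_sep (hl : 0 ≤ l) (a b : ℕ) : a = b ∨ l * a + l ≤ l * b ∨ l * b + l ≤ l * a := by
  rcases lt_trichotomy a b with h | h | h
  · exact Or.inr (Or.inl (ge2_lt hl h).2)
  · exact Or.inl h
  · exact Or.inr (Or.inr (ge2_lt hl h).2)

lemma ge2_div (n : ℕ) {s : ℤ} (h0 : 0 ≤ s) (h1 : s ≤ l * (n + 1 : ℕ)) :
    ∃ a : ℕ, a < n + 1 ∧ l * a ≤ s ∧ s ≤ l * a + l := by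
  induction n with
  | zero => exact ⟨0, by omega, by simpa using h0, by simpa using h1⟩
  | succ n ih =>
    by_cases h : s ≤ l * (n + 1 : ℕ)
    · obtain ⟨a, ha, h2⟩ := ih h
      exact ⟨a, by omega, h2⟩
    · refine ⟨n + 1, by omega, (not_le.1 h).le, ?_⟩
      push_cast at h1 ⊢
      linarith

lemma ge2_div' {n : ℕ} (hn : 1 ≤ n) {s : ℤ} (h0 : 0 ≤ s) (h1 : s ≤ l * n) :
    ∃ a : ℕ, a < n ∧ l * a ≤ s ∧ s ≤ l * a + l := by
  obtain ⟨m, rfl⟩ : ∃ m, n = m + 1 := ⟨n - 1, by omega⟩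
  exact ge2_div m h0 h1

lemma ge2_end {e : V × Fin 4} {x y : V} {t : ℤ} (h0 : 0 ≤ t) (h1 : t ≤ l)
    (hx : x = fr e.1 e.2 (t, 0)) (hy : y = fr e.1 e.2 (t, -1)) :
    (∃ t, 0 < t ∧ t < l ∧ x = fr e.1 e.2 (t, 0) ∧ y = fr e.1 e.2 (t, -1)) ∨
      x = fr e.1 e.2 (0, 0) ∨ x = fr e.1 e.2 (l, 0) := by
  rcases eq_or_lt_of_le h0 with h | h
  · exact Or.inr (Or.inl (h ▸ hx))
  rcases eq_or_lt_of_le h1 with h' | h'
  · exact Or.inr (Or.inr (h' ▸ hx))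
  · exact Or.inl ⟨t, h, h', hx, hy⟩

lemma geo_in (hp : p.Ok) (hα : 1 ≤ α ∧ α ≤ 3) (hγ : 1 ≤ γ ∧ γ ≤ 3) :
    Geo (Qr p.l o α γ) (FI p.l o α γ) p := by
  obtain ⟨g1, g2, g3⟩ := hp
  have hl : 0 ≤ p.l := by omega
  have hA := (ge2_lt hl (show 0 < α by omega)).2
  have hG := (ge2_lt hl (show 0 < γ by omega)).2
  simp only [Nat.cast_zero, mul_zero, zero_add] at hA hG
  refine ⟨?_, ?_, ?_, ?_⟩
  · intro e he v h1 h2 h3 h4
    rcases mem_FI.1 he with ⟨a, ha, rfl⟩ | ⟨a, ha, rfl⟩ | ⟨a, ha, rfl⟩ | ⟨a, ha, rfl⟩ <;>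
      have h5 := ge2_lt hl ha <;>
      simp only [Qr, mem_coe, mem_rect, ge2_fr0, ge2_fr1, ge2_fr2, ge2_fr3, mul_add, mul_one] <;>
      omega
  · intro e he v h1 h2 h3 h4
    rcases mem_FI.1 he with ⟨a, ha, rfl⟩ | ⟨a, ha, rfl⟩ | ⟨a, ha, rfl⟩ | ⟨a, ha, rfl⟩ <;>
      have h5 := ge2_lt hl ha <;>
      simp only [Qr, mem_coe, mem_rect, ge2_fr0, ge2_fr1, ge2_fr2, ge2_fr3, mul_add, mul_one] <;>
      omega
  · intro x hx y hy hxy
    simp only [Qr, mem_coe, mem_rect] at hx hy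
    unfold Adj at hxy
    obtain ⟨a, ha, a1, a2⟩ := ge2_div' (l := p.l) (s := x.1 - o.1) hα.1 (by omega) (by omega)
    obtain ⟨b, hb, b1, b2⟩ := ge2_div' (l := p.l) (s := x.2 - o.2) hγ.1 (by omega) (by omega)
    have hc : (x.2 = o.2 ∧ y.1 = x.1 ∧ y.2 = x.2 - 1) ∨
        (x.1 = o.1 + p.l * α ∧ y.2 = x.2 ∧ y.1 = x.1 + 1) ∨
        (x.2 = o.2 + p.l * γ ∧ y.1 = x.1 ∧ y.2 = x.2 + 1) ∨
        (x.1 = o.1 ∧ y.2 = x.2 ∧ y.1 = x.1 - 1) := by omega
    rcases hc with h | h | h | h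
    · refine ⟨_, mem_FI.2 (Or.inl ⟨a, ha, rfl⟩),
        ge2_end (t := x.1 - o.1 - p.l * a) (by omega) (by omega) ?_ ?_⟩ <;>
        simp only [ge2_fr0, Prod.ext_iff] <;> omega
    · refine ⟨_, mem_FI.2 (Or.inr (Or.inl ⟨b, hb, rfl⟩)),
        ge2_end (t := x.2 - o.2 - p.l * b) (by omega) (by omega) ?_ ?_⟩ <;>
        simp only [ge2_fr1, Prod.ext_iff] <;> omega
    · refine ⟨_, mem_FI.2 (Or.inr (Or.inr (Or.inl ⟨a, ha, rfl⟩))),
        ge2_end (t := p.l * a + p.l - (x.1 - o.1)) (by omega) (by omega) ?_ ?_⟩ <;>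
        simp only [ge2_fr2, Prod.ext_iff, mul_add, mul_one] <;> omega
    · refine ⟨_, mem_FI.2 (Or.inr (Or.inr (Or.inr ⟨b, hb, rfl⟩))),
        ge2_end (t := p.l * b + p.l - (x.2 - o.2)) (by omega) (by omega) ?_ ?_⟩ <;>
        simp only [ge2_fr3, Prod.ext_iff, mul_add, mul_one] <;> omega
  · intro e he e' he' hne v v' h1 h2 h3 h4 h5 h6 hd
    rw [abs_le] at h3 h6
    have hd' : ∀ u w : V, dd u w ≤ 2 * p.W → u.1 - w.1 ≤ 2 * p.W ∧ w.1 - u.1 ≤ 2 * p.W ∧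
        u.2 - w.2 ≤ 2 * p.W ∧ w.2 - u.2 ≤ 2 * p.W := by
      intro u w h
      unfold dd at h
      omega
    have h7 := hd' _ _ hd
    clear hd hd'
    rcases mem_FI.1 he with ⟨a, ha, rfl⟩ | ⟨a, ha, rfl⟩ | ⟨a, ha, rfl⟩ | ⟨a, ha, rfl⟩ <;>
      rcases mem_FI.1 he' with ⟨b, hb, rfl⟩ | ⟨b, hb, rfl⟩ | ⟨b, hb, rfl⟩ | ⟨b, hb, rfl⟩ <;>
      have h8 := ge2_lt hl ha <;> have h9 := ge2_lt hl hb <;>
      simp only [ge2_fr0, ge2_fr1, ge2_fr2, ge2_fr3, mul_add, mul_one] at h7 <;>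
      first
        | omega
        | (rcases ge2_sep hl a b with rfl | h10
           · exact absurd rfl hne
           · omega)

end

end Pool.Agent.XYU

end

section

open Finset Real Relation

namespace Pool.Agent.XYU

open Classical

noncomputable section

variable {p : Par} {l : ℤ} {o : V} {α γ : ℕ}

lemma ge3_fr0 (o v : V) : fr o 0 v = (o.1 + v.1, o.2 + v.2) := rfl
lemma ge3_fr1 (o v : V) : fr o 1 v = (o.1 - v.2, o.2 + v.1) := rfl
lemma ge3_fr2 (o v : V) : fr o 2 v = (o.1 - v.1, o.2 - v.2) := rfl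
lemma ge3_fr3 (o v : V) : fr o 3 v = (o.1 + v.2, o.2 - v.1) := rfl

/-- explicit list of the twelve edges -/
lemma ge3_mem {e : V × Fin 4} : e ∈ FO l o ↔
    (∃ c : ℤ, (c = l ∨ c = 2 * l ∨ c = 3 * l) ∧ e = ((o.1 + c, o.2), 2)) ∨
    (∃ c : ℤ, (c = l ∨ c = 2 * l ∨ c = 3 * l) ∧ e = ((o.1 + 3 * l, o.2 + c), 3)) ∨
    (∃ c : ℤ, (c = 0 ∨ c = l ∨ c = 2 * l) ∧ e = ((o.1 + c, o.2 + 3 * l), 0)) ∨
    ∃ c : ℤ, (c = 0 ∨ c = l ∨ c = 2 * l) ∧ e = ((o.1, o.2 + c), 1) := by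
  rw [mem_FO]
  have h1 : ∀ c : ℤ, (c = l ∨ c = 2 * l ∨ c = 3 * l) ↔ ∃ a : ℕ, a < 3 ∧ c = l * (a + 1) := by
    intro c
    constructor
    · rintro (h | h | h)
      · exact ⟨0, by norm_num, by rw [h]; push_cast; ring⟩
      · exact ⟨1, by norm_num, by rw [h]; push_cast; ring⟩
      · exact ⟨2, by norm_num, by rw [h]; push_cast; ring⟩
    · rintro ⟨a, ha, h⟩
      interval_cases a
      · left; rw [h]; push_cast; ring
      · right; left; rw [h]; push_cast; ring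
      · right; right; rw [h]; push_cast; ring
  have h2 : ∀ c : ℤ, (c = 0 ∨ c = l ∨ c = 2 * l) ↔ ∃ a : ℕ, a < 3 ∧ c = l * a := by
    intro c
    constructor
    · rintro (h | h | h)
      · exact ⟨0, by norm_num, by rw [h]; push_cast; ring⟩
      · exact ⟨1, by norm_num, by rw [h]; push_cast; ring⟩
      · exact ⟨2, by norm_num, by rw [h]; push_cast; ring⟩
    · rintro ⟨a, ha, h⟩
      interval_cases a
      · left; rw [h]; push_cast; ring
      · right; left; rw [h]; push_cast; ring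
      · right; right; rw [h]; push_cast; ring
  simp only [h1, h2]
  simp only [mul_comm 3 l]
  constructor
  · rintro (⟨a, ha, h⟩ | ⟨a, ha, h⟩ | ⟨a, ha, h⟩ | ⟨a, ha, h⟩)
    · exact Or.inl ⟨_, ⟨a, ha, rfl⟩, h⟩
    · exact Or.inr (Or.inl ⟨_, ⟨a, ha, rfl⟩, h⟩)
    · exact Or.inr (Or.inr (Or.inl ⟨_, ⟨a, ha, rfl⟩, h⟩))
    · exact Or.inr (Or.inr (Or.inr ⟨_, ⟨a, ha, rfl⟩, h⟩))
  · rintro (⟨c, ⟨a, ha, rfl⟩, h⟩ | ⟨c, ⟨a, ha, rfl⟩, h⟩ | ⟨c, ⟨a, ha, rfl⟩, h⟩ |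
      ⟨c, ⟨a, ha, rfl⟩, h⟩)
    · exact Or.inl ⟨a, ha, h⟩
    · exact Or.inr (Or.inl ⟨a, ha, h⟩)
    · exact Or.inr (Or.inr (Or.inl ⟨a, ha, h⟩))
    · exact Or.inr (Or.inr (Or.inr ⟨a, ha, h⟩))

lemma ge3_out {x : V} : x ∈ {v | v ∉ Qo l o} ↔
    x.1 ≤ o.1 ∨ o.1 + 3 * l ≤ x.1 ∨ x.2 ≤ o.2 ∨ o.2 + 3 * l ≤ x.2 := by
  simp only [Set.mem_ofPred_eq, Qo, mem_rect]
  omega

lemma ge3_side (hp : p.Ok) : ∀ e ∈ FO p.l o, ∀ v : V, 0 < v.1 → v.1 < p.l → -(4 * p.W) ≤ v.2 →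
    v.2 ≤ 4 * p.W → (fr e.1 e.2 v ∈ {v | v ∉ Qo p.l o} ↔ 0 ≤ v.2) := by
  intro e he v h1 h2 h3 h4
  have := hp.g1; have := hp.gW; have := hp.Wl
  rw [ge3_out]
  rcases ge3_mem.1 he with ⟨c, hc, rfl⟩ | ⟨c, hc, rfl⟩ | ⟨c, hc, rfl⟩ | ⟨c, hc, rfl⟩
  · simp only [ge3_fr2]; omega
  · simp only [ge3_fr3]; omega
  · simp only [ge3_fr0]; omega
  · simp only [ge3_fr1]; omega

lemma ge3_line : ∀ e ∈ FO p.l o, ∀ v : V, 0 ≤ v.1 → v.1 ≤ p.l → 0 ≤ v.2 →
    v.2 ≤ 4 * p.W → fr e.1 e.2 v ∈ {v | v ∉ Qo p.l o} := by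
  intro e he v h1 h2 h3 h4
  rw [ge3_out]
  rcases ge3_mem.1 he with ⟨c, hc, rfl⟩ | ⟨c, hc, rfl⟩ | ⟨c, hc, rfl⟩ | ⟨c, hc, rfl⟩
  · simp only [ge3_fr2]; omega
  · simp only [ge3_fr3]; omega
  · simp only [ge3_fr0]; omega
  · simp only [ge3_fr1]; omega

lemma ge3_far (hp : p.Ok) : ∀ e ∈ FO p.l o, ∀ e' ∈ FO p.l o, e ≠ e' → ∀ v v' : V, 0 ≤ v.1 →
    v.1 ≤ p.l → |v.2| ≤ p.W → 0 ≤ v'.1 → v'.1 ≤ p.l → |v'.2| ≤ p.W →
    dd (fr e.1 e.2 v) (fr e'.1 e'.2 v') ≤ 2 * p.W → v.1 ≤ 3 * p.W ∨ p.l - 3 * p.W ≤ v.1 := by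
  intro e he e' he' hne v v' h1 h2 h3 h4 h5 h6 hd
  have := hp.g1; have := hp.gW; have := hp.Wl
  rw [abs_le] at h3 h6
  obtain ⟨h3, h3'⟩ := h3
  obtain ⟨h6, h6'⟩ := h6
  unfold dd at hd
  simp only [max_le_iff] at hd
  obtain ⟨⟨d1, d2⟩, d3, d4⟩ := hd
  rcases ge3_mem.1 he with ⟨c, hc, rfl⟩ | ⟨c, hc, rfl⟩ | ⟨c, hc, rfl⟩ | ⟨c, hc, rfl⟩ <;>
    rcases ge3_mem.1 he' with ⟨c', hc', rfl⟩ | ⟨c', hc', rfl⟩ | ⟨c', hc', rfl⟩ | ⟨c', hc', rfl⟩ <;>
    simp only [ge3_fr0, ge3_fr1, ge3_fr2, ge3_fr3] at d1 d2 d3 d4 <;>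
    first
      | omega
      | (have hcc : c ≠ c' := fun h => hne (by rw [h])
         omega)

/-- the position `s ∈ (0, 3 l)` lies on one of three consecutive edges -/
lemma ge3_pos (_hl : 0 < l) {s : ℤ} (h0 : 0 < s) (h3 : s < 3 * l) :
    ∃ c : ℤ, (c = 0 ∨ c = l ∨ c = 2 * l) ∧ c ≤ s ∧ s < c + l := by
  by_cases h1 : s < l
  · exact ⟨0, Or.inl rfl, by omega, by omega⟩
  by_cases h2 : s < 2 * l
  · exact ⟨l, Or.inr (Or.inl rfl), by omega, by omega⟩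
  · exact ⟨2 * l, Or.inr (Or.inr rfl), by omega, by omega⟩

lemma ge3_bdy (hp : p.Ok) : ∀ x ∈ {v | v ∉ Qo p.l o}, ∀ y ∉ {v | v ∉ Qo p.l o}, Adj x y →
    ∃ e ∈ FO p.l o, (∃ t, 0 < t ∧ t < p.l ∧ x = fr e.1 e.2 (t, 0) ∧ y = fr e.1 e.2 (t, -1)) ∨
      x = fr e.1 e.2 (0, 0) ∨ x = fr e.1 e.2 (p.l, 0) := by
  intro x hx y hy hxy
  have := hp.g1; have := hp.gW; have := hp.Wl
  have hl : 0 < p.l := by omega
  rw [ge3_out] at hx hy
  obtain ⟨x1, x2⟩ := x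
  obtain ⟨y1, y2⟩ := y
  have ha : (x1 + 1 = y1 ∧ x2 = y2) ∨ (x1 = y1 + 1 ∧ x2 = y2) ∨ (x1 = y1 ∧ x2 + 1 = y2) ∨
      (x1 = y1 ∧ x2 = y2 + 1) := by
    unfold Adj at hxy; simp only at hxy; omega
  simp only at hx hy
  rcases ha with ha | ha | ha | ha
  · -- left side, direction 1
    obtain ⟨c, hc, k1, k2⟩ := ge3_pos (s := x2 - o.2) hl (by omega) (by omega)
    refine ⟨((o.1, o.2 + c), 1), ge3_mem.2 (Or.inr (Or.inr (Or.inr ⟨c, hc, rfl⟩))), ?_⟩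
    simp only [ge3_fr1, Prod.mk.injEq]
    by_cases h : x2 - o.2 = c
    · right; left; omega
    · left; exact ⟨x2 - o.2 - c, by omega, by omega, by omega, by omega⟩
  · -- right side, direction 3
    obtain ⟨c, hc, k1, k2⟩ := ge3_pos (s := x2 - o.2) hl (by omega) (by omega)
    refine ⟨((o.1 + 3 * p.l, o.2 + (c + p.l)), 3),
      ge3_mem.2 (Or.inr (Or.inl ⟨c + p.l, by omega, rfl⟩)), ?_⟩
    simp only [ge3_fr3, Prod.mk.injEq]
    by_cases h : x2 - o.2 = c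
    · right; right; omega
    · left; exact ⟨c + p.l - (x2 - o.2), by omega, by omega, by omega, by omega⟩
  · -- bottom side, direction 2
    obtain ⟨c, hc, k1, k2⟩ := ge3_pos (s := x1 - o.1) hl (by omega) (by omega)
    refine ⟨((o.1 + (c + p.l), o.2), 2), ge3_mem.2 (Or.inl ⟨c + p.l, by omega, rfl⟩), ?_⟩
    simp only [ge3_fr2, Prod.mk.injEq]
    by_cases h : x1 - o.1 = c
    · right; right; omega
    · left; exact ⟨c + p.l - (x1 - o.1), by omega, by omega, by omega, by omega⟩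
  · -- top side, direction 0
    obtain ⟨c, hc, k1, k2⟩ := ge3_pos (s := x1 - o.1) hl (by omega) (by omega)
    refine ⟨((o.1 + c, o.2 + 3 * p.l), 0),
      ge3_mem.2 (Or.inr (Or.inr (Or.inl ⟨c, hc, rfl⟩))), ?_⟩
    simp only [ge3_fr0, Prod.mk.injEq]
    by_cases h : x1 - o.1 = c
    · right; left; omega
    · left; exact ⟨x1 - o.1 - c, by omega, by omega, by omega, by omega⟩

lemma geo_out (hp : p.Ok) : Geo {v | v ∉ Qo p.l o} (FO p.l o) p :=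
  ⟨ge3_side hp, ge3_line, ge3_bdy hp, ge3_far hp⟩

end

end Pool.Agent.XYU

end

section

open Finset Real Relation

namespace Pool.Agent.XYU

open Classical

noncomputable section

variable {p : Par} {l : ℤ} {o : V} {α γ : ℕ}

lemma ge4_mul {l : ℤ} (hl : 0 ≤ l) {a b : ℕ} (h : a < b) : l * a + l ≤ l * b := by
  have h1 : ((a : ℤ) + 1) ≤ b := by exact_mod_cast h
  have := mul_le_mul_of_nonneg_left h1 hl
  linarith

lemma ge4_nn {l : ℤ} (hl : 0 ≤ l) (a : ℕ) : 0 ≤ l * a := mul_nonneg hl (Int.natCast_nonneg a)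

lemma ge4_lo {k : ℕ} {Af : ℕ → ℤ → ℝ} {n u : ℕ → ℤ} (h : ∀ a < k, Ang p (Af a) (n a))
    (hu : ∀ a < k, u a ≤ 4 * p.W) : ∑ a ∈ range k, (Af a (u a) - π / 4) = 0 :=
  sum_eq_zero fun a ha => by
    rw [(h a (mem_range.1 ha)).lo _ (hu a (mem_range.1 ha)), sub_self]

lemma ge4_hi {k : ℕ} {Af : ℕ → ℤ → ℝ} {n u : ℕ → ℤ} (h : ∀ a < k, Ang p (Af a) (n a))
    (hu : ∀ a < k, p.l - 4 * p.W ≤ u a) :
    ∑ a ∈ range k, (Af a (u a) - π / 4) = 2 * π * ((∑ a ∈ range k, n a : ℤ) : ℝ) := by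
  push_cast
  rw [mul_sum]
  exact sum_congr rfl fun a ha => by
    rw [(h a (mem_range.1 ha)).hi _ (hu a (mem_range.1 ha))]; ring

lemma ge4_lip (hp : p.Ok) {k : ℕ} (hk : k ≤ 3) {Af : ℕ → ℤ → ℝ} {n u u' : ℕ → ℤ}
    (h : ∀ a < k, Ang p (Af a) (n a)) (hu : ∀ a < k, u' a = u a + 1 ∨ u a = u' a + 1) :
    |∑ a ∈ range k, (Af a (u' a) - π / 4) - ∑ a ∈ range k, (Af a (u a) - π / 4)| ≤ 6 / p.g := by
  have hg : (0 : ℝ) < p.g := by exact_mod_cast lt_of_lt_of_le one_pos hp.g1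
  rw [← sum_sub_distrib]
  refine (abs_sum_le_sum_abs _ _).trans ?_
  refine (sum_le_card_nsmul _ _ (2 / (p.g : ℝ)) fun a ha => ?_).trans ?_
  · have ha' := mem_range.1 ha
    rw [sub_sub_sub_cancel_right]
    rcases hu a ha' with e | e
    · rw [e]; exact (h a ha').lip _
    · rw [e, abs_sub_comm]; exact (h a ha').lip _
  · rw [card_range, nsmul_eq_mul]
    have hk' : (k : ℝ) ≤ 3 := by exact_mod_cast hk
    have h2 : (0 : ℝ) ≤ 2 / p.g := by positivity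
    calc (k : ℝ) * (2 / p.g) ≤ 3 * (2 / p.g) := mul_le_mul_of_nonneg_right hk' h2
      _ = 6 / p.g := by ring

lemma ge4_one {k a0 : ℕ} (h0 : a0 < k) {Af : ℕ → ℤ → ℝ} {n u : ℕ → ℤ}
    (h : ∀ a < k, Ang p (Af a) (n a))
    (hu : ∀ a < k, a ≠ a0 → u a ≤ 4 * p.W ∨ p.l - 4 * p.W ≤ u a) :
    ∃ m : ℤ, ∑ a ∈ range k, (Af a (u a) - π / 4) = Af a0 (u a0) - π / 4 + 2 * π * m := by
  refine ⟨∑ a ∈ (range k).erase a0, if u a ≤ 4 * p.W then 0 else n a, ?_⟩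
  rw [← add_sum_erase _ _ (mem_range.2 h0)]
  congr 1
  push_cast
  rw [mul_sum]
  refine sum_congr rfl fun a ha => ?_
  have ha' := mem_range.1 (mem_of_mem_erase ha)
  split_ifs with hc
  · rw [(h a ha').lo _ hc]; simp
  · rw [(h a ha').hi _ ((hu a ha' (ne_of_mem_erase ha)).resolve_left hc)]; ring

lemma ge4_chi (ε : ZMod 2) : chi ε = (sz ε : ℝ) := by
  unfold chi sz; split_ifs <;> simp

lemma ge4_abs (ε : ZMod 2) : |chi ε| = 1 := by
  unfold chi; split_ifs <;> simp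

lemma ra_in (hp : p.Ok) (hα : 1 ≤ α ∧ α ≤ 3) (hγ : 1 ≤ γ ∧ γ ≤ 3) (ε : ZMod 2)
    (A : V × Fin 4 → ℤ → ℝ) (nn : V × Fin 4 → ℤ) (hA : ∀ e ∈ FI p.l o α γ, Ang p (A e) (nn e)) :
    ∃ θ, RA (rc p.l o α γ) p.W (6 / p.g) (sz ε * ∑ e ∈ FI p.l o α γ, nn e) θ ∧
      ∀ Θ, Fit (rc p.l o α γ) p.W θ Θ → ∀ e ∈ FI p.l o α γ, ∀ t y, 0 ≤ t → t ≤ p.l → -p.W ≤ y →
        y ≤ 0 → ∃ m : ℤ, Θ (fr e.1 e.2 (t, y)) = chi ε * A e t + 2 * π * m := by
  have hg := hp.g1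
  have hW := hp.gW
  have hl := hp.Wl
  have hl0 : 0 ≤ p.l := by omega
  have h0 : ∀ a < α, Ang p (A ((o.1 + p.l * (a : ℕ), o.2), 0)) (nn ((o.1 + p.l * (a : ℕ), o.2), 0)) :=
    fun a ha => hA _ (mem_FI.2 (Or.inl ⟨a, ha, rfl⟩))
  have h1 : ∀ b < γ, Ang p (A ((o.1 + p.l * α, o.2 + p.l * (b : ℕ)), 1))
      (nn ((o.1 + p.l * α, o.2 + p.l * (b : ℕ)), 1)) :=
    fun b hb => hA _ (mem_FI.2 (Or.inr (Or.inl ⟨b, hb, rfl⟩)))
  have h2 : ∀ a < α, Ang p (A ((o.1 + p.l * ((a : ℕ) + 1), o.2 + p.l * γ), 2))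
      (nn ((o.1 + p.l * ((a : ℕ) + 1), o.2 + p.l * γ), 2)) :=
    fun a ha => hA _ (mem_FI.2 (Or.inr (Or.inr (Or.inl ⟨a, ha, rfl⟩))))
  have h3 : ∀ b < γ, Ang p (A ((o.1, o.2 + p.l * ((b : ℕ) + 1)), 3))
      (nn ((o.1, o.2 + p.l * ((b : ℕ) + 1)), 3)) :=
    fun b hb => hA _ (mem_FI.2 (Or.inr (Or.inr (Or.inr ⟨b, hb, rfl⟩))))
  rw [sum_FI (by omega)]
  set N0 := ∑ a ∈ range α, nn ((o.1 + p.l * a, o.2), 0) with hN0
  set N1 := ∑ b ∈ range γ, nn ((o.1 + p.l * α, o.2 + p.l * b), 1) with hN1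
  set N2 := ∑ a ∈ range α, nn ((o.1 + p.l * (a + 1), o.2 + p.l * γ), 2) with hN2
  set N3 := ∑ b ∈ range γ, nn ((o.1, o.2 + p.l * (b + 1)), 3) with hN3
  let S0 : ℤ → ℝ := fun x => ∑ a ∈ range α,
    (A ((o.1 + p.l * (a : ℕ), o.2), 0) (x - o.1 - p.l * a) - π / 4)
  let S1 : ℤ → ℝ := fun y => ∑ b ∈ range γ,
    (A ((o.1 + p.l * α, o.2 + p.l * (b : ℕ)), 1) (y - o.2 - p.l * b) - π / 4)
  let S2 : ℤ → ℝ := fun x => ∑ a ∈ range α,
    (A ((o.1 + p.l * ((a : ℕ) + 1), o.2 + p.l * γ), 2) (o.1 + p.l * a + p.l - x) - π / 4)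
  let S3 : ℤ → ℝ := fun y => ∑ b ∈ range γ,
    (A ((o.1, o.2 + p.l * ((b : ℕ) + 1)), 3) (o.2 + p.l * b + p.l - y) - π / 4)
  have l0 : ∀ z ≤ o.1 + 4 * p.W, S0 z = 0 := fun z hz =>
    ge4_lo h0 fun a _ => by have := ge4_nn hl0 a; omega
  have u0 : ∀ z, o.1 + p.l * α - 4 * p.W ≤ z → S0 z = 2 * π * N0 := fun z hz =>
    ge4_hi h0 fun a ha => by have := ge4_mul hl0 ha; omega
  have l1 : ∀ z ≤ o.2 + 4 * p.W, S1 z = 0 := fun z hz =>
    ge4_lo h1 fun a _ => by have := ge4_nn hl0 a; omega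
  have u1 : ∀ z, o.2 + p.l * γ - 4 * p.W ≤ z → S1 z = 2 * π * N1 := fun z hz =>
    ge4_hi h1 fun a ha => by have := ge4_mul hl0 ha; omega
  have l2 : ∀ z, o.1 + p.l * α - 4 * p.W ≤ z → S2 z = 0 := fun z hz =>
    ge4_lo h2 fun a ha => by have := ge4_mul hl0 ha; omega
  have u2 : ∀ z ≤ o.1 + 4 * p.W, S2 z = 2 * π * N2 := fun z hz =>
    ge4_hi h2 fun a _ => by have := ge4_nn hl0 a; omega
  have l3 : ∀ z, o.2 + p.l * γ - 4 * p.W ≤ z → S3 z = 0 := fun z hz =>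
    ge4_lo h3 fun a ha => by have := ge4_mul hl0 ha; omega
  have u3 : ∀ z ≤ o.2 + 4 * p.W, S3 z = 2 * π * N3 := fun z hz =>
    ge4_hi h3 fun a _ => by have := ge4_nn hl0 a; omega
  have key : ∀ (K s s' : ℝ), |s' - s| ≤ 6 / p.g → |chi ε * (K + s') - chi ε * (K + s)| ≤ 6 / p.g :=
    fun K s s' h => by
      rw [← mul_sub, abs_mul, ge4_abs, one_mul, add_sub_add_left_eq_sub]; exact h
  refine ⟨![fun x => chi ε * (π / 4 + S0 x), fun y => chi ε * (π / 4 + 2 * π * N0 + S1 y),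
    fun x => chi ε * (π / 4 + 2 * π * N0 + 2 * π * N1 + S2 x),
    fun y => chi ε * (π / 4 + 2 * π * N0 + 2 * π * N1 + 2 * π * N2 + S3 y)], ⟨?_, ?_, ?_, ?_, ?_,
      ?_, ?_, ?_⟩, ?_⟩
  · have := ge4_mul hl0 (show 0 < α from hα.1)
    simp only [rc]; push_cast at this; omega
  · have := ge4_mul hl0 (show 0 < γ from hγ.1)
    simp only [rc]; push_cast at this; omega
  · intro d z
    fin_cases d
    · exact key _ _ _ (ge4_lip hp hα.2 h0 fun a _ => Or.inl (by ring))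
    · exact key _ _ _ (ge4_lip hp hγ.2 h1 fun a _ => Or.inl (by ring))
    · exact key _ _ _ (ge4_lip hp hα.2 h2 fun a _ => Or.inr (by ring))
    · exact key _ _ _ (ge4_lip hp hγ.2 h3 fun a _ => Or.inr (by ring))
  · intro z z' hz hz'
    show chi ε * (π / 4 + 2 * π * N0 + 2 * π * N1 + 2 * π * N2 + S3 z) =
      chi ε * (π / 4 + S0 z') + _
    rw [u3 z hz, l0 z' hz', ge4_chi]; push_cast; ring
  · intro z z' hz hz'
    show chi ε * (π / 4 + S0 z) = chi ε * (π / 4 + 2 * π * N0 + S1 z')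
    rw [u0 z hz, l1 z' hz', add_zero]
  · intro z z' hz hz'
    show chi ε * (π / 4 + 2 * π * N0 + S1 z) = chi ε * (π / 4 + 2 * π * N0 + 2 * π * N1 + S2 z')
    rw [u1 z hz, l2 z' hz', add_zero]
  · intro z z' hz hz'
    show chi ε * (π / 4 + 2 * π * N0 + 2 * π * N1 + S2 z) =
      chi ε * (π / 4 + 2 * π * N0 + 2 * π * N1 + 2 * π * N2 + S3 z')
    rw [u2 z hz, l3 z' hz', add_zero]
  · show |chi ε * (π / 4 + S0 o.1)| ≤ π
    rw [l0 _ (by omega), abs_mul, ge4_abs, one_mul, add_zero, abs_of_pos (by positivity)]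
    linarith [pi_pos]
  · intro Θ hΘ e he t y ht0 ht1 hy0 hy1
    rcases mem_FI.1 he with ⟨a, ha, rfl⟩ | ⟨a, ha, rfl⟩ | ⟨a, ha, rfl⟩ | ⟨a, ha, rfl⟩
    · have e1 := ge4_mul hl0 ha
      have e2 := ge4_nn hl0 a
      obtain ⟨m, hm⟩ := hΘ 0 (o.1 + p.l * a + t, o.2 + y) (by
        simp only [Strip, rc, if_true]
        exact ⟨by omega, by omega, abs_le.2 ⟨by omega, by omega⟩⟩)
      obtain ⟨m', hm'⟩ := ge4_one (u := fun b => o.1 + p.l * a + t - o.1 - p.l * b) ha h0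
        fun b _ hb => by
          rcases lt_or_gt_of_ne hb with h | h <;> have := ge4_mul hl0 h <;> omega
      refine ⟨sz ε * m' + m, ?_⟩
      have e3 : o.1 + p.l * a + t - o.1 - p.l * a = t := by ring
      rw [e3] at hm'
      have hs : S0 (o.1 + p.l * a + t) = _ := hm'
      have hm2 : Θ (o.1 + p.l * a + t, o.2 + y) =
        chi ε * (π / 4 + S0 (o.1 + p.l * a + t)) + 2 * π * m := hm
      show Θ (o.1 + p.l * a + t, o.2 + y) = _
      rw [hm2, hs, ge4_chi]; push_cast; ring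
    · have e1 := ge4_mul hl0 ha
      have e2 := ge4_nn hl0 a
      obtain ⟨m, hm⟩ := hΘ 1 (o.1 + p.l * α - y, o.2 + p.l * a + t) (by
        show o.2 ≤ _ ∧ _ ≤ o.2 + p.l * γ ∧ |_ - (o.1 + p.l * α)| ≤ _
        exact ⟨by simp only; omega, by simp only; omega,
          abs_le.2 ⟨by simp only; omega, by simp only; omega⟩⟩)
      obtain ⟨m', hm'⟩ := ge4_one (u := fun b => o.2 + p.l * a + t - o.2 - p.l * b) ha h1
        fun b _ hb => by
          rcases lt_or_gt_of_ne hb with h | h <;> have := ge4_mul hl0 h <;> omega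
      refine ⟨sz ε * (N0 + m') + m, ?_⟩
      have e3 : o.2 + p.l * a + t - o.2 - p.l * a = t := by ring
      rw [e3] at hm'
      have hs : S1 (o.2 + p.l * a + t) = _ := hm'
      have hm2 : Θ (o.1 + p.l * α - y, o.2 + p.l * a + t) =
        chi ε * (π / 4 + 2 * π * N0 + S1 (o.2 + p.l * a + t)) + 2 * π * m := hm
      show Θ (o.1 + p.l * α - y, o.2 + p.l * a + t) = _
      rw [hm2, hs, ge4_chi]; push_cast; ring
    · have e1 := ge4_mul hl0 ha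
      have e2 := ge4_nn hl0 a
      have e0 : p.l * ((a : ℤ) + 1) = p.l * a + p.l := by ring
      obtain ⟨m, hm⟩ := hΘ 2 (o.1 + p.l * (a + 1) - t, o.2 + p.l * γ - y) (by
        show o.1 ≤ _ ∧ _ ≤ o.1 + p.l * α ∧ |_ - (o.2 + p.l * γ)| ≤ _
        exact ⟨by simp only; omega, by simp only; omega,
          abs_le.2 ⟨by simp only; omega, by simp only; omega⟩⟩)
      obtain ⟨m', hm'⟩ := ge4_one
        (u := fun b => o.1 + p.l * b + p.l - (o.1 + p.l * (a + 1) - t)) ha h2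
        fun b _ hb => by
          rcases lt_or_gt_of_ne hb with h | h <;> have := ge4_mul hl0 h <;> omega
      refine ⟨sz ε * (N0 + N1 + m') + m, ?_⟩
      have e3 : o.1 + p.l * a + p.l - (o.1 + p.l * (a + 1) - t) = t := by ring
      rw [e3] at hm'
      have hs : S2 (o.1 + p.l * (a + 1) - t) = _ := hm'
      have hm2 : Θ (o.1 + p.l * (a + 1) - t, o.2 + p.l * γ - y) =
        chi ε * (π / 4 + 2 * π * N0 + 2 * π * N1 + S2 (o.1 + p.l * (a + 1) - t)) + 2 * π * m := hm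
      show Θ (o.1 + p.l * (a + 1) - t, o.2 + p.l * γ - y) = _
      rw [hm2, hs, ge4_chi]; push_cast; ring
    · have e1 := ge4_mul hl0 ha
      have e2 := ge4_nn hl0 a
      have e0 : p.l * ((a : ℤ) + 1) = p.l * a + p.l := by ring
      obtain ⟨m, hm⟩ := hΘ 3 (o.1 + y, o.2 + p.l * (a + 1) - t) (by
        show o.2 ≤ _ ∧ _ ≤ o.2 + p.l * γ ∧ |_ - o.1| ≤ _
        exact ⟨by simp only; omega, by simp only; omega,
          abs_le.2 ⟨by simp only; omega, by simp only; omega⟩⟩)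
      obtain ⟨m', hm'⟩ := ge4_one
        (u := fun b => o.2 + p.l * b + p.l - (o.2 + p.l * (a + 1) - t)) ha h3
        fun b _ hb => by
          rcases lt_or_gt_of_ne hb with h | h <;> have := ge4_mul hl0 h <;> omega
      refine ⟨sz ε * (N0 + N1 + N2 + m') + m, ?_⟩
      have e3 : o.2 + p.l * a + p.l - (o.2 + p.l * (a + 1) - t) = t := by ring
      rw [e3] at hm'
      have hs : S3 (o.2 + p.l * (a + 1) - t) = _ := hm'
      have hm2 : Θ (o.1 + y, o.2 + p.l * (a + 1) - t) =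
        chi ε * (π / 4 + 2 * π * N0 + 2 * π * N1 + 2 * π * N2 + S3 (o.2 + p.l * (a + 1) - t)) +
          2 * π * m := hm
      show Θ (o.1 + y, o.2 + p.l * (a + 1) - t) = _
      rw [hm2, hs, ge4_chi]; push_cast; ring

end

end Pool.Agent.XYU

end

section

open Finset Real Relation

namespace Pool.Agent.XYU

open Classical

noncomputable section

variable {p : Par} {l : ℤ} {o : V} {α γ : ℕ}

lemma ge_side (hp : p.Ok) {A0 A1 A2 : ℤ → ℝ} {n0 n1 n2 : ℤ} (h0 : Ang p A0 n0)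
    (h1 : Ang p A1 n1) (h2 : Ang p A2 n2) :
    ∃ S : ℤ → ℝ, (∀ u, |S (u + 1) - S u| ≤ 6 / p.g) ∧
      (∀ u, u ≤ 4 * p.W → S u = -(2 * π * (n0 + n1 + n2))) ∧
      (∀ u, 3 * p.l - 4 * p.W ≤ u → S u = 0) ∧
      (∀ t, 0 ≤ t → t ≤ p.l → ∃ m : ℤ, π / 4 + S t = A0 t + 2 * π * m) ∧
      (∀ t, 0 ≤ t → t ≤ p.l → ∃ m : ℤ, π / 4 + S (p.l + t) = A1 t + 2 * π * m) ∧
      (∀ t, 0 ≤ t → t ≤ p.l → ∃ m : ℤ, π / 4 + S (2 * p.l + t) = A2 t + 2 * π * m) := by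
  have g1 := hp.g1
  have gW := hp.gW
  have Wl := hp.Wl
  refine ⟨fun u => A0 u + A1 (u - p.l) + A2 (u - 2 * p.l) - 3 * (π / 4) - 2 * π * (n0 + n1 + n2),
    ?_, ?_, ?_, ?_, ?_, ?_⟩
  · intro u
    have a0 := abs_le.mp (h0.lip u)
    have a1 := abs_le.mp (h1.lip (u - p.l))
    have a2 := abs_le.mp (h2.lip (u - 2 * p.l))
    have e1 : u + 1 - p.l = u - p.l + 1 := by ring
    have e2 : u + 1 - 2 * p.l = u - 2 * p.l + 1 := by ring
    have e3 : (6 : ℝ) / p.g = 2 / p.g + 2 / p.g + 2 / p.g := by ring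
    simp only [e1, e2]
    rw [e3, abs_le]
    constructor <;> linarith [a0.1, a0.2, a1.1, a1.2, a2.1, a2.2]
  · intro u hu
    simp only
    rw [h0.lo u hu, h1.lo (u - p.l) (by omega), h2.lo (u - 2 * p.l) (by omega)]
    ring
  · intro u hu
    simp only
    rw [h0.hi u (by omega), h1.hi (u - p.l) (by omega), h2.hi (u - 2 * p.l) (by omega)]
    ring
  · intro t ht0 ht1
    refine ⟨-(n0 + n1 + n2), ?_⟩
    simp only
    rw [h1.lo (t - p.l) (by omega), h2.lo (t - 2 * p.l) (by omega)]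
    push_cast
    ring
  · intro t ht0 ht1
    refine ⟨-(n1 + n2), ?_⟩
    simp only
    have e1 : p.l + t - p.l = t := by ring
    rw [e1, h0.hi (p.l + t) (by omega), h2.lo (p.l + t - 2 * p.l) (by omega)]
    push_cast
    ring
  · intro t ht0 ht1
    refine ⟨-n2, ?_⟩
    simp only
    have e1 : 2 * p.l + t - 2 * p.l = t := by ring
    rw [e1, h0.hi (2 * p.l + t) (by omega), h1.hi (2 * p.l + t - p.l) (by omega)]
    push_cast
    ring

lemma ge_fin {Θv c s a : ℝ} {k : ℤ} (h1 : ∃ m : ℤ, Θv = π / 4 - 2 * π * k + s + 2 * π * m)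
    (h2 : ∃ m : ℤ, π / 4 + s = a + 2 * π * m) (hc : c = a) : ∃ m : ℤ, Θv = c + 2 * π * m := by
  obtain ⟨m, hm⟩ := h1
  obtain ⟨m', hm'⟩ := h2
  refine ⟨m + m' - k, ?_⟩
  push_cast
  rw [hm, hc]
  linarith

lemma ra_out (hp : p.Ok) (A : V × Fin 4 → ℤ → ℝ) (nn : V × Fin 4 → ℤ)
    (hA : ∀ e ∈ FO p.l o, Ang p (A e) (nn e)) :
    ∃ θ, RA (rc p.l o 3 3) p.W (6 / p.g) (-∑ e ∈ FO p.l o, nn e) θ ∧
      ∀ Θ, Fit (rc p.l o 3 3) p.W θ Θ → ∀ e ∈ FO p.l o, ∀ t y, 0 ≤ t → t ≤ p.l → -p.W ≤ y →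
        y ≤ 0 → ∃ m : ℤ, Θ (fr e.1 e.2 (t, y)) = A e t + 2 * π * m := by
  have g1 := hp.g1
  have gW := hp.gW
  have Wl := hp.Wl
  have hl : p.l ≠ 0 := by omega
  have mb : ∀ a : ℕ, a < 3 → Ang p (A ((o.1 + p.l * (a + 1), o.2), 2))
      (nn ((o.1 + p.l * (a + 1), o.2), 2)) := fun a ha =>
    hA _ (mem_FO.mpr (Or.inl ⟨a, ha, rfl⟩))
  have mr : ∀ a : ℕ, a < 3 → Ang p (A ((o.1 + p.l * 3, o.2 + p.l * (a + 1)), 3))
      (nn ((o.1 + p.l * 3, o.2 + p.l * (a + 1)), 3)) := fun a ha =>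
    hA _ (mem_FO.mpr (Or.inr (Or.inl ⟨a, ha, rfl⟩)))
  have mt : ∀ a : ℕ, a < 3 → Ang p (A ((o.1 + p.l * a, o.2 + p.l * 3), 0))
      (nn ((o.1 + p.l * a, o.2 + p.l * 3), 0)) := fun a ha =>
    hA _ (mem_FO.mpr (Or.inr (Or.inr (Or.inl ⟨a, ha, rfl⟩))))
  have ml : ∀ a : ℕ, a < 3 → Ang p (A ((o.1, o.2 + p.l * a), 1))
      (nn ((o.1, o.2 + p.l * a), 1)) := fun a ha =>
    hA _ (mem_FO.mpr (Or.inr (Or.inr (Or.inr ⟨a, ha, rfl⟩))))
  obtain ⟨S0, l0, lo0, hi0, a0, b0, c0⟩ :=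
    ge_side hp (mb 2 (by norm_num)) (mb 1 (by norm_num)) (mb 0 (by norm_num))
  obtain ⟨S1, l1, lo1, hi1, a1, b1, c1⟩ :=
    ge_side hp (mr 2 (by norm_num)) (mr 1 (by norm_num)) (mr 0 (by norm_num))
  obtain ⟨S2, l2, lo2, hi2, a2, b2, c2⟩ :=
    ge_side hp (mt 0 (by norm_num)) (mt 1 (by norm_num)) (mt 2 (by norm_num))
  obtain ⟨S3, l3, lo3, hi3, a3, b3, c3⟩ :=
    ge_side hp (ml 0 (by norm_num)) (ml 1 (by norm_num)) (ml 2 (by norm_num))
  have hs := sum_FO (o := o) hl nn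
  simp only [Finset.sum_range_succ, Finset.sum_range_zero, zero_add] at hs
  generalize hN0 : nn ((o.1 + p.l * (((2 : ℕ) : ℤ) + 1), o.2), 2) = n02 at *
  generalize hN1 : nn ((o.1 + p.l * (((1 : ℕ) : ℤ) + 1), o.2), 2) = n01 at *
  generalize hN2 : nn ((o.1 + p.l * (((0 : ℕ) : ℤ) + 1), o.2), 2) = n00 at *
  generalize hN3 : nn ((o.1 + p.l * 3, o.2 + p.l * (((2 : ℕ) : ℤ) + 1)), 3) = n12 at *
  generalize hN4 : nn ((o.1 + p.l * 3, o.2 + p.l * (((1 : ℕ) : ℤ) + 1)), 3) = n11 at *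
  generalize hN5 : nn ((o.1 + p.l * 3, o.2 + p.l * (((0 : ℕ) : ℤ) + 1)), 3) = n10 at *
  generalize hN6 : nn ((o.1 + p.l * ((0 : ℕ) : ℤ), o.2 + p.l * 3), 0) = n20 at *
  generalize hN7 : nn ((o.1 + p.l * ((1 : ℕ) : ℤ), o.2 + p.l * 3), 0) = n21 at *
  generalize hN8 : nn ((o.1 + p.l * ((2 : ℕ) : ℤ), o.2 + p.l * 3), 0) = n22 at *
  generalize hN9 : nn ((o.1, o.2 + p.l * ((0 : ℕ) : ℤ)), 1) = n30 at *
  generalize hN10 : nn ((o.1, o.2 + p.l * ((1 : ℕ) : ℤ)), 1) = n31 at *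
  generalize hN11 : nn ((o.1, o.2 + p.l * ((2 : ℕ) : ℤ)), 1) = n32 at *
  rw [hs]
  let θ : Fin 4 → ℤ → ℝ := fun d z =>
    if d = 0 then π / 4 - 2 * π * ((0 : ℤ) : ℝ) + S0 (o.1 + 3 * p.l - z)
    else if d = 1 then π / 4 - 2 * π * ((n02 + n01 + n00 : ℤ) : ℝ) + S1 (o.2 + 3 * p.l - z)
    else if d = 2 then
      π / 4 - 2 * π * ((n02 + n01 + n00 + (n12 + n11 + n10) : ℤ) : ℝ) + S2 (z - o.1)
    else π / 4 - 2 * π * ((n02 + n01 + n00 + (n12 + n11 + n10) + (n20 + n21 + n22) : ℤ) : ℝ) +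
      S3 (z - o.2)
  have t0 : ∀ z, θ 0 z = π / 4 - 2 * π * ((0 : ℤ) : ℝ) + S0 (o.1 + 3 * p.l - z) := fun z => rfl
  have t1 : ∀ z, θ 1 z = π / 4 - 2 * π * ((n02 + n01 + n00 : ℤ) : ℝ) +
      S1 (o.2 + 3 * p.l - z) := fun z => rfl
  have t2 : ∀ z, θ 2 z = π / 4 - 2 * π * ((n02 + n01 + n00 + (n12 + n11 + n10) : ℤ) : ℝ) +
      S2 (z - o.1) := fun z => rfl
  have t3 : ∀ z, θ 3 z = π / 4 - 2 * π * ((n02 + n01 + n00 + (n12 + n11 + n10) +
      (n20 + n21 + n22) : ℤ) : ℝ) + S3 (z - o.2) := fun z => rfl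
  have r0 : (rc p.l o 3 3).x0 = o.1 := rfl
  have r1 : (rc p.l o 3 3).x1 = o.1 + p.l * 3 := rfl
  have r2 : (rc p.l o 3 3).y0 = o.2 := rfl
  have r3 : (rc p.l o 3 3).y1 = o.2 + p.l * 3 := rfl
  refine ⟨θ, ⟨?_, ?_, ?_, ?_, ?_, ?_, ?_, ?_⟩, ?_⟩
  · rw [r0, r1]; omega
  · rw [r2, r3]; omega
  · intro d z
    have hd : d = 0 ∨ d = 1 ∨ d = 2 ∨ d = 3 := by
      rcases d with ⟨_ | _ | _ | _ | k, hk⟩
      · exact Or.inl rfl
      · exact Or.inr (Or.inl rfl)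
      · exact Or.inr (Or.inr (Or.inl rfl))
      · exact Or.inr (Or.inr (Or.inr rfl))
      · omega
    rcases hd with rfl | rfl | rfl | rfl
    · have := l0 (o.1 + 3 * p.l - (z + 1))
      rw [show o.1 + 3 * p.l - (z + 1) + 1 = o.1 + 3 * p.l - z by ring, abs_sub_comm] at this
      rw [t0, t0, add_sub_add_left_eq_sub]
      exact this
    · have := l1 (o.2 + 3 * p.l - (z + 1))
      rw [show o.2 + 3 * p.l - (z + 1) + 1 = o.2 + 3 * p.l - z by ring, abs_sub_comm] at this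
      rw [t1, t1, add_sub_add_left_eq_sub]
      exact this
    · have := l2 (z - o.1)
      rw [show z - o.1 + 1 = z + 1 - o.1 by ring] at this
      rw [t2, t2, add_sub_add_left_eq_sub]
      exact this
    · have := l3 (z - o.2)
      rw [show z - o.2 + 1 = z + 1 - o.2 by ring] at this
      rw [t3, t3, add_sub_add_left_eq_sub]
      exact this
  · intro z z' hz hz'
    rw [r2] at hz
    rw [r0] at hz'
    rw [t3, t0, lo3 _ (by omega), hi0 _ (by omega)]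
    push_cast
    ring
  · intro z z' hz hz'
    rw [r1] at hz
    rw [r2] at hz'
    rw [t0, t1, lo0 _ (by omega), hi1 _ (by omega)]
    push_cast
    ring
  · intro z z' hz hz'
    rw [r3] at hz
    rw [r1] at hz'
    rw [t1, t2, lo1 _ (by omega), hi2 _ (by omega)]
    push_cast
    ring
  · intro z z' hz hz'
    rw [r0] at hz
    rw [r3] at hz'
    rw [t2, t3, lo2 _ (by omega), hi3 _ (by omega)]
    push_cast
    ring
  · rw [r0, t0, hi0 _ (by omega)]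
    have := pi_pos
    rw [abs_le]
    constructor <;> push_cast <;> linarith
  · intro Θ hΘ e he t y ht0 ht1 hy0 hy1
    have hy : |y| ≤ p.W := abs_le.mpr ⟨hy0, by omega⟩
    rcases mem_FO.mp he with ⟨a, ha, rfl⟩ | ⟨a, ha, rfl⟩ | ⟨a, ha, rfl⟩ | ⟨a, ha, rfl⟩
    · have e1 : fr (o.1 + p.l * (a + 1), o.2) 2 (t, y) =
          (o.1 + p.l * (a + 1) - t, o.2 - y) := rfl
      have h := hΘ 0 (o.1 + p.l * (a + 1) - t, o.2 - y) (by
        show o.1 ≤ o.1 + p.l * (a + 1) - t ∧ o.1 + p.l * (a + 1) - t ≤ o.1 + p.l * 3 ∧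
          |o.2 - y - o.2| ≤ p.W
        rw [show o.2 - y - o.2 = -y by ring, abs_neg]
        refine ⟨?_, ?_, hy⟩ <;> interval_cases a <;> push_cast <;> omega)
      rw [show crd 0 (o.1 + p.l * (a + 1) - t, o.2 - y) = o.1 + p.l * (a + 1) - t from rfl,
        t0] at h
      show ∃ m : ℤ, Θ (fr (o.1 + p.l * (a + 1), o.2) 2 (t, y)) = _
      rw [e1]
      interval_cases a
      · rw [show o.1 + 3 * p.l - (o.1 + p.l * (((0 : ℕ) : ℤ) + 1) - t) = 2 * p.l + t by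
          push_cast; ring] at h
        exact ge_fin h (c0 t ht0 ht1) rfl
      · rw [show o.1 + 3 * p.l - (o.1 + p.l * (((1 : ℕ) : ℤ) + 1) - t) = p.l + t by
          push_cast; ring] at h
        exact ge_fin h (b0 t ht0 ht1) rfl
      · rw [show o.1 + 3 * p.l - (o.1 + p.l * (((2 : ℕ) : ℤ) + 1) - t) = t by
          push_cast; ring] at h
        exact ge_fin h (a0 t ht0 ht1) rfl
    · have e1 : fr (o.1 + p.l * 3, o.2 + p.l * (a + 1)) 3 (t, y) =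
          (o.1 + p.l * 3 + y, o.2 + p.l * (a + 1) - t) := rfl
      have h := hΘ 1 (o.1 + p.l * 3 + y, o.2 + p.l * (a + 1) - t) (by
        show o.2 ≤ o.2 + p.l * (a + 1) - t ∧ o.2 + p.l * (a + 1) - t ≤ o.2 + p.l * 3 ∧
          |o.1 + p.l * 3 + y - (o.1 + p.l * 3)| ≤ p.W
        rw [show o.1 + p.l * 3 + y - (o.1 + p.l * 3) = y by ring]
        refine ⟨?_, ?_, hy⟩ <;> interval_cases a <;> push_cast <;> omega)
      rw [show crd 1 (o.1 + p.l * 3 + y, o.2 + p.l * (a + 1) - t) = o.2 + p.l * (a + 1) - t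
        from rfl, t1] at h
      show ∃ m : ℤ, Θ (fr (o.1 + p.l * 3, o.2 + p.l * (a + 1)) 3 (t, y)) = _
      rw [e1]
      interval_cases a
      · rw [show o.2 + 3 * p.l - (o.2 + p.l * (((0 : ℕ) : ℤ) + 1) - t) = 2 * p.l + t by
          push_cast; ring] at h
        exact ge_fin h (c1 t ht0 ht1) rfl
      · rw [show o.2 + 3 * p.l - (o.2 + p.l * (((1 : ℕ) : ℤ) + 1) - t) = p.l + t by
          push_cast; ring] at h
        exact ge_fin h (b1 t ht0 ht1) rfl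
      · rw [show o.2 + 3 * p.l - (o.2 + p.l * (((2 : ℕ) : ℤ) + 1) - t) = t by
          push_cast; ring] at h
        exact ge_fin h (a1 t ht0 ht1) rfl
    · have e1 : fr (o.1 + p.l * a, o.2 + p.l * 3) 0 (t, y) =
          (o.1 + p.l * a + t, o.2 + p.l * 3 + y) := rfl
      have h := hΘ 2 (o.1 + p.l * a + t, o.2 + p.l * 3 + y) (by
        show o.1 ≤ o.1 + p.l * a + t ∧ o.1 + p.l * a + t ≤ o.1 + p.l * 3 ∧
          |o.2 + p.l * 3 + y - (o.2 + p.l * 3)| ≤ p.W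
        rw [show o.2 + p.l * 3 + y - (o.2 + p.l * 3) = y by ring]
        refine ⟨?_, ?_, hy⟩ <;> interval_cases a <;> push_cast <;> omega)
      rw [show crd 2 (o.1 + p.l * a + t, o.2 + p.l * 3 + y) = o.1 + p.l * a + t from rfl,
        t2] at h
      show ∃ m : ℤ, Θ (fr (o.1 + p.l * a, o.2 + p.l * 3) 0 (t, y)) = _
      rw [e1]
      interval_cases a
      · rw [show o.1 + p.l * ((0 : ℕ) : ℤ) + t - o.1 = t by push_cast; ring] at h
        exact ge_fin h (a2 t ht0 ht1) rfl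
      · rw [show o.1 + p.l * ((1 : ℕ) : ℤ) + t - o.1 = p.l + t by push_cast; ring] at h
        exact ge_fin h (b2 t ht0 ht1) rfl
      · rw [show o.1 + p.l * ((2 : ℕ) : ℤ) + t - o.1 = 2 * p.l + t by push_cast; ring] at h
        exact ge_fin h (c2 t ht0 ht1) rfl
    · have e1 : fr (o.1, o.2 + p.l * a) 1 (t, y) = (o.1 - y, o.2 + p.l * a + t) := rfl
      have h := hΘ 3 (o.1 - y, o.2 + p.l * a + t) (by
        show o.2 ≤ o.2 + p.l * a + t ∧ o.2 + p.l * a + t ≤ o.2 + p.l * 3 ∧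
          |o.1 - y - o.1| ≤ p.W
        rw [show o.1 - y - o.1 = -y by ring, abs_neg]
        refine ⟨?_, ?_, hy⟩ <;> interval_cases a <;> push_cast <;> omega)
      rw [show crd 3 (o.1 - y, o.2 + p.l * a + t) = o.2 + p.l * a + t from rfl, t3] at h
      show ∃ m : ℤ, Θ (fr (o.1, o.2 + p.l * a) 1 (t, y)) = _
      rw [e1]
      interval_cases a
      · rw [show o.2 + p.l * ((0 : ℕ) : ℤ) + t - o.2 = t by push_cast; ring] at h
        exact ge_fin h (a3 t ht0 ht1) rfl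
      · rw [show o.2 + p.l * ((1 : ℕ) : ℤ) + t - o.2 = p.l + t by push_cast; ring] at h
        exact ge_fin h (b3 t ht0 ht1) rfl
      · rw [show o.2 + p.l * ((2 : ℕ) : ℤ) + t - o.2 = 2 * p.l + t by push_cast; ring] at h
        exact ge_fin h (c3 t ht0 ht1) rfl

end

end Pool.Agent.XYU

end

end
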