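import Pool.Agent.MP_b591f0_mp.Mg.XY_D3
import Pool.Agent.MP_b591f0_mp.Mg.XY_G2
import Pool.Agent.MP_b591f0_mp.Mg.XY_D1

-- part MP_b591f0_mp.XY.G3
section

section

open Finset Real Relation

namespace Pool.Agent.XYU

open Classical

noncomputable section

/-! One colour: the fences and the wall can be closed at a bounded cost.

`gd_frame`: by `dlr` (with `lc_in`, `LG.lc`, `lc_lc`) from `S.lc R u` to the box `(Pb j).image F`
it suffices to bound `S.lc ((Pb j).image F) u'` for `u' ∈ Om q (S.lc R u)`. Such `u'` lies in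
`Om q S` and agrees with `u₀` off `Λ` and off `Ed Λ` (`mem_Om_lc`, `Ed_mono`), hence `gd_congr`
(with `ed_fz`, `lk_sub`; the sites of `HB W` are mapped off `Λ`) gives `Gd` for `u'.pull F`. Apply
`gd_use` to the system `S.map F.symm` and the state `u'.pull F = u'.map F.symm`, and transport
back with `lc_map`, `Z_map`, `Om_map`, `LG.map`.
`df_frame`: `Df.anti`, since `Ed (Fz W j k) ⊆ Ed (Pb j) ∪ Ei (HB W)` by `ed_fz`.
`glue_ev`: the event is the conjunction. `fkg_prod` twice (or once over a sum type) in the system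
`S.lc R u`, which satisfies `LG` by `LG.lc`; the factors are decreasing by `Iso.anti` and
`df_frame` (two states of `Om q (S.lc R u)` agree off `Ed R`, so `Le` gives `u.w ⊆ u'.w`); lower
bounds `iso_lb` (applied to the system `S.lc R u`) and `gd_frame`; `c0 β ≤ 1`, `cf β / 2 ≤ 1`.
`glue1`: `C` from `tiles` applied to the wall; the tips form the finset `T` of all
`(i, e, y, d)` with `i ∈ s`, `e ∈ fs i`, `y ∈ Icc 0 l`, `End ...` (a subset of a sigma type or of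
`κ × (V × Fin 4) × ℤ × Bool`), of cardinality at most `500 ϑ` by `Cert.card`; the frame of a tip is
`(tf y d).trans (fr e.1 e.2)` (`pull_pull`). `R` is the union of the boxes `bx c (2 h - 1)` and of
the images of the `Pb (sc i e y d)`. `R ⊆ Λ`: `wall_far`, `gap_mem` (`run_range`; `16 j ≤ W`).
`|φ| ≤ 3 / 5` on `R`: `Col.lip` from a wall site, resp. `Col.col` with `Cert.tip`
(`f = ramp j r` lies in `[-3/4, 1/4]` for `5 j < r < 9 j`). `HB W` is mapped into `P i` by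
`Geo.line`, hence off `Λ`. Last item: `piece` with height `4 h` for each `i` (choose `ty`), then
`wall` (a wall site `x` has `dd x c ≤ h` for some `c ∈ C`, `Iso` gives `dd y c < 2 h`). -/

variable {β : ℝ} {q : ℕ} {S : Sys} {κ : Type} {s : Finset κ} {Λ : Finset V} {P : κ → Set V}
  {fs : κ → Finset (V × Fin 4)} {pp : κ → Par} {ε : κ → ZMod 2} {f : κ → V × Fin 4 → ℤ → ℝ}
  {φ : V → ℝ} {h : ℤ}

lemma gb1_off {F : V ≃ V} {W : ℤ} (hB : ∀ v ∈ HB W, F v ∉ Λ) {x y : V}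
    (he : s(x, y) ∈ Ei (HB W)) : s(F x, F y) ∉ Ed Λ := fun h =>
  (mem_Ed.1 h).2.elim (hB x (mem_Ei.1 he).2.1) (hB y (mem_Ei.1 he).2.2)

lemma gb1_fz {W j : ℤ} {k : Finset V} {v : V} (hv : v ∈ Fz W j k) (hp : v ∉ Pb j) : v ∈ HB W :=
  (lk_sub (mem_filter.1 ((mem_union.1 hv).resolve_right hp)).1).1

lemma gd_frame (hβ : 0 ≤ β) (hS : LG q S) {F : V ≃ V} (hF : IsFr F) {W j : ℤ} {k R : Finset V}
    (hk : TG W k) (hj : 1 ≤ j) (hW : 9 * j ≤ W) (hB : ∀ v ∈ HB W, F v ∈ S.L ∧ F v ∉ Λ)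
    (hR : (Pb j).image F ⊆ R) (hΛ : R ⊆ Λ) (hL : Λ ⊆ S.L) {u₀ u : UC} (h₀ : u₀ ∈ Om q S)
    (hu : u ∈ Om q (S.lc Λ u₀)) (hg : Gd β q W j k (u₀.pull F)) :
    cf β / 2 * Z1 β q (S.lc R u) ≤
      Z β q (S.lc R u) fun u' => ind (Df W j k (u'.pull F).w) := by
  have huS : u ∈ Om q S := Om_cond (lc_in hS.ed hL) h₀ hu
  have hRL : R ⊆ S.L := hΛ.trans hL
  have hSR : LG q (S.lc R u) := hS.lc hRL huS
  rw [← Z_const]
  refine dlr hβ hSR.grp.a01 (lc_in (S := S.lc R u) hSR.ed hR) fun u' hu' _ => ?_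
  change Z β q ((S.lc R u).lc _ u') _ ≤ Z β q ((S.lc R u).lc _ u') _
  rw [lc_lc hS.ed hRL hR hu', Z_const]
  have hu'S : u' ∈ Om q S := Om_cond (lc_in hS.ed hRL) huS hu'
  obtain ⟨a1, -, a3, a4⟩ := mem_Om_lc.1 hu
  obtain ⟨b1, -, b3, b4⟩ := mem_Om_lc.1 hu'
  have hg' : Gd β q W j k (u'.pull F) := by
    refine gd_congr hg (fun v hv hp => ?_) fun e he hp => ?_
    · have h1 := (hB v (gb1_fz hv hp)).2
      rw [pull_a, pull_a, b1 _ fun h => h1 (hΛ h), a1 _ h1]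
    · have h1 := ed_fz hk hj hW he hp
      induction e using Sym2.ind with
      | _ x y =>
        have h2 := gb1_off (fun v hv => (hB v hv).2) h1
        have h3 : s(F x, F y) ∉ Ed R := fun h => h2 (Ed_mono hΛ h)
        rw [mem_pull_w, mem_pull_w, mem_pull_b, mem_pull_b, b3 _ h3, a3 _ h2, b4 _ h3, a4 _ h2]
        exact ⟨Iff.rfl, Iff.rfl⟩
  have hFz : Fz W j k ⊆ (S.map F.symm).L := by
    intro v hv
    refine (ac4_mem_img F.symm S.L v).2 ?_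
    rw [Equiv.symm_symm]
    by_cases hp : v ∈ Pb j
    · exact hRL (hR (mem_image_of_mem _ hp))
    · exact (hB v (gb1_fz hv hp)).1
  have key := gd_use hβ (hS.map hF.symm) hk hj hW hFz ((Om_map F.symm).2 hu'S) hg'
  have e1 : ((Pb j).image F).image F.symm = Pb j := by
    rw [image_image]
    simp
  have e2 := lc_map hF.symm S ((Pb j).image F) u'
  rw [e1] at e2
  rw [← e2, Z_map, ba_Z1_map] at key
  exact key

lemma df_frame {F : V ≃ V} (hF : IsFr F) {W j : ℤ} {k R : Finset V} (hk : TG W k) (hj : 1 ≤ j)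
    (hW : 9 * j ≤ W) (hB : ∀ v ∈ HB W, F v ∉ Λ) (hR : (Pb j).image F ⊆ R) {u u' : UC}
    (hw : ∀ e, e ∈ Ed R ∨ e ∉ Ed Λ → e ∈ u.w → e ∈ u'.w) (hD : Df W j k (u'.pull F).w) :
    Df W j k (u.pull F).w := by
  refine hD.anti fun e he => ?_
  obtain ⟨h1, h2⟩ := mem_inter.1 he
  induction e using Sym2.ind with
  | _ x y =>
    rw [mem_pull_w] at h1 ⊢
    refine hw _ ?_ h1
    by_cases hp : s(x, y) ∈ Ed (Pb j)
    · refine Or.inl (Ed_mono hR ?_)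
      rw [Ed_image hF]
      exact mem_image.2 ⟨_, hp, rfl⟩
    · exact Or.inr (gb1_off hB (ed_fz hk hj hW h2 hp))

end

end Pool.Agent.XYU

end

section

open Finset Real Relation

namespace Pool.Agent.XYU

open Classical

noncomputable section

variable {β : ℝ} {q : ℕ} {S : Sys} {κ : Type} {s : Finset κ} {Λ : Finset V} {P : κ → Set V}
  {fs : κ → Finset (V × Fin 4)} {pp : κ → Par} {ε : κ → ZMod 2} {f : κ → V × Fin 4 → ℤ → ℝ}
  {φ : V → ℝ} {h : ℤ}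

lemma glue_ev (hβ : 0 ≤ β) (hS : LG q S) (hL : Λ ⊆ S.L) {R : Finset V} (hΛ : R ⊆ Λ) {u₀ : UC}
    (h₀ : u₀ ∈ Om q S) (hh : 2 ≤ h) (C : Finset V) (hC : ∀ c ∈ C, bx c (2 * h - 1) ⊆ R)
    {ι : Type} (T : Finset ι) (F : ι → V ≃ V) (W j : ι → ℤ) (k : ι → Finset V)
    (hT : ∀ t ∈ T, IsFr (F t) ∧ TG (W t) (k t) ∧ 1 ≤ j t ∧ 9 * j t ≤ W t ∧
      (∀ v ∈ HB (W t), F t v ∈ S.L ∧ F t v ∉ Λ) ∧ (Pb (j t)).image (F t) ⊆ R ∧
      Gd β q (W t) (j t) (k t) (u₀.pull (F t))) {a b : ℕ} (ha : #C ≤ a) (hb : #T ≤ b) {u : UC}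
    (hu : u ∈ Om q (S.lc Λ u₀)) :
    c0 β ^ a * (cf β / 2) ^ b * Z1 β q (S.lc R u) ≤ Z β q (S.lc R u) fun u' =>
      ind ((∀ c ∈ C, Iso u'.w c h (2 * h)) ∧
        ∀ t ∈ T, Df (W t) (j t) (k t) (u'.pull (F t)).w) := by
  have huS : u ∈ Om q S := Om_cond (lc_in hS.ed hL) h₀ hu
  have hS' : LG q (S.lc R u) := hS.lc (hΛ.trans hL) huS
  have hsub : ∀ v ∈ Om q (S.lc R u), ∀ v' ∈ Om q (S.lc R u),
      Le (S.lc R u).L (S.lc R u).E v v' → v.w ⊆ v'.w := by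
    intro v hv v' hv' hle e he
    by_cases hE : e ∈ Ed R
    · exact hle.2.1 (mem_inter.2 ⟨he, hE⟩)
    · exact ((mem_Om_lc.1 hv').2.2.1 e hE).2 (((mem_Om_lc.1 hv).2.2.1 e hE).1 he)
  have c1 : 0 ≤ c0 β := (exp_pos _).le
  have c2 : c0 β ≤ 1 := exp_le_one_iff.2 (by linarith)
  have c3 : 0 ≤ cf β / 2 := by have := exp_pos (-(12000 * β)); unfold cf; linarith
  have c4 : cf β / 2 ≤ 1 := by
    have : exp (-(12000 * β)) ≤ 1 := exp_le_one_iff.2 (by linarith)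
    unfold cf; linarith
  have key := fkg_prod (q := q) hβ hS.pos hS'.grp (C.disjSum T)
    (Sum.elim (fun c u' => ind (Iso u'.w c h (2 * h)))
      fun t u' => ind (Df (W t) (j t) (k t) (u'.pull (F t)).w))
    (Sum.elim (fun _ => c0 β) fun _ => cf β / 2)
    (by rintro (c | t) -; exacts [c1, c3])
    (by rintro (c | t) - v <;> exact ind_nonneg _)
    (by
      rintro (c | t) hi v hv v' hv' hle
      · exact ind_mono fun hI => hI.anti (by omega)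
          (inter_subset_left.trans (hsub v hv v' hv' hle))
      · obtain ⟨t1, t2, t3, t4, t5, t6, -⟩ := hT t (inr_mem_disjSum.1 hi)
        exact ind_mono fun hD => df_frame (Λ := Λ) t1 t2 t3 t4 (fun x hx => (t5 x hx).2) t6
          (fun e _ he => hsub v hv v' hv' hle he) hD)
    (by
      rintro (c | t) hi
      · exact iso_lb hβ c hh _ hS' (hC c (inl_mem_disjSum.1 hi))
      · obtain ⟨t1, t2, t3, t4, t5, t6, t7⟩ := hT t (inr_mem_disjSum.1 hi)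
        exact gd_frame hβ hS t1 t2 t3 t4 t5 t6 hΛ hL h₀ hu t7)
  simp only [prod_disjSum, Sum.elim_inl, Sum.elim_inr, prod_const] at key
  simp only [ind_and, ind_forall]
  refine le_trans (mul_le_mul_of_nonneg_right ?_ (Z1_nonneg hβ hS'.grp.a01)) key
  exact mul_le_mul (pow_le_pow_of_le_one c1 c2 ha) (pow_le_pow_of_le_one c3 c4 hb)
    (pow_nonneg c3 _) (pow_nonneg c1 _)

end

end Pool.Agent.XYU

end

section

open Finset Real Relation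

namespace Pool.Agent.XYU

open Classical

noncomputable section

variable {β : ℝ} {q : ℕ} {S : Sys} {κ : Type} {s : Finset κ} {Λ : Finset V} {P : κ → Set V}
  {fs : κ → Finset (V × Fin 4)} {pp : κ → Par} {ε : κ → ZMod 2} {f : κ → V × Fin 4 → ℤ → ℝ}
  {φ : V → ℝ} {h : ℤ}

lemma gb_tf (y : ℤ) (d : Bool) (v : V) : tf y d v = (y + sn d * v.1, v.2) := by
  cases d <;> simp [tf, sn, sub_eq_add_neg]

lemma gb_sn (d : Bool) {t a : ℤ} (h₁ : -a ≤ t) (h₂ : t ≤ a) : -a ≤ sn d * t ∧ sn d * t ≤ a := by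
  cases d <;> simp only [sn, Bool.false_eq_true, if_false, if_true] <;> omega

lemma gb_ramp {j r : ℤ} (hj : 1 ≤ j) (h₁ : 5 * j ≤ r) (h₂ : r ≤ 9 * j) : |ramp j r| ≤ 3 / 4 := by
  have hj' : (1 : ℝ) ≤ j := by exact_mod_cast hj
  have a1 : 5 * (j : ℝ) ≤ r := by exact_mod_cast h₁
  have a2 : (r : ℝ) ≤ 9 * j := by exact_mod_cast h₂
  have b1 : -(3 / 4 : ℝ) ≤ ((r : ℝ) - 8 * j) / (4 * j) := by
    rw [le_div_iff₀ (by positivity)]
    linarith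
  have b2 : ((r : ℝ) - 8 * j) / (4 * j) ≤ 1 / 4 := by
    rw [div_le_iff₀ (by positivity)]
    linarith
  unfold ramp
  rw [min_eq_right (by linarith), max_eq_right (by linarith), abs_le]
  constructor <;> linarith

lemma gb_chi (t : ZMod 2) : |chi t| = 1 := by
  unfold chi
  split_ifs <;> simp

/-- the finite set of all tips -/
lemma gb_tips (hL : Lay s Λ P fs pp) {ϑ : ℕ} (hn : ∑ i ∈ s, #(fs i) ≤ 500)
    (hl : ∀ i ∈ s, (pp i).l ≤ ϑ * (pp i).g) (E : κ → V × Fin 4 → ℤ → Bool → Prop)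
    (hE : ∀ i ∈ s, ∀ e ∈ fs i, ∀ y d, E i e y d → 0 ≤ y ∧ y ≤ (pp i).l)
    (hc : ∀ i ∈ s, ∀ e ∈ fs i, ∀ A : Finset (ℤ × Bool), (∀ y ∈ A, E i e y.1 y.2) →
      (#A : ℤ) * (pp i).g ≤ (pp i).l) :
    ∃ T : Finset (κ × (V × Fin 4) × ℤ × Bool), #T ≤ 500 * ϑ ∧
      ∀ t, t ∈ T ↔ t.1 ∈ s ∧ t.2.1 ∈ fs t.1 ∧ E t.1 t.2.1 t.2.2.1 t.2.2.2 := by
  refine ⟨s.biUnion fun i => (fs i).biUnion fun e =>
    ((Icc 0 (pp i).l ×ˢ (univ : Finset Bool)).filter fun y => E i e y.1 y.2).image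
      fun y => (i, e, y), ?_, ?_⟩
  · refine card_biUnion_le.trans ?_
    calc _ ≤ ∑ i ∈ s, #(fs i) * ϑ := by
          refine sum_le_sum fun i hi => card_biUnion_le.trans ?_
          rw [← smul_eq_mul]
          refine sum_le_card_nsmul _ _ _ fun e he => card_image_le.trans ?_
          have h1 := (hc i hi e he _ fun y hy => (mem_filter.1 (show y ∈
            (Icc 0 (pp i).l ×ˢ (univ : Finset Bool)).filter fun y => E i e y.1 y.2 from hy)).2).trans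
            (hl i hi)
          have h2 := (hL.ok i hi).g1
          exact_mod_cast le_of_mul_le_mul_right h1 (by omega)
      _ ≤ 500 * ϑ := by
          rw [← sum_mul]
          exact Nat.mul_le_mul_right _ hn
  · rintro ⟨i, e, y, d⟩
    simp only [mem_biUnion, mem_image, mem_filter, mem_product, mem_Icc, mem_univ, and_true,
      Prod.mk.injEq]
    constructor
    · rintro ⟨i', hi, e', he, z, ⟨-, hz⟩, rfl, rfl, rfl⟩
      exact ⟨hi, he, hz⟩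
    · rintro ⟨hi, he, hz⟩
      exact ⟨i, hi, e, he, (y, d), ⟨hE i hi e he y d hz, hz⟩, rfl, rfl, rfl⟩

theorem glue1 (hβ : 0 ≤ β) (hS : LG q S) (hL : Lay s Λ P fs pp) (hC : Col s Λ fs pp ε f φ h)
    (hΛ : Λ ⊆ S.L) (hI : Ins s fs pp S.L) {c₀ : V} {D ϑ : ℕ} (hD : Λ ⊆ bx c₀ (D * h))
    (hn : ∑ i ∈ s, #(fs i) ≤ 500) (hl : ∀ i ∈ s, (pp i).l ≤ ϑ * (pp i).g) {u₀ : UC}
    (h₀ : u₀ ∈ Om q S) (σ : κ → Fld) (hσ : ∀ i ∈ s, cpl (σ i) u₀.w (P i))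
    (hc : ∀ i ∈ s, ∀ e ∈ fs i, ∃ sc kk jM, Cert β q (pp i) (u₀.pull (fr e.1 e.2))
      (fun v => σ i (fr e.1 e.2 v)) (f i e) sc kk jM) :
    ∃ R ⊆ Λ, (∀ x ∈ R, |φ x| ≤ 3 / 5) ∧ ∃ A : UC → Prop,
      (∀ u u' : UC, (∀ e, e ∈ Ed R ∨ e ∉ Ed Λ → (e ∈ u.w ↔ e ∈ u'.w)) → A u → A u') ∧
      (∀ u ∈ Om q (S.lc Λ u₀),
        cg β D ϑ * Z1 β q (S.lc R u) ≤ Z β q (S.lc R u) fun u' => ind (A u')) ∧
      ∀ u ∈ Om q (S.lc Λ u₀), A u → Lab s P fs pp σ ε u.w := by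
  choose! sc kk jM hce using hc
  have hh := hC.h2
  obtain ⟨C, hCc, hC1, hC2⟩ := tiles (A := Wall s Λ fs pp φ h) (c₀ := c₀) (D := D) (by omega)
    ((filter_subset _ _).trans hD)
  obtain ⟨T, hTc, hT⟩ := gb_tips hL hn hl
    (fun i e y d => End (pp i) (u₀.pull (fr e.1 e.2)).w (fun v => σ i (fr e.1 e.2 v)) y d)
    (fun i hi e _ y d hE => by
      have a1 := run_range hE.1
      have a2 := (hL.ok i hi).g1
      have a3 := (hL.ok i hi).gW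
      omega)
    fun i hi e he A hA => (hce i hi e he).card (hL.ok i hi) A hA
  set F : κ × (V × Fin 4) × ℤ × Bool → V ≃ V :=
    fun t => (tf t.2.2.1 t.2.2.2).trans (fr t.2.1.1 t.2.1.2) with hF
  set J : κ × (V × Fin 4) × ℤ × Bool → ℤ := fun t => sc t.1 t.2.1 t.2.2.1 t.2.2.2 with hJ
  set K : κ × (V × Fin 4) × ℤ × Bool → Finset V := fun t => kk t.1 t.2.1 t.2.2.1 t.2.2.2 with hK
  set R : Finset V := (C.biUnion fun c => bx c (2 * h - 1)) ∪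
    T.biUnion fun t => (Pb (J t)).image (F t) with hR
  have hCR : ∀ c ∈ C, bx c (2 * h - 1) ⊆ R := fun c hc =>
    (subset_biUnion_of_mem (fun c => bx c (2 * h - 1)) hc).trans subset_union_left
  have hTR : ∀ t ∈ T, (Pb (J t)).image (F t) ⊆ R := fun t ht =>
    (subset_biUnion_of_mem (fun t => (Pb (J t)).image (F t)) ht).trans subset_union_right
  have key : ∀ t ∈ T, (IsFr (F t) ∧ TG (pp t.1).W (K t) ∧ 1 ≤ J t ∧ 9 * J t ≤ (pp t.1).W ∧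
      (∀ v ∈ HB (pp t.1).W, F t v ∈ S.L ∧ F t v ∉ Λ) ∧ (Pb (J t)).image (F t) ⊆ R ∧
      Gd β q (pp t.1).W (J t) (K t) (u₀.pull (F t))) ∧
      ∀ v ∈ Pb (J t), F t v ∈ Λ ∧ |φ (F t v)| ≤ 3 / 5 := by
    intro t ht
    have hsub := hTR t ht
    obtain ⟨i, e, y, d⟩ := t
    obtain ⟨hi, he, hE⟩ := (hT _).1 ht
    simp only at hi he hE
    have c1 := hce i hi e he
    obtain ⟨t1, t2, t3, t4, t5⟩ := c1.tip y d hE
    have a1 := run_range hE.1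
    have a2 := (hL.ok i hi).g1
    have a3 := c1.top
    have hFv : ∀ v, F (i, e, y, d) v = fr e.1 e.2 (y + sn d * v.1, v.2) := fun v => by
      rw [← gb_tf]
      rfl
    have hJ' : J (i, e, y, d) = sc i e y d := rfl
    refine ⟨⟨(isFr_tf _ _).trans (isFr_fr _ _), t3.tg, by omega, by simp only; omega, ?_, hsub,
      by rw [pull_pull] at t4; exact t4⟩, ?_⟩
    · intro v hv
      have b1 := mem_rect.1 hv
      simp only at b1
      have b2 := gb_sn d b1.1 b1.2.1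
      rw [hFv]
      refine ⟨hI i hi e he _ (by simp only; omega) (by simp only; omega)
        (abs_le.2 ⟨by simp only; omega, by simp only; omega⟩), fun hx => ?_⟩
      exact (hL.cover _).1 hx i hi ((hL.geo i hi).line e he _ (by simp only; omega)
        (by simp only; omega) b1.2.2.1 (by simp only; omega))
    · intro v hv
      have b1 := mem_rect.1 hv
      rw [hJ'] at b1
      have b2 := gb_sn d (a := (pp i).W) (t := v.1) (by omega) (by omega)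
      rw [hFv]
      refine ⟨gap_mem hL hi he (by simp only; omega) (by simp only; omega) (by simp only; omega)
        (by simp only; omega), ?_⟩
      obtain ⟨r, r1, -, r3, r4⟩ := hC.col i hi e he (y + sn d * v.1) (by omega) (by omega)
      have r5 := r4 v.2 (by omega) (by omega)
      have r6 := r3 (by
        rw [t5 v.1 (by omega) (by omega)]
        exact gb_ramp (by omega) (by omega) (by omega))
      have r7 := congrArg abs r5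
      rw [abs_mul, abs_mul, gb_chi, one_mul, abs_of_pos (by linarith : (0 : ℝ) < r)] at r7
      exact le_of_mul_le_mul_right (r7.trans_le r6) (by linarith)
  have hRΛ : ∀ x ∈ R, x ∈ Λ ∧ |φ x| ≤ 3 / 5 := by
    intro x hx
    rcases mem_union.1 hx with hx | hx
    · obtain ⟨c, hc, hxc⟩ := mem_biUnion.1 hx
      obtain ⟨z, hz, hzc⟩ := hC2 c hc
      have b1 := mem_bx.1 hxc
      have b2 := dd_tri z c x
      have b3 := dd_comm c x
      have b4 : x ∈ Λ := wall_far hL hC hz (by omega)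
      have b5 := mem_filter.1 hz
      have b6 := hC.lip z (Or.inl b5.1) x (Or.inl b4) (by omega)
      have b7 := b5.2.2
      refine ⟨b4, ?_⟩
      rw [abs_le] at b6 b7 ⊢
      constructor <;> linarith [b6.1, b6.2, b7.1, b7.2]
    · obtain ⟨t, ht, hxt⟩ := mem_biUnion.1 hx
      obtain ⟨v, hv, rfl⟩ := mem_image.1 hxt
      exact (key t ht).2 v hv
  refine ⟨R, fun x hx => (hRΛ x hx).1, fun x hx => (hRΛ x hx).2,
    fun u => (∀ c ∈ C, Iso u.w c h (2 * h)) ∧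
      ∀ t ∈ T, Df (pp t.1).W (J t) (K t) (u.pull (F t)).w, ?_, ?_, ?_⟩
  · intro u u' hw hA
    refine ⟨fun c hc => (hA.1 c hc).anti (by omega) fun e he => ?_, fun t ht => ?_⟩
    · have b1 := mem_inter.1 he
      exact (hw e (Or.inl (Ed_mono (hCR c hc) b1.2))).2 b1.1
    · obtain ⟨k1, k2, k3, k4, k5, k6, -⟩ := (key t ht).1
      exact df_frame k1 k2 k3 k4 (fun v hv => (k5 v hv).2) k6 (fun e he => (hw e he).2) (hA.2 t ht)
  · intro u hu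
    exact glue_ev hβ hS hΛ (fun x hx => (hRΛ x hx).1) h₀ hh C hCR T F (fun t => (pp t.1).W) J K
      (fun t ht => (key t ht).1) hCc hTc hu
  · intro u hu hA
    have hp : ∀ i, i ∈ s → ∃ ty : Fld, cpl ty u.w (P i ∪ Low (fs i) (pp i).l (4 * h)) ∧
        (∀ x ∈ P i, (∀ e ∈ fs i, ∀ t, 0 ≤ t → t ≤ (pp i).l →
          2 * (pp i).W < dd x (fr e.1 e.2 (t, 0))) → ty x = σ i x) ∧
        (∀ e ∈ fs i, ∀ v : V, 0 < v.1 → v.1 < (pp i).l → -(4 * h) ≤ v.2 → v.2 < 0 →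
          1 / 4 < |f i e v.1| → ty (fr e.1 e.2 v) = if f i e v.1 < 0 then 1 else 0) ∧
        ∀ e ∈ fs i, ty (fr e.1 e.2 (0, 0)) = 0 ∧ ty (fr e.1 e.2 ((pp i).l, 0)) = 0 := by
      intro i hi
      have b1 := hC.hg i hi
      refine piece (hL.ok i hi) (hL.geo i hi) (by omega) (by omega) (f i) (sc i) (kk i) (jM i)
        (hce i hi) (hσ i hi) (fun x hx y hy _ => (mem_Om_lc.1 hu).2.2.1 _ fun he => ?_)
        fun e he y d hE => ?_
      · rcases (mem_Ed.1 he).2 with b2 | b2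
        · exact (hL.cover _).1 b2 i hi hx
        · exact (hL.cover _).1 b2 i hi hy
      · rw [pull_pull]
        exact hA.2 (i, e, y, d) ((hT _).2 ⟨hi, he, hE⟩)
    choose! ty y1 y2 y3 y4 using hp
    obtain ⟨σ', s1, s2⟩ := wall hL hC ty y1 y3 y4 fun x hx y hxy => by
      obtain ⟨c, hc, hxc⟩ := hC1 x hx
      have b1 := hA.1 c hc x y hxc hxy
      have b2 := dd_tri x c y
      have b3 := dd_comm c y
      omega
    exact ⟨σ', s1, fun i hi x hx hf => by rw [s2 i hi x hx, y2 i hi x hx hf]⟩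

end

end Pool.Agent.XYU

end

section

open Finset Real Relation

namespace Pool.Agent.XYU

open Classical

noncomputable section

/-! Both colours.

`col_of`: with `f = r cos A`, `g = r sin A`, `|f|, |g| ≤ 1` (`Cert.bd`) and `EA.one` one gets
`r ^ 2 = f ^ 2 + g ^ 2 ∈ [1, 2]`; if `|f| ≤ 3 / 4` then `|g| = 1`, `r ^ 2 = 1 + f ^ 2`. Use
`cos (chi ε * A + 2 π m) = cos A`, `sin (chi ε * A + 2 π m) = chi ε * sin A`, the periodicity and
the Lipschitz bounds of `cos`, `sin` (`Real.abs_cos_sub_cos_le`), and `Cert.far`.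
`two_col`: `R`, `R'` are disjoint and not adjacent, so `Ed R` and `Ed R'` are disjoint. In
`S' = S.lc Λ u₀` use `dlr` on `R`: on `Om q (S'.lc R u) = Om q (S.lc R u)` (`lc_lc`) the event `B`
is constant (blue edges off `Ed R` are frozen, and `e ∈ Ed R' ∨ e ∉ Ed Λ` implies `e ∉ Ed R`), so
`c * Z S' (ind B) ≤ Z S' (ind A * ind B)`; then `dlr` on `R'` for `c * Z1 S' ≤ Z S' (ind B)`.
`glue2`: choose `f g` from `EA`; `glue1` for `S, u₀, σ, cos Θ, ε = 0` and for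
`S.sw, u₀.sw, τ, sin Θ, ε` (`LG.sw`, `Om_sw`, `pull_sw`, `lc_sw`, `Z_sw`); if `x ∈ R`, `y ∈ R'` and
`dd x y ≤ 1` then `|cos (Θ y)| ≤ 3/5 + 1/25` and `|sin (Θ y)| ≤ 3/5`, impossible; `two_col`, then
`Z_mono`. -/

variable {β : ℝ} {q : ℕ} {S : Sys} {κ : Type} {s : Finset κ} {Λ : Finset V} {P : κ → Set V}
  {fs : κ → Finset (V × Fin 4)} {pp : κ → Par} {ε : κ → ZMod 2} {h : ℤ}

lemma gc1_rad {a b r : ℝ} (hr : 0 < r) (hs : r ^ 2 = a ^ 2 + b ^ 2) (ha : |a| ≤ 1) (hb : |b| ≤ 1)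
    (h1 : |a| = 1 ∨ |b| = 1) : 1 ≤ r ∧ r ≤ 3 / 2 ∧ (|a| ≤ 3 / 4 → |a| ≤ 3 / 5 * r) := by
  rw [← sq_abs a, ← sq_abs b] at hs
  have ha0 := abs_nonneg a
  have hb0 := abs_nonneg b
  generalize |a| = x at *
  generalize |b| = y at *
  refine ⟨?_, ?_, fun hx => ?_⟩
  · refine le_of_sq_le_sq ?_ hr.le
    rcases h1 with h1 | h1 <;> subst h1 <;> nlinarith
  · refine le_of_sq_le_sq ?_ (by norm_num)
    nlinarith
  · have hy : y = 1 := h1.resolve_left (fun h => by linarith)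
    subst hy
    refine le_of_sq_le_sq ?_ (by linarith)
    nlinarith

lemma gc1_cos (t : ZMod 2) (a : ℝ) (m : ℤ) : cos (chi t * a + 2 * π * m) = cos a := by
  rw [show chi t * a + 2 * π * m = chi t * a + m * (2 * π) by ring, cos_add_int_mul_two_pi]
  unfold chi
  split_ifs <;> simp

lemma gc1_sin (t : ZMod 2) (a : ℝ) (m : ℤ) : sin (chi t * a + 2 * π * m) = chi t * sin a := by
  rw [show chi t * a + 2 * π * m = chi t * a + m * (2 * π) by ring, sin_add_int_mul_two_pi]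
  unfold chi
  split_ifs <;> simp

lemma gc1_lc {a b c : ℝ} {m : ℤ} (h : |a - b - 2 * π * m| ≤ c) : |cos a - cos b| ≤ c := by
  rw [← cos_add_int_mul_two_pi b m]
  refine (abs_cos_sub_cos_le _ _).trans ?_
  rwa [show a - (b + m * (2 * π)) = a - b - 2 * π * m by ring]

lemma gc1_ls {a b c : ℝ} {m : ℤ} (h : |a - b - 2 * π * m| ≤ c) : |sin a - sin b| ≤ c := by
  rw [← sin_add_int_mul_two_pi b m]
  refine (abs_sin_sub_sin_le _ _).trans ?_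
  rwa [show a - (b + m * (2 * π)) = a - b - 2 * π * m by ring]

lemma col_of (hL : Lay s Λ P fs pp) (u : κ → V × Fin 4 → UC) (σ τ : κ → V × Fin 4 → Fld)
    (n : κ → V × Fin 4 → ℤ) (f g A : κ → V × Fin 4 → ℤ → ℝ)
    (hA : ∀ i ∈ s, ∀ e ∈ fs i,
      EA β q (pp i) (u i e) (σ i e) (τ i e) (n i e) (f i e) (g i e) (A i e))
    (h2 : 2 ≤ h) (hg : ∀ i ∈ s, 2 * h ≤ (pp i).g) (Θ : V → ℝ)
    (hΘ : ∀ i ∈ s, ∀ e ∈ fs i, ∀ t y, 0 ≤ t → t ≤ (pp i).l → -(pp i).W ≤ y → y ≤ 0 →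
      ∃ m : ℤ, Θ (fr e.1 e.2 (t, y)) = chi (ε i) * A i e t + 2 * π * m)
    (hl : ∀ x ∈ Dom s Λ fs pp, ∀ y ∈ Dom s Λ fs pp, dd x y ≤ 4 * h →
      ∃ m : ℤ, |Θ x - Θ y - 2 * π * m| ≤ 1 / 25) :
    Col s Λ fs pp (fun _ => 0) f (fun v => cos (Θ v)) h ∧
      Col s Λ fs pp ε g (fun v => sin (Θ v)) h := by
  refine ⟨⟨fun i hi e he t h0 h1 => ?_, fun x hx y hy hd => ?_, fun i hi e he t ht => ?_, h2, hg⟩,
    ⟨fun i hi e he t h0 h1 => ?_, fun x hx y hy hd => ?_, fun i hi e he t ht => ?_, h2, hg⟩⟩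
  · obtain ⟨r, hr, hf, hg'⟩ := (hA i hi e he).arg t
    obtain ⟨sc, kk, jM, hc⟩ := (hA i hi e he).red
    obtain ⟨sc', kk', jM', hc'⟩ := (hA i hi e he).blue
    have hs : r ^ 2 = f i e t ^ 2 + g i e t ^ 2 := by
      rw [hf, hg']
      linear_combination (-r ^ 2) * cos_sq_add_sin_sq (A i e t)
    obtain ⟨a1, a2, a3⟩ := gc1_rad hr hs (hc.bd t) (hc'.bd t) ((hA i hi e he).one t)
    refine ⟨r, a1, a2, a3, fun y hy hy' => ?_⟩
    obtain ⟨m, hm⟩ := hΘ i hi e he t y h0 h1 hy hy'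
    rw [hm, gc1_cos, hf]
    simp [chi, mul_comm]
  · obtain ⟨m, hm⟩ := hl x hx y hy hd
    exact gc1_lc hm
  · obtain ⟨sc, kk, jM, hc⟩ := (hA i hi e he).red
    exact hc.far (hL.ok i hi) ht
  · obtain ⟨r, hr, hf, hg'⟩ := (hA i hi e he).arg t
    obtain ⟨sc, kk, jM, hc⟩ := (hA i hi e he).red
    obtain ⟨sc', kk', jM', hc'⟩ := (hA i hi e he).blue
    have hs : r ^ 2 = g i e t ^ 2 + f i e t ^ 2 := by
      rw [hf, hg']
      linear_combination (-r ^ 2) * cos_sq_add_sin_sq (A i e t)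
    obtain ⟨a1, a2, a3⟩ := gc1_rad hr hs (hc'.bd t) (hc.bd t) ((hA i hi e he).one t).symm
    refine ⟨r, a1, a2, a3, fun y hy hy' => ?_⟩
    obtain ⟨m, hm⟩ := hΘ i hi e he t y h0 h1 hy hy'
    rw [hm, gc1_sin, hg']
    ring
  · obtain ⟨m, hm⟩ := hl x hx y hy hd
    exact gc1_ls hm
  · obtain ⟨sc, kk, jM, hc⟩ := (hA i hi e he).blue
    exact hc.far (hL.ok i hi) ht

end

end Pool.Agent.XYU

end

section

open Finset Real Relation

namespace Pool.Agent.XYU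

open Classical

noncomputable section

variable {β : ℝ} {q : ℕ} {S : Sys} {κ : Type} {s : Finset κ} {Λ : Finset V} {P : κ → Set V}
  {fs : κ → Finset (V × Fin 4)} {pp : κ → Par} {ε : κ → ZMod 2} {h : ℤ}

lemma two_col (hβ : 0 ≤ β) (hS : LG q S) (hΛ : Λ ⊆ S.L) {u₀ : UC} (h₀ : u₀ ∈ Om q S)
    {R R' : Finset V} (hR : R ⊆ Λ) (hR' : R' ⊆ Λ) (hd : ∀ x ∈ R, ∀ y ∈ R', 1 < dd x y)
    {A B : UC → Prop} {c : ℝ} (hc : 0 ≤ c)
    (hB : ∀ u u' : UC, (∀ e, e ∈ Ed R' ∨ e ∉ Ed Λ → (e ∈ u.b ↔ e ∈ u'.b)) → B u → B u')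
    (h₁ : ∀ u ∈ Om q (S.lc Λ u₀), c * Z1 β q (S.lc R u) ≤ Z β q (S.lc R u) fun u' => ind (A u'))
    (h₂ : ∀ u ∈ Om q (S.lc Λ u₀),
      c * Z1 β q (S.lc R' u) ≤ Z β q (S.lc R' u) fun u' => ind (B u')) :
    c ^ 2 * Z1 β q (S.lc Λ u₀) ≤ Z β q (S.lc Λ u₀) fun u => ind (A u ∧ B u) := by
  have hS' : LG q (S.lc Λ u₀) := hS.lc hΛ h₀
  have hdis : ∀ e, e ∈ Ed R' ∨ e ∉ Ed Λ → e ∉ Ed R := by
    intro e he hR0
    rcases he with he | he
    · obtain ⟨x, y, rfl, hxy, hx⟩ := mem_Ed'.1 hR0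
      rcases (mem_Ed.1 he).2 with h | h
      · have h1 := hd x hx x h
        rw [dd_eq_zero.2 rfl] at h1
        omega
      · have h1 := hd x hx y h
        rw [hxy.dd] at h1
        omega
    · exact he (Ed_mono hR hR0)
  have k1 : Z β q (S.lc Λ u₀) (fun u => c * ind (B u)) ≤
      Z β q (S.lc Λ u₀) fun u => ind (A u ∧ B u) := by
    refine dlr hβ hS'.grp.a01 (lc_in (Λ := R) hS'.ed hR) fun u hu _ => ?_
    have e : (S.lc Λ u₀).cond R (Ed R) u = S.lc R u := lc_lc hS.ed hΛ hR hu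
    rw [e]
    have hc' : ∀ u' ∈ Om q (S.lc R u), B u' ↔ B u := fun u' hu' =>
      ⟨hB u' u fun e he => (mem_Om_lc.1 hu').2.2.2 e (hdis e he),
        hB u u' fun e he => ((mem_Om_lc.1 hu').2.2.2 e (hdis e he)).symm⟩
    by_cases hu0 : B u
    · rw [Z_congr (g := fun _ => c) fun u' hu' _ => by rw [ind_pos ((hc' u' hu').2 hu0), mul_one],
        Z_congr (f := fun u => ind (A u ∧ B u)) (g := fun u' => ind (A u')) fun u' hu' _ => by
          rw [ind_and, ind_pos ((hc' u' hu').2 hu0), mul_one], Z_const]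
      exact h₁ u hu
    · refine le_of_eq (Z_congr fun u' hu' _ => ?_)
      rw [ind_and, ind_neg fun h => hu0 ((hc' u' hu').1 h), mul_zero, mul_zero]
  have k2 : Z β q (S.lc Λ u₀) (fun _ => c) ≤ Z β q (S.lc Λ u₀) fun u => ind (B u) := by
    refine dlr hβ hS'.grp.a01 (lc_in (Λ := R') hS'.ed hR') fun u hu _ => ?_
    have e : (S.lc Λ u₀).cond R' (Ed R') u = S.lc R' u := lc_lc hS.ed hΛ hR' hu
    rw [e, Z_const]
    exact h₂ u hu
  rw [Z_mul] at k1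
  rw [Z_const] at k2
  calc c ^ 2 * Z1 β q (S.lc Λ u₀) = c * (c * Z1 β q (S.lc Λ u₀)) := by ring
    _ ≤ _ := (mul_le_mul_of_nonneg_left k2 hc).trans k1

end

end Pool.Agent.XYU

end

section

open Finset Real Relation

namespace Pool.Agent.XYU

open Classical

noncomputable section

variable {β : ℝ} {q : ℕ} {S : Sys} {κ : Type} {s : Finset κ} {Λ : Finset V} {P : κ → Set V}
  {fs : κ → Finset (V × Fin 4)} {pp : κ → Par} {ε : κ → ZMod 2} {h : ℤ}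

lemma gc_cg (β : ℝ) (D ϑ : ℕ) : 0 ≤ cg β D ϑ := by
  unfold cg c0 cf
  positivity

theorem glue2 (hβ : 0 ≤ β) (hS : LG q S) (hL : Lay s Λ P fs pp) (hΛ : Λ ⊆ S.L)
    (hI : Ins s fs pp S.L) {c₀ : V} {D ϑ : ℕ} (hD : Λ ⊆ bx c₀ (D * h))
    (hn : ∑ i ∈ s, #(fs i) ≤ 500) (hl : ∀ i ∈ s, (pp i).l ≤ ϑ * (pp i).g) {u₀ : UC}
    (h₀ : u₀ ∈ Om q S) (σ τ : κ → Fld) (hσ : ∀ i ∈ s, cpl (σ i) u₀.w (P i))
    (hτ : ∀ i ∈ s, cpl (τ i) u₀.b (P i)) (n : κ → V × Fin 4 → ℤ)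
    (f g A : κ → V × Fin 4 → ℤ → ℝ)
    (hA : ∀ i ∈ s, ∀ e ∈ fs i, EA β q (pp i) (u₀.pull (fr e.1 e.2)) (fun v => σ i (fr e.1 e.2 v))
      (fun v => τ i (fr e.1 e.2 v)) (n i e) (f i e) (g i e) (A i e))
    (h2 : 2 ≤ h) (hg : ∀ i ∈ s, 2 * h ≤ (pp i).g) (Θ : V → ℝ)
    (hΘ : ∀ i ∈ s, ∀ e ∈ fs i, ∀ t y, 0 ≤ t → t ≤ (pp i).l → -(pp i).W ≤ y → y ≤ 0 →
      ∃ m : ℤ, Θ (fr e.1 e.2 (t, y)) = chi (ε i) * A i e t + 2 * π * m)
    (hp : ∀ x ∈ Dom s Λ fs pp, ∀ y ∈ Dom s Λ fs pp, dd x y ≤ 4 * h →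
      ∃ m : ℤ, |Θ x - Θ y - 2 * π * m| ≤ 1 / 25) :
    cg β D ϑ ^ 2 * Z1 β q (S.lc Λ u₀) ≤ Z β q (S.lc Λ u₀) fun u =>
      ind (Lab s P fs pp σ (fun _ => 0) u.w ∧ Lab s P fs pp τ ε u.b) := by
  obtain ⟨hC, hC'⟩ := col_of (ε := ε) hL (fun _ e => u₀.pull (fr e.1 e.2))
    (fun i e v => σ i (fr e.1 e.2 v)) (fun i e v => τ i (fr e.1 e.2 v)) n f g A hA h2 hg Θ hΘ hp
  obtain ⟨R, hR, r1, A₁, -, r3, r4⟩ := glue1 hβ hS hL hC hΛ hI hD hn hl h₀ σ hσ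
    fun i hi e he => (hA i hi e he).red
  obtain ⟨R', hR', s1, B₁, s2, s3, s4⟩ := glue1 (S := S.sw) (u₀ := u₀.sw) hβ hS.sw hL hC' hΛ hI hD
    hn hl (Om_sw.2 h₀) τ hτ fun i hi e he => (hA i hi e he).blue
  have hd : ∀ x ∈ R, ∀ y ∈ R', 1 < dd x y := fun x hx y hy => by
    by_contra hxy
    have k1 := hC.lip x (Or.inl (hR hx)) y (Or.inl (hR' hy)) (by omega)
    have k2 := abs_le.1 (r1 x hx)
    have k3 := abs_le.1 (s1 y hy)
    have k4 := abs_le.1 k1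
    have k5 := sin_sq_add_cos_sq (Θ y)
    have k6 : cos (Θ y) ^ 2 ≤ (16 / 25) ^ 2 := sq_le_sq' (by linarith) (by linarith)
    have k7 : sin (Θ y) ^ 2 ≤ (3 / 5) ^ 2 := sq_le_sq' (by linarith) (by linarith)
    norm_num at k6 k7
    linarith
  have hc : 0 ≤ cg β D ϑ := gc_cg β D ϑ
  have h3 := two_col (B := fun u => B₁ u.sw) hβ hS hΛ h₀ hR hR' hd hc
    (fun u u' hu => s2 u.sw u'.sw hu) r3 fun u hu => by
      have := s3 u.sw (by rw [← lc_sw]; exact Om_sw.2 hu)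
      rwa [← lc_sw, Z_sw, ba_Z1_sw] at this
  refine h3.trans (Z_mono hβ (hS.lc hΛ h₀).grp.a01 fun u hu _ => ind_mono fun k => ?_)
  exact ⟨r4 u hu k.1, s4 u.sw (by rw [← lc_sw]; exact Om_sw.2 hu) k.2⟩

end

end Pool.Agent.XYU

end

section

open Finset Real Relation

namespace Pool.Agent.XYU

open Classical

noncomputable section

/-! The gluing theorem.

The family is indexed by `Option κ` (`none` is the outside of the large square), with index set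
`Finset.insertNone s`.
`lay_plc`: `geo_in`, `geo_out`, coordinates. `ins_plc`, `dom_plc`, `far_out`: coordinates with
`mem_FI`, `mem_FO` (a boundary line of a small rectangle does not meet the open interior of any
small rectangle; `p.W ≤ p'.W`).
`theta_plc`: `ra_in` for every `i` (choose), `ra_out`, `RA.mono` (`6 / p'.g ≤ 6 / p.g`), and `phi`
with `D = 3 p'.l ≤ ϑ p.g`, `m i = sz (ε i) * ∑ nn`, `ν = 480 ϑ` (`|nn e| ≤ ϑ` since
`|nn e| * g ≤ l ≤ 3 p'.l ≤ ϑ g`, at most 12 edges, at most 40 rectangles); with `16 g ≤ W` and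
`1 ≤ ϑ` the constant of `phi` is at most `1000 ϑ / g`, and `4 h * 1000 ϑ / g ≤ 1 / 25`;
`4 h ≤ W`.
`glue`: `g₀ = 2 * 10 ^ 5 * ϑ + 1`, `h = p.g / (10 ^ 5 * ϑ)`, `D = 2 * 10 ^ 5 * ϑ ^ 2`,
`c = cg β D ϑ ^ 2` (`1 ≤ ϑ` follows from `3 p'.l ≤ ϑ p.g`). Choose the data from `Glu`, `GluO`,
`EC` (`EA.bound`, and the fields of `EA` give `Ang`), apply `glue2` with `S = G0 L a`, centre `o'`,
and finally `Lab → Ext`: off `bx 0 L` a site lies in the outer piece, far from its edges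
(`far_out`); edges of `Ed` are lattice edges (`mem_Ed`). -/

variable {β : ℝ} {q : ℕ} {κ : Type} {s : Finset κ} {p p' : Par} {o' : V} {o : κ → V}
  {α γ : κ → ℕ} {L : ℤ}

/-- the pieces -/
def oP (l l' : ℤ) (o' : V) (o : κ → V) (α γ : κ → ℕ) : Option κ → Set V
  | none => {v | v ∉ Qo l' o'}
  | some i => Qr l (o i) (α i) (γ i)

/-- their edges -/
def oF (l l' : ℤ) (o' : V) (o : κ → V) (α γ : κ → ℕ) : Option κ → Finset (V × Fin 4)
  | none => FO l' o'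
  | some i => FI l (o i) (α i) (γ i)

def oq {X : Type} (x' : X) (x : κ → X) : Option κ → X
  | none => x'
  | some i => x i

lemma gf1_mul {l : ℤ} (hl : 0 ≤ l) {a n : ℕ} (h : a < n) : 0 ≤ l * a ∧ l * a + l ≤ l * n := by
  have h1 : (a : ℤ) + 1 ≤ n := by exact_mod_cast h
  exact ⟨mul_nonneg hl (Int.natCast_nonneg a), by nlinarith [mul_le_mul_of_nonneg_left h1 hl]⟩

lemma gf1_FI {l : ℤ} {c : V} {a b : ℕ} {e : V × Fin 4} (hl : 0 ≤ l) (he : e ∈ FI l c a b)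
    {v x : V} (h0 : 0 ≤ v.1) (h1 : v.1 ≤ l) (hx : x = fr e.1 e.2 v) :
    (c.1 ≤ x.1 ∧ x.1 ≤ c.1 + l * a ∧ (x.2 = c.2 + v.2 ∨ x.2 = c.2 + l * b - v.2)) ∨
    (c.2 ≤ x.2 ∧ x.2 ≤ c.2 + l * b ∧ (x.1 = c.1 + v.2 ∨ x.1 = c.1 + l * a - v.2)) := by
  rcases mem_FI.1 he with ⟨i, hi, rfl⟩ | ⟨i, hi, rfl⟩ | ⟨i, hi, rfl⟩ | ⟨i, hi, rfl⟩ <;>
  · have h2 := gf1_mul hl hi
    have h3 : l * ((i : ℤ) + 1) = l * i + l := by ring
    subst hx
    simp [fr]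
    omega

lemma gf1_FO {l : ℤ} {c : V} {e : V × Fin 4} (hl : 0 ≤ l) (he : e ∈ FO l c)
    {v x : V} (h0 : 0 ≤ v.1) (h1 : v.1 ≤ l) (hx : x = fr e.1 e.2 v) :
    (c.1 ≤ x.1 ∧ x.1 ≤ c.1 + l * 3 ∧ (x.2 = c.2 - v.2 ∨ x.2 = c.2 + l * 3 + v.2)) ∨
    (c.2 ≤ x.2 ∧ x.2 ≤ c.2 + l * 3 ∧ (x.1 = c.1 - v.2 ∨ x.1 = c.1 + l * 3 + v.2)) := by
  rcases mem_FO.1 he with ⟨i, hi, rfl⟩ | ⟨i, hi, rfl⟩ | ⟨i, hi, rfl⟩ | ⟨i, hi, rfl⟩ <;>
  · have h2 := gf1_mul hl hi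
    have h3 : l * ((i : ℤ) + 1) = l * i + l := by ring
    subst hx
    simp [fr]
    omega

lemma gf1_Qr {l : ℤ} {c x : V} {a b : ℕ} : x ∈ Qr l c a b ↔
    c.1 ≤ x.1 ∧ x.1 ≤ c.1 + l * a ∧ c.2 ≤ x.2 ∧ x.2 ≤ c.2 + l * b := mem_rect

lemma gf1_Qo {l : ℤ} {c x : V} : x ∈ Qo l c ↔
    c.1 + 1 ≤ x.1 ∧ x.1 ≤ c.1 + l * 3 - 1 ∧ c.2 + 1 ≤ x.2 ∧ x.2 ≤ c.2 + l * 3 - 1 := mem_rect

lemma gf1_pos (hp : p.Ok) : 0 < p.W ∧ 0 < p.l := by
  have h1 := hp.g1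
  have h2 := hp.gW
  have h3 := hp.Wl
  omega

lemma lay_plc (h : Plc p p' o' s o α γ) : Lay (insertNone s) (Gap p.l p'.l o' s o α γ)
    (oP p.l p'.l o' o α γ) (oF p.l p'.l o' o α γ) (oq p' fun _ => p) := by
  have hW := gf1_pos h.ok
  have hW' := gf1_pos h.ok'
  have hWW := h.WW
  refine ⟨fun x => ?_, fun i hi j hj hij x hx y hy => ?_, fun i hi => ?_, fun i hi => ?_⟩
  · rw [Gap, mem_filter]
    constructor
    · rintro ⟨h1, h2⟩ i hi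
      cases i with
      | none => exact fun h3 => h3 h1
      | some i => exact h2 i (by simpa using hi)
    · intro h1
      exact ⟨not_not.1 (h1 none none_mem_insertNone),
        fun i hi => h1 (some i) (some_mem_insertNone.2 hi)⟩
  · cases i with
    | none =>
      cases j with
      | none => exact absurd rfl hij
      | some j =>
        have h1 := h.ins j (some_mem_insertNone.1 hj)
        have h2 : ¬_ := fun h3 => hx (gf1_Qo.2 h3)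
        have h3 := gf1_Qr.1 hy
        show p'.W < dd x y
        unfold dd
        omega
    | some i =>
      cases j with
      | none =>
        have h1 := h.ins i (some_mem_insertNone.1 hi)
        have h2 : ¬_ := fun h3 => hy (gf1_Qo.2 h3)
        have h3 := gf1_Qr.1 hx
        show p.W < dd x y
        unfold dd
        omega
      | some j =>
        have h1 := h.row i (some_mem_insertNone.1 hi) j (some_mem_insertNone.1 hj)
          fun e => hij (congrArg some e)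
        have h2 := gf1_Qr.1 hx
        have h3 := gf1_Qr.1 hy
        show p.W < dd x y
        unfold dd
        omega
  · cases i with
    | none => exact h.ok'
    | some i => exact h.ok
  · cases i with
    | none => exact geo_out h.ok'
    | some i =>
      have h1 := h.siz i (some_mem_insertNone.1 hi)
      exact geo_in h.ok ⟨h1.1, h1.2.1⟩ h1.2.2

lemma ins_plc (h : Plc p p' o' s o α γ)
    (hL : ∀ v : V, o'.1 - 2 * p'.W ≤ v.1 → v.1 ≤ o'.1 + p'.l * 3 + 2 * p'.W →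
      o'.2 - 2 * p'.W ≤ v.2 → v.2 ≤ o'.2 + p'.l * 3 + 2 * p'.W → v ∈ bx 0 L) :
    Ins (insertNone s) (oF p.l p'.l o' o α γ) (oq p' fun _ => p) (bx 0 L) ∧
      Gap p.l p'.l o' s o α γ ⊆ bx 0 L ∧ Gap p.l p'.l o' s o α γ ⊆ bx o' (p'.l * 3) := by
  have hW := gf1_pos h.ok
  have hW' := gf1_pos h.ok'
  have hWW := h.WW
  refine ⟨fun i hi e he v h0 h1 h2 => ?_, fun x hx => ?_, fun x hx => ?_⟩
  · have h3 := abs_le.1 h2
    cases i with
    | none =>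
      have h4 := gf1_FO hW'.2.le he h0 h1 rfl
      have h5 : -p'.W ≤ v.2 ∧ v.2 ≤ p'.W := h3
      apply hL <;> omega
    | some i =>
      have h4 := gf1_FI hW.2.le he h0 h1 rfl
      have h5 : -p.W ≤ v.2 ∧ v.2 ≤ p.W := h3
      have h6 := h.ins i (some_mem_insertNone.1 hi)
      have h7 : 0 ≤ p.l * α i := mul_nonneg hW.2.le (Int.natCast_nonneg _)
      have h8 : 0 ≤ p.l * γ i := mul_nonneg hW.2.le (Int.natCast_nonneg _)
      apply hL <;> omega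
  · have h1 := gf1_Qo.1 (mem_filter.1 hx).1
    apply hL <;> omega
  · have h1 := gf1_Qo.1 (mem_filter.1 hx).1
    rw [bx, mem_rect]
    omega

lemma far_out (hp : p'.Ok)
    (hL : ∀ v : V, o'.1 - 2 * p'.W ≤ v.1 → v.1 ≤ o'.1 + p'.l * 3 + 2 * p'.W →
      o'.2 - 2 * p'.W ≤ v.2 → v.2 ≤ o'.2 + p'.l * 3 + 2 * p'.W → v ∈ bx 0 L) {x : V}
    (hx : x ∉ bx 0 L) : x ∉ Qo p'.l o' ∧ ∀ e ∈ FO p'.l o', ∀ t, 0 ≤ t → t ≤ p'.l →
      2 * p'.W < dd x (fr e.1 e.2 (t, 0)) := by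
  have hW := gf1_pos hp
  have h1 : ¬(o'.1 - 2 * p'.W ≤ x.1 ∧ x.1 ≤ o'.1 + p'.l * 3 + 2 * p'.W ∧
      o'.2 - 2 * p'.W ≤ x.2 ∧ x.2 ≤ o'.2 + p'.l * 3 + 2 * p'.W) :=
    fun h => hx (hL x h.1 h.2.1 h.2.2.1 h.2.2.2)
  refine ⟨fun h => ?_, fun e he t h2 h3 => ?_⟩
  · have h2 := gf1_Qo.1 h
    omega
  · have h4 := gf1_FO (v := (t, 0)) hW.2.le he h2 h3 rfl
    unfold dd
    simp only at h4
    omega

lemma dom_plc (h : Plc p p' o' s o α γ) {x : V} (hx : x ∈ Dom (insertNone s)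
    (Gap p.l p'.l o' s o α γ) (oF p.l p'.l o' o α γ) (oq p' fun _ => p)) {i : κ} (hi : i ∈ s) :
    x ∉ rect ((o i).1 + 1) ((o i).1 + p.l * α i - 1) ((o i).2 + 1) ((o i).2 + p.l * γ i - 1) := by
  have hW := gf1_pos h.ok
  have hW' := gf1_pos h.ok'
  rw [mem_rect]
  intro h1
  rcases hx with hx | ⟨j, hj, e, he, t, h2, h3, hx⟩
  · exact (mem_filter.1 hx).2 i hi (gf1_Qr.2 (by omega))
  · cases j with
    | none =>
      have h4 := gf1_FO (v := (t, 0)) hW'.2.le he h2 h3 hx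
      have h5 := h.ins i hi
      simp only at h4
      omega
    | some j =>
      have h4 := gf1_FI (v := (t, 0)) hW.2.le he h2 h3 hx
      simp only at h4
      by_cases hij : i = j
      · subst hij
        omega
      · have h5 := h.row i hi j (some_mem_insertNone.1 hj) hij
        have h8 : 0 ≤ p.l * γ j := mul_nonneg hW.2.le (Int.natCast_nonneg _)
        omega

end

end Pool.Agent.XYU

end

section

open Finset Real Relation

namespace Pool.Agent.XYU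

open Classical

noncomputable section

variable {β : ℝ} {q : ℕ} {κ : Type} {s : Finset κ} {p p' : Par} {o' : V} {o : κ → V}
  {α γ : κ → ℕ} {L : ℤ}

lemma gf2_one (h : Plc p p' o' s o α γ) {ϑ : ℕ} (hϑ : p'.l * 3 ≤ ϑ * p.g) : (1 : ℤ) ≤ ϑ := by
  have hg1' := h.ok'.g1
  have hgW' := h.ok'.gW
  have hWl' := h.ok'.Wl
  rcases Nat.eq_zero_or_pos ϑ with h0 | h0
  · subst h0
    simp only [Nat.cast_zero, zero_mul] at hϑ
    omega
  · exact_mod_cast h0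

lemma gf2_len (h : Plc p p' o' s o α γ) {i : κ} (hi : i ∈ s) : p.l ≤ p'.l * 3 := by
  have hg1 := h.ok.g1
  have hgW := h.ok.gW
  have hWl := h.ok.Wl
  have hWW := h.WW
  obtain ⟨a1, a2, -, -⟩ := h.ins i hi
  have a3 : (1 : ℤ) ≤ α i := by exact_mod_cast (h.siz i hi).1
  have a4 : p.l ≤ p.l * α i := le_mul_of_one_le_right (by omega) a3
  omega

lemma gf2_sum {A : Finset (V × Fin 4)} (hA : #A ≤ 12) (t : ZMod 2) (n : V × Fin 4 → ℤ) {ϑ : ℕ}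
    (hb : ∀ e ∈ A, |n e| ≤ ϑ) : |((sz t * ∑ e ∈ A, n e : ℤ) : ℝ)| ≤ 12 * ϑ := by
  have hs : |sz t| = 1 := by
    unfold sz
    split_ifs <;> simp
  have hc : (#A : ℤ) ≤ 12 := by exact_mod_cast hA
  have : |sz t * ∑ e ∈ A, n e| ≤ 12 * ϑ := by
    rw [abs_mul, hs, one_mul]
    refine (abs_sum_le_sum_abs _ _).trans ((sum_le_card_nsmul _ _ _ hb).trans ?_)
    rw [nsmul_eq_mul]
    exact mul_le_mul_of_nonneg_right hc (Int.natCast_nonneg _)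
  exact_mod_cast this

lemma gf2_tot (hs : #s ≤ 40) (m : κ → ℝ) {ϑ : ℕ} (hm : ∀ i ∈ s, m i ≤ 12 * ϑ) :
    ∑ i ∈ s, m i ≤ 480 * ϑ := by
  refine (sum_le_card_nsmul _ _ _ hm).trans ?_
  rw [nsmul_eq_mul]
  have hc : (#s : ℝ) ≤ 40 := by exact_mod_cast hs
  calc (#s : ℝ) * (12 * ϑ) ≤ 40 * (12 * ϑ) := mul_le_mul_of_nonneg_right hc (by positivity)
    _ = 480 * ϑ := by ring

lemma gf2_num {g W D t d : ℤ} {ϑ : ℕ} (hg : 1 ≤ g) (hW : 16 * g ≤ W) (hϑ : (1 : ℤ) ≤ ϑ)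
    (hD : D ≤ ϑ * g) (ht : 10 ^ 5 * ϑ * t ≤ g) (hd : 0 ≤ d) (hd' : d ≤ 4 * t) : d ≤ W ∧
    (6 / (g : ℝ) + (7 + 8 * (6 / (g : ℝ)) * (D : ℝ) + 26 * (480 * ϑ)) / W) * d ≤ 1 / 25 := by
  have ht0 : 0 ≤ t := by omega
  have ht1 : t ≤ g := le_trans (le_mul_of_one_le_left ht0 (by omega)) ht
  refine ⟨by omega, ?_⟩
  have hgR : (1 : ℝ) ≤ g := by exact_mod_cast hg
  have hϑR : (1 : ℝ) ≤ ϑ := by exact_mod_cast hϑ
  have hWR : 16 * (g : ℝ) ≤ W := by exact_mod_cast hW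
  have hD' : (D : ℝ) ≤ ϑ * g := by exact_mod_cast hD
  have hg0 : (0 : ℝ) < g := by linarith
  have b1 : 8 * (6 / (g : ℝ)) * (D : ℝ) ≤ 48 * ϑ := by
    calc 8 * (6 / (g : ℝ)) * (D : ℝ) ≤ 8 * (6 / (g : ℝ)) * (ϑ * g) := by gcongr
      _ = 48 * ϑ := by
          field_simp
          ring
  have b2 : (7 + 8 * (6 / (g : ℝ)) * (D : ℝ) + 26 * (480 * ϑ)) / W ≤ (12535 * ϑ) / (16 * g) :=
    div_le_div₀ (by positivity) (by linarith only [b1, hϑR]) (by positivity) hWR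
  have b3 : 6 / (g : ℝ) + (12535 * ϑ) / (16 * g) ≤ 1000 * ϑ / g := by
    have e1 : 6 / (g : ℝ) + (12535 * ϑ) / (16 * g) = (6 + 12535 / 16 * ϑ) / g := by
      field_simp
    rw [e1]
    exact div_le_div_of_nonneg_right (by linarith only [hϑR]) hg0.le
  have b4 : (d : ℝ) ≤ 4 * t := by exact_mod_cast hd'
  have b5 : (10 : ℝ) ^ 5 * ϑ * t ≤ g := by exact_mod_cast ht
  have b6 : (0 : ℝ) ≤ d := by exact_mod_cast hd
  calc _ ≤ 1000 * ϑ / g * (d : ℝ) := mul_le_mul_of_nonneg_right (by linarith only [b2, b3]) b6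
    _ ≤ 1000 * ϑ / g * (4 * t) := by gcongr
    _ ≤ 1 / 25 := by
        rw [div_mul_eq_mul_div, div_le_iff₀ hg0]
        linarith only [b5]

lemma gf2_in (h : Plc p p' o' s o α γ) {i : κ} (hi : i ∈ s) :
    (rc p'.l o' 3 3).x0 + 8 * p'.W ≤ (rc p.l (o i) (α i) (γ i)).x0 ∧
      (rc p.l (o i) (α i) (γ i)).x1 + 8 * p'.W ≤ (rc p'.l o' 3 3).x1 ∧
      (rc p'.l o' 3 3).y0 + 8 * p'.W ≤ (rc p.l (o i) (α i) (γ i)).y0 ∧
      (rc p.l (o i) (α i) (γ i)).y1 + 8 * p'.W ≤ (rc p'.l o' 3 3).y1 := by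
  simpa [rc] using h.ins i hi

lemma gf2_rc (l : ℤ) (c : V) :
    (rc l c 3 3).x1 - (rc l c 3 3).x0 ≤ l * 3 ∧ (rc l c 3 3).y1 - (rc l c 3 3).y0 ≤ l * 3 := by
  simp [rc]

lemma gf2_g (h : Plc p p' o' s o α γ) : 1 ≤ p.W ∧ 6 / (p'.g : ℝ) ≤ 6 / (p.g : ℝ) := by
  have hg1 := h.ok.g1
  have hgW := h.ok.gW
  have hgR : (1 : ℝ) ≤ p.g := by exact_mod_cast hg1
  have : (p.g : ℝ) ≤ p'.g := by exact_mod_cast h.gg
  exact ⟨by omega, div_le_div_of_nonneg_left (by norm_num) (by linarith) this⟩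

lemma theta_plc (h : Plc p p' o' s o α γ) {ϑ : ℕ} (hϑ : p'.l * 3 ≤ ϑ * p.g) {t : ℤ}
    (ht : 10 ^ 5 * ϑ * t ≤ p.g) (ε : κ → ZMod 2) (A : Option κ → V × Fin 4 → ℤ → ℝ)
    (nn : Option κ → V × Fin 4 → ℤ)
    (hA : ∀ i ∈ insertNone s, ∀ e ∈ oF p.l p'.l o' o α γ i,
      Ang (oq p' (fun _ => p) i) (A i e) (nn i e))
    (hb : ∀ i ∈ s, ∀ e ∈ FI p.l (o i) (α i) (γ i), |nn (some i) e| * p.g ≤ p.l)
    (hn : ∑ e ∈ FO p'.l o', nn none e +
      ∑ i ∈ s, sz (ε i) * ∑ e ∈ FI p.l (o i) (α i) (γ i), nn (some i) e = 0) :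
    ∃ Θ : V → ℝ, (∀ i ∈ insertNone s, ∀ e ∈ oF p.l p'.l o' o α γ i, ∀ x y, 0 ≤ x →
      x ≤ (oq p' (fun _ => p) i).l → -(oq p' (fun _ => p) i).W ≤ y → y ≤ 0 →
        ∃ m : ℤ, Θ (fr e.1 e.2 (x, y)) = chi (oq 0 ε i) * A i e x + 2 * π * m) ∧
      ∀ x ∈ Dom (insertNone s) (Gap p.l p'.l o' s o α γ) (oF p.l p'.l o' o α γ)
        (oq p' fun _ => p), ∀ y ∈ Dom (insertNone s) (Gap p.l p'.l o' s o α γ)
          (oF p.l p'.l o' o α γ) (oq p' fun _ => p), dd x y ≤ 4 * t →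
            ∃ m : ℤ, |Θ x - Θ y - 2 * π * m| ≤ 1 / 25 := by
  have hin : ∀ i, i ∈ s → ∃ θ, RA (rc p.l (o i) (α i) (γ i)) p.W (6 / p.g)
      (sz (ε i) * ∑ e ∈ FI p.l (o i) (α i) (γ i), nn (some i) e) θ ∧
      ∀ Θ, Fit (rc p.l (o i) (α i) (γ i)) p.W θ Θ → ∀ e ∈ FI p.l (o i) (α i) (γ i), ∀ t y,
        0 ≤ t → t ≤ p.l → -p.W ≤ y → y ≤ 0 →
          ∃ m : ℤ, Θ (fr e.1 e.2 (t, y)) = chi (ε i) * A (some i) e t + 2 * π * m :=
    fun i hi => ra_in h.ok ⟨(h.siz i hi).1, (h.siz i hi).2.1⟩ (h.siz i hi).2.2 (ε i)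
      (A (some i)) (nn (some i)) fun e he => hA (some i) (some_mem_insertNone.2 hi) e he
  choose! θ hθ hfit using hin
  obtain ⟨θ₀, hθ₀, hfit₀⟩ := ra_out h.ok' (A none) (nn none)
    fun e he => hA none none_mem_insertNone e he
  have hO : RA (rc p'.l o' 3 3) p'.W (6 / p.g)
      (∑ i ∈ s, sz (ε i) * ∑ e ∈ FI p.l (o i) (α i) (γ i), nn (some i) e) θ₀ := by
    rw [eq_neg_of_add_eq_zero_right hn]
    exact hθ₀.mono (gf2_g h).2
  have hν : ∑ i ∈ s, |((sz (ε i) * ∑ e ∈ FI p.l (o i) (α i) (γ i), nn (some i) e : ℤ) : ℝ)| ≤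
      480 * ϑ :=
    gf2_tot h.card _ fun i hi => gf2_sum (card_FI (h.siz i hi).2.1 (h.siz i hi).2.2.2) _ _
      fun e he => le_of_mul_le_mul_right ((hb i hi e he).trans ((gf2_len h hi).trans hϑ))
        (lt_of_lt_of_le zero_lt_one h.ok.g1)
  obtain ⟨Θ, h1, h2, h3⟩ := phi (D := p'.l * 3) s (fun i => rc p.l (o i) (α i) (γ i))
    (fun i => sz (ε i) * ∑ e ∈ FI p.l (o i) (α i) (γ i), nn (some i) e) θ (gf2_g h).1 h.WW hO hθ
    (gf2_rc _ _).1 (gf2_rc _ _).2 hν (fun i hi => gf2_in h hi)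
    fun i hi j hj hij => h.row i hi j hj hij
  refine ⟨Θ, ?_, ?_⟩
  · intro i hi e he x y hx0 hx1 hy0 hy1
    cases i with
    | none =>
      obtain ⟨m, hm⟩ := hfit₀ Θ h1 e he x y hx0 hx1 hy0 hy1
      refine ⟨m, hm.trans ?_⟩
      have : chi (oq 0 ε none) = 1 := if_pos rfl
      rw [this, one_mul]
    | some i =>
      have hi' : i ∈ s := some_mem_insertNone.1 hi
      exact hfit i hi' Θ (h2 i hi') e he x y hx0 hx1 hy0 hy1
  · intro x hx y hy hxy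
    obtain ⟨b1, b2⟩ := gf2_num h.ok.g1 h.ok.gW (gf2_one h hϑ) hϑ ht (dd_nonneg x y) hxy
    obtain ⟨k, hk⟩ := h3 x y (fun i hi => ⟨dom_plc h hx hi, dom_plc h hy hi⟩) b1
    exact ⟨k, hk.trans b2⟩

end

end Pool.Agent.XYU

end

section

open Finset Real Relation

namespace Pool.Agent.XYU

open Classical

noncomputable section

variable {β : ℝ} {q : ℕ} {κ : Type} {s : Finset κ} {p p' : Par} {o' : V} {o : κ → V}
  {α γ : κ → ℕ} {L : ℤ}

lemma gf_ext {P : Option κ → Set V} {fs : Option κ → Finset (V × Fin 4)} {pp : Option κ → Par}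
    {σ : Option κ → Fld} {ε : Option κ → ZMod 2} {w : Es} {σ₀ : Fld} (hε : ε none = 0)
    (h₀ : ∀ v ∉ bx 0 L, σ none v = σ₀ v)
    (hf : ∀ x ∉ bx 0 L, x ∈ P none ∧ ∀ e ∈ fs none, ∀ t, 0 ≤ t → t ≤ (pp none).l →
      2 * (pp none).W < dd x (fr e.1 e.2 (t, 0)))
    (h : Lab (insertNone s) P fs pp σ ε w) : Ext (bx 0 L) (Ed (bx 0 L)) σ₀ w := by
  obtain ⟨σ', h1, h2⟩ := h
  refine ⟨σ', fun v hv => ?_, fun x y hxy => ?_⟩
  · rw [h2 none (by simp) v (hf v hv).1 (hf v hv).2, hε, add_zero, h₀ v hv]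
  · rw [Finset.mem_inter, mem_Ed] at hxy
    exact h1 x y trivial trivial hxy.2.1 hxy.1

lemma gf_num {ϑ : ℕ} {g l : ℤ} (hg : 2 * 10 ^ 5 * ϑ + 1 ≤ g) (hl : 0 < l) (h : l ≤ ϑ * g) :
    ∃ t : ℤ, 10 ^ 5 * ϑ * t ≤ g ∧ 2 ≤ t ∧ 2 * t ≤ g ∧ l ≤ ((2 * 10 ^ 5 * ϑ ^ 2 : ℕ) : ℤ) * t := by
  have h1 : (1 : ℤ) ≤ ϑ := by
    rcases Nat.eq_zero_or_pos ϑ with h0 | h0
    · subst h0
      simp at h
      omega
    · exact_mod_cast h0
  have hm : (0 : ℤ) < 10 ^ 5 * ϑ := by positivity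
  have a1 := Int.mul_ediv_add_emod g (10 ^ 5 * ϑ)
  have a2 := Int.emod_nonneg g hm.ne'
  have a3 := Int.emod_lt_of_pos g hm
  have a4 : 2 ≤ g / (10 ^ 5 * ϑ) := by
    rw [Int.le_ediv_iff_mul_le hm]
    linarith
  generalize g / (10 ^ 5 * ϑ) = t at a1 a4
  refine ⟨t, by linarith, a4, ?_, ?_⟩
  · nlinarith
  · have a5 : g ≤ 2 * (10 ^ 5 * ϑ * t) := by nlinarith
    have a6 : (ϑ : ℤ) * g ≤ ϑ * (2 * (10 ^ 5 * ϑ * t)) :=
      mul_le_mul_of_nonneg_left a5 (by linarith)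
    push_cast
    nlinarith

lemma gf_bx {c : V} {r r' : ℤ} (h : r ≤ r') : bx c r ⊆ bx c r' := by
  unfold bx rect
  refine Finset.Icc_subset_Icc ?_ ?_ <;> constructor <;> simp only <;> omega

theorem glue (hβ : 0 ≤ β) (ϑ : ℕ) : ∃ c > (0 : ℝ), ∃ g₀ : ℤ, ∀ (q : ℕ) (L : ℤ) (a : V → ℝ × ℝ)
    (σ₀ τ₀ : Fld) (p p' : Par) (o' : V) (s : Finset κ) (o : κ → V) (α γ : κ → ℕ)
    (ε : κ → ZMod 2) (n : κ → ℤ) (n' : ℤ) (u₀ : UC), LG q (G0 L a) → Plc p p' o' s o α γ →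
      g₀ ≤ p.g → p'.l * 3 ≤ ϑ * p.g →
      (∀ v : V, o'.1 - 2 * p'.W ≤ v.1 → v.1 ≤ o'.1 + p'.l * 3 + 2 * p'.W →
        o'.2 - 2 * p'.W ≤ v.2 → v.2 ≤ o'.2 + p'.l * 3 + 2 * p'.W → v ∈ bx 0 L) →
      u₀ ∈ Om q (G0 L a) → (∀ i ∈ s, Glu β q p (o i) (α i) (γ i) u₀ (n i)) →
      GluO β q p' o' L σ₀ τ₀ u₀ n' → n' + ∑ i ∈ s, sz (ε i) * n i = 0 →
      c * Z1 β q ((G0 L a).lc (Gap p.l p'.l o' s o α γ) u₀) ≤
        Z β q ((G0 L a).lc (Gap p.l p'.l o' s o α γ) u₀) fun u => ind (XT L σ₀ τ₀ u) := by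
  refine ⟨cg β (2 * 10 ^ 5 * ϑ ^ 2) ϑ ^ 2, ?_, 2 * 10 ^ 5 * ϑ + 1, ?_⟩
  · unfold cg c0 cf
    positivity
  intro q L a σ₀ τ₀ p p' o' s o α γ ε n n' u₀ hS hP hg hϑ hL h₀ hI hO hn
  have g1 := hP.ok.g1
  have g2 := hP.ok.gW
  have g3 := hP.ok.Wl
  have g1' := hP.ok'.g1
  have g2' := hP.ok'.gW
  have g3' := hP.ok'.Wl
  have gg := hP.gg
  obtain ⟨t, t1, t2, t3, t4⟩ := gf_num (l := p'.l * 3) hg (by omega) hϑ
  obtain ⟨σ', τ', nn', hb, hG', hs'⟩ := hO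
  choose! σ τ nn hG hs using hI
  have hE : ∀ i ∈ insertNone s, ∀ e ∈ oF p.l p'.l o' o α γ i,
      EC β q (oq p' (fun _ => p) i) (u₀.pull (fr e.1 e.2))
        (fun v => oq σ' σ i (fr e.1 e.2 v)) (fun v => oq τ' τ i (fr e.1 e.2 v))
        (oq nn' nn i e) := by
    rintro (_ | i) hi e he
    · exact hG'.2.2 e he
    · exact (hG i (by simpa using hi)).2.2 e he
  choose! f g A hA using hE
  have hok : ∀ i : Option κ, (oq p' (fun _ => p) i).Ok := by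
    rintro (_ | i)
    · exact hP.ok'
    · exact hP.ok
  obtain ⟨Θ, hΘ, hΘ'⟩ := theta_plc hP hϑ t1 ε A (oq nn' nn)
    (fun i hi e he => ⟨(hA i hi e he).lip, (hA i hi e he).lo, (hA i hi e he).hi⟩)
    (fun i hi e he => ((hA (some i) (by simpa using hi) e he).bound hP.ok).1)
    (by
      have : ∑ i ∈ s, sz (ε i) * ∑ e ∈ FI p.l (o i) (α i) (γ i), oq nn' nn (some i) e =
          ∑ i ∈ s, sz (ε i) * n i :=
        sum_congr rfl fun i hi => by rw [← hs i hi]; rfl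
      rw [this, ← hn, ← hs']
      rfl)
  obtain ⟨i1, i2, i3⟩ := ins_plc hP hL
  have hc : ∑ i ∈ insertNone s, #(oF p.l p'.l o' o α γ i) ≤ 500 := by
    rw [Finset.sum_insertNone]
    have b1 : #(oF p.l p'.l o' o α γ none) ≤ 12 := card_FO (l := p'.l) (o := o')
    have b2 : ∑ i ∈ s, #(oF p.l p'.l o' o α γ (some i)) ≤ #s • 12 :=
      sum_le_card_nsmul _ _ _ fun i hi =>
        card_FI (l := p.l) (o := o i) (α := α i) (γ := γ i) (hP.siz i hi).2.1 (hP.siz i hi).2.2.2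
    have b3 := hP.card
    rw [smul_eq_mul] at b2
    omega
  have hl : ∀ i ∈ insertNone s, (oq p' (fun _ => p) i).l ≤ ϑ * (oq p' (fun _ => p) i).g := by
    rintro (_ | i) hi
    · have : (ϑ : ℤ) * p.g ≤ ϑ * p'.g := mul_le_mul_of_nonneg_left gg (Int.natCast_nonneg ϑ)
      change p'.l ≤ ϑ * p'.g
      omega
    · have hi' : i ∈ s := by simpa using hi
      have b1 := hP.ins i hi'
      have b2 : (1 : ℤ) ≤ α i := by exact_mod_cast (hP.siz i hi').1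
      have b3 : p.l * 1 ≤ p.l * α i := mul_le_mul_of_nonneg_left b2 (by omega)
      change p.l ≤ ϑ * p.g
      omega
  have key := glue2 (ε := oq 0 ε) hβ hS (lay_plc hP) i2 i1 (i3.trans (gf_bx t4)) hc hl h₀
    (oq σ' σ) (oq τ' τ)
    (by
      rintro (_ | i) hi
      · exact hG'.1
      · exact (hG i (by simpa using hi)).1)
    (by
      rintro (_ | i) hi
      · exact hG'.2.1
      · exact (hG i (by simpa using hi)).2.1)
    (oq nn' nn) f g A hA t2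
    (by
      rintro (_ | i) _
      · change 2 * t ≤ p'.g
        omega
      · exact t3)
    Θ hΘ hΘ'
  refine key.trans (Z_mono hβ (hS.lc i2 h₀).grp.a01 fun u _ _ => ind_mono fun h => ⟨?_, ?_⟩)
  · exact gf_ext rfl (fun v hv => (hb v hv).1) (fun x hx => far_out hP.ok' hL hx) h.1
  · exact gf_ext rfl (fun v hv => (hb v hv).2) (fun x hx => far_out hP.ok' hL hx) h.2

end

end Pool.Agent.XYU

end

end

-- part MP_b591f0_mp.XY.C1
section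

section

open Finset Real Relation

namespace Pool.Agent.XYU

open Classical

noncomputable section

/-! Tightness of the number of labelled clusters, for every boundary condition.
`many_step`: off `Many L (2^k) K`, use `mge_cr` for the annuli `r = 2^(k-1-i)`, `i < T`,
`ub_prod` (regions `ann (r+1) (2r-1)`, supports `ann r (2r)`, `cr_dep`, `cr_ub`, `UB.sw` for the
blue colour) and `transfer`; `log (2^k + 2) ≤ k + 1`.
`tight`: `N = 2^n`, `A` a large constant (`c A ≥ 128 C + 16`, `A ≥ n₀`). Write `M` for `K + 1`.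
Start at `k = N` with `M = A N 2^(2N) > 8 (L + 1)` (`mge_card`: the event is empty). Phase one,
`i = 0, …, n`: `M_i = A N 2^(2^(n+1-i))`, `T = 1`, `M_(i+1)^2 = A N M_i`; it ends with `M = 2 A N`.
Phase two, `j = 0, …, n-1`: `M'_j = 2 A 2^(n-j)`, `T_j = 2^j / 16 + 1`; it ends with `M = 2 A`.
Every step fails with probability at most `2 exp (-N)`, and `k` decreases in total by at most
`2 (n+1) + N/16 + 2 n ≤ N / 2`. Finish with `mge_mono`. It is convenient to prove first an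
abstract lemma: for sequences `k i`, `M i`, `T i` with `k (i+1) + T i + 1 = k i` and
`C * M i * (k i + 1) + N ≤ c * M (i+1)^2 * T i`, the bound propagates by induction. -/

variable {β : ℝ}

lemma be1_pow {a b : ℕ} (h : a < b) : 2 * (2 : ℤ) ^ a ≤ 2 ^ b := by
  rw [← pow_succ']
  exact pow_le_pow_right₀ (by norm_num) h

lemma be1_ub (hβ : 0 ≤ β) : ∃ c > (0 : ℝ), ∃ n₀ : ℕ, ∀ (q k T n : ℕ), n₀ ≤ n →
    UB β q (bx 0 (2 ^ (k + T + 1))) (fun u => ∏ i ∈ range T, ind (Cr u.w (2 ^ (k + 1 + i)) n))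
      (exp (-(c * n ^ 2 * T))) := by
  obtain ⟨c, hc, n₀, h⟩ := cr_ub hβ
  refine ⟨c, hc, n₀, fun q k T n hn => ?_⟩
  have e : exp (-(c * n ^ 2 * T)) = ∏ _i ∈ range T, exp (-(c * n ^ 2)) := by
    rw [prod_const, card_range, ← exp_nat_mul]
    congr 1
    ring
  rw [e]
  refine ub_prod hβ (range T) (fun i => ann (2 ^ (k + 1 + i) + 1) (2 * 2 ^ (k + 1 + i) - 1))
    (fun i => ann (2 ^ (k + 1 + i)) (2 * 2 ^ (k + 1 + i)))
    (fun i u => ind (Cr u.w (2 ^ (k + 1 + i)) n)) _ (fun _ _ => (exp_pos _).le)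
    (fun _ _ _ => ind_nonneg _) (fun i hi v hv => ?_) (fun i _ u u' _ hw _ => ?_)
    (fun i _ j _ hij => ?_) fun i _ => h q _ n (one_le_pow₀ (by norm_num)) hn
  · have h1 := be1_pow (a := k + 1 + i) (b := k + T + 1) (by have := mem_range.1 hi; omega)
    rw [mem_ann] at hv
    rw [mem_bx0]
    omega
  · have : Cr u.w (2 ^ (k + 1 + i)) n ↔ Cr u'.w (2 ^ (k + 1 + i)) n := ⟨cr_dep hw, cr_dep hw.symm⟩
    simp only [this]
  · rw [disjoint_left]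
    intro v hv hv'
    rw [mem_ann] at hv hv'
    rcases lt_or_gt_of_ne hij with h1 | h1
    · have := be1_pow (a := k + 1 + j) (b := k + 1 + i) (by omega)
      omega
    · have := be1_pow (a := k + 1 + i) (b := k + 1 + j) (by omega)
      omega

lemma be1_log (m : ℕ) : log ((((2 : ℤ) ^ (m + 1) : ℤ) : ℝ) + 2) ≤ m + 2 := by
  have h1 : (((2 : ℤ) ^ (m + 1) : ℤ) : ℝ) + 2 ≤ 2 ^ (m + 2) := by
    push_cast
    have : (1 : ℝ) ≤ 2 ^ m := one_le_pow₀ (by norm_num)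
    rw [pow_succ, pow_succ, pow_succ]
    linarith
  have h2 : (2 : ℝ) ^ (m + 2) ≤ exp (m + 2) := by
    have h3 : (2 : ℝ) ≤ exp 1 := by linarith [add_one_le_exp (1 : ℝ)]
    calc (2 : ℝ) ^ (m + 2) ≤ exp 1 ^ (m + 2) := pow_le_pow_left₀ (by norm_num) h3 _
      _ = _ := by
        rw [← exp_nat_mul]
        push_cast
        rw [mul_one]
  exact (log_le_iff_le_exp (by positivity)).2 (h1.trans h2)

lemma be1_one {w : Es} {L : ℤ} {k T n : ℕ} (hL : 2 ^ (k + T + 1) ≤ L) (h : Mge w L (2 ^ k) n) :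
    ∏ i ∈ range T, ind (Cr w (2 ^ (k + 1 + i)) n) = 1 := by
  refine prod_eq_one fun i hi => ind_pos (mge_cr h ?_ ?_)
  · exact pow_lt_pow_right₀ (by norm_num) (by omega)
  · have h1 := be1_pow (a := k + 1 + i) (b := k + T + 1) (by have := mem_range.1 hi; omega)
    omega

lemma many_step (hβ : 0 ≤ β) : ∃ C ≥ (0 : ℝ), ∃ c > (0 : ℝ), ∃ n₀ : ℕ, ∀ (q : ℕ) (L : ℤ)
    (k T K K' : ℕ) (a : V → ℝ × ℝ) (σ τ : Fld), LG q (G0 L a) → 2 ^ (k + T + 1) ≤ L →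
      n₀ ≤ K' + 1 → Z β q (GS L a σ τ) (fun u => ind (Many L (2 ^ k) K' u)) ≤
        Z β q (GS L a σ τ) (fun u => ind (Many L (2 ^ (k + T + 1)) K u)) +
          2 * exp (C * (K + 1) * (k + T + 2) - c * (K' + 1) ^ 2 * T) * Z1 β q (GS L a σ τ) := by
  obtain ⟨C, hC, ht⟩ := transfer hβ
  obtain ⟨c, hc, n₀, hu⟩ := be1_ub hβ
  refine ⟨C, hC, c, hc, n₀, fun q L k T K K' a σ τ hS hL hK => ?_⟩
  have ha : A01 (GS L a σ τ).x.a := hS.grp.a01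
  have h0 : ∀ w : Es, 0 ≤ ∏ i ∈ range T, ind (Cr w (2 ^ (k + 1 + i)) (K' + 1)) := fun w =>
    prod_nonneg fun _ _ => ind_nonneg _
  have h1 : (1 : ℤ) ≤ 2 ^ (k + T + 1) := one_le_pow₀ (by norm_num)
  have hw := ht q L _ K a σ τ _ _ hS h1 hL (fun u => h0 u.w) (exp_pos _).le (hu q k T _ hK)
  have hb := ht q L _ K a σ τ _ _ hS h1 hL (fun u => h0 u.sw.w) (exp_pos _).le (hu q k T _ hK).sw
  have hZ := Z1_nonneg (q := q) hβ ha
  have he : exp (-(c * ((K' + 1 : ℕ) : ℝ) ^ 2 * T)) *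
      exp (C * (K + 1) * log ((((2 : ℤ) ^ (k + T + 1) : ℤ) : ℝ) + 2)) ≤
      exp (C * (K + 1) * (k + T + 2) - c * (K' + 1) ^ 2 * T) := by
    rw [← exp_add]
    refine exp_le_exp.2 ?_
    have h2 := mul_le_mul_of_nonneg_left (be1_log (k + T)) 
      (mul_nonneg hC (Nat.cast_add_one_pos K).le)
    push_cast at h2 ⊢
    linarith
  have hm := Z_mono (q := q) hβ ha (f := fun u => ind (Many L (2 ^ k) K' u))
    (g := fun u => ind (Many L (2 ^ (k + T + 1)) K u) +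
      ((∏ i ∈ range T, ind (Cr u.w (2 ^ (k + 1 + i)) (K' + 1))) *
        ind (¬ Many L (2 ^ (k + T + 1)) K u) +
      (∏ i ∈ range T, ind (Cr u.sw.w (2 ^ (k + 1 + i)) (K' + 1))) *
        ind (¬ Many L (2 ^ (k + T + 1)) K u))) fun u _ _ => by
    have a1 := h0 u.w
    have a2 := h0 u.sw.w
    by_cases hM : Many L (2 ^ (k + T + 1)) K u
    · rw [ind_pos hM, ind_neg (not_not.2 hM)]
      linarith [ind_le_one (Many L (2 ^ k) K' u)]
    · rw [ind_neg hM, ind_pos hM]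
      by_cases hM' : Many L (2 ^ k) K' u
      · rw [ind_pos hM']
        rcases hM' with h | h
        · rw [be1_one hL h]
          linarith
        · rw [show u.sw.w = u.b from rfl, be1_one hL h]
          linarith
      · rw [ind_neg hM']
        linarith
  rw [Z_add, Z_add] at hm
  have h3 := mul_le_mul_of_nonneg_right he hZ
  linarith

end

end Pool.Agent.XYU

end

section

open Finset Real Relation

namespace Pool.Agent.XYU

open Classical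

noncomputable section

variable {β : ℝ}

lemma be_num {C c : ℝ} (hC : 0 ≤ C) {A N i : ℕ} (hA : 1 ≤ A) (hN : 1 ≤ N)
    (h : 16 * (512 * C + 1) ≤ c * A) :
    C * (A * 256 ^ (i + 1) : ℕ) * (N + 1) + N ≤
      c * ((A * 256 ^ i : ℕ) : ℝ) ^ 2 * (N / (16 * 2 ^ i) + 1 : ℕ) := by
  have h1 : (N : ℝ) ≤ 16 * 2 ^ i * (N / (16 * 2 ^ i) + 1 : ℕ) := by
    have := Nat.lt_mul_div_succ N (show 0 < 16 * 2 ^ i from Nat.mul_pos (by norm_num) (Nat.pow_pos (by norm_num)))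
    exact_mod_cast this.le
  have h2 : (2 : ℝ) ^ i ≤ 256 ^ i := pow_le_pow_left₀ (by norm_num) (by norm_num) i
  have h3 : (1 : ℝ) ≤ 256 ^ i := one_le_pow₀ (by norm_num)
  have hA' : (1 : ℝ) ≤ A := by exact_mod_cast hA
  have hN' : (1 : ℝ) ≤ N := by exact_mod_cast hN
  generalize ((N / (16 * 2 ^ i) + 1 : ℕ) : ℝ) = T at h1 ⊢
  have hT : 0 ≤ T := by
    by_contra h0
    have : 16 * (2 : ℝ) ^ i * T < 0 := mul_neg_of_pos_of_neg (by positivity) (not_le.1 h0)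
    linarith
  push_cast
  rw [pow_succ]
  generalize (256 : ℝ) ^ i = R at h2 h3 ⊢
  have h4 : (N : ℝ) ≤ 16 * R * T := h1.trans (by gcongr)
  have h5 : (1 : ℝ) ≤ A * R := one_le_mul_of_one_le_of_one_le hA' h3
  have h6 : C * (A * (R * 256)) * (N + 1) ≤ C * (A * (R * 256)) * (2 * N) := by
    gcongr
    linarith
  have h7 : (N : ℝ) ≤ A * R * N := le_mul_of_one_le_left (by linarith) h5
  have h8 : (512 * C + 1) * (A * R) * N ≤ (512 * C + 1) * (A * R) * (16 * R * T) := by gcongr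
  have h9 : 16 * (512 * C + 1) * (A * R * R * T) ≤ c * A * (A * R * R * T) := by gcongr
  nlinarith

lemma be_iter {F : ℕ → ℕ → ℝ} {δ : ℝ} {A N : ℕ} (hN : 16 ≤ N)
    (h0 : F N (A * 256 ^ (N / 8 + 1) - 1) ≤ 0)
    (hs : ∀ k i, k + (N / (16 * 2 ^ i) + 1) + 1 ≤ N → F k (A * 256 ^ i - 1) ≤
      F (k + (N / (16 * 2 ^ i) + 1) + 1) (A * 256 ^ (i + 1) - 1) + δ) :
    ∃ k, N / 2 ≤ k ∧ k ≤ N ∧ F k (A - 1) ≤ (N / 8 + 1 : ℕ) * δ := by
  have hN' : (16 : ℝ) ≤ N := by exact_mod_cast hN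
  have hm : ((N / 8 : ℕ) : ℝ) ≤ N / 8 := Nat.cast_div_le
  have key : ∀ j i, i + j = N / 8 + 1 → ∃ k ≤ N, (N : ℝ) - 2 * j - N / (8 * 2 ^ i) ≤ k ∧
      F k (A * 256 ^ i - 1) ≤ j * δ := by
    intro j
    induction j with
    | zero =>
      intro i hi
      obtain rfl : i = N / 8 + 1 := hi
      refine ⟨N, le_rfl, ?_, by simpa using h0⟩
      have : (0 : ℝ) ≤ N / (8 * 2 ^ (N / 8 + 1)) := by positivity
      push_cast
      linarith
    | succ j ih =>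
      intro i hi
      obtain ⟨k, hk, h1, h2⟩ := ih (i + 1) (by omega)
      have e1 : (N : ℝ) / (8 * 2 ^ (i + 1)) = N / (16 * 2 ^ i) := by rw [pow_succ]; ring
      have e2 : (N : ℝ) / (8 * 2 ^ i) = 2 * (N / (16 * 2 ^ i)) := by ring
      have h3 : ((N / (16 * 2 ^ i) : ℕ) : ℝ) ≤ N / (16 * 2 ^ i) := by
        have := Nat.cast_div_le (α := ℝ) (m := N) (n := 16 * 2 ^ i)
        push_cast at this
        exact this
      have h4 : (N : ℝ) / (16 * 2 ^ i) ≤ N / 16 := by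
        have : (1 : ℝ) ≤ 2 ^ i := one_le_pow₀ (by norm_num)
        gcongr
        linarith
      have h5 : (j : ℝ) ≤ (N / 8 : ℕ) := by exact_mod_cast (by omega : j ≤ N / 8)
      have h6 : N / (16 * 2 ^ i) + 1 + 1 ≤ k := by
        have : ((N / (16 * 2 ^ i) + 1 + 1 : ℕ) : ℝ) ≤ k := by
          push_cast
          linarith
        exact_mod_cast this
      obtain ⟨k', rfl⟩ : ∃ k', k = k' + (N / (16 * 2 ^ i) + 1) + 1 :=
        ⟨k - (N / (16 * 2 ^ i) + 1 + 1), by omega⟩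
      refine ⟨k', le_trans (by rw [add_assoc]; exact Nat.le_add_right _ _) hk, ?_, ?_⟩
      · push_cast at h1 ⊢
        linarith
      · have := hs k' i hk
        push_cast
        linarith
  obtain ⟨k, hk, h1, h2⟩ := key (N / 8 + 1) 0 (by omega)
  refine ⟨k, ?_, hk, by simpa using h2⟩
  have h3 : ((N / 2 : ℕ) : ℝ) ≤ N / 2 := Nat.cast_div_le
  have : ((N / 2 : ℕ) : ℝ) ≤ k := by
    push_cast at h1
    linarith
  exact_mod_cast this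

lemma be_err {ε : ℝ} (hε : 0 < ε) {N : ℕ} (hN : 16 ≤ N) (h : 4 / ε ≤ N) :
    (N / 8 + 1 : ℕ) * (2 * exp (-(N : ℝ))) ≤ ε := by
  have h1 : ((N / 8 + 1 : ℕ) : ℝ) ≤ N := by exact_mod_cast (by omega : N / 8 + 1 ≤ N)
  have hN' : (16 : ℝ) ≤ N := by exact_mod_cast hN
  have h2 := quadratic_le_exp_of_nonneg (show (0 : ℝ) ≤ N by positivity)
  rw [div_le_iff₀ hε] at h
  rw [exp_neg, ← mul_assoc, ← div_eq_mul_inv, div_le_iff₀ (exp_pos _)]
  have h3 : ε * ((N : ℝ) ^ 2 / 2) ≤ ε * exp N := by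
    gcongr
    linarith
  nlinarith

theorem tight (hβ : 0 ≤ β) : ∃ K₀ : ℕ, ∀ ε > 0, ∃ n₀ : ℕ, ∀ n ≥ n₀, ∀ (q : ℕ) (a : V → ℝ × ℝ)
    (σ τ : Fld), LG q (G0 (2 ^ 2 ^ n) a) →
      Z β q (GS (2 ^ 2 ^ n) a σ τ) (fun u => ind (Many (2 ^ 2 ^ n) (2 ^ (2 ^ n / 2)) K₀ u)) ≤
        ε * Z1 β q (GS (2 ^ 2 ^ n) a σ τ) := by
  obtain ⟨C, hC, c, hc, n₀, H⟩ := many_step hβ
  obtain ⟨A₀, hA₀⟩ := exists_nat_ge (16 * (512 * C + 1) / c)
  obtain ⟨A, hA1, hA2, hA3⟩ : ∃ A : ℕ, 16 ≤ A ∧ n₀ ≤ A ∧ 16 * (512 * C + 1) ≤ c * A := by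
    refine ⟨A₀ + n₀ + 16, by omega, by omega, ?_⟩
    rw [div_le_iff₀ hc] at hA₀
    push_cast
    nlinarith [mul_nonneg hc.le (Nat.cast_nonneg n₀ : (0 : ℝ) ≤ n₀)]
  refine ⟨A - 1, fun ε hε => ?_⟩
  obtain ⟨n₁, hn₁⟩ := exists_nat_ge (4 / ε)
  refine ⟨n₁ + 16, fun n hn q a σ τ hG => ?_⟩
  have hlt : n < 2 ^ n := Nat.lt_two_pow_self
  generalize 2 ^ n = N at hlt hG ⊢
  have hN : 16 ≤ N := by omega
  have ha : A01 (GS (2 ^ N) a σ τ).x.a := hG.grp.a01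
  have hW := Z1_nonneg (q := q) hβ ha
  have hpos : ∀ i, A * 256 ^ i - 1 + 1 = A * 256 ^ i := fun i =>
    Nat.sub_add_cancel (Nat.mul_pos (by omega) (Nat.pow_pos (by norm_num)))
  obtain ⟨k, hk1, hk2, hk3⟩ := be_iter (A := A)
    (F := fun k K => Z β q (GS (2 ^ N) a σ τ) fun u => ind (Many (2 ^ N) (2 ^ k) K u))
    (δ := 2 * exp (-(N : ℝ)) * Z1 β q (GS (2 ^ N) a σ τ)) hN (by
      have h1 : 8 * (2 ^ N + 1) < A * 256 ^ (N / 8 + 1) := by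
        have h2 : 2 ^ (N + 1) ≤ 256 ^ (N / 8 + 1) := by
          rw [show 256 = 2 ^ 8 by norm_num, ← pow_mul]
          exact Nat.pow_le_pow_right (by norm_num) (by omega)
        have h3 := Nat.mul_le_mul hA1 h2
        have h4 : 0 < 2 ^ N := Nat.pow_pos (by norm_num)
        rw [pow_succ] at h3
        omega
      have h5 : ∀ w, ¬ Mge w (2 ^ N) (2 ^ N) (A * 256 ^ (N / 8 + 1)) := fun w hw => by
        have h6 := mge_card hw (pow_nonneg (by norm_num) _)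
        have h7 : ((8 * (2 ^ N + 1) : ℕ) : ℤ) < (A * 256 ^ (N / 8 + 1) : ℕ) := by exact_mod_cast h1
        push_cast at h6 h7
        linarith
      refine (Z_mono (g := fun _ => 0) hβ ha fun u _ _ => (ind_neg ?_).le).trans ?_
      · unfold Many
        rw [hpos]
        exact fun h => h.elim (h5 _) (h5 _)
      · rw [Z_const, zero_mul]) (by
      intro k i hk
      have h1 : n₀ ≤ A * 256 ^ i - 1 + 1 := by
        rw [hpos]
        exact hA2.trans (Nat.le_mul_of_pos_right _ (Nat.pow_pos (by norm_num)))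
      refine (H q (2 ^ N) k (N / (16 * 2 ^ i) + 1) (A * 256 ^ (i + 1) - 1) (A * 256 ^ i - 1) a σ τ
        hG (pow_le_pow_right₀ (by norm_num) hk) h1).trans ?_
      have e : ∀ i, ((A * 256 ^ i - 1 : ℕ) : ℝ) + 1 = (A * 256 ^ i : ℕ) := fun i => by
        exact_mod_cast hpos i
      rw [e, e]
      have h2 := be_num (i := i) hC (show 1 ≤ A by omega) (show 1 ≤ N by omega) hA3
      have h3 : (k : ℝ) + (N / (16 * 2 ^ i) + 1 : ℕ) + 2 ≤ N + 1 := by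
        exact_mod_cast (by omega : k + (N / (16 * 2 ^ i) + 1) + 2 ≤ N + 1)
      have h4 : C * (A * 256 ^ (i + 1) : ℕ) * ((k : ℝ) + (N / (16 * 2 ^ i) + 1 : ℕ) + 2) ≤
          C * (A * 256 ^ (i + 1) : ℕ) * (N + 1) :=
        mul_le_mul_of_nonneg_left h3 (mul_nonneg hC (Nat.cast_nonneg _))
      exact add_le_add le_rfl (mul_le_mul_of_nonneg_right
        (mul_le_mul_of_nonneg_left (exp_le_exp.2 (by linarith)) zero_le_two) hW))
  have h1 := be_err hε hN (hn₁.trans (by exact_mod_cast (by omega : n₁ ≤ N)))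
  have h2 : (2 : ℤ) ^ (N / 2) ≤ 2 ^ k := pow_le_pow_right₀ (by norm_num) hk1
  have h3 : (2 : ℤ) ^ k ≤ 2 ^ N := pow_le_pow_right₀ (by norm_num) hk2
  refine (Z_mono hβ ha fun u _ _ => ind_mono fun h => ?_).trans (hk3.trans ?_)
  · exact h.imp (fun h => mge_mono h h2 h3) fun h => mge_mono h h2 h3
  · rw [← mul_assoc]
    exact mul_le_mul_of_nonneg_right h1 hW

end

end Pool.Agent.XYU

end

section

open Finset Real Relation

namespace Pool.Agent.XYU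

open Classical

noncomputable section

/-! Good scales. The ring of scale `μ` has a free middle `mid μ` and two layers. `Fre` collects the
sites of the layers whose cluster does not reach the far side; their signs are resampled.
`reps`: `G` consists of the indicator fields of unions of crossing clusters (at most `N` in each
layer: choose one point on the inner sphere in each, otherwise `Cr _ _ (N+1)`); for a compatible
`l` take the union of the crossing clusters where `l = 1`, and `σ₁ = l` cut to `mid ∪ Fre`.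
`T0_sub`: a field of `T0` is supported in `mid ∪ Fre`; an edge of `S.E \ Ed mid` touching `Fre` is a
layer edge. `coset_eq`: both inclusions as in `T0_sub` (`σ + l` vanishes off `mid ∪ Fre`).
`bad_dep`: `cr_dep`, `Z_dep`. `bad_ub`: union bound; the four crossing events by `cr_ub`,
`UB.sw`; for the last one condition on the outside of `mid μ` (`dlr`): off the crossing events
`Z_idx` (with `T0_sub`, `reps`) compares with `S0 μ u` at the price `4^N * 4^N`, and in `S0` the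
event is covered by the at most `4^N * 4^N` pairs of representatives with `qv < δ Z1`
(`AT (Tl w μ l) (w' ∩ Ed mid)` only depends on `l` modulo `T0` on the ends of `Ed mid`).
`dens`: `dlr` on `mid μ`; `Z_split` with `r σ = σ` cut to the complement of `mid ∪ Fre`;
each piece is `Tl _ _ l` for any of its members `l` (`coset_eq`); `Z_cos`; for a pair with
`qv < δ Z1` the integrand vanishes, otherwise bound by `p Z1 (S0) ≤ p / δ * qv`.
`many_bad`: union over the subsets of size `s`, `ub_prod`, `transfer`.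
`good_scales`: `tight`, `many_bad` with `ρ = 2^(2^n/2)`, `log (ρ + 2) ≤ 2^n`; choose `N`, then `δ`,
so that `p^(θ/64) ≤ exp (-(C (K₀+1) + 2))`. -/

variable {β : ℝ} {q : ℕ} {S : Sys} {w : Es} {f : UC → ℝ} {μ : ℤ}

def mid (μ : ℤ) : Finset V := ann (2 * μ + 1) (64 * μ - 1)

def lay (μ : ℤ) : Es := Ei (ann μ (2 * μ)) ∪ Ei (ann (64 * μ) (2 * (64 * μ)))

def Fre (w : Es) (μ : ℤ) : Finset V :=
  ((ann μ (2 * μ)).filter fun v => ¬ ∃ y, nm y = μ ∧ Cn w (ann μ (2 * μ)) v y) ∪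
    (ann (64 * μ) (2 * (64 * μ))).filter fun v =>
      ¬ ∃ y, nm y = 2 * (64 * μ) ∧ Cn w (ann (64 * μ) (2 * (64 * μ))) v y

def T0 (w : Es) (μ : ℤ) : Finset Fld :=
  (Flip (mid μ ∪ Fre w μ)).filter fun σ => cp σ (w ∩ lay μ)

def S0 (μ : ℤ) (u : UC) : Sys := ⟨mid μ, Ed (mid μ), u, T0 u.w μ, T0 u.b μ⟩

def Tl (w : Es) (μ : ℤ) (l : Fld) : Finset Fld := (T0 w μ).image fun σ => σ + l

/-- weight of the states of the middle that respect the labels `l`, `l'` -/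
def qv (β : ℝ) (q : ℕ) (μ : ℤ) (u : UC) (l l' : Fld) : ℝ := Z β q (S0 μ u) fun u' =>
  ind (AT (Tl u.w μ l) (u'.w ∩ Ed (mid μ))) * ind (AT (Tl u.b μ l') (u'.b ∩ Ed (mid μ)))

def Bad (β : ℝ) (q : ℕ) (μ : ℤ) (N : ℕ) (δ : ℝ) (u : UC) : Prop :=
  Cr u.w μ (N + 1) ∨ Cr u.w (64 * μ) (N + 1) ∨ Cr u.b μ (N + 1) ∨ Cr u.b (64 * μ) (N + 1) ∨
    ∃ l l' : Fld, cp l (u.w ∩ lay μ) ∧ cp l' (u.b ∩ lay μ) ∧
      qv β q μ u l l' < δ * Z1 β q (S0 μ u) ∧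
      AT (Tl u.w μ l) (u.w ∩ Ed (mid μ)) ∧ AT (Tl u.b μ l') (u.b ∩ Ed (mid μ))

lemma ca1_nm {x y : V} (h : Adj x y) : nm y ≤ nm x + 1 ∧ nm x ≤ nm y + 1 := by
  unfold Adj at h
  unfold nm
  omega

lemma ca1_lay {x y : V} : s(x, y) ∈ lay μ ↔ Adj x y ∧
    ((x ∈ ann μ (2 * μ) ∧ y ∈ ann μ (2 * μ)) ∨
      (x ∈ ann (64 * μ) (2 * (64 * μ)) ∧ y ∈ ann (64 * μ) (2 * (64 * μ)))) := by
  rw [lay, mem_union, mem_Ei, mem_Ei, and_or_left]

lemma ca1_Fre {v : V} : v ∈ Fre w μ ↔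
    (v ∈ ann μ (2 * μ) ∧ ¬ ∃ y, nm y = μ ∧ Cn w (ann μ (2 * μ)) v y) ∨
      (v ∈ ann (64 * μ) (2 * (64 * μ)) ∧
        ¬ ∃ y, nm y = 2 * (64 * μ) ∧ Cn w (ann (64 * μ) (2 * (64 * μ))) v y) := by
  rw [Fre, mem_union, mem_filter, mem_filter]

lemma ca1_T0 {σ : Fld} : σ ∈ T0 w μ ↔ (∀ v ∉ mid μ ∪ Fre w μ, σ v = 0) ∧ cp σ (w ∩ lay μ) := by
  rw [T0, mem_filter, mem_Flip]

lemma ca1_supp (hμ : 1 ≤ μ) : mid μ ∪ Fre w μ ⊆ ann μ (128 * μ) := by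
  intro v hv
  rw [mem_union, ca1_Fre, mid] at hv
  rw [mem_ann]
  rcases hv with h | ⟨h, -⟩ | ⟨h, -⟩ <;> rw [mem_ann] at h <;> omega

lemma ca1_edge (hμ : 1 ≤ μ) {x y : V} (h : Adj x y) (hx : x ∈ Fre w μ) (hy : y ∉ mid μ) :
    s(x, y) ∈ lay μ := by
  have h1 := ca1_nm h
  rw [mid, mem_ann] at hy
  rw [ca1_lay]
  refine ⟨h, ?_⟩
  rcases ca1_Fre.1 hx with ⟨h2, h3⟩ | ⟨h2, h3⟩
  · have h4 : nm x ≠ μ := fun h5 => h3 ⟨x, h5, ReflTransGen.refl⟩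
    refine Or.inl ⟨h2, ?_⟩
    rw [mem_ann] at h2 ⊢
    omega
  · have h4 : nm x ≠ 2 * (64 * μ) := fun h5 => h3 ⟨x, h5, ReflTransGen.refl⟩
    refine Or.inr ⟨h2, ?_⟩
    rw [mem_ann] at h2 ⊢
    omega

lemma ca1_cp (hμ : 1 ≤ μ) (L : Finset V) {σ : Fld} (hσ : σ ∈ T0 w μ) :
    cp σ (w ∩ (Ed L \ Ed (mid μ))) := by
  obtain ⟨h0, h1⟩ := ca1_T0.1 hσ
  intro x y he
  rw [mem_inter, mem_sdiff, mem_Ed, mem_Ed] at he
  obtain ⟨hw, ⟨ha, -⟩, hm⟩ := he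
  have hx : x ∉ mid μ := fun h => hm ⟨ha, Or.inl h⟩
  have hy : y ∉ mid μ := fun h => hm ⟨ha, Or.inr h⟩
  by_cases h2 : x ∈ Fre w μ
  · exact h1 x y (mem_inter.2 ⟨hw, ca1_edge hμ ha h2 hy⟩)
  by_cases h3 : y ∈ Fre w μ
  · exact (h1 y x (mem_inter.2 ⟨Sym2.eq_swap ▸ hw, ca1_edge hμ ha.symm h3 hx⟩)).symm
  rw [h0 x fun h => (mem_union.1 h).elim hx h2, h0 y fun h => (mem_union.1 h).elim hy h3]

lemma ca1_off {x y : V} (hμ : 1 ≤ μ) (h : s(x, y) ∈ lay μ) : x ∉ mid μ ∧ y ∉ mid μ := by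
  rw [ca1_lay] at h
  simp only [mid, mem_ann] at h ⊢
  omega

lemma ca1_lay_sub (hμ : 1 ≤ μ) {L : Finset V} (hL : ann μ (128 * μ) ⊆ L) :
    lay μ ⊆ Ed L \ Ed (mid μ) := by
  intro e he
  induction e using Sym2.ind with
  | h x y =>
    have h1 := ca1_off hμ he
    rw [ca1_lay] at he
    rw [mem_sdiff, mem_Ed, mem_Ed]
    refine ⟨⟨he.1, Or.inl (hL ?_)⟩, fun h => h.2.elim h1.1 h1.2⟩
    have h2 := he.2
    simp only [mem_ann] at h2 ⊢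
    omega

lemma ca1_max (r : ℤ) (N : ℕ) (h : ¬ Cr w r (N + 1)) :
    ∃ n ≤ N, Cr w r n ∧ ¬ Cr w r (n + 1) := by
  induction N with
  | zero => exact ⟨0, le_rfl, ⟨∅, rfl, by simp, by simp⟩, h⟩
  | succ N ih =>
    by_cases h1 : Cr w r (N + 1)
    · exact ⟨N + 1, le_rfl, h1, h⟩
    · obtain ⟨n, h2, h3⟩ := ih h1
      exact ⟨n, h2.trans (Nat.le_succ N), h3⟩

lemma ca1_pts {r : ℤ} (hr : 0 ≤ r) {N : ℕ} (h : ¬ Cr w r (N + 1)) :
    ∃ P : Finset V, #P ≤ N ∧ (∀ p ∈ P, p ∈ ann r (2 * r)) ∧ ∀ x, nm x = r →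
      (∃ y, nm y = 2 * r ∧ Cn w (ann r (2 * r)) x y) → ∃ p ∈ P, Cn w (ann r (2 * r)) p x := by
  obtain ⟨n, hn, ⟨P, hP, h1, h2⟩, h3⟩ := ca1_max r N h
  refine ⟨P, hP.le.trans hn, fun p hp => ?_, fun x hx hy => ?_⟩
  · have h4 := (h1 p hp).1
    rw [mem_ann]
    omega
  by_contra h4
  have h5 : x ∉ P := fun h6 => h4 ⟨x, h6, ReflTransGen.refl⟩
  refine h3 ⟨insert x P, by rw [card_insert_of_notMem h5, hP], fun p hp => ?_,
    fun p hp p' hp' hc => ?_⟩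
  · rcases mem_insert.1 hp with rfl | hp
    · exact ⟨hx, hy⟩
    · exact h1 p hp
  · rcases mem_insert.1 hp with rfl | h6 <;> rcases mem_insert.1 hp' with rfl | h7
    · rfl
    · exact absurd ⟨p', h7, hc.symm⟩ h4
    · exact absurd ⟨p, h6, hc⟩ h4
    · exact h2 p h6 p' h7 hc

/-- indicator of the clusters of `B` inside `A` -/
def ca1_g (w : Es) (A B : Finset V) : Fld := fun v => if ∃ p ∈ B, Cn w A p v then 1 else 0

lemma ca1_g_off {A B : Finset V} (h : ∀ p ∈ B, p ∈ A) {v : V} (hv : v ∉ A) : ca1_g w A B v = 0 :=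
  if_neg fun ⟨p, hp, hc⟩ => hv (mem_coe.1 (hc.mem (mem_coe.2 (h p hp))))

lemma ca1_g_in {A : Finset V} (B : Finset V) {x y : V} (ha : Adj x y) (hx : x ∈ A) (hy : y ∈ A)
    (hw : s(x, y) ∈ w) : ca1_g w A B x = ca1_g w A B y := by
  refine if_congr (exists_congr fun p => and_congr_right fun _ => ⟨fun h => ?_, fun h => ?_⟩) rfl rfl
  · exact h.step (mem_coe.2 hx) (mem_coe.2 hy) ha hw
  · exact h.step (mem_coe.2 hy) (mem_coe.2 hx) ha.symm (Sym2.eq_swap ▸ hw)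

lemma ca1_g_eq {A P : Finset V} {l : Fld} (hl : cpl l w A) {p v : V} (hp : p ∈ P)
    (hc : Cn w A p v) : ca1_g w A (P.filter fun x => l x = 1) v = l v := by
  rcases aa_two (l v) with h | h
  · rw [h]
    refine if_neg fun ⟨p', h1, h2⟩ => ?_
    have h3 := (mem_filter.1 h1).2
    rw [h2.eq hl, h] at h3
    exact zero_ne_one h3
  · rw [h]
    exact if_pos ⟨p, mem_filter.2 ⟨hp, by rw [hc.eq hl, h]⟩, hc⟩

lemma ca1_g_cp (hμ : 1 ≤ μ) {B B' : Finset V} (h : ∀ p ∈ B, p ∈ ann μ (2 * μ))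
    (h' : ∀ p ∈ B', p ∈ ann (64 * μ) (2 * (64 * μ))) :
    cp (ca1_g w (ann μ (2 * μ)) B + ca1_g w (ann (64 * μ) (2 * (64 * μ))) B') (w ∩ lay μ) := by
  intro x y he
  obtain ⟨hw, he⟩ := mem_inter.1 he
  obtain ⟨ha, ⟨hx, hy⟩ | ⟨hx, hy⟩⟩ := ca1_lay.1 he
  · rw [Pi.add_apply, Pi.add_apply, ca1_g_in B ha hx hy hw, ca1_g_off h', ca1_g_off h'] <;>
      rw [mem_ann] at hx hy ⊢ <;> omega
  · rw [Pi.add_apply, Pi.add_apply, ca1_g_in B' ha hx hy hw, ca1_g_off h, ca1_g_off h] <;>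
      rw [mem_ann] at hx hy ⊢ <;> omega

lemma ca1_fre_step (hμ : 1 ≤ μ) {x y : V} (he : s(x, y) ∈ w ∩ lay μ) (hx : x ∈ Fre w μ) :
    y ∈ Fre w μ := by
  obtain ⟨hw, he⟩ := mem_inter.1 he
  obtain ⟨ha, h⟩ := ca1_lay.1 he
  rw [ca1_Fre] at hx ⊢
  rcases h with ⟨h1, h2⟩ | ⟨h1, h2⟩ <;> rcases hx with ⟨h3, h4⟩ | ⟨h3, h4⟩
  · exact Or.inl ⟨h2, fun ⟨z, h5, h6⟩ => h4 ⟨z, h5, ReflTransGen.head
      ⟨mem_coe.2 h1, mem_coe.2 h2, ha, hw⟩ h6⟩⟩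
  · rw [mem_ann] at h1 h3
    omega
  · rw [mem_ann] at h1 h3
    omega
  · exact Or.inr ⟨h2, fun ⟨z, h5, h6⟩ => h4 ⟨z, h5, ReflTransGen.head
      ⟨mem_coe.2 h1, mem_coe.2 h2, ha, hw⟩ h6⟩⟩

lemma ca1_cut (hμ : 1 ≤ μ) {σ : Fld} (hσ : cp σ (w ∩ lay μ)) :
    (fun v => if v ∈ mid μ ∪ Fre w μ then σ v else 0) ∈ T0 w μ := by
  refine ca1_T0.2 ⟨fun v hv => if_neg hv, fun x y he => ?_⟩
  have h1 := ca1_off hμ (mem_inter.1 he).2
  have h2 : x ∈ mid μ ∪ Fre w μ ↔ y ∈ mid μ ∪ Fre w μ := by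
    rw [mem_union, mem_union, or_iff_right h1.1, or_iff_right h1.2]
    exact ⟨ca1_fre_step hμ he, ca1_fre_step hμ (Sym2.eq_swap ▸ he)⟩
  exact if_congr h2 (hσ x y he) rfl

lemma reps (hμ : 1 ≤ μ) {N : ℕ} (h₁ : ¬ Cr w μ (N + 1)) (h₂ : ¬ Cr w (64 * μ) (N + 1)) :
    ∃ G : Finset Fld, #G ≤ 4 ^ N ∧ (∀ g ∈ G, cp g (w ∩ lay μ)) ∧ ∀ l, cp l (w ∩ lay μ) →
      ∃ g ∈ G, ∃ σ₁ ∈ T0 w μ, ∀ e ∈ Ed (mid μ), ∀ v ∈ e, l v = g v + σ₁ v := by
  obtain ⟨P, hP, hA, hc⟩ := ca1_pts (by omega) h₁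
  obtain ⟨P', hP', hA', hc'⟩ := ca1_pts (by omega) h₂
  refine ⟨(P.powerset ×ˢ P'.powerset).image fun B =>
    ca1_g w (ann μ (2 * μ)) B.1 + ca1_g w (ann (64 * μ) (2 * (64 * μ))) B.2, ?_, ?_, ?_⟩
  · refine card_image_le.trans ?_
    rw [card_product, card_powerset, card_powerset, show 4 = 2 * 2 from rfl, mul_pow]
    exact Nat.mul_le_mul (Nat.pow_le_pow_right two_pos hP) (Nat.pow_le_pow_right two_pos hP')
  · intro g hg
    obtain ⟨B, hB, rfl⟩ := mem_image.1 hg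
    rw [mem_product, mem_powerset, mem_powerset] at hB
    exact ca1_g_cp hμ (fun p hp => hA p (hB.1 hp)) fun p hp => hA' p (hB.2 hp)
  intro l hl
  have hB : ∀ p ∈ P.filter fun x => l x = 1, p ∈ ann μ (2 * μ) :=
    fun p hp => hA p (mem_filter.1 hp).1
  have hB' : ∀ p ∈ P'.filter fun x => l x = 1, p ∈ ann (64 * μ) (2 * (64 * μ)) :=
    fun p hp => hA' p (mem_filter.1 hp).1
  refine ⟨_, mem_image_of_mem _ (a := (P.filter fun x => l x = 1, P'.filter fun x => l x = 1))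
    (mem_product.2 ⟨mem_powerset.2 (filter_subset _ _), mem_powerset.2 (filter_subset _ _)⟩), _,
    ca1_cut hμ (cp_add (ca1_g_cp hμ hB hB') hl), fun e he v hv => ?_⟩
  by_cases h1 : v ∈ mid μ ∪ Fre w μ
  · rw [if_pos h1, Pi.add_apply _ l, ← add_assoc, CharTwo.add_self_eq_zero, zero_add]
  rw [if_neg h1, add_zero, Pi.add_apply]
  rw [mem_union, not_or, ca1_Fre, not_or, not_and, not_and, not_not, not_not] at h1
  obtain ⟨h1, h2, h3⟩ := h1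
  obtain ⟨x, y, rfl, ha, hx⟩ := mem_Ed'.1 he
  have h4 := ca1_nm ha
  have h5 : nm v = 2 * μ ∨ nm v = 64 * μ := by
    rw [mid, mem_ann] at hx h1
    rcases Sym2.mem_iff.1 hv with rfl | rfl <;> omega
  rcases h5 with h5 | h5
  · obtain ⟨z, h6, h7⟩ := h2 (by rw [mem_ann]; omega)
    obtain ⟨p, hp, h8⟩ := hc z h6 ⟨v, h5, h7.symm⟩
    rw [ca1_g_off hB' (by rw [mem_ann]; omega), add_zero, ca1_g_eq _ hp (h8.trans h7.symm)]
    exact fun a b ha hb h9 hw => hl a b (mem_inter.2 ⟨hw, ca1_lay.2 ⟨h9, Or.inl ⟨ha, hb⟩⟩⟩)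
  · obtain ⟨p, hp, h8⟩ := hc' v h5 (h3 (by rw [mem_ann]; omega))
    rw [ca1_g_off hB (by rw [mem_ann]; omega), zero_add, ca1_g_eq _ hp h8]
    exact fun a b ha hb h9 hw => hl a b (mem_inter.2 ⟨hw, ca1_lay.2 ⟨h9, Or.inr ⟨ha, hb⟩⟩⟩)

lemma ca1_fre_sub {w' : Es} (h : w ∩ lay μ = w' ∩ lay μ) : Fre w μ ⊆ Fre w' μ := by
  have key : ∀ e ∈ lay μ, e ∈ w' → e ∈ w := fun e he hw =>
    (mem_inter.1 (h ▸ mem_inter.2 ⟨hw, he⟩ : e ∈ w ∩ lay μ)).1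
  intro v hv
  rw [ca1_Fre] at hv ⊢
  refine hv.imp (And.imp_right fun h1 ⟨y, h2, h3⟩ => h1 ⟨y, h2, h3.mono subset_rfl ?_⟩)
    (And.imp_right fun h1 ⟨y, h2, h3⟩ => h1 ⟨y, h2, h3.mono subset_rfl ?_⟩)
  · exact fun a b ha hb h4 => key _ (ca1_lay.2 ⟨h4, Or.inl ⟨ha, hb⟩⟩)
  · exact fun a b ha hb h4 => key _ (ca1_lay.2 ⟨h4, Or.inr ⟨ha, hb⟩⟩)

lemma T0_congr (hμ : 1 ≤ μ) {w' : Es} (h : w ∩ lay μ = w' ∩ lay μ) : T0 w μ = T0 w' μ := by
  have _ := hμ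
  rw [T0, T0, h, Subset.antisymm (ca1_fre_sub h) (ca1_fre_sub h.symm)]

lemma ca1_fl (hμ : 1 ≤ μ) (w : Es) : Fl (mid μ) (T0 w μ) := by
  intro σ hσ v hv
  rw [T0, mem_filter] at hσ ⊢
  refine ⟨fl_Flip subset_union_left σ hσ.1 v hv, cp_add hσ.2 fun x y he => ?_⟩
  have h1 := ca1_off hμ (mem_inter.1 he).2
  rw [Pi.single_eq_of_ne (by rintro rfl; exact h1.1 hv),
    Pi.single_eq_of_ne (by rintro rfl; exact h1.2 hv)]

lemma lg_S0 (hμ : 1 ≤ μ) {u : UC} (ha : A01 u.a) (hq : 0 < q) (hs : #(Ed (mid μ)) ≤ q) :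
    LG q (S0 μ u) :=
  ⟨⟨ha, (sg_Flip _).filter _, (sg_Flip _).filter _, ca1_fl hμ _, ca1_fl hμ _⟩, rfl, hq, hs⟩

lemma T0_sub (hμ : 1 ≤ μ) {L : Finset V} (hL : ann μ (128 * μ) ⊆ L) {T : Finset Fld} (h0 : 0 ∈ T)
    (hT : Fl L T) (w : Es) :
    T0 w μ ⊆ T.filter fun σ => cp σ (w ∩ (Ed L \ Ed (mid μ))) := by
  intro σ hσ
  refine mem_filter.2 ⟨?_, ca1_cp hμ L hσ⟩
  have h1 := hT.add h0 fun v hv => (ca1_T0.1 hσ).1 v fun h => hv (hL (ca1_supp hμ h))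
  rwa [zero_add] at h1

lemma coset_eq (hμ : 1 ≤ μ) {L : Finset V} (hL : ann μ (128 * μ) ⊆ L) {T : Finset Fld}
    (hT : Fl L T) (w : Es) {l : Fld} (hl : l ∈ T) (hc : cp l (w ∩ (Ed L \ Ed (mid μ)))) (σ : Fld) :
    σ ∈ Tl w μ l ↔ (σ ∈ T ∧ cp σ (w ∩ (Ed L \ Ed (mid μ)))) ∧
      ∀ v ∉ mid μ ∪ Fre w μ, σ v = l v := by
  rw [Tl, mem_image]
  constructor
  · rintro ⟨τ, hτ, rfl⟩
    have h1 := (ca1_T0.1 hτ).1
    refine ⟨⟨?_, cp_add (ca1_cp hμ L hτ) hc⟩, fun v hv => by rw [Pi.add_apply, h1 v hv, zero_add]⟩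
    rw [add_comm]
    exact hT.add hl fun v hv => h1 v fun h => hv (hL (ca1_supp hμ h))
  · rintro ⟨⟨-, h1⟩, h2⟩
    refine ⟨σ + l, ca1_T0.2 ⟨fun v hv => ?_, cp_mono (inter_subset_inter_left (ca1_lay_sub hμ hL))
      (cp_add h1 hc)⟩, by rw [add_assoc, aa_add_self, add_zero]⟩
    rw [Pi.add_apply, h2 v hv, CharTwo.add_self_eq_zero]

end

end Pool.Agent.XYU

end

section

open Finset Real Relation

namespace Pool.Agent.XYU

open Classical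

noncomputable section

variable {β : ℝ} {q : ℕ} {S : Sys} {w : Es} {f : UC → ℝ} {μ : ℤ}

lemma ca2_Ei_mono {Λ Λ' : Finset V} (h : Λ ⊆ Λ') : Ei Λ ⊆ Ei Λ' := fun e he => by
  induction e using Sym2.ind with
  | _ x y =>
    rw [mem_Ei] at he ⊢
    exact ⟨he.1, h he.2.1, h he.2.2⟩

lemma ca2_ann {r R r' R' : ℤ} (h : r' ≤ r) (h' : R ≤ R') : ann r R ⊆ ann r' R' := fun v hv => by
  rw [mem_ann] at hv ⊢
  omega

lemma ca2_adj {x y : V} (h : Adj x y) : nm x ≤ nm y + 1 ∧ nm y ≤ nm x + 1 := by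
  have h1 := dd_tri x y 0
  have h2 := dd_tri y x 0
  rw [dd_zero, dd_zero, h.dd] at h1
  rw [dd_zero, dd_zero, h.symm.dd] at h2
  omega

lemma ca2_lay (hμ : 1 ≤ μ) : lay μ ⊆ Ei (ann μ (128 * μ)) :=
  union_subset (ca2_Ei_mono (ca2_ann le_rfl (by omega)))
    (ca2_Ei_mono (ca2_ann (by omega) (by omega)))

lemma ca2_mid (_hμ : 1 ≤ μ) : Ed (mid μ) ⊆ Ei (ann μ (128 * μ)) := fun e he => by
  obtain ⟨x, y, rfl, h, hx⟩ := mem_Ed'.1 he
  have h1 := ca2_adj h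
  rw [mid, mem_ann] at hx
  rw [mem_Ei, mem_ann, mem_ann]
  exact ⟨h, by omega, by omega⟩

lemma ca2_ends (hμ : 1 ≤ μ) {e : Sym2 V} (he : e ∈ Ed (mid μ)) {v : V} (hv : v ∈ e) :
    v ∈ ann μ (128 * μ) := (mem_filter.1 (ca2_mid hμ he)).2 v hv

lemma ca2_disj {e : Sym2 V} (he : e ∈ lay μ) : e ∉ Ed (mid μ) := by
  induction e using Sym2.ind with
  | _ x y =>
    rw [lay, mem_union, mem_Ei, mem_Ei, mem_ann, mem_ann, mem_ann, mem_ann] at he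
    rw [mem_Ed, mid, mem_ann, mem_ann]
    omega

lemma ca2_inter {E E' w' : Es} (h : E' ⊆ E) (hw : w ∩ E = w' ∩ E) : w ∩ E' = w' ∩ E' := by
  rw [← inter_eq_right.2 h, ← inter_assoc, ← inter_assoc, hw]

lemma ca2_cr1 {w' : Es} (h : w ∩ lay μ = w' ∩ lay μ) {n : ℕ} (hc : Cr w μ n) : Cr w' μ n :=
  cr_dep (ca2_inter subset_union_left h) hc

lemma ca2_cr2 {w' : Es} (h : w ∩ lay μ = w' ∩ lay μ) {n : ℕ} (hc : Cr w (64 * μ) n) :
    Cr w' (64 * μ) n := cr_dep (ca2_inter subset_union_right h) hc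

lemma ca2_Tl (hμ : 1 ≤ μ) {w' : Es} (h : w ∩ lay μ = w' ∩ lay μ) (l : Fld) :
    Tl w μ l = Tl w' μ l := by rw [Tl, Tl, T0_congr hμ h]

lemma ca2_Z (hμ : 1 ≤ μ) {u u' : UC} (hw : u.w ∩ lay μ = u'.w ∩ lay μ)
    (hb : u.b ∩ lay μ = u'.b ∩ lay μ)
    (ha : ∀ e ∈ Ed (mid μ), ∀ v ∈ e, v ∉ mid μ → u.a v = u'.a v)
    (hf : Dep (mid μ) (Ed (mid μ)) f) : Z β q (S0 μ u) f = Z β q (S0 μ u') f :=
  Z_dep (S := S0 μ u') (S' := S0 μ u) rfl rfl (T0_congr hμ hw) (T0_congr hμ hb) ha hf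

lemma ca2_qv (hμ : 1 ≤ μ) {u u' : UC} (hw : u.w ∩ lay μ = u'.w ∩ lay μ)
    (hb : u.b ∩ lay μ = u'.b ∩ lay μ)
    (ha : ∀ e ∈ Ed (mid μ), ∀ v ∈ e, v ∉ mid μ → u.a v = u'.a v) (l l' : Fld) :
    qv β q μ u l l' = qv β q μ u' l l' ∧ Z1 β q (S0 μ u) = Z1 β q (S0 μ u') := by
  refine ⟨?_, ca2_Z hμ hw hb ha fun _ _ _ _ _ => rfl⟩
  rw [qv, qv, ca2_Tl hμ hw, ca2_Tl hμ hb]
  refine ca2_Z hμ hw hb ha fun x y _ h1 h2 => ?_
  simp only [h1, h2]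

lemma ca2_bad (hμ : 1 ≤ μ) {N : ℕ} {δ : ℝ} {u u' : UC}
    (ha : ∀ v ∈ ann μ (128 * μ), u.a v = u'.a v)
    (hw : u.w ∩ Ei (ann μ (128 * μ)) = u'.w ∩ Ei (ann μ (128 * μ)))
    (hb : u.b ∩ Ei (ann μ (128 * μ)) = u'.b ∩ Ei (ann μ (128 * μ)))
    (h : Bad β q μ N δ u) : Bad β q μ N δ u' := by
  have hw1 := ca2_inter (ca2_lay hμ) hw
  have hb1 := ca2_inter (ca2_lay hμ) hb
  rcases h with h | h | h | h | ⟨l, l', h1, h2, h3, h4, h5⟩
  · exact Or.inl (ca2_cr1 hw1 h)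
  · exact Or.inr (Or.inl (ca2_cr2 hw1 h))
  · exact Or.inr (Or.inr (Or.inl (ca2_cr1 hb1 h)))
  · exact Or.inr (Or.inr (Or.inr (Or.inl (ca2_cr2 hb1 h))))
  · have h6 := ca2_qv (β := β) (q := q) hμ hw1 hb1 (fun e he v hv _ => ha v (ca2_ends hμ he hv)) l l'
    rw [hw1] at h1
    rw [hb1] at h2
    rw [h6.1, h6.2] at h3
    rw [ca2_Tl hμ hw1, ca2_inter (ca2_mid hμ) hw] at h4
    rw [ca2_Tl hμ hb1, ca2_inter (ca2_mid hμ) hb] at h5
    exact Or.inr (Or.inr (Or.inr (Or.inr ⟨l, l', h1, h2, h3, h4, h5⟩)))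

lemma ca2_sg (w : Es) (μ : ℤ) : SG (T0 w μ) := (sg_Flip _).filter _

lemma ca2_AT {l g σ₁ : Fld} (h₁ : σ₁ ∈ T0 w μ) {E : Es}
    (h : ∀ e ∈ E, ∀ v ∈ e, l v = g v + σ₁ v) {w' : Es} (hl : AT (Tl w μ l) (w' ∩ E)) :
    AT (Tl w μ g) (w' ∩ E) := by
  obtain ⟨τ, hτ, hc⟩ := hl
  obtain ⟨σ, hσ, rfl⟩ := mem_image.1 hτ
  refine ⟨σ + σ₁ + g, mem_image.2 ⟨σ + σ₁, (ca2_sg w μ).2 σ hσ σ₁ h₁, rfl⟩, fun x y hxy => ?_⟩
  have h2 := hc x y hxy
  have he := (mem_inter.1 hxy).2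
  simp only [Pi.add_apply] at h2 ⊢
  rw [h _ he x (Sym2.mem_mk_left x y), h _ he y (Sym2.mem_mk_right x y)] at h2
  linear_combination h2

lemma ca2_AT' {l g σ₁ : Fld} (h₁ : σ₁ ∈ T0 w μ) {E : Es}
    (h : ∀ e ∈ E, ∀ v ∈ e, l v = g v + σ₁ v) (w' : Es) :
    AT (Tl w μ l) (w' ∩ E) ↔ AT (Tl w μ g) (w' ∩ E) :=
  ⟨ca2_AT h₁ h, ca2_AT h₁ fun e he v hv => by
    rw [h e he v hv, add_assoc, CharTwo.add_self_eq_zero, add_zero]⟩

lemma ca2_frz {u u' : UC} (hu' : u' ∈ Om q (S.lc (mid μ) u)) :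
    u'.w ∩ lay μ = u.w ∩ lay μ ∧ u'.b ∩ lay μ = u.b ∩ lay μ ∧ ∀ v ∉ mid μ, u'.a v = u.a v := by
  obtain ⟨h1, -, h2, h3⟩ := mem_Om_lc.1 hu'
  refine ⟨?_, ?_, h1⟩
  · ext e
    simp only [mem_inter]
    exact and_congr_left fun he => h2 e (ca2_disj he)
  · ext e
    simp only [mem_inter]
    exact and_congr_left fun he => h3 e (ca2_disj he)

/-- the last event, off the crossing events, in the conditional system -/
lemma ca2_loc (hβ : 0 ≤ β) (hμ : 1 ≤ μ) {N : ℕ} {δ : ℝ} (hδ : 0 ≤ δ) (hS : LG q S)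
    (hA : ann μ (128 * μ) ⊆ S.L) {u : UC} (hu : u ∈ Om q S) :
    Z β q (S.lc (mid μ) u) (fun u => ind (¬ (Cr u.w μ (N + 1) ∨ Cr u.w (64 * μ) (N + 1) ∨
      Cr u.b μ (N + 1) ∨ Cr u.b (64 * μ) (N + 1)) ∧ Bad β q μ N δ u)) ≤
      256 ^ N * δ * Z1 β q (S.lc (mid μ) u) := by
  have hM : mid μ ⊆ S.L := (ca2_ann (by omega) (by omega)).trans hA
  have hS' := hS.lc hM hu
  have ha : A01 u.a := hS'.grp.a01
  have hZ := Z1_nonneg (q := q) hβ hS'.grp.a01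
  by_cases hc : Cr u.w μ (N + 1) ∨ Cr u.w (64 * μ) (N + 1) ∨ Cr u.b μ (N + 1) ∨
      Cr u.b (64 * μ) (N + 1)
  · refine le_trans (Z_mono (g := fun _ => 0) hβ hS'.grp.a01 fun u' hu' _ => ?_) ?_
    · obtain ⟨h1, h2, -⟩ := ca2_frz hu'
      refine (ind_neg fun h => h.1 ?_).le
      rcases hc with hc | hc | hc | hc
      · exact Or.inl (ca2_cr1 h1.symm hc)
      · exact Or.inr (Or.inl (ca2_cr2 h1.symm hc))
      · exact Or.inr (Or.inr (Or.inl (ca2_cr1 h2.symm hc)))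
      · exact Or.inr (Or.inr (Or.inr (ca2_cr2 h2.symm hc)))
    · rw [Z_const, zero_mul]
      exact mul_nonneg (mul_nonneg (pow_nonneg (by norm_num) _) hδ) hZ
  simp only [not_or] at hc
  obtain ⟨G, hG, -, hG'⟩ := reps hμ hc.1 hc.2.1
  obtain ⟨H, hH, -, hH'⟩ := reps hμ hc.2.2.1 hc.2.2.2
  have hlay : lay μ ⊆ S.E \ Ed (mid μ) := fun e he => mem_sdiff.2 ⟨by
    rw [hS.ed]
    exact Ed_mono hA (Ei_sub _ (ca2_lay hμ he)), ca2_disj he⟩
  set P := (G ×ˢ H).filter fun p => qv β q μ u p.1 p.2 < δ * Z1 β q (S0 μ u) with hP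
  set F : Fld × Fld → UC → ℝ := fun p u' => ind (AT (Tl u.w μ p.1) (u'.w ∩ Ed (mid μ))) *
    ind (AT (Tl u.b μ p.2) (u'.b ∩ Ed (mid μ))) with hF
  have hF0 : ∀ p u', 0 ≤ F p u' := fun p u' => mul_nonneg (ind_nonneg _) (ind_nonneg _)
  have h0 : 0 < Z1 β q (S0 μ u) :=
    Z1_pos (S := S0 μ u) hβ hS.pos ha ⟨0, (ca2_sg _ _).1⟩ ⟨0, (ca2_sg _ _).1⟩
  have h1 : Z β q (S.lc (mid μ) u) (fun u' => ∑ p ∈ P, F p u') * Z1 β q (S0 μ u) ≤
      #G * #H * (Z β q (S0 μ u) (fun u' => ∑ p ∈ P, F p u') * Z1 β q (S.lc (mid μ) u)) := by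
    refine Z_idx (S := S.lc (mid μ) u) (T₁ := T0 u.w μ) (U₁ := T0 u.b μ) hβ ha (ca2_sg _ _)
      hS'.grp.T0 (ca2_sg _ _) hS'.grp.U0 (fun σ hσ => ⟨σ, ?_, fun _ _ _ _ => rfl⟩)
      (fun σ hσ => ⟨σ, ?_, fun _ _ _ _ => rfl⟩) (fun σ hσ => hG' σ ?_) (fun σ hσ => hH' σ ?_)
      fun u' => sum_nonneg fun p _ => hF0 p u'
    · have := T0_sub hμ hA hS.grp.T0.1 hS.grp.Tf u.w hσ
      rwa [← hS.ed] at this
    · have := T0_sub hμ hA hS.grp.U0.1 hS.grp.Uf u.b hσ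
      rwa [← hS.ed] at this
    · exact cp_mono (inter_subset_inter Subset.rfl hlay) (mem_filter.1 hσ).2
    · exact cp_mono (inter_subset_inter Subset.rfl hlay) (mem_filter.1 hσ).2
  have hG4 : (#G : ℝ) ≤ 4 ^ N := by exact_mod_cast hG
  have hH4 : (#H : ℝ) ≤ 4 ^ N := by exact_mod_cast hH
  have hGH : (#G : ℝ) * #H ≤ 16 ^ N := by
    rw [show (16 : ℝ) = 4 * 4 by norm_num, mul_pow]
    exact mul_le_mul hG4 hH4 (Nat.cast_nonneg _) (pow_nonneg (by norm_num) _)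
  have h2 : Z β q (S0 μ u) (fun u' => ∑ p ∈ P, F p u') ≤ 16 ^ N * (δ * Z1 β q (S0 μ u)) := by
    rw [Z_sum]
    refine (sum_le_card_nsmul P _ (δ * Z1 β q (S0 μ u))
      fun p hp => (mem_filter.1 hp).2.le).trans ?_
    rw [nsmul_eq_mul]
    refine mul_le_mul_of_nonneg_right (le_trans ?_ hGH) (mul_nonneg hδ h0.le)
    have := card_filter_le (G ×ˢ H) fun p => qv β q μ u p.1 p.2 < δ * Z1 β q (S0 μ u)
    rw [card_product] at this
    exact_mod_cast this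
  refine le_trans (Z_mono (g := fun u' => ∑ p ∈ P, F p u') hβ hS'.grp.a01 fun u' hu' _ => ?_) ?_
  · obtain ⟨e1, e2, e3⟩ := ca2_frz hu'
    by_cases h : ¬ (Cr u'.w μ (N + 1) ∨ Cr u'.w (64 * μ) (N + 1) ∨
      Cr u'.b μ (N + 1) ∨ Cr u'.b (64 * μ) (N + 1)) ∧ Bad β q μ N δ u'
    swap
    · rw [ind_neg h]
      exact sum_nonneg fun p _ => hF0 p u'
    rw [ind_pos h]
    obtain ⟨hn, hb⟩ := h
    simp only [not_or] at hn
    rcases hb with hb | hb | hb | hb | ⟨l, l', k1, k2, k3, k4, k5⟩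
    · exact absurd hb hn.1
    · exact absurd hb hn.2.1
    · exact absurd hb hn.2.2.1
    · exact absurd hb hn.2.2.2
    have k6 := ca2_qv (β := β) (q := q) hμ e1 e2 (fun e _ v _ hv => e3 v hv) l l'
    rw [e1] at k1
    rw [e2] at k2
    rw [k6.1, k6.2] at k3
    rw [ca2_Tl hμ e1] at k4
    rw [ca2_Tl hμ e2] at k5
    obtain ⟨g, hg, σ, hσ, hl⟩ := hG' l k1
    obtain ⟨g', hg', σ', hσ', hl'⟩ := hH' l' k2
    have k7 : qv β q μ u g g' = qv β q μ u l l' := by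
      simp only [qv, ca2_AT' hσ hl, ca2_AT' hσ' hl']
    have k8 : (g, g') ∈ P := mem_filter.2 ⟨mem_product.2 ⟨hg, hg'⟩, k7.symm ▸ k3⟩
    refine le_trans ?_ (single_le_sum (f := fun p => F p u') (fun p _ => hF0 p u') k8)
    simp only [hF]
    rw [ind_pos (ca2_AT hσ hl k4), ind_pos (ca2_AT hσ' hl' k5), mul_one]
  · refine le_of_mul_le_mul_right (h1.trans ?_) h0
    calc (#G : ℝ) * #H * (Z β q (S0 μ u) (fun u' => ∑ p ∈ P, F p u') * Z1 β q (S.lc (mid μ) u))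
        ≤ 16 ^ N * (16 ^ N * (δ * Z1 β q (S0 μ u)) * Z1 β q (S.lc (mid μ) u)) :=
          mul_le_mul hGH (mul_le_mul_of_nonneg_right h2 hZ)
            (mul_nonneg (Z_nonneg (S := S0 μ u) hβ ha fun u' _ => sum_nonneg fun p _ => hF0 p u') hZ)
            (pow_nonneg (by norm_num) _)
      _ = 256 ^ N * δ * Z1 β q (S.lc (mid μ) u) * Z1 β q (S0 μ u) := by
          rw [show (256 : ℝ) = 16 * 16 by norm_num, mul_pow]
          ring

lemma ca2_split (a b c d e : Prop) (h : e) : ind e ≤ ind a + ind b + ind c + ind d +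
    ind (¬ (a ∨ b ∨ c ∨ d) ∧ e) := by
  have := ind_nonneg a
  have := ind_nonneg b
  have := ind_nonneg c
  have := ind_nonneg d
  have := ind_nonneg (¬ (a ∨ b ∨ c ∨ d) ∧ e)
  rw [ind_pos h]
  by_cases h1 : a ∨ b ∨ c ∨ d
  · rcases h1 with h1 | h1 | h1 | h1 <;> have := ind_pos h1 <;> linarith
  · have := ind_pos (p := ¬ (a ∨ b ∨ c ∨ d) ∧ e) ⟨h1, h⟩
    linarith

lemma bad_dep (hμ : 1 ≤ μ) (N : ℕ) (δ : ℝ) : Dep (ann μ (128 * μ)) (Ei (ann μ (128 * μ)))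
    fun u => ind (Bad β q μ N δ u) := fun _ _ ha hw hb =>
  congrArg ind (propext ⟨ca2_bad hμ ha hw hb,
    ca2_bad hμ (fun v hv => (ha v hv).symm) hw.symm hb.symm⟩)

lemma bad_ub (hβ : 0 ≤ β) : ∃ c > 0, ∃ n₀ : ℕ, ∀ (q : ℕ) (μ : ℤ) (N : ℕ) (δ : ℝ), 1 ≤ μ →
    n₀ ≤ N → 0 ≤ δ → UB β q (ann μ (128 * μ)) (fun u => ind (Bad β q μ N δ u))
      (4 * exp (-(c * N ^ 2)) + 256 ^ N * δ) := by
  obtain ⟨c, hc, n₀, h⟩ := cr_ub hβ
  refine ⟨c, hc, n₀, fun q μ N δ hμ hN hδ S hS hA => ?_⟩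
  have hZ := Z1_nonneg (q := q) hβ hS.grp.a01
  have he : exp (-(c * ((N + 1 : ℕ) : ℝ) ^ 2)) * Z1 β q S ≤ exp (-(c * N ^ 2)) * Z1 β q S := by
    refine mul_le_mul_of_nonneg_right (exp_le_exp.2 (neg_le_neg ?_)) hZ
    refine mul_le_mul_of_nonneg_left (pow_le_pow_left₀ (Nat.cast_nonneg _) ?_ 2) hc.le
    exact_mod_cast Nat.le_succ N
  have s1 : ann (μ + 1) (2 * μ - 1) ⊆ S.L := (ca2_ann (by omega) (by omega)).trans hA
  have s2 : ann (64 * μ + 1) (2 * (64 * μ) - 1) ⊆ S.L := (ca2_ann (by omega) (by omega)).trans hA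
  have u1 := h q μ (N + 1) hμ (by omega)
  have u2 := h q (64 * μ) (N + 1) (by omega) (by omega)
  have b1 := (u1 S hS s1).trans he
  have b2 := (u2 S hS s2).trans he
  have b3 : Z β q S (fun u => ind (Cr u.b μ (N + 1))) ≤ _ := (u1.sw S hS s1).trans he
  have b4 : Z β q S (fun u => ind (Cr u.b (64 * μ) (N + 1))) ≤ _ := (u2.sw S hS s2).trans he
  have b5 : Z β q S (fun u => ind (¬ (Cr u.w μ (N + 1) ∨ Cr u.w (64 * μ) (N + 1) ∨
      Cr u.b μ (N + 1) ∨ Cr u.b (64 * μ) (N + 1)) ∧ Bad β q μ N δ u)) ≤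
      Z β q S fun _ => 256 ^ N * δ := by
    refine dlr hβ hS.grp.a01 (lc_in hS.ed ((ca2_ann (by omega) (by omega)).trans hA :
      mid μ ⊆ S.L)) fun u hu _ => ?_
    rw [Z_const]
    exact ca2_loc hβ hμ hδ hS hA hu
  rw [Z_const] at b5
  refine le_trans (Z_mono (g := fun u => ind (Cr u.w μ (N + 1)) + ind (Cr u.w (64 * μ) (N + 1)) +
    ind (Cr u.b μ (N + 1)) + ind (Cr u.b (64 * μ) (N + 1)) + ind (¬ (Cr u.w μ (N + 1) ∨
      Cr u.w (64 * μ) (N + 1) ∨ Cr u.b μ (N + 1) ∨ Cr u.b (64 * μ) (N + 1)) ∧ Bad β q μ N δ u))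
    hβ hS.grp.a01 fun u _ _ => ?_) ?_
  · by_cases hb : Bad β q μ N δ u
    · exact ca2_split _ _ _ _ _ hb
    · rw [ind_neg hb]
      exact add_nonneg (add_nonneg (add_nonneg (add_nonneg (ind_nonneg _) (ind_nonneg _))
        (ind_nonneg _)) (ind_nonneg _)) (ind_nonneg _)
  · rw [Z_add, Z_add, Z_add, Z_add]
    linarith

end

end Pool.Agent.XYU

end

section

open Finset Real Relation

namespace Pool.Agent.XYU

open Classical

noncomputable section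

variable {β : ℝ} {q : ℕ} {S : Sys} {w : Es} {f : UC → ℝ} {μ : ℤ}

lemma ca3_lay (hμ : 1 ≤ μ) {Λ : Finset V} (hL : ann μ (128 * μ) ⊆ Λ) :
    lay μ ⊆ Ed Λ \ Ed (mid μ) := by
  intro e he
  induction e using Sym2.ind with
  | _ x y =>
    simp only [lay, mem_union, mem_Ei, mem_ann] at he
    rw [mem_sdiff, mem_Ed, mem_Ed]
    simp only [mid, mem_ann]
    rcases he with h | h
    · exact ⟨⟨h.1, Or.inl (hL (mem_ann.2 (by omega)))⟩, fun h' => by omega⟩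
    · exact ⟨⟨h.1, Or.inl (hL (mem_ann.2 (by omega)))⟩, fun h' => by omega⟩

lemma ca3_inter (hμ : 1 ≤ μ) {w w' : Es} (h : w' \ Ed (mid μ) = w \ Ed (mid μ)) :
    w' ∩ lay μ = w ∩ lay μ := by
  ext e
  rw [mem_inter, mem_inter]
  exact and_congr_left fun he => ac2_mem h (mem_sdiff.1 (ca3_lay hμ Subset.rfl he)).2

lemma ca3_cos (w : Es) (μ : ℤ) (l : Fld) : Cos (T0 w μ) (Tl w μ l) := by
  have hT : SG (T0 w μ) := (sg_Flip _).filter _
  intro σ₀ h0 σ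
  obtain ⟨ρ, hρ, rfl⟩ := mem_image.1 h0
  constructor
  · intro h
    obtain ⟨ρ', hρ', rfl⟩ := mem_image.1 h
    have : ρ' + l + (ρ + l) = ρ' + ρ + (l + l) := by abel
    rw [this, aa_add_self, add_zero]
    exact hT.2 _ hρ' _ hρ
  · intro h
    refine mem_image.2 ⟨_, hT.2 _ h _ hρ, ?_⟩
    have : σ + (ρ + l) + ρ + l = σ + (ρ + ρ) + (l + l) := by abel
    rw [this, aa_add_self, aa_add_self, add_zero, add_zero]

/-- the field cut to the complement of `A` -/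
def ca3_r (A : Finset V) (σ : Fld) : Fld := fun v => if v ∈ A then 0 else σ v

lemma ca3_piece (hμ : 1 ≤ μ) {Λ : Finset V} (hL : ann μ (128 * μ) ⊆ Λ) {T : Finset Fld}
    (hT : Fl Λ T) (w : Es) {k : Fld}
    (hk : k ∈ (T.filter fun σ => cp σ (w ∩ (Ed Λ \ Ed (mid μ)))).image (ca3_r (mid μ ∪ Fre w μ))) :
    ∃ l, cp l (w ∩ lay μ) ∧ ((T.filter fun σ => cp σ (w ∩ (Ed Λ \ Ed (mid μ)))).filter
      fun σ => ca3_r (mid μ ∪ Fre w μ) σ = k) = Tl w μ l := by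
  obtain ⟨l, hl, rfl⟩ := mem_image.1 hk
  obtain ⟨h1, h2⟩ := mem_filter.1 hl
  refine ⟨l, cp_mono (inter_subset_inter_left (ca3_lay hμ hL)) h2, ?_⟩
  ext σ
  rw [coset_eq hμ hL hT w h1 h2, mem_filter, mem_filter]
  refine and_congr_right fun _ => ⟨fun h v hv => ?_, fun h => funext fun v => ?_⟩
  · have := congrFun h v
    simpa only [ca3_r, if_neg hv] using this
  · by_cases hv : v ∈ mid μ ∪ Fre w μ
    · simp only [ca3_r, if_pos hv]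
    · simp only [ca3_r, if_neg hv, h v hv]

lemma ca3_one (hβ : 0 ≤ β) (hμ : 1 ≤ μ) {u : UC} (hS : LG q (S0 μ u)) (N : ℕ) {δ p : ℝ}
    (hδ : 0 < δ) (hp : 0 ≤ p) (hf : ∀ u, 0 ≤ f u) (h : UB β q (mid μ) f p) {l l' : Fld}
    (hl : cp l (u.w ∩ lay μ)) (hl' : cp l' (u.b ∩ lay μ)) :
    Z β q ⟨mid μ, Ed (mid μ), u, Tl u.w μ l, Tl u.b μ l'⟩ (fun u => f u * ind (¬ Bad β q μ N δ u)) ≤
      Z β q ⟨mid μ, Ed (mid μ), u, Tl u.w μ l, Tl u.b μ l'⟩ fun _ => p / δ := by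
  rw [Z_cos (S := ⟨mid μ, Ed (mid μ), u, Tl u.w μ l, Tl u.b μ l'⟩) (ca3_cos _ _ _) (ca3_cos _ _ _),
    Z_cos (S := ⟨mid μ, Ed (mid μ), u, Tl u.w μ l, Tl u.b μ l'⟩) (ca3_cos _ _ _) (ca3_cos _ _ _),
    Z_mul]
  show Z β q (S0 μ u) _ ≤ p / δ * qv β q μ u l l'
  have ha := hS.grp.a01
  by_cases hq : qv β q μ u l l' < δ * Z1 β q (S0 μ u)
  · have h0 : 0 ≤ qv β q μ u l l' :=
      Z_nonneg hβ ha fun _ _ => mul_nonneg (ind_nonneg _) (ind_nonneg _)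
    refine le_trans (Z_mono (g := fun _ => 0) hβ ha fun u' hu' _ => ?_) ?_
    · obtain ⟨b1, -, b2, b3⟩ := mem_Om.1 hu'
      have c1 := ca3_inter hμ b2
      have c2 := ca3_inter hμ b3
      have t1 : T0 u'.w μ = T0 u.w μ := T0_congr hμ c1
      have t2 : T0 u'.b μ = T0 u.b μ := T0_congr hμ c2
      have z : ∀ g, Z β q (S0 μ u') g = Z β q (S0 μ u) g := fun g =>
        Z_congr_x (S := S0 μ u) (S' := S0 μ u') rfl rfl t1 t2 b1 b2 b3 g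
      have s1 : Tl u'.w μ l = Tl u.w μ l := by rw [Tl, Tl, t1]
      have s2 : Tl u'.b μ l' = Tl u.b μ l' := by rw [Tl, Tl, t2]
      by_cases a1 : AT (Tl u.w μ l) (u'.w ∩ Ed (mid μ))
      · by_cases a2 : AT (Tl u.b μ l') (u'.b ∩ Ed (mid μ))
        · have hB : Bad β q μ N δ u' := by
            refine Or.inr (Or.inr (Or.inr (Or.inr ⟨l, l', c1 ▸ hl, c2 ▸ hl', ?_, s1 ▸ a1, s2 ▸ a2⟩)))
            rw [qv, Z1, z, z, s1, s2]
            exact hq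
          rw [ind_neg (not_not.2 hB), mul_zero, zero_mul]
        · rw [ind_neg a2, mul_zero, mul_zero]
      · rw [ind_neg a1, zero_mul, mul_zero]
    · rw [Z_const, zero_mul]
      exact mul_nonneg (div_nonneg hp hδ.le) h0
  · refine le_trans (Z_mono (g := f) hβ ha fun u' _ _ => ?_) ((h _ hS Subset.rfl).trans ?_)
    · exact (mul_le_of_le_one_right (mul_nonneg (hf _) (ind_nonneg _))
        (mul_le_one₀ (ind_le_one _) (ind_nonneg _) (ind_le_one _))).trans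
        (mul_le_of_le_one_right (hf _) (ind_le_one _))
    · have := mul_le_mul_of_nonneg_left (not_lt.1 hq) (div_nonneg hp hδ.le)
      rwa [← mul_assoc, div_mul_cancel₀ _ hδ.ne'] at this

theorem dens (hβ : 0 ≤ β) (hμ : 1 ≤ μ) {L : ℤ} (hL : 128 * μ ≤ L) {a : V → ℝ × ℝ}
    (hS : LG q (G0 L a)) (σ τ : Fld) (N : ℕ) {δ p : ℝ} (hδ : 0 < δ) (hp : 0 ≤ p)
    (hf : ∀ u, 0 ≤ f u) (h : UB β q (mid μ) f p) :
    Z β q (GS L a σ τ) (fun u => f u * ind (¬ Bad β q μ N δ u)) ≤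
      p / δ * Z1 β q (GS L a σ τ) := by
  have hA : ann μ (128 * μ) ⊆ bx 0 L := fun v hv => mem_bx0.2 ((mem_ann.1 hv).2.trans hL)
  have hM : mid μ ⊆ bx 0 L := fun v hv => mem_bx0.2 (by have := (mem_ann.1 hv).2; omega)
  have ha : A01 (GS L a σ τ).x.a := hS.grp.a01
  rw [← Z_const]
  refine dlr hβ ha (lc_in (S := GS L a σ τ) rfl hM) fun u hu _ => ?_
  have h0 : LG q (S0 μ u) :=
    lg_S0 hμ (a01_Om ha hu) hS.pos ((card_le_card (Ed_mono hM)).trans hS.sz)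
  rw [Z_split _ (ca3_r (mid μ ∪ Fre u.w μ)) (ca3_r (mid μ ∪ Fre u.b μ)),
    Z_split ((GS L a σ τ).cond _ _ u) (ca3_r (mid μ ∪ Fre u.w μ)) (ca3_r (mid μ ∪ Fre u.b μ))]
  refine sum_le_sum fun k hk => sum_le_sum fun k' hk' => ?_
  obtain ⟨l, h1, h2⟩ := ca3_piece hμ hA (fl_Off _ σ) u.w hk
  obtain ⟨l', h3, h4⟩ := ca3_piece hμ hA (fl_Off _ τ) u.b hk'
  have := ca3_one hβ hμ h0 N hδ hp hf h h1 h3
  rw [← h2, ← h4] at this
  exact this

end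

end Pool.Agent.XYU

end

section

open Finset Real Relation

namespace Pool.Agent.XYU

open Classical

noncomputable section

variable {β : ℝ} {q : ℕ} {S : Sys} {w : Es} {f : UC → ℝ} {μ : ℤ}

/-- the scales of the window -/
def sc (n j : ℕ) : ℤ := 2 ^ (2 ^ n / 4 + 10 * j)

/-- number of scales -/
def nJ (n : ℕ) : ℕ := 2 ^ n / 64

lemma ca4_pow (a : ℕ) : (128 : ℤ) * 2 ^ a = 2 ^ (a + 7) := by ring

lemma ca4_lt (n : ℕ) {i j : ℕ} (h : i < j) : 128 * sc n i < sc n j := by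
  unfold sc
  rw [ca4_pow]
  exact pow_lt_pow_right₀ (by norm_num) (by omega)

lemma ca4_le {n j : ℕ} (hj : j < nJ n) : 128 * sc n j ≤ 2 ^ (2 ^ n / 2) := by
  unfold sc
  unfold nJ at hj
  rw [ca4_pow]
  refine pow_le_pow_right₀ (by norm_num) ?_
  generalize 2 ^ n = M at hj ⊢
  omega

lemma ca4_cover (J s : ℕ) (P : ℕ → Prop) :
    ind (s ≤ #((range J).filter P)) ≤ ∑ B ∈ powersetCard s (range J), ∏ j ∈ B, ind (P j) := by
  by_cases h : s ≤ #((range J).filter P)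
  · obtain ⟨B, hB, hc⟩ := exists_subset_card_eq h
    rw [ind_pos h]
    have h1 : ∏ j ∈ B, ind (P j) = 1 :=
      prod_eq_one fun j hj => ind_pos (mem_filter.1 (hB hj)).2
    rw [← h1]
    exact single_le_sum (f := fun B : Finset ℕ => ∏ j ∈ B, ind (P j))
      (fun B _ => prod_nonneg fun j _ => ind_nonneg _)
      (mem_powersetCard.2 ⟨hB.trans (filter_subset _ _), hc⟩)
  · rw [ind_neg h]
    exact sum_nonneg fun B _ => prod_nonneg fun j _ => ind_nonneg _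

lemma ca4_ub (hβ : 0 ≤ β) {n N s : ℕ} {δ p : ℝ} (hp : 0 ≤ p)
    (h : ∀ j, UB β q (ann (sc n j) (128 * sc n j)) (fun u => ind (Bad β q (sc n j) N δ u)) p) :
    UB β q (bx 0 (2 ^ (2 ^ n / 2)))
      (fun u => ind (s ≤ #((range (nJ n)).filter fun j => Bad β q (sc n j) N δ u)))
      (2 ^ nJ n * p ^ s) := by
  intro S hS hL
  have hZ := Z1_nonneg (q := q) hβ hS.grp.a01
  have h1 : ∀ j, 1 ≤ sc n j := fun j => one_le_pow₀ (by norm_num)
  have key : ∀ B ∈ powersetCard s (range (nJ n)),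
      Z β q S (fun u => ∏ j ∈ B, ind (Bad β q (sc n j) N δ u)) ≤ p ^ s * Z1 β q S := by
    intro B hB
    obtain ⟨hB1, hB2⟩ := mem_powersetCard.1 hB
    have h2 := ub_prod (q := q) hβ B (Λ := bx 0 (2 ^ (2 ^ n / 2)))
      (fun j => ann (sc n j) (128 * sc n j)) (fun j => ann (sc n j) (128 * sc n j))
      (fun j u => ind (Bad β q (sc n j) N δ u)) (fun _ => p) (fun _ _ => hp)
      (fun _ _ _ => ind_nonneg _)
      (fun j hj x hx => mem_bx0.2 ((mem_ann.1 hx).2.trans (ca4_le (mem_range.1 (hB1 hj)))))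
      (fun j _ => bad_dep (h1 j) N δ)
      (fun i _ j _ hij => by
        rw [disjoint_left]
        intro x hx hx'
        rw [mem_ann] at hx hx'
        rcases lt_or_gt_of_ne hij with hlt | hlt
        · have := ca4_lt n hlt
          omega
        · have := ca4_lt n hlt
          omega)
      (fun j _ => h j) S hS hL
    rwa [prod_const, hB2] at h2
  calc _ ≤ Z β q S (fun u => ∑ B ∈ powersetCard s (range (nJ n)),
          ∏ j ∈ B, ind (Bad β q (sc n j) N δ u)) :=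
        Z_mono hβ hS.grp.a01 fun u _ _ => by convert ca4_cover (nJ n) s _
    _ = ∑ B ∈ powersetCard s (range (nJ n)),
          Z β q S (fun u => ∏ j ∈ B, ind (Bad β q (sc n j) N δ u)) := Z_sum _ _
    _ ≤ ∑ B ∈ powersetCard s (range (nJ n)), p ^ s * Z1 β q S := sum_le_sum key
    _ ≤ 2 ^ nJ n * p ^ s * Z1 β q S := by
        rw [sum_const, card_powersetCard, card_range, nsmul_eq_mul, mul_assoc]
        refine mul_le_mul_of_nonneg_right ?_ (mul_nonneg (pow_nonneg hp _) hZ)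
        exact_mod_cast Nat.choose_le_two_pow _ _

lemma ca4_log {M : ℕ} (hM : 2 ≤ M) : log (((2 ^ (M / 2) : ℤ) : ℝ) + 2) ≤ M := by
  have h1 : 2 ^ (M / 2) + 2 ≤ 2 ^ M := by
    have h2 : 2 ^ (M / 2 + 1) ≤ 2 ^ M := Nat.pow_le_pow_right (by norm_num) (by omega)
    have h3 : 2 ^ 1 ≤ 2 ^ (M / 2) := Nat.pow_le_pow_right (by norm_num) (by omega)
    rw [pow_succ] at h2
    omega
  have h2 : ((2 ^ (M / 2) : ℤ) : ℝ) + 2 ≤ 2 ^ M := by exact_mod_cast h1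
  have h3 : (2 : ℝ) ^ M ≤ exp M := by
    rw [← Real.exp_one_pow]
    exact pow_le_pow_left₀ (by norm_num) (by linarith [Real.add_one_le_exp 1]) _
  rw [Real.log_le_iff_le_exp (by positivity)]
  exact h2.trans h3

lemma many_bad (hβ : 0 ≤ β) : ∃ C : ℝ, 0 ≤ C ∧ ∀ (q n K N s : ℕ) (δ p : ℝ) (a : V → ℝ × ℝ)
    (σ τ : Fld), 8 ≤ n → LG q (G0 (2 ^ 2 ^ n) a) → 0 ≤ p →
      (∀ j, UB β q (ann (sc n j) (128 * sc n j)) (fun u => ind (Bad β q (sc n j) N δ u)) p) →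
      Z β q (GS (2 ^ 2 ^ n) a σ τ) (fun u =>
        ind (s ≤ #((range (nJ n)).filter fun j => Bad β q (sc n j) N δ u)) *
          ind (¬ Many (2 ^ 2 ^ n) (2 ^ (2 ^ n / 2)) K u)) ≤
        2 ^ nJ n * p ^ s * exp (C * (K + 1) * 2 ^ n) * Z1 β q (GS (2 ^ 2 ^ n) a σ τ) := by
  obtain ⟨C, hC, hT⟩ := transfer hβ
  refine ⟨C, hC, fun q n K N s δ p a σ τ hn hS hp h => ?_⟩
  have hM : 2 ≤ 2 ^ n := by
    have : 2 ^ 1 ≤ 2 ^ n := Nat.pow_le_pow_right (by norm_num) (by omega)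
    omega
  have h1 := hT q (2 ^ 2 ^ n) (2 ^ (2 ^ n / 2)) K a σ τ _ _ hS (one_le_pow₀ (by norm_num))
    (pow_le_pow_right₀ (by norm_num) (Nat.div_le_self _ _)) (fun u => ind_nonneg _)
    (by positivity) (ca4_ub (s := s) hβ hp h)
  refine le_trans h1 ?_
  clear h1 hT h
  have hZ : 0 ≤ Z1 β q (GS (2 ^ 2 ^ n) a σ τ) := Z1_nonneg hβ hS.grp.a01
  have h2 := ca4_log hM
  rw [Nat.cast_pow, Nat.cast_ofNat] at h2
  have h3 : (0 : ℝ) ≤ C * (K + 1) := mul_nonneg hC (Nat.cast_add_one_pos K).le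
  have h4 : (0 : ℝ) ≤ 2 ^ nJ n * p ^ s := mul_nonneg (pow_nonneg zero_le_two _) (pow_nonneg hp _)
  exact mul_le_mul_of_nonneg_right (mul_le_mul_of_nonneg_left (exp_le_exp.2
    (mul_le_mul_of_nonneg_left h2 h3)) h4) hZ

end

end Pool.Agent.XYU

end

section

open Finset Real Relation

namespace Pool.Agent.XYU

open Classical

noncomputable section

variable {β : ℝ} {q : ℕ} {S : Sys} {w : Es} {f : UC → ℝ} {μ : ℤ}

lemma ca_N {c : ℝ} (hc : 0 < c) {p : ℝ} (hp : 0 < p) (n₀ : ℕ) :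
    ∃ N : ℕ, n₀ ≤ N ∧ 4 * exp (-(c * N ^ 2)) ≤ p / 2 := by
  obtain ⟨N, hN⟩ := exists_nat_ge (8 / (c * p))
  refine ⟨max (N + 1) n₀, le_max_right _ _, ?_⟩
  have h1 : (N : ℝ) + 1 ≤ (max (N + 1) n₀ : ℕ) := by exact_mod_cast le_max_left _ _
  generalize ((max (N + 1) n₀ : ℕ) : ℝ) = M at h1
  have hN0 : (0 : ℝ) ≤ N := Nat.cast_nonneg N
  rw [div_le_iff₀ (by positivity)] at hN
  have h2 : c * M ^ 2 + 1 ≤ exp (c * M ^ 2) := add_one_le_exp _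
  have h3 : 8 ≤ c * M ^ 2 * p := by
    have h4 : (N : ℝ) ≤ M ^ 2 := by nlinarith
    have := mul_le_mul_of_nonneg_right h4 (mul_pos hc hp).le
    linarith
  rw [exp_neg, ← div_eq_mul_inv, div_le_iff₀ (exp_pos _)]
  nlinarith

lemma ca_small {θ D : ℝ} (hθ : 0 < θ) (hD : 0 ≤ D) {p : ℝ} (hp0 : 0 ≤ p)
    (hp : p ≤ exp (-(64 * (D + 2) / θ))) {n : ℕ} (hn : 6 ≤ n) :
    2 ^ nJ n * p ^ ⌈θ * nJ n⌉₊ * exp (D * 2 ^ n) ≤ exp (-(2 ^ n)) := by
  have hJ : (nJ n : ℝ) * 64 = 2 ^ n := by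
    have : 64 ∣ 2 ^ n := pow_dvd_pow 2 hn
    have h := Nat.div_mul_cancel this
    unfold nJ
    exact_mod_cast h
  have hJ0 : (0 : ℝ) ≤ nJ n := Nat.cast_nonneg _
  have h1 : (2 : ℝ) ^ nJ n ≤ exp (2 ^ n) := by
    have h3 : (2 : ℝ) ≤ exp 1 := by linarith [add_one_le_exp (1 : ℝ)]
    calc (2 : ℝ) ^ nJ n ≤ exp 1 ^ nJ n := pow_le_pow_left₀ (by norm_num) h3 _
      _ = exp (nJ n) := by rw [← exp_nat_mul, mul_one]
      _ ≤ _ := exp_le_exp.2 (by linarith)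
  have h2 : p ^ ⌈θ * nJ n⌉₊ ≤ exp (-((D + 2) * 2 ^ n)) := by
    refine (pow_le_pow_left₀ hp0 hp _).trans ?_
    rw [← exp_nat_mul]
    refine exp_le_exp.2 ?_
    have h4 := Nat.le_ceil (θ * nJ n)
    have h5 := mul_le_mul_of_nonneg_right h4 (show 0 ≤ 64 * (D + 2) / θ by positivity)
    have h6 : θ * nJ n * (64 * (D + 2) / θ) = (D + 2) * 2 ^ n := by
      rw [← hJ]
      field_simp
    linarith
  calc _ ≤ exp (2 ^ n) * exp (-((D + 2) * 2 ^ n)) * exp (D * 2 ^ n) := by gcongr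
    _ = _ := by
      rw [← exp_add, ← exp_add]
      congr 1
      ring

theorem good_scales (hβ : 0 ≤ β) {θ : ℝ} (hθ : 0 < θ) : ∃ N : ℕ, ∃ δ > 0, ∀ ε > 0, ∃ n₀ : ℕ,
    ∀ n ≥ n₀, ∀ (q : ℕ) (a : V → ℝ × ℝ) (σ τ : Fld), LG q (G0 (2 ^ 2 ^ n) a) →
      Z β q (GS (2 ^ 2 ^ n) a σ τ) (fun u =>
        ind (θ * nJ n ≤ #((range (nJ n)).filter fun j => Bad β q (sc n j) N δ u))) ≤
        ε * Z1 β q (GS (2 ^ 2 ^ n) a σ τ) := by
  obtain ⟨K₀, ht⟩ := tight hβ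
  obtain ⟨C, hC, hm⟩ := many_bad hβ
  obtain ⟨c, hc, N₀, hb⟩ := bad_ub hβ
  have hp := exp_pos (-(64 * (C * (K₀ + 1) + 2) / θ))
  obtain ⟨N, hN, hN'⟩ := ca_N hc hp N₀
  refine ⟨N, exp (-(64 * (C * (K₀ + 1) + 2) / θ)) / 2 / 256 ^ N,
    div_pos (half_pos hp) (pow_pos (by norm_num) _), fun ε hε => ?_⟩
  obtain ⟨n₁, h₁⟩ := ht (ε / 2) (half_pos hε)
  obtain ⟨n₂, h₂⟩ := exists_nat_ge (2 / ε)
  refine ⟨max (max n₁ n₂) 8, fun n hn q a σ τ hS => ?_⟩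
  have hn1 : n₁ ≤ n := (le_max_left _ _).trans ((le_max_left _ _).trans hn)
  have hn2 : n₂ ≤ n := (le_max_right _ _).trans ((le_max_left _ _).trans hn)
  have hn8 : 8 ≤ n := (le_max_right _ _).trans hn
  generalize hδ : exp (-(64 * (C * (K₀ + 1) + 2) / θ)) / 2 / 256 ^ N = δ
  have hδ0 : 0 ≤ δ := by
    rw [← hδ]
    exact div_nonneg (half_pos hp).le (pow_nonneg (by norm_num) _)
  have hδ1 : 4 * exp (-(c * N ^ 2)) + 256 ^ N * δ ≤ exp (-(64 * (C * (K₀ + 1) + 2) / θ)) := by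
    have : (256 : ℝ) ^ N * δ = exp (-(64 * (C * (K₀ + 1) + 2) / θ)) / 2 := by
      rw [← hδ]
      exact mul_div_cancel₀ _ (pow_ne_zero _ (by norm_num))
    linarith
  have ha : A01 (GS (2 ^ 2 ^ n) a σ τ).x.a := hS.grp.a01
  have hZ := Z1_nonneg (q := q) hβ ha
  have hp0 : 0 ≤ 4 * exp (-(c * N ^ 2)) + 256 ^ N * δ :=
    add_nonneg (mul_nonneg (by norm_num) (exp_pos _).le) (mul_nonneg (pow_nonneg (by norm_num) _) hδ0)
  have h3 := hm q n K₀ N ⌈θ * nJ n⌉₊ δ _ a σ τ hn8 hS hp0 fun j =>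
    hb q _ N δ (one_le_pow₀ (by norm_num)) hN hδ0
  have h4 := ca_small hθ (mul_nonneg hC (Nat.cast_add_one_pos K₀).le) hp0 hδ1 (n := n) (by omega)
  have h5 : exp (-(2 ^ n : ℝ)) ≤ ε / 2 := by
    have h6 : (n : ℝ) ≤ 2 ^ n := by exact_mod_cast (Nat.lt_two_pow_self (n := n)).le
    have h7 : (n₂ : ℝ) ≤ n := by exact_mod_cast hn2
    have h8 := add_one_le_exp ((2 : ℝ) ^ n)
    rw [div_le_iff₀ hε] at h₂
    rw [exp_neg, inv_le_iff_one_le_mul₀ (exp_pos _)]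
    nlinarith
  have h9 := Z_mono (q := q) hβ ha (f := fun u =>
      ind (θ * nJ n ≤ #((range (nJ n)).filter fun j => Bad β q (sc n j) N δ u)))
    (g := fun u => ind (Many (2 ^ 2 ^ n) (2 ^ (2 ^ n / 2)) K₀ u) +
      ind (⌈θ * nJ n⌉₊ ≤ #((range (nJ n)).filter fun j => Bad β q (sc n j) N δ u)) *
        ind (¬ Many (2 ^ 2 ^ n) (2 ^ (2 ^ n / 2)) K₀ u)) fun u _ _ => by
    by_cases hM : Many (2 ^ 2 ^ n) (2 ^ (2 ^ n / 2)) K₀ u
    · rw [ind_pos hM, ind_neg (not_not.2 hM), mul_zero, add_zero]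
      exact ind_le_one _
    · rw [ind_neg hM, ind_pos hM, mul_one, zero_add]
      exact ind_mono Nat.ceil_le.2
  rw [Z_add] at h9
  have h10 := h₁ n hn1 q a σ τ hS
  have h11 := mul_le_mul_of_nonneg_right (h4.trans h5) hZ
  linarith

end

end Pool.Agent.XYU

end

end
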