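import Pool.Agent.MP_b591f0_mp.Mg.XY_D1

-- part MP_b591f0_mp.XY.D2
section

section

open Finset Real Relation

namespace Pool.Agent.XYU

open Classical

noncomputable section

/-! Certificates. `big_iff`: if the cluster in `P` stays within distance `2W` of `(z,0)` it is the
cluster in the half box; otherwise `Cn.first` at distance `2W+1` gives a witness together with
`(z,0)` itself. `end_big`: for `d = true` the point `y` is the right end `b` of its pair.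
`end_tip`: `k` is the cluster in the half box; it reaches norm `W` since the diameter exceeds `2W`
(`Cn.first`); if `y + sn d * t` were in `k`, it would be big (`big_iff` with the half plane), with
label one (`Cn.eq`), inside `[8W, l-8W]` by `hz`; as `y + sn d` is not in a run, some big `r`
strictly between has label zero; its cluster in its half box is disjoint from `k` and by `pl_half`
confined to the half box of `y`, of diameter `2W`: contradiction.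
`cert_fun`: `f z = -1` on `R`, `ramp (sc y d) r` if `z = y + sn d * r` with `0 < r ≤ 12 sc y d` for
an end `(y,d)` (unique by `sep`), `1` otherwise.
`lift`: `A t = π/4 + ∑ s ∈ Ico a t, arg (z (s+1) / z s)` with `z = f + i g`, `‖z‖ ≥ 1`;
`|arg ζ| ≤ π λ` if `‖ζ - 1‖ ≤ λ ≤ 1/2`; at `t = b` the exponential returns to its initial value,
so `A b - π/4 ∈ 2π ℤ`.
`window`: each pair of points excludes at most one `b`.
`cert_of_ent`: ends are tips (`end_tip`); choose `sc`, `kk` from `Ent`; `jM = g 4^(b(2n+8)+2n+3)`;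
`sep`: the first run point `z` after `y` in direction `d` is an end `(z, !d)`, hence in `TS`, so
its distance to `y` is below `g 4^(b(2n+8)) ≤ 7 sc`; it is big, so it has a walk to distance `W`,
contradicting `next_tip`. `ec_of_ent`: `window` for the union of the first coordinates of both
sets of tips; red uses `c = false`, blue `c = true`; if `|f z| < 1` and `|g z| < 1` then `z` is at
distance in `(4j, 12j)` from a red end and in `(4j', 12j')` from a blue end, impossible;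
`f = g = 1` off `(7W, l - 7W)`; `lift`. `Cert.congr`: `big` at points of `[8W, l-8W]`, `Tip.congr`,
`gd_congr` with `ed_fz`. -/

variable {β : ℝ} {q : ℕ} {p : Par} {w w' : Es} {u u' : UC} {σ τ : Fld}

lemma dc1_mem {W z : ℤ} {v : V} :
    v ∈ ((rect (z - (2 * W + 1)) (z + (2 * W + 1)) 0 (2 * W + 1) : Finset V) : Set V) ↔
      dd v (z, 0) ≤ 2 * W + 1 ∧ 0 ≤ v.2 := by
  rw [mem_coe, mem_rect]
  unfold dd
  simp only
  omega

lemma big_iff {W z : ℤ} {P : Set V} (hW : 0 ≤ W)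
    (hP : ∀ v, dd v (z, 0) ≤ 2 * W + 1 → (v ∈ P ↔ 0 ≤ v.2)) :
    big W w z ↔ ∃ v v', Cn w P (z, 0) v ∧ Cn w P (z, 0) v' ∧ 2 * W < dd v v' := by
  have h1 : ((rect (z - (2 * W + 1)) (z + (2 * W + 1)) 0 (2 * W + 1) : Finset V) : Set V) ⊆ P :=
    fun v hv => (hP v (dc1_mem.1 hv).1).2 (dc1_mem.1 hv).2
  constructor
  · rintro ⟨v, v', hv, hv', hd⟩
    exact ⟨v, v', hv.mono h1 fun _ _ _ _ _ h => h, hv'.mono h1 fun _ _ _ _ _ h => h, hd⟩
  · rintro ⟨v, v', hv, hv', hd⟩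
    by_cases H : ∃ x, Cn w (rect (z - (2 * W + 1)) (z + (2 * W + 1)) 0 (2 * W + 1)) (z, 0) x ∧
        2 * W < dd x (z, 0)
    · obtain ⟨x, hx, hx'⟩ := H
      exact ⟨x, (z, 0), hx, ReflTransGen.refl, hx'⟩
    · have key : ∀ x, Cn w P (z, 0) x →
          Cn w (rect (z - (2 * W + 1)) (z + (2 * W + 1)) 0 (2 * W + 1)) (z, 0) x := by
        intro x hx
        refine hx.closed (N := {x | Cn w (rect (z - (2 * W + 1)) (z + (2 * W + 1)) 0 (2 * W + 1))
          (z, 0) x}) ReflTransGen.refl fun a b ha haP hbP hab hw => ?_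
        have h2 : dd a (z, 0) ≤ 2 * W := not_lt.1 fun h => H ⟨a, ha, h⟩
        have h3 : dd b (z, 0) ≤ 2 * W + 1 := by
          have h4 := dd_tri b a (z, 0)
          have h5 := hab.symm.dd
          omega
        exact Cn.step ha (dc1_mem.2 ⟨by omega, (hP a (by omega)).1 haP⟩)
          (dc1_mem.2 ⟨h3, (hP b h3).1 hbP⟩) hab hw
      exact ⟨v, v', key v hv, key v' hv', hd⟩

lemma big_reach {W z : ℤ} (h : big W w z) :
    ∃ v, W ≤ dd v (z, 0) ∧ Cn w {x | 0 ≤ x.2} (z, 0) v := by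
  obtain ⟨v, v', hv, hv', hd⟩ := h
  have h1 : ((rect (z - (2 * W + 1)) (z + (2 * W + 1)) 0 (2 * W + 1) : Finset V) : Set V) ⊆
      {x | 0 ≤ x.2} := fun v hv => (dc1_mem.1 hv).2
  have h2 := dd_tri v (z, 0) v'
  rw [dd_comm (z, 0) v'] at h2
  by_cases h3 : W ≤ dd v (z, 0)
  · exact ⟨v, h3, hv.mono h1 fun _ _ _ _ _ h => h⟩
  · exact ⟨v', by omega, hv'.mono h1 fun _ _ _ _ _ h => h⟩

lemma run_range {z : ℤ} (h : Run p w σ z) : 8 * p.W ≤ z ∧ z ≤ p.l - 8 * p.W := by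
  obtain ⟨a, b, h1, h2, h3, h4, -⟩ := h
  omega

lemma run_of_big {z : ℤ} (hW : 0 ≤ p.W) (h₁ : 8 * p.W ≤ z) (h₂ : z ≤ p.l - 8 * p.W)
    (hb : big p.W w z) : Run p w σ z ↔ σ (z, 0) = 1 := by
  constructor
  · rintro ⟨a, b, -, h2, h3, -, -, -, -, h⟩
    exact h z h2 h3 hb
  · intro h
    refine ⟨z, z, h₁, le_rfl, le_rfl, h₂, by omega, hb, hb, fun r h1 h2 _ => ?_⟩
    rw [le_antisymm h2 h1]
    exact h

lemma end_big {y : ℤ} {d : Bool} (h : End p w σ y d) : big p.W w y ∧ σ (y, 0) = 1 := by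
  obtain ⟨⟨a, b, h1, h2, h3, h4, h5, ha, hb, h6⟩, hn⟩ := h
  have key : big p.W w y := by
    cases d with
    | true =>
      by_cases hy : y = b
      · rw [hy]; exact hb
      · refine absurd ⟨a, b, h1, ?_, ?_, h4, h5, ha, hb, h6⟩ hn <;> simp only [sn, if_true] <;> omega
    | false =>
      by_cases hy : y = a
      · rw [hy]; exact ha
      · refine absurd ⟨a, b, h1, ?_, ?_, h4, h5, ha, hb, h6⟩ hn <;>
          simp only [sn, Bool.false_eq_true, if_false] <;> omega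
  exact ⟨key, h6 y h2 h3 key⟩

end

end Pool.Agent.XYU

end

section

open Finset Real Relation

namespace Pool.Agent.XYU

open Classical

noncomputable section

variable {β : ℝ} {q : ℕ} {p : Par} {w w' : Es} {u u' : UC} {σ τ : Fld}

lemma dc2_mono {P Q : Set V} {x y : V} (h : Cn w P x y) (hP : P ⊆ Q) : Cn w Q x y :=
  h.mono hP fun _ _ _ _ _ h => h

lemma dc2_big {W z : ℤ} (hW : 0 ≤ W) : big W w z ↔ ∃ v v', Cn w {x | 0 ≤ x.2} (z, 0) v ∧
    Cn w {x | 0 ≤ x.2} (z, 0) v' ∧ 2 * W < dd v v' :=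
  big_iff hW fun _ _ => Iff.rfl

lemma dc2_big_of {W a b : ℤ} (hW : 0 ≤ W) (h : Cn w {x | 0 ≤ x.2} (a, 0) (b, 0))
    (hb : big W w b) : big W w a := by
  obtain ⟨v, v', h1, h2, h3⟩ := (dc2_big hW).1 hb
  exact (dc2_big hW).2 ⟨v, v', h.trans h1, h.trans h2, h3⟩

/-- a big point below an arch in a half box has the label of the arch -/
lemma dc2_sep (hp : p.Ok) (hc : cpl σ w (rect 0 p.l 0 (3 * p.W))) {y a b r : ℤ}
    (h1 : 8 * p.W ≤ y) (h2 : y ≤ p.l - 8 * p.W) (ha : y - p.W ≤ a) (hb : b ≤ y + p.W)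
    (har : a < r) (hrb : r < b) (h : Cn w (rect (y - p.W) (y + p.W) 0 p.W) (a, 0) (b, 0))
    (hr : big p.W w r) : σ (r, 0) = σ (a, 0) := by
  have g1 := hp.g1
  have g2 := hp.gW
  by_contra hn
  obtain ⟨v, v', c1, c2, c3⟩ := hr
  have sA : ((rect (y - p.W) (y + p.W) 0 p.W : Finset V) : Set V) ⊆ rect 0 p.l 0 (3 * p.W) := by
    intro z hz
    rw [mem_coe, mem_rect] at hz ⊢
    omega
  have sB : ((rect (r - (2 * p.W + 1)) (r + (2 * p.W + 1)) 0 (2 * p.W + 1) : Finset V) : Set V) ⊆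
      rect 0 p.l 0 (3 * p.W) := by
    intro z hz
    rw [mem_coe, mem_rect] at hz ⊢
    omega
  have m0 : ((r, 0) : V) ∈
      ((rect (r - (2 * p.W + 1)) (r + (2 * p.W + 1)) 0 (2 * p.W + 1) : Finset V) : Set V) := by
    rw [mem_coe, mem_rect]
    omega
  have key : ∀ z, Cn w (rect (r - (2 * p.W + 1)) (r + (2 * p.W + 1)) 0 (2 * p.W + 1)) (r, 0) z →
      (y - p.W ≤ z.1 ∧ z.1 ≤ y + p.W ∧ z.2 ≤ p.W) ∧ 0 ≤ z.2 := fun z hz =>
    ⟨pl_half (fun x hx => mem_rect.1 (mem_coe.1 hx.1)) h.lc har hrb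
      (fun x hx => ⟨(mem_rect.1 (mem_coe.1 hx.1)).2.2.1, fun hx' =>
        hn (((dc2_mono hx.2 sB).eq hc).trans ((dc2_mono hx'.2 sA).eq hc).symm)⟩)
      (And.intro m0 ReflTransGen.refl) hz.lc, (mem_rect.1 (mem_coe.1 (hz.mem m0))).2.2.1⟩
  have k1 := key v c1
  have k2 := key v' c2
  unfold dd at c3
  omega

lemma dc2_cn {W y : ℤ} {d : Bool} {x x' : V} : Cn (u.pull (tf y d)).w (HB W) x x' ↔
    Cn u.w (rect (y - W) (y + W) 0 W) (tf y d x) (tf y d x') := by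
  rw [← cn_pull (isFr_tf y d)]
  have : ((HB W : Finset V) : Set V) = tf y d ⁻¹' (rect (y - W) (y + W) 0 W : Finset V) := by
    ext z
    rw [Set.mem_preimage, mem_coe, mem_coe, HB, mem_rect, mem_rect]
    cases d <;> simp [tf] <;> omega
  rw [this]

lemma dc2_tf (y t : ℤ) (d : Bool) : tf y d (t, 0) = (y + sn d * t, 0) := by
  cases d <;> simp [tf, sn, sub_eq_add_neg]

lemma end_tip (hp : p.Ok) (hz : ∀ v, dd v (0, 0) ≤ 8 * p.W ∨ dd v (p.l, 0) ≤ 8 * p.W → σ v = 0)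
    (hc : cpl σ u.w (rect 0 p.l 0 (3 * p.W))) {y : ℤ} {d : Bool} (h : End p u.w σ y d) :
    TipAt p.W y d u := by
  have g1 := hp.g1
  have g2 := hp.gW
  have hW : 0 ≤ p.W := by omega
  obtain ⟨b1, b2⟩ := end_big h
  obtain ⟨r1, r2⟩ := run_range h.1
  have t0 : tf y d 0 = (y, 0) := (dc2_tf y 0 d).trans (by rw [mul_zero, add_zero])
  refine ⟨_, rfl, ?_, fun t ht hk => ?_⟩
  · obtain ⟨v, v1, v2⟩ := big_reach b1
    obtain ⟨z, z1, z2, -⟩ := v2.first (fun x => dd x (y, 0)) (fun a b hab => by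
      have := dd_tri b a (y, 0)
      have := hab.symm.dd
      omega) (r := p.W) (by simpa [dd] using hW) v1
    have z3 : Cn u.w (rect (y - p.W) (y + p.W) 0 p.W) (y, 0) z := dc2_mono z2 fun x hx => by
      have x1 : 0 ≤ x.2 := hx.1
      have x2 : dd x (y, 0) ≤ p.W := hx.2
      rw [mem_coe, mem_rect]
      unfold dd at x2
      omega
    have z4 : Cn (u.pull (tf y d)).w (HB p.W) 0 ((tf y d).symm z) := by
      rwa [dc2_cn, t0, Equiv.apply_symm_apply]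
    refine ⟨(tf y d).symm z, mem_cl.2 ⟨z4.mem ?_, z4⟩, ?_⟩
    · rw [mem_coe, HB, mem_rect]
      simpa using hW
    · rw [← dd_zero, ← (isFr_tf y d).dd, t0, Equiv.apply_symm_apply, z1]
  · obtain ⟨k1, k2⟩ := mem_cl.1 hk
    rw [HB, mem_rect] at k1
    have k3 : t ≤ p.W := k1.2.1
    rw [dc2_cn, t0, dc2_tf] at k2
    have sA : ((rect (y - p.W) (y + p.W) 0 p.W : Finset V) : Set V) ⊆ rect 0 p.l 0 (3 * p.W) := by
      intro z hz
      rw [mem_coe, mem_rect] at hz ⊢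
      omega
    have c1 := dc2_big_of hW
      (dc2_mono k2.symm fun z hz => (mem_rect.1 (mem_coe.1 hz)).2.2.1) b1
    have c2 : σ (y + sn d * t, 0) = 1 := ((dc2_mono k2 sA).eq hc).symm.trans b2
    have c3 : ¬ (dd (y + sn d * t, 0) (0, 0) ≤ 8 * p.W ∨ dd (y + sn d * t, 0) (p.l, 0) ≤ 8 * p.W) :=
      fun e => zero_ne_one ((hz _ e).symm.trans c2)
    unfold dd at c3
    refine h.2 ?_
    cases d
    · have e : sn false = -1 := rfl
      rw [e] at k2 c1 c2 c3 ⊢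
      refine ⟨y + -1 * t, y, by omega, by omega, by omega, r2, by omega, c1, b1,
        fun r q1 q2 q3 => ?_⟩
      rcases q1.eq_or_lt with rfl | q1
      · exact c2
      rcases q2.eq_or_lt with rfl | q2
      · exact b2
      exact (dc2_sep hp hc r1 r2 (by omega) (by omega) q1 q2 k2.symm q3).trans c2
    · have e : sn true = 1 := rfl
      rw [e] at k2 c1 c2 c3 ⊢
      refine ⟨y, y + 1 * t, r1, by omega, by omega, by omega, by omega, b1, c1,
        fun r q1 q2 q3 => ?_⟩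
      rcases q1.eq_or_lt with rfl | q1
      · exact b2
      rcases q2.eq_or_lt with rfl | q2
      · exact c2
      exact (dc2_sep hp hc r1 r2 (by omega) (by omega) q1 q2 k2 q3).trans b2

/-- no point below a small arch is big -/
lemma dc2_small {W a b r : ℤ} (hW : 0 ≤ W) (hc : Cn w {x | 0 ≤ x.2} (a, 0) (b, 0))
    (hs : ¬ big W w a) (h1 : a ≤ r) (h2 : r ≤ b) : ¬ big W w r := by
  intro hr
  have hn : ¬ Cn w {x | 0 ≤ x.2} (a, 0) (r, 0) := fun e => hs (dc2_big_of hW e hr)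
  have h3 : a < r := h1.lt_of_ne fun e => hn (e ▸ ReflTransGen.refl)
  have h4 : r < b := h2.lt_of_ne fun e => hn (e ▸ hc)
  have hd : ∀ v v', Cn w {x | 0 ≤ x.2} (a, 0) v → Cn w {x | 0 ≤ x.2} (a, 0) v' →
      dd v v' ≤ 2 * W := fun v v' e e' => not_lt.1 fun e'' => hs ((dc2_big hW).2 ⟨v, v', e, e', e''⟩)
  obtain ⟨L, ⟨z, z1, z2⟩, hL⟩ := Int.exists_least_of_bdd
    (P := fun t => ∃ z, Cn w {x | 0 ≤ x.2} (a, 0) z ∧ z.1 = t)
    ⟨a - 2 * W, fun t ⟨z, z1, z2⟩ => by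
      have := hd _ _ ReflTransGen.refl z1
      unfold dd at this
      omega⟩ ⟨a, _, ReflTransGen.refl, rfl⟩
  obtain ⟨v, v', c1, c2, c3⟩ := (dc2_big hW).1 hr
  have m0 : ((r, 0) : V) ∈ {x : V | 0 ≤ x.2} := le_refl (0 : ℤ)
  have key : ∀ x, Cn w {x | 0 ≤ x.2} (r, 0) x →
      (L ≤ x.1 ∧ x.1 ≤ L + 2 * W ∧ x.2 ≤ 2 * W) ∧ 0 ≤ x.2 := fun x hx =>
    ⟨pl_half (fun s hs => by
        have e1 := hL _ ⟨s, hs.2, rfl⟩
        have e2 := hd _ _ z1 hs.2
        have e3 := hd _ _ ReflTransGen.refl hs.2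
        have e4 : 0 ≤ s.2 := hs.1
        unfold dd at e2 e3
        omega) hc.lc h3 h4
      (fun s hs => ⟨hs.1, fun hs' => hn (hs'.2.trans hs.2.symm)⟩)
      (And.intro m0 ReflTransGen.refl) hx.lc,
      hx.mem m0⟩
  have k1 := key v c1
  have k2 := key v' c2
  unfold dd at c3
  omega

/-- boundary points of a small cluster are both in runs or both not -/
lemma run_small (hp : p.Ok) {a b : ℤ} (hab : a ≤ b) (ha : 3 * p.W ≤ a) (hb : b ≤ p.l - 3 * p.W)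
    (hc : Cn w {x | 0 ≤ x.2} (a, 0) (b, 0)) (hs : ¬ big p.W w a) :
    Run p w σ a ↔ Run p w σ b := by
  have g1 := hp.g1
  have g2 := hp.gW
  have hW : 0 ≤ p.W := by omega
  constructor
  · rintro ⟨s, t, h1, h2, h3, h4, h5, h6, h7, h8⟩
    exact ⟨s, t, h1, h2.trans hab, le_of_not_ge fun e => dc2_small hW hc hs h3 e h7, h4, h5, h6,
      h7, h8⟩
  · rintro ⟨s, t, h1, h2, h3, h4, h5, h6, h7, h8⟩
    exact ⟨s, t, h1, le_of_not_ge fun e => dc2_small hW hc hs e h2 h6, hab.trans h3, h4, h5, h6,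
      h7, h8⟩

end

end Pool.Agent.XYU

end

section

open Finset Real Relation

namespace Pool.Agent.XYU

open Classical

noncomputable section

variable {β : ℝ} {q : ℕ} {p : Par} {w w' : Es} {u u' : UC} {σ τ : Fld}

lemma dc3_bd (j r : ℤ) : |ramp j r| ≤ 1 :=
  abs_le.2 ⟨le_max_left _ _, max_le (by norm_num) (min_le_left _ _)⟩

lemma dc3_step {g j r r' : ℤ} (hg : 1 ≤ g) (hj : g ≤ j) (h : r' ≤ r + 1) :
    ramp j r' ≤ ramp j r + 1 / (4 * g) := by
  have h1 : (1 : ℝ) ≤ g := by exact_mod_cast hg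
  have h2 : (g : ℝ) ≤ j := by exact_mod_cast hj
  have h3 : (r' : ℝ) ≤ r + 1 := by exact_mod_cast h
  have h4 : (1 : ℝ) / (4 * j) ≤ 1 / (4 * g) :=
    one_div_le_one_div_of_le (by linarith) (by linarith)
  have h5 : ((r' : ℝ) - 8 * j) / (4 * j) ≤ ((r : ℝ) - 8 * j) / (4 * j) + 1 / (4 * j) := by
    rw [← add_div]; exact div_le_div_of_nonneg_right (by linarith) (by linarith)
  have h6 : (0 : ℝ) ≤ 1 / (4 * g) := by positivity
  simp only [ramp, max_def, min_def]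
  split_ifs <;> linarith

lemma dc3_one {j : ℤ} (hj : 1 ≤ j) : ramp j 1 = -1 := by
  have h1 : (1 : ℝ) ≤ j := by exact_mod_cast hj
  refine max_eq_left ((min_le_right _ _).trans ?_)
  rw [div_le_iff₀ (by linarith)]
  push_cast
  linarith

lemma dc3_top {j : ℤ} (hj : 1 ≤ j) : ramp j (12 * j) = 1 := by
  have h1 : (1 : ℝ) ≤ j := by exact_mod_cast hj
  have h2 : (((12 * j : ℤ) : ℝ) - 8 * j) / (4 * j) = 1 := by
    rw [div_eq_one_iff_eq (by linarith)]; push_cast; ring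
  rw [ramp, h2]
  norm_num

lemma dc3_arg {ζ : ℂ} {l : ℝ} (h : ‖ζ - 1‖ ≤ l) (hl : l ≤ 1 / 2) : |ζ.arg| ≤ 4 * l := by
  have h1 : |ζ.re - 1| ≤ l := by simpa using (Complex.abs_re_le_norm (ζ - 1)).trans h
  have h2 : |ζ.im| ≤ l := by simpa using (Complex.abs_im_le_norm (ζ - 1)).trans h
  have h3 : 1 / 2 ≤ ζ.re := by linarith [(abs_le.1 h1).1]
  have h4 : 1 / 2 ≤ ‖ζ‖ := h3.trans (Complex.re_le_norm ζ)
  have h5 := Real.mul_abs_le_abs_sin (Complex.abs_arg_le_pi_div_two_iff.2 (by linarith : 0 ≤ ζ.re))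
  have hl0 : 0 ≤ l := (norm_nonneg _).trans h
  have h6 : |sin ζ.arg| ≤ 2 * l := by
    rw [Complex.sin_arg, abs_div, abs_norm, div_le_iff₀ (by linarith)]
    nlinarith
  have h7 : (1 : ℝ) / 2 ≤ 2 / π := by
    rw [div_le_div_iff₀ two_pos pi_pos]; linarith [pi_le_four]
  nlinarith [abs_nonneg ζ.arg]

lemma cert_fun (R : ℤ → Prop) (sc : ℤ → Bool → ℤ) {g jM : ℤ} (hg : 1 ≤ g)
    (hsc : ∀ y d, R y → ¬ R (y + sn d) → g ≤ sc y d ∧ sc y d ≤ jM)
    (sep : ∀ y d, R y → ¬ R (y + sn d) → ∀ r, 0 < r → r ≤ 24 * jM → ¬ R (y + sn d * r)) :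
    ∃ f : ℤ → ℝ, (∀ z, |f (z + 1) - f z| ≤ 1 / (4 * g)) ∧ (∀ z, |f z| ≤ 1) ∧
      (∀ z, R z → f z = -1) ∧
      (∀ y d, R y → ¬ R (y + sn d) → ∀ r, 0 < r → r ≤ 12 * sc y d →
        f (y + sn d * r) = ramp (sc y d) r) ∧
      ∀ z, ¬ R z → (∀ y d r, R y ∧ ¬ R (y + sn d) → 0 < r → r ≤ 12 * sc y d →
        z ≠ y + sn d * r) → f z = 1 := by
  let Zn : ℤ → ℤ × Bool × ℤ → Prop := fun z t => R t.1 ∧ ¬ R (t.1 + sn t.2.1) ∧ 0 < t.2.2 ∧
    t.2.2 ≤ 12 * sc t.1 t.2.1 ∧ z = t.1 + sn t.2.1 * t.2.2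
  have uniq : ∀ z t t', Zn z t → Zn z t' → t = t' := by
    rintro z ⟨y, d, r⟩ ⟨y', d', r'⟩ ⟨a1, a2, a3, a4, a5⟩ ⟨b1, b2, b3, b4, b5⟩
    simp only at a1 a2 a3 a4 a5 b1 b2 b3 b4 b5
    have c1 := hsc y d a1 a2
    have c2 := hsc y' d' b1 b2
    have s1 := sep y d a1 a2
    have s2 := sep y' d' b1 b2
    by_cases hd : d = d'
    · subst hd
      rcases lt_trichotomy r r' with hr | hr | hr
      · refine absurd a1 ?_
        have := s2 (r' - r) (by omega) (by omega)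
        rwa [show y' + sn d * (r' - r) = y by linear_combination a5 - b5] at this
      · subst hr
        rw [show y = y' by linear_combination b5 - a5]
      · refine absurd b1 ?_
        have := s1 (r - r') (by omega) (by omega)
        rwa [show y + sn d * (r - r') = y' by linear_combination b5 - a5] at this
    · have hs : sn d' = -sn d := by
        cases d <;> cases d' <;> simp [sn] at hd ⊢
      refine absurd b1 ?_
      have := s1 (r + r') (by omega) (by omega)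
      rw [hs] at b5
      rwa [show y + sn d * (r + r') = y' by linear_combination b5 - a5] at this
  obtain ⟨f, hf⟩ : ∃ f : ℤ → ℝ, ∀ z, f z = if R z then -1 else
      if h : ∃ t, Zn z t then ramp (sc h.choose.1 h.choose.2.1) h.choose.2.2 else 1 :=
    ⟨_, fun _ => rfl⟩
  have f1 : ∀ z, R z → f z = -1 := fun z hz => by rw [hf, if_pos hz]
  have f2 : ∀ y d, R y → ¬ R (y + sn d) → ∀ r, 0 < r → r ≤ 12 * sc y d →
      f (y + sn d * r) = ramp (sc y d) r := by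
    intro y d a1 a2 r a3 a4
    have c1 := hsc y d a1 a2
    have hz : Zn (y + sn d * r) (y, d, r) := ⟨a1, a2, a3, a4, rfl⟩
    have he : ∃ t, Zn (y + sn d * r) t := ⟨_, hz⟩
    rw [hf, if_neg (sep y d a1 a2 r a3 (by omega)), dif_pos he, uniq _ _ _ he.choose_spec hz]
  have f3 : ∀ z, ¬ R z → (¬ ∃ t, Zn z t) → f z = 1 := fun z h1 h2 => by
    rw [hf, if_neg h1, dif_neg h2]
  have f4 : ∀ z, |f z| ≤ 1 := fun z => by
    rw [hf]
    split_ifs
    · simp
    · exact dc3_bd _ _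
    · simp
  have hL : (0 : ℝ) ≤ 1 / (4 * g) := by
    have : (1 : ℝ) ≤ g := by exact_mod_cast hg
    positivity
  have f5 : ∀ z d, f (z + sn d) ≤ f z + 1 / (4 * g) := by
    intro z d
    have u1 := abs_le.1 (f4 (z + sn d))
    have u2 := abs_le.1 (f4 z)
    by_cases h1 : R (z + sn d)
    · rw [f1 _ h1]; linarith [u2.1]
    by_cases h2 : R z
    · have c1 := hsc z d h2 h1
      have := f2 z d h2 h1 1 one_pos (by omega)
      rw [mul_one, dc3_one (by omega)] at this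
      rw [this]; linarith [u2.1]
    by_cases h3 : ∃ t, Zn z t
    · obtain ⟨⟨y, d', r⟩, a1, a2, a3, a4, a5⟩ := h3
      simp only at a1 a2 a3 a4 a5
      have c1 := hsc y d' a1 a2
      have e1 := f2 y d' a1 a2 r a3 a4
      rw [← a5] at e1
      rcases eq_or_lt_of_le a4 with a6 | a6
      · rw [e1, a6, dc3_top (by omega)]; linarith [u1.2]
      obtain ⟨r', b1, b2, b3⟩ : ∃ r', r - 1 ≤ r' ∧ r' ≤ r + 1 ∧ z + sn d = y + sn d' * r' := by
        by_cases hd : d = d'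
        · exact ⟨r + 1, by omega, le_rfl, by rw [hd, a5]; ring⟩
        · have hs : sn d = -sn d' := by
            cases d <;> cases d' <;> simp [sn] at hd ⊢
          exact ⟨r - 1, le_rfl, by omega, by rw [hs, a5]; ring⟩
      have b4 : r' ≠ 0 := fun h0 => h1 (by rwa [b3, h0, mul_zero, add_zero])
      rw [b3, f2 y d' a1 a2 r' (by omega) (by omega), e1]
      exact dc3_step hg c1.1 b2
    · rw [f3 z h2 h3]; linarith [u1.2]
  refine ⟨f, fun z => abs_le.2 ⟨?_, ?_⟩, f4, f1, f2, fun z h1 h2 => f3 z h1 ?_⟩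
  · have := f5 (z + 1) false
    rw [show z + 1 + sn false = z by simp [sn]] at this
    linarith
  · have := f5 z true
    rw [show sn true = 1 from rfl] at this
    linarith
  · rintro ⟨⟨y, d, r⟩, a1, a2, a3, a4, a5⟩
    exact h2 y d r ⟨a1, a2⟩ a3 a4 a5

lemma lift (f g : ℤ → ℝ) {G : ℝ} (hG : 1 ≤ G) (hf : ∀ z, |f (z + 1) - f z| ≤ 1 / (4 * G))
    (hg : ∀ z, |g (z + 1) - g z| ≤ 1 / (4 * G)) (h1 : ∀ z, |f z| = 1 ∨ |g z| = 1) {a b : ℤ}
    (hab : a ≤ b) (h : ∀ z, z ≤ a ∨ b ≤ z → f z = 1 ∧ g z = 1) : ∃ (A : ℤ → ℝ) (n : ℤ),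
      (∀ z, ∃ r : ℝ, 0 < r ∧ f z = r * cos (A z) ∧ g z = r * sin (A z)) ∧
      (∀ z, |A (z + 1) - A z| ≤ 2 / G) ∧ (∀ z ≤ a, A z = π / 4) ∧
      ∀ z, b ≤ z → A z = π / 4 + 2 * π * n := by
  obtain ⟨ζ, hζ⟩ : ∃ ζ : ℤ → ℂ, ∀ z, ζ z = ⟨f z, g z⟩ := ⟨_, fun _ => rfl⟩
  have n1 : ∀ z, 1 ≤ ‖ζ z‖ := fun z => by
    rcases h1 z with h2 | h2
    · simpa [hζ, h2] using Complex.abs_re_le_norm (ζ z)
    · simpa [hζ, h2] using Complex.abs_im_le_norm (ζ z)
  have n0 : ∀ z, ζ z ≠ 0 := fun z => norm_pos_iff.1 (by linarith [n1 z])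
  obtain ⟨θ, hθ⟩ : ∃ θ : ℤ → ℝ, ∀ z, θ z = (ζ (z + 1) / ζ z).arg := ⟨_, fun _ => rfl⟩
  have t0 : ∀ z, z < a ∨ b ≤ z → θ z = 0 := fun z hz => by
    have e1 := h z (by omega)
    have e2 := h (z + 1) (by omega)
    have : ζ (z + 1) = ζ z := by rw [hζ, hζ, e1.1, e1.2, e2.1, e2.2]
    rw [hθ, this, div_self (n0 z), Complex.arg_one]
  have t1 : ∀ z, |θ z| ≤ 2 / G := fun z => by
    have e1 : ‖ζ (z + 1) - ζ z‖ ≤ 1 / (2 * G) := by
      refine (Complex.norm_le_abs_re_add_abs_im _).trans ?_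
      have e2 := hf z
      have e3 := hg z
      have e4 : 1 / (4 * G) + 1 / (4 * G) = 1 / (2 * G) := by field_simp; norm_num
      simp only [hζ, Complex.sub_re, Complex.sub_im]
      linarith
    have e2 : ‖ζ (z + 1) / ζ z - 1‖ ≤ 1 / (2 * G) := by
      rw [div_sub_one (n0 z), norm_div]
      exact (div_le_self (norm_nonneg _) (n1 z)).trans e1
    have e3 := dc3_arg e2 (one_div_le_one_div_of_le two_pos (by linarith))
    rw [hθ]
    refine e3.trans (le_of_eq ?_)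
    field_simp
    norm_num
  obtain ⟨A, hA⟩ : ∃ A : ℤ → ℝ, ∀ t, A t = π / 4 + ∑ s ∈ Ico a t, θ s := ⟨_, fun _ => rfl⟩
  have A0 : ∀ z ≤ a, A z = π / 4 := fun z hz => by
    rw [hA, Ico_eq_empty (not_lt.2 hz), sum_empty, add_zero]
  have A1 : ∀ z, A (z + 1) = A z + θ z := fun z => by
    rcases lt_or_ge z a with hz | hz
    · rw [A0 _ hz.le, A0 (z + 1) (by omega), t0 z (Or.inl hz), add_zero]
    · have : Ico a (z + 1) = insert z (Ico a z) := by
        ext s; simp only [mem_Ico, mem_insert]; omega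
      rw [hA, hA, this, sum_insert (by simp)]
      ring
  have q2 : (0 : ℝ) < √2 := by positivity
  have P0 : (⟨1, 1⟩ : ℂ) = (√2 : ℝ) * Complex.exp ((π / 4 : ℝ) * Complex.I) := by
    have e : √2 * (√2 / 2) = 1 := by
      have := Real.mul_self_sqrt (zero_le_two (α := ℝ))
      linarith
    apply Complex.ext
    · rw [Complex.re_ofReal_mul, Complex.exp_ofReal_mul_I_re, cos_pi_div_four, e]
    · rw [Complex.im_ofReal_mul, Complex.exp_ofReal_mul_I_im, sin_pi_div_four, e]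
  have P1 : ∀ z ≤ a, ∃ r : ℝ, 0 < r ∧ ζ z = r * Complex.exp (A z * Complex.I) := fun z hz => by
    have e1 := h z (Or.inl hz)
    exact ⟨√2, q2, by rw [hζ, e1.1, e1.2, A0 z hz, P0]⟩
  have P : ∀ z, ∃ r : ℝ, 0 < r ∧ ζ z = r * Complex.exp (A z * Complex.I) := fun z => by
    rcases le_total z a with hz | hz
    · exact P1 z hz
    induction z, hz using Int.leInduction with
    | base => exact P1 a le_rfl
    | succ z hz ih =>
      obtain ⟨r, r0, hr⟩ := ih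
      have e0 : ζ (z + 1) / ζ z ≠ 0 := div_ne_zero (n0 _) (n0 _)
      refine ⟨r * ‖ζ (z + 1) / ζ z‖, mul_pos r0 (norm_pos_iff.2 e0), ?_⟩
      have e1 := Complex.norm_mul_exp_arg_mul_I (ζ (z + 1) / ζ z)
      have e2 : ζ (z + 1) = ζ z * (ζ (z + 1) / ζ z) := by
        rw [mul_div_cancel₀ _ (n0 z)]
      rw [A1, hθ]
      push_cast
      rw [add_mul, Complex.exp_add]
      linear_combination e2 + (ζ (z + 1) / ζ z) * hr
        - (r * Complex.exp (A z * Complex.I)) * e1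
  have Ab : ∀ z, b ≤ z → A z = A b := fun z hz => by
    induction z, hz using Int.leInduction with
    | base => rfl
    | succ z hz ih => rw [A1, t0 z (Or.inr hz), add_zero, ih]
  obtain ⟨n, hn⟩ : ∃ n : ℤ, A b = π / 4 + 2 * π * n := by
    obtain ⟨r, r0, hr⟩ := P b
    have e1 := h b (Or.inr le_rfl)
    rw [hζ, e1.1, e1.2, P0] at hr
    have e2 : √2 = r := by
      have := congrArg norm hr
      simpa [Complex.norm_exp_ofReal_mul_I, abs_of_pos r0, abs_of_pos q2,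
        -Complex.ofReal_div] using this
    rw [e2] at hr
    obtain ⟨n, hn⟩ := Complex.exp_eq_exp_iff_exists_int.1
      (mul_left_cancel₀ (Complex.ofReal_ne_zero.2 r0.ne') hr).symm
    refine ⟨n, ?_⟩
    have := congrArg Complex.im hn
    simp at this
    linarith
  refine ⟨A, n, fun z => ?_, fun z => by rw [A1, add_sub_cancel_left]; exact t1 z, A0,
    fun z hz => by rw [Ab z hz, hn]⟩
  obtain ⟨r, r0, hr⟩ := P z
  rw [hζ] at hr
  refine ⟨r, r0, ?_, ?_⟩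
  · simpa only [Complex.re_ofReal_mul, Complex.exp_ofReal_mul_I_re] using congrArg Complex.re hr
  · simpa only [Complex.im_ofReal_mul, Complex.exp_ofReal_mul_I_im] using congrArg Complex.im hr

end

end Pool.Agent.XYU

end

section

open Finset Real Relation

namespace Pool.Agent.XYU

open Classical

noncomputable section

variable {β : ℝ} {q : ℕ} {p : Par} {w w' : Es} {u u' : UC} {σ τ : Fld}

lemma window (A : Finset ℤ) {g : ℤ} (hg : 1 ≤ g) (M B : ℕ) (hB : #A ^ 2 < B) : ∃ b < B,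
    ∀ x ∈ A, ∀ y ∈ A, |x - y| < g * 4 ^ (b * M) ∨ g * 4 ^ ((b + 1) * M) ≤ |x - y| := by
  by_contra hc
  have h1 : ∀ b : ℕ, ∃ e : ℤ × ℤ, b < B → e ∈ A ×ˢ A ∧ g * 4 ^ (b * M) ≤ |e.1 - e.2| ∧
      |e.1 - e.2| < g * 4 ^ ((b + 1) * M) := by
    intro b
    by_cases hb : b < B
    · by_contra h2
      refine hc ⟨b, hb, fun x hx y hy => ?_⟩
      by_contra h3
      rw [not_or, not_lt, not_le] at h3
      exact h2 ⟨(x, y), fun _ => ⟨mem_product.2 ⟨hx, hy⟩, h3.1, h3.2⟩⟩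
    · exact ⟨(0, 0), fun h => absurd h hb⟩
  choose e he using h1
  have key : ∀ b b' : ℕ, b < B → b' < B → e b = e b' → ¬ b < b' := by
    intro b b' hb hb' hee hlt
    have h2 := (he b hb).2.2
    have h3 := (he b' hb').2.1
    rw [← hee] at h3
    have h4 : (4 : ℤ) ^ ((b + 1) * M) ≤ 4 ^ (b' * M) :=
      pow_le_pow_right₀ (by norm_num) (Nat.mul_le_mul_right M hlt)
    have h5 : g * 4 ^ ((b + 1) * M) ≤ g * 4 ^ (b' * M) :=
      mul_le_mul_of_nonneg_left h4 (by omega)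
    omega
  have h6 : #(range B) ≤ #(A ×ˢ A) := by
    refine card_le_card_of_injOn e (fun b hb => ?_) (fun b hb b' hb' hee => ?_)
    · exact mem_coe.2 (he b (mem_range.1 (mem_coe.1 hb))).1
    · have hb1 := mem_range.1 (mem_coe.1 hb)
      have hb2 := mem_range.1 (mem_coe.1 hb')
      have k1 := key b b' hb1 hb2 hee
      have k2 := key b' b hb2 hb1 hee.symm
      omega
  rw [card_range, card_product, ← sq] at h6
  omega

lemma Cert.far {f : ℤ → ℝ} {sc : ℤ → Bool → ℤ} {kk : ℤ → Bool → Finset V} {jM : ℤ} (hp : p.Ok)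
    (h : Cert β q p u σ f sc kk jM) {z : ℤ} (hz : z ≤ 7 * p.W ∨ p.l - 7 * p.W ≤ z) :
    f z = 1 := by
  have g1 := hp.g1
  have gW := hp.gW
  refine h.els z ?_ ?_
  · rintro ⟨a, b, h1, h2, h3, h4, -⟩
    omega
  · intro y d r hy hr hr' hzz
    obtain ⟨t1, t2, -⟩ := h.tip y d hy
    obtain ⟨a, b, h1, h2, h3, h4, -⟩ := hy.1
    have ht := h.top
    cases d
    · simp only [sn, Bool.false_eq_true, if_false] at hzz
      omega
    · simp only [sn, if_true] at hzz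
      omega

end

end Pool.Agent.XYU

end

section

open Finset Real Relation

namespace Pool.Agent.XYU

open Classical

noncomputable section

variable {β : ℝ} {q : ℕ} {p : Par} {w w' : Es} {u u' : UC} {σ τ : Fld}

lemma dc5_pow {g : ℤ} (hg : 1 ≤ g) {a b : ℕ} (k : ℕ) (h : a + k ≤ b) :
    4 ^ k * (g * 4 ^ a) ≤ g * 4 ^ b := by
  have h1 : (4 : ℤ) ^ (a + k) ≤ 4 ^ b := pow_le_pow_right₀ (by norm_num) h
  calc 4 ^ k * (g * 4 ^ a) = g * 4 ^ (a + k) := by ring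
    _ ≤ g * 4 ^ b := mul_le_mul_of_nonneg_left h1 (by omega)

lemma dc5_one {g : ℤ} (hg : 1 ≤ g) (a : ℕ) : g ≤ g * 4 ^ a :=
  le_mul_of_one_le_right (by omega) (one_le_pow₀ (by norm_num))

lemma dc5_win {g j : ℤ} (hg : 1 ≤ g) {n b : ℕ} {c : Bool} (h : j ∈ Win g n b c) :
    g * 4 ^ (b * (2 * n + 8) + if c then n + 4 else 2) ≤ j ∧
      4 * j ≤ g * 4 ^ (b * (2 * n + 8) + (if c then n + 4 else 2) + n) := by
  obtain ⟨i, hi, rfl⟩ := mem_image.1 h
  rw [mem_range] at hi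
  exact ⟨by simpa using dc5_pow hg 0 (Nat.le_add_right _ i),
    by simpa using dc5_pow hg 1 (a := b * (2 * n + 8) + (if c then n + 4 else 2) + i) (by omega)⟩

lemma dc5_win' {g j : ℤ} (hg : 1 ≤ g) {n b : ℕ} {c : Bool} (h : j ∈ Win g n b c) :
    16 * (g * 4 ^ (b * (2 * n + 8))) ≤ j ∧ j ≤ g * 4 ^ (b * (2 * n + 8) + (2 * n + 3)) := by
  obtain ⟨i, hi, rfl⟩ := mem_image.1 h
  rw [mem_range] at hi
  constructor
  · have := dc5_pow hg 2 (a := b * (2 * n + 8))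
      (b := b * (2 * n + 8) + (if c then n + 4 else 2) + i) (by split_ifs <;> omega)
    linarith
  · have := dc5_pow hg 0 (a := b * (2 * n + 8) + (if c then n + 4 else 2) + i)
      (b := b * (2 * n + 8) + (2 * n + 3)) (by split_ifs <;> omega)
    linarith

lemma dc5_ts (hp : p.Ok) (hz : ∀ v, dd v (0, 0) ≤ 8 * p.W ∨ dd v (p.l, 0) ≤ 8 * p.W → σ v = 0)
    (hc : cpl σ u.w (rect 0 p.l 0 (3 * p.W))) {y : ℤ} {d : Bool} (h : End p u.w σ y d) :
    (y, d) ∈ TS p u :=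
  mem_filter.2 ⟨mem_product.2 ⟨mem_Icc.2 (run_range h.1), mem_univ _⟩, end_tip hp hz hc h⟩

lemma dc5_top {g : ℤ} (hg : 1 ≤ g) (n b : ℕ) :
    1024 * (g * 4 ^ (b * (2 * n + 8) + (2 * n + 3))) ≤ g * 4 ^ ((b + 1) * (2 * n + 8)) := by
  have := dc5_pow hg 5 (a := b * (2 * n + 8) + (2 * n + 3)) (b := (b + 1) * (2 * n + 8))
    (by rw [add_mul, one_mul]; omega)
  linarith

lemma dc5_ramp {f : ℤ → ℝ} {sc : ℤ → Bool → ℤ} {kk : ℤ → Bool → Finset V} {jM : ℤ} (hp : p.Ok)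
    (h : Cert β q p u σ f sc kk jM) {z : ℤ} (hz : |f z| ≠ 1) : ∃ y d r, End p u.w σ y d ∧
      4 * sc y d < r ∧ r < 12 * sc y d ∧ z = y + sn d * r := by
  have h1 : ¬ Run p u.w σ z := fun hr => hz (by rw [h.run z hr]; norm_num)
  by_contra hn
  refine hz ?_
  by_cases h2 : ∀ y d r, End p u.w σ y d → 0 < r → r ≤ 12 * sc y d → z ≠ y + sn d * r
  · rw [h.els z h1 h2, abs_one]
  push Not at h2 hn
  obtain ⟨y, d, r, he, r0, r1, rfl⟩ := h2
  obtain ⟨j1, -, -, -, hf⟩ := h.tip y d he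
  have j0 : (0 : ℝ) < 4 * sc y d := by
    have := hp.g1
    exact_mod_cast (by omega : 0 < 4 * sc y d)
  rw [hf r r0 r1, ramp]
  by_cases h3 : r ≤ 4 * sc y d
  · have h4 : (r : ℝ) ≤ 4 * sc y d := by exact_mod_cast h3
    have h5 : ((r : ℝ) - 8 * sc y d) / (4 * sc y d) ≤ -1 := by
      rw [div_le_iff₀ j0]; linarith
    rw [max_eq_left (min_le_of_right_le h5)]
    norm_num
  · have h4 : r = 12 * sc y d := by
      by_contra h4
      exact hn y d r he (by omega) (by omega) rfl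
    have h5 : ((r : ℝ) - 8 * sc y d) / (4 * sc y d) = 1 := by
      rw [div_eq_one_iff_eq j0.ne', h4]
      push_cast
      ring
    rw [h5]
    norm_num

lemma cert_of_ent (hβ : 0 ≤ β) (hq : 0 < q) (hp : p.Ok) {n B N b : ℕ}
    (hJ : 16 * (p.g * 4 ^ (B * (2 * n + 8))) ≤ p.W) (h : Ent β q p n B N u) (hb : b < B) (c : Bool)
    (hw : ∀ x ∈ TS p u, ∀ y ∈ TS p u, |x.1 - y.1| < p.g * 4 ^ (b * (2 * n + 8)) ∨
      p.g * 4 ^ ((b + 1) * (2 * n + 8)) ≤ |x.1 - y.1|)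
    (hz : ∀ v, dd v (0, 0) ≤ 8 * p.W ∨ dd v (p.l, 0) ≤ 8 * p.W → σ v = 0)
    (hc : cpl σ u.w (rect 0 p.l 0 (3 * p.W))) : ∃ f sc kk jM, Cert β q p u σ f sc kk jM ∧
      ∀ y d, End p u.w σ y d → (y, d) ∈ TS p u ∧ sc y d ∈ Win p.g n b c := by
  have hg := hp.g1
  have ex : ∀ y d, ∃ (j : ℤ) (k : Finset V), End p u.w σ y d → j ∈ Win p.g n b c ∧
      Tip p.W k (u.pull (tf y d)).w ∧ Gd β q p.W j k (u.pull (tf y d)) := by
    intro y d
    by_cases he : End p u.w σ y d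
    · obtain ⟨k, hk⟩ := end_tip hp hz hc he
      obtain ⟨j, hj, hG⟩ := h.2 y d k (run_range he.1).1 (run_range he.1).2 hk b hb c
      exact ⟨j, k, fun _ => ⟨hj, hk, hG⟩⟩
    · exact ⟨0, ∅, fun h' => absurd h' he⟩
  choose sc kk hs using ex
  obtain ⟨jM, hM⟩ : ∃ jM, jM = p.g * 4 ^ (b * (2 * n + 8) + (2 * n + 3)) := ⟨_, rfl⟩
  have t1 := dc5_top hg n b
  have t2 := dc5_pow hg 0 (a := (b + 1) * (2 * n + 8)) (b := B * (2 * n + 8))
    (Nat.mul_le_mul_right _ hb)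
  have t3 := dc5_one hg (b * (2 * n + 8))
  have t4 := dc5_one hg (b * (2 * n + 8) + (2 * n + 3))
  rw [← hM] at t1 t4
  rw [pow_zero, one_mul] at t2
  have hsc : ∀ y d, End p u.w σ y d → 16 * (p.g * 4 ^ (b * (2 * n + 8))) ≤ sc y d ∧
      sc y d ≤ jM := fun y d he => hM ▸ dc5_win' hg (hs y d he).1
  have sep : ∀ y d, End p u.w σ y d → ∀ r, 0 < r → r ≤ 24 * jM →
      ¬ Run p u.w σ (y + sn d * r) := by
    intro y d he r r0
    have r1 : 1 ≤ r := r0
    clear r0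
    induction r, r1 using Int.leInduction with
    | base => rw [mul_one]; exact fun _ => he.2
    | succ r r1 ih =>
      intro r2 hr
      have e : End p u.w σ (y + sn d * (r + 1)) (!d) := by
        refine ⟨hr, ?_⟩
        have : y + sn d * (r + 1) + sn (!d) = y + sn d * r := by
          cases d <;> simp [sn] <;> ring
        rw [this]
        exact ih (by omega)
      have h1 := hw _ (dc5_ts hp hz hc he) _ (dc5_ts hp hz hc e)
      have h2 : |y - (y + sn d * (r + 1))| = r + 1 := by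
        rw [sub_add_cancel_left, abs_neg, abs_mul, abs_of_nonneg (by omega : 0 ≤ r + 1)]
        cases d <;> simp [sn]
      simp only [h2] at h1
      obtain ⟨j1, j2⟩ := hsc y d he
      obtain ⟨v, hv, hcn⟩ := big_reach (end_big e).1
      exact next_tip hβ hq (J := sc y d) (t := r + 1) (by omega) (by omega) (hs y d he).2.1
        (by omega) (by omega) hv hcn (hs y d he).2.2
  obtain ⟨f, f1, f2, f3, f4, f5⟩ := cert_fun (Run p u.w σ) sc (jM := jM) hg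
    (fun y d h1 h2 => ⟨by have := (hsc y d ⟨h1, h2⟩).1; omega, (hsc y d ⟨h1, h2⟩).2⟩)
    fun y d h1 h2 => sep y d ⟨h1, h2⟩
  refine ⟨f, sc, kk, jM, ⟨hz, f1, f2, by omega, f3, fun y d he => ?_, sep, f5⟩,
    fun y d he => ⟨dc5_ts hp hz hc he, (hs y d he).1⟩⟩
  exact ⟨by have := (hsc y d he).1; omega, (hsc y d he).2, (hs y d he).2.1, (hs y d he).2.2,
    f4 y d he.1 he.2⟩

theorem ec_of_ent (hβ : 0 ≤ β) (hq : 0 < q) (hp : p.Ok) {n B N : ℕ}
    (hJ : 16 * (p.g * 4 ^ (B * (2 * n + 8))) ≤ p.W) (hB : (2 * N) ^ 2 < B)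
    (h : Ent β q p n B N u) (h' : Ent β q p n B N u.sw)
    (hz : ∀ v, dd v (0, 0) ≤ 8 * p.W ∨ dd v (p.l, 0) ≤ 8 * p.W → σ v = 0 ∧ τ v = 0)
    (hc : cpl σ u.w (rect 0 p.l 0 (3 * p.W))) (hc' : cpl τ u.b (rect 0 p.l 0 (3 * p.W))) :
    ∃ m, EC β q p u σ τ m := by
  have hg := hp.g1
  have hA : #((TS p u).image Prod.fst ∪ (TS p u.sw).image Prod.fst) ≤ 2 * N := by
    have h1 := card_union_le ((TS p u).image Prod.fst) ((TS p u.sw).image Prod.fst)
    have h2 := (card_image_le (s := TS p u) (f := Prod.fst)).trans h.1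
    have h3 := (card_image_le (s := TS p u.sw) (f := Prod.fst)).trans h'.1
    omega
  obtain ⟨b, hb, hw⟩ := window _ hg (2 * n + 8) B ((Nat.pow_le_pow_left hA 2).trans_lt hB)
  have m1 : ∀ x ∈ TS p u, x.1 ∈ (TS p u).image Prod.fst ∪ (TS p u.sw).image Prod.fst :=
    fun x hx => mem_union_left _ (mem_image_of_mem _ hx)
  have m2 : ∀ x ∈ TS p u.sw, x.1 ∈ (TS p u).image Prod.fst ∪ (TS p u.sw).image Prod.fst :=
    fun x hx => mem_union_right _ (mem_image_of_mem _ hx)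
  obtain ⟨f, sc, kk, jM, hf, hs⟩ := cert_of_ent hβ hq hp hJ h hb false
    (fun x hx y hy => hw _ (m1 x hx) _ (m1 y hy)) (fun v hv => (hz v hv).1) hc
  obtain ⟨g, sc', kk', jM', hg', hs'⟩ := cert_of_ent hβ hq hp hJ h' hb true
    (fun x hx y hy => hw _ (m2 x hx) _ (m2 y hy)) (fun v hv => (hz v hv).2) hc'
  have one : ∀ z, |f z| = 1 ∨ |g z| = 1 := by
    intro z
    by_contra hn
    push Not at hn
    obtain ⟨y, d, r, he, r1, r2, e⟩ := dc5_ramp hp hf hn.1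
    obtain ⟨y', d', r', he', r1', r2', e'⟩ := dc5_ramp hp hg' hn.2
    have h1 := hw _ (m1 _ (hs y d he).1) _ (m2 _ (hs' y' d' he').1)
    have a1 := (dc5_win hg (hs y d he).2).2
    have a2 := (dc5_win hg (hs' y' d' he').2).1
    obtain ⟨a3, a4⟩ := dc5_win' hg (hs y d he).2
    have a5 := (dc5_win' hg (hs' y' d' he').2).2
    have a6 := dc5_top hg n b
    have a7 := dc5_pow hg 2 (a := b * (2 * n + 8) + 2 + n) (b := b * (2 * n + 8) + (n + 4))
      (by omega)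
    have a8 := dc5_one hg (b * (2 * n + 8))
    simp only [Bool.false_eq_true, if_false, if_true] at a1 a2 h1
    have s1 : sn d * r = r ∨ sn d * r = -r := by cases d <;> simp [sn]
    have s2 : sn d' * r' = r' ∨ sn d' * r' = -r' := by cases d' <;> simp [sn]
    rw [abs_lt, le_abs] at h1
    omega
  have hW := hp.gW
  have hl := hp.Wl
  obtain ⟨A, m, A1, A2, A3, A4⟩ := lift f g (G := p.g) (by exact_mod_cast hg) hf.lip hg'.lip one
    (a := 4 * p.W) (b := p.l - 4 * p.W) (by omega)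
    fun z hz => ⟨hf.far hp (by omega), hg'.far hp (by omega)⟩
  exact ⟨m, f, g, A, ⟨sc, kk, jM, hf⟩, ⟨sc', kk', jM', hg'⟩, one, A1, A2, A3, A4⟩

end

end Pool.Agent.XYU

end

section

open Finset Real Relation

namespace Pool.Agent.XYU

open Classical

noncomputable section

variable {β : ℝ} {q : ℕ} {p : Par} {w w' : Es} {u u' : UC} {σ τ : Fld}

lemma dc_cn {R : Finset V} {P : Set V} {x y : V} (hP : ∀ v ∈ P, v ∈ R)
    (hw : ∀ e ∈ Ei R, e ∈ w' ↔ e ∈ w) : Cn w' P x y ↔ Cn w P x y :=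
  ⟨fun h => h.mono subset_rfl fun a b ha hb hab h1 =>
      (hw _ (mem_Ei.2 ⟨hab, hP a ha, hP b hb⟩)).1 h1,
    fun h => h.mono subset_rfl fun a b ha hb hab h1 =>
      (hw _ (mem_Ei.2 ⟨hab, hP a ha, hP b hb⟩)).2 h1⟩

lemma dc_big (hp : p.Ok) (hw : ∀ e ∈ Ei (rect 0 p.l 0 (3 * p.W)), e ∈ w' ↔ e ∈ w) {z : ℤ}
    (h1 : 8 * p.W ≤ z) (h2 : z ≤ p.l - 8 * p.W) : big p.W w' z ↔ big p.W w z := by
  have g1 := hp.g1
  have g2 := hp.gW
  have hP : ∀ v ∈ ((rect (z - (2 * p.W + 1)) (z + (2 * p.W + 1)) 0 (2 * p.W + 1) : Finset V) :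
      Set V), v ∈ rect 0 p.l 0 (3 * p.W) := by
    intro v hv
    have := mem_rect.1 (mem_coe.1 hv)
    rw [mem_rect]
    omega
  unfold big
  simp only [dc_cn hP hw]

lemma dc_run (hp : p.Ok) (hw : ∀ e ∈ Ei (rect 0 p.l 0 (3 * p.W)), e ∈ w' ↔ e ∈ w) {z : ℤ}
    (h : Run p w σ z) : Run p w' σ z := by
  obtain ⟨a, b, h1, h2, h3, h4, h5, h6, h7, h8⟩ := h
  exact ⟨a, b, h1, h2, h3, h4, h5, (dc_big hp hw h1 (by omega)).2 h6,
    (dc_big hp hw (by omega) h4).2 h7,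
    fun r r1 r2 r3 => h8 r r1 r2 ((dc_big hp hw (by omega) (by omega)).1 r3)⟩

lemma dc_tf (hp : p.Ok) {y : ℤ} (d : Bool) (h1 : 8 * p.W ≤ y) (h2 : y ≤ p.l - 8 * p.W) {v : V}
    (hv : v ∈ HB p.W) : tf y d v ∈ rect 0 p.l 0 (3 * p.W) := by
  have g1 := hp.g1
  have g2 := hp.gW
  have h3 := mem_rect.1 hv
  rw [mem_rect]
  cases d
  · show 0 ≤ y - v.1 ∧ y - v.1 ≤ p.l ∧ 0 ≤ v.2 ∧ v.2 ≤ 3 * p.W
    omega
  · show 0 ≤ y + v.1 ∧ y + v.1 ≤ p.l ∧ 0 ≤ v.2 ∧ v.2 ≤ 3 * p.W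
    omega

lemma dc_pull (hp : p.Ok) {y : ℤ} (d : Bool) (h1 : 8 * p.W ≤ y) (h2 : y ≤ p.l - 8 * p.W)
    (hw : ∀ e ∈ Ei (rect 0 p.l 0 (3 * p.W)), (e ∈ u'.w ↔ e ∈ u.w) ∧ (e ∈ u'.b ↔ e ∈ u.b))
    {e : Sym2 V} (he : e ∈ Ei (HB p.W)) :
    (e ∈ (u'.pull (tf y d)).w ↔ e ∈ (u.pull (tf y d)).w) ∧
      (e ∈ (u'.pull (tf y d)).b ↔ e ∈ (u.pull (tf y d)).b) := by
  induction e using Sym2.ind with
  | _ a b =>
    obtain ⟨e1, e2, e3⟩ := mem_Ei.1 he
    rw [mem_pull_w, mem_pull_w, mem_pull_b, mem_pull_b]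
    exact hw _ (mem_Ei.2 ⟨((isFr_tf y d).adj a b).2 e1, dc_tf hp d h1 h2 e2, dc_tf hp d h1 h2 e3⟩)

lemma Cert.congr {f : ℤ → ℝ} {sc : ℤ → Bool → ℤ} {kk : ℤ → Bool → Finset V} {jM : ℤ} (hp : p.Ok)
    (h : Cert β q p u σ f sc kk jM) (ha : ∀ v ∈ rect 0 p.l 0 (3 * p.W), u'.a v = u.a v)
    (hw : ∀ e ∈ Ei (rect 0 p.l 0 (3 * p.W)), (e ∈ u'.w ↔ e ∈ u.w) ∧ (e ∈ u'.b ↔ e ∈ u.b)) :
    Cert β q p u' σ f sc kk jM ∧ ∀ z, Run p u'.w σ z ↔ Run p u.w σ z := by
  have hR : ∀ z, Run p u'.w σ z ↔ Run p u.w σ z := fun z =>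
    ⟨dc_run hp fun e he => (hw e he).1.symm, dc_run hp fun e he => (hw e he).1⟩
  have hE : ∀ y d, End p u'.w σ y d ↔ End p u.w σ y d := fun y d => by
    unfold End
    rw [hR, hR]
  refine ⟨⟨h.zero, h.lip, h.bd, h.top, fun z hz => h.run z ((hR z).1 hz), fun y d hy => ?_,
    fun y d hy r r1 r2 r3 => h.sep y d ((hE y d).1 hy) r r1 r2 ((hR _).1 r3),
    fun z hz h1 => h.els z (fun h2 => hz ((hR z).2 h2))
      fun y d r hy => h1 y d r ((hE y d).2 hy)⟩, hR⟩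
  have hy' := (hE y d).1 hy
  obtain ⟨t1, t2, t3, t4, t5⟩ := h.tip y d hy'
  obtain ⟨r1, r2⟩ := run_range hy'.1
  have g1 := hp.g1
  have g2 := h.top
  refine ⟨t1, t2, t3.congr fun e he => (dc_pull hp d r1 r2 hw he).1,
    gd_congr t4 (fun v hv hv' => ?_) fun e he he' =>
      dc_pull hp d r1 r2 hw (ed_fz t3.tg (by omega) (by omega) he he'), t5⟩
  rw [pull_a, pull_a]
  refine ha _ (dc_tf hp d r1 r2 ?_)
  rcases mem_union.1 hv with h1 | h1
  · exact (lk_sub (mem_filter.1 h1).1).1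
  · exact (hv' h1).elim

lemma EA.congr {n : ℤ} {f g A : ℤ → ℝ} (hp : p.Ok) (h : EA β q p u σ τ n f g A)
    (ha : ∀ v ∈ rect 0 p.l 0 (3 * p.W), u'.a v = u.a v)
    (hw : ∀ e ∈ Ei (rect 0 p.l 0 (3 * p.W)), (e ∈ u'.w ↔ e ∈ u.w) ∧ (e ∈ u'.b ↔ e ∈ u.b)) :
    EA β q p u' σ τ n f g A := by
  obtain ⟨sc, kk, jM, h1⟩ := h.red
  obtain ⟨sc', kk', jM', h2⟩ := h.blue
  refine ⟨⟨sc, kk, jM, (h1.congr hp ha hw).1⟩, ⟨sc', kk', jM', (h2.congr (u' := u'.sw) hp
    (fun v hv => ?_) fun e he => (hw e he).symm).1⟩, h.one, h.arg, h.lip, h.lo, h.hi⟩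
  show (u'.a v).swap = (u.a v).swap
  rw [ha v hv]

lemma dc_lip {A : ℤ → ℝ} {c : ℝ} (h : ∀ z, |A (z + 1) - A z| ≤ c) (z : ℤ) (m : ℕ) :
    |A (z + m) - A z| ≤ c * m := by
  induction m with
  | zero => simp
  | succ m ih =>
    have h1 := h (z + m)
    have h2 := abs_sub_le (A (z + m + 1)) (A (z + m)) (A z)
    push_cast
    rw [← add_assoc]
    linarith

lemma dc_lip' {A : ℤ → ℝ} {c : ℝ} (h : ∀ z, |A (z + 1) - A z| ≤ c) {z z' : ℤ} (hz : z' ≤ z) :
    |A z - A z'| ≤ c * |(z : ℝ) - z'| := by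
  obtain ⟨m, rfl⟩ : ∃ m : ℕ, z = z' + m := ⟨(z - z').toNat, by omega⟩
  have := dc_lip h z' m
  push_cast
  rw [add_sub_cancel_left, abs_of_nonneg (Nat.cast_nonneg m : (0 : ℝ) ≤ m)]
  exact this

lemma EA.bound {n : ℤ} {f g A : ℤ → ℝ} (hp : p.Ok) (h : EA β q p u σ τ n f g A) :
    |n| * p.g ≤ p.l ∧ ∀ z z', |A z - A z'| ≤ 2 / p.g * |z - z'| := by
  have g1 := hp.g1
  have g2 := hp.gW
  have g3 := hp.Wl
  have key : ∀ z z' : ℤ, |A z - A z'| ≤ 2 / p.g * |(z : ℝ) - z'| := fun z z' => by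
    rcases le_total z' z with h1 | h1
    · exact dc_lip' h.lip h1
    · rw [abs_sub_comm, abs_sub_comm (z : ℝ)]
      exact dc_lip' h.lip h1
  refine ⟨?_, fun z z' => by exact_mod_cast key z z'⟩
  have h1 := key p.l 0
  rw [h.hi p.l (by omega), h.lo 0 (by omega)] at h1
  have gp : (0 : ℝ) < p.g := by exact_mod_cast (by omega : 0 < p.g)
  have lp : (0 : ℝ) ≤ p.l := by exact_mod_cast (by omega : 0 ≤ p.l)
  rw [add_sub_cancel_left, Int.cast_zero, sub_zero, abs_of_nonneg lp, abs_mul,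
    abs_of_pos (by positivity : (0 : ℝ) < 2 * π), div_mul_eq_mul_div, le_div_iff₀ gp] at h1
  have h2 : |(n : ℝ)| * p.g ≤ p.l := by
    have h3 : 0 ≤ |(n : ℝ)| * p.g := by positivity
    nlinarith [pi_gt_three]
  exact_mod_cast h2

/-- the number of ends -/
lemma Cert.card {f : ℤ → ℝ} {sc : ℤ → Bool → ℤ} {kk : ℤ → Bool → Finset V} {jM : ℤ} (hp : p.Ok)
    (h : Cert β q p u σ f sc kk jM) (A : Finset (ℤ × Bool)) (hA : ∀ y ∈ A, End p u.w σ y.1 y.2) :
    (#A : ℤ) * p.g ≤ p.l := by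
  have g1 := hp.g1
  have g2 := hp.gW
  have g3 := hp.Wl
  have g4 : 0 < 4 * p.g := by omega
  have sep : ∀ y y' d, End p u.w σ y d → End p u.w σ y' d → y < y' → y + 4 * p.g ≤ y' := by
    intro y y' d e1 e2 hlt
    by_contra hc
    obtain ⟨t1, t2, -⟩ := h.tip y d e1
    cases d
    · refine h.sep y' false e2 (y' - y) (by omega) (by omega) ?_
      rw [show y' + sn false * (y' - y) = y by simp [sn]]
      exact e1.1
    · refine h.sep y true e1 (y' - y) (by omega) (by omega) ?_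
      rw [show y + sn true * (y' - y) = y' by simp [sn]]
      exact e2.1
  have hc : #A ≤ #(Icc 0 (p.l / (4 * p.g)) ×ˢ (univ : Finset Bool)) := by
    refine card_le_card_of_injOn (fun y => (y.1 / (4 * p.g), y.2)) (fun y hy => ?_) ?_
    · obtain ⟨r1, r2⟩ := run_range (hA y hy).1
      refine mem_coe.2 (mem_product.2 ⟨mem_Icc.2 ⟨Int.ediv_nonneg (by omega) g4.le,
        Int.ediv_le_ediv g4 (by omega)⟩, mem_univ _⟩)
    · rintro ⟨y, d⟩ hy ⟨y', d'⟩ hy' he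
      obtain ⟨e1, e2⟩ := Prod.mk.inj he
      simp only at e1 e2
      subst e2
      have a1 := Int.emod_add_mul_ediv y (4 * p.g)
      have a2 := Int.emod_add_mul_ediv y' (4 * p.g)
      have a3 := Int.emod_nonneg y g4.ne'
      have a4 := Int.emod_nonneg y' g4.ne'
      have a5 := Int.emod_lt_of_pos y g4
      have a6 := Int.emod_lt_of_pos y' g4
      rw [e1] at a1
      have b1 := sep y y' d (hA _ hy) (hA _ hy')
      have b2 := sep y' y d (hA _ hy') (hA _ hy)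
      have : y = y' := by
        generalize 4 * p.g * (y' / (4 * p.g)) = c at a1 a2
        generalize y % (4 * p.g) = c1 at *
        generalize y' % (4 * p.g) = c2 at *
        omega
      rw [this]
  rw [card_product, Int.card_Icc, card_univ, Fintype.card_bool] at hc
  have m1 : 0 ≤ p.l / (4 * p.g) := Int.ediv_nonneg (by omega) g4.le
  have m2 : p.l / (4 * p.g) * (4 * p.g) ≤ p.l := Int.ediv_mul_le _ g4.ne'
  generalize p.l / (4 * p.g) = M at hc m1 m2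
  have m3 : (#A : ℤ) ≤ (M + 1) * 2 := by omega
  have m4 : (#A : ℤ) * p.g ≤ (M + 1) * 2 * p.g := mul_le_mul_of_nonneg_right m3 (by omega)
  nlinarith

end

end Pool.Agent.XYU

end

end

-- part MP_b591f0_mp.XY.D3
section

section

open Finset Real Relation

namespace Pool.Agent.XYU

open Classical

noncomputable section

/-! The sign field of a piece together with the thin strips along its edges.
`pocket`: `Pk` is closed under open edges because edges from `k` to `HB W \ k` are closed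
(`Tip.congr`), `Lk` is closed under adjacency in `HB W \ k` (`lk_closed`, `lk_pos`, `lk_axis`),
and a walk in `Hz W j h k` from norm `7j` never reaches norm `9j`: up to its first point of norm
`9j` it uses edges of `Ed Fz`, and `Hz W j h k ⊆ Hz W j (2j) k`.
`edge_pockets`: the union of the pockets of all ends, read in the frame of the edge (`cn_pull`,
`isFr_tf`); a point of a pocket below or on the axis is not in a run (`Cert.sep`); where
`1/4 < |f|` use `Cert.tip`, `Cert.sep`, `Cert.els`, `Cert.run` and the formula of `ramp`.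
`piece`: for `e ∈ fs` let `N e` be the image under `fr e.1 e.2` of the set of `edge_pockets`
for `u'.pull`. Call `x ∈ P` big if its `u'.w`-cluster in `P` has two points at distance `> 2W`.
Put `ty x = 1` iff `x ∈ N e` for some `e`, or `x ∈ P` is big and `σ x = 1`, or `x ∈ P` is not big,
is connected to no point `fr e (t,0)` (`0 ≤ t ≤ l`) and `σ x = 1`, or `x ∈ P` is not big and is
connected in `P` to a point `fr e (t,0)` with `t` in a run of `e`, or `x = fr e (t,h)`, `h < 0`,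
with `t` in a run of `e`. Check the open edges one by one: inside `P` everything is constant on
clusters (`N e ∩ P` is closed); a vertical edge `fr e (t,0)`, `fr e (t,-1)` outside the pockets:
for `3W ≤ t ≤ l - 3W` use `big_iff`, `run_of_big`, `run_small` (a small cluster stays in the
region where `P` is the half plane; by `Geo.far` it meets no run of another edge); near the ends of
the edge both values are `0` (`Cert.zero`; runs lie in `[8W, l-8W]`, small clusters have diameter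
at most `2W`); two strips of different edges only meet near their ends (`Geo.far`). Runs for `u'`
and `u` agree (`Cert.congr` needs both colours; for runs only `big` matters: use `big_iff`). -/

variable {β : ℝ} {q : ℕ} {p : Par} {w w' : Es} {u u' : UC} {σ : Fld}

def Pk (W j h : ℤ) (k : Finset V) (w : Es) : Set V :=
  {v | (v ∈ Lk W k ∧ nm v < 7 * j) ∨ (0 < v.1 ∧ v.1 < 7 * j ∧ -h ≤ v.2 ∧ v.2 < 0) ∨
    ∃ v₀ ∈ Hz W j h k, nm v₀ = 7 * j ∧ Cn w (Hz W j h k) v₀ v}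

lemma de1_hb {W : ℤ} {v : V} : v ∈ HB W ↔ -W ≤ v.1 ∧ v.1 ≤ W ∧ 0 ≤ v.2 ∧ v.2 ≤ W := mem_rect

lemma de1_hz {W j h : ℤ} {k : Finset V} {v : V} : v ∈ Hz W j h k ↔
    (v ∈ Lk W k ∧ 7 * j ≤ nm v ∧ nm v ≤ 9 * j) ∨
      (7 * j ≤ v.1 ∧ v.1 ≤ 9 * j ∧ -h ≤ v.2 ∧ v.2 ≤ -1) := by
  unfold Hz
  rw [mem_union, mem_filter, mem_rect]

lemma de1_fz {W j : ℤ} {k : Finset V} {v : V} : v ∈ Fz W j k ↔
    (v ∈ Lk W k ∧ 5 * j < nm v ∧ nm v < 9 * j) ∨
      (5 * j + 1 ≤ v.1 ∧ v.1 ≤ 9 * j - 1 ∧ -(4 * j - 1) ≤ v.2 ∧ v.2 ≤ -1) := by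
  unfold Fz Pb
  rw [mem_union, mem_filter, mem_rect]

lemma de1_walk {W j h : ℤ} {k : Finset V} (hj : 1 ≤ j) (hh' : h ≤ 2 * j) (hD : Df W j k w')
    {v₀ v : V} (h₀ : v₀ ∈ Hz W j h k) (hn : nm v₀ = 7 * j) (hc : Cn w' (Hz W j h k) v₀ v) :
    nm v < 9 * j := by
  have hsub : ∀ x, x ∈ Hz W j h k → x ∈ Hz W j (2 * j) k := by
    intro x hx
    rw [de1_hz] at hx ⊢
    rcases hx with hx | hx
    · exact Or.inl hx
    · right; omega
  have key : nm v < 9 * j ∧ Cn (w' ∩ Ed (Fz W j k)) (Hz W j (2 * j) k) v₀ v := by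
    unfold Cn at hc
    induction hc with
    | refl => exact ⟨by omega, ReflTransGen.refl⟩
    | @tail b c _ h2 ih =>
      obtain ⟨hb, hc, ha, hw⟩ := h2
      obtain ⟨i1, i2⟩ := ih
      have hb' : b ∈ Hz W j h k := hb
      have hc' : c ∈ Hz W j h k := hc
      have hbF : b ∈ Fz W j k := by
        rw [de1_fz]
        rcases de1_hz.1 hb' with h1 | h1
        · exact Or.inl ⟨h1.1, by omega, i1⟩
        · right
          unfold nm at i1
          omega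
      have h3 : Cn (w' ∩ Ed (Fz W j k)) (Hz W j (2 * j) k) v₀ c :=
        i2.step (hsub b hb') (hsub c hc') ha (mem_inter.2 ⟨hw, mem_Ed.2 ⟨ha, Or.inl hbF⟩⟩)
      refine ⟨?_, h3⟩
      have h4 := hD v₀ c (hsub _ h₀) hn h3
      have h5 : nm c ≤ 9 * j := by
        rcases de1_hz.1 hc' with h1 | h1
        · exact h1.2.2
        · unfold nm
          omega
      omega
  exact key.1

lemma de1_step {W : ℤ} {k : Finset V} (ht : Tip W k w') {v v' : V} (hv : v ∈ Lk W k)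
    (ha : Adj v v') (hw : s(v, v') ∈ w') (hv' : v' ∈ HB W) : v' ∈ Lk W k := by
  refine lk_closed hv ha hv' fun hk => (lk_sub hv).2 ?_
  rw [ht.1, mem_cl] at hk ⊢
  exact ⟨(lk_sub hv).1, hk.2.step hv' (lk_sub hv).1 ha.symm (Sym2.eq_swap ▸ hw)⟩

lemma de1_pos {W : ℤ} {k : Finset V} (ht : TG W k) {v : V} (hv : v ∈ Lk W k) (h : v.2 ≤ 0) :
    0 < v.1 := by
  have h1 := de1_hb.1 (lk_sub hv).1
  have h2 : v = (v.1, 0) := Prod.ext rfl (by simp only; omega)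
  rw [h2] at hv
  exact lk_pos ht hv

lemma de1_in {W j h : ℤ} {k : Finset V} (hj : 1 ≤ j) {v : V} (hv : v ∈ Lk W k)
    (hn : nm v ≤ 7 * j) : v ∈ Pk W j h k w' := by
  by_cases h1 : nm v < 7 * j
  · exact Or.inl ⟨hv, h1⟩
  · exact Or.inr (Or.inr ⟨v, de1_hz.2 (Or.inl ⟨hv, by omega, by omega⟩), by omega,
      ReflTransGen.refl⟩)

lemma de1_low {W j h : ℤ} {k : Finset V} (hj : 1 ≤ j) (hW : 16 * j ≤ W) (hh' : h ≤ 2 * j)
    (ht : TG W k) (v : V) (h1 : 0 < v.1) (h2 : v.1 ≤ 7 * j) (h3 : -h ≤ v.2) (h4 : v.2 ≤ 0) :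
    v ∈ Pk W j h k w' := by
  by_cases h5 : v.2 = 0
  · have h6 : v = (v.1, 0) := Prod.ext rfl h5
    have h7 : v ∈ Lk W k := by
      rw [h6]
      exact lk_axis ht h1 (by omega)
    exact de1_in hj h7 (by unfold nm; omega)
  · by_cases h6 : v.1 < 7 * j
    · exact Or.inr (Or.inl ⟨h1, h6, h3, by omega⟩)
    · exact Or.inr (Or.inr ⟨v, de1_hz.2 (Or.inr (by omega)), by unfold nm; omega,
        ReflTransGen.refl⟩)

lemma pocket {W j h : ℤ} {k : Finset V} (hj : 1 ≤ j) (hW : 16 * j ≤ W) (hh : 1 ≤ h)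
    (hh' : h ≤ 2 * j) (ht : Tip W k w') (hD : Df W j k w') :
    (∀ v ∈ Pk W j h k w', nm v < 9 * j ∧ -h ≤ v.2 ∧ v ∉ k ∧ (v.2 ≤ 0 → 0 < v.1)) ∧
    (∀ v ∈ Pk W j h k w', ∀ v', Adj v v' → s(v, v') ∈ w' → -h ≤ v'.2 →
      v' ∈ Pk W j h k w' ∨ (v'.1 = 0 ∧ v'.2 < 0)) ∧
    ∀ v : V, 0 < v.1 → v.1 ≤ 7 * j → -h ≤ v.2 → v.2 ≤ 0 → v ∈ Pk W j h k w' := by
  have tg := ht.tg
  have hk : ∀ v : V, v.2 < 0 → v ∉ k := fun v hv hvk => by
    have := de1_hb.1 (tg.1 hvk)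
    omega
  have hL : ∀ v ∈ Lk W k, -h ≤ v.2 ∧ v ∉ k ∧ (v.2 ≤ 0 → 0 < v.1) := fun v hv => by
    have := de1_hb.1 (lk_sub hv).1
    exact ⟨by omega, (lk_sub hv).2, de1_pos tg hv⟩
  refine ⟨?_, ?_, de1_low hj hW hh' tg⟩
  · rintro v (⟨h1, h2⟩ | ⟨h1, h2, h3, h4⟩ | ⟨v₀, h1, h2, h3⟩)
    · exact ⟨by omega, hL v h1⟩
    · exact ⟨by unfold nm; omega, h3, hk v h4, fun _ => h1⟩
    · refine ⟨de1_walk hj hh' hD h1 h2 h3, ?_⟩
      have h4 : v ∈ Hz W j h k := h3.mem h1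
      rcases de1_hz.1 h4 with h5 | h5
      · exact hL v h5.1
      · exact ⟨h5.2.2.1, hk v (by omega), fun _ => by omega⟩
  · rintro v (⟨h1, h2⟩ | ⟨h1, h2, h3, h4⟩ | ⟨v₀, h1, h2, h3⟩) v' ha hw hv'
    · left
      have hb := de1_hb.1 (lk_sub h1).1
      have ha' := ha
      unfold Adj at ha'
      unfold nm at h2
      by_cases h5 : 0 ≤ v'.2
      · exact de1_in hj (de1_step ht h1 ha hw (de1_hb.2 (by omega))) (by unfold nm; omega)
      · have h6 := de1_pos tg h1 (by omega)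
        exact de1_low hj hW hh' tg v' (by omega) (by omega) hv' (by omega)
    · unfold Adj at ha
      by_cases h5 : v'.1 = 0
      · exact Or.inr ⟨h5, by omega⟩
      · exact Or.inl (de1_low hj hW hh' tg v' (by omega) (by omega) hv' (by omega))
    · left
      have h4 : v ∈ Hz W j h k := h3.mem h1
      have h9 := de1_walk hj hh' hD h1 h2 h3
      by_cases hz : v' ∈ Hz W j h k
      · exact Or.inr (Or.inr ⟨v₀, h1, h2, h3.step h4 hz ha hw⟩)
      have ha' := ha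
      unfold Adj at ha'
      rw [de1_hz, not_or] at hz
      obtain ⟨z1, z2⟩ := hz
      unfold nm at h9
      rcases de1_hz.1 h4 with h5 | h5
      · have hb := de1_hb.1 (lk_sub h5.1).1
        by_cases h6 : 0 ≤ v'.2
        · have h7 := de1_step ht h5.1 ha hw (de1_hb.2 (by omega))
          refine de1_in hj h7 ?_
          by_contra h8
          exact z1 ⟨h7, by omega, by unfold nm; omega⟩
        · have h7 := de1_pos tg h5.1 (by omega)
          have h8 := h5.2.1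
          unfold nm at h8
          omega
      · by_cases h6 : v'.2 = 0
        · have h7 : v' = (v'.1, 0) := Prod.ext rfl h6
          have h8 : v' ∈ Lk W k := by
            rw [h7]
            exact lk_axis tg (by omega) (by omega)
          exact (z1 ⟨h8, by unfold nm; omega, by unfold nm; omega⟩).elim
        · exact de1_low hj hW hh' tg v' (by omega) (by omega) hv' (by omega)

end

end Pool.Agent.XYU

end

section

open Finset Real Relation

namespace Pool.Agent.XYU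

open Classical

noncomputable section

variable {β : ℝ} {q : ℕ} {p : Par} {w w' : Es} {u u' : UC} {σ : Fld}

lemma de2_tf (y : ℤ) (d : Bool) (x : V) : tf y d x = (y + sn d * x.1, x.2) := by
  cases d <;> simp [tf, sn, sub_eq_add_neg]

lemma de2_sn (d : Bool) (r : ℤ) : sn d * r = r ∨ sn d * r = -r := by cases d <;> simp [sn]

lemma de2_tip {y : ℤ} {d : Bool} {k : Finset V} (h1 : 8 * p.W ≤ y) (h2 : y ≤ p.l - 8 * p.W)
    (hw : ∀ e ∈ Ei (rect 0 p.l 0 (3 * p.W)), e ∈ u'.w ↔ e ∈ u.w)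
    (h : Tip p.W k (u.pull (tf y d)).w) : Tip p.W k (u'.pull (tf y d)).w := by
  refine h.congr fun e => Sym2.ind (fun a b he => ?_) e
  rw [mem_pull_w, mem_pull_w]
  obtain ⟨hab, ha, hb⟩ := mem_Ei.1 he
  have key : ∀ x ∈ HB p.W, tf y d x ∈ rect 0 p.l 0 (3 * p.W) := by
    intro x hx
    rw [HB, mem_rect] at hx
    rw [de2_tf, mem_rect]
    have := de2_sn d x.1
    simp only
    omega
  exact hw _ (mem_Ei.2 ⟨((isFr_tf y d).adj a b).2 hab, key a ha, key b hb⟩)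

lemma de2_lt {j r : ℤ} (hj : 1 ≤ j) (hr : r < 9 * j) : ramp j r < 1 / 4 := by
  have j0 : (0 : ℝ) < 4 * j := by exact_mod_cast (by omega : 0 < 4 * j)
  have h1 : (r : ℝ) < 9 * j := by exact_mod_cast hr
  refine max_lt (by norm_num) (min_lt_of_right_lt ?_)
  rw [div_lt_iff₀ j0]
  linarith

lemma de2_ge {j r : ℤ} (hj : 1 ≤ j) (hr : 7 * j ≤ r) : -(1 / 4) ≤ ramp j r := by
  have j0 : (0 : ℝ) < 4 * j := by exact_mod_cast (by omega : 0 < 4 * j)
  have h1 : 7 * (j : ℝ) ≤ r := by exact_mod_cast hr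
  refine le_max_of_le_right (le_min (by norm_num) ?_)
  rw [le_div_iff₀ j0]
  linarith

lemma edge_pockets {f : ℤ → ℝ} {sc : ℤ → Bool → ℤ} {kk : ℤ → Bool → Finset V} {jM h : ℤ}
    (hp : p.Ok) (hc : Cert β q p u σ f sc kk jM) (hh : 1 ≤ h) (hh' : h ≤ 2 * p.g)
    (hw : ∀ e ∈ Ei (rect 0 p.l 0 (3 * p.W)), e ∈ u'.w ↔ e ∈ u.w)
    (hD : ∀ y d, End p u.w σ y d → Df p.W (sc y d) (kk y d) (u'.pull (tf y d)).w) :
    ∃ N : Set V, (∀ v ∈ N, 7 * p.W ≤ v.1 ∧ v.1 ≤ p.l - 7 * p.W ∧ -h ≤ v.2 ∧ v.2 ≤ p.W ∧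
        (∃ y, dd v (y, 0) ≤ p.W ∧ 0 ≤ y ∧ y ≤ p.l) ∧ (v.2 ≤ 0 → ¬ Run p u.w σ v.1)) ∧
      (∀ v ∈ N, ∀ v', Adj v v' → s(v, v') ∈ u'.w → -h ≤ v'.2 →
        v' ∈ N ∨ (v'.2 < 0 ∧ Run p u.w σ v'.1)) ∧
      (∀ y d, End p u.w σ y d → ∀ s, -h ≤ s → s ≤ 0 → (y + sn d, s) ∈ N) ∧
      ∀ v : V, -h ≤ v.2 → v.2 < 0 → 1 / 4 < |f v.1| →
        (f v.1 < 0 ↔ v ∈ N ∨ Run p u.w σ v.1) := by
  have hg := hp.g1
  have top := hc.top
  have hj : ∀ y d, End p u.w σ y d → 1 ≤ sc y d ∧ sc y d ≤ jM := fun y d he =>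
    ⟨hg.trans (hc.tip y d he).1, (hc.tip y d he).2.1⟩
  have pk := fun y d (he : End p u.w σ y d) => pocket (h := h) (hj y d he).1
    (by have := hj y d he; omega) hh (by have := (hc.tip y d he).1; omega)
    (de2_tip (run_range he.1).1 (run_range he.1).2 hw (hc.tip y d he).2.2.1) (hD y d he)
  refine ⟨{v | ∃ y d x, End p u.w σ y d ∧
    x ∈ Pk p.W (sc y d) h (kk y d) (u'.pull (tf y d)).w ∧ v = tf y d x}, ?_, ?_, ?_, ?_⟩
  · rintro _ ⟨y, d, x, he, hx, rfl⟩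
    obtain ⟨x1, x2, -, x3⟩ := (pk y d he).1 x hx
    obtain ⟨y1, y2⟩ := run_range he.1
    obtain ⟨j1, j2⟩ := hj y d he
    have hs := de2_sn d x.1
    have hW := hp.gW
    unfold nm at x1
    rw [de2_tf]
    refine ⟨by simp only; omega, by simp only; omega, x2, by simp only; omega,
      ⟨y, by simp only [dd]; omega, by omega, by omega⟩, fun h0 => ?_⟩
    exact hc.sep y d he x.1 (x3 h0) (by omega)
  · rintro _ ⟨y, d, x, he, hx, rfl⟩ v' ha hv h2
    obtain ⟨x', rfl⟩ := (tf y d).surjective v'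
    rw [de2_tf] at h2
    rcases (pk y d he).2.1 x hx x' (((isFr_tf y d).adj x x').1 ha) ((mem_pull_w _ _).2 hv) h2 with
      h3 | h3
    · exact Or.inl ⟨y, d, x', he, h3, rfl⟩
    · rw [de2_tf, h3.1, mul_zero, add_zero]
      exact Or.inr ⟨h3.2, he.1⟩
  · intro y d he s s1 s2
    refine ⟨y, d, (1, s), he, (pk y d he).2.2 (1, s) one_pos ?_ s1 s2, by rw [de2_tf, mul_one]⟩
    have := (hj y d he).1
    simp only
    omega
  · intro v v1 v2 hf
    constructor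
    · intro h0
      by_cases hr : Run p u.w σ v.1
      · exact Or.inr hr
      have h2 : ¬ ∀ y d r, End p u.w σ y d → 0 < r → r ≤ 12 * sc y d → v.1 ≠ y + sn d * r := by
        intro h2
        rw [hc.els _ hr h2] at h0
        norm_num at h0
      push Not at h2
      obtain ⟨y, d, r, he, r0, r1, e⟩ := h2
      rw [e, (hc.tip y d he).2.2.2.2 r r0 r1] at h0 hf
      rw [abs_of_neg h0] at hf
      have r2 : r < 7 * sc y d := by
        by_contra hn
        linarith [de2_ge (hj y d he).1 (not_lt.1 hn)]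
      refine Or.inl ⟨y, d, (r, v.2), he, (pk y d he).2.2 (r, v.2) r0 r2.le v1 v2.le, ?_⟩
      rw [de2_tf, ← e]
    · rintro (⟨y, d, x, he, hx, rfl⟩ | hr)
      · obtain ⟨x1, -, -, x3⟩ := (pk y d he).1 x hx
        obtain ⟨j1, -⟩ := hj y d he
        rw [de2_tf] at v2 hf ⊢
        have x4 : x.1 < 9 * sc y d := by unfold nm at x1; omega
        simp only at hf ⊢
        rw [(hc.tip y d he).2.2.2.2 x.1 (x3 v2.le) (by omega)] at hf ⊢
        by_contra hn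
        rw [abs_of_nonneg (not_lt.1 hn)] at hf
        linarith [de2_lt j1 x4]
      · rw [hc.run _ hr]
        norm_num

end

end Pool.Agent.XYU

end

section

open Finset Real Relation

namespace Pool.Agent.XYU

open Classical

noncomputable section

variable {β : ℝ} {q : ℕ} {p : Par} {w w' : Es} {u u' : UC} {σ : Fld}

lemma de_self {P : Set V} {x y : V} (h : Cn w P x y) : Cn w {v | v ∈ P ∧ Cn w P x v} x y := by
  unfold Cn at h
  induction h with
  | refl => exact ReflTransGen.refl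
  | tail h1 h2 ih =>
    exact ReflTransGen.tail ih ⟨⟨h2.1, h1⟩, ⟨h2.2.1, ReflTransGen.tail h1 h2⟩, h2.2.2⟩

/-- the cluster of `x` in `P` has diameter more than `2 W` -/
def deBig (W : ℤ) (w : Es) (P : Set V) (x : V) : Prop :=
  ∃ a b, Cn w P x a ∧ Cn w P x b ∧ 2 * W < dd a b

lemma de_big_cn {W : ℤ} {P : Set V} {x y : V} (h : Cn w P x y) :
    deBig W w P x ↔ deBig W w P y :=
  ⟨fun ⟨a, b, h1, h2, h3⟩ => ⟨a, b, h.symm.trans h1, h.symm.trans h2, h3⟩,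
    fun ⟨a, b, h1, h2, h3⟩ => ⟨a, b, h.trans h1, h.trans h2, h3⟩⟩

lemma de_small {W : ℤ} {P : Set V} {x y : V} (hs : ¬ deBig W w P x) (h : Cn w P x y) :
    dd x y ≤ 2 * W := not_lt.1 fun h' => hs ⟨x, y, ReflTransGen.refl, h, h'⟩

lemma de_uniq {P : Set V} {fs : Finset (V × Fin 4)} (hG : Geo P fs p) {e e' : V × Fin 4}
    (he : e ∈ fs) (he' : e' ∈ fs) (hW : 0 ≤ p.W) {v v' : V} (h1 : 3 * p.W < v.1)
    (h2 : v.1 < p.l - 3 * p.W) (h3 : -p.W ≤ v.2) (h4 : v.2 ≤ p.W) (h5 : 0 ≤ v'.1) (h6 : v'.1 ≤ p.l)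
    (h7 : -p.W ≤ v'.2) (h8 : v'.2 ≤ p.W) (h9 : dd (fr e.1 e.2 v) (fr e'.1 e'.2 v') ≤ 2 * p.W) :
    e = e' := by
  by_contra hne
  have := hG.far e he e' he' hne v v' (by omega) (by omega) (abs_le.2 ⟨h3, h4⟩) h5 h6
    (abs_le.2 ⟨h7, h8⟩) h9
  omega

lemma de_dd0 (x : V) : dd x x = 0 := dd_eq_zero.2 rfl

lemma de_big_iff {P : Set V} {fs : Finset (V × Fin 4)} (hp : p.Ok) (hG : Geo P fs p)
    {e : V × Fin 4} (he : e ∈ fs) {t : ℤ} (h1 : 3 * p.W ≤ t) (h2 : t ≤ p.l - 3 * p.W) :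
    big p.W (u.pull (fr e.1 e.2)).w t ↔ deBig p.W u.w P (fr e.1 e.2 (t, 0)) := by
  have hg := hp.g1
  have hW := hp.gW
  have hF := isFr_fr e.1 e.2
  rw [big_iff (P := fr e.1 e.2 ⁻¹' P) (by omega) fun v hv => by
    unfold dd at hv
    dsimp only at hv
    exact hG.side e he v (by omega) (by omega) (by omega) (by omega)]
  constructor
  · rintro ⟨a, b, h3, h4, h5⟩
    exact ⟨_, _, (cn_pull hF u).1 h3, (cn_pull hF u).1 h4, by rwa [hF.dd]⟩
  · rintro ⟨a, b, h3, h4, h5⟩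
    obtain ⟨a, rfl⟩ := (fr e.1 e.2).surjective a
    obtain ⟨b, rfl⟩ := (fr e.1 e.2).surjective b
    exact ⟨a, b, (cn_pull hF u).2 h3, (cn_pull hF u).2 h4, by rwa [hF.dd] at h5⟩

lemma de_run_small {P : Set V} {fs : Finset (V × Fin 4)} (hp : p.Ok) (hG : Geo P fs p)
    {e : V × Fin 4} (he : e ∈ fs) {τ : Fld} {a b : ℤ} (hab : a ≤ b) (h1 : 3 * p.W ≤ a)
    (h2 : b ≤ p.l - 3 * p.W) (hs : ¬ deBig p.W u.w P (fr e.1 e.2 (a, 0)))
    (hc : Cn u.w P (fr e.1 e.2 (a, 0)) (fr e.1 e.2 (b, 0))) :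
    Run p (u.pull (fr e.1 e.2)).w τ a ↔ Run p (u.pull (fr e.1 e.2)).w τ b := by
  have hg := hp.g1
  have hW := hp.gW
  have hF := isFr_fr e.1 e.2
  refine run_small hp hab h1 h2 ?_ (by rwa [de_big_iff hp hG he h1 (by omega)])
  refine (de_self ((cn_pull hF u).2 hc)).mono (fun v hv => ?_) fun _ _ _ _ _ h => h
  have h3 := de_small hs ((cn_pull hF u).1 hv.2)
  rw [hF.dd] at h3
  unfold dd at h3
  dsimp only at h3
  exact (hG.side e he v (by omega) (by omega) (by omega) (by omega)).1 hv.1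

lemma de_zmod (a : ZMod 2) : (if a = 1 then (1 : ZMod 2) else 0) = a := by
  revert a
  decide

theorem piece {P : Set V} {fs : Finset (V × Fin 4)} (hp : p.Ok) (hG : Geo P fs p) {h : ℤ}
    (hh : 1 ≤ h) (hh' : h ≤ 2 * p.g) (f : V × Fin 4 → ℤ → ℝ)
    (sc : V × Fin 4 → ℤ → Bool → ℤ) (kk : V × Fin 4 → ℤ → Bool → Finset V) (jM : V × Fin 4 → ℤ)
    (hc : ∀ e ∈ fs, Cert β q p (u.pull (fr e.1 e.2)) (fun v => σ (fr e.1 e.2 v)) (f e) (sc e)
      (kk e) (jM e))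
    (hσ : cpl σ u.w P) (hw : ∀ x ∈ P, ∀ y ∈ P, Adj x y → (s(x, y) ∈ u'.w ↔ s(x, y) ∈ u.w))
    (hD : ∀ e ∈ fs, ∀ y d, End p (u.pull (fr e.1 e.2)).w (fun v => σ (fr e.1 e.2 v)) y d →
      Df p.W (sc e y d) (kk e y d) ((u'.pull (fr e.1 e.2)).pull (tf y d)).w) :
    ∃ ty : Fld, cpl ty u'.w (P ∪ Low fs p.l h) ∧
      (∀ x ∈ P, (∀ e ∈ fs, ∀ t, 0 ≤ t → t ≤ p.l → 2 * p.W < dd x (fr e.1 e.2 (t, 0))) →
        ty x = σ x) ∧
      (∀ e ∈ fs, ∀ v : V, 0 < v.1 → v.1 < p.l → -h ≤ v.2 → v.2 < 0 → 1 / 4 < |f e v.1| →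
        ty (fr e.1 e.2 v) = if f e v.1 < 0 then 1 else 0) ∧
      ∀ e ∈ fs, ty (fr e.1 e.2 (0, 0)) = 0 ∧ ty (fr e.1 e.2 (p.l, 0)) = 0 := by
  have hg := hp.g1
  have hW := hp.gW
  have hl := hp.Wl
  have hN : ∀ e : V × Fin 4, ∃ N : Set V, e ∈ fs → (∀ v ∈ N, 7 * p.W ≤ v.1 ∧ v.1 ≤ p.l - 7 * p.W ∧
      -h ≤ v.2 ∧ v.2 ≤ p.W ∧ (∃ y, dd v (y, 0) ≤ p.W ∧ 0 ≤ y ∧ y ≤ p.l) ∧
        (v.2 ≤ 0 → ¬ Run p (u.pull (fr e.1 e.2)).w (fun v => σ (fr e.1 e.2 v)) v.1)) ∧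
      (∀ v ∈ N, ∀ v', Adj v v' → s(v, v') ∈ (u'.pull (fr e.1 e.2)).w → -h ≤ v'.2 →
        v' ∈ N ∨ (v'.2 < 0 ∧ Run p (u.pull (fr e.1 e.2)).w (fun v => σ (fr e.1 e.2 v)) v'.1)) ∧
      (∀ y d, End p (u.pull (fr e.1 e.2)).w (fun v => σ (fr e.1 e.2 v)) y d →
        ∀ s, -h ≤ s → s ≤ 0 → (y + sn d, s) ∈ N) ∧
      ∀ v : V, -h ≤ v.2 → v.2 < 0 → 1 / 4 < |f e v.1| → (f e v.1 < 0 ↔ v ∈ N ∨
        Run p (u.pull (fr e.1 e.2)).w (fun v => σ (fr e.1 e.2 v)) v.1) := by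
    intro e
    by_cases he : e ∈ fs
    · obtain ⟨N, hN⟩ := edge_pockets (u' := u'.pull (fr e.1 e.2)) hp (hc e he) hh hh' (fun k hk => by
        induction k using Sym2.ind with
        | _ a b =>
          obtain ⟨h1, h2, h3⟩ := mem_Ei.1 hk
          rw [mem_rect] at h2 h3
          rw [mem_pull_w, mem_pull_w]
          exact hw _ (hG.line e he a h2.1 h2.2.1 h2.2.2.1 (by omega)) _
            (hG.line e he b h3.1 h3.2.1 h3.2.2.1 (by omega)) (((isFr_fr e.1 e.2).adj _ _).2 h1))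
        (hD e he)
      exact ⟨N, fun _ => hN⟩
    · exact ⟨∅, fun h => absurd h he⟩
  choose N hN using hN
  obtain ⟨R, hR⟩ : ∃ R : V × Fin 4 → ℤ → Prop, ∀ e t,
      R e t ↔ Run p (u.pull (fr e.1 e.2)).w (fun v => σ (fr e.1 e.2 v)) t := ⟨_, fun _ _ => Iff.rfl⟩
  have hRr : ∀ {e t}, R e t → 8 * p.W ≤ t ∧ t ≤ p.l - 8 * p.W := fun h => run_range ((hR _ _).1 h)
  obtain ⟨One, hOne⟩ : ∃ One : V → Prop, ∀ x, One x ↔ (∃ e ∈ fs, ∃ v ∈ N e, x = fr e.1 e.2 v) ∨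
      (x ∈ P ∧ deBig p.W u.w P x ∧ σ x = 1) ∨
      (x ∈ P ∧ ¬ deBig p.W u.w P x ∧ σ x = 1 ∧
        ¬ ∃ e ∈ fs, ∃ t, 0 ≤ t ∧ t ≤ p.l ∧ Cn u.w P x (fr e.1 e.2 (t, 0))) ∨
      (x ∈ P ∧ ¬ deBig p.W u.w P x ∧ ∃ e ∈ fs, ∃ t, R e t ∧ Cn u.w P x (fr e.1 e.2 (t, 0))) ∨
      ∃ e ∈ fs, ∃ v : V, -h ≤ v.2 ∧ v.2 < 0 ∧ R e v.1 ∧ x = fr e.1 e.2 v := ⟨_, fun _ => Iff.rfl⟩
  have hz : ∀ e ∈ fs, ∀ t, 0 ≤ t → t ≤ p.l → σ (fr e.1 e.2 (t, 0)) = 1 →
      8 * p.W ≤ t ∧ t ≤ p.l - 8 * p.W := by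
    intro e he t h1 h2 h3
    by_contra h4
    have h5 := (hc e he).zero (t, 0) (by unfold dd; dsimp only; omega)
    rw [h3] at h5
    exact one_ne_zero h5
  have hlow : ∀ e ∈ fs, ∀ v : V, 3 * p.W < v.1 → v.1 < p.l - 3 * p.W → -h - 1 ≤ v.2 →
      fr e.1 e.2 v ∈ P ∪ Low fs p.l h → -h ≤ v.2 := by
    intro e he v h1 h2 h3 h4
    by_contra h5
    rcases h4 with h4 | ⟨e', he', v', a1, a2, a3, a4, a5⟩
    · have := (hG.side e he v (by omega) (by omega) (by omega) (by omega)).1 h4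
      omega
    · obtain rfl := de_uniq hG he he' (by omega) h1 h2 (by omega) (by omega) a1.le a2.le
        (by omega) (by omega) (by rw [a5, de_dd0]; omega)
      obtain rfl := (fr e.1 e.2).injective a5
      omega
  have hin : ∀ e ∈ fs, ∀ e' ∈ fs, ∀ v v' : V, 0 ≤ v.1 → v.1 ≤ p.l → -h ≤ v.2 → v.2 ≤ 0 →
      7 * p.W ≤ v'.1 → v'.1 ≤ p.l - 7 * p.W → -h ≤ v'.2 → v'.2 ≤ p.W →
      fr e.1 e.2 v = fr e'.1 e'.2 v' → e' = e ∧ v' = v := by
    intro e he e' he' v v' h1 h2 h3 h4 h5 h6 h7 h8 h9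
    obtain rfl := de_uniq hG he' he (by omega) (v := v') (v' := v) (by omega) (by omega) (by omega)
      h8 h1 h2 (by omega) (by omega) (by rw [h9, de_dd0]; omega)
    exact ⟨rfl, ((fr e'.1 e'.2).injective h9).symm⟩
  have hrn : ∀ e ∈ fs, ∀ t, 0 ≤ t → t ≤ p.l → ¬ deBig p.W u.w P (fr e.1 e.2 (t, 0)) →
      ∀ e' ∈ fs, ∀ t', R e' t' → Cn u.w P (fr e.1 e.2 (t, 0)) (fr e'.1 e'.2 (t', 0)) → R e t := by
    intro e he t h1 h2 h3 e' he' t' h4 h5
    have h6 := de_small h3 h5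
    have h7 := hRr h4
    obtain rfl := de_uniq hG he' he (by omega) (v := (t', 0)) (v' := (t, 0)) (by dsimp only; omega)
      (by dsimp only; omega) (by dsimp only; omega) (by dsimp only; omega) h1 h2
      (by dsimp only; omega) (by dsimp only; omega) (by rwa [dd_comm])
    rw [(isFr_fr e'.1 e'.2).dd] at h6
    unfold dd at h6
    dsimp only at h6
    rw [hR] at h4 ⊢
    rcases le_total t t' with h8 | h8
    · exact (de_run_small hp hG he h8 (by omega) (by omega) h3 h5).2 h4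
    · exact (de_run_small hp hG he h8 (by omega) (by omega)
        (fun h9 => h3 ((de_big_cn h5).2 h9)) h5.symm).1 h4
  have key : ∀ x y, y ∈ P ∪ Low fs p.l h → Adj x y → s(x, y) ∈ u'.w → One x → One y := by
    intro x y hy ha ho hx
    have hcn : x ∈ P → y ∈ P → Cn u.w P x y := fun h1 h2 =>
      ReflTransGen.single ⟨h1, h2, ha, (hw x h1 y h2 ha).1 ho⟩
    have hdn : ∀ e ∈ fs, ∀ t, R e t → y = fr e.1 e.2 (t, -1) → One y := fun e he t h1 h2 =>
      (hOne y).2 (Or.inr (Or.inr (Or.inr (Or.inr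
        ⟨e, he, (t, -1), by dsimp only; omega, by dsimp only; omega, h1, h2⟩))))
    rcases (hOne x).1 hx with ⟨e, he, v, hv, rfl⟩ | ⟨h1, h2, h3⟩ | ⟨h1, h2, h3, h4⟩ |
      ⟨h1, h2, e, he, t, h3, h4⟩ | ⟨e, he, v, h1, h2, h3, rfl⟩
    · obtain ⟨v', rfl⟩ := (fr e.1 e.2).surjective y
      have ha' := ((isFr_fr e.1 e.2).adj _ _).1 ha
      obtain ⟨b1, b2, b3, -⟩ := (hN e he).1 v hv
      have b4 := ha'
      unfold Adj at b4
      have b5 := hlow e he v' (by omega) (by omega) (by omega) hy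
      rcases (hN e he).2.1 v hv v' ha' ((mem_pull_w _ _).2 ho) b5 with b6 | ⟨b6, b7⟩
      · exact (hOne _).2 (Or.inl ⟨e, he, v', b6, rfl⟩)
      · exact (hOne _).2 (Or.inr (Or.inr (Or.inr (Or.inr ⟨e, he, v', b5, b6, (hR _ _).2 b7, rfl⟩))))
    · by_cases hyP : y ∈ P
      · exact (hOne _).2 (Or.inr (Or.inl ⟨hyP, (de_big_cn (hcn h1 hyP)).1 h2,
          ((hcn h1 hyP).eq hσ).symm.trans h3⟩))
      · obtain ⟨e, he, ⟨t, b1, b2, rfl, b3⟩ | rfl | rfl⟩ := hG.bdy x h1 y hyP ha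
        · have b4 := hz e he t b1.le b2.le h3
          refine hdn e he t ((hR _ _).2 ((run_of_big (by omega) b4.1 b4.2 ?_).2 h3)) b3
          exact (de_big_iff hp hG he (by omega) (by omega)).2 h2
        · have := hz e he 0 le_rfl (by omega) h3
          omega
        · have := hz e he p.l (by omega) le_rfl h3
          omega
    · by_cases hyP : y ∈ P
      · refine (hOne _).2 (Or.inr (Or.inr (Or.inl ⟨hyP, fun b => h2 ((de_big_cn (hcn h1 hyP)).2 b),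
          ((hcn h1 hyP).eq hσ).symm.trans h3, ?_⟩)))
        rintro ⟨e, he, t, b1, b2, b3⟩
        exact h4 ⟨e, he, t, b1, b2, (hcn h1 hyP).trans b3⟩
      · obtain ⟨e, he, ⟨t, b1, b2, rfl, -⟩ | rfl | rfl⟩ := hG.bdy x h1 y hyP ha
        · exact absurd ⟨e, he, t, b1.le, b2.le, ReflTransGen.refl⟩ h4
        · exact absurd ⟨e, he, 0, le_rfl, by omega, ReflTransGen.refl⟩ h4
        · exact absurd ⟨e, he, p.l, by omega, le_rfl, ReflTransGen.refl⟩ h4
    · by_cases hyP : y ∈ P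
      · exact (hOne _).2 (Or.inr (Or.inr (Or.inr (Or.inl ⟨hyP,
          fun b => h2 ((de_big_cn (hcn h1 hyP)).2 b), e, he, t, h3, (hcn h1 hyP).symm.trans h4⟩))))
      · obtain ⟨e', he', ⟨t', b1, b2, rfl, b3⟩ | rfl | rfl⟩ := hG.bdy x h1 y hyP ha
        · exact hdn e' he' t' (hrn e' he' t' b1.le b2.le h2 e he t h3 h4) b3
        · have := hRr (hrn e' he' 0 le_rfl (by omega) h2 e he t h3 h4)
          omega
        · have := hRr (hrn e' he' p.l (by omega) le_rfl h2 e he t h3 h4)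
          omega
    · obtain ⟨v', rfl⟩ := (fr e.1 e.2).surjective y
      have b4 := ((isFr_fr e.1 e.2).adj _ _).1 ha
      unfold Adj at b4
      have b1 := hRr h3
      have b5 := hlow e he v' (by omega) (by omega) (by omega) hy
      by_cases b6 : v'.2 < 0
      · by_cases b7 : R e v'.1
        · exact (hOne _).2 (Or.inr (Or.inr (Or.inr (Or.inr ⟨e, he, v', b5, b6, b7, rfl⟩))))
        · have b8 : v'.1 ≠ v.1 := fun b => b7 (b ▸ h3)
          obtain ⟨d, hd⟩ : ∃ d, v'.1 = v.1 + sn d := by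
            by_cases b : v'.1 = v.1 + 1
            · exact ⟨true, b⟩
            · exact ⟨false, by unfold sn; simp only [Bool.false_eq_true, if_false]; omega⟩
          have b9 := (hN e he).2.2.1 v.1 d ⟨(hR _ _).1 h3, fun b => b7 ((hR _ _).2 (hd ▸ b))⟩
            v'.2 b5 b6.le
          rw [← hd] at b9
          exact (hOne _).2 (Or.inl ⟨e, he, v', b9, rfl⟩)
      · obtain rfl : v' = (v.1, 0) := Prod.ext (by dsimp only; omega) (by dsimp only; omega)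
        have b7 : fr e.1 e.2 (v.1, 0) ∈ P := hG.line e he _ (by dsimp only; omega)
          (by dsimp only; omega) le_rfl (by dsimp only; omega)
        by_cases b8 : deBig p.W u.w P (fr e.1 e.2 (v.1, 0))
        · refine (hOne _).2 (Or.inr (Or.inl ⟨b7, b8, ?_⟩))
          exact (run_of_big (by omega) b1.1 b1.2
            ((de_big_iff hp hG he (by omega) (by omega)).2 b8)).1 ((hR _ _).1 h3)
        · exact (hOne _).2 (Or.inr (Or.inr (Or.inr (Or.inl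
            ⟨b7, b8, e, he, v.1, h3, ReflTransGen.refl⟩))))
  have hend : ∀ e ∈ fs, ∀ t, t = 0 ∨ t = p.l → ¬ One (fr e.1 e.2 (t, 0)) := by
    intro e he t ht hx
    have t1 : 0 ≤ t := by omega
    have t2 : t ≤ p.l := by omega
    rcases (hOne _).1 hx with ⟨e', he', v, hv, h0⟩ | ⟨-, -, h3⟩ | ⟨-, -, h3, -⟩ |
      ⟨-, h2, e', he', t', h3, h4⟩ | ⟨e', he', v, h1, h2, h3, h0⟩
    · obtain ⟨b1, b2, b3, b4, -⟩ := (hN e' he').1 v hv
      obtain ⟨-, rfl⟩ := hin e he e' he' (t, 0) v t1 t2 (by dsimp only; omega) le_rfl b1 b2 b3 b4 h0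
      dsimp only at b1 b2
      omega
    · have := hz e he t t1 t2 h3
      omega
    · have := hz e he t t1 t2 h3
      omega
    · have := hRr (hrn e he t t1 t2 h2 e' he' t' h3 h4)
      omega
    · have b1 := hRr h3
      obtain ⟨-, rfl⟩ := hin e he e' he' (t, 0) v t1 t2 (by dsimp only; omega) le_rfl (by omega)
        (by omega) h1 (by omega) h0
      exact lt_irrefl _ h2
  refine ⟨fun x => if One x then 1 else 0, fun x y hx hy ha ho => ?_, fun x hx hf => ?_,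
    fun e he v h1 h2 h3 h4 h5 => ?_, fun e he =>
      ⟨if_neg (hend e he 0 (Or.inl rfl)), if_neg (hend e he p.l (Or.inr rfl))⟩⟩
  · exact if_congr ⟨key x y hy ha ho, key y x hx ha.symm (Sym2.eq_swap ▸ ho)⟩ rfl rfl
  · refine (if_congr ?_ rfl rfl).trans (de_zmod (σ x))
    have hb : ¬ deBig p.W u.w P x →
        ¬ ∃ e ∈ fs, ∃ t, 0 ≤ t ∧ t ≤ p.l ∧ Cn u.w P x (fr e.1 e.2 (t, 0)) := by
      rintro b1 ⟨e, he, t, b2, b3, b4⟩
      exact absurd (de_small b1 b4) (not_le.2 (hf e he t b2 b3))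
    rw [hOne]
    constructor
    · rintro (⟨e, he, v, hv, rfl⟩ | ⟨-, -, h3⟩ | ⟨-, -, h3, -⟩ | ⟨-, h2, e, he, t, h3, h4⟩ |
        ⟨e, he, v, h1, h2, h3, rfl⟩)
      · obtain ⟨-, -, -, -, ⟨y, b1, b2, b3⟩, -⟩ := (hN e he).1 v hv
        have := hf e he y b2 b3
        rw [(isFr_fr e.1 e.2).dd] at this
        omega
      · exact h3
      · exact h3
      · have := hRr h3
        exact absurd ⟨e, he, t, by omega, by omega, h4⟩ (hb h2)
      · have b1 := hRr h3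
        have := (hG.side e he v (by omega) (by omega) (by omega) (by omega)).1 hx
        omega
    · intro h1
      by_cases b1 : deBig p.W u.w P x
      · exact Or.inr (Or.inl ⟨hx, b1, h1⟩)
      · exact Or.inr (Or.inr (Or.inl ⟨hx, b1, h1, hb b1⟩))
  · refine if_congr ?_ rfl rfl
    have hP : fr e.1 e.2 v ∉ P := fun b => by
      have := (hG.side e he v h1 h2 (by omega) (by omega)).1 b
      omega
    rw [(hN e he).2.2.2 v h3 h4 h5, hOne, ← hR]
    constructor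
    · rintro (⟨e', he', v', hv, h0⟩ | ⟨b, -⟩ | ⟨b, -⟩ | ⟨b, -⟩ | ⟨e', he', v', b1, b2, b3, h0⟩)
      · obtain ⟨b1, b2, b3, b4, -⟩ := (hN e' he').1 v' hv
        obtain ⟨rfl, rfl⟩ := hin e he e' he' v v' h1.le h2.le h3 h4.le b1 b2 b3 b4 h0
        exact Or.inl hv
      · exact absurd b hP
      · exact absurd b hP
      · exact absurd b hP
      · have b4 := hRr b3
        obtain ⟨rfl, rfl⟩ := hin e he e' he' v v' h1.le h2.le h3 h4.le (by omega) (by omega) b1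
          (by omega) h0
        exact Or.inr b3
    · rintro (b | b)
      · exact Or.inl ⟨e, he, v, b, rfl⟩
      · exact Or.inr (Or.inr (Or.inr (Or.inr ⟨e, he, v, h3, h4, b, rfl⟩)))

end

end Pool.Agent.XYU

end

end
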