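import Pool.Agent.MP_b591f0_mp.Mg.XY_C1
import Pool.Agent.MP_b591f0_mp.Mg.XY_D3
import Pool.Agent.MP_b591f0_mp.Mg.XY_G2

-- part MP_b591f0_mp.XY.H1
section

section

open Finset Real Relation

namespace Pool.Agent.XYU

open Classical

noncomputable section

/-! The grid at one scale: definitions. -/

def mu (nI I : ℕ) (g : ℤ) : ℤ := 64 * 2 ^ nI * 4 ^ I * g

def par (nI I : ℕ) (g : ℤ) : Par := ⟨g, 16 * 4 ^ I * g, 16 * mu nI I g⟩

/-- bound for the charges -/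
def vb (nI I : ℕ) : ℕ := 12 * (1024 * 2 ^ nI * 4 ^ I)

/-- grid points -/
def jp (μ : ℤ) (c : V) : V := (-(40 * μ) + 16 * μ * c.1, -(40 * μ) + 16 * μ * c.2)

/-- lower left corner of the central square -/
def oD (μ : ℤ) : V := jp μ (1, 1)

/-- directed unit edges of the cells other than the central one -/
def GE : Finset (V × Fin 4) := ((rect 0 4 0 4).erase (2, 2)).biUnion fun c =>
  {(c, 0), ((c.1 + 1, c.2), 1), ((c.1 + 1, c.2 + 1), 2), ((c.1, c.2 + 1), 3)}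

/-- side, position along the side, and kind (inner cell, outer cell, domino) -/
abbrev Ix := Fin 4 × Fin 3 × Fin 3

def pc (i : Ix) : V :=
  if i.1 = 0 then (1 + (i.2.1 : ℕ), if i.2.2 = 0 then 1 else 0)
  else if i.1 = 1 then (if i.2.2 = 1 then 4 else 3, 1 + (i.2.1 : ℕ))
  else if i.1 = 2 then (1 + (i.2.1 : ℕ), if i.2.2 = 1 then 4 else 3)
  else (if i.2.2 = 0 then 1 else 0, 1 + (i.2.1 : ℕ))

def pα (i : Ix) : ℕ := if i.2.2 = 2 ∧ (i.1 = 1 ∨ i.1 = 3) then 2 else 1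

def pγ (i : Ix) : ℕ := if i.2.2 = 2 ∧ (i.1 = 0 ∨ i.1 = 2) then 2 else 1

def pε (i : Ix) : ZMod 2 := if i.2.2 = 2 then 0 else 1

/-- the regular event of the ring -/
def RE (β : ℝ) (q : ℕ) (p : Par) (μ : ℤ) (n B N : ℕ) (u : UC) : Prop :=
  (∀ e ∈ GE, Ent β q p n B N (u.pull (fr (jp μ e.1) e.2)) ∧
    Ent β q p n B N (u.pull (fr (jp μ e.1) e.2)).sw) ∧
  ∀ c ∈ rect 0 5 0 5, Iso u.w (jp μ c) (8 * p.W) (2 * μ) ∧ Iso u.b (jp μ c) (8 * p.W) (2 * μ)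

/-- enlarged rectangle -/
def Enl (l : ℤ) (o : V) (α γ : ℕ) (m : ℤ) : Finset V :=
  rect (o.1 - m + 1) (o.1 + l * α + m - 1) (o.2 - m + 1) (o.2 + l * γ + m - 1)

/-- constant of ratio mixing -/
def Kc (β : ℝ) : ℝ := exp (10 * β * 257)

/-- reference probability of a charge -/
def tb (β : ℝ) (q : ℕ) (p : Par) (μ : ℤ) (α γ : ℕ) (m : ℤ) : ℝ :=
  Pm β q (Enl p.l 0 α γ (6 * μ)) fun u => ind (Glu β q p 0 α γ u m)

/-- the charges `a` and `b` can be balanced by typical small pieces -/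
def OKc (β : ℝ) (q : ℕ) (p : Par) (μ : ℤ) (v : ℝ) (a b : ℤ) : Prop :=
  ∃ ch : Ix → ℤ, (∀ i, v ≤ tb β q p μ (pα i) (pγ i) (ch i)) ∧
    b + a + ∑ i, sz (pε i) * ch i = 0

def GoodR (β : ℝ) (q : ℕ) (p : Par) (μ : ℤ) (v : ℝ) (A : ℕ) (L : ℤ) (σ τ : Fld) (u : UC) : Prop :=
  ∃ a b : ℤ, |a| ≤ A ∧ |b| ≤ A ∧ OKc β q p μ v a b ∧ Glu β q p (oD μ) 3 3 u a ∧
    GluO β q p (oD μ) L σ τ u b

/-- new position of the central square -/
def xs (μ : ℤ) : V := (20 * (1024 * μ), 0)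

/-- positions of the pieces in the surgery -/
def so (μ : ℤ) : Option Ix → V
  | none => xs μ + oD μ
  | some i => (0, 100 * μ * (9 * (i.1 : ℕ) + 3 * (i.2.1 : ℕ) + (i.2.2 : ℕ) + 1))

end

end Pool.Agent.XYU

end

section

open Finset Real Relation

namespace Pool.Agent.XYU

open Classical

noncomputable section

/-! Locality, translation and ratio mixing for charged pieces.

`Z_GS_xt`: `Z_GS_lc` and `Z_congr`; for `u' ∈ Om q (_.lc Λ u)` the edges off `Ed Λ` are those of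
`u` (`mem_Om_lc`), `Ed Λ ⊆ Ed (bx 0 L)`, `mem_Off`, `cp_union`, `ind_and`.
`xt_of_wt`: `wt_ne`, `mem_Om`. `ub_sum`: `Z_sum`. `card_Ed_ge`: the edges `s((t,0),(t+1,0))`.
`iso_dep`: `Iso.anti` in both directions, `Ed (bx c (R-1)) ⊆ Ei (bx c R)`.
`iso_pull`: `cn_pull`, `IsFr.dd`.
`gl_congr`: `EA.congr`; the rectangle `rect 0 l 0 (3 W)` is mapped into `P` by `Geo.line`;
`mem_Ei`, `mem_pull_w`, `mem_pull_b`. `glu_dep`, `gluO_lc`: `gl_congr` with `geo_in`, `geo_out`.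
`glu_shift`: `fr (x + y) d = (fr y d).trans (fr x 0)`, `pull_pull`; `FI l (x + o)` is the image of
`FI l o` under the injective map `e ↦ (x + e.1, e.2)`; prove one implication for all `x, o, u` and
get the other one from the shift by `-x`.
`rect_mix`: `rect_cut`, `ub_rm`, `lb_rm` (`e = 256`). `pm_shift`: `Pm_map`; the image of a
rectangle under `fr x 0` is the shifted rectangle. `glu_mix`: `rect_mix`, `glu_dep`, `pm_shift`
with `x = o` and origin `0`, `glu_shift`. -/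

variable {β : ℝ} {q : ℕ} {S : Sys} {f : UC → ℝ} {Λ : Finset V} {L : ℤ} {a : V → ℝ × ℝ}
  {σ τ : Fld} {p : Par} {u u' : UC} {o : V} {α γ : ℕ}

lemma ha1_split {w w' E E' : Es} (hE : E' ⊆ E) (h : ∀ e ∉ E', e ∈ w' ↔ e ∈ w) :
    w' ∩ E = w ∩ (E \ E') ∪ w' ∩ E' := by
  ext e
  simp only [mem_inter, mem_union, mem_sdiff]
  by_cases he : e ∈ E'
  · have := hE he
    tauto
  · have := h e he
    tauto

lemma ha1_at {B : Finset V} {w w' E E' : Es} (hE : E' ⊆ E) (h : ∀ e ∉ E', e ∈ w' ↔ e ∈ w) :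
    AT ((Off B σ).filter fun ρ => cp ρ (w ∩ (E \ E'))) (w' ∩ E') ↔ AT (Off B σ) (w' ∩ E) := by
  rw [ha1_split hE h]
  simp only [AT, mem_filter, cp_union, and_assoc]

lemma ha1_ext {B : Finset V} {w E : Es} : AT (Off B σ) (w ∩ E) ↔ Ext B E σ w := by
  simp only [AT, Ext, mem_Off]

lemma Z_GS_xt (hΛ : Λ ⊆ bx 0 L) (u : UC) (f : UC → ℝ) : Z β q ((GS L a σ τ).lc Λ u) f =
    Z β q ((G0 L a).lc Λ u) fun u' => f u' * ind (XT L σ τ u') := by
  rw [Z_GS_lc]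
  refine Z_congr fun u' hu' _ => ?_
  obtain ⟨-, -, h1, h2⟩ := mem_Om_lc.1 hu'
  have e1 : AT ((GS L a σ τ).lc Λ u).T (u'.w ∩ Ed Λ) ↔ Ext (bx 0 L) (Ed (bx 0 L)) σ u'.w :=
    (ha1_at (Ed_mono hΛ) h1).trans ha1_ext
  have e2 : AT ((GS L a σ τ).lc Λ u).U (u'.b ∩ Ed Λ) ↔ Ext (bx 0 L) (Ed (bx 0 L)) τ u'.b :=
    (ha1_at (Ed_mono hΛ) h2).trans ha1_ext
  rw [XT, ind_and, e1, e2]

lemma xt_of_wt (hu : u ∈ Om q (GS L a σ τ)) (h : wt β (GS L a σ τ) u ≠ 0) :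
    XT L σ τ u ∧ u.w ⊆ Ed (bx 0 L) ∧ u.b ⊆ Ed (bx 0 L) := by
  obtain ⟨h1, h2, -⟩ := wt_ne h
  obtain ⟨-, -, h3, h4⟩ := mem_Om.1 hu
  refine ⟨⟨ha1_ext.1 h1, ha1_ext.1 h2⟩, sdiff_eq_empty_iff_subset.1 ?_,
    sdiff_eq_empty_iff_subset.1 ?_⟩
  · exact h3.trans (empty_sdiff _)
  · exact h4.trans (empty_sdiff _)

lemma UB.mono {Λ' : Finset V} {c : ℝ} (h : UB β q Λ f c) (hΛ : Λ ⊆ Λ') : UB β q Λ' f c :=
  fun S hS h1 => h S hS (hΛ.trans h1)

lemma UB.le (hβ : 0 ≤ β) {g : UC → ℝ} {c c' : ℝ} (h : UB β q Λ f c) (hg : ∀ u, g u ≤ f u)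
    (hc : c ≤ c') : UB β q Λ g c' := fun S hS h1 =>
  (Z_mono hβ hS.grp.a01 fun u _ _ => hg u).trans ((h S hS h1).trans
    (mul_le_mul_of_nonneg_right hc (Z1_nonneg hβ hS.grp.a01)))

lemma ub_sum {ι : Type} (s : Finset ι) (F : ι → UC → ℝ) (c : ι → ℝ)
    (h : ∀ i ∈ s, UB β q Λ (F i) (c i)) :
    UB β q Λ (fun u => ∑ i ∈ s, F i u) (∑ i ∈ s, c i) := fun S hS h1 => by
  rw [Z_sum, sum_mul]
  exact sum_le_sum fun i hi => h i hi S hS h1

lemma card_Ed_ge (L : ℤ) : L ≤ #(Ed (bx 0 L)) := by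
  have h : #(Ico (0 : ℤ) L) ≤ #(Ed (bx 0 L)) := by
    refine card_le_card_of_injOn (fun t => s(((t, 0) : V), (t + 1, 0))) (fun t ht => ?_) ?_
    · have := mem_Ico.1 (mem_coe.1 ht)
      refine mem_coe.2 (mem_Ed.2 ⟨Or.inr ⟨rfl, Or.inl rfl⟩, Or.inl (mem_bx0.2 ?_)⟩)
      simp only [nm]
      omega
    · intro t _ t' _ e
      rcases Sym2.eq_iff.1 e with ⟨h1, -⟩ | ⟨h1, h2⟩
      · exact congrArg Prod.fst h1
      · have a1 : t = t' + 1 := congrArg Prod.fst h1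
        have a2 : t + 1 = t' := congrArg Prod.fst h2
        omega
  rw [Int.card_Ico] at h
  omega

lemma pm_nonneg (hβ : 0 ≤ β) (hf : ∀ u, 0 ≤ f u) : 0 ≤ Pm β q Λ f :=
  div_nonneg (Z_nonneg hβ (grp_Smax _ _ _).a01 fun u _ => hf u)
    (Z1_nonneg hβ (grp_Smax _ _ _).a01)

lemma ha1_ed (c : V) (R : ℤ) : Ed (bx c (R - 1)) ⊆ Ei (bx c R) := by
  intro e he
  obtain ⟨x, y, rfl, h1, h2⟩ := mem_Ed'.1 he
  have h3 := mem_bx.1 h2
  refine mem_Ei.2 ⟨h1, mem_bx.2 (by omega), mem_bx.2 ?_⟩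
  simp only [dd, Adj] at h1 h3 ⊢
  omega

lemma ha1_iso {c : V} {r R : ℤ} (hr : r < R) {w w' : Es}
    (h : w ∩ Ei (bx c R) = w' ∩ Ei (bx c R)) (h' : Iso w' c r R) : Iso w c r R :=
  h'.anti hr fun _ he => (mem_inter.1 (h ▸ mem_inter.2
    ⟨(mem_inter.1 he).1, ha1_ed c R (mem_inter.1 he).2⟩)).1

lemma iso_dep {c : V} {r R : ℤ} (hr : r < R) :
    Dep (bx c R) (Ei (bx c R)) fun u => ind (¬ Iso u.w c r R) := by
  intro u u' _ h _
  have e : Iso u.w c r R ↔ Iso u'.w c r R := ⟨ha1_iso hr h.symm, ha1_iso hr h⟩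
  simp only [e]

lemma iso_pull {F : V ≃ V} (hF : IsFr F) (u : UC) (c : V) (r R : ℤ) :
    Iso (u.pull F).w c r R ↔ Iso u.w (F c) r R := by
  have e : ∀ x y, Cn (u.pull F).w Set.univ x y ↔ Cn u.w Set.univ (F x) (F y) := fun x y =>
    cn_pull (P := Set.univ) hF u
  constructor
  · intro h x y h1 h2
    obtain ⟨x, rfl⟩ := F.surjective x
    obtain ⟨y, rfl⟩ := F.surjective y
    rw [hF.dd] at h1 ⊢
    exact h x y h1 ((e x y).2 h2)
  · intro h x y h1 h2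
    rw [← hF.dd] at h1 ⊢
    exact h _ _ h1 ((e x y).1 h2)

end

end Pool.Agent.XYU

end

section

open Finset Real Relation

namespace Pool.Agent.XYU

open Classical

noncomputable section

variable {β : ℝ} {q : ℕ} {S : Sys} {f : UC → ℝ} {Λ : Finset V} {L : ℤ} {a : V → ℝ × ℝ}
  {σ τ : Fld} {p : Par} {u u' : UC} {o : V} {α γ : ℕ}

lemma gl_congr {P : Set V} {fs : Finset (V × Fin 4)} {nn : V × Fin 4 → ℤ} (hp : p.Ok)
    (hG : Geo P fs p) (h : Gl β q p P fs u σ τ nn) (ha : ∀ v ∈ P, u'.a v = u.a v)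
    (hw : ∀ x ∈ P, ∀ y ∈ P, Adj x y →
      (s(x, y) ∈ u'.w ↔ s(x, y) ∈ u.w) ∧ (s(x, y) ∈ u'.b ↔ s(x, y) ∈ u.b)) :
    Gl β q p P fs u' σ τ nn := by
  obtain ⟨h1, h2, h3⟩ := h
  refine ⟨fun x y hx hy hxy k => h1 x y hx hy hxy ((hw x hx y hy hxy).1.1 k),
    fun x y hx hy hxy k => h2 x y hx hy hxy ((hw x hx y hy hxy).2.1 k), fun e he => ?_⟩
  obtain ⟨f, g, A, h4⟩ := h3 e he
  have key : ∀ v ∈ rect 0 p.l 0 (3 * p.W), fr e.1 e.2 v ∈ P := fun v hv => by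
    obtain ⟨a1, a2, a3, a4⟩ := mem_rect.1 hv
    have := hp.g1
    have := hp.gW
    exact hG.line e he v a1 a2 a3 (by omega)
  refine ⟨f, g, A, h4.congr hp (fun v hv => ha _ (key v hv)) fun e' he' => ?_⟩
  induction e' using Sym2.ind with
  | _ x y =>
    obtain ⟨a1, a2, a3⟩ := mem_Ei.1 he'
    rw [mem_pull_w, mem_pull_w, mem_pull_b, mem_pull_b]
    exact hw _ (key x a2) _ (key y a3) (((isFr_fr e.1 e.2).adj x y).2 a1)

lemma glu_dep (hp : p.Ok) (hα : 1 ≤ α ∧ α ≤ 3) (hγ : 1 ≤ γ ∧ γ ≤ 3) (n : ℤ) :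
    Dep (Qr p.l o α γ) (Ei (Qr p.l o α γ)) fun u => ind (Glu β q p o α γ u n) := by
  have key : ∀ u u' : UC, (∀ v ∈ Qr p.l o α γ, u.a v = u'.a v) →
      u.w ∩ Ei (Qr p.l o α γ) = u'.w ∩ Ei (Qr p.l o α γ) →
      u.b ∩ Ei (Qr p.l o α γ) = u'.b ∩ Ei (Qr p.l o α γ) →
      Glu β q p o α γ u n → Glu β q p o α γ u' n := by
    rintro u u' ha hw hb ⟨σ, τ, nn, h1, h2⟩
    refine ⟨σ, τ, nn, gl_congr hp (geo_in hp hα hγ) h1 (fun v hv => (ha v hv).symm)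
      fun x hx y hy hxy => ?_, h2⟩
    have he : s(x, y) ∈ Ei (Qr p.l o α γ) := mem_Ei.2 ⟨hxy, hx, hy⟩
    have a1 := Finset.ext_iff.1 hw s(x, y)
    have a2 := Finset.ext_iff.1 hb s(x, y)
    simp only [mem_inter, he, and_true] at a1 a2
    exact ⟨a1.symm, a2.symm⟩
  intro u u' ha hw hb
  exact congrArg ind (propext ⟨key u u' ha hw hb,
    key u' u (fun v hv => (ha v hv).symm) hw.symm hb.symm⟩)

lemma gluO_lc (hp : p.Ok) (hΛ : Λ ⊆ Qo p.l o) (hu : u' ∈ Om q (S.lc Λ u)) (n : ℤ) :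
    GluO β q p o L σ τ u' n ↔ GluO β q p o L σ τ u n := by
  obtain ⟨h1, -, h3, h4⟩ := mem_Om_lc.1 hu
  have ha : ∀ v ∈ {v | v ∉ Qo p.l o}, u'.a v = u.a v := fun v hv => h1 v fun k => hv (hΛ k)
  have hw : ∀ x ∈ {v | v ∉ Qo p.l o}, ∀ y ∈ {v | v ∉ Qo p.l o}, Adj x y →
      (s(x, y) ∈ u'.w ↔ s(x, y) ∈ u.w) ∧ (s(x, y) ∈ u'.b ↔ s(x, y) ∈ u.b) := by
    intro x hx y hy _
    have he : s(x, y) ∉ Ed Λ := fun k =>
      (mem_Ed.1 k).2.elim (fun k => hx (hΛ k)) fun k => hy (hΛ k)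
    exact ⟨h3 _ he, h4 _ he⟩
  constructor
  · rintro ⟨σ', τ', nn, a1, a2, a3⟩
    exact ⟨σ', τ', nn, a1, gl_congr hp (geo_out hp) a2 (fun v hv => (ha v hv).symm)
      fun x hx y hy hxy => ⟨(hw x hx y hy hxy).1.symm, (hw x hx y hy hxy).2.symm⟩, a3⟩
  · rintro ⟨σ', τ', nn, a1, a2, a3⟩
    exact ⟨σ', τ', nn, a1, gl_congr hp (geo_out hp) a2 ha hw, a3⟩

end

end Pool.Agent.XYU

end

section

open Finset Real Relation

namespace Pool.Agent.XYU

open Classical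

noncomputable section

variable {β : ℝ} {q : ℕ} {S : Sys} {f : UC → ℝ} {Λ : Finset V} {L : ℤ} {a : V → ℝ × ℝ}
  {σ τ : Fld} {p : Par} {u u' : UC} {o : V} {α γ : ℕ}

lemma ha3_fr0 (x v : V) : fr x 0 v = x + v := by
  ext <;> simp [fr]

lemma ha3_fr (x y : V) (d : Fin 4) (v : V) : fr (x + y) d v = x + fr y d v := by
  fin_cases d <;> ext <;> simp [fr] <;> ring

lemma ha3_trans (x y : V) (d : Fin 4) : (fr y d).trans (fr x 0) = fr (x + y) d := by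
  ext1 v
  rw [Equiv.trans_apply, ha3_fr0, ha3_fr]

lemma ha3_FI (l : ℤ) (x o : V) (α γ : ℕ) :
    FI l (x + o) α γ = (FI l o α γ).image fun e => (x + e.1, e.2) := by
  unfold FI
  rw [image_image]
  refine image_congr fun e _ => ?_
  ext <;> simp [pe, add_assoc]

lemma ha3_cpl {w w' : Es} {l : ℤ} (x : V) (hw : ∀ y z, s(x + y, x + z) ∈ w → s(y, z) ∈ w')
    (h : cpl σ w' (Qr l o α γ)) : cpl (fun v => σ (v - x)) w (Qr l (x + o) α γ) := by
  have hQ : ∀ y : V, y ∈ (Qr l (x + o) α γ : Set V) → y - x ∈ (Qr l o α γ : Set V) := by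
    intro y hy
    rw [mem_coe, Qr, mem_rect] at hy ⊢
    simp only [Prod.fst_add, Prod.snd_add, Prod.fst_sub, Prod.snd_sub] at hy ⊢
    omega
  intro y z hy hz hA hyz
  refine h _ _ (hQ y hy) (hQ z hz) ?_ (hw _ _ ?_)
  · unfold Adj at hA ⊢
    simp only [Prod.fst_sub, Prod.snd_sub]
    omega
  · rwa [add_sub_cancel, add_sub_cancel]

lemma ha3_imp (x o : V) (u : UC) (n : ℤ) (h : Glu β q p o α γ (u.pull (fr x 0)) n) :
    Glu β q p (x + o) α γ u n := by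
  obtain ⟨σ, τ, nn, ⟨h1, h2, h3⟩, h4⟩ := h
  refine ⟨fun v => σ (v - x), fun v => τ (v - x), fun e => nn (e.1 - x, e.2),
    ⟨ha3_cpl x (fun y z hyz => ?_) h1, ha3_cpl x (fun y z hyz => ?_) h2, fun e he => ?_⟩, ?_⟩
  · rwa [mem_pull_w, ha3_fr0, ha3_fr0]
  · rwa [mem_pull_b, ha3_fr0, ha3_fr0]
  · rw [ha3_FI, mem_image] at he
    obtain ⟨e, he, rfl⟩ := he
    have h5 := h3 e he
    rw [pull_pull, ha3_trans] at h5
    simpa only [ha3_fr, add_sub_cancel_left] using h5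
  · rw [ha3_FI, sum_image, ← h4]
    · exact sum_congr rfl fun e _ => by simp only [add_sub_cancel_left]
    · intro e _ e' _ he
      simp only [Prod.mk.injEq, add_right_inj] at he
      exact Prod.ext he.1 he.2

lemma glu_shift (x : V) (n : ℤ) :
    Glu β q p o α γ (u.pull (fr x 0)) n ↔ Glu β q p (x + o) α γ u n := by
  refine ⟨ha3_imp x o u n, fun h => ?_⟩
  have e : (u.pull (fr x 0)).pull (fr (-x) 0) = u := by
    refine UC.ext ?_ ?_ ?_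
    · funext v
      rw [pull_a, pull_a, ha3_fr0, ha3_fr0, add_neg_cancel_left]
    · ext e
      induction e using Sym2.ind with
      | _ y z => simp only [mem_pull_w, ha3_fr0, add_neg_cancel_left]
    · ext e
      induction e using Sym2.ind with
      | _ y z => simp only [mem_pull_b, ha3_fr0, add_neg_cancel_left]
  have h1 := ha3_imp (-x) (x + o) (u.pull (fr x 0)) n (by rwa [e])
  rwa [neg_add_cancel_left] at h1

end

end Pool.Agent.XYU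

end

section

open Finset Real Relation

namespace Pool.Agent.XYU

open Classical

noncomputable section

variable {β : ℝ} {q : ℕ} {S : Sys} {f : UC → ℝ} {Λ : Finset V} {L : ℤ} {a : V → ℝ × ℝ}
  {σ τ : Fld} {p : Par} {u u' : UC} {o : V} {α γ : ℕ}

lemma rect_mix (hβ : 0 ≤ β) {l m : ℤ} (hm : 1 ≤ m) (hl : 0 ≤ l) (hα : l * α ≤ 6 * m)
    (hγ : l * γ ≤ 6 * m) (h0 : ∀ u, 0 ≤ f u) (hf : Dep (Qr l o α γ) (Ei (Qr l o α γ)) f) :
    UB β q (Enl l o α γ m) f (Kc β * Pm β q (Enl l o α γ m) f) ∧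
      LB β q (Enl l o α γ m) f ((Kc β)⁻¹ * Pm β q (Enl l o α γ m) f) := by
  have a0 : 0 ≤ l * α := by positivity
  have g0 : 0 ≤ l * γ := by positivity
  obtain ⟨χ, h1, h2, h3⟩ := rect_cut (x0 := o.1) (x1 := o.1 + l * α) (y0 := o.2)
    (y1 := o.2 + l * γ) hm (by omega) (by omega) (by omega) (by omega)
  have hW : Qr l o α γ ⊆ Enl l o α γ m := fun v hv => by
    rw [Qr, mem_rect] at hv
    rw [Enl, mem_rect]
    omega
  have e : 10 * β * (256 + 1) = 10 * β * 257 := by norm_num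
  have k1 := ub_rm (q := q) hβ hW χ h1 h2 h3 h0 hf
  have k2 := lb_rm (q := q) hβ hW χ h1 h2 h3 h0 hf
  rw [e] at k1 k2
  rw [exp_neg] at k2
  exact ⟨k1, k2⟩

lemma ha_rect (x : V) (x0 x1 y0 y1 : ℤ) : (rect x0 x1 y0 y1).image (fr x 0) =
    rect (x.1 + x0) (x.1 + x1) (x.2 + y0) (x.2 + y1) := by
  ext v
  rw [mem_image, mem_rect]
  constructor
  · rintro ⟨w, hw, rfl⟩
    rw [mem_rect] at hw
    simp only [fr, Equiv.coe_fn_mk, if_true]
    omega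
  · intro hv
    refine ⟨(v.1 - x.1, v.2 - x.2), mem_rect.2 (by simp only; omega), ?_⟩
    simp [fr]

lemma qr_shift (l : ℤ) (x : V) : (Qr l o α γ).image (fr x 0) = Qr l (x + o) α γ := by
  rw [Qr, Qr, ha_rect, Prod.fst_add, Prod.snd_add, add_assoc, add_assoc]

lemma pm_shift (l m : ℤ) (x : V) (f : UC → ℝ) :
    Pm β q (Enl l (x + o) α γ m) (fun u => f (u.pull (fr x 0))) = Pm β q (Enl l o α γ m) f := by
  rw [← Pm_map (isFr_fr x 0) (Enl l o α γ m), Enl, Enl, ha_rect, Prod.fst_add, Prod.snd_add]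
  congr 2 <;> ring

lemma glu_mix (hβ : 0 ≤ β) (hp : p.Ok) {μ : ℤ} (hl : p.l = 16 * μ) (hα : 1 ≤ α ∧ α ≤ 2)
    (hγ : 1 ≤ γ ∧ γ ≤ 2) (n : ℤ) :
    UB β q (Enl p.l o α γ (6 * μ)) (fun u => ind (Glu β q p o α γ u n))
        (Kc β * tb β q p μ α γ n) ∧
      LB β q (Enl p.l o α γ (6 * μ)) (fun u => ind (Glu β q p o α γ u n))
        ((Kc β)⁻¹ * tb β q p μ α γ n) := by
  have h1 := hp.g1
  have h2 := hp.gW
  have h3 := hp.Wl
  have a2 : (α : ℤ) ≤ 2 := by exact_mod_cast hα.2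
  have g2 : (γ : ℤ) ≤ 2 := by exact_mod_cast hγ.2
  have h := rect_mix (q := q) (o := o) (α := α) (γ := γ) (m := 6 * μ) (l := p.l) hβ (by omega)
    (by omega) (by nlinarith) (by nlinarith) (fun u => ind_nonneg _)
    (glu_dep (β := β) (q := q) hp ⟨hα.1, by omega⟩ ⟨hγ.1, by omega⟩ n)
  have e := pm_shift (β := β) (q := q) (o := 0) (α := α) (γ := γ) p.l (6 * μ) o
    fun u => ind (Glu β q p 0 α γ u n)
  simp only [glu_shift, add_zero] at e
  rwa [e] at h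

end

end Pool.Agent.XYU

end

section

open Finset Real Relation

namespace Pool.Agent.XYU

open Classical

noncomputable section

/-! Charges at a regular ring.

`par_ok`: arithmetic (`1 ≤ 2 ^ nI`, `1 ≤ 4 ^ I`); also `8 W * 2 ^ nI = 2 μ`, `4 W ≤ μ`.
`mem_GE`-type facts: `GE` is an explicit finite set; unfold `rect` with `mem_rect`, split the
cell coordinates with `interval_cases` / `omega`. `fi_sub`, `fd_sub`, `fo_sub`: `mem_FI`, `mem_FO`,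
`fin_cases` on the index; write every origin as `jp μ c` (`ring` in each coordinate).
`charge`: `sum_FI`, `sum_FO`, `Fintype.sum_prod_type`, `Fin.sum_univ_succ`, `sum_range_succ`; it is
convenient to put `n c d = nn (jp μ c, d)` and to normalise all the points to the form
`(μ * a, μ * b)` with numerals `a, b` (`ring_nf`), then `ring`. Every directed edge cancels: for an
edge of the central square, inner cell + outer cell - domino is the sum of its two orientations.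
`re_ub`: union bound (`ind_or_le`, `ind_exists_le`, `ub_sum`, `UB.le`, `UB.mono`): `192` events
`¬ Ent` by `ent_ub` (`J = 4 ^ I g`, `ϑ = 64 * 2 ^ nI`), `UB.sw`, `UB.map`, `ge_mid`, `pull_sw`;
`72` events `¬ Iso` by `iso_log` (`r = 8 W`, `n = nI`), `LB.compl`, `UB.sw`, `jp_mid`. Choose
`nI ≥ 1` with `72 (1 - exp (-700 β / nI)) ≤ ε / 2` (`1 - exp (-x) ≤ x`), then `N`, `B = (2 N)^2 + 1`,
then `n` (`0 ≤ 1 - cf β / 2 < 1`). `#GE ≤ 96`.
`re_lab`: `σ v = 0` if `v` is joined (`Cn w univ`) to some `bx (jp μ c) r`, else the extension.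
`re_good`: `re_lab` for both colours, `ec_of_ent` for every `e ∈ GE` in the frame
`fr (jp μ e.1) e.2` (`ge_ends`, `IsFr.dd`, `mem_pull_w`); get `nn` on the actual edges by choice;
`EA.bound` gives `|nn e| * g ≤ l`; `card_FI`, `card_FO`, `charge`.
`ring_good`: on the support (`xt_of_wt`, `Z_mono`) `¬ GoodR` implies `¬ RE` or
`Glu (jp μ (pc i)) m` for some `i` and some `m ∈ Icc (-vb) vb` with `tb < v`; `dens` for `¬ RE`
(`re_ub` with `ε δ / 2`) and for each `(i, m)` (`glu_mix`, `enl_mid`, `UB.mono`, `UB.le`, bound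
`Kc β * v`); choose `v` with `36 (2 vb + 1) Kc β v / δ ≤ ε / 2`. -/

variable {β : ℝ} {q : ℕ} {p : Par} {μ L : ℤ} {u : UC}

lemma par_ok (nI I : ℕ) {g : ℤ} (hg : 1 ≤ g) : (par nI I g).Ok ∧ 1 ≤ mu nI I g ∧
    4 * (par nI I g).W ≤ mu nI I g ∧ 2 ^ nI * (8 * (par nI I g).W) = 2 * mu nI I g := by
  have h1 : (1 : ℤ) ≤ 2 ^ nI := one_le_pow₀ (by norm_num)
  have h2 : (1 : ℤ) ≤ 4 ^ I := one_le_pow₀ (by norm_num)
  have h3 : g ≤ 4 ^ I * g := le_mul_of_one_le_left (by omega) h2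
  have h4 : 4 ^ I * g ≤ 2 ^ nI * (4 ^ I * g) := le_mul_of_one_le_left (by omega) h1
  have h5 : mu nI I g = 64 * (2 ^ nI * (4 ^ I * g)) := by unfold mu; ring
  have h6 : (par nI I g).W = 16 * (4 ^ I * g) := by simp only [par]; ring
  have h7 : (par nI I g).l = 16 * mu nI I g := rfl
  have h8 : (par nI I g).g = g := rfl
  refine ⟨⟨?_, ?_, ?_⟩, ?_, ?_, ?_⟩
  · rw [h8]; exact hg
  · rw [h8, h6]; omega
  · rw [h6, h7, h5]; omega
  · rw [h5]; omega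
  · rw [h6, h5]; omega
  · rw [h6, h5]; ring

lemma card_GE : #GE ≤ 96 := by
  unfold GE
  refine (card_biUnion_le_card_mul _ _ 4 fun c _ => card_le_four).trans ?_
  have h : (#(rect 0 4 0 4) : ℤ) = (4 + 1 - 0) * (4 + 1 - 0) := card_rect (by norm_num) (by norm_num)
  rw [card_erase_of_mem (mem_rect.2 (by norm_num))]
  omega

lemma hb1_mem {e : V × Fin 4} (he : e ∈ GE) : ∃ a b : ℤ, 0 ≤ a ∧ a ≤ 4 ∧ 0 ≤ b ∧ b ≤ 4 ∧
    (a ≠ 2 ∨ b ≠ 2) ∧ (e = ((a, b), 0) ∨ e = ((a + 1, b), 1) ∨ e = ((a + 1, b + 1), 2) ∨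
      e = ((a, b + 1), 3)) := by
  unfold GE at he
  obtain ⟨⟨a, b⟩, hc, h⟩ := mem_biUnion.1 he
  obtain ⟨hne, hr⟩ := mem_erase.1 hc
  rw [mem_rect] at hr
  simp only [mem_insert, mem_singleton] at h hr
  refine ⟨a, b, hr.1, hr.2.1, hr.2.2.1, hr.2.2.2, ?_, h⟩
  by_contra hh
  push Not at hh
  exact hne (by rw [hh.1, hh.2])

lemma ge_ends (μ : ℤ) {e : V × Fin 4} (he : e ∈ GE) : e.1 ∈ rect 0 5 0 5 ∧
    fr (jp μ e.1) e.2 (0, 0) = jp μ e.1 ∧
      ∃ c ∈ rect 0 5 0 5, fr (jp μ e.1) e.2 (16 * μ, 0) = jp μ c := by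
  obtain ⟨a, b, h1, h2, h3, h4, -, h | h | h | h⟩ := hb1_mem he <;> subst h
  · refine ⟨mem_rect.2 (by simp only; omega), by simp [fr], (a + 1, b),
      mem_rect.2 (by simp only; omega), ?_⟩
    simp [fr, jp]; ring
  · refine ⟨mem_rect.2 (by simp only; omega), by simp [fr], (a + 1, b + 1),
      mem_rect.2 (by simp only; omega), ?_⟩
    simp [fr, jp]; ring
  · refine ⟨mem_rect.2 (by simp only; omega), by simp [fr], (a, b + 1),
      mem_rect.2 (by simp only; omega), ?_⟩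
    simp [fr, jp]; ring
  · refine ⟨mem_rect.2 (by simp only; omega), by simp [fr], (a, b),
      mem_rect.2 (by simp only; omega), ?_⟩
    simp [fr, jp]; ring

lemma hb1_mid {x : V} (h1 : -(64 * μ) < x.1) (h2 : x.1 < 64 * μ) (h3 : -(64 * μ) < x.2)
    (h4 : x.2 < 64 * μ) (h : 2 * μ < x.1 ∨ x.1 < -(2 * μ) ∨ 2 * μ < x.2 ∨ x.2 < -(2 * μ)) :
    x ∈ mid μ := by
  rw [mid, mem_ann, nm]; omega

lemma hb1_mul (hμ : 1 ≤ μ) {a : ℤ} (h0 : 0 ≤ a) (h4 : a ≤ 5) : ∃ A : ℤ, 16 * μ * a = 16 * A ∧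
    16 * μ * (a + 1) = 16 * A + 16 * μ ∧ 0 ≤ A ∧ A ≤ 5 * μ ∧ (a ≤ 4 → A ≤ 4 * μ) ∧
      (A ≤ μ ∨ (a = 2 ∧ A = 2 * μ) ∨ 3 * μ ≤ A) := by
  refine ⟨μ * a, by ring, by ring, ?_⟩
  interval_cases a <;> omega

lemma ge_mid (hμ : 1 ≤ μ) {W : ℤ} (hW : W ≤ μ) {e : V × Fin 4} (he : e ∈ GE) :
    (rect 0 (16 * μ) (-W) W).image (fr (jp μ e.1) e.2) ⊆ mid μ := by
  intro x hx
  obtain ⟨⟨s, t⟩, hv, rfl⟩ := mem_image.1 hx
  rw [mem_rect] at hv
  simp only at hv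
  obtain ⟨a, b, h1, h2, h3, h4, h5, h⟩ := hb1_mem he
  obtain ⟨A, a1, a2, a3, -, a4, a5⟩ := hb1_mul hμ h1 (by omega)
  obtain ⟨B, b1, b2, b3, -, b4, b5⟩ := hb1_mul hμ h3 (by omega)
  replace a4 := a4 h2
  replace b4 := b4 h4
  rcases h with h | h | h | h <;> subst h <;> apply hb1_mid <;>
    simp only [fr, jp, Equiv.coe_fn_mk, Fin.isValue, Fin.reduceEq, if_true, if_false, a1, a2, b1,
      b2] <;> omega

lemma jp_mid (hμ : 1 ≤ μ) {c : V} (hc : c ∈ rect 0 5 0 5) :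
    bx (jp μ c) (2 * μ - 1) ⊆ mid μ ∧ nm (jp μ c) ≤ 40 * μ := by
  obtain ⟨a, b⟩ := c
  rw [mem_rect] at hc
  simp only at hc
  obtain ⟨h1, h2, h3, h4⟩ := hc
  obtain ⟨A, a1, -, a3, a4, -, a5⟩ := hb1_mul hμ h1 h2
  obtain ⟨B, b1, -, b3, b4, -, b5⟩ := hb1_mul hμ h3 h4
  constructor
  · intro x hx
    rw [bx, mem_rect] at hx
    simp only [jp, a1, b1] at hx
    apply hb1_mid <;> omega
  · simp only [jp, nm, a1, b1]
    omega

lemma enl_mid (hμ : 1 ≤ μ) (i : Ix) :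
    Enl (16 * μ) (jp μ (pc i)) (pα i) (pγ i) (6 * μ) ⊆ mid μ := by
  intro x hx
  obtain ⟨i, j, k⟩ := i
  rw [Enl, mem_rect] at hx
  fin_cases i <;> fin_cases j <;> fin_cases k <;>
    simp [jp, pc, pα, pγ] at hx <;> apply hb1_mid <;> omega

lemma pa_le (i : Ix) : (1 ≤ pα i ∧ pα i ≤ 2) ∧ 1 ≤ pγ i ∧ pγ i ≤ 2 := by
  unfold pα pγ
  split_ifs <;> omega

end

end Pool.Agent.XYU

end

section

open Finset Real Relation

namespace Pool.Agent.XYU

open Classical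

noncomputable section

variable {β : ℝ} {q : ℕ} {p : Par} {μ L : ℤ} {u : UC}

lemma hb2_ge {x y : ℤ} (h : 0 ≤ x ∧ x ≤ 4 ∧ 0 ≤ y ∧ y ≤ 4 ∧ ¬ (x = 2 ∧ y = 2)) :
    (((x, y), 0) : V × Fin 4) ∈ GE ∧ (((x + 1, y), 1) : V × Fin 4) ∈ GE ∧
      (((x + 1, y + 1), 2) : V × Fin 4) ∈ GE ∧ (((x, y + 1), 3) : V × Fin 4) ∈ GE := by
  have hc : ((x, y) : V) ∈ (rect 0 4 0 4).erase (2, 2) :=
    mem_erase.2 ⟨fun e => h.2.2.2.2 (Prod.mk.inj e), mem_rect.2 ⟨h.1, h.2.1, h.2.2.1, h.2.2.2.1⟩⟩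
  refine ⟨mem_biUnion.2 ⟨_, hc, ?_⟩, mem_biUnion.2 ⟨_, hc, ?_⟩, mem_biUnion.2 ⟨_, hc, ?_⟩,
    mem_biUnion.2 ⟨_, hc, ?_⟩⟩ <;> simp only [mem_insert, mem_singleton, true_or, or_true]

lemma hb2_of {μ x y X Y : ℤ} {d : Fin 4} (h : (((x, y), d) : V × Fin 4) ∈ GE)
    (hx : X = -(40 * μ) + 16 * μ * x) (hy : Y = -(40 * μ) + 16 * μ * y) :
    ∃ e' ∈ GE, (((X, Y), d) : V × Fin 4) = (jp μ e'.1, e'.2) :=
  ⟨_, h, by rw [hx, hy]; rfl⟩

lemma hb2_fi (μ : ℤ) {c : V} {α γ : ℕ} (hα : 1 ≤ α) (hγ : 1 ≤ γ)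
    (h0 : 0 ≤ c.1 ∧ c.1 + α ≤ 5 ∧ 0 ≤ c.2 ∧ c.2 + γ ≤ 5)
    (h1 : 2 < c.1 ∨ c.1 + α ≤ 2 ∨ 2 < c.2 ∨ c.2 + γ ≤ 2 ∨
      (c.1 < 2 ∧ 3 < c.1 + α ∧ c.2 < 2 ∧ 3 < c.2 + γ)) {e : V × Fin 4}
    (he : e ∈ FI (16 * μ) (jp μ c) α γ) : ∃ e' ∈ GE, e = (jp μ e'.1, e'.2) := by
  rcases mem_FI.1 he with ⟨a, ha, rfl⟩ | ⟨a, ha, rfl⟩ | ⟨a, ha, rfl⟩ | ⟨a, ha, rfl⟩
  · exact hb2_of (hb2_ge (x := c.1 + a) (y := c.2) (by omega)).1 (by simp only [jp]; ring) rfl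
  · exact hb2_of (hb2_ge (x := c.1 + α - 1) (y := c.2 + a) (by omega)).2.1
      (by simp only [jp]; ring) (by simp only [jp]; ring)
  · exact hb2_of (hb2_ge (x := c.1 + a) (y := c.2 + γ - 1) (by omega)).2.2.1
      (by simp only [jp]; ring) (by simp only [jp]; ring)
  · exact hb2_of (hb2_ge (x := c.1) (y := c.2 + a) (by omega)).2.2.2 rfl (by simp only [jp]; ring)

lemma fi_sub (μ : ℤ) (i : Ix) {e : V × Fin 4} (he : e ∈ FI (16 * μ) (jp μ (pc i)) (pα i) (pγ i)) :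
    ∃ e' ∈ GE, e = (jp μ e'.1, e'.2) := by
  refine hb2_fi μ (pa_le i).1.1 (pa_le i).2.1 ?_ ?_ he
  · clear he; revert i; decide
  · clear he; revert i; decide

lemma fd_sub (μ : ℤ) {e : V × Fin 4} (he : e ∈ FI (16 * μ) (oD μ) 3 3) :
    ∃ e' ∈ GE, e = (jp μ e'.1, e'.2) := by
  exact hb2_fi μ (by norm_num) (by norm_num) (by norm_num) (by norm_num) he

lemma fo_sub (μ : ℤ) {e : V × Fin 4} (he : e ∈ FO (16 * μ) (oD μ)) :
    ∃ e' ∈ GE, e = (jp μ e'.1, e'.2) := by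
  rcases mem_FO.1 he with ⟨a, ha, rfl⟩ | ⟨a, ha, rfl⟩ | ⟨a, ha, rfl⟩ | ⟨a, ha, rfl⟩
  · exact hb2_of (hb2_ge (x := 1 + a) (y := 0) (by omega)).2.2.1
      (by simp only [oD, jp]; ring) (by simp only [oD, jp]; ring)
  · exact hb2_of (hb2_ge (x := 4) (y := 1 + a) (by omega)).2.2.2
      (by simp only [oD, jp]; ring) (by simp only [oD, jp]; ring)
  · exact hb2_of (hb2_ge (x := 1 + a) (y := 4) (by omega)).1
      (by simp only [oD, jp]; ring) (by simp only [oD, jp]; ring)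
  · exact hb2_of (hb2_ge (x := 0) (y := 1 + a) (by omega)).2.1
      (by simp only [oD, jp]; ring) (by simp only [oD, jp]; ring)

end

end Pool.Agent.XYU

end

section

open Finset Real Relation

namespace Pool.Agent.XYU

open Classical

noncomputable section

variable {β : ℝ} {q : ℕ} {p : Par} {μ L : ℤ} {u : UC}

lemma hb3_FI (hμ : 1 ≤ μ) (nn : V × Fin 4 → ℤ) (n : ℤ → ℤ → Fin 4 → ℤ)
    (hn : ∀ a b d, nn ((-(40 * μ) + 16 * μ * a, -(40 * μ) + 16 * μ * b), d) = n a b d)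
    (c : V) (α γ : ℕ) :
    ∑ e ∈ FI (16 * μ) (jp μ c) α γ, nn e = ∑ a ∈ range α, n (c.1 + a) c.2 0 +
      ∑ b ∈ range γ, n (c.1 + α) (c.2 + b) 1 + ∑ a ∈ range α, n (c.1 + (a + 1)) (c.2 + γ) 2 +
      ∑ b ∈ range γ, n c.1 (c.2 + (b + 1)) 3 := by
  rw [sum_FI (by omega)]
  simp only [jp, add_assoc, ← mul_add, hn]

lemma hb3_FO (hμ : 1 ≤ μ) (nn : V × Fin 4 → ℤ) (n : ℤ → ℤ → Fin 4 → ℤ)
    (hn : ∀ a b d, nn ((-(40 * μ) + 16 * μ * a, -(40 * μ) + 16 * μ * b), d) = n a b d) (c : V) :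
    ∑ e ∈ FO (16 * μ) (jp μ c), nn e = ∑ a ∈ range 3, n (c.1 + (a + 1)) c.2 2 +
      ∑ b ∈ range 3, n (c.1 + 3) (c.2 + (b + 1)) 3 + ∑ a ∈ range 3, n (c.1 + a) (c.2 + 3) 0 +
      ∑ b ∈ range 3, n c.1 (c.2 + b) 1 := by
  rw [sum_FO (by omega)]
  simp only [jp, add_assoc, ← mul_add, hn]

lemma charge (hμ : 1 ≤ μ) (nn : V × Fin 4 → ℤ) :
    ∑ e ∈ FO (16 * μ) (oD μ), nn e + ∑ e ∈ FI (16 * μ) (oD μ) 3 3, nn e +
      ∑ i : Ix, sz (pε i) * ∑ e ∈ FI (16 * μ) (jp μ (pc i)) (pα i) (pγ i), nn e = 0 := by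
  obtain ⟨n, hn⟩ : ∃ n : ℤ → ℤ → Fin 4 → ℤ, ∀ a b d,
      nn ((-(40 * μ) + 16 * μ * a, -(40 * μ) + 16 * μ * b), d) = n a b d := ⟨_, fun _ _ _ => rfl⟩
  simp only [oD, hb3_FI hμ nn n hn, hb3_FO hμ nn n hn, Fintype.sum_prod_type, Fin.sum_univ_four,
    Fin.sum_univ_three]
  simp [pc, pα, pγ, pε, sz, sum_range_succ]
  ring

end

end Pool.Agent.XYU

end

section

open Finset Real Relation

namespace Pool.Agent.XYU

open Classical

noncomputable section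

variable {β : ℝ} {q : ℕ} {p : Par} {μ L : ℤ} {u : UC}

lemma hb4_add {Λ : Finset V} {f f' : UC → ℝ} {c c' : ℝ} (h : UB β q Λ f c) (h' : UB β q Λ f' c') :
    UB β q Λ (fun u => f u + f' u) (c + c') := by
  have := ub_sum (β := β) (q := q) (Λ := Λ) univ (fun b : Bool => cond b f f')
    (fun b => cond b c c') fun b _ => by cases b <;> assumption
  simpa only [Fintype.sum_bool, cond_true, cond_false] using this

lemma hb4_ind {ι : Type} (s : Finset ι) (A B : ι → Prop) :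
    ind (¬ ∀ i ∈ s, A i ∧ B i) ≤ ∑ i ∈ s, (ind (¬ A i) + ind (¬ B i)) := by
  refine le_trans (ind_mono fun h => ?_) ((ind_exists_le s fun i => ¬ A i ∨ ¬ B i).trans
    (sum_le_sum fun i _ => ind_or_le _ _))
  simpa only [not_forall, not_and_or, exists_prop] using h

lemma hb4_const (β : ℝ) {K ε : ℝ} (hK : 0 < K) (hε : 0 < ε) : ∃ n B N : ℕ, 1 ≤ N ∧
    (2 * N) ^ 2 < B ∧ K * (1 / N + 2 * B * (1 - cf β / 2) ^ n) ≤ ε := by
  obtain ⟨N, hN⟩ := exists_nat_one_div_lt (show 0 < ε / K / 2 by positivity)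
  have h1 : 0 < cf β := exp_pos _
  have hB : (0 : ℝ) < ((2 * (N + 1)) ^ 2 + 1 : ℕ) := by positivity
  obtain ⟨n, hn⟩ := exists_pow_lt_of_lt_one
    (show 0 < ε / K / 2 / (2 * ((2 * (N + 1)) ^ 2 + 1 : ℕ)) by positivity)
    (show 1 - cf β / 2 < 1 by linarith)
  refine ⟨n, (2 * (N + 1)) ^ 2 + 1, N + 1, by omega, by omega, ?_⟩
  rw [lt_div_iff₀' (by positivity)] at hn
  rw [← le_div_iff₀' hK, Nat.cast_succ N]
  linarith

theorem re_ub (hβ : 0 ≤ β) {ε : ℝ} (hε : 0 < ε) : ∃ nI n B N : ℕ, (2 * N) ^ 2 < B ∧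
    ∀ (q : ℕ) (g : ℤ), 1 ≤ g → nI ≤ q → UB β q (mid (mu nI (B * (2 * n + 8)) g))
      (fun u => ind (¬ RE β q (par nI (B * (2 * n + 8)) g) (mu nI (B * (2 * n + 8)) g) n B N u))
      ε := by
  obtain ⟨m, hm⟩ := exists_nat_one_div_lt (show 0 < ε / (144 * (700 * β + 1)) by positivity)
  have hcf : 0 < cf β := exp_pos _
  obtain ⟨n, B, N, hN, hB, hc⟩ := hb4_const β
    (K := 4 * (3 * ((64 * 2 ^ (m + 1) : ℕ) : ℝ) + 1) / cf β) (ε := ε / 384) (by positivity)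
    (by positivity)
  refine ⟨m + 1, n, B, N, hB, fun q g hg hq => ?_⟩
  obtain ⟨ok, h1, h2, h3⟩ := par_ok (m + 1) (B * (2 * n + 8)) hg
  have hW := ok.gW
  have hg' := ok.g1
  have e := (ent_ub (q := q) (p := par (m + 1) (B * (2 * n + 8)) g) (J := 4 ^ (B * (2 * n + 8)) * g)
    (n := n) (B := B) (ϑ := 64 * 2 ^ (m + 1)) hβ hg (mul_assoc _ _ _) (mul_comm _ _).le
    (le_of_eq (by simp only [par, mu]; push_cast; ring)) hN).le hβ (fun _ => le_rfl) hc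
  have i : ∀ c ∈ rect 0 5 0 5, UB β q (mid (mu (m + 1) (B * (2 * n + 8)) g)) (fun u => ind (¬ Iso u.w
      (jp (mu (m + 1) (B * (2 * n + 8)) g) c) (8 * (par (m + 1) (B * (2 * n + 8)) g).W)
      (2 * mu (m + 1) (B * (2 * n + 8)) g))) (ε / 144) := fun c hc => by
    have := (iso_log (q := q) hβ (jp (mu (m + 1) (B * (2 * n + 8)) g) c)
      (r := 8 * (par (m + 1) (B * (2 * n + 8)) g).W) (by omega) (Nat.le_add_left 1 m) hq).compl
    rw [h3] at this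
    refine (this.mono (jp_mid h1 hc).1).le hβ (fun _ => le_rfl) ?_
    have a := add_one_le_exp (-(700 * β / ((m + 1 : ℕ) : ℝ)))
    have b : 700 * β / ((m + 1 : ℕ) : ℝ) ≤ ε / 144 := by
      rw [lt_div_iff₀ (by positivity)] at hm
      rw [Nat.cast_succ, ← mul_one_div]
      have : (0 : ℝ) < 1 / ((m : ℝ) + 1) := by positivity
      nlinarith
    linarith
  refine (hb4_add (ub_sum GE _ _ fun x hx => hb4_add
    ((e.map (isFr_fr (jp (mu (m + 1) (B * (2 * n + 8)) g) x.1) x.2)).mono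
      (ge_mid h1 (by omega) hx))
    ((e.sw.map (isFr_fr (jp (mu (m + 1) (B * (2 * n + 8)) g) x.1) x.2)).mono
      (ge_mid h1 (by omega) hx)))
    (ub_sum (rect 0 5 0 5) _ _ fun c hc => hb4_add (i c hc) (i c hc).sw)).le hβ (fun u => ?_) ?_
  · refine le_trans (ind_mono not_and_or.1) ((ind_or_le _ _).trans
      (add_le_add (hb4_ind _ _ _) (hb4_ind _ _ _)))
  · have c1 : (#GE : ℝ) ≤ 96 := by exact_mod_cast card_GE
    have c2 : #(rect 0 5 0 5) = 36 := by decide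
    simp only [sum_const, nsmul_eq_mul, c2]
    push_cast
    nlinarith

end

end Pool.Agent.XYU

end

section

open Finset Real Relation

namespace Pool.Agent.XYU

open Classical

noncomputable section

variable {β : ℝ} {q : ℕ} {p : Par} {μ L : ℤ} {u : UC}

lemma re_lab {w : Es} {σ₀ : Fld} {r : ℤ} (hμ : 1 ≤ μ) (hL : 42 * μ ≤ L) (hw : w ⊆ Ed (bx 0 L))
    (h : Ext (bx 0 L) (Ed (bx 0 L)) σ₀ w) (hI : ∀ c ∈ rect 0 5 0 5, Iso w (jp μ c) r (2 * μ)) :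
    ∃ σ : Fld, (∀ v ∉ bx 0 L, σ v = σ₀ v) ∧ cpl σ w Set.univ ∧
      ∀ c ∈ rect 0 5 0 5, ∀ v, dd v (jp μ c) ≤ r → σ v = 0 := by
  obtain ⟨σ', h1, h2⟩ := h
  let J : V → Prop := fun v => ∃ c ∈ rect 0 5 0 5, ∃ x, dd x (jp μ c) ≤ r ∧ Cn w Set.univ x v
  have hJ : ∀ x y, Adj x y → s(x, y) ∈ w → J x → J y := by
    rintro x y hxy he ⟨c, hc, z, hz, hzx⟩
    exact ⟨c, hc, z, hz, hzx.step trivial trivial hxy he⟩
  refine ⟨fun v => if J v then 0 else σ' v, fun v hv => ?_, fun x y _ _ hxy he => ?_,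
    fun c hc v hv => if_pos ⟨c, hc, v, hv, ReflTransGen.refl⟩⟩
  · have : ¬ J v := by
      rintro ⟨c, hc, z, hz, hzv⟩
      have a1 := hI c hc z v hz hzv
      have a2 := (jp_mid hμ hc).2
      have a3 := dd_tri v (jp μ c) 0
      rw [dd_zero, dd_zero] at a3
      exact hv (mem_bx0.2 (by omega))
    simp only [if_neg this]
    exact h1 v hv
  · by_cases hx : J x
    · simp only [if_pos hx, if_pos (hJ x y hxy he hx)]
    · have hy : ¬ J y := fun hy => hx (hJ y x hxy.symm (Sym2.eq_swap ▸ he) hy)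
      simp only [if_neg hx, if_neg hy]
      exact h2 x y (mem_inter.2 ⟨he, hw he⟩)

lemma hb5_sum {K : ℤ} (hK : 0 ≤ K) {T : Finset (V × Fin 4)} (hT : #T ≤ 12) {nn : V × Fin 4 → ℤ}
    (h : ∀ e ∈ T, |nn e| ≤ K) : |∑ e ∈ T, nn e| ≤ 12 * K := by
  have a1 := abs_sum_le_sum_abs nn T
  have a2 := sum_le_card_nsmul T (fun e => |nn e|) K h
  have a3 : ((#T : ℕ) : ℤ) ≤ 12 := by exact_mod_cast hT
  rw [nsmul_eq_mul] at a2
  nlinarith

theorem re_good (hβ : 0 ≤ β) (hq : 0 < q) {nI n B N I : ℕ} {g : ℤ} (hg : 1 ≤ g)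
    (hI : I = B * (2 * n + 8)) (hB : (2 * N) ^ 2 < B) (hL : 42 * mu nI I g ≤ L) {σ₀ τ₀ : Fld}
    (hw : u.w ⊆ Ed (bx 0 L)) (hb : u.b ⊆ Ed (bx 0 L)) (hX : XT L σ₀ τ₀ u)
    (h : RE β q (par nI I g) (mu nI I g) n B N u) : ∃ (a b : ℤ) (ch : Ix → ℤ),
      |a| ≤ vb nI I ∧ |b| ≤ vb nI I ∧ (∀ i, |ch i| ≤ vb nI I) ∧
      b + a + ∑ i, sz (pε i) * ch i = 0 ∧ Glu β q (par nI I g) (oD (mu nI I g)) 3 3 u a ∧
      GluO β q (par nI I g) (oD (mu nI I g)) L σ₀ τ₀ u b ∧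
      ∀ i, Glu β q (par nI I g) (jp (mu nI I g) (pc i)) (pα i) (pγ i) u (ch i) := by
  obtain ⟨hp, hμ, -, -⟩ := par_ok nI I hg
  obtain ⟨σ, s1, s2, s3⟩ := re_lab hμ hL hw hX.1 fun c hc => (h.2 c hc).1
  obtain ⟨τ, t1, t2, t3⟩ := re_lab hμ hL hb hX.2 fun c hc => (h.2 c hc).2
  have hA : ∀ e : V × Fin 4, ∃ m : ℤ, (∃ e' ∈ GE, e = (jp (mu nI I g) e'.1, e'.2)) →
      EC β q (par nI I g) (u.pull (fr e.1 e.2)) (fun v => σ (fr e.1 e.2 v))
        (fun v => τ (fr e.1 e.2 v)) m ∧ |m| ≤ 1024 * 2 ^ nI * 4 ^ I := by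
    intro e
    by_cases he : ∃ e' ∈ GE, e = (jp (mu nI I g) e'.1, e'.2)
    · obtain ⟨e', he', rfl⟩ := he
      obtain ⟨g1, g2, c, g3, g4⟩ := ge_ends (mu nI I g) he'
      have hF := isFr_fr (jp (mu nI I g) e'.1) e'.2
      obtain ⟨m, hm⟩ := ec_of_ent (σ := fun v => σ (fr (jp (mu nI I g) e'.1) e'.2 v))
        (τ := fun v => τ (fr (jp (mu nI I g) e'.1) e'.2 v)) hβ hq hp
        (by rw [← hI]; exact le_of_eq (by simp only [par]; ring)) hB (h.1 e' he').1 (h.1 e' he').2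
        (by
          rintro v (hv | hv)
          · rw [← hF.dd, g2] at hv
            exact ⟨s3 _ g1 _ hv, t3 _ g1 _ hv⟩
          · rw [← hF.dd, show (par nI I g).l = 16 * mu nI I g from rfl, g4] at hv
            exact ⟨s3 _ g3 _ hv, t3 _ g3 _ hv⟩)
        (fun x y _ _ hxy he => s2 _ _ trivial trivial ((hF.adj x y).2 hxy) ((mem_pull_w _ u).1 he))
        (fun x y _ _ hxy he => t2 _ _ trivial trivial ((hF.adj x y).2 hxy) ((mem_pull_b _ u).1 he))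
      refine ⟨m, fun _ => ⟨hm, ?_⟩⟩
      obtain ⟨f, f', A, hA⟩ := hm
      have b1 : |m| * g ≤ 16 * mu nI I g := (hA.bound hp).1
      refine le_of_mul_le_mul_right (a := g) (b1.trans (le_of_eq ?_)) (by omega)
      unfold mu; ring
    · exact ⟨0, fun h' => absurd h' he⟩
  choose nn hn using hA
  have hK : (0 : ℤ) ≤ 1024 * 2 ^ nI * 4 ^ I := by positivity
  have hv : ((vb nI I : ℕ) : ℤ) = 12 * (1024 * 2 ^ nI * 4 ^ I) := by unfold vb; push_cast; ring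
  have c1 : ∀ P : Set V, cpl σ u.w P := fun P x y _ _ => s2 x y trivial trivial
  have c2 : ∀ P : Set V, cpl τ u.b P := fun P x y _ _ => t2 x y trivial trivial
  refine ⟨∑ e ∈ FI (16 * mu nI I g) (oD (mu nI I g)) 3 3, nn e,
    ∑ e ∈ FO (16 * mu nI I g) (oD (mu nI I g)), nn e,
    fun i => ∑ e ∈ FI (16 * mu nI I g) (jp (mu nI I g) (pc i)) (pα i) (pγ i), nn e,
    ?_, ?_, fun i => ?_, charge hμ nn,
    ⟨σ, τ, nn, ⟨c1 _, c2 _, fun e he => (hn e (fd_sub _ he)).1⟩, rfl⟩,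
    ⟨σ, τ, nn, fun v hv => ⟨s1 v hv, t1 v hv⟩,
      ⟨c1 _, c2 _, fun e he => (hn e (fo_sub _ he)).1⟩, rfl⟩,
    fun i => ⟨σ, τ, nn, ⟨c1 _, c2 _, fun e he => (hn e (fi_sub _ i he)).1⟩, rfl⟩⟩
  · rw [hv]
    exact hb5_sum hK (card_FI le_rfl le_rfl) fun e he => (hn e (fd_sub _ he)).2
  · rw [hv]
    exact hb5_sum hK card_FO fun e he => (hn e (fo_sub _ he)).2
  · rw [hv]
    have := pa_le i
    exact hb5_sum hK (card_FI (by omega) (by omega)) fun e he => (hn e (fi_sub _ i he)).2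

end

end Pool.Agent.XYU

end

section

open Finset Real Relation

namespace Pool.Agent.XYU

open Classical

noncomputable section

variable {β : ℝ} {q : ℕ} {p : Par} {μ L : ℤ} {u : UC}

lemma hb_add {Λ : Finset V} {f g : UC → ℝ} {c d : ℝ} (h : UB β q Λ f c) (k : UB β q Λ g d) :
    UB β q Λ (fun u => f u + g u) (c + d) := fun S hS hΛ => by
  rw [Z_add, add_mul]
  exact add_le_add (h S hS hΛ) (k S hS hΛ)

theorem ring_good (hβ : 0 ≤ β) {ε δ : ℝ} (hε : 0 < ε) (hδ : 0 < δ) (N : ℕ) : ∃ nI I : ℕ,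
    ∃ v > (0 : ℝ), ∀ (q : ℕ) (g L : ℤ) (a : V → ℝ × ℝ) (σ τ : Fld), 1 ≤ g → nI ≤ q →
      128 * mu nI I g ≤ L → LG q (G0 L a) → Z β q (GS L a σ τ) (fun u =>
        ind (¬ GoodR β q (par nI I g) (mu nI I g) v (vb nI I) L σ τ u) *
          ind (¬ Bad β q (mu nI I g) N δ u)) ≤ ε * Z1 β q (GS L a σ τ) := by
  obtain ⟨nI, n, B, N', hB, hre⟩ := re_ub hβ (ε := ε * δ / 2) (by positivity)
  obtain ⟨I, hI⟩ : ∃ I, I = B * (2 * n + 8) := ⟨_, rfl⟩
  rw [← hI] at hre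
  have hK : 0 < Kc β := exp_pos _
  obtain ⟨v, hv, hv2⟩ : ∃ v : ℝ, 0 < v ∧
      (36 * (2 * vb nI I + 1) : ℕ) * (Kc β * v) = ε * δ / 2 :=
    ⟨ε * δ / 2 / ((36 * (2 * vb nI I + 1) : ℕ) * Kc β), by positivity, by field_simp⟩
  refine ⟨nI, I, v, hv, fun q g L a σ τ hg hq hL hS => ?_⟩
  obtain ⟨o1, o2, o3, o4⟩ := par_ok nI I hg
  obtain ⟨s, hs⟩ : ∃ s : Finset (Ix × ℤ), s = (univ ×ˢ Icc (-(vb nI I : ℤ)) (vb nI I)).filter
    fun x => tb β q (par nI I g) (mu nI I g) (pα x.1) (pγ x.1) x.2 < v := ⟨_, rfl⟩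
  have hsc : #s ≤ 36 * (2 * vb nI I + 1) := by
    rw [hs]
    refine (card_filter_le _ _).trans (le_of_eq ?_)
    rw [card_product, Int.card_Icc, card_univ]
    simp only [Ix, Fintype.card_prod, Fintype.card_fin]
    omega
  have h1 := ub_sum (β := β) (q := q) (Λ := mid (mu nI I g)) s
    (fun x u => ind (Glu β q (par nI I g) (jp (mu nI I g) (pc x.1)) (pα x.1) (pγ x.1) u x.2))
    (fun _ => Kc β * v) fun x hx => by
      rw [hs] at hx
      exact ((glu_mix hβ o1 (μ := mu nI I g) rfl (pa_le x.1).1 (pa_le x.1).2 x.2).1.mono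
        (enl_mid o2 x.1)).le hβ (fun _ => le_rfl)
          (mul_le_mul_of_nonneg_left (mem_filter.1 hx).2.le hK.le)
  have h2 := (hb_add (hre q g hg hq) h1).le hβ (c' := ε * δ) (fun _ => le_rfl) (by
    rw [sum_const, nsmul_eq_mul]
    have : (#s : ℝ) * (Kc β * v) ≤ (36 * (2 * vb nI I + 1) : ℕ) * (Kc β * v) := by
      gcongr
    linarith)
  have h3 := dens hβ o2 hL hS σ τ N hδ (by positivity)
    (fun u => add_nonneg (ind_nonneg _) (sum_nonneg fun _ _ => ind_nonneg _)) h2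
  rw [mul_div_cancel_right₀ _ hδ.ne'] at h3
  refine le_trans (Z_mono hβ hS.grp.a01 fun u hu hw => ?_) h3
  refine mul_le_mul_of_nonneg_right ?_ (ind_nonneg _)
  obtain ⟨x1, x2, x3⟩ := xt_of_wt hu hw
  by_cases hR : RE β q (par nI I g) (mu nI I g) n B N' u
  · refine le_add_of_nonneg_of_le (ind_nonneg _) ?_
    by_cases hG : GoodR β q (par nI I g) (mu nI I g) v (vb nI I) L σ τ u
    · rw [ind_neg (not_not.2 hG)]
      exact sum_nonneg fun _ _ => ind_nonneg _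
    obtain ⟨a', b', ch, c1, c2, c3, c4, c5, c6, c7⟩ :=
      re_good hβ hS.pos hg hI hB (by omega) x2 x3 x1 hR
    obtain ⟨i, hi⟩ : ∃ i, tb β q (par nI I g) (mu nI I g) (pα i) (pγ i) (ch i) < v := by
      by_contra hn
      exact hG ⟨a', b', c1, c2, ⟨ch, fun i => not_lt.1 fun k => hn ⟨i, k⟩, c4⟩, c5, c6⟩
    refine le_trans ((ind_le_one _).trans_eq (ind_pos (c7 i)).symm) ?_
    refine single_le_sum (a := (i, ch i)) (f := fun x : Ix × ℤ =>
      ind (Glu β q (par nI I g) (jp (mu nI I g) (pc x.1)) (pα x.1) (pγ x.1) u x.2))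
      (fun _ _ => ind_nonneg _) ?_
    rw [hs]
    exact mem_filter.2 ⟨mem_product.2 ⟨mem_univ _, mem_Icc.2 (abs_le.1 (c3 i))⟩, hi⟩
  · rw [ind_pos hR]
    exact le_add_of_le_of_nonneg (ind_le_one _) (sum_nonneg fun _ _ => ind_nonneg _)

end

end Pool.Agent.XYU

end

end

-- part MP_b591f0_mp.XY.H2
section

section

open Finset Real Relation

namespace Pool.Agent.XYU

open Classical

noncomputable section

/-! Surgery: the central square is moved and typical small pieces are inserted.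

`plc_surg`, `enl_surg`: coordinates (`mem_rect`, `pa_le`, `par_ok`; `mu nI I (t * g) = t * mu nI I g`,
`4 W ≤ μ`); the row numbers `9 a + 3 b + c + 1` are different for different indices and lie in
`[1, 36]`; `Fintype.card (Option Ix) = 37`.
`surg_a`: `rect_mix` (`m = 8 μ`) at `oD μ` gives `Z S f ≤ Kc * Pm f * Z1 S`; `pm_shift` and the lower
bound of `rect_mix` at `xs μ + oD μ` (with `Dep.pull`, `qr_shift`) give
`Kc⁻¹ * Pm f * Z1 S ≤ Z S (f ∘ pull)`; `lb_prod` with `L i = Enl _ (so μ (some i)) _ _ (6 μ)`,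
`A i = Qr _ (so μ (some i)) _ _`, `B = Qr _ (so μ none) 3 3`, `glu_mix`, `glu_dep`, `enl_surg`, and
`v / Kc ≤ Kc⁻¹ * tb`.
`surg_b`: `dlr` from `S.lc Λ' v` to `Λ` (`lc_in`, `lc_lc`, `Om_cond`); on `Om q (S.lc Λ u)` the
function `F` equals the constant `F u ≥ 0`.
`surg`: `glue` with `κ = Option Ix`, `ϑ = 48 * 2 ^ (10 M) * (64 * 2 ^ nI * 4 ^ I)`, giving `c, g₀`;
`C = Kc ^ 2 (Kc / v) ^ 36 / c`. `dlr` in `GS L a σ τ` on `Λ' = Qo l' (oD μ')` (`Om` of `GS` and of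
`G0` coincide by `rfl`): for a state `v`, `GluO` is constant on `Om q (_.lc Λ' v)` (`gluO_lc`); if
it fails the left side vanishes. Otherwise `Z_GS_xt` twice, `ind ≤ 1`, `surg_a` for the system
`(G0 L a).lc Λ' v` (`LG.lc`), then `surg_b` with `Λ = Gap ..` and
`F u = (∏ i, ind (Glu (so μ (some i)) ..)) * f (u.pull (fr (xs μ) 0))`: it is constant on
`Om q (_.lc Λ u)` by `Dep.lc` (the rectangles are disjoint from the gap), and where it does not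
vanish `glue` applies (`glu_shift` for the moved square, `gluO_lc` for the outside, charges
`oq aa ch`, signs `oq 0 pε`, `Fintype.sum_option`). Finally drop the product (`≤ 1`). -/

variable {β : ℝ} {q : ℕ} {S : Sys} {μ L : ℤ} {f : UC → ℝ}

lemma hc1_so (hμ : 0 ≤ μ) (i : Ix) : (so μ (some i)).1 = 0 ∧ 100 * μ ≤ (so μ (some i)).2 ∧
    (so μ (some i)).2 ≤ 3600 * μ := by
  obtain ⟨a, b, c⟩ := i
  have h1 := a.2
  have h2 := b.2
  have h3 := c.2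
  have h4 : (1 : ℤ) ≤ 9 * (a : ℕ) + 3 * (b : ℕ) + (c : ℕ) + 1 := by omega
  have h5 : (9 * (a : ℕ) + 3 * (b : ℕ) + (c : ℕ) + 1 : ℤ) ≤ 36 := by omega
  refine ⟨rfl, ?_, ?_⟩
  · simp only [so]
    nlinarith
  · simp only [so]
    nlinarith

lemma hc1_row (hμ : 0 ≤ μ) {i j : Ix} (h : i ≠ j) :
    (so μ (some i)).2 + 100 * μ ≤ (so μ (some j)).2 ∨
      (so μ (some j)).2 + 100 * μ ≤ (so μ (some i)).2 := by
  obtain ⟨a, b, c⟩ := i
  obtain ⟨a', b', c'⟩ := j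
  have h2 := b.2
  have h3 := c.2
  have h2' := b'.2
  have h3' := c'.2
  have h4 : (9 * (a : ℕ) + 3 * (b : ℕ) + (c : ℕ) + 1 : ℤ) + 1 ≤
        9 * (a' : ℕ) + 3 * (b' : ℕ) + (c' : ℕ) + 1 ∨
      (9 * (a' : ℕ) + 3 * (b' : ℕ) + (c' : ℕ) + 1 : ℤ) + 1 ≤
        9 * (a : ℕ) + 3 * (b : ℕ) + (c : ℕ) + 1 := by
    by_contra hc
    refine h ?_
    have e1 : a = a' := Fin.ext (by omega)
    have e2 : b = b' := Fin.ext (by omega)
    have e3 : c = c' := Fin.ext (by omega)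
    rw [e1, e2, e3]
  simp only [so]
  rcases h4 with h4 | h4
  · left
    nlinarith
  · right
    nlinarith

lemma hc1_none (μ : ℤ) : (so μ none).1 = 20456 * μ ∧ (so μ none).2 = -(24 * μ) := by
  simp only [so, xs, oD, jp, Prod.fst_add, Prod.snd_add]
  constructor <;> ring

lemma hc1_oD (μ : ℤ) : (oD μ).1 = -(24 * μ) ∧ (oD μ).2 = -(24 * μ) := by
  simp only [oD, jp]
  constructor <;> ring

lemma hc1_mul (hμ : 0 ≤ μ) {a : ℕ} (h1 : 1 ≤ a) (h2 : a ≤ 2) :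
    16 * μ ≤ 16 * μ * a ∧ 16 * μ * a ≤ 32 * μ := by
  have h3 : (1 : ℤ) ≤ a := by exact_mod_cast h1
  have h4 : (a : ℤ) ≤ 2 := by exact_mod_cast h2
  constructor <;> nlinarith

lemma plc_surg (nI I : ℕ) {g t : ℤ} (hg : 1 ≤ g) (ht : 2 ^ 20 ≤ t) :
    Plc (par nI I g) (par nI I (t * g)) (oD (mu nI I (t * g))) univ (so (mu nI I g)) (oq 3 pα)
      (oq 3 pγ) := by
  have ht' : 1048576 ≤ t := by simpa using ht
  have htg : g ≤ t * g := by nlinarith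
  obtain ⟨k1, k2, k3, -⟩ := par_ok nI I hg
  obtain ⟨k1', k2', k3', -⟩ := par_ok nI I (hg.trans htg)
  have e : mu nI I (t * g) = t * mu nI I g := by unfold mu; ring
  have hm : 1048576 * mu nI I g ≤ mu nI I (t * g) := by rw [e]; nlinarith
  have l1 : (par nI I g).l = 16 * mu nI I g := rfl
  have l2 : (par nI I (t * g)).l = 16 * mu nI I (t * g) := rfl
  have h0 : 0 ≤ mu nI I g := by omega
  obtain ⟨n1, n2⟩ := hc1_none (mu nI I g)
  obtain ⟨d1, d2⟩ := hc1_oD (mu nI I (t * g))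
  refine ⟨k1, k1', htg, ?_, by simp, ?_, ?_, ?_⟩
  · show 16 * 4 ^ I * g ≤ 16 * 4 ^ I * (t * g)
    exact mul_le_mul_of_nonneg_left htg (by positivity)
  · rintro (_ | i) -
    · simp [oq]
    · have := pa_le i
      simp only [oq]
      omega
  · rintro (_ | i) -
    · simp only [oq, l1, l2, Nat.cast_ofNat]
      omega
    · obtain ⟨s1, s2, s3⟩ := hc1_so h0 i
      obtain ⟨⟨a1, a2⟩, a3, a4⟩ := pa_le i
      have m1 := hc1_mul h0 a1 a2
      have m2 := hc1_mul h0 a3 a4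
      simp only [oq, l1, l2]
      omega
  · rintro (_ | i) - (_ | j) - hij
    · exact (hij rfl).elim
    · obtain ⟨s1, s2, s3⟩ := hc1_so h0 j
      left
      simp only [oq, l1, Nat.cast_ofNat]
      omega
    · obtain ⟨s1, s2, s3⟩ := hc1_so h0 i
      right
      simp only [oq, l1, Nat.cast_ofNat]
      omega
    · have m1 := hc1_mul h0 (pa_le i).2.1 (pa_le i).2.2
      have m2 := hc1_mul h0 (pa_le j).2.1 (pa_le j).2.2
      have r := hc1_row h0 (i := i) (j := j) fun h => hij (congrArg some h)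
      simp only [oq, l1]
      omega

lemma enl_surg (hμ : 1 ≤ μ) {μ' : ℤ} (h : 2 ^ 20 * μ ≤ μ') :
    Enl (16 * μ) (oD μ) 3 3 (8 * μ) ⊆ Qo (16 * μ') (oD μ') ∧
    Enl (16 * μ) (so μ none) 3 3 (8 * μ) ⊆ Qo (16 * μ') (oD μ') ∧
    (∀ i, Enl (16 * μ) (so μ (some i)) (pα i) (pγ i) (6 * μ) ⊆ Qo (16 * μ') (oD μ')) ∧
    (∀ i, Disjoint (Qr (16 * μ) (so μ none) 3 3)
      (Enl (16 * μ) (so μ (some i)) (pα i) (pγ i) (6 * μ))) ∧
    ∀ i j, j ≠ i → Disjoint (Qr (16 * μ) (so μ (some j)) (pα j) (pγ j))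
      (Enl (16 * μ) (so μ (some i)) (pα i) (pγ i) (6 * μ)) := by
  have h' : 1048576 * μ ≤ μ' := by simpa using h
  have h0 : 0 ≤ μ := by omega
  obtain ⟨n1, n2⟩ := hc1_none μ
  obtain ⟨d1, d2⟩ := hc1_oD μ
  obtain ⟨d1', d2'⟩ := hc1_oD μ'
  refine ⟨fun v hv => ?_, fun v hv => ?_, fun i v hv => ?_, fun i => ?_, fun i j hij => ?_⟩
  · simp only [Enl, Qo, mem_rect, Nat.cast_ofNat] at hv ⊢
    omega
  · simp only [Enl, Qo, mem_rect, Nat.cast_ofNat] at hv ⊢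
    omega
  · obtain ⟨s1, s2, s3⟩ := hc1_so h0 i
    obtain ⟨⟨a1, a2⟩, a3, a4⟩ := pa_le i
    have m1 := hc1_mul h0 a1 a2
    have m2 := hc1_mul h0 a3 a4
    simp only [Enl, Qo, mem_rect] at hv ⊢
    omega
  · obtain ⟨s1, s2, s3⟩ := hc1_so h0 i
    refine disjoint_left.2 fun v h1 h2 => ?_
    simp only [Enl, Qr, mem_rect, Nat.cast_ofNat] at h1 h2
    omega
  · have m1 := hc1_mul h0 (pa_le i).2.1 (pa_le i).2.2
    have m2 := hc1_mul h0 (pa_le j).2.1 (pa_le j).2.2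
    have r := hc1_row h0 hij
    refine disjoint_left.2 fun v h1 h2 => ?_
    simp only [Enl, Qr, mem_rect] at h1 h2
    omega

end

end Pool.Agent.XYU

end

section

open Finset Real Relation

namespace Pool.Agent.XYU

open Classical

noncomputable section

variable {β : ℝ} {q : ℕ} {S : Sys} {μ L : ℤ} {f : UC → ℝ}

lemma surg_a (hβ : 0 ≤ β) (hS : LG q S) {p : Par} (hp : p.Ok) (hl : p.l = 16 * μ) {μ' : ℤ}
    (h : 2 ^ 20 * μ ≤ μ') (hL : Qo (16 * μ') (oD μ') ⊆ S.L) (h0 : ∀ u, 0 ≤ f u)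
    (hf : Dep (Qr p.l (oD μ) 3 3) (Ei (Qr p.l (oD μ) 3 3)) f) {v : ℝ} (hv : 0 < v) (ch : Ix → ℤ)
    (hch : ∀ i, v ≤ tb β q p μ (pα i) (pγ i) (ch i)) :
    Z β q S f ≤ Kc β ^ 2 * (Kc β / v) ^ 36 * Z β q S fun u =>
      (∏ i, ind (Glu β q p (so μ (some i)) (pα i) (pγ i) u (ch i))) *
        f (u.pull (fr (xs μ) 0)) := by
  have hμ : 1 ≤ μ := by
    have := hp.g1
    have := hp.gW
    have := hp.Wl
    omega
  have hK : 0 < Kc β := exp_pos _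
  obtain ⟨e1, e2, e3, e4, e5⟩ := enl_surg hμ h
  rw [← hl] at e1 e2 e3 e4 e5
  have d := hf.pull (isFr_fr (xs μ) 0)
  rw [qr_shift] at d
  have a : ∀ i, (1 ≤ pα i ∧ pα i ≤ 2) ∧ 1 ≤ pγ i ∧ pγ i ≤ 2 := fun i => by
    unfold pα pγ
    split_ifs <;> simp
  have m1 := (rect_mix (q := q) hβ (m := 8 * μ) (by omega) (by omega) (by push_cast; omega)
    (by push_cast; omega) h0 hf).1 S hS (e1.trans hL)
  have m2 := (rect_mix (q := q) hβ (m := 8 * μ) (by omega) (by omega) (by push_cast; omega)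
    (by push_cast; omega) (fun u => h0 _) d).2 S hS (e2.trans hL)
  rw [pm_shift] at m2
  have m3 := lb_prod hβ hS univ (fun i => Enl p.l (so μ (some i)) (pα i) (pγ i) (6 * μ))
    (fun i => Qr p.l (so μ (some i)) (pα i) (pγ i))
    (fun i u => ind (Glu β q p (so μ (some i)) (pα i) (pγ i) u (ch i))) (fun _ => v / Kc β)
    (fun _ _ => by positivity) (fun _ _ _ => ind_nonneg _) (fun i _ => (e3 i).trans hL)
    (fun i _ => glu_dep hp ⟨(a i).1.1, (a i).1.2.trans (by norm_num)⟩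
      ⟨(a i).2.1, (a i).2.2.trans (by norm_num)⟩ _) (fun i _ j _ k => e5 i j k)
    (fun i _ S' k k' => le_trans (mul_le_mul_of_nonneg_right (by
      rw [div_eq_inv_mul]
      exact mul_le_mul_of_nonneg_left (hch i) (inv_nonneg.2 hK.le)) (Z1_nonneg hβ k.grp.a01))
      ((glu_mix hβ hp hl (a i).1 (a i).2 (ch i)).2 S' k k')) (fun u => h0 _) d fun i _ => e4 i
  rw [prod_const, card_univ, show Fintype.card Ix = 36 by simp] at m3
  have m4 : Z β q S f ≤ Kc β ^ 2 * Z β q S fun u => f (u.pull (fr (xs μ) 0)) :=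
    m1.trans (le_trans (le_of_eq (by field_simp)) (mul_le_mul_of_nonneg_left m2 (by positivity)))
  refine m4.trans ?_
  rw [mul_assoc]
  refine mul_le_mul_of_nonneg_left (le_trans (le_of_eq ?_)
    (mul_le_mul_of_nonneg_left m3 (by positivity))) (by positivity)
  rw [← mul_assoc, ← mul_pow, show Kc β / v * (v / Kc β) = 1 by field_simp, one_pow, one_mul]

lemma surg_b (hβ : 0 ≤ β) (hS : LG q S) {Λ Λ' : Finset V} (h : Λ ⊆ Λ') (h' : Λ' ⊆ S.L) {v : UC}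
    (hv : v ∈ Om q S) {F : UC → ℝ} {X : UC → Prop} {c : ℝ} (h0 : ∀ u, 0 ≤ F u)
    (hF : ∀ u, ∀ u' ∈ Om q (S.lc Λ u), F u' = F u)
    (hX : ∀ u ∈ Om q (S.lc Λ' v), F u ≠ 0 →
      c * Z1 β q (S.lc Λ u) ≤ Z β q (S.lc Λ u) fun u' => ind (X u')) :
    c * Z β q (S.lc Λ' v) F ≤ Z β q (S.lc Λ' v) fun u => F u * ind (X u) := by
  have hS' := hS.lc h' hv
  rw [← Z_mul]
  refine dlr hβ hS'.grp.a01 (lc_in hS'.ed h) fun u hu _ => ?_
  change Z β q ((S.lc Λ' v).lc Λ u) _ ≤ Z β q ((S.lc Λ' v).lc Λ u) _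
  rw [lc_lc hS.ed h' h hu, Z_congr (g := fun _ => F u * c) fun u' k _ => by rw [hF u u' k, mul_comm],
    Z_congr (f := fun u => F u * ind (X u)) (g := fun u' => F u * ind (X u'))
      fun u' k _ => by rw [hF u u' k], Z_const, Z_mul, mul_assoc]
  by_cases k : F u = 0
  · simp [k]
  · exact mul_le_mul_of_nonneg_left (hX u hu k) (h0 u)

end

end Pool.Agent.XYU

end

section

open Finset Real Relation

namespace Pool.Agent.XYU

open Classical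

noncomputable section

variable {β : ℝ} {q : ℕ} {S : Sys} {μ L : ℤ} {f : UC → ℝ}

lemma hc_mem {κ : Type} {l l' : ℤ} {o' : V} {s : Finset κ} {o : κ → V} {α γ : κ → ℕ} {x : V}
    (h : x ∈ Gap l l' o' s o α γ) : x ∈ Qo l' o' ∧ ∀ i ∈ s, x ∉ Qr l (o i) (α i) (γ i) :=
  mem_filter.1 h

lemma hc_disj {κ : Type} [Fintype κ] (l l' : ℤ) (o' : V) (o : κ → V) (α γ : κ → ℕ) (i : κ) :
    Disjoint (Qr l (o i) (α i) (γ i)) (Gap l l' o' univ o α γ) :=
  disjoint_left.2 fun _ h h' => (hc_mem h').2 i (mem_univ i) h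

lemma hc_core (hβ : 0 ≤ β) {a : V → ℝ × ℝ} {σ τ : Fld} {p p' : Par} {μ' : ℤ} {c v : ℝ}
    (hv : 0 < v) {aa b : ℤ} (hG : LG q (G0 L a)) (hp : p.Ok) (hp' : p'.Ok) (hl : p.l = 16 * μ)
    (hl' : p'.l = 16 * μ') (h : 2 ^ 20 * μ ≤ μ') (hΛ : Qo p'.l (oD μ') ⊆ bx 0 L)
    (h0 : ∀ u, 0 ≤ f u) (hf : Dep (Qr p.l (oD μ) 3 3) (Ei (Qr p.l (oD μ) 3 3)) f)
    (hg : ∀ u, f u ≠ 0 → Glu β q p (oD μ) 3 3 u aa) (hO : OKc β q p μ v aa b)
    (hgl : ∀ (n : Option Ix → ℤ) (u : UC), u ∈ Om q (G0 L a) →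
      (∀ i ∈ univ, Glu β q p (so μ i) (oq 3 pα i) (oq 3 pγ i) u (n i)) →
      GluO β q p' (oD μ') L σ τ u b → b + ∑ i, sz (oq 0 pε i) * n i = 0 →
      c * Z1 β q ((G0 L a).lc (Gap p.l p'.l (oD μ') univ (so μ) (oq 3 pα) (oq 3 pγ)) u) ≤
        Z β q ((G0 L a).lc (Gap p.l p'.l (oD μ') univ (so μ) (oq 3 pα) (oq 3 pγ)) u)
          fun u => ind (XT L σ τ u))
    (hc : 0 ≤ c) {u₀ : UC} (hu₀ : u₀ ∈ Om q (G0 L a)) (hb : GluO β q p' (oD μ') L σ τ u₀ b) :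
    c * Z β q ((G0 L a).lc (Qo p'.l (oD μ')) u₀) f ≤ Kc β ^ 2 * (Kc β / v) ^ 36 *
      Z β q ((G0 L a).lc (Qo p'.l (oD μ')) u₀)
        fun u => f (u.pull (fr (xs μ) 0)) * ind (XT L σ τ u) := by
  obtain ⟨ch, hch, hs⟩ := hO
  have hS := hG.lc hΛ hu₀
  have hK : 0 ≤ Kc β ^ 2 * (Kc β / v) ^ 36 := by positivity
  have h1 := surg_a hβ hS hp hl h (hl' ▸ Subset.rfl) h0 hf hv ch hch
  have hP : ∀ u, 0 ≤ ∏ i, ind (Glu β q p (so μ (some i)) (pα i) (pγ i) u (ch i)) := fun u =>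
    prod_nonneg fun _ _ => ind_nonneg _
  have h2 := surg_b hβ hG (Λ := Gap p.l p'.l (oD μ') univ (so μ) (oq 3 pα) (oq 3 pγ))
    (fun _ h => (hc_mem h).1) hΛ hu₀ (X := XT L σ τ) (c := c)
    (F := fun u => (∏ i, ind (Glu β q p (so μ (some i)) (pα i) (pγ i) u (ch i))) *
      f (u.pull (fr (xs μ) 0))) (fun u => mul_nonneg (hP u) (h0 _)) (fun u u' hu' => ?_)
    fun u hu hF => ?_
  · refine (mul_le_mul_of_nonneg_left h1 hc).trans ?_
    rw [mul_left_comm]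
    refine mul_le_mul_of_nonneg_left (h2.trans (Z_mono hβ hS.grp.a01 fun u _ _ => ?_)) hK
    refine mul_le_mul_of_nonneg_right (mul_le_of_le_one_left (h0 _) ?_) (ind_nonneg _)
    exact prod_le_one (fun _ _ => ind_nonneg _) fun _ _ => ind_le_one _
  · have h3 := hf.pull (isFr_fr (xs μ) 0)
    rw [qr_shift] at h3
    rw [h3.lc (hc_disj p.l p'.l (oD μ') (so μ) (oq 3 pα) (oq 3 pγ) none) hu']
    refine congrArg (· * _) (prod_congr rfl fun i _ => ?_)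
    have h4 := pa_le i
    exact (glu_dep hp ⟨h4.1.1, h4.1.2.trans (by norm_num)⟩ ⟨h4.2.1, h4.2.2.trans (by norm_num)⟩
      (ch i)).lc (hc_disj p.l p'.l (oD μ') (so μ) (oq 3 pα) (oq 3 pγ) (some i)) hu'
  · refine hgl (oq aa ch) u (Om_cond (lc_in rfl hΛ) hu₀ hu) (fun i _ => ?_)
      ((gluO_lc hp' Subset.rfl hu b).2 hb) ?_
    · cases i with
      | none => exact (glu_shift _ _).1 (hg _ (right_ne_zero_of_mul hF))
      | some i =>
        by_contra h3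
        exact prod_ne_zero_iff.1 (left_ne_zero_of_mul hF) i (mem_univ i) (ind_neg h3)
    · rw [Fintype.sum_option, ← add_assoc]
      exact (congrArg (fun x => b + x + _) (one_mul aa)).trans hs

theorem surg (hβ : 0 ≤ β) (nI I M : ℕ) {v : ℝ} (hv : 0 < v) : ∃ C > (0 : ℝ), ∃ g₀ : ℤ,
    ∀ (q : ℕ) (g L : ℤ) (k : ℕ) (a : V → ℝ × ℝ) (σ τ : Fld) (f : UC → ℝ) (aa b : ℤ), 1 ≤ g →
      g₀ ≤ g → 2 ≤ k → k ≤ M → 128 * mu nI I (2 ^ (10 * k) * g) ≤ L → LG q (G0 L a) →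
      (∀ u, 0 ≤ f u) → Dep (Qr (16 * mu nI I g) (oD (mu nI I g)) 3 3)
        (Ei (Qr (16 * mu nI I g) (oD (mu nI I g)) 3 3)) f →
      (∀ u, f u ≠ 0 → Glu β q (par nI I g) (oD (mu nI I g)) 3 3 u aa) →
      OKc β q (par nI I g) (mu nI I g) v aa b →
      Z β q (GS L a σ τ) (fun u => f u * ind (GluO β q (par nI I (2 ^ (10 * k) * g))
        (oD (mu nI I (2 ^ (10 * k) * g))) L σ τ u b)) ≤
        C * Z β q (GS L a σ τ) fun u => f (u.pull (fr (xs (mu nI I g)) 0)) := by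
  obtain ⟨c, hc, g₀, hgl⟩ :=
    glue (κ := Option Ix) hβ (48 * 2 ^ (10 * M) * (64 * 2 ^ nI * 4 ^ I))
  have hK : 0 < Kc β := exp_pos _
  refine ⟨Kc β ^ 2 * (Kc β / v) ^ 36 / c, by positivity, g₀, ?_⟩
  intro q g L k a σ τ f aa b hg hg₀ hk hM hL hG h0 hf hfg hO
  have ht : (2 : ℤ) ^ 20 ≤ 2 ^ (10 * k) := pow_le_pow_right₀ one_le_two (by omega)
  have htM : (2 : ℤ) ^ (10 * k) ≤ 2 ^ (10 * M) := pow_le_pow_right₀ one_le_two (by omega)
  generalize (2 : ℤ) ^ (10 * k) = t at *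
  obtain ⟨hp, hμ, -⟩ := par_ok nI I hg
  obtain ⟨hp', hμ', hW, -⟩ := par_ok nI I (g := t * g) (by nlinarith)
  have hmu : mu nI I (t * g) = t * mu nI I g := by
    unfold mu
    ring
  have hW0 : 0 ≤ (par nI I (t * g)).W := by
    have := hp'.g1
    have := hp'.gW
    omega
  have hl' : (par nI I (t * g)).l = 16 * mu nI I (t * g) := rfl
  have ho : oD (mu nI I (t * g)) = (-(24 * mu nI I (t * g)), -(24 * mu nI I (t * g))) := by
    simp only [oD, jp, Prod.mk.injEq]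
    omega
  have hbox : ∀ x : V, (oD (mu nI I (t * g))).1 - 2 * (par nI I (t * g)).W ≤ x.1 →
      x.1 ≤ (oD (mu nI I (t * g))).1 + (par nI I (t * g)).l * 3 + 2 * (par nI I (t * g)).W →
      (oD (mu nI I (t * g))).2 - 2 * (par nI I (t * g)).W ≤ x.2 →
      x.2 ≤ (oD (mu nI I (t * g))).2 + (par nI I (t * g)).l * 3 + 2 * (par nI I (t * g)).W →
      x ∈ bx 0 L := by
    intro x
    rw [ho, hl', mem_bx0, nm]
    omega
  have hΛ : Qo (par nI I (t * g)).l (oD (mu nI I (t * g))) ⊆ bx 0 L := fun x hx => by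
    rw [Qo, mem_rect] at hx
    apply hbox <;> omega
  have hϑ : (par nI I (t * g)).l * 3 ≤
      ((48 * 2 ^ (10 * M) * (64 * 2 ^ nI * 4 ^ I) : ℕ) : ℤ) * (par nI I g).g := by
    have h1 := mul_le_mul_of_nonneg_right htM (zero_le_one.trans hμ)
    rw [hl', hmu]
    refine le_of_le_of_eq (b := 48 * (2 ^ (10 * M) * mu nI I g)) (by omega) ?_
    simp only [mu, par]
    push_cast
    ring
  rw [← Z_mul]
  refine dlr hβ hG.grp.a01 (lc_in rfl hΛ) fun u₀ hu₀ _ => ?_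
  have hS := hG.lc hΛ hu₀
  by_cases hb : GluO β q (par nI I (t * g)) (oD (mu nI I (t * g))) L σ τ u₀ b
  · have h1 := hc_core hβ hv hG hp hp' rfl hl'
      (hmu ▸ mul_le_mul_of_nonneg_right ht (zero_le_one.trans hμ)) hΛ h0 hf hfg hO
      (fun n u hu h1 h2 h3 => hgl q L a σ τ _ _ _ univ _ _ _ (oq 0 pε) n b u hG
        (plc_surg nI I hg ht) hg₀ hϑ hbox hu h1 h2 h3) hc.le hu₀ hb
    rw [Z_mul]
    refine (Z_GS_xt hΛ u₀ _).trans_le (le_of_le_of_eq ?_ (congrArg _ (Z_GS_xt hΛ u₀ _).symm))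
    rw [div_mul_eq_mul_div, le_div_iff₀' hc]
    refine (mul_le_mul_of_nonneg_left (Z_mono hβ hS.grp.a01 fun u _ _ => ?_) hc.le).trans h1
    rw [mul_assoc, ← ind_and]
    exact mul_le_of_le_one_right (h0 u) (ind_le_one _)
  · refine Z_mono hβ hS.grp.a01 fun u hu _ => ?_
    rw [ind_neg fun h => hb ((gluO_lc (S := GS L a σ τ) hp' Subset.rfl hu b).1 h), mul_zero]
    exact mul_nonneg (by positivity) (h0 _)

end

end Pool.Agent.XYU

end

section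

open Finset Real Relation

namespace Pool.Agent.XYU

open Classical

noncomputable section

/-! No long arms under an arbitrary spin boundary condition.

`pig`: call `i ∈ G` single if it has no partner. In a block `[t M, (t+1) M)` at most two single
indices have a given value of `b` (of three, the first has the third as a partner), so there are at
most `2 (2 A + 1) (J / M + 1) ≤ J / 5` single indices.
`count_step`: if `E` fails the right side is nonnegative; if the first two terms are `< 1`, fewer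
than `J / 5` indices are not good; choose `a j, b j` for good `j`, apply `pig`, and for every index
`i` with a partner `i'` keep the term `(i, i' - i, a i, b i)`, which equals one.
`avg_bad`: `∑ j, ind (P j u) = #filter ≤ θ J + J * ind (θ J ≤ #filter)`; `Z_sum`, `Z_mono`.
`arm_shift`: `1 = ind Bad + ind ¬ Bad`; `iso_pull`, `iso_log`, `LB.compl`, `UB.mono`
(`bx (20 μ, 0) (R - 1) ⊆ mid μ`), `dens`.
`sc_eq`, `sc_le`: arithmetic of powers of two (`2 ^ n = 64 * 2 ^ (n - 6)` for `6 ≤ n`).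
`arm_term`: `surg` with `f u = ind (¬ Iso u.w 0 K R ∧ Glu ..)` (`iso_dep`, `glu_dep`, `Dep.mono`,
`bx 0 R ⊆ Qr (16 μ) (oD μ) 3 3`, `ind_and`), then `arm_shift` at the scale `1024 μ`.
`no_arm`: `good_scales` with `θ = 1 / 10` gives `N, δ`; `ring_good` with `ε / 40` gives `nI, I, v`;
`A = vb nI I`, `M = 20 (2 A + 1)`; `arm_term` gives `C, g₀`; put `Γ = 2 M (2 A + 1) ^ 2 C`;
`good_scales` with `θ₂ = ε / (8 Γ)` gives `N₂, δ₂`; choose `m ≥ 1` with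
`Γ * 700 β / (m δ₂) ≤ ε / 4` (`1 - exp (-x) ≤ x`); choose `n₀` for the two uses of `good_scales`
(errors `ε / 4` and `ε / (8 Γ)`) and so large that `6 + nI + 2 I ≤ 2 ^ n / 4`, `M ≤ nJ n`,
`g₀ ≤ g 0`, `2 ^ m K ≤ sc n 0`, `m, nI ≤ 2 ^ 2 ^ n ≤ q` (`card_Ed_ge`, `LG.sz`), where
`g j = 2 ^ (2 ^ n / 4 - (6 + nI + 2 I) + 10 j)`, `g (i + k) = 2 ^ (10 k) * g i`,
`sc n (i + 1) = 1024 * sc n i`. Integrate `count_step` (`Z_mono`, `Z_add`, `Z_mul`, `Z_sum`); the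
terms with `i + k < J` have `i + 1 < J`, and `∑ i, Z (Bad (sc n (i+1)))` over such `i` is at most
the sum in `avg_bad`.
`no_arm2`: `no_arm` with `ε / 2` and `max K 2`; `Iso` is monotone in both radii; the blue event
through `Z_sw`, `(GS L a σ τ).sw = GS L (fun v => (a v).swap) τ σ`, `LG.sw`; `ind_or_le`. -/

variable {β : ℝ} {q : ℕ} {S : Sys} {μ L : ℤ}

lemma pig {J A : ℕ} (hJ : 20 * (2 * A + 1) ≤ J) {G : Finset ℕ} (hG : G ⊆ range J)
    (h : 5 * #(range J \ G) ≤ J) (b : ℕ → ℤ) (hb : ∀ j ∈ G, |b j| ≤ A) :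
    J ≤ 2 * #(G.filter fun i =>
      ∃ i' ∈ G, i + 2 ≤ i' ∧ i' ≤ i + 20 * (2 * A + 1) ∧ b i = b i') := by
  obtain ⟨N, hN⟩ : ∃ N, N = 2 * A + 1 := ⟨_, rfl⟩
  rw [← hN] at hJ ⊢
  obtain ⟨M, hM⟩ : ∃ M, M = 20 * N := ⟨_, rfl⟩
  rw [← hM]
  have hM0 : 0 < M := by omega
  have h1 : #(G.filter fun i => ¬ ∃ i' ∈ G, i + 2 ≤ i' ∧ i' ≤ i + M ∧ b i = b i') ≤
      2 * #(range (J / M + 1) ×ˢ Icc (-(A : ℤ)) A) := by
    refine card_le_mul_card_image_of_maps_to (f := fun i => (i / M, b i)) (fun i hi => ?_) 2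
      fun z _ => ?_
    · have hi' := (mem_filter.1 hi).1
      refine mem_product.2 ⟨mem_range.2 (Nat.lt_succ_of_le (Nat.div_le_div_right ?_)),
        mem_Icc.2 (abs_le.1 (hb i hi'))⟩
      exact (mem_range.1 (hG hi')).le
    · by_contra hc
      obtain ⟨x, y, w, hx, hy, hw, h2, h3, h4⟩ := two_lt_card_iff.1 (not_le.1 hc)
      have key : ∀ x y, x ∈ (G.filter fun i =>
          ¬ ∃ i' ∈ G, i + 2 ≤ i' ∧ i' ≤ i + M ∧ b i = b i').filter
            (fun i => (i / M, b i) = z) → y ∈ (G.filter fun i =>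
          ¬ ∃ i' ∈ G, i + 2 ≤ i' ∧ i' ≤ i + M ∧ b i = b i').filter
            (fun i => (i / M, b i) = z) → y ≤ x + 1 := by
        intro x y hx hy
        rw [mem_filter, mem_filter] at hx hy
        have e := Prod.ext_iff.1 (hx.2.trans hy.2.symm)
        by_contra hn
        refine hx.1.2 ⟨y, hy.1.1, by omega, ?_, e.2⟩
        have a1 := Nat.div_add_mod x M
        have a2 := Nat.div_add_mod y M
        have a3 := Nat.mod_lt y hM0
        have a4 : x / M = y / M := e.1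
        rw [a4] at a1
        omega
      have := key x y hx hy
      have := key y x hy hx
      have := key x w hx hw
      have := key w x hw hx
      have := key y w hy hw
      have := key w y hw hy
      omega
  have h2 := card_filter_add_card_filter_not (s := G)
    fun i => ∃ i' ∈ G, i + 2 ≤ i' ∧ i' ≤ i + M ∧ b i = b i'
  have h3 := card_sdiff_add_card_eq_card hG
  have h4 : #(Icc (-(A : ℤ)) A) = N := by
    rw [Int.card_Icc]
    omega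
  rw [card_product, card_range, h4, add_mul, one_mul] at h1
  rw [card_range] at h3
  have h5 : 20 * (J / M * N) ≤ J := by
    calc 20 * (J / M * N) = J / M * M := by rw [hM]; ring
      _ ≤ J := Nat.div_mul_le_self J M
  omega

end

end Pool.Agent.XYU

end

section

open Finset Real Relation

namespace Pool.Agent.XYU

open Classical

noncomputable section

variable {β : ℝ} {q : ℕ} {S : Sys} {μ L : ℤ}

lemma hd2_card (s : Finset ℕ) (p : ℕ → Prop) [DecidablePred p] :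
    (#(s.filter p) : ℝ) = ∑ j ∈ s, ind (p j) := by
  rw [card_filter, Nat.cast_sum]
  exact sum_congr rfl fun j _ => by by_cases h : p j <;> simp [ind, h]

lemma count_step {J A : ℕ} (hJ : 20 * (2 * A + 1) ≤ J) (E : Prop) (Bd : ℕ → Prop)
    (O X : ℕ → ℤ → ℤ → Prop) (Y : ℕ → ℤ → Prop) :
    ind E ≤ ind ((1 / 10 : ℝ) * J ≤ #((range J).filter Bd)) +
      10 / J * ∑ j ∈ range J, ind (¬ ∃ a b : ℤ, |a| ≤ A ∧ |b| ≤ A ∧ O j a b ∧ X j a b ∧ Y j b) *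
        ind (¬ Bd j) +
      2 / J * ∑ i ∈ range J, ∑ k ∈ (Icc 2 (20 * (2 * A + 1))).filter fun k => i + k < J,
        ∑ a ∈ Icc (-(A : ℤ)) A, ∑ b ∈ Icc (-(A : ℤ)) A,
          ind (O i a b) * (ind (E ∧ X i a b) * ind (Y (i + k) b)) := by
  have hJ0 : (0 : ℝ) < J := Nat.cast_pos.2 (by omega)
  have t0 : ∀ i k a b, 0 ≤ ind (O i a b) * (ind (E ∧ X i a b) * ind (Y (i + k) b)) :=
    fun i k a b => mul_nonneg (ind_nonneg _) (mul_nonneg (ind_nonneg _) (ind_nonneg _))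
  obtain ⟨Gd, hGd⟩ : ∃ Gd : ℕ → Prop, ∀ j, (∃ a b : ℤ, |a| ≤ A ∧ |b| ≤ A ∧ O j a b ∧ X j a b ∧
    Y j b) ↔ Gd j := ⟨_, fun _ => Iff.rfl⟩
  simp only [hGd]
  have h1 := ind_nonneg ((1 / 10 : ℝ) * J ≤ #((range J).filter Bd))
  have h2 : 0 ≤ 10 / (J : ℝ) * ∑ j ∈ range J, ind (¬ Gd j) * ind (¬ Bd j) :=
    mul_nonneg (by positivity) (sum_nonneg fun j _ => mul_nonneg (ind_nonneg _) (ind_nonneg _))
  have h3 : 0 ≤ 2 / (J : ℝ) * ∑ i ∈ range J,
      ∑ k ∈ (Icc 2 (20 * (2 * A + 1))).filter fun k => i + k < J,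
        ∑ a ∈ Icc (-(A : ℤ)) A, ∑ b ∈ Icc (-(A : ℤ)) A,
          ind (O i a b) * (ind (E ∧ X i a b) * ind (Y (i + k) b)) :=
    mul_nonneg (by positivity) (sum_nonneg fun i _ => sum_nonneg fun k _ => sum_nonneg fun a _ =>
      sum_nonneg fun b _ => t0 i k a b)
  by_cases hE : E
  swap
  · rw [ind_neg hE]
    linarith
  rw [ind_pos hE]
  by_cases c1 : (1 / 10 : ℝ) * J ≤ #((range J).filter Bd)
  · rw [ind_pos c1]
    linarith
  by_cases c2 : (J : ℝ) ≤ 10 * ∑ j ∈ range J, ind (¬ Gd j) * ind (¬ Bd j)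
  · rw [div_mul_eq_mul_div 10]
    have := (one_le_div hJ0).2 c2
    linarith
  have h4 : 5 * #(range J \ (range J).filter Gd) ≤ J := by
    have h5 : ∑ j ∈ range J, ind (¬ Gd j) ≤
        ∑ j ∈ range J, (ind (Bd j) + ind (¬ Gd j) * ind (¬ Bd j)) := sum_le_sum fun j _ => by
      by_cases a1 : Gd j <;> by_cases a2 : Bd j <;> simp [ind, a1, a2]
    rw [sum_add_distrib, ← hd2_card, ← hd2_card, filter_not] at h5
    have h6 : (5 : ℝ) * #(range J \ (range J).filter Gd) ≤ J := by linarith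
    exact_mod_cast h6
  have h5 : ∀ j, ∃ a b : ℤ, Gd j → |a| ≤ A ∧ |b| ≤ A ∧ O j a b ∧ X j a b ∧ Y j b := fun j => by
    by_cases h : Gd j
    · obtain ⟨a, b, h6⟩ := (hGd j).2 h
      exact ⟨a, b, fun _ => h6⟩
    · exact ⟨0, 0, fun h' => absurd h' h⟩
  choose a b hab using h5
  have h6 := pig hJ (filter_subset Gd (range J)) h4 b fun j hj => (hab j (mem_filter.1 hj).2).2.1
  have h7 := (Nat.cast_le (α := ℝ)).2 h6
  rw [Nat.cast_mul, card_eq_sum_ones, Nat.cast_sum] at h7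
  rw [div_mul_eq_mul_div 2]
  refine le_add_of_nonneg_of_le (add_nonneg h1 h2) ((one_le_div hJ0).2 (h7.trans ?_))
  refine mul_le_mul (by norm_num) (le_trans (sum_le_sum fun i hi => ?_)
    (sum_le_sum_of_subset_of_nonneg ((filter_subset _ _).trans (filter_subset _ _))
      fun i _ _ => sum_nonneg fun k _ => sum_nonneg fun a _ => sum_nonneg fun b _ => t0 i k a b))
    (sum_nonneg fun _ _ => Nat.cast_nonneg _) (by norm_num)
  obtain ⟨g1, i', g2, g3, g4, g5⟩ := mem_filter.1 hi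
  obtain ⟨p1, p2, p3, p4, -⟩ := hab i (mem_filter.1 g1).2
  obtain ⟨g6, g7⟩ := mem_filter.1 g2
  have g8 := mem_range.1 g6
  have p5 : Y (i + (i' - i)) (b i) := by
    rw [g5, show i + (i' - i) = i' by omega]
    exact (hab i' g7).2.2.2.2
  refine le_trans ?_ (single_le_sum (fun k _ => sum_nonneg fun a _ => sum_nonneg fun b _ =>
    t0 i k a b) (mem_filter.2 ⟨mem_Icc.2 ⟨by omega, by omega⟩, by omega⟩ : i' - i ∈ _))
  refine le_trans ?_ (single_le_sum (fun a _ => sum_nonneg fun b _ => t0 i _ a b)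
    (mem_Icc.2 (abs_le.1 p1)))
  refine le_trans ?_ (single_le_sum (fun b _ => t0 i _ _ b) (mem_Icc.2 (abs_le.1 p2)))
  rw [ind_pos p3, ind_pos ⟨hE, p4⟩, ind_pos p5]
  norm_num

lemma avg_bad (hβ : 0 ≤ β) (hS : A01 S.x.a) (J : ℕ) (P : ℕ → UC → Prop) {θ ε : ℝ} (hθ : 0 ≤ θ)
    (h : Z β q S (fun u => ind (θ * J ≤ #((range J).filter fun j => P j u))) ≤ ε * Z1 β q S) :
    ∑ j ∈ range J, Z β q S (fun u => ind (P j u)) ≤ (θ + ε) * J * Z1 β q S := by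
  have h1 := Z_mono (q := q) (f := fun u => ∑ j ∈ range J, ind (P j u))
    (g := fun u => θ * J + J * ind (θ * J ≤ #((range J).filter fun j => P j u))) hβ hS
    fun u _ _ => by
      rw [← hd2_card]
      by_cases c : θ * J ≤ #((range J).filter fun j => P j u)
      · have h2 : (#((range J).filter fun j => P j u) : ℝ) ≤ J := by
          exact_mod_cast (card_filter_le _ _).trans (card_range J).le
        rw [ind_pos c]
        have := mul_nonneg hθ (Nat.cast_nonneg J)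
        linarith
      · rw [ind_neg c]
        linarith
  rw [Z_sum, Z_add, Z_const, Z_mul] at h1
  have h2 := mul_le_mul_of_nonneg_left h (Nat.cast_nonneg (α := ℝ) J)
  linarith

end

end Pool.Agent.XYU

end

section

open Finset Real Relation

namespace Pool.Agent.XYU

open Classical

noncomputable section

variable {β : ℝ} {q : ℕ} {S : Sys} {μ L : ℤ}

lemma arm_shift (hβ : 0 ≤ β) (hL : 128 * μ ≤ L) {a : V → ℝ × ℝ} (hS : LG q (G0 L a)) (σ τ : Fld)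
    (N : ℕ) {δ : ℝ} (hδ : 0 < δ) {K : ℤ} (hK : 2 ≤ K) {m : ℕ} (hm : 1 ≤ m) (hq : m ≤ q)
    (hR : 2 ^ m * K ≤ μ) :
    Z β q (GS L a σ τ) (fun u => ind (¬ Iso (u.pull (fr (20 * μ, 0) 0)).w 0 K (2 ^ m * K))) ≤
      Z β q (GS L a σ τ) (fun u => ind (Bad β q μ N δ u)) +
        (1 - exp (-(700 * β / m))) / δ * Z1 β q (GS L a σ τ) := by
  have h2 : (2 : ℤ) ≤ 2 ^ m := le_self_pow₀ (by norm_num) (by omega)
  have hR4 : 4 ≤ 2 ^ m * K := by nlinarith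
  have hμ : 1 ≤ μ := by omega
  have ha : A01 (GS L a σ τ).x.a := hS.grp.a01
  have hp : 0 ≤ 1 - exp (-(700 * β / m)) := by
    have h0 : 0 ≤ 700 * β / m := div_nonneg (by linarith) (Nat.cast_nonneg m)
    have := exp_le_one_iff.2 (neg_nonpos.2 h0)
    linarith
  have hsub : bx ((20 * μ, 0) : V) (2 ^ m * K - 1) ⊆ mid μ := by
    intro v hv
    have h1 := mem_bx.1 hv
    refine mem_ann.2 ?_
    generalize 2 ^ m * K = R at *
    unfold dd at h1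
    unfold nm
    simp only [max_le_iff] at h1
    constructor
    · simp only [le_max_iff]
      omega
    · simp only [max_le_iff]
      omega
  have hU := (iso_log hβ ((20 * μ, 0) : V) hK hm hq).compl.mono hsub
  have hD := dens hβ hμ hL hS σ τ N hδ hp (fun u => ind_nonneg _) hU
  have hc : fr ((20 * μ, 0) : V) 0 0 = (20 * μ, 0) := by
    simp [fr]
  refine le_trans ?_ (add_le_add le_rfl hD)
  rw [← Z_add]
  refine Z_mono hβ ha fun u _ _ => ?_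
  rw [iso_pull (isFr_fr _ _), hc]
  by_cases hB : Bad β q μ N δ u
  · rw [ind_pos hB, ind_neg (not_not.2 hB)]
    have := ind_le_one (¬ Iso u.w ((20 * μ, 0) : V) K (2 ^ m * K))
    linarith
  · rw [ind_neg hB, ind_pos hB]
    linarith

lemma sc_eq {n nI I : ℕ} (h : 6 + nI + 2 * I ≤ 2 ^ n / 4) (j : ℕ) :
    sc n j = mu nI I (2 ^ (2 ^ n / 4 - (6 + nI + 2 * I) + 10 * j)) := by
  unfold sc mu
  obtain ⟨d, hd⟩ := Nat.exists_eq_add_of_le h
  rw [hd, Nat.add_sub_cancel_left, show (4 : ℤ) = 2 ^ 2 by norm_num, ← pow_mul,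
    show (64 : ℤ) = 2 ^ 6 by norm_num, ← pow_add, ← pow_add, ← pow_add]
  congr 1
  ring

lemma sc_le {n j : ℕ} (hn : 6 ≤ n) (hj : j < nJ n) : 128 * sc n j ≤ 2 ^ 2 ^ n := by
  unfold sc
  unfold nJ at hj
  rw [ca4_pow]
  refine pow_le_pow_right₀ (by norm_num) ?_
  obtain ⟨d, rfl⟩ := Nat.exists_eq_add_of_le hn
  have h1 : 1 ≤ 2 ^ d := Nat.one_le_two_pow
  rw [pow_add] at hj ⊢
  generalize 2 ^ d = t at *
  omega

lemma arm_term (hβ : 0 ≤ β) (nI I M : ℕ) {v : ℝ} (hv : 0 < v) : ∃ C > (0 : ℝ), ∃ g₀ : ℤ,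
    ∀ (q : ℕ) (g L K : ℤ) (k m N : ℕ) (δ : ℝ) (a : V → ℝ × ℝ) (σ τ : Fld) (aa b : ℤ), 1 ≤ g →
      g₀ ≤ g → 2 ≤ k → k ≤ M → 128 * mu nI I (2 ^ (10 * k) * g) ≤ L → LG q (G0 L a) → 0 < δ →
      2 ≤ K → 1 ≤ m → m ≤ q → 2 ^ m * K ≤ mu nI I g →
      Z β q (GS L a σ τ) (fun u => ind (OKc β q (par nI I g) (mu nI I g) v aa b) *
        (ind (¬ Iso u.w 0 K (2 ^ m * K) ∧ Glu β q (par nI I g) (oD (mu nI I g)) 3 3 u aa) *
          ind (GluO β q (par nI I (2 ^ (10 * k) * g)) (oD (mu nI I (2 ^ (10 * k) * g))) L σ τ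
            u b))) ≤
        C * (Z β q (GS L a σ τ) (fun u => ind (Bad β q (1024 * mu nI I g) N δ u)) +
          (1 - exp (-(700 * β / m))) / δ * Z1 β q (GS L a σ τ)) := by
  obtain ⟨C, hC, g₀, H⟩ := surg hβ nI I M hv
  refine ⟨C, hC, g₀, ?_⟩
  intro q g L K k m N δ a σ τ aa b hg hg₀ hk hkM hL hS hδ hK hm hq hR
  have ha : A01 (GS L a σ τ).x.a := hS.grp.a01
  obtain ⟨hok, hμ, -⟩ := par_ok nI I hg
  have h2 : (2 : ℤ) ≤ 2 ^ m := le_self_pow₀ (by norm_num) (by omega)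
  have hKR : K < 2 ^ m * K := by nlinarith
  have hL' : 128 * (1024 * mu nI I g) ≤ L := by
    have e : mu nI I (2 ^ (10 * k) * g) = 2 ^ (10 * k) * mu nI I g := by
      unfold mu
      ring
    have h3 : (2 : ℤ) ^ 10 ≤ 2 ^ (10 * k) := pow_le_pow_right₀ (by norm_num) (by omega)
    have h4 := mul_le_mul_of_nonneg_right h3 (by omega : 0 ≤ mu nI I g)
    rw [e] at hL
    norm_num at h4
    omega
  have hA := arm_shift hβ hL' hS σ τ N hδ hK hm hq (by omega)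
  have hnn : 0 ≤ Z β q (GS L a σ τ) (fun u =>
      ind (¬ Iso (u.pull (fr (20 * (1024 * mu nI I g), 0) 0)).w 0 K (2 ^ m * K))) :=
    Z_nonneg hβ ha fun u _ => ind_nonneg _
  by_cases hO : OKc β q (par nI I g) (mu nI I g) v aa b
  · have hsub : bx 0 (2 ^ m * K) ⊆ Qr (16 * mu nI I g) (oD (mu nI I g)) 3 3 := by
      intro x hx
      have h1 := mem_bx0.1 hx
      unfold Qr oD jp
      refine mem_rect.2 ?_
      generalize 2 ^ m * K = R at *
      generalize mu nI I g = μ at *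
      unfold nm at h1
      simp only [max_le_iff] at h1
      push_cast
      omega
    have d1 := (iso_dep (c := 0) hKR).mono hsub (ca2_Ei_mono hsub)
    have d2 := glu_dep (β := β) (q := q) (o := oD (mu nI I g)) (α := 3) (γ := 3) hok
      (by omega) (by omega) aa
    have hdep : Dep (Qr (16 * mu nI I g) (oD (mu nI I g)) 3 3)
        (Ei (Qr (16 * mu nI I g) (oD (mu nI I g)) 3 3)) fun u =>
        ind (¬ Iso u.w 0 K (2 ^ m * K) ∧ Glu β q (par nI I g) (oD (mu nI I g)) 3 3 u aa) := by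
      intro u u' h1 h2 h3
      have e1 := d1 u u' h1 h2 h3
      have e2 := d2 u u' h1 h2 h3
      simp only at e1 e2 ⊢
      rw [ind_and, ind_and, e1, e2]
    have hH := H q g L k a σ τ _ aa b hg hg₀ hk hkM hL hS (fun u => ind_nonneg _) hdep
      (fun u hu => by
        by_contra hn
        exact hu (ind_neg fun h => hn h.2)) hO
    simp only [ind_pos hO, one_mul]
    refine hH.trans (mul_le_mul_of_nonneg_left (le_trans ?_ hA) hC.le)
    exact Z_mono hβ ha fun u _ _ => ind_mono fun h => h.1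
  · simp only [ind_neg hO, zero_mul]
    rw [Z_const, zero_mul]
    exact mul_nonneg hC.le (hnn.trans hA)

end

end Pool.Agent.XYU

end

section

open Finset Real Relation

namespace Pool.Agent.XYU

open Classical

noncomputable section

variable {β : ℝ} {q : ℕ} {S : Sys} {μ L : ℤ}

lemma hd4_shift (J : ℕ) (W : ℕ → ℝ) (hW : ∀ j, 0 ≤ W j) :
    ∑ i ∈ range J, (if i + 1 < J then W (i + 1) else 0) ≤ ∑ j ∈ range J, W j := by
  cases J with
  | zero => simp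
  | succ J =>
    rw [sum_range_succ, sum_range_succ' W, if_neg (lt_irrefl _), add_zero]
    have : ∑ i ∈ range J, (if i + 1 < J + 1 then W (i + 1) else 0) = ∑ i ∈ range J, W (i + 1) :=
      sum_congr rfl fun i hi => if_pos (by have := mem_range.1 hi; omega)
    rw [this]
    linarith [hW 0]

lemma hd4_card (A : ℕ) : (#(Icc (-(A : ℤ)) A) : ℝ) = 2 * A + 1 := by
  rw [Int.card_Icc]
  have : ((A : ℤ) + 1 - -(A : ℤ)).toNat = 2 * A + 1 := by omega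
  rw [this]
  push_cast
  ring

lemma hd4_core (hβ : 0 ≤ β) (ha : A01 S.x.a) {J A : ℕ} (hJ : 20 * (2 * A + 1) ≤ J)
    (E : UC → Prop) (Bd B2 : ℕ → UC → Prop) (O : ℕ → ℤ → ℤ → Prop) (X Y : ℕ → UC → ℤ → Prop)
    {e1 e2 C t s : ℝ} (hC : 0 ≤ C) (ht : 0 ≤ t)
    (h1 : Z β q S (fun u => ind ((1 / 10 : ℝ) * J ≤ #((range J).filter fun j => Bd j u))) ≤
      e1 * Z1 β q S)
    (h2 : ∀ j < J, Z β q S (fun u =>
      ind (¬ ∃ a b : ℤ, |a| ≤ A ∧ |b| ≤ A ∧ O j a b ∧ X j u a ∧ Y j u b) * ind (¬ Bd j u)) ≤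
      e2 * Z1 β q S)
    (h3 : ∀ (i k : ℕ) (a b : ℤ), 2 ≤ k → k ≤ 20 * (2 * A + 1) → i + k < J →
      Z β q S (fun u => ind (O i a b) * (ind (E u ∧ X i u a) * ind (Y (i + k) u b))) ≤
        C * (Z β q S (fun u => ind (B2 (i + 1) u)) + t * Z1 β q S))
    (h4 : ∑ j ∈ range J, Z β q S (fun u => ind (B2 j u)) ≤ s * J * Z1 β q S) :
    Z β q S (fun u => ind (E u)) ≤
      (e1 + 10 * e2 + 2 * (20 * (2 * A + 1)) * (2 * A + 1) ^ 2 * C * (s + t)) * Z1 β q S := by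
  have hZ := Z1_nonneg (q := q) hβ ha
  have hJ0 : (0 : ℝ) < J := by
    have : 0 < J := by omega
    exact_mod_cast this
  have h5 := Z_mono (q := q) hβ ha fun u _ _ =>
    count_step hJ (E u) (fun j => Bd j u) O (fun j a _ => X j u a) fun j b => Y j u b
  rw [Z_add, Z_add, Z_mul, Z_mul, Z_sum, Z_sum] at h5
  simp only [Z_sum] at h5
  have hW : ∀ j, 0 ≤ Z β q S fun u => ind (B2 j u) := fun j =>
    Z_nonneg hβ ha fun _ _ => ind_nonneg _
  have h6 : ∑ j ∈ range J, Z β q S (fun u =>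
      ind (¬ ∃ a b : ℤ, |a| ≤ A ∧ |b| ≤ A ∧ O j a b ∧ X j u a ∧ Y j u b) * ind (¬ Bd j u)) ≤
      J * (e2 * Z1 β q S) := by
    refine (sum_le_sum fun j hj => h2 j (mem_range.1 hj)).trans ?_
    rw [sum_const, card_range, nsmul_eq_mul]
  have h7 : ∀ i ∈ range J, ∑ k ∈ (Icc 2 (20 * (2 * A + 1))).filter fun k => i + k < J,
      ∑ a ∈ Icc (-(A : ℤ)) A, ∑ b ∈ Icc (-(A : ℤ)) A,
        Z β q S (fun u => ind (O i a b) * (ind (E u ∧ X i u a) * ind (Y (i + k) u b))) ≤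
      (20 * (2 * A + 1)) * (2 * A + 1) ^ 2 * C *
        ((if i + 1 < J then Z β q S (fun u => ind (B2 (i + 1) u)) else 0) + t * Z1 β q S) := by
    intro i _
    have hn : 0 ≤ (if i + 1 < J then Z β q S (fun u => ind (B2 (i + 1) u)) else 0) +
        t * Z1 β q S := by
      refine add_nonneg ?_ (mul_nonneg ht hZ)
      split_ifs
      · exact hW _
      · exact le_rfl
    have hk : ∀ k ∈ (Icc 2 (20 * (2 * A + 1))).filter fun k => i + k < J,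
        ∑ a ∈ Icc (-(A : ℤ)) A, ∑ b ∈ Icc (-(A : ℤ)) A,
          Z β q S (fun u => ind (O i a b) * (ind (E u ∧ X i u a) * ind (Y (i + k) u b))) ≤
        (2 * A + 1) ^ 2 * C *
          ((if i + 1 < J then Z β q S (fun u => ind (B2 (i + 1) u)) else 0) + t * Z1 β q S) := by
      intro k hk
      obtain ⟨hk1, hk2⟩ := mem_filter.1 hk
      obtain ⟨hk3, hk4⟩ := mem_Icc.1 hk1
      rw [if_pos (by omega)]
      refine (sum_le_sum fun a _ => sum_le_sum fun b _ => h3 i k a b hk3 hk4 hk2).trans ?_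
      rw [sum_const, sum_const, nsmul_eq_mul, nsmul_eq_mul, hd4_card]
      exact le_of_eq (by ring)
    refine (sum_le_sum hk).trans ?_
    rw [sum_const, nsmul_eq_mul]
    have hc : (#((Icc 2 (20 * (2 * A + 1))).filter fun k => i + k < J) : ℝ) ≤
        20 * (2 * A + 1) := by
      have : #((Icc 2 (20 * (2 * A + 1))).filter fun k => i + k < J) ≤ 20 * (2 * A + 1) := by
        refine (card_filter_le _ _).trans ?_
        rw [Nat.card_Icc]
        omega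
      exact_mod_cast this
    refine (mul_le_mul_of_nonneg_right hc
      (mul_nonneg (mul_nonneg (sq_nonneg _) hC) hn)).trans (le_of_eq (by ring))
  have h8 := sum_le_sum h7
  rw [← mul_sum, sum_add_distrib, sum_const, card_range, nsmul_eq_mul] at h8
  have h9 := (hd4_shift J (fun j => Z β q S fun u => ind (B2 j u)) hW).trans h4
  have hG : (0 : ℝ) ≤ (20 * (2 * A + 1)) * (2 * A + 1) ^ 2 * C := by positivity
  have h10 := h8.trans (mul_le_mul_of_nonneg_left (add_le_add_left h9 (J * (t * Z1 β q S))) hG)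
  have h11 := mul_le_mul_of_nonneg_left h6 (show (0 : ℝ) ≤ 10 / J by positivity)
  have h12 := mul_le_mul_of_nonneg_left h10 (show (0 : ℝ) ≤ 2 / J by positivity)
  have e1' : 10 / (J : ℝ) * (J * (e2 * Z1 β q S)) = 10 * e2 * Z1 β q S := by
    field_simp
  have e2' : 2 / (J : ℝ) * ((20 * (2 * A + 1)) * (2 * A + 1) ^ 2 * C *
      (s * J * Z1 β q S + J * (t * Z1 β q S))) =
      2 * (20 * (2 * A + 1)) * (2 * A + 1) ^ 2 * C * (s + t) * Z1 β q S := by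
    field_simp
  rw [e1'] at h11
  rw [e2'] at h12
  linarith

lemma hd4_big (c : ℕ) : ∃ n₀ : ℕ, ∀ n ≥ n₀, 6 ≤ n ∧ c ≤ 2 ^ n / 64 := by
  refine ⟨max 6 (64 * c), fun n hn => ⟨(le_max_left _ _).trans hn, ?_⟩⟩
  have h1 : 64 * c ≤ n := (le_max_right _ _).trans hn
  have h2 : n < 2 ^ n := Nat.lt_two_pow_self
  omega

lemma hd4_le_pow {x : ℤ} {e : ℕ} (h : x.toNat ≤ e) : x ≤ 2 ^ e := by
  have h1 : x ≤ (e : ℤ) := by omega
  have h2 : e < 2 ^ e := Nat.lt_two_pow_self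
  have h3 : (e : ℤ) ≤ 2 ^ e := by exact_mod_cast h2.le
  exact h1.trans h3

theorem no_arm (hβ : 0 ≤ β) {ε : ℝ} (hε : 0 < ε) {K : ℤ} (hK : 2 ≤ K) : ∃ m n₀ : ℕ,
    ∀ n ≥ n₀, 2 ^ m * K ≤ 2 ^ 2 ^ n ∧ ∀ (q : ℕ) (a : V → ℝ × ℝ) (σ τ : Fld),
      LG q (G0 (2 ^ 2 ^ n) a) →
      Z β q (GS (2 ^ 2 ^ n) a σ τ) (fun u => ind (¬ Iso u.w 0 K (2 ^ m * K))) ≤
        ε * Z1 β q (GS (2 ^ 2 ^ n) a σ τ) := by
  obtain ⟨N, δ, hδ, hg1⟩ := good_scales hβ (θ := 1 / 10) (by norm_num)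
  obtain ⟨nI, I, v, hv, hr⟩ := ring_good hβ (ε := ε / 40) (by positivity) hδ N
  obtain ⟨C, hC, g₀, ht⟩ := arm_term hβ nI I (20 * (2 * vb nI I + 1)) hv
  obtain ⟨Γ, hΓ⟩ : ∃ Γ : ℝ,
      Γ = 2 * (20 * (2 * (vb nI I : ℝ) + 1)) * (2 * (vb nI I : ℝ) + 1) ^ 2 * C := ⟨_, rfl⟩
  have hΓ0 : 0 < Γ := by
    rw [hΓ]
    positivity
  have hθ : 0 < ε / (8 * Γ) := by positivity
  obtain ⟨N₂, δ₂, hδ₂, hg2⟩ := good_scales hβ hθ
  obtain ⟨n₁, hn₁⟩ := hg1 (ε / 4) (by positivity)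
  obtain ⟨n₂, hn₂⟩ := hg2 _ hθ
  obtain ⟨m₀, hm₀⟩ := exists_nat_ge (4 * Γ * (700 * β) / (δ₂ * ε))
  obtain ⟨m, hm1, hm⟩ : ∃ m : ℕ, 1 ≤ m ∧ 4 * Γ * (700 * β) / (δ₂ * ε) ≤ m :=
    ⟨m₀ + 1, by omega, by push_cast; linarith⟩
  have hm0 : (0 : ℝ) < m := by exact_mod_cast hm1
  have ht0 : 0 ≤ (1 - exp (-(700 * β / m))) / δ₂ :=
    div_nonneg (sub_nonneg.2 (exp_le_one_iff.2 (neg_nonpos.2 (by positivity)))) hδ₂.le
  have ht1 : Γ * ((1 - exp (-(700 * β / m))) / δ₂) ≤ ε / 4 := by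
    have h1 : 1 - exp (-(700 * β / m)) ≤ 700 * β / m := by
      linarith [add_one_le_exp (-(700 * β / m))]
    have h2 : Γ * (700 * β / m / δ₂) ≤ ε / 4 := by
      rw [div_le_iff₀ (by positivity)] at hm
      rw [div_div, ← mul_div_assoc, div_le_iff₀ (by positivity)]
      linarith
    exact (mul_le_mul_of_nonneg_left (div_le_div_of_nonneg_right h1 hδ₂.le) hΓ0.le).trans h2
  obtain ⟨n₃, hn₃⟩ :=
    hd4_big (6 + nI + 2 * I + 20 * (2 * vb nI I + 1) + g₀.toNat + m + K.toNat)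
  refine ⟨m, max (max n₁ n₂) n₃, fun n hn => ?_⟩
  have k1 : n₁ ≤ n := (le_max_left _ _).trans ((le_max_left _ _).trans hn)
  have k2 : n₂ ≤ n := (le_max_right _ _).trans ((le_max_left _ _).trans hn)
  obtain ⟨k6, kc⟩ := hn₃ n ((le_max_right _ _).trans hn)
  have hb : 6 + nI + 2 * I ≤ 2 ^ n / 4 := by omega
  have hJ : 20 * (2 * vb nI I + 1) ≤ nJ n := by
    unfold nJ
    omega
  have hmK : ∀ e : ℕ, 2 ^ n / 4 ≤ e → 2 ^ m * K ≤ 2 ^ e := by
    intro e he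
    have h1 : K ≤ 2 ^ (e - m) := hd4_le_pow (by omega)
    have h2 : (2 : ℤ) ^ e = 2 ^ m * 2 ^ (e - m) := by
      rw [← pow_add]
      congr 1
      omega
    rw [h2]
    exact mul_le_mul_of_nonneg_left h1 (by positivity)
  refine ⟨hmK _ (Nat.div_le_self _ _), fun q a σ τ hS => ?_⟩
  have ha : A01 (GS (2 ^ 2 ^ n) a σ τ).x.a := hS.grp.a01
  have hZ := Z1_nonneg (q := q) hβ ha
  have hq : 2 ^ n ≤ q := by
    have h1 := card_Ed_ge (2 ^ 2 ^ n)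
    have h2 : #(Ed (bx 0 (2 ^ 2 ^ n))) ≤ q := hS.sz
    have h3 : ((2 ^ n : ℕ) : ℤ) ≤ 2 ^ 2 ^ n := hd4_le_pow (by rw [Int.toNat_natCast])
    have h4 : ((2 ^ n : ℕ) : ℤ) ≤ q := h3.trans (h1.trans (by exact_mod_cast h2))
    exact_mod_cast h4
  obtain ⟨g, hg⟩ : ∃ g : ℕ → ℤ,
      ∀ j, g j = 2 ^ (2 ^ n / 4 - (6 + nI + 2 * I) + 10 * j) := ⟨_, fun _ => rfl⟩
  have hs : ∀ j, sc n j = mu nI I (g j) := fun j => by rw [hg, sc_eq hb]
  have hg1 : ∀ j, 1 ≤ g j := fun j => by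
    rw [hg]
    exact one_le_pow₀ (by norm_num)
  have hg0 : ∀ j, g₀ ≤ g j := fun j => by
    rw [hg]
    exact hd4_le_pow (by omega)
  have hgk : ∀ i k, g (i + k) = 2 ^ (10 * k) * g i := fun i k => by
    rw [hg, hg, ← pow_add]
    congr 1
    omega
  have hs1 : ∀ i, sc n (i + 1) = 1024 * mu nI I (g i) := fun i => by
    rw [← hs]
    unfold sc
    rw [show (1024 : ℤ) = 2 ^ 10 by norm_num, ← pow_add]
    congr 1
    omega
  have key := hd4_core (q := q) hβ ha hJ (fun u => ¬ Iso u.w 0 K (2 ^ m * K))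
    (fun j u => Bad β q (sc n j) N δ u) (fun j u => Bad β q (sc n j) N₂ δ₂ u)
    (fun j a b => OKc β q (par nI I (g j)) (mu nI I (g j)) v a b)
    (fun j u a => Glu β q (par nI I (g j)) (oD (mu nI I (g j))) 3 3 u a)
    (fun j u b => GluO β q (par nI I (g j)) (oD (mu nI I (g j))) (2 ^ 2 ^ n) σ τ u b)
    (e2 := ε / 40) hC.le ht0 (hn₁ n k1 q a σ τ hS)
    (fun j hj => by
      have h1 := sc_le k6 hj
      rw [hs] at h1 ⊢
      exact hr q (g j) _ a σ τ (hg1 j) (by omega) h1 hS)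
    (fun i k aa b hk1 hk2 hk3 => by
      have h1 := sc_le k6 hk3
      rw [hs, hgk] at h1
      have h2 : 2 ^ m * K ≤ mu nI I (g i) := by
        rw [← hs]
        exact hmK _ (Nat.le_add_right _ _)
      rw [hgk, hs1]
      exact ht q (g i) _ K k m N₂ δ₂ a σ τ aa b (hg1 i) (hg0 i) hk1 hk2 h1 hS hδ₂ hK hm1
        (by omega) h2)
    (avg_bad hβ ha (nJ n) (fun j u => Bad β q (sc n j) N₂ δ₂ u) hθ.le (hn₂ n k2 q a σ τ hS))
  rw [← hΓ] at key
  refine key.trans (mul_le_mul_of_nonneg_right ?_ hZ)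
  have e : Γ * (ε / (8 * Γ) + ε / (8 * Γ)) = ε / 4 := by
    field_simp
    norm_num
  rw [mul_add, e]
  linarith

end

end Pool.Agent.XYU

end

section

open Finset Real Relation

namespace Pool.Agent.XYU

open Classical

noncomputable section

variable {β : ℝ} {q : ℕ} {S : Sys} {μ L : ℤ}

theorem no_arm2 (hβ : 0 ≤ β) {ε : ℝ} (hε : 0 < ε) (K : ℤ) : ∃ L : ℕ, K ≤ L ∧
    ∀ (q : ℕ) (a : V → ℝ × ℝ) (σ τ : Fld), LG q (G0 L a) →
      Z β q (GS L a σ τ) (fun u => ind (¬ Iso u.w 0 K (L + 1) ∨ ¬ Iso u.b 0 K (L + 1))) ≤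
        ε * Z1 β q (GS L a σ τ) := by
  obtain ⟨m, n₀, h⟩ := no_arm hβ (half_pos hε) (le_max_right K 2)
  obtain ⟨h1, h2⟩ := h n₀ le_rfl
  have hc : ((2 ^ 2 ^ n₀ : ℕ) : ℤ) = 2 ^ 2 ^ n₀ := by push_cast; rfl
  have h3 : (1 : ℤ) ≤ 2 ^ m := one_le_pow₀ (by norm_num)
  have h4 : max K 2 ≤ 2 ^ m * max K 2 :=
    le_mul_of_one_le_left (le_trans (by norm_num) (le_max_right K 2)) h3
  have key : ∀ w : Es, ind (¬ Iso w 0 K (2 ^ 2 ^ n₀ + 1)) ≤
      ind (¬ Iso w 0 (max K 2) (2 ^ m * max K 2)) := by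
    intro w
    by_cases hw : Iso w 0 (max K 2) (2 ^ m * max K 2)
    · have h5 : Iso w 0 K (2 ^ 2 ^ n₀ + 1) := fun x y hx hxy =>
        lt_of_lt_of_le (hw x y (hx.trans (le_max_left K 2)) hxy) (by linarith)
      simp [ind, hw, h5]
    · simp only [ind, hw, not_false_eq_true, if_true]
      split_ifs <;> norm_num
  refine ⟨2 ^ 2 ^ n₀, ?_, fun q a σ τ hG => ?_⟩
  · rw [hc]
    exact (le_max_left K 2).trans (h4.trans h1)
  rw [hc] at hG ⊢
  have ha : A01 (GS (2 ^ 2 ^ n₀) a σ τ).x.a := hG.grp.a01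
  have r1 := h2 q a σ τ hG
  have r2 := h2 q (fun v => (a v).swap) τ σ hG.sw
  have e : GS (2 ^ 2 ^ n₀) (fun v => (a v).swap) τ σ = (GS (2 ^ 2 ^ n₀) a σ τ).sw := rfl
  rw [e, Z_sw, ba_Z1_sw] at r2
  have r3 := Z_mono (q := q) hβ ha
    (f := fun u => ind (¬ Iso u.w 0 K (2 ^ 2 ^ n₀ + 1) ∨ ¬ Iso u.b 0 K (2 ^ 2 ^ n₀ + 1)))
    (g := fun u => ind (¬ Iso u.w 0 (max K 2) (2 ^ m * max K 2)) +
      ind (¬ Iso u.sw.w 0 (max K 2) (2 ^ m * max K 2)))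
    fun u _ _ => (ind_or_le _ _).trans (add_le_add (key u.w) (key u.b))
  rw [Z_add] at r3
  linarith

end

end Pool.Agent.XYU

end

end
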