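import Pool.Agent.MP_b591f0_mp.Mg.XY_H2
import Pool.Agent.MP_b591f0_mp.Lat

section

open Finset Real Relation

namespace Pool.Agent.XYU

open Classical

noncomputable section

/-! The sine-sine correlation of the clock model under an arbitrary boundary condition.

`Z_a`: `Z_triple`, `es` (as in the proof of `Z1_eq`). `zc_spin`: `Z_a` twice; the difference of the
two Ising sums is `∑ τ ∈ Off, chi (τ x) * chi (τ y) * exp ..`; `site_sum`, `ip_vec` (as in the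
proof of `Z1_spin`). `zc_abs`: `0 ≤ s s' ≤ 1`, and the two filtered counts add up to `cnt`.
`zc_dec`: `dec` for the two filtered systems (`Om` does not depend on `T`, `U`;
`Finset.filter_comm`). `cnt_char`: if some compatible `τ₁` has `τ₁ x ≠ τ₁ y`, adding it exchanges
the two filtered sets (`cp_add`, characteristic two). `zc_grp`: unfold `Z`, `wt`.
`zc_max`: `zc_grp` twice and `mon_max` (`X = ∅`); restrict a field to `L ∪ ends E` (`mem_Flip`,
`mem_ends`). `smax_spin`: split `Flip (L ∪ ends E)` along the values off `L` (`Z_split`, or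
`cnt_split`); every class is an `Off L l`, `Flip L = Off L 0`, and `vec (fun _ => (1, 0)) 0 l = 1`;
`κ` is the number of classes; `zc_spin`, `Z1_spin`.
`zc_free`: `σ ↦ σ + σ₁` is a bijection that preserves `cp · w` for `w ⊆ E` and the values at `x, y`.
`lab_free`: `σ₁ v = 0` if `v` is joined (`Cn w univ`) to `bx 0 (K + 1)`, else `σ v`; the edges of
`w` are lattice edges (`mem_Ed`).
`fin_cut`: let `m ∈ [0, 1]` be the quotient, `E₁ = Ed (bx 0 L) \ Ed (bx 0 K)` and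
`Arm u = ¬ Iso (u.w ∩ E₁) .. ∨ ¬ Iso (u.b ∩ E₁) ..`, which implies the event of the statement and
is constant on `Om q (S.cond _ _ v)`. Use `dec` for `Z1` and for `ind Arm`, and `zc_dec`; the outer
weights are nonnegative. For each `v`: if `Arm v`, `zc_abs`; if `T` or `U` of the conditioned
system is empty everything vanishes; otherwise `lab_free`, `zc_free` (`Cos.filter`, `cos_Off`)
reduce to `(G0 L a).cond _ _ v`, which satisfies `Grp` (`SG.filter`, `fl_cond`, `a01_Om`), and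
`zc_max` applies.
`fin`: `no_arm2` with `ε / 2` and `K + 1`; `z = vec a σ τ` with `a v = (|re|, |im|)` and the signs;
`lg_G0`, `fin_cut`, `smax_spin`, `zc_spin`, `Z1_spin`. -/

variable {β : ℝ} {q : ℕ} {S : Sys} {x y : V}

/-- signed expectation of the product of the sines at `x` and `y` -/
def Zc (β : ℝ) (q : ℕ) (S : Sys) (x y : V) : ℝ :=
  Z β q ⟨S.L, S.E, S.x, S.T, S.U.filter fun τ => τ x = τ y⟩ (fun u => (u.a x).2 * (u.a y).2) -
    Z β q ⟨S.L, S.E, S.x, S.T, S.U.filter fun τ => τ x ≠ τ y⟩ fun u => (u.a x).2 * (u.a y).2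

lemma Z_a (β : ℝ) (q : ℕ) (S : Sys) (F : (V → ℝ × ℝ) → ℝ) : Z β q S (fun u => F u.a) =
    ∑ a ∈ As q S.L S.x.a,
      F a * (Isum β S.E S.T (fun v => (a v).1) * Isum β S.E S.U fun v => (a v).2) := by
  rw [Z_triple]
  refine sum_congr rfl fun a _ => ?_
  rw [← es β S.E S.T _ S.x.w, ← es β S.E S.U _ S.x.b, FK, FK, sum_mul_sum, mul_sum]
  refine sum_congr rfl fun w _ => ?_
  rw [mul_sum]
  refine sum_congr rfl fun b _ => ?_
  simp only [wt, mul_one]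
  ring

lemma xa1_chi (s t : ZMod 2) : chi s * chi t = if s = t then 1 else -1 := by
  have n : (1 : ZMod 2) ≠ 0 := by decide
  rcases af1_z2 s with rfl | rfl <;> rcases af1_z2 t with rfl | rfl <;> simp [chi, n]

lemma xa1_diff (β : ℝ) (E : Es) (U : Finset Fld) (c : V → ℝ) (x y : V) :
    Isum β E (U.filter fun τ => τ x = τ y) c - Isum β E (U.filter fun τ => τ x ≠ τ y) c =
      ∑ τ ∈ U, chi (τ x) * chi (τ y) * exp (∑ e ∈ E, β * pr c e * sg τ e) := by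
  rw [Isum, Isum, sum_filter, sum_filter, ← sum_sub_distrib]
  refine sum_congr rfl fun τ _ => ?_
  rw [xa1_chi]
  by_cases h : τ x = τ y <;> simp [h]

lemma zc_spin (β : ℝ) (q : ℕ) (L : Finset V) (E : Es) (u : UC) (σ₀ τ₀ : Fld) (x y : V) :
    Zc β q ⟨L, E, u, Off L σ₀, Off L τ₀⟩ x y =
      Zs β q L E (vec u.a σ₀ τ₀) fun z => (z x).im * (z y).im := by
  rw [Zc, Z_a β q _ fun a => (a x).2 * (a y).2, Z_a β q _ fun a => (a x).2 * (a y).2,
    ← sum_sub_distrib]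
  unfold Zs
  rw [← site_sum q L u.a σ₀ τ₀ fun z => exp (∑ e ∈ E, β * ip z e) * ((z x).im * (z y).im)]
  refine sum_congr rfl fun a _ => ?_
  rw [← mul_sub, ← mul_sub, xa1_diff, Isum, sum_mul_sum, mul_sum]
  refine sum_congr rfl fun σ _ => ?_
  rw [mul_sum]
  refine sum_congr rfl fun τ _ => ?_
  have e : exp (∑ e ∈ E, β * ip (vec a σ τ) e) =
      exp (∑ e ∈ E, β * pr (fun v => (a v).1) e * sg σ e) *
        exp (∑ e ∈ E, β * pr (fun v => (a v).2) e * sg τ e) := by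
    rw [← exp_add, ← sum_add_distrib]
    congr 1
    refine sum_congr rfl fun e _ => ?_
    rw [ip_vec]
    ring
  rw [e]
  simp only [vec]
  ring

end

end Pool.Agent.XYU

end

section

open Finset Real Relation

namespace Pool.Agent.XYU

open Classical

noncomputable section

variable {β : ℝ} {q : ℕ} {S : Sys} {x y : V}

lemma xa2_eq (β : ℝ) (q : ℕ) (S : Sys) (x y : V) : Zc β q S x y = ∑ u ∈ Om q S,
    wr β S.E (fun v => (u.a v).1) u.w * cnt S.T (u.w ∩ S.E) * wr β S.E (fun v => (u.a v).2) u.b *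
      ((u.a x).2 * (u.a y).2) * (cnt (S.U.filter fun τ => τ x = τ y) (u.b ∩ S.E) -
        cnt (S.U.filter fun τ => τ x ≠ τ y) (u.b ∩ S.E)) := by
  rw [Zc, Z, Z]
  refine (sum_sub_distrib (s := Om q S) _ _).symm.trans (sum_congr rfl fun u _ => ?_)
  simp only [wt]
  ring

lemma xa2_add (U : Finset Fld) (p : Fld → Prop) [DecidablePred p] [DecidablePred fun τ => ¬ p τ]
    (w : Es) : cnt (U.filter p) w + cnt (U.filter fun τ => ¬ p τ) w = cnt U w := by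
  simp only [cnt]
  rw [filter_comm p, filter_comm fun τ => ¬ p τ, ← Nat.cast_add, card_filter_add_card_filter_not]

lemma zc_abs (hβ : 0 ≤ β) (hS : A01 S.x.a) : |Zc β q S x y| ≤ Z1 β q S := by
  rw [xa2_eq, Z1, Z]
  refine (abs_sum_le_sum_abs _ _).trans (sum_le_sum fun u hu => ?_)
  have a := a01_Om hS hu
  have h1 : 0 ≤ wr β S.E (fun v => (u.a v).1) u.w * cnt S.T (u.w ∩ S.E) *
      wr β S.E (fun v => (u.a v).2) u.b :=
    mul_nonneg (mul_nonneg (wr_nonneg hβ _ (fun v => (a v).1.1) _) (cnt_nonneg _ _))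
      (wr_nonneg hβ _ (fun v => (a v).2.1) _)
  have h2 : 0 ≤ (u.a x).2 * (u.a y).2 := mul_nonneg (a x).2.1 (a y).2.1
  have h3 : (u.a x).2 * (u.a y).2 ≤ 1 := mul_le_one₀ (a x).2.2 (a y).2.1 (a y).2.2
  have h4 := xa2_add S.U (fun τ => τ x = τ y) (u.b ∩ S.E)
  have h5 := cnt_nonneg (S.U.filter fun τ => τ x = τ y) (u.b ∩ S.E)
  have h6 := cnt_nonneg (S.U.filter fun τ => τ x ≠ τ y) (u.b ∩ S.E)
  rw [abs_mul, abs_mul, abs_of_nonneg h1, abs_of_nonneg h2, wt, mul_one,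
    ← mul_assoc _ _ (cnt S.U _)]
  refine mul_le_mul (mul_le_of_le_one_right h1 h3) (abs_le.2 ⟨?_, ?_⟩) (abs_nonneg _) h1 <;>
    linarith

lemma zc_dec {L' : Finset V} {E' : Es} (h : S.In L' E') : Zc β q S x y =
    ∑ v ∈ Om q ⟨S.L \ L', S.E \ E', S.x, S.T, S.U⟩,
      wr β (S.E \ E') (fun y => (v.a y).1) v.w * wr β (S.E \ E') (fun y => (v.a y).2) v.b *
        Zc β q (S.cond L' E' v) x y := by
  rw [Zc, dec (S := ⟨S.L, S.E, S.x, S.T, S.U.filter fun τ => τ x = τ y⟩) h,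
    dec (S := ⟨S.L, S.E, S.x, S.T, S.U.filter fun τ => τ x ≠ τ y⟩) h]
  refine (sum_sub_distrib (s := Om q ⟨S.L \ L', S.E \ E', S.x, S.T, S.U⟩) _ _).symm.trans
    (sum_congr rfl fun v _ => ?_)
  simp only [Zc, Sys.cond]
  rw [filter_comm fun τ : Fld => τ x = τ y, filter_comm fun τ : Fld => τ x ≠ τ y, mul_sub]

lemma cnt_char {U : Finset Fld} (hU : SG U) (w : Es) (x y : V) :
    cnt (U.filter fun τ => τ x = τ y) w - cnt (U.filter fun τ => τ x ≠ τ y) w =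
      cnt U w * ind (∀ τ ∈ U, cp τ w → τ x = τ y) := by
  by_cases h : ∀ τ ∈ U, cp τ w → τ x = τ y
  · have h0 : cnt (U.filter fun τ => τ x ≠ τ y) w = 0 := by
      rw [cnt, Nat.cast_eq_zero, card_eq_zero, filter_eq_empty_iff]
      exact fun τ hτ k => (mem_filter.1 hτ).2 (h τ (mem_filter.1 hτ).1 k)
    rw [ind_pos h, mul_one, ← xa2_add U (fun τ => τ x = τ y) w, h0, sub_zero, add_zero]
  · rw [ind_neg h, mul_zero, sub_eq_zero, cnt, cnt]
    push Not at h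
    obtain ⟨σ, h1, h2, h3⟩ := h
    have e : ∀ τ : Fld, τ + σ + σ = τ := fun τ => by
      funext v
      simp only [Pi.add_apply]
      rw [add_assoc, CharTwo.add_self_eq_zero, add_zero]
    have k : ∀ a b c d : ZMod 2, c ≠ d → a ≠ b → a + c = b + d := by decide
    refine congrArg _ (card_nbij' (· + σ) (· + σ) (fun τ hτ => ?_) (fun τ hτ => ?_)
      (fun τ _ => e τ) fun τ _ => e τ)
    · simp only [coe_filter, mem_filter, Set.mem_ofPred_eq, Pi.add_apply] at hτ ⊢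
      exact ⟨⟨hU.2 _ hτ.1.1 _ h1, fun a => h3 (add_left_cancel (hτ.1.2 ▸ a))⟩, cp_add hτ.2 h2⟩
    · simp only [coe_filter, mem_filter, Set.mem_ofPred_eq, Pi.add_apply] at hτ ⊢
      exact ⟨⟨hU.2 _ hτ.1.1 _ h1, k _ _ _ _ h3 hτ.1.2⟩, cp_add hτ.2 h2⟩

lemma zc_grp (hU : SG S.U) : Zc β q S x y = Z β q S fun u =>
    (u.a x).2 * (u.a y).2 * ind (∀ τ ∈ S.U, cp τ (u.b ∩ S.E) → τ x = τ y) := by
  rw [xa2_eq, Z]
  refine sum_congr rfl fun u _ => ?_
  rw [cnt_char hU, wt]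
  ring

end

end Pool.Agent.XYU

end

section

open Finset Real Relation

namespace Pool.Agent.XYU

open Classical

noncomputable section

variable {β : ℝ} {q : ℕ} {S : Sys} {x y : V}

lemma xa3_ind_mono {p p' : Prop} (h : p' → p) : ind p' ≤ ind p := by
  unfold ind
  by_cases h' : p'
  · rw [if_pos h', if_pos (h h')]
  · rw [if_neg h']
    split_ifs <;> norm_num

lemma xa3_ind_nonneg (p : Prop) : 0 ≤ ind p := by
  unfold ind
  split_ifs <;> norm_num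

lemma zc_max (hβ : 0 ≤ β) (hS : Grp S) (hx : x ∈ S.L) (hy : y ∈ S.L) :
    Zc β q (Smax S.L S.E ∅) x y * Z1 β q S ≤ Zc β q S x y * Z1 β q (Smax S.L S.E ∅) := by
  rw [zc_grp hS.U0, zc_grp (grp_Smax S.L S.E ∅).U0]
  refine mon_max hβ hS (X := ∅) (fun _ _ v _ _ hv => absurd hv (notMem_empty v)) ?_
  intro u hu u' hu' hle
  have h0 := a01_Om hS.a01 hu
  have h0' := a01_Om (grp_Smax S.L S.E ∅).a01 hu'
  refine mul_le_mul (mul_le_mul (hle.1 x hx).2 (hle.1 y hy).2 (h0' y).2.1 (h0 x).2.1)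
    (xa3_ind_mono fun H τ _ hτ => ?_) (xa3_ind_nonneg _) (mul_nonneg (h0 x).2.1 (h0 y).2.1)
  have key := H (fun v => if v ∈ S.L ∪ ends S.E then τ v else 0)
    (mem_Flip.2 fun v hv => if_neg hv) (fun a b hab => by
      have hE : s(a, b) ∈ S.E := (mem_inter.1 hab).2
      have ha : a ∈ S.L ∪ ends S.E :=
        mem_union_right _ (mem_ends.2 ⟨_, hE, Sym2.mem_mk_left a b⟩)
      have hb : b ∈ S.L ∪ ends S.E :=
        mem_union_right _ (mem_ends.2 ⟨_, hE, Sym2.mem_mk_right a b⟩)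
      simp only [if_pos ha, if_pos hb]
      exact hτ a b (mem_inter.2 ⟨hle.2.2 hab, hE⟩))
  simpa only [if_pos (mem_union_left (ends S.E) hx), if_pos (mem_union_left (ends S.E) hy)]
    using key

lemma xa3_cnt (U : Finset Fld) (r : Fld → Fld) (p : Fld → Prop) [DecidablePred p] (w : Es) :
    cnt (U.filter p) w = ∑ l ∈ U.image r, cnt ((U.filter fun σ => r σ = l).filter p) w := by
  simp only [cnt, ← Nat.cast_sum]
  rw [card_eq_sum_card_fiberwise (f := r) (t := U.image r) fun σ hσ =>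
    mem_coe.2 (mem_image_of_mem r (mem_filter.1 (mem_filter.1 (mem_coe.1 hσ)).1).1)]
  congr 1
  refine sum_congr rfl fun l _ => ?_
  congr 1
  ext σ
  simp only [mem_filter]
  tauto

lemma xa3_Z (β : ℝ) (q : ℕ) (L : Finset V) (E : Es) (u₀ : UC) (T U : Finset Fld) (r : Fld → Fld)
    (p : Fld → Prop) [DecidablePred p] (f : UC → ℝ) :
    Z β q ⟨L, E, u₀, T, U.filter p⟩ f =
      ∑ l ∈ U.image r, Z β q ⟨L, E, u₀, T, (U.filter fun σ => r σ = l).filter p⟩ f := by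
  have key : ∀ u : UC, wt β ⟨L, E, u₀, T, U.filter p⟩ u * f u =
      ∑ l ∈ U.image r, wt β ⟨L, E, u₀, T, (U.filter fun σ => r σ = l).filter p⟩ u * f u := by
    intro u
    unfold wt
    simp only []
    rw [xa3_cnt U r p, mul_sum, mul_sum, sum_mul]
  unfold Z
  rw [sum_congr rfl fun u _ => key u, sum_comm]
  rfl

lemma xa3_cls (L A : Finset V) (hL : L ⊆ A) {l : Fld}
    (hl : l ∈ (Flip A).image fun (σ : Fld) (v : V) => if v ∈ L then 0 else σ v) :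
    ((Flip A).filter fun σ : Fld => (fun v : V => if v ∈ L then 0 else σ v) = l) = Off L l := by
  obtain ⟨τ, hτ, rfl⟩ := mem_image.1 hl
  ext σ
  rw [mem_filter, mem_Off, mem_Flip]
  constructor
  · rintro ⟨-, h⟩ v hv
    have := congrFun h v
    simpa only [if_neg hv] using this
  · intro h
    refine ⟨fun v hv => ?_, funext fun v => ?_⟩
    · have hv' : v ∉ L := fun h' => hv (hL h')
      rw [h v hv', if_neg hv', mem_Flip.1 hτ v hv]
    · by_cases hv : v ∈ L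
      · rw [if_pos hv, if_pos hv]
      · rw [if_neg hv, h v hv]

lemma xa3_off (L : Finset V) : Flip L = Off L 0 := by
  ext σ
  rw [mem_Flip, mem_Off]
  rfl

lemma xa3_vec (l : Fld) :
    vec (fun v => if v ∈ (∅ : Finset V) then ((0 : ℝ), (0 : ℝ)) else (1, 0)) 0 l = 1 := by
  funext v
  simp only [vec, chi, notMem_empty, if_false, Pi.zero_apply, if_true, mul_one, mul_zero,
    Pi.one_apply]
  rfl

lemma smax_spin (β : ℝ) (q : ℕ) (L : Finset V) (E : Es) (x y : V) : ∃ κ : ℝ, 0 < κ ∧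
    Zc β q (Smax L E ∅) x y = κ * Zs β q L E 1 (fun z => (z x).im * (z y).im) ∧
      Z1 β q (Smax L E ∅) = κ * Zs β q L E 1 fun _ => 1 := by
  set r : Fld → Fld := fun σ v => if v ∈ L then 0 else σ v with hr
  refine ⟨(#((Flip (L ∪ ends E)).image r) : ℕ), ?_, ?_, ?_⟩
  · exact_mod_cast card_pos.2 ⟨_, mem_image_of_mem r (sg_Flip _).1⟩
  · unfold Zc Smax
    simp only []
    rw [xa3_Z β q L E _ _ _ r, xa3_Z β q L E _ _ _ r, ← sum_sub_distrib, ← nsmul_eq_mul,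
      ← sum_const]
    refine sum_congr rfl fun l hl => ?_
    rw [xa3_cls L _ subset_union_left hl, xa3_off L, ← xa3_vec l]
    exact zc_spin β q L E
      ⟨fun v => if v ∈ (∅ : Finset V) then ((0 : ℝ), (0 : ℝ)) else (1, 0), ∅, ∅⟩ 0 l x y
  · unfold Z1 Smax
    rw [← filter_true (Flip (L ∪ ends E)), xa3_Z β q L E _ _ _ r, filter_true, ← nsmul_eq_mul,
      ← sum_const]
    refine sum_congr rfl fun l hl => ?_
    rw [xa3_cls L _ subset_union_left hl, filter_true, xa3_off L, ← xa3_vec l]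
    exact Z1_spin β q L E
      ⟨fun v => if v ∈ (∅ : Finset V) then ((0 : ℝ), (0 : ℝ)) else (1, 0), ∅, ∅⟩ 0 l

end

end Pool.Agent.XYU

end

section

open Finset Real Relation

namespace Pool.Agent.XYU

open Classical

noncomputable section

variable {β : ℝ} {q : ℕ} {S : Sys} {x y : V}

lemma xa4_cnt {T₀ T : Finset Fld} (hT : Cos T₀ T) {σ₁ : Fld} (h₁ : σ₁ ∈ T) {w : Es}
    (h₃ : ∀ e ∈ w, ∀ v ∈ e, σ₁ v = 0) {P : Fld → Prop} [DecidablePred P]
    (hP : ∀ σ, P (σ + σ₁) ↔ P σ) : cnt (T.filter P) w = cnt (T₀.filter P) w := by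
  have h2 : ∀ σ : Fld, σ + σ₁ + σ₁ = σ := fun σ => by
    funext v
    simp only [Pi.add_apply, add_assoc, CharTwo.add_self_eq_zero, add_zero]
  have h4 : ∀ σ, cp σ w → cp (σ + σ₁) w := fun σ h => cp_add h fun a b hab => by
    rw [h₃ _ hab a (Sym2.mem_mk_left a b), h₃ _ hab b (Sym2.mem_mk_right a b)]
  unfold cnt
  congr 1
  refine card_nbij' (· + σ₁) (· + σ₁) (fun σ hσ => ?_) (fun σ hσ => ?_) (fun σ _ => h2 σ)
    fun σ _ => h2 σ
  · simp only [coe_filter, mem_filter, Set.mem_ofPred_eq] at hσ ⊢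
    exact ⟨⟨(hT σ₁ h₁ σ).1 hσ.1.1, (hP σ).2 hσ.1.2⟩, h4 σ hσ.2⟩
  · simp only [coe_filter, mem_filter, Set.mem_ofPred_eq] at hσ ⊢
    exact ⟨⟨(hT σ₁ h₁ _).2 (by rw [h2]; exact hσ.1.1), (hP σ).2 hσ.1.2⟩, h4 σ hσ.2⟩

lemma xa4_Z {T U T' U' : Finset Fld} (hT : ∀ w ⊆ S.E, cnt T w = cnt T' w)
    (hU : ∀ w ⊆ S.E, cnt U w = cnt U' w) (f : UC → ℝ) :
    Z β q ⟨S.L, S.E, S.x, T, U⟩ f = Z β q ⟨S.L, S.E, S.x, T', U'⟩ f := by
  refine sum_congr rfl fun u _ => ?_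
  simp only [wt]
  rw [hT _ inter_subset_right, hU _ inter_subset_right]

lemma zc_free {T₀ U₀ : Finset Fld} (hT : Cos T₀ S.T) (hU : Cos U₀ S.U) {σ₁ τ₁ : Fld}
    (h₁ : σ₁ ∈ S.T) (h₂ : τ₁ ∈ S.U) (h₃ : ∀ e ∈ S.E, ∀ v ∈ e, σ₁ v = 0 ∧ τ₁ v = 0)
    (hx : τ₁ x = 0) (hy : τ₁ y = 0) :
    Zc β q S x y = Zc β q ⟨S.L, S.E, S.x, T₀, U₀⟩ x y ∧
      Z1 β q S = Z1 β q ⟨S.L, S.E, S.x, T₀, U₀⟩ := by
  have a1 : ∀ w ⊆ S.E, cnt S.T w = cnt T₀ w := fun w hw => by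
    simpa using xa4_cnt hT h₁ (fun e he v hv => (h₃ e (hw he) v hv).1) (P := fun _ => True)
      fun _ => Iff.rfl
  have a2 : ∀ (P : Fld → Prop) [DecidablePred P], (∀ σ, P (σ + τ₁) ↔ P σ) → ∀ w ⊆ S.E,
      cnt (S.U.filter P) w = cnt (U₀.filter P) w := fun P _ hP w hw =>
    xa4_cnt hU h₂ (fun e he v hv => (h₃ e (hw he) v hv).2) hP
  refine ⟨?_, xa4_Z (S := S) a1 (fun w hw => ?_) _⟩
  · unfold Zc
    rw [xa4_Z a1 (a2 _ fun σ => by simp [hx, hy]), xa4_Z a1 (a2 _ fun σ => by simp [hx, hy])]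
  · simpa using a2 (fun _ => True) (fun _ => Iff.rfl) w hw

lemma lab_free {K L : ℤ} {w : Es} (hw : w ⊆ Ed (bx 0 L)) {σ₀ σ : Fld}
    (hσ : σ ∈ Off (bx 0 L) σ₀) (hc : cp σ w) (hI : Iso w 0 (K + 1) (L + 1)) :
    ∃ σ₁ ∈ Off (bx 0 L) σ₀, cp σ₁ w ∧ ∀ v ∈ bx 0 (K + 1), σ₁ v = 0 := by
  refine ⟨fun v => if ∃ a, dd a 0 ≤ K + 1 ∧ Cn w Set.univ a v then 0 else σ v,
    mem_Off.2 fun v hv => ?_, fun a b hab => ?_, fun v hv => if_pos ⟨v, mem_bx.1 hv, .refl⟩⟩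
  · rw [if_neg, mem_Off.1 hσ v hv]
    rintro ⟨a, h1, h2⟩
    exact hv (mem_bx.2 (Int.lt_add_one_iff.1 (hI a v h1 h2)))
  · have h1 : Cn w Set.univ a b := .single ⟨trivial, trivial, (mem_Ed.1 (hw hab)).1, hab⟩
    exact if_congr (exists_congr fun c => and_congr_right fun _ =>
      ⟨fun h => h.trans h1, fun h => h.trans h1.symm⟩) rfl (hc a b hab)

end

end Pool.Agent.XYU

end

section

open Finset Real Relation

namespace Pool.Agent.XYU

open Classical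

noncomputable section

variable {β : ℝ} {q : ℕ} {S : Sys} {x y : V}

lemma xa5_iso {w w' : Es} {c : V} {r R : ℤ} (h : w ⊆ w') (hI : Iso w' c r R) : Iso w c r R :=
  fun a b ha hc => hI a b ha (hc.mono subset_rfl fun _ _ _ _ _ he => h he)

lemma xa5_sub {E E' w w' : Es} (h : w' \ E' = w \ E') : w ∩ (E \ E') ⊆ w' := by
  intro e he
  rw [mem_inter, mem_sdiff] at he
  have a1 : e ∈ w' \ E' := h ▸ mem_sdiff.2 ⟨he.1, he.2.2⟩
  exact (mem_sdiff.1 a1).1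

lemma xa5_empty (h : ¬ (S.T.Nonempty ∧ S.U.Nonempty)) : Z1 β q S = 0 := by
  refine sum_eq_zero fun u _ => ?_
  rcases not_and_or.1 h with h | h <;> simp [wt, cnt, not_nonempty_iff_eq_empty.1 h]

lemma xa5_ends {K : ℤ} {e : Sym2 V} (he : e ∈ Ed (bx 0 K)) : ∀ v ∈ e, v ∈ bx 0 (K + 1) := by
  obtain ⟨a, b, rfl, h1, h2⟩ := mem_Ed'.1 he
  rw [mem_bx] at h2
  have h3 := dd_tri b a 0
  rw [h1.symm.dd] at h3
  intro v hv
  rw [mem_bx]
  rcases Sym2.mem_iff.1 hv with rfl | rfl <;> omega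

lemma xa5_core (hβ : 0 ≤ β) {S₀ : Sys} {Λ : Finset V} {E : Es} {v : UC} (hv : A01 v.a)
    (hI : S₀.In Λ E) (hE : S.E = S₀.E) (hG : Grp S₀) (hT : Cos S₀.T S.T) (hU : Cos S₀.U S.U)
    (hx : x ∈ Λ) (hy : y ∈ Λ) {σ₁ τ₁ : Fld} (h₁ : σ₁ ∈ (S.cond Λ E v).T)
    (h₂ : τ₁ ∈ (S.cond Λ E v).U) (h₃ : ∀ e ∈ E, ∀ z ∈ e, σ₁ z = 0 ∧ τ₁ z = 0)
    (h₄ : τ₁ x = 0) (h₅ : τ₁ y = 0) :
    Zc β q (Smax Λ E ∅) x y * Z1 β q (S.cond Λ E v) ≤
      Zc β q (S.cond Λ E v) x y * Z1 β q (Smax Λ E ∅) := by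
  have c1 : Cos (S₀.cond Λ E v).T (S.cond Λ E v).T := by
    simp only [Sys.cond, hE]
    exact hT.filter _
  have c2 : Cos (S₀.cond Λ E v).U (S.cond Λ E v).U := by
    simp only [Sys.cond, hE]
    exact hU.filter _
  obtain ⟨e1, e2⟩ := zc_free (β := β) (q := q) (x := x) (y := y) c1 c2 h₁ h₂ h₃ h₄ h₅
  have hf := fl_cond hI hG.Tf hG.Uf v
  have hG' : Grp (S₀.cond Λ E v) := ⟨hv, hG.T0.filter _, hG.U0.filter _, hf.1, hf.2⟩
  have e3 : (⟨(S.cond Λ E v).L, (S.cond Λ E v).E, (S.cond Λ E v).x, (S₀.cond Λ E v).T,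
      (S₀.cond Λ E v).U⟩ : Sys) = S₀.cond Λ E v := rfl
  have e4 : Smax (S₀.cond Λ E v).L (S₀.cond Λ E v).E ∅ = Smax Λ E ∅ := rfl
  rw [e1, e2, e3, ← e4]
  exact zc_max hβ hG' hx hy

lemma xa5_T {Λ : Finset V} {E : Es} {v : UC} {σ : Fld} :
    σ ∈ (S.cond Λ E v).T ↔ σ ∈ S.T ∧ cp σ (v.w ∩ (S.E \ E)) := mem_filter

lemma xa5_U {Λ : Finset V} {E : Es} {v : UC} {σ : Fld} :
    σ ∈ (S.cond Λ E v).U ↔ σ ∈ S.U ∧ cp σ (v.b ∩ (S.E \ E)) := mem_filter

lemma xa5_free (hβ : 0 ≤ β) {K L : ℤ} {a : V → ℝ × ℝ} (ha : Grp (G0 L a)) (σ τ : Fld) (hL : K ≤ L)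
    (hx : x ∈ bx 0 K) (hy : y ∈ bx 0 K) {v : UC} (hv : A01 v.a)
    (h1 : Iso (v.w ∩ (Ed (bx 0 L) \ Ed (bx 0 K))) 0 (K + 1) (L + 1))
    (h2 : Iso (v.b ∩ (Ed (bx 0 L) \ Ed (bx 0 K))) 0 (K + 1) (L + 1)) :
    Zc β q (Smax (bx 0 K) (Ed (bx 0 K)) ∅) x y * Z1 β q ((GS L a σ τ).lc (bx 0 K) v) ≤
      Zc β q ((GS L a σ τ).lc (bx 0 K) v) x y * Z1 β q (Smax (bx 0 K) (Ed (bx 0 K)) ∅) := by
  by_cases hne : ((GS L a σ τ).lc (bx 0 K) v).T.Nonempty ∧ ((GS L a σ τ).lc (bx 0 K) v).U.Nonempty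
  swap
  · have h3 := zc_abs (q := q) (S := (GS L a σ τ).lc (bx 0 K) v) (x := x) (y := y) hβ hv
    rw [xa5_empty hne] at h3 ⊢
    rw [abs_nonpos_iff.1 h3, mul_zero, zero_mul]
  obtain ⟨⟨σ', hσ⟩, ⟨τ', hτ⟩⟩ := hne
  have hs : ∀ w : Es, w ∩ (Ed (bx 0 L) \ Ed (bx 0 K)) ⊆ Ed (bx 0 L) := fun w =>
    inter_subset_right.trans sdiff_subset
  obtain ⟨σ₁, a1, a2, a3⟩ := lab_free (hs _) (xa5_T.1 hσ).1 (xa5_T.1 hσ).2 h1
  obtain ⟨τ₁, b1, b2, b3⟩ := lab_free (hs _) (xa5_U.1 hτ).1 (xa5_U.1 hτ).2 h2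
  have hK : ∀ z ∈ bx 0 K, z ∈ bx 0 (K + 1) := fun z hz => mem_bx.2 (by have := mem_bx.1 hz; omega)
  have hsub : bx 0 K ⊆ bx 0 L := fun z hz => mem_bx.2 ((mem_bx.1 hz).trans hL)
  exact xa5_core (S := GS L a σ τ) (S₀ := G0 L a) hβ hv (lc_in rfl hsub) rfl ha (cos_Off _ σ)
    (cos_Off _ τ) hx hy
    (xa5_T.2 ⟨a1, a2⟩) (xa5_U.2 ⟨b1, b2⟩)
    (fun e he z hz => ⟨a3 z (xa5_ends he z hz), b3 z (xa5_ends he z hz)⟩)
    (b3 x (hK x hx)) (b3 y (hK y hy))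

lemma xa5_one (hβ : 0 ≤ β) (hq : 0 < q) {K L : ℤ} {a : V → ℝ × ℝ} (ha : Grp (G0 L a))
    (σ τ : Fld) (hL : K ≤ L) (hx : x ∈ bx 0 K) (hy : y ∈ bx 0 K) {v : UC} (hv : A01 v.a) :
    Zc β q (Smax (bx 0 K) (Ed (bx 0 K)) ∅) x y / Z1 β q (Smax (bx 0 K) (Ed (bx 0 K)) ∅) *
        Z1 β q ((GS L a σ τ).lc (bx 0 K) v) - 2 * Z β q ((GS L a σ τ).lc (bx 0 K) v) (fun u =>
          ind (¬ Iso u.w 0 (K + 1) (L + 1) ∨ ¬ Iso u.b 0 (K + 1) (L + 1))) ≤
      Zc β q ((GS L a σ τ).lc (bx 0 K) v) x y := by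
  have hG := grp_Smax (bx 0 K) (Ed (bx 0 K)) ∅
  have hM := Z1_pos hβ hq hG.a01 ⟨0, hG.T0.1⟩ ⟨0, hG.U0.1⟩
  by_cases h : Iso (v.w ∩ (Ed (bx 0 L) \ Ed (bx 0 K))) 0 (K + 1) (L + 1) ∧
      Iso (v.b ∩ (Ed (bx 0 L) \ Ed (bx 0 K))) 0 (K + 1) (L + 1)
  · have h1 := xa5_free (q := q) hβ ha σ τ hL hx hy hv h.1 h.2
    have h2 := Z_nonneg (q := q) (S := (GS L a σ τ).lc (bx 0 K) v) (f := fun u =>
      ind (¬ Iso u.w 0 (K + 1) (L + 1) ∨ ¬ Iso u.b 0 (K + 1) (L + 1))) hβ hv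
      fun _ _ => ind_nonneg _
    rw [← div_le_iff₀ hM, ← div_mul_eq_mul_div] at h1
    linarith
  · have h1 : Z β q ((GS L a σ τ).lc (bx 0 K) v) (fun u =>
        ind (¬ Iso u.w 0 (K + 1) (L + 1) ∨ ¬ Iso u.b 0 (K + 1) (L + 1))) =
        Z1 β q ((GS L a σ τ).lc (bx 0 K) v) := by
      refine Z_congr fun u hu _ => ind_pos ?_
      obtain ⟨-, -, h3, h4⟩ := mem_Om.1 hu
      exact (not_and_or.1 h).imp (mt (xa5_iso (xa5_sub h3))) (mt (xa5_iso (xa5_sub h4)))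
    have h2 := neg_le_of_abs_le
      (zc_abs (q := q) (S := (GS L a σ τ).lc (bx 0 K) v) (x := x) (y := y) hβ hv)
    have h3 := (div_le_one hM).2 (le_of_abs_le (zc_abs (q := q) (x := x) (y := y) hβ hG.a01))
    have h4 := mul_le_of_le_one_left
      (Z1_nonneg (q := q) (S := (GS L a σ τ).lc (bx 0 K) v) hβ hv) h3
    linarith

lemma fin_cut (hβ : 0 ≤ β) {K L : ℤ} {a : V → ℝ × ℝ} (hS : LG q (G0 L a)) (σ τ : Fld)
    (hL : K ≤ L) (hx : x ∈ bx 0 K) (hy : y ∈ bx 0 K) :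
    Zc β q (Smax (bx 0 K) (Ed (bx 0 K)) ∅) x y / Z1 β q (Smax (bx 0 K) (Ed (bx 0 K)) ∅) *
        Z1 β q (GS L a σ τ) - 2 * Z β q (GS L a σ τ) (fun u =>
          ind (¬ Iso u.w 0 (K + 1) (L + 1) ∨ ¬ Iso u.b 0 (K + 1) (L + 1))) ≤
      Zc β q (GS L a σ τ) x y := by
  have hI : (GS L a σ τ).In (bx 0 K) (Ed (bx 0 K)) :=
    lc_in rfl fun z hz => mem_bx.2 ((mem_bx.1 hz).trans hL)
  rw [zc_dec hI, dec hI, Z1, Z1, dec hI, mul_sum, mul_sum, ← sum_sub_distrib]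
  refine sum_le_sum fun v hv => ?_
  have hA : A01 v.a := a01_Om (by exact hS.grp.a01) hv
  have h1 := mul_le_mul_of_nonneg_left (xa5_one hβ hS.pos hS.grp σ τ hL hx hy hA)
    (mul_nonneg (wr_nonneg hβ ((GS L a σ τ).E \ Ed (bx 0 K)) (fun z => (hA z).1.1) v.w)
      (wr_nonneg hβ ((GS L a σ τ).E \ Ed (bx 0 K)) (fun z => (hA z).2.1) v.b))
  refine le_of_eq_of_le ?_ h1
  simp only [Z1, Sys.lc]
  ring

end

end Pool.Agent.XYU

end

section

open Finset Real Relation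

namespace Pool.Agent.XYU

open Classical

noncomputable section

variable {β : ℝ} {q : ℕ} {S : Sys} {x y : V}

lemma xa_chi (t : ℝ) : chi (if 0 ≤ t then 0 else 1) * |t| = t := by
  unfold chi
  by_cases h : 0 ≤ t
  · rw [if_pos h, if_pos rfl, one_mul, abs_of_nonneg h]
  · rw [if_neg h, if_neg (by decide), abs_of_neg (not_le.1 h)]
    ring

lemma xa_vec (z : V → ℂ) : vec (fun v => (|(z v).re|, |(z v).im|))
    (fun v => if 0 ≤ (z v).re then 0 else 1) (fun v => if 0 ≤ (z v).im then 0 else 1) = z := by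
  funext v
  exact Complex.ext (xa_chi _) (xa_chi _)

theorem fin (hβ : 0 ≤ β) {ε : ℝ} (hε : 0 < ε) {K : ℤ} (hx : x ∈ bx 0 K) (hy : y ∈ bx 0 K) :
    ∃ L q₀ : ℕ, ∀ q ≥ q₀, ∀ z : V → ℂ, (∀ v, ‖z v‖ = 1) →
      (Zs β q (bx 0 K) (Ed (bx 0 K)) 1 (fun z => (z x).im * (z y).im) /
          Zs β q (bx 0 K) (Ed (bx 0 K)) 1 (fun _ => 1) - ε) *
        Zs β q (bx 0 L) (Ed (bx 0 L)) z (fun _ => 1) ≤
      Zs β q (bx 0 L) (Ed (bx 0 L)) z fun z => (z x).im * (z y).im := by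
  obtain ⟨L, hL, hno⟩ := no_arm2 hβ (half_pos hε) (K + 1)
  refine ⟨L, #(Ed (bx 0 L)) + 1, fun q hq z hz => ?_⟩
  set a : V → ℝ × ℝ := fun v => (|(z v).re|, |(z v).im|) with ha
  set σ : Fld := fun v => if 0 ≤ (z v).re then 0 else 1 with hσ
  set τ : Fld := fun v => if 0 ≤ (z v).im then 0 else 1 with hτ
  have hv : vec a σ τ = z := xa_vec z
  have h01 : A01 a := fun v =>
    ⟨⟨abs_nonneg _, (Complex.abs_re_le_norm _).trans (hz v).le⟩, abs_nonneg _,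
      (Complex.abs_im_le_norm _).trans (hz v).le⟩
  have hS : LG q (G0 L a) := lg_G0 h01 (by omega) (by omega)
  have h1 := hno q a σ τ hS
  have h2 := fin_cut (x := x) (y := y) hβ hS σ τ (by omega) hx hy
  obtain ⟨κ, hκ, h3, h4⟩ := smax_spin β q (bx 0 K) (Ed (bx 0 K)) x y
  have h5 : Zc β q (GS L a σ τ) x y =
      Zs β q (bx 0 L) (Ed (bx 0 L)) z fun z => (z x).im * (z y).im := by
    rw [← hv]
    exact zc_spin β q (bx 0 L) (Ed (bx 0 L)) ⟨a, ∅, ∅⟩ σ τ x y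
  have h6 : Z1 β q (GS L a σ τ) = Zs β q (bx 0 L) (Ed (bx 0 L)) z fun _ => 1 := by
    rw [← hv]
    exact Z1_spin β q (bx 0 L) (Ed (bx 0 L)) ⟨a, ∅, ∅⟩ σ τ
  rw [h3, h4, mul_div_mul_left _ _ hκ.ne', h5, h6] at h2
  rw [h6] at h1
  rw [sub_mul]
  linarith

end

end Pool.Agent.XYU

end

section

open Finset Real Filter Topology

namespace Pool.Agent.XYU

open Classical
open Pool.Agent.MP_b591f0_mp (Ω gam nu Ham ss av pw)

noncomputable section

/-! From the clock models to the rotator.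

The names of the files outside `U/` live in the namespace `Pool.Agent.MP_b591f0_mp`
(`av`, `nu`, `gam`, `pw` in `Base`, `Gin`; `Ham`, `box`, its own `Ed` of ordered pairs in `Lat`).
`ham_ip`: the map `b ↦ s(b.1, b.2)` is a bijection from the ordered edges to `Ed Λ`
(`Finset.sum_bij`, both `mem_Ed`), and `cos_sub'`.
`riemann`: let `g m : Ω` be the grid point without the half shift, extended by zero. By
`av_shift`, `nu Λ F η = av fun σ => N⁻¹ ∑ m, F (pw Λ (σ + g m) η)`. For each `σ` and `v ∈ Λ` choose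
an integer `k v` with `σ v = ((k v + 1/2) π / (2 q) + d v : ℝ)`, `|d v| ≤ π / q` (floor of a real
representative); the shift `m ↦ m + k` modulo `4 q` permutes the grid (as in `Zs_rot`), so the
average differs from the Riemann sum by at most the oscillation of the continuous function
`t ↦ F (pw Λ (↑t) η)` on `Λ → ℝ` at distance `π / q`, which tends to zero by uniform continuity
(for instance: `(θ, d) ↦ F (pw Λ (θ + ↑d) η)` is continuous on `Ω × (Λ → ℝ)`, `Ω` is compact, tube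
lemma or `IsCompact.uniformContinuousOn_of_continuous`). `abs` of `av` is bounded by `av_mono`.
`zs_lim`: `riemann` with `F θ = G (sp θ) * exp (Ham β Λ θ)`; `spn q Λ (sp η) m = sp (grid m)`
(`Complex.exp_ofReal_mul_I_re`, `Real.Angle.cos_coe`), `ham_ip`.
`fv1`: `fin` with `x = b.1`, `y = b.2`, `z = sp η`; `sp 0 = 1`; divide by `(4 q) ^ #Λ`, pass to the
limit (`zs_lim` four times, `nu_pos`, `le_of_tendsto_of_tendsto`), `le_gam`; `Q = bx 0 L`. -/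

variable {β : ℝ}

/-- spins as complex numbers -/
def sp (η : Ω) : V → ℂ := fun v => ⟨(η v).cos, (η v).sin⟩

/-- grid configuration -/
def grid (q : ℕ) (Λ : Finset V) (η : Ω) (m : Λ → Fin (4 * q)) : Ω := fun v =>
  if h : v ∈ Λ then (((((m ⟨v, h⟩ : ℕ) : ℝ) + 1 / 2) * π / (2 * q) : ℝ) : Real.Angle) else η v

lemma box_bx (n : ℕ) : MP_b591f0_mp.box n = bx 0 n := by
  simp [MP_b591f0_mp.box, bx, rect]

lemma cont_sp : Continuous sp := by
  refine continuous_pi fun v => ?_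
  have h1 : Continuous fun η : Ω => (η v).cos :=
    Real.Angle.continuous_cos.comp (continuous_apply v)
  have h2 : Continuous fun η : Ω => (η v).sin :=
    Real.Angle.continuous_sin.comp (continuous_apply v)
  have e : (fun η : Ω => sp η v) =
      fun η : Ω => (((η v).cos : ℝ) : ℂ) + (((η v).sin : ℝ) : ℂ) * Complex.I := by
    funext η
    apply Complex.ext <;> simp [sp]
  rw [e]
  exact (Complex.continuous_ofReal.comp h1).add
    ((Complex.continuous_ofReal.comp h2).mul continuous_const)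

lemma xb1_mem {Λ : Finset V} {e : Sym2 V} : e ∈ Ed Λ ↔ ∃ v ∈ Λ,
    e = s(v, (v.1 + 1, v.2)) ∨ e = s(v, (v.1 - 1, v.2)) ∨ e = s(v, (v.1, v.2 + 1)) ∨
      e = s(v, (v.1, v.2 - 1)) := by
  simp only [Ed, mem_biUnion, mem_insert, mem_singleton]

lemma ham_ip (β : ℝ) (Λ : Finset V) (θ : Ω) : Ham β Λ θ = ∑ e ∈ Ed Λ, β * ip (sp θ) e := by
  unfold MP_b591f0_mp.Ham
  refine Finset.sum_bij (fun b _ => s(b.1, b.2)) ?_ ?_ ?_ ?_
  · rintro ⟨⟨x1, x2⟩, ⟨y1, y2⟩⟩ hb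
    obtain ⟨hn, hm⟩ := MP_b591f0_mp.mem_Ed.1 hb
    simp only [MP_b591f0_mp.nn, Prod.mk_add_mk, Prod.mk.injEq, add_zero] at hn
    rw [xb1_mem]
    rcases hn with ⟨rfl, rfl⟩ | ⟨rfl, rfl⟩
    · rcases hm with hm | hm
      · exact ⟨_, hm, Or.inl rfl⟩
      · refine ⟨_, hm, Or.inr (Or.inl ?_)⟩
        simp [Sym2.eq_swap]
    · rcases hm with hm | hm
      · exact ⟨_, hm, Or.inr (Or.inr (Or.inl rfl))⟩
      · refine ⟨_, hm, Or.inr (Or.inr (Or.inr ?_))⟩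
        simp [Sym2.eq_swap]
  · rintro ⟨⟨x1, x2⟩, ⟨y1, y2⟩⟩ hb ⟨⟨z1, z2⟩, ⟨w1, w2⟩⟩ hc h
    obtain ⟨hn, -⟩ := MP_b591f0_mp.mem_Ed.1 hb
    obtain ⟨hn', -⟩ := MP_b591f0_mp.mem_Ed.1 hc
    simp only [MP_b591f0_mp.nn, Prod.mk_add_mk, Prod.mk.injEq, add_zero] at hn hn'
    simp only [Sym2.eq_iff, Prod.mk.injEq] at h
    simp only [Prod.mk.injEq]
    omega
  · intro e he
    obtain ⟨⟨x1, x2⟩, hv, h⟩ := xb1_mem.1 he
    rcases h with rfl | rfl | rfl | rfl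
    · refine ⟨((x1, x2), (x1 + 1, x2)), MP_b591f0_mp.mem_Ed.2 ⟨?_, Or.inl hv⟩, rfl⟩
      left; simp
    · refine ⟨((x1 - 1, x2), (x1, x2)), MP_b591f0_mp.mem_Ed.2 ⟨?_, Or.inr hv⟩, Sym2.eq_swap⟩
      left; simp
    · refine ⟨((x1, x2), (x1, x2 + 1)), MP_b591f0_mp.mem_Ed.2 ⟨?_, Or.inl hv⟩, rfl⟩
      right; simp
    · refine ⟨((x1, x2 - 1), (x1, x2)), MP_b591f0_mp.mem_Ed.2 ⟨?_, Or.inr hv⟩, Sym2.eq_swap⟩
      right; simp
  · intro b _
    rw [MP_b591f0_mp.cos_sub']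
    simp [ip, sp]

end

end Pool.Agent.XYU

end

section

open Finset Real Filter Topology

namespace Pool.Agent.XYU

open Classical
open Pool.Agent.MP_b591f0_mp (Ω gam nu Ham ss av pw)

noncomputable section

variable {β : ℝ}

lemma xb2_unif (Λ : Finset V) {F : Ω → ℝ} (hF : Continuous F) {ε : ℝ} (hε : 0 < ε) :
    ∃ δ > 0, ∀ (θ : Ω) (d : Λ → ℝ), (∀ v, |d v| ≤ δ) →
      |F (fun v => if h : v ∈ Λ then θ v + (d ⟨v, h⟩ : ℝ) else θ v) - F θ| ≤ ε := by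
  let Φ : (Λ → ℝ) × Ω → ℝ := fun z =>
    |F (fun v => if h : v ∈ Λ then z.2 v + (z.1 ⟨v, h⟩ : ℝ) else z.2 v) - F z.2|
  have hΦ : Continuous Φ := by
    refine ((hF.comp (continuous_pi fun v => ?_)).sub (hF.comp continuous_snd)).abs
    split_ifs with h
    · exact ((continuous_apply v).comp continuous_snd).add
        (Real.Angle.continuous_coe.comp ((continuous_apply _).comp continuous_fst))
    · exact (continuous_apply v).comp continuous_snd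
  have h := (isCompact_univ (X := Ω)).eventually_forall_of_forall_eventually (x₀ := (0 : Λ → ℝ))
    (P := fun d θ => Φ (d, θ) < ε) fun θ _ =>
      hΦ.continuousAt.eventually_lt continuousAt_const (by simpa [Φ] using hε)
  obtain ⟨δ, hδ, h⟩ := Metric.eventually_nhds_iff.1 h
  refine ⟨δ / 2, half_pos hδ, fun θ d hd => (h (y := d) ?_ θ (Set.mem_univ _)).le⟩
  rw [dist_zero_right]
  exact lt_of_le_of_lt ((pi_norm_le_iff_of_nonneg (half_pos hδ).le).2 hd) (half_lt_self hδ)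

lemma xb2_shift {q : ℕ} (hq : 0 < q) (a : Real.Angle) :
    ∃ (σ : Equiv.Perm (Fin (4 * q))) (d : ℝ), |d| ≤ π / (2 * q) ∧ ∀ m : Fin (4 * q),
      a + (((((m : ℕ) : ℝ) + 1 / 2) * π / (2 * q) : ℝ) : Real.Angle) =
        (((((σ m : ℕ) : ℝ) + 1 / 2) * π / (2 * q) : ℝ) : Real.Angle) + (d : ℝ) := by
  have hc : 0 < π / (2 * q) := by positivity
  obtain ⟨σ, hσ⟩ := af2_shift hq ⌊a.toReal / (π / (2 * q))⌋
  refine ⟨σ, a.toReal - ⌊a.toReal / (π / (2 * q))⌋ * (π / (2 * q)), ?_, fun m => ?_⟩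
  · have h1 := (le_div_iff₀ hc).1 (Int.floor_le (a.toReal / (π / (2 * q))))
    have h2 := (div_lt_iff₀ hc).1 (Int.lt_floor_add_one (a.toReal / (π / (2 * q))))
    rw [abs_le]
    constructor <;> nlinarith
  · have h := hσ m
    unfold clk at h
    rw [← Complex.exp_add, Complex.exp_eq_exp_iff_exists_int] at h
    obtain ⟨n, h⟩ := h
    have h' := congrArg Complex.im h
    simp only [Complex.mul_im, Complex.ofReal_re, Complex.I_im, Complex.ofReal_im, Complex.I_re,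
      Complex.add_im, Complex.intCast_re, Complex.intCast_im, Complex.mul_re, Complex.re_ofNat,
      Complex.im_ofNat, mul_one, mul_zero, zero_mul, add_zero, sub_zero] at h'
    conv_lhs => rw [← a.coe_toReal]
    rw [← Real.Angle.coe_add, ← Real.Angle.coe_add, Real.Angle.angle_eq_iff_two_pi_dvd_sub]
    refine ⟨-n, ?_⟩
    rw [h']
    push_cast
    ring

lemma riemann (Λ : Finset V) (η : Ω) {F : Ω → ℝ} (hF : Continuous F) :
    Tendsto (fun q : ℕ => (∑ m : Λ → Fin (4 * q), F (grid q Λ η m)) / (4 * q : ℝ) ^ #Λ) atTop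
      (𝓝 (nu Λ F η)) := by
  rw [Metric.tendsto_atTop]
  intro ε hε
  obtain ⟨δ, hδ, h⟩ := xb2_unif Λ hF (half_pos hε)
  obtain ⟨n, hn⟩ := exists_nat_gt (π / δ)
  refine ⟨n + 1, fun q hq => ?_⟩
  have q0 : 0 < q := by omega
  have q1 : (n : ℝ) + 1 ≤ q := by exact_mod_cast hq
  have hd : π / (2 * q) ≤ δ := by
    rw [div_le_iff₀ (by positivity)]
    have := (div_lt_iff₀ hδ).1 hn
    nlinarith [Nat.cast_nonneg (α := ℝ) n]
  set N : ℝ := (4 * q : ℝ) ^ #Λ with hN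
  have N0 : 0 < N := by positivity
  have hcard : (Fintype.card (Λ → Fin (4 * q)) : ℝ) = N := by simp [hN]
  have c : ∀ m : Λ → Fin (4 * q), Continuous fun σ : Ω => F (pw Λ (σ + grid q Λ η m) η) :=
    fun m => by fun_prop
  have e1 : av (fun σ : Ω => ∑ m : Λ → Fin (4 * q), F (pw Λ (σ + grid q Λ η m) η)) =
      N * nu Λ F η := by
    rw [MP_b591f0_mp.av_sum _ fun m _ => c m, ← hcard]
    have : ∀ m : Λ → Fin (4 * q), av (fun σ : Ω => F (pw Λ (σ + grid q Λ η m) η)) = nu Λ F η :=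
      fun m => MP_b591f0_mp.av_shift (grid q Λ η m) fun σ => F (pw Λ σ η)
    simp [this]
  have e2 : ∀ σ : Ω, |∑ m : Λ → Fin (4 * q), F (pw Λ (σ + grid q Λ η m) η) -
      ∑ m : Λ → Fin (4 * q), F (grid q Λ η m)| ≤ N * (ε / 2) := fun σ => by
    choose s d hd' hs using fun v : Λ => xb2_shift q0 (σ v)
    rw [← (Equiv.piCongrRight s).sum_comp fun m => F (grid q Λ η m), ← sum_sub_distrib]
    refine (abs_sum_le_sum_abs _ _).trans ?_
    rw [← hcard, ← nsmul_eq_mul, ← card_univ]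
    refine sum_le_card_nsmul _ _ _ fun m _ => ?_
    refine le_of_eq_of_le ?_
      (h (grid q Λ η (Equiv.piCongrRight s m)) d fun v => (hd' v).trans hd)
    congr 3
    funext v
    by_cases hv : v ∈ Λ
    · simp only [pw, grid, hv, if_true, dif_pos, Pi.add_apply]
      exact hs ⟨v, hv⟩ _
    · simp [pw, grid, hv]
  have cs : Continuous fun σ : Ω => ∑ m : Λ → Fin (4 * q), F (pw Λ (σ + grid q Λ η m) η) :=
    continuous_finsetSum _ fun m _ => c m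
  have l1 := MP_b591f0_mp.av_mono cs continuous_const fun σ =>
    sub_le_iff_le_add.1 (abs_le.1 (e2 σ)).2
  have l2 := MP_b591f0_mp.av_mono continuous_const cs fun σ =>
    le_sub_iff_add_le.1 (abs_le.1 (e2 σ)).1
  rw [e1, MP_b591f0_mp.av_const] at l1 l2
  rw [Real.dist_eq, div_sub' N0.ne', abs_div, abs_of_pos N0, div_lt_iff₀ N0, abs_lt]
  constructor <;> nlinarith

end

end Pool.Agent.XYU

end

section

open Finset Real Filter Topology

namespace Pool.Agent.XYU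

open Classical
open Pool.Agent.MP_b591f0_mp (Ω gam nu Ham ss av pw)

noncomputable section

variable {β : ℝ}

lemma xb_spn (q : ℕ) (Λ : Finset V) (η : Ω) (m : Λ → Fin (4 * q)) :
    spn q Λ (sp η) m = sp (grid q Λ η m) := by
  funext v
  unfold spn sp grid
  split_ifs with h
  · unfold clk
    apply Complex.ext
    · rw [Complex.exp_ofReal_mul_I_re, Real.Angle.cos_coe]
    · rw [Complex.exp_ofReal_mul_I_im, Real.Angle.sin_coe]
  · rfl

lemma xb_zero : sp 0 = 1 := by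
  funext v
  apply Complex.ext <;> simp [sp]

lemma xb_norm (η : Ω) (v : V) : ‖sp η v‖ = 1 := by
  have h := Real.Angle.cos_sq_add_sin_sq (η v)
  have : ‖sp η v‖ ^ 2 = 1 := by
    rw [Complex.sq_norm, Complex.normSq_apply]
    change (η v).cos * (η v).cos + (η v).sin * (η v).sin = 1
    linarith
  exact (pow_eq_one_iff_of_nonneg (norm_nonneg _) two_ne_zero).1 this

lemma zs_lim (β : ℝ) (Λ : Finset V) (η : Ω) {G : (V → ℂ) → ℝ} (hG : Continuous G) :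
    Tendsto (fun q : ℕ => Zs β q Λ (Ed Λ) (sp η) G / (4 * q : ℝ) ^ #Λ) atTop
      (𝓝 (nu Λ (fun θ => G (sp θ) * exp (Ham β Λ θ)) η)) := by
  have hF : Continuous fun θ => G (sp θ) * exp (Ham β Λ θ) :=
    (hG.comp cont_sp).mul (continuous_exp.comp (MP_b591f0_mp.cont_Ham β Λ))
  refine (riemann Λ η hF).congr fun q => ?_
  congr 1
  unfold Zs
  refine sum_congr rfl fun m _ => ?_
  rw [xb_spn, ham_ip, mul_comm]

theorem fv1 (hβ : 0 ≤ β) {b : V × V} {K : ℕ} (h₁ : b.1 ∈ MP_b591f0_mp.box K)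
    (h₂ : b.2 ∈ MP_b591f0_mp.box K) {ε : ℝ} (hε : 0 < ε) : ∃ Q : Finset V, ∀ η : Ω,
      gam (MP_b591f0_mp.box K) (Ham β (MP_b591f0_mp.box K)) (ss b) 0 - ε ≤
        gam Q (Ham β Q) (ss b) η := by
  rw [box_bx] at h₁ h₂
  obtain ⟨L, q₀, h⟩ := fin hβ hε h₁ h₂
  refine ⟨bx 0 L, fun η => ?_⟩
  have hG : Continuous fun z : V → ℂ => (z b.1).im * (z b.2).im := by fun_prop
  have a1 := zs_lim β (bx 0 K) 0 hG
  have a2 := zs_lim β (bx 0 K) 0 (G := fun _ => 1) continuous_const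
  have a3 := zs_lim β (bx 0 L) η hG
  have a4 := zs_lim β (bx 0 L) η (G := fun _ => 1) continuous_const
  simp only [one_mul] at a2 a4
  rw [xb_zero] at a1 a2
  have p2 := MP_b591f0_mp.nu_pos (bx 0 K) 0 (MP_b591f0_mp.cont_Ham β (bx 0 K))
  rw [MP_b591f0_mp.le_gam _ _ (MP_b591f0_mp.cont_Ham β _), box_bx]
  refine le_of_tendsto_of_tendsto (((a1.div a2 p2.ne').sub_const ε).mul a4) a3 ?_
  filter_upwards [eventually_ge_atTop q₀, eventually_gt_atTop 0] with q hq hq0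
  have hq' : (0 : ℝ) < 4 * q := by positivity
  have k := h q hq (sp η) (xb_norm η)
  simp only [Pi.div_apply]
  rw [div_div_div_cancel_right₀ (pow_pos hq' _).ne', ← mul_div_assoc]
  exact div_le_div_of_nonneg_right k (pow_pos hq' _).le

end

end Pool.Agent.XYU

end
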