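import Pool.Agent.MP_b591f0_mp.Mg.XY_X1
import Pool.Agent.MP_b591f0_mp.Bridge

section

/-! Every state agrees with the limit of the plus states on continuous observables. The steps
after `N1_bond` repeat those of the files `Lim` and `Good`, with `never` in place of `rarely`. -/

open MeasureTheory Real Finset Filter Topology

namespace Pool.Agent.MP_b591f0_mp

open scoped Classical

variable {β : ℝ} {ν : Measure Ω} {f g : Ω → ℝ}

/-- a property of states and sites that never holds -/
def Nev (β : ℝ) (p : Measure Ω → V → Prop) : Prop := ∀ ν x, DLR β ν → ¬ p ν x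

lemma Nev.mono {p q : Measure Ω → V → Prop} (hq : Nev β q)
    (h : ∀ ν x, DLR β ν → p ν x → q ν x) : Nev β p := fun ν x hν hp => hq ν x hν (h ν x hν hp)

lemma Nev.or {p q : Measure Ω → V → Prop} (hp : Nev β p) (hq : Nev β q) :
    Nev β fun ν x => p ν x ∨ q ν x := fun ν x hν h => h.elim (hp ν x hν) (hq ν x hν)

lemma nev_false (β : ℝ) : Nev β fun _ _ => False := fun _ _ _ h => h

/-- one-sided closeness for a character -/
def N1 (β : ℝ) (χ : Ch) : Prop := ∀ ε > 0, Nev β fun ν x =>
  ε < lm β (fun θ => (χ θ).cos) - ex ν x fun θ => (χ θ).cos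

lemma N1_bond (hβ : 0 < β) (b : V × V) : N1 β (ev b.1 - ev b.2) := fun ε hε ν x hν hx => by
  obtain ⟨j₁, h₁⟩ := exists_box b.1
  obtain ⟨j₂, h₂⟩ := exists_box b.2
  have h₁' := box_mono (le_max_left j₁ j₂) h₁
  have h₂' := box_mono (le_max_right j₁ j₂) h₂
  have hχ : ∀ (g : Ω) (a : A), (∀ x ∈ box (max j₁ j₂), g x = a) →
      (ev b.1 + ev b.2) g = (2 : ℤ) • a := fun g a h => by simp [h _ h₁', h _ h₂', two_zsmul]
  obtain ⟨K₀, hK₀⟩ := mw hβ.le _ _ two_ne_zero hχ (show 0 < ε / 8 by positivity)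
  obtain ⟨K, ⟨k1, k2⟩, k3⟩ := (((ev_ge K₀).and (ev_ge (max j₁ j₂))).and
    ((tend β (f := fun θ => ((ev b.1 - ev b.2) θ).cos) (by fun_prop)).eventually
      (lt_mem_nhds (sub_lt_self _ (show 0 < ε / 8 by positivity))))).exists
  obtain ⟨Q, hQ⟩ := XYU.fv1 hβ.le (box_mono k2 h₁') (box_mono k2 h₂')
    (show 0 < ε / 8 by positivity)
  have := hν.1
  have i := integral_mono (μ := ν) (integrable_const _)
    (cint ((cont_gam Q (cont_Ham β Q) (f := ss b) (by fun_prop)).comp (cont_tr x)) ν)
    fun η => hQ (tr x η)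
  have e : ss b = fun θ => 1 / 2 * ((ev b.1 - ev b.2) θ).cos +
      -(1 / 2) * ((ev b.1 + ev b.2) θ - 0).cos := by
    ext θ; simp [ss, cos_sub', Angle.cos_add]; ring
  have i' : gam (box K) (Ham β (box K)) (ss b) 0 - ε / 8 ≤ ex ν x (ss b) := by
    rw [ex_eq hν x Q (by fun_prop)]
    simpa using i
  rw [e, ex_add hν x (by fun_prop) (by fun_prop), ex_mul, ex_mul,
    NZ.ex hβ.le ⟨_, 2, two_ne_zero, hχ⟩ hν, gam_add _ _ (cont_Ham _ _) (by fun_prop) (by fun_prop),
    gam_mul, gam_mul] at i'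
  have := hK₀ K k1 0 0
  simp only [pl] at k3
  linarith

lemma N1.step (hβ : 0 < β) {m n : Ch} (hm : N1 β m) (hn : N1 β n)
    (h0 : 0 < lm β fun θ => (n θ).cos) : N1 β (m + n) ∧ N1 β (m - n) := by
  set κ := lm β fun θ => (n θ).cos
  have e : (fun θ => (m θ).cos * (n θ).cos) =
      fun θ => 1 / 2 * ((m + n) θ).cos + 1 / 2 * ((m - n) θ).cos := by
    ext θ; simp [cos_sub', Angle.cos_add]; ring
  have main : ∀ ε > 0, Nev β fun ν x =>
      ε < (lm β (fun θ => ((m + n) θ).cos) - ex ν x fun θ => ((m + n) θ).cos) +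
        (lm β (fun θ => ((m - n) θ).cos) - ex ν x fun θ => ((m - n) θ).cos) := fun ε hε => by
    have a0 : 0 < κ * ε / 8 := by positivity
    refine ((hm _ (sq_pos_of_pos a0)).or (hn _ a0)).mono fun ν x hν h => ?_
    by_contra h'
    obtain ⟨h1, h2⟩ := not_or.1 h'
    have k := key1 hβ.le hν x m n 0 (-(κ * ε / 8))
    have k2 := ex_le_lm hβ.le hν x n 0
    have k3 := abs_le.1 (abs_lm_le (β := β) (f := fun θ => (m θ).cos * (n θ).cos) (by fun_prop)
      (c := 1) fun θ => by
        rw [abs_mul]; exact mul_le_one₀ (abs_cos_le _) (abs_nonneg _) (abs_cos_le _))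
    simp only [sub_zero] at k k2
    have k4 : ex ν x (fun θ => (m θ).cos * (n θ).cos) = 1 / 2 * ex ν x (fun θ => ((m + n) θ).cos) +
        1 / 2 * ex ν x fun θ => ((m - n) θ).cos := by
      rw [e, ex_add hν x (by fun_prop) (by fun_prop), ex_mul, ex_mul]
    have k5 : lm β (fun θ => (m θ).cos * (n θ).cos) = 1 / 2 * lm β (fun θ => ((m + n) θ).cos) +
        1 / 2 * lm β fun θ => ((m - n) θ).cos := by
      rw [e, lm_add (by fun_prop) (by fun_prop), lm_mul _ (by fun_prop), lm_mul _ (by fun_prop)]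
    set L := lm β fun θ => (m θ).cos * (n θ).cos
    set X := ex ν x fun θ => (m θ).cos * (n θ).cos
    set Cn := ex ν x fun θ => (n θ).cos
    have k6 : ε / 2 < L - X := by linarith
    have k7 : κ * ε / 2 - κ * ε / 8 < L * Cn - X * κ := by
      have : L * Cn - X * κ = κ * (L - X) - L * (κ - Cn) := by ring
      nlinarith [mul_lt_mul_of_pos_left k6 h0]
    nlinarith [mul_lt_mul_of_pos_left k7 a0]
  constructor <;> refine fun ε hε => (main ε hε).mono fun ν x hν h => ?_
  · have := ex_le_lm hβ.le hν x (m - n) 0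
    simp only [sub_zero] at this; linarith
  · have := ex_le_lm hβ.le hν x (m + n) 0
    simp only [sub_zero] at this; linarith

lemma N1_of_bonds (hβ : 0 < β) {χ : Ch} (h : χ ∈ Bonds) : N1 β χ := by
  have k : ∀ m, N1 β m → N1 β (m + χ) ∧ N1 β (m - χ) := by
    induction h using AddSubgroup.closure_induction with
    | mem χ h => obtain ⟨b, hb, rfl⟩ := h; exact fun m hm => hm.step hβ (N1_bond hβ b) (lm_pos hβ hb)
    | zero => exact fun m hm => by simpa using hm
    | add a b _ _ ha hb =>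
      exact fun m hm => ⟨by rw [← add_assoc]; exact (hb _ (ha m hm).1).1,
        by rw [← sub_sub]; exact (hb _ (ha m hm).2).2⟩
    | neg a _ ha =>
      exact fun m hm => ⟨by rw [← sub_eq_add_neg]; exact (ha m hm).2,
        by rw [sub_neg_eq_add]; exact (ha m hm).1⟩
  have z : N1 β 0 := fun ε hε => (nev_false β).mono fun ν x hν h => by
    have := hν.1
    have e : ∀ θ : Ω, (0 : Ch) θ = 0 := fun _ => rfl
    simp [e, lm_const, ex] at h
    linarith
  simpa using (k 0 z).1

/-- the translates of the state agree with the limit state at all sites -/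
def NG (β : ℝ) (f : Ω → ℝ) : Prop := ∀ ε > 0, Nev β fun ν x => ε < |ex ν x f - lm β f|

lemma NG.add (hf : NG β f) (hg : NG β g) (cf : Continuous f) (cg : Continuous g) :
    NG β fun θ => f θ + g θ := fun ε hε =>
  ((hf _ (half_pos hε)).or (hg _ (half_pos hε))).mono fun ν x hν h => by
    rw [ex_add hν x cf cg, lm_add cf cg, add_sub_add_comm] at h
    by_contra h'
    linarith [abs_add_le (ex ν x f - lm β f) (ex ν x g - lm β g), not_lt.1 (not_or.1 h').1,
      not_lt.1 (not_or.1 h').2]

lemma NG.mul (hf : NG β f) (cf : Continuous f) (c : ℝ) : NG β fun θ => c * f θ :=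
  fun ε hε => (hf (ε / (|c| + 1)) (by positivity)).mono fun ν x _ h => by
    rw [ex_mul, lm_mul _ cf, ← mul_sub, abs_mul] at h
    rw [div_lt_iff₀ (by positivity)]
    nlinarith [abs_nonneg (ex ν x f - lm β f)]

lemma ng_char (hβ : 0 < β) {χ : Ch} (h : χ ∈ Bonds) (d : ℤ) (ψ : A) :
    NG β fun θ => ((χ + d • ev 0) θ - ψ).cos := by
  by_cases hd : d = 0
  · subst hd
    have h1 := N1_of_bonds hβ h
    have e : ∀ ψ : A, (fun θ => (χ θ - ψ).cos) =
        fun θ => ψ.cos * (χ θ).cos + ψ.sin * (χ θ).sin := fun ψ => by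
      ext θ; rw [cos_sub']; ring
    simp only [zero_smul, add_zero, e]
    refine (NG.mul (fun ε hε => (h1 ε hε).mono fun ν x hν h => ?_) (by fun_prop) _).add
      (NG.mul (fun ε hε => ?_) (by fun_prop) _) (by fun_prop) (by fun_prop)
    · have := ex_le_lm hβ.le hν x χ 0
      simp only [sub_zero] at this
      rwa [abs_of_nonpos (sub_nonpos.2 this), neg_sub] at h
    · set t := min 1 (ε / 2)
      have t0 : 0 < t := lt_min one_pos (half_pos hε)
      have t1 : t ≤ 1 := min_le_left _ _
      have t2 : t ≤ ε / 2 := min_le_right _ _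
      refine (h1 (t * ε / 4) (by positivity)).mono fun ν x hν h => ?_
      rw [lm_sin, sub_zero] at h
      have k := fun s : ℝ => ex_le_lm hβ.le hν x χ s
      simp only [e] at k
      have k1 := k t
      have k2 := k (-t)
      rw [ex_add hν x (by fun_prop) (by fun_prop), ex_mul, ex_mul] at k1 k2
      simp only [Angle.cos_coe, Angle.sin_coe, cos_neg, sin_neg] at k1 k2
      have c1 := one_sub_sq_div_two_le_cos (x := t)
      have c2 := cos_le_one t
      have c3 : t / 2 ≤ sin t := by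
        have := sin_gt_sub_cube t0
        nlinarith [mul_le_one₀ t1 t0.le t1]
      have c4 := (abs_le.1 (abs_ex_le (f := fun θ => (χ θ).cos) hν x fun θ => abs_cos_le _)).2
      set C := ex ν x fun θ => (χ θ).cos
      set S := ex ν x fun θ => (χ θ).sin
      have c5 : C - t ^ 2 / 2 ≤ cos t * C := by nlinarith
      have c6 : t / 2 * ε ≤ sin t * |S| := mul_le_mul c3 h.le hε.le (by linarith)
      have c7 : sin t * |S| + cos t * C ≤ lm β fun θ => (χ θ).cos := by
        rcases abs_cases S with h | h <;> rw [h.1] <;> linarith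
      have c8 : t / 2 * ε < sin t * |S| := lt_of_lt_of_le (mul_lt_mul_of_pos_left h (half_pos t0))
        (mul_le_mul_of_nonneg_right c3 (abs_nonneg _))
      nlinarith
  · obtain ⟨j, hj⟩ := bonds_loc h
    have nz : NZ (χ + d • ev 0) := ⟨j, d, hd, fun g a hg => by
      rw [Ch.add_apply, hj g a hg, zero_add, ← hg 0 (by simp [mem_box])]; exact zsmul_ev d g⟩
    exact fun ε hε => (nev_false β).mono fun ν x hν h => by
      rw [nz.ex hβ.le hν, nz.lm hβ.le] at h
      simp at h; linarith

theorem ng_all (hβ : 0 < β) (hf : Continuous f) : NG β f := by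
  let S : Set C(Ω, ℝ) := {F | ∃ χ ∈ Bonds, ∃ (d : ℤ) (ψ : A), ⇑F = fun θ => ((χ + d • ev 0) θ - ψ).cos}
  have mk : ∀ χ ∈ Bonds, ∀ (d : ℤ) (ψ : A),
      (⟨fun θ => ((χ + d • ev 0) θ - ψ).cos, by fun_prop⟩ : C(Ω, ℝ)) ∈ Submodule.span ℝ S :=
    fun χ h d ψ => Submodule.subset_span ⟨χ, h, d, ψ, rfl⟩
  let 𝒜 : Subalgebra ℝ C(Ω, ℝ) := (Submodule.span ℝ S).toSubalgebra
    (by convert mk 0 (zero_mem _) 0 0 using 1; ext θ; simp) (by
      intro F G hF hG
      induction hF using Submodule.span_induction with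
      | zero => simp
      | add a b _ _ ha hb => rw [add_mul]; exact add_mem ha hb
      | smul c a _ ha => rw [smul_mul_assoc]; exact Submodule.smul_mem _ c ha
      | mem F hF =>
        induction hG using Submodule.span_induction with
        | zero => simp
        | add a b _ _ ha hb => rw [mul_add]; exact add_mem ha hb
        | smul c a _ ha => rw [mul_smul_comm]; exact Submodule.smul_mem _ c ha
        | mem G hG =>
          obtain ⟨χ, h, d, ψ, e⟩ := hF
          obtain ⟨χ', h', d', ψ', e'⟩ := hG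
          convert Submodule.smul_mem _ (1 / 2 : ℝ) (add_mem (mk _ (add_mem h h') (d + d') (ψ + ψ'))
            (mk _ (sub_mem h h') (d - d') (ψ - ψ')))
          ext θ
          have a1 : (χ + χ' + (d + d') • ev 0) θ - (ψ + ψ') =
              ((χ + d • ev 0) θ - ψ) + ((χ' + d' • ev 0) θ - ψ') := by
            rw [show χ + χ' + (d + d') • ev 0 = (χ + d • ev 0) + (χ' + d' • ev 0) by module,
              Ch.add_apply]; abel
          have a2 : (χ - χ' + (d - d') • ev 0) θ - (ψ - ψ') =
              ((χ + d • ev 0) θ - ψ) - ((χ' + d' • ev 0) θ - ψ') := by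
            rw [show χ - χ' + (d - d') • ev 0 = (χ + d • ev 0) - (χ' + d' • ev 0) by module,
              Ch.sub_apply]; abel
          simp only [ContinuousMap.mul_apply, e, e', ContinuousMap.smul_apply,
            ContinuousMap.add_apply, ContinuousMap.coe_mk, a1, a2, smul_eq_mul]
          rw [Angle.cos_add, cos_sub' ((χ + d • ev 0) θ - ψ)]; ring)
  have sep : 𝒜.SeparatesPoints := fun θ θ' hne => by
    obtain ⟨x, hx⟩ := Function.ne_iff.1 hne
    refine ⟨_, ⟨_, mk _ (ev_sub_mem x) 1 (θ x), rfl⟩, fun h => hx ?_⟩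
    simp only [one_smul, sub_add_cancel, ContinuousMap.coe_mk, ev_apply, sub_self] at h
    rcases Angle.cos_eq_iff_eq_or_eq_neg.1 h with h | h
    · exact (sub_eq_zero.1 h.symm).symm
    · exact (sub_eq_zero.1 (neg_eq_zero.1 h.symm)).symm
  have gd : ∀ F ∈ Submodule.span ℝ S, NG β F := fun F hF => by
    induction hF using Submodule.span_induction with
    | zero =>
      refine fun ε hε => (nev_false β).mono fun ν x _ h => ?_
      have : lm β (0 : C(Ω, ℝ)) = 0 := lm_const 0
      rw [this] at h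
      simp [ex] at h; linarith
    | add a b _ _ ha hb => exact ha.add hb a.continuous b.continuous
    | smul c a _ ha => exact ha.mul a.continuous c
    | mem F hF => obtain ⟨χ, h, d, ψ, e⟩ := hF; rw [e]; exact ng_char hβ h d ψ
  intro ε hε
  obtain ⟨G, hG⟩ := ContinuousMap.exists_mem_subalgebra_near_continuous_of_separatesPoints 𝒜 sep f
    hf (ε / 3) (by positivity)
  refine (gd G G.2 (ε / 3) (by positivity)).mono fun ν x hν h => ?_
  have cG := G.1.continuous
  have e : f = fun θ => G.1 θ + (f θ - G.1 θ) := by ext; ring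
  have b : ∀ θ, |f θ - G.1 θ| ≤ ε / 3 := fun θ => by rw [abs_sub_comm]; exact (hG θ).le
  rw [e, ex_add hν x cG (by fun_prop), lm_add cG (by fun_prop), add_sub_add_comm] at h
  have h1 := abs_ex_le hν x b
  have h2 := abs_lm_le (β := β) (f := fun θ => f θ - G.1 θ) (hf.sub cG) b
  have h3 := abs_add_le (ex ν x G.1 - lm β G.1)
    (ex ν x (fun θ => f θ - G.1 θ) - lm β fun θ => f θ - G.1 θ)
  have h4 := abs_sub (ex ν x (fun θ => f θ - G.1 θ)) (lm β fun θ => f θ - G.1 θ)
  linarith

theorem ex_lm (hβ : 0 < β) (hν : DLR β ν) (hf : Continuous f) (x : V) : ex ν x f = lm β f :=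
  eq_of_forall_dist_le fun ε hε => not_lt.1 (ng_all hβ hf ε hε ν x hν)

end Pool.Agent.MP_b591f0_mp

end

section

open MeasureTheory Real Finset Filter Topology

namespace Pool.Agent.MP_b591f0_mp

noncomputable section

/-! Uniqueness and existence of the Gibbs state.

`uniq`: by `local_obs` (with `x = 0`), `IsGibbs.dlr` and `ex_lm`, both measures give the same
integral `lm β G` to every bounded measurable function that depends on finitely many sites; apply
this to indicators of cylinder sets (`measurableCylinders`, `isPiSystem_measurableCylinders`,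
`generateFrom_measurableCylinders`, `ext_of_generate_finite`).
`gam_gam`: `Ham_sub`, `nu_nu` (compare `gam_le_of_sub`): on `pw Λ σ η'` the two energies differ by
a constant, so `nu Λ (f * exp (Ham Q)) η' = gam Λ (Ham Λ) f η' * nu Λ (exp (Ham Q)) η'`, and
`gam Λ _ f` is constant along `pw Λ · η'`.
`exists_dlr`: `lm β` is a positive normalised linear functional on `C(Ω, ℝ)` (`lm_add`, `lm_mul`,
`lm_const`, `tend`, `gam_mono`); the Riesz theorem (`RealRMK.rieszMeasure`,
`RealRMK.integral_rieszMeasure`, for `C_c(Ω, ℝ) →ₚ[ℝ] ℝ`) gives `ν` with `∫ f ∂ν = lm β f`; and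
`lm β (gam Λ _ f) = lm β f` by `gam_gam` for `Λ ⊆ box K`, `K` large (`exists_box`, `box_mono`).
`dlr_meas`: let `ρ (η, σ) = exp (Ham (pw Λ σ η)) / nu Λ (exp ∘ Ham) η` (continuous, positive) and
`ν' = ((ν.prod (hp Ω)).withDensity ρ).map fun z => pw Λ z.2 z.1`; by Fubini
`∫ F ∂ν' = ∫ gam Λ _ F η ∂ν` for bounded measurable `F`; `ν' = ν` by
`ext_of_forall_integral_eq_of_IsFiniteMeasure` and `DLR`.
`exists_gibbs`: `μ = ν.map fun θ y => rep (θ y)` with the measurable section `rep` of `local_obs`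
(`(rep a : A) = a`); for `F θ = f (rep ∘ θ)` one has `f (patch Λ σ ω) = F (pm (patch Λ σ ω))` for
`ω = rep ∘ η` and almost every `σ`; use `bridge`, `weight_eq` as in `IsGibbs.eq`, and `dlr_meas`.
To apply `integral_map` to the right side one needs its measurability in `ω`
(`StronglyMeasurable.integral_prod_right` or `_left`, `Measurable.div`). -/

variable {β : ℝ}

theorem uniq (hβ : 0 < β) {μ μ' : Measure (V → ℝ)} (h : IsGibbs β μ) (h' : IsGibbs β μ') :
    μ = μ' := by
  have h1 := h.1
  have h2 := h'.1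
  refine ext_of_generate_finite (measurableCylinders fun _ : V => ℝ)
    generateFrom_measurableCylinders.symm isPiSystem_measurableCylinders (fun t ht => ?_) (by simp)
  obtain ⟨s, S, hS, rfl⟩ := (mem_measurableCylinders t).1 ht
  have hm : MeasurableSet (cylinder s S) := MeasurableSet.cylinder (α := fun _ : V => ℝ) s hS
  obtain ⟨G, cG, hG⟩ := local_obs β (f := (cylinder s S).indicator fun _ => (1 : ℝ))
    (measurable_const.indicator hm)
    ⟨1, fun ω => by by_cases hω : ω ∈ cylinder s S <;> simp [hω]⟩ s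
    (dependsOn_cylinder_indicator_const (α := fun _ : V => ℝ) S 1)
  have e1 := (hG μ h 0).trans (ex_lm hβ h.dlr cG 0)
  have e2 := (hG μ' h' 0).trans (ex_lm hβ h'.dlr cG 0)
  simp only [add_zero] at e1 e2
  have e3 := e1.trans e2.symm
  rw [integral_indicator_const _ hm, integral_indicator_const _ hm, smul_eq_mul, smul_eq_mul,
    mul_one, mul_one] at e3
  exact (measureReal_eq_measureReal_iff (measure_ne_top _ _) (measure_ne_top _ _)).1 e3

end

end Pool.Agent.MP_b591f0_mp

end

section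

open MeasureTheory Real Finset Filter Topology

namespace Pool.Agent.MP_b591f0_mp

noncomputable section

variable {β : ℝ}

lemma xd2_pw_pw (Λ : Finset V) (σ τ η : Ω) : pw Λ σ (pw Λ τ η) = pw Λ σ η := by
  ext x
  by_cases h : x ∈ Λ <;> simp [pw, h]

lemma xd2_gam_pw (Λ : Finset V) (H f : Ω → ℝ) (τ η : Ω) : gam Λ H f (pw Λ τ η) = gam Λ H f η := by
  simp only [gam, nu, xd2_pw_pw]

lemma xd2_key (β : ℝ) {Λ Q : Finset V} (h : Λ ⊆ Q) (f : Ω → ℝ) (η : Ω) :
    nu Λ (fun θ => gam Λ (Ham β Λ) f θ * exp (Ham β Q θ)) η =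
      nu Λ (fun θ => f θ * exp (Ham β Q θ)) η := by
  obtain ⟨κ, hκ⟩ := Ham_sub β h η
  have e1 : nu Λ (fun θ => gam Λ (Ham β Λ) f θ * exp (Ham β Q θ)) η =
      (gam Λ (Ham β Λ) f η * exp κ) * nu Λ (fun θ => exp (Ham β Λ θ)) η := by
    rw [← nu_mul]
    refine congrArg av (funext fun σ => ?_)
    simp only [xd2_gam_pw, hκ, exp_add]
    ring
  have e2 : nu Λ (fun θ => f θ * exp (Ham β Q θ)) η =
      exp κ * nu Λ (fun θ => f θ * exp (Ham β Λ θ)) η := by
    rw [← nu_mul]
    refine congrArg av (funext fun σ => ?_)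
    simp only [hκ, exp_add]
    ring
  have e3 := (nu_pos Λ η (cont_Ham β Λ)).ne'
  rw [e1, e2, gam]
  field_simp

lemma gam_gam (β : ℝ) {Λ Q : Finset V} (h : Λ ⊆ Q) {f : Ω → ℝ} (hf : Continuous f) (η : Ω) :
    gam Q (Ham β Q) (gam Λ (Ham β Λ) f) η = gam Q (Ham β Q) f η := by
  have c1 := cont_gam Λ (cont_Ham β Λ) hf
  rw [gam, gam, nu_nu Λ η h (by fun_prop),
    nu_nu Λ η h (F := fun θ => f θ * exp (Ham β Q θ)) (by fun_prop)]
  congr 2
  exact funext fun η' => xd2_key β h f η'

lemma xd2_box (Λ : Finset V) : ∃ K, Λ ⊆ box K := by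
  choose j hj using exists_box
  exact ⟨Λ.sup j, fun x hx => box_mono (Finset.le_sup hx) (hj x)⟩

lemma xd2_lm_gam (β : ℝ) (Λ : Finset V) {f : Ω → ℝ} (hf : Continuous f) :
    lm β (gam Λ (Ham β Λ) f) = lm β f := by
  obtain ⟨K₀, hK₀⟩ := xd2_box Λ
  refine tendsto_nhds_unique (tend β (cont_gam Λ (cont_Ham β Λ) hf)) ((tend β hf).congr' ?_)
  exact (ev_ge K₀).mono fun K hK => (gam_gam β (hK₀.trans (box_mono hK)) hf 0).symm

lemma xd2_lm_nonneg (β : ℝ) {f : Ω → ℝ} (hf : Continuous f) (h : ∀ θ, 0 ≤ f θ) : 0 ≤ lm β f :=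
  ge_of_tendsto' (tend β hf) fun K => by
    have := gam_mono (box K) 0 (cont_Ham β (box K)) (continuous_const (y := (0 : ℝ))) hf h
    rwa [gam_const _ _ (cont_Ham β _)] at this

/-- the limit state as a positive linear functional -/
def xd2_fun (β : ℝ) : CompactlySupportedContinuousMap Ω ℝ →ₚ[ℝ] ℝ :=
  PositiveLinearMap.mk₀
    { toFun := fun f => lm β f
      map_add' := fun f g => lm_add (map_continuous f) (map_continuous g)
      map_smul' := fun c f => lm_mul c (map_continuous f) }
    fun f hf => xd2_lm_nonneg β (map_continuous f) fun θ => hf θ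

lemma xd2_int (β : ℝ) {f : Ω → ℝ} (hf : Continuous f) :
    ∫ θ, f θ ∂(RealRMK.rieszMeasure (xd2_fun β)) = lm β f :=
  RealRMK.integral_rieszMeasure (xd2_fun β) ⟨⟨f, hf⟩, HasCompactSupport.of_compactSpace f⟩

theorem exists_dlr (β : ℝ) : ∃ ν : Measure Ω, DLR β ν := by
  refine ⟨RealRMK.rieszMeasure (xd2_fun β), ⟨?_⟩, fun Λ f hf => ?_⟩
  · have h1 := xd2_int β (f := fun _ => (1 : ℝ)) continuous_const
    rw [lm_const, integral_const, smul_eq_mul, mul_one, measureReal_def] at h1
    exact (ENNReal.toReal_eq_one_iff _).1 h1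
  · rw [xd2_int β hf, xd2_int β (cont_gam Λ (cont_Ham β Λ) hf), xd2_lm_gam β Λ hf]

end

end Pool.Agent.MP_b591f0_mp

end

section

open MeasureTheory Real Finset Filter Topology

namespace Pool.Agent.MP_b591f0_mp

noncomputable section

variable {β : ℝ}

theorem dlr_meas {ν : Measure Ω} (hν : DLR β ν) (Λ : Finset V) {F : Ω → ℝ} (hF : Measurable F)
    (hb : ∃ C : ℝ, ∀ θ, |F θ| ≤ C) : ∫ θ, F θ ∂ν = ∫ η, gam Λ (Ham β Λ) F η ∂ν := by
  have := hν.1
  have hH := cont_Ham β Λ
  let T : Ω × Ω → Ω := fun z => pw Λ z.2 z.1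
  have hT : Continuous T := cont_pw Λ continuous_snd continuous_fst
  let ρ : Ω × Ω → ℝ := fun z => exp (Ham β Λ (T z)) / nu Λ (fun θ => exp (Ham β Λ θ)) z.1
  have hρ : Continuous ρ := (by fun_prop : Continuous fun z => exp (Ham β Λ (T z))).div
    ((cont_nu Λ (by fun_prop)).comp continuous_fst) fun z => (nu_pos Λ z.1 hH).ne'
  have h0 : ∀ z, 0 ≤ ρ z := fun z => (div_pos (exp_pos _) (nu_pos Λ z.1 hH)).le
  have hi : Integrable ρ (ν.prod (hp Ω)) := cint hρ _
  have := isFiniteMeasure_withDensity_ofReal hi.hasFiniteIntegral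
  let ν' := ((ν.prod (hp Ω)).withDensity fun z => ENNReal.ofReal (ρ z)).map T
  have key : ∀ G : Ω → ℝ, Measurable G → (∃ C : ℝ, ∀ θ, |G θ| ≤ C) →
      ∫ θ, G θ ∂ν' = ∫ η, gam Λ (Ham β Λ) G η ∂ν := fun G hG ⟨C, hC⟩ => by
    rw [integral_map hT.measurable.aemeasurable hG.aestronglyMeasurable,
      integral_withDensity_eq_integral_toReal_smul hρ.measurable.ennreal_ofReal
        (Eventually.of_forall fun _ => ENNReal.ofReal_lt_top)]
    simp only [ENNReal.toReal_ofReal (h0 _), smul_eq_mul]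
    rw [integral_prod (fun z => ρ z * G (T z))
      (hi.mul_bdd (hG.comp hT.measurable).aestronglyMeasurable
      (Eventually.of_forall fun z => hC (T z)))]
    refine integral_congr_ae (Eventually.of_forall fun η => ?_)
    simp only [gam, nu, av, ρ, T]
    rw [← integral_div]
    exact integral_congr_ae (Eventually.of_forall fun σ => by ring)
  have e : ν' = ν := ext_of_forall_integral_eq_of_IsFiniteMeasure fun f => by
    rw [key f f.continuous.measurable ⟨‖f‖, f.norm_coe_le_norm⟩, hν.2 Λ f f.continuous]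
  rw [← key F hF hb, e]

end

end Pool.Agent.MP_b591f0_mp

end

section

open MeasureTheory Real Finset Filter Topology

namespace Pool.Agent.MP_b591f0_mp

noncomputable section

variable {β : ℝ}

lemma xd_patch (Λ : Finset V) :
    Measurable fun z : (V → ℝ) × (Λ → ℝ) => patch Λ z.2 z.1 := by
  refine measurable_pi_lambda _ fun x => ?_
  unfold patch
  split_ifs
  · exact (measurable_pi_apply _).comp measurable_snd
  · exact (measurable_pi_apply _).comp measurable_fst

lemma xd_int (Λ : Finset V) {g : (V → ℝ) → ℝ} (hg : Measurable g) :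
    Measurable fun ω : V → ℝ => ∫ σ, g (patch Λ σ ω) ∂(ref Λ) :=
  ((hg.comp (xd_patch Λ)).stronglyMeasurable.integral_prod_right' (ν := ref Λ)).measurable

theorem exists_gibbs (β : ℝ) : ∃ μ : Measure (V → ℝ), IsGibbs β μ := by
  have : Fact (0 < 2 * π) := ⟨two_pi_pos⟩
  obtain ⟨ν, hν⟩ := exists_dlr β
  have := hν.1
  let rep : A → ℝ := fun a => (AddCircle.measurableEquivIoc (2 * π) 0 a : ℝ)
  have hrep : Measurable rep :=
    measurable_subtype_coe.comp (AddCircle.measurableEquivIoc (2 * π) 0).measurable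
  have rep_eq : ∀ t ∈ Set.Ioc 0 (2 * π), rep (t : A) = t := fun t ht =>
    congrArg Subtype.val (AddCircle.equivIoc_coe_eq (p := 2 * π) (a := 0) (by simpa using ht))
  have rep_coe : ∀ a : A, ((rep a : ℝ) : A) = a := fun a =>
    (AddCircle.equivIoc (2 * π) 0).symm_apply_apply a
  let R : Ω → V → ℝ := fun θ y => rep (θ y)
  have hR : Measurable R := measurable_pi_lambda _ fun y => hrep.comp (measurable_pi_apply y)
  have pR : ∀ η, pm (R η) = η := fun η => funext fun y => rep_coe _
  refine ⟨ν.map R, Measure.isProbabilityMeasure_map hR.aemeasurable, fun Λ f hf hb => ?_⟩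
  obtain ⟨c, c0, hc⟩ := bridge Λ
  have m : Measurable fun θ => exp (Ham β Λ θ) := (by fun_prop : Continuous _).measurable
  have mw : Measurable (weight β Λ) := by
    have : weight β Λ = fun θ => exp (Ham β Λ (pm θ)) := funext (weight_eq β Λ)
    rw [this]
    exact m.comp cont_pm.measurable
  have hF : Measurable fun θ => f (R θ) := hf.comp hR
  have hK : Measurable fun ω : V → ℝ =>
      (∫ σ, f (patch Λ σ ω) * weight β Λ (patch Λ σ ω) ∂(ref Λ)) /
        ∫ σ, weight β Λ (patch Λ σ ω) ∂(ref Λ) :=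
    (xd_int Λ (hf.mul mw)).div (xd_int Λ mw)
  rw [integral_map hR.aemeasurable hf.aestronglyMeasurable,
    integral_map hR.aemeasurable hK.aestronglyMeasurable,
    dlr_meas hν Λ hF (hb.imp fun C hC θ => hC _)]
  refine congrArg _ (funext fun η => ?_)
  have e1 := hc (fun θ => f (R θ) * exp (Ham β Λ θ)) (hF.mul m) (R η)
  have e2 := hc _ m (R η)
  rw [pR] at e1 e2
  rw [gam, ← mul_div_mul_left (nu _ _ _) _ c0.ne', ← e1, ← e2]
  simp only [weight_eq]
  congr 1
  have : ∀ᵐ σ ∂(ref Λ), ∀ i, σ i ∈ Set.Ioc 0 (2 * π) := by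
    refine ae_all_iff.2 fun i => Measure.tendsto_eval_ae_ae.eventually ?_
    rw [← restrict_Ioc_eq_restrict_Icc]
    exact ae_restrict_mem measurableSet_Ioc
  refine integral_congr_ae (this.mono fun σ hσ => ?_)
  have : R (pm (patch Λ σ (R η))) = patch Λ σ (R η) := by
    funext y
    by_cases hy : y ∈ Λ
    · simp only [R, pm, patch, hy, dif_pos]
      exact rep_eq _ (hσ _)
    · simp only [R, pm, patch, hy, dif_neg, not_false_eq_true, rep_coe]
  simp only [this]

end

end Pool.Agent.MP_b591f0_mp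

end
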